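import Mathlib

set_option autoImplicit false

/-!
# MP_b63a06_co: Reed's bound for all Cayley graphs of elementary abelian 3-groups: definitions (helper65)

`V` is a finite vector space over `ZMod 3`, `A` a subset with `0 ∈ A = -A` (`A = S ∪ {0}`, `S` the
connection set, so `|A| = Δ + 1`).
-/

namespace Pool.Agent.Lib.MP_b63a06_co.TR

variable {V : Type} [AddCommGroup V] [Module (ZMod 3) V]

/-- `0 ∈ A = -A`. -/
def Sy (A : Set V) : Prop := (0 : V) ∈ A ∧ ∀ a ∈ A, -a ∈ A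

/-- `W` avoids `A`. -/
def Avo (A : Set V) (W : Submodule (ZMod 3) V) : Prop := ∀ a ∈ A, a ∈ W → a = 0

/-- `W` is a maximal avoiding subspace (maximal order). -/
structure MaxAv (A : Set V) (W : Submodule (ZMod 3) V) : Prop where
  av : Avo A W
  mx : ∀ W' : Submodule (ZMod 3) V, Avo A W' → Nat.card W' ≤ Nat.card W

/-- the index of `W` (`M` in the texts). -/
noncomputable def ix (W : Submodule (ZMod 3) V) : ℕ := Nat.card (V ⧸ W)

/-- the elements of `A` in the coset `v + W`. -/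
def cs (A : Set V) (W : Submodule (ZMod 3) V) (v : V) : Set V := {a | a ∈ A ∧ a - v ∈ W}

/-- `v` is single: it is the only element of `A` in its coset of `W`. -/
def Sgl (A : Set V) (W : Submodule (ZMod 3) V) (v : V) : Prop :=
  v ∈ A ∧ ∀ a ∈ A, a - v ∈ W → a = v

/-- a conflict. -/
structure Conf (A : Set V) (W : Submodule (ZMod 3) V) (s t : V) : Prop where
  mx : MaxAv A W
  s1 : Sgl A W s
  t1 : Sgl A W t
  ns : s - t ∉ A

/-- the size of a conflict: number of elements of `A` in the cosets of `s - t` and `s + t`. -/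
noncomputable def NN (A : Set V) (W : Submodule (ZMod 3) V) (s t : V) : ℕ :=
  (cs A W (s - t)).ncard + (cs A W (s + t)).ncard

/-- the subspace spanned by `W`, `s`, `t`. -/
def FF (W : Submodule (ZMod 3) V) (s t : V) : Submodule (ZMod 3) V :=
  W ⊔ Submodule.span (ZMod 3) {s, t}

/-- a weak conflict modulo `Z`: a conflict of `V / Z` expressed in `V`. -/
structure WConf (A : Set V) (W Z : Submodule (ZMod 3) V) (a b : V) : Prop where
  mx : MaxAv A W
  le : Z ≤ W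
  a1 : a ∈ A
  b1 : b ∈ A
  a2 : ∀ x ∈ A, x - a ∈ W → x - a ∈ Z
  b2 : ∀ x ∈ A, x - b ∈ W → x - b ∈ Z
  ns : ∀ x ∈ A, x - (a - b) ∉ Z

/-- no proper quotient has a conflict. -/
def QR (A : Set V) : Prop := ∀ (W Z : Submodule (ZMod 3) V) (a b : V), Z ≠ ⊥ → ¬ WConf A W Z a b

/-- the Cayley graph with connection set `A \ {0}` has a colouring with `k` colours. -/
def ColA (A : Set V) (k : ℕ) : Prop :=
  ∃ c : V → ℕ, (∀ x, c x < k) ∧ ∀ x y, x ≠ y → x - y ∈ A → c x ≠ c y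

/-! ### The rules for a quotient in which the avoiding subspaces have order 3 -/

/-- `a` is single with respect to the direction `κ`. -/
def HS (H : V → Prop) (κ a : V) : Prop := H a ∧ ¬ H (a + κ) ∧ ¬ H (a - κ)

/-- `H` = membership in a set `A` for which the maximal avoiding subspaces have order 3 and which
has no conflict. -/
structure HR (H : V → Prop) : Prop where
  zero : H 0
  neg : ∀ x, H x → H (-x)
  mx : ∀ κ, ¬ H κ → ∀ v, H v ∨ H (v + κ) ∨ H (v - κ)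
  cf : ∀ κ a b, ¬ H κ → HS H κ a → HS H κ b → H (a - b)

/-- `H` = membership in a set `A` for which the maximal avoiding subspaces have order 3 and all
conflicts have size 5. -/
structure HE (H : V → Prop) : Prop where
  zero : H 0
  neg : ∀ x, H x → H (-x)
  mx : ∀ κ, ¬ H κ → ∀ v, H v ∨ H (v + κ) ∨ H (v - κ)
  ce : ∀ κ a b, ¬ H κ → HS H κ a → HS H κ b → ¬ H (a - b) →
    H (a - b + κ) ∧ H (a - b - κ) ∧ H (a + b) ∧ H (a + b + κ) ∧ H (a + b - κ)

/-- a pattern in a translate of `⟨s, t, z⟩`: positions `(a, b)` and indices `i`. -/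
abbrev Pat : Type := ZMod 3 → ZMod 3 → ZMod 3 → Prop

/-- the pattern of `H` in `y + ⟨s, t, z⟩`. -/
def PP (H : V → Prop) (s t z y : V) : Pat := fun a b i => H (y + a • s + b • t + i • z)

/-- the number of elements of a pattern. -/
noncomputable def TT (P : Pat) : ℕ := {p : ZMod 3 × ZMod 3 × ZMod 3 | P p.1 p.2.1 p.2.2}.ncard

/-- the number of elements at a position. -/
noncomputable def sz (P : Pat) (a b : ZMod 3) : ℕ := {i | P a b i}.ncard

/-- The exceptional patterns: 17 elements, exactly one position `(α, β)` has no element of index 0;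
all positions in the row and in the column of `(α, β)` have two elements, and this determines
`(α, β)`; the number of elements of index 1 is 4 or 5. -/
def Exc (P : Pat) : Prop := TT P = 17 ∧ ∃ α β : ZMod 3, α ≠ 0 ∧ β ≠ 0 ∧ ¬ P α β 0 ∧
  (∀ a b, ¬ (a = α ∧ b = β) → P a b 0) ∧ (∀ b, sz P α b = 2) ∧ (∀ a, sz P a β = 2) ∧
  (∃ b, sz P (-α) b ≠ 2) ∧ (∃ a, sz P a (-β) ≠ 2) ∧
  ({p : ZMod 3 × ZMod 3 | P p.1 p.2 1}.ncard = 4 ∨ {p : ZMod 3 × ZMod 3 | P p.1 p.2 1}.ncard = 5)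

/-- The pattern of a conflict of size 5, in the coordinates `(z, s, t)`:
`0, ± s, ± t, ± (s - t) ± z, ± (s + t) + ⟨z⟩`. -/
def EP (z s t : ZMod 3) : Prop :=
  (z = 0 ∧ (s = 0 ∨ t = 0)) ∨ (z ≠ 0 ∧ s + t = 0 ∧ s ≠ 0) ∨ (s = t ∧ s ≠ 0)

instance (z s t : ZMod 3) : Decidable (EP z s t) := by unfold EP; infer_instance

/-- translates of the pattern of a conflict of size 5. -/
def CenP (P : Pat) : Prop := ∃ a₀ b₀ i₀ : ZMod 3, ∀ a b i, P a b i ↔ EP (i - i₀) (a - a₀) (b - b₀)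

/-- four patterns; the masks of the indices at the positions `(a, b)`, at place `a + 3 b`. -/
def tyL : List (List ℕ) := [[1, 1, 7, 7, 1, 1, 1, 7, 1], [1, 3, 5, 5, 6, 4, 3, 2, 6],
  [1, 5, 3, 3, 6, 2, 5, 4, 6], [1, 7, 1, 1, 1, 7, 7, 1, 1]]

/-- pattern number `k` of the list `tyL`. -/
def Ty2 (k : Fin 4) (a b i : ZMod 3) : Prop :=
  ((tyL.getD k.val []).getD (a.val + 3 * b.val) 0).testBit i.val = true

instance (k : Fin 4) (a b i : ZMod 3) : Decidable (Ty2 k a b i) := by unfold Ty2; infer_instance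

/-- The rules for the pattern of a set without conflicts (`HR`). -/
structure RL (P : Pat) : Prop where
  p0 : P 0 0 0
  p1 : ¬ P 0 0 1
  p2 : ¬ P 0 0 2
  vert : ∀ a b, ∃ i, P a b i
  ln1 : ∀ a b i j, j ≠ 0 → P a b i ∨ P (a + 1) b (i + j) ∨ P (a - 1) b (i - j)
  ln2 : ∀ a b i j, j ≠ 0 → P a b i ∨ P a (b + 1) (i + j) ∨ P a (b - 1) (i - j)
  sn : ∀ a b i, P a b i → ¬ P a b (i + 1) → ¬ P a b (i - 1) →
    P (a + 1) b i ∧ P (a - 1) b i ∧ P a (b + 1) i ∧ P a (b - 1) i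
  th : ∀ a b i a' b' i', P a b i → ¬ P a b (i + 1) → ¬ P a b (i - 1) →
    P a' b' i' → ¬ P a' b' (i' + 1) → ¬ P a' b' (i' - 1) → P (-a - a') (-b - b') (-i - i')
  hs : ∀ j, j ≠ 0 → ∀ a b i a' b' i',
    P a b i → ¬ P (a + 1) b (i + j) → ¬ P (a - 1) b (i - j) →
    P a' b' i' → ¬ P (a' + 1) b' (i' + j) → ¬ P (a' - 1) b' (i' - j) →
    P (-a - a') (-b - b') (-i - i')
  ht : ∀ j, j ≠ 0 → ∀ a b i a' b' i',
    P a b i → ¬ P a (b + 1) (i + j) → ¬ P a (b - 1) (i - j) →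
    P a' b' i' → ¬ P a' (b' + 1) (i' + j) → ¬ P a' (b' - 1) (i' - j) →
    P (-a - a') (-b - b') (-i - i')
  k1 : ∀ a b i j α β, i ≠ j → α ≠ 0 → β ≠ 0 → ¬ P a b j → P (a - α) b i →
    ¬ P (a + α) b (-i - j) → P a (b - β) i → ¬ P a (b + β) (-i - j) → P (a + α) (b + β) i

/-- The rules for the pattern of a set in which all conflicts have size 5 (`HE`), for
`A ∩ ⟨s, t, z⟩` of the form `EP`. -/
structure RE (P : Pat) : Prop where
  p0 : P 0 0 0
  p1 : ¬ P 0 0 1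
  p2 : ¬ P 0 0 2
  vert : ∀ a b, ∃ i, P a b i
  dg : ∀ a b i, ¬ P a b i → ¬ P (a + 1) b i → ¬ P (a - 1) b i → ¬ P a (b + 1) i →
    ¬ P a (b - 1) i →
    P (a + 1) (b + 1) i ∧ P (a - 1) (b - 1) i ∧ P (a + 1) (b - 1) i ∧ P (a - 1) (b + 1) i
  s1 : ∀ a b i e, e ≠ 0 → P a b i → ¬ P a b (i + 1) → ¬ P a b (i - 1) → ¬ P (a - e) b i →
    P (a - e) b (i + 1) ∧ P (a - e) b (i - 1) ∧ ∀ k, P (a + e) b k
  t1 : ∀ a b i e, e ≠ 0 → P a b i → ¬ P a b (i + 1) → ¬ P a b (i - 1) → ¬ P a (b - e) i →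
    P a (b - e) (i + 1) ∧ P a (b - e) (i - 1) ∧ ∀ k, P a (b + e) k
  q1 : ∀ a b i e j, e ≠ 0 → j ≠ 0 → P a b i → ¬ P (a + 1) b (i + j) → ¬ P (a - 1) b (i - j) →
    ¬ P (a - e) (b - e) (i + e * j) →
    P (a - e + 1) (b - e) (i + e * j + j) ∧ P (a - e - 1) (b - e) (i + e * j - j) ∧
    P (a + e) (b + e) (i - e * j) ∧ P (a + e + 1) (b + e) (i - e * j + j) ∧
    P (a + e - 1) (b + e) (i - e * j - j)
  q2 : ∀ a b i e j, e ≠ 0 → j ≠ 0 → P a b i → ¬ P a (b + 1) (i + j) → ¬ P a (b - 1) (i - j) →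
    ¬ P (a - e) (b - e) (i + e * j) →
    P (a - e) (b - e + 1) (i + e * j + j) ∧ P (a - e) (b - e - 1) (i + e * j - j) ∧
    P (a + e) (b + e) (i - e * j) ∧ P (a + e) (b + e + 1) (i - e * j + j) ∧
    P (a + e) (b + e - 1) (i - e * j - j)

/-! ### Frames -/

/-- The pattern of a frame, in coordinates: `0`, `± e i`, `± (e i - e j)`. -/
def EE (c : Fin 3 → ZMod 3) : Prop :=
  (c 0 = 0 ∧ c 1 = 0) ∨ (c 0 = 0 ∧ c 2 = 0) ∨ (c 1 = 0 ∧ c 2 = 0) ∨
    (c 0 + c 1 + c 2 = 0 ∧ (c 0 = 0 ∨ c 1 = 0 ∨ c 2 = 0))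

instance (c : Fin 3 → ZMod 3) : Decidable (EE c) := by unfold EE; infer_instance

/-- linear combination. -/
def lc {n : ℕ} (e : Fin n → V) (c : Fin n → ZMod 3) : V := ∑ i, c i • e i

/-- A frame `F`: `A ∩ F = {0, ± e i, ± (e i - e j)}`, and `|F| = 9 |W|`. -/
structure Frame (A : Set V) (F : Submodule (ZMod 3) V) (e : Fin 3 → V) : Prop where
  mem : ∀ i, e i ∈ F
  ind : ∀ c, lc e c = 0 → c = 0
  cut : ∀ x, (x ∈ A ∧ x ∈ F) ↔ ∃ c, EE c ∧ x = lc e c
  big : ∀ W, MaxAv A W → Nat.card F = 9 * Nat.card W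

/-- `R` is a complement of `⟨e 0, e 1, e 2⟩` in `F`. -/
structure Cpl (F : Submodule (ZMod 3) V) (e : Fin 3 → V) (R : Submodule (ZMod 3) V) : Prop where
  le : R ≤ F
  dj : ∀ c, lc e c ∈ R → c = 0
  sp : ∀ x ∈ F, ∃ c, x - lc e c ∈ R

/-- the pattern of `A` in the coset `v + F`. -/
def QQ (A : Set V) (F : Submodule (ZMod 3) V) (v : V) : Set V := {q | q ∈ F ∧ v + q ∈ A}

/-- `α` is a centre: `A ∩ (α + F) = α + (A ∩ F)`. -/
def Cn (A : Set V) (F : Submodule (ZMod 3) V) (α : V) : Prop := ∀ q ∈ F, α + q ∈ A ↔ q ∈ A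

/-- the cosets of `F` which have a centre. -/
def CE (A : Set V) (F : Submodule (ZMod 3) V) : Set (V ⧸ F) := {c | ∃ α, Cn A F α ∧ F.mkQ α = c}

/-- `α, β` are independent modulo `F`. -/
def Ind2 (F : Submodule (ZMod 3) V) (α β : V) : Prop :=
  ∀ a b : ZMod 3, a • α + b • β ∈ F → a = 0 ∧ b = 0

/-- the pattern of `A` in `y + ⟨W, s, t⟩` modulo the kernel of a linear functional `φ`. -/
def PW (A : Set V) (W : Submodule (ZMod 3) V) (s t y : V) (φ : V →ₗ[ZMod 3] ZMod 3) : Pat :=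
  fun a b i => ∃ w ∈ W, φ w = i ∧ y + a • s + b • t + w ∈ A

/-- number of elements `x` of `A` in `y + ⟨W, s, t⟩` with `φ x = c`. -/
noncomputable def EC (A : Set V) (W : Submodule (ZMod 3) V) (s t y : V)
    (φ : V →ₗ[ZMod 3] ZMod 3) (c : ZMod 3) : ℕ := {x | x ∈ A ∧ x - y ∈ FF W s t ∧ φ x = c}.ncard

/-- The rule for the positions of the elements of a hyperplane (module P1). -/
def RuleD {L : Type} (D : L → Set (ZMod 3 × ZMod 3)) : Prop :=
  ∀ p, (∀ w, p ∉ D w) → ∀ w,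
    (∃ w', w' ≠ w ∧ (p + (1, 0) ∈ D w' ∨ p - (1, 0) ∈ D w' ∨ p + (0, 1) ∈ D w' ∨
      p - (0, 1) ∈ D w')) ∨ p + (1, -1) ∈ D w ∨ p - (1, -1) ∈ D w

/-- cliques have at most `ω` elements. -/
def Cq (A : Set V) (ω : ℕ) : Prop :=
  ∀ C : Set V, (∀ x ∈ C, ∀ y ∈ C, x ≠ y → x - y ∈ A) → C.ncard ≤ ω

/-- a conflict of centres. -/
structure CC (A : Set V) (F : Submodule (ZMod 3) V) (e : Fin 3 → V) (α β : V) : Prop where
  fr : Frame A F e
  ca : Cn A F α
  cb : Cn A F β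
  nd : α - β ∉ A
  id : Ind2 F α β

/-- the map `v ↦ v + φ v • γ`. -/
def flp (φ : V →ₗ[ZMod 3] ZMod 3) (γ : V) : V →ₗ[ZMod 3] V := LinearMap.id + φ.smulRight γ

theorem ncard_QQ (A : Set V) (F : Submodule (ZMod 3) V) (v : V) :
    (QQ A F v).ncard = (cs A F v).ncard := by
  rw [← Set.ncard_image_of_injective (QQ A F v) (add_right_injective v)]
  congr 1
  ext x
  constructor
  · rintro ⟨q, ⟨hq, ha⟩, rfl⟩
    exact ⟨ha, by simpa using hq⟩
  · rintro ⟨ha, hx⟩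
    exact ⟨x - v, ⟨hx, by simpa using ha⟩, by simp⟩

end Pool.Agent.Lib.MP_b63a06_co.TR
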