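import Pool.Agent.Lib.MP_b63a06_co.TR.SpecB

section
set_option autoImplicit false

/-!
# MP_b63a06_co, TR: module B1F (the finite classification for conflicts of size 5)

A pattern is coded by a number with 27 bits; the search over the nine masks is evaluated by the
kernel. The clauses of every level are instances of the rules `RE`.
-/

namespace Pool.Agent.Lib.MP_b63a06_co.TR

namespace B1FM

/-- a place of a pattern -/
abbrev T : Type := ZMod 3 × ZMod 3 × ZMod 3

/-- an instance of a rule -/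
abbrev RI : Type := ℕ × ZMod 3 × ZMod 3 × ZMod 3 × ZMod 3 × ZMod 3 × ℕ

/-- number of a bit -/
def bt (t : T) : ℕ := 9 * t.2.1.val + 3 * t.1.val + t.2.2.val

/-- mask of a list -/
def ms : List T → ℕ
  | [] => 0
  | t :: l => 2 ^ bt t ||| ms l

/-- the positive and the negative literals of an instance -/
def lit : RI → List T × List T
  | (0, a, b, i, _, _, 0) => ([], [(a, b, i), (a + 1, b, i), (a - 1, b, i), (a, b + 1, i),
      (a, b - 1, i), (a + 1, b + 1, i)])
  | (0, a, b, i, _, _, 1) => ([], [(a, b, i), (a + 1, b, i), (a - 1, b, i), (a, b + 1, i),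
      (a, b - 1, i), (a - 1, b - 1, i)])
  | (0, a, b, i, _, _, 2) => ([], [(a, b, i), (a + 1, b, i), (a - 1, b, i), (a, b + 1, i),
      (a, b - 1, i), (a + 1, b - 1, i)])
  | (0, a, b, i, _, _, 3) => ([], [(a, b, i), (a + 1, b, i), (a - 1, b, i), (a, b + 1, i),
      (a, b - 1, i), (a - 1, b + 1, i)])
  | (1, a, b, i, e, _, 0) => ([(a, b, i)], [(a, b, i + 1), (a, b, i - 1), (a - e, b, i),
      (a - e, b, i + 1)])
  | (1, a, b, i, e, _, 1) => ([(a, b, i)], [(a, b, i + 1), (a, b, i - 1), (a - e, b, i),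
      (a - e, b, i - 1)])
  | (1, a, b, i, e, _, k) => ([(a, b, i)], [(a, b, i + 1), (a, b, i - 1), (a - e, b, i),
      (a + e, b, (k : ZMod 3))])
  | (2, a, b, i, e, _, 0) => ([(a, b, i)], [(a, b, i + 1), (a, b, i - 1), (a, b - e, i),
      (a, b - e, i + 1)])
  | (2, a, b, i, e, _, 1) => ([(a, b, i)], [(a, b, i + 1), (a, b, i - 1), (a, b - e, i),
      (a, b - e, i - 1)])
  | (2, a, b, i, e, _, k) => ([(a, b, i)], [(a, b, i + 1), (a, b, i - 1), (a, b - e, i),
      (a, b + e, (k : ZMod 3))])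
  | (3, a, b, i, e, j, 0) => ([(a, b, i)], [(a + 1, b, i + j), (a - 1, b, i - j),
      (a - e, b - e, i + e * j), (a - e + 1, b - e, i + e * j + j)])
  | (3, a, b, i, e, j, 1) => ([(a, b, i)], [(a + 1, b, i + j), (a - 1, b, i - j),
      (a - e, b - e, i + e * j), (a - e - 1, b - e, i + e * j - j)])
  | (3, a, b, i, e, j, 2) => ([(a, b, i)], [(a + 1, b, i + j), (a - 1, b, i - j),
      (a - e, b - e, i + e * j), (a + e, b + e, i - e * j)])
  | (3, a, b, i, e, j, 3) => ([(a, b, i)], [(a + 1, b, i + j), (a - 1, b, i - j),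
      (a - e, b - e, i + e * j), (a + e + 1, b + e, i - e * j + j)])
  | (3, a, b, i, e, j, 4) => ([(a, b, i)], [(a + 1, b, i + j), (a - 1, b, i - j),
      (a - e, b - e, i + e * j), (a + e - 1, b + e, i - e * j - j)])
  | (4, a, b, i, e, j, 0) => ([(a, b, i)], [(a, b + 1, i + j), (a, b - 1, i - j),
      (a - e, b - e, i + e * j), (a - e, b - e + 1, i + e * j + j)])
  | (4, a, b, i, e, j, 1) => ([(a, b, i)], [(a, b + 1, i + j), (a, b - 1, i - j),
      (a - e, b - e, i + e * j), (a - e, b - e - 1, i + e * j - j)])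
  | (4, a, b, i, e, j, 2) => ([(a, b, i)], [(a, b + 1, i + j), (a, b - 1, i - j),
      (a - e, b - e, i + e * j), (a + e, b + e, i - e * j)])
  | (4, a, b, i, e, j, 3) => ([(a, b, i)], [(a, b + 1, i + j), (a, b - 1, i - j),
      (a - e, b - e, i + e * j), (a + e, b + e + 1, i - e * j + j)])
  | (4, a, b, i, e, j, 4) => ([(a, b, i)], [(a, b + 1, i + j), (a, b - 1, i - j),
      (a - e, b - e, i + e * j), (a + e, b + e - 1, i - e * j - j)])
  | _ => ([(0, 0, 0)], [(0, 0, 0)])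

/-- the clause of an instance: care mask and value -/
def cc (q : RI) : ℕ × ℕ := (ms ((lit q).1 ++ (lit q).2), ms (lit q).1)

/-- the instance is admissible -/
def ck (q : RI) : Bool :=
  decide (q.2.2.2.2.1 ≠ 0) && decide (q.2.2.2.2.2.1 ≠ 0) && (lit q).1.all fun t => !(lit q).2.contains t

/-- clauses of level 1 -/
def C1 : List (ℕ × ℕ) :=
  [(31, 1), (47, 1)]

/-- their instances -/
def I1 : List RI :=
  [(1, 0, 0, 0, 2, 1, 0), (1, 0, 0, 0, 2, 1, 1)]

/-- clauses of level 2 -/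
def C2 : List (ℕ × ℕ) :=
  [(103, 1), (199, 1), (327, 1), (271, 1), (79, 1), (87, 1),
    (143, 1)]

/-- their instances -/
def I2 : List RI :=
  [(1, 0, 0, 0, 1, 1, 2), (1, 0, 0, 0, 1, 1, 0), (1, 0, 0, 0, 1, 1, 1), (1, 0, 0, 0, 2, 1, 2),
    (1, 0, 0, 0, 1, 1, 3), (1, 0, 0, 0, 1, 1, 4), (1, 0, 0, 0, 2, 1, 4)]

/-- clauses of level 3 -/
def C3 : List (ℕ × ℕ) :=
  [(1543, 1), (2567, 1)]

/-- their instances -/
def I3 : List RI :=
  [(2, 0, 0, 0, 2, 1, 0), (2, 0, 0, 0, 2, 1, 1)]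

/-- clauses of level 4 -/
def C4 : List (ℕ × ℕ) :=
  [(6242, 64), (5204, 64), (17681, 1), (10401, 1), (12344, 8), (20536, 8),
    (15872, 512), (24064, 512), (8844, 128), (17162, 256)]

/-- their instances -/
def I4 : List RI :=
  [(3, 2, 0, 0, 2, 1, 0), (3, 2, 0, 0, 2, 2, 0), (3, 0, 0, 0, 2, 1, 1), (3, 0, 0, 0, 2, 2, 1),
    (2, 1, 0, 0, 2, 1, 0), (2, 1, 0, 0, 2, 1, 1), (1, 0, 1, 0, 2, 1, 0), (1, 0, 1, 0, 2, 1, 1),
    (3, 2, 0, 1, 2, 1, 0), (3, 2, 0, 2, 2, 2, 0)]

/-- clauses of level 5 -/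
def C5 : List (ℕ × ℕ) :=
  [(139404, 8), (82186, 8), (71714, 4096), (136212, 4096), (131724, 8), (66314, 8),
    (52736, 512), (49425, 1), (41121, 1), (135252, 16), (239616, 131072), (164288, 64),
    (192512, 4096), (98752, 64), (126976, 8192), (235520, 32768), (67682, 32), (126976, 4096),
    (192512, 16384), (160768, 8192), (44544, 512), (225280, 16384), (132180, 16), (40448, 512),
    (160256, 4096), (71746, 2048), (63488, 4096), (62464, 4096), (61952, 4096), (62464, 8192),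
    (225280, 8192), (63488, 16384), (239616, 65536), (246784, 131072), (94720, 4096), (96256, 16384),
    (234496, 32768), (238080, 65536), (246272, 131072), (101888, 512), (167424, 512), (246784, 65536),
    (234496, 65536), (235520, 131072), (94720, 8192), (160256, 16384), (138752, 512), (73216, 512),
    (95232, 8192), (96256, 8192), (161792, 16384), (160768, 16384), (233984, 32768), (246272, 32768),
    (238080, 32768), (238592, 65536), (247808, 131072), (139788, 8192), (82442, 16384)]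

/-- their instances -/
def I5 : List RI :=
  [(3, 1, 0, 0, 2, 1, 1), (3, 1, 0, 0, 2, 2, 1), (3, 1, 1, 0, 1, 1, 0), (3, 1, 1, 0, 1, 2, 0),
    (3, 1, 0, 0, 2, 1, 0), (3, 1, 0, 0, 2, 2, 0), (1, 0, 1, 0, 1, 1, 2), (3, 0, 0, 0, 2, 1, 0),
    (3, 0, 0, 0, 2, 2, 0), (3, 1, 0, 1, 2, 2, 1), (1, 2, 1, 2, 2, 1, 4), (2, 2, 0, 0, 2, 1, 1),
    (1, 1, 1, 0, 2, 1, 1), (2, 2, 0, 0, 2, 1, 0), (1, 1, 1, 1, 2, 1, 1), (1, 2, 1, 0, 1, 1, 2),
    (3, 1, 0, 2, 2, 1, 0), (1, 1, 1, 0, 2, 1, 0), (1, 1, 1, 2, 2, 1, 0), (1, 1, 1, 1, 1, 1, 2),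
    (1, 0, 1, 0, 1, 1, 4), (1, 1, 1, 2, 2, 1, 1), (3, 1, 0, 1, 2, 2, 0), (1, 0, 1, 0, 1, 1, 3),
    (1, 1, 1, 0, 1, 1, 2), (3, 0, 1, 2, 1, 1, 0), (1, 1, 1, 0, 2, 1, 2), (1, 1, 1, 0, 2, 1, 4),
    (1, 1, 1, 0, 1, 1, 3), (1, 1, 1, 1, 1, 1, 3), (1, 1, 1, 1, 2, 1, 0), (1, 1, 1, 2, 1, 1, 3),
    (1, 2, 1, 1, 1, 1, 2), (1, 2, 1, 2, 1, 1, 4), (1, 1, 1, 0, 1, 1, 4), (1, 1, 1, 2, 1, 1, 4),
    (1, 2, 1, 0, 1, 1, 4), (1, 2, 1, 1, 1, 1, 3), (1, 2, 1, 2, 1, 1, 3), (1, 0, 1, 0, 1, 1, 0),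
    (1, 0, 1, 0, 1, 1, 1), (1, 2, 1, 1, 2, 1, 2), (1, 2, 1, 1, 2, 1, 3), (1, 2, 1, 2, 2, 1, 3),
    (1, 1, 1, 1, 2, 1, 3), (1, 1, 1, 2, 2, 1, 3), (1, 0, 1, 0, 2, 1, 2), (1, 0, 1, 0, 2, 1, 4),
    (1, 1, 1, 1, 1, 1, 4), (1, 1, 1, 1, 2, 1, 2), (1, 1, 1, 2, 1, 1, 2), (1, 1, 1, 2, 2, 1, 4),
    (1, 2, 1, 0, 1, 1, 3), (1, 2, 1, 0, 2, 1, 2), (1, 2, 1, 0, 2, 1, 4), (1, 2, 1, 1, 1, 1, 4),
    (1, 2, 1, 2, 1, 1, 2), (3, 1, 1, 1, 1, 1, 0), (3, 1, 1, 2, 1, 2, 0)]

/-- clauses of level 6 -/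
def C6 : List (ℕ × ℕ) :=
  [(786439, 1), (1310727, 1), (1049095, 1), (264199, 1), (532620, 8), (655500, 8),
    (1114378, 8), (1065226, 8), (262663, 1), (263175, 1), (524807, 1), (1066001, 1),
    (534561, 1), (599058, 0), (1198116, 0), (590994, 0), (1181988, 0), (333826, 262144),
    (398340, 262144), (1098753, 1), (567297, 1), (393300, 16), (664068, 524288), (1131010, 1048576)]

/-- their instances -/
def I6 : List RI :=
  [(2, 0, 0, 0, 1, 1, 0), (2, 0, 0, 0, 1, 1, 1), (2, 0, 0, 0, 2, 1, 2), (2, 0, 0, 0, 1, 1, 2),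
    (3, 1, 0, 0, 1, 1, 4), (3, 1, 0, 0, 1, 1, 2), (3, 1, 0, 0, 1, 2, 2), (3, 1, 0, 0, 1, 2, 4),
    (2, 0, 0, 0, 1, 1, 3), (2, 0, 0, 0, 1, 1, 4), (2, 0, 0, 0, 2, 1, 4), (4, 0, 0, 0, 2, 1, 1),
    (4, 0, 0, 0, 2, 2, 1), (0, 0, 1, 1, 1, 1, 2), (0, 0, 1, 2, 1, 1, 2), (0, 0, 0, 1, 1, 1, 3),
    (0, 0, 0, 2, 1, 1, 3), (4, 0, 2, 0, 1, 1, 3), (4, 0, 2, 0, 1, 2, 3), (4, 0, 0, 0, 2, 1, 4),
    (4, 0, 0, 0, 2, 2, 4), (3, 1, 0, 1, 1, 2, 2), (4, 0, 2, 1, 1, 1, 3), (4, 0, 2, 2, 1, 2, 3)]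

/-- clauses of level 7 -/
def C7 : List (ℕ × ℕ) :=
  [(8921604, 512), (5259778, 512), (4198498, 64), (8913036, 8), (8519764, 64), (5243146, 8),
    (5308930, 512), (6291512, 8), (8389716, 64), (8392788, 64), (9044484, 512), (4260106, 8),
    (14688288, 4194304), (4196450, 64), (4276738, 512), (3195904, 1024), (3195904, 32768), (2664448, 2048),
    (8519820, 8), (2664448, 32768), (2138272, 32), (2146576, 16), (14696464, 8388608), (12320768, 262144),
    (2113592, 8), (8126464, 262144), (2101304, 8), (8528388, 512), (8650836, 64), (8655876, 1024),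
    (4265986, 2048), (2105400, 8), (6320128, 8192), (14696480, 8388608), (8524804, 1024), (10514432, 16384),
    (9439524, 0), (10514432, 4096), (2125840, 8192), (2125856, 16384), (8913036, 128), (4456546, 64),
    (4462594, 2048), (4719762, 0), (10485816, 8), (5243146, 256), (2125832, 4096), (4222992, 8192),
    (8417312, 16384), (4265986, 4096), (8524804, 4096), (4259938, 64), (2125856, 4096), (2125840, 4096),
    (12611584, 8192), (12611584, 16384), (14688272, 4194304), (8396940, 128), (4210954, 256), (6320128, 4096),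
    (4203666, 0), (8407332, 0), (4793346, 0), (9586692, 0), (4268178, 0), (8536356, 0),
    (14696464, 4194304), (14688288, 8388608)]

/-- their instances -/
def I7 : List RI :=
  [(4, 0, 1, 0, 2, 1, 1), (4, 0, 1, 0, 2, 2, 1), (3, 2, 0, 0, 1, 1, 3), (3, 1, 0, 0, 1, 1, 0),
    (3, 2, 0, 0, 1, 2, 4), (3, 1, 0, 0, 1, 2, 0), (4, 0, 1, 0, 2, 2, 3), (2, 1, 0, 0, 1, 1, 0),
    (3, 2, 0, 0, 1, 2, 2), (3, 2, 0, 0, 1, 2, 3), (4, 0, 1, 0, 2, 1, 3), (3, 1, 0, 0, 2, 2, 3),
    (2, 1, 2, 1, 1, 1, 2), (3, 2, 0, 0, 1, 1, 2), (3, 0, 1, 0, 2, 2, 3), (3, 0, 1, 1, 2, 1, 1),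
    (3, 2, 1, 0, 2, 1, 0), (3, 0, 1, 2, 2, 2, 1), (3, 1, 0, 0, 2, 1, 3), (3, 2, 1, 0, 2, 2, 0),
    (4, 1, 0, 2, 2, 2, 1), (4, 1, 0, 1, 2, 1, 1), (2, 1, 2, 2, 1, 1, 4), (1, 0, 2, 0, 2, 1, 1),
    (2, 1, 0, 0, 1, 1, 2), (1, 0, 2, 0, 2, 1, 0), (2, 1, 0, 0, 1, 1, 3), (3, 0, 1, 0, 2, 1, 3),
    (3, 2, 0, 0, 1, 2, 1), (4, 0, 1, 1, 2, 2, 1), (3, 0, 1, 2, 2, 1, 3), (2, 1, 0, 0, 1, 1, 4),
    (2, 1, 1, 1, 2, 1, 1), (2, 1, 2, 2, 1, 1, 2), (3, 0, 1, 1, 2, 2, 3), (2, 1, 1, 2, 2, 1, 0),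
    (0, 0, 0, 2, 1, 1, 2), (2, 1, 1, 0, 2, 1, 1), (2, 1, 1, 1, 1, 1, 3), (2, 1, 1, 2, 1, 1, 3),
    (3, 2, 0, 1, 1, 1, 1), (3, 2, 0, 0, 1, 1, 1), (4, 0, 1, 2, 2, 1, 1), (0, 0, 0, 1, 1, 1, 2),
    (2, 1, 0, 0, 1, 1, 1), (3, 2, 0, 2, 1, 2, 1), (2, 1, 1, 0, 1, 1, 3), (2, 1, 1, 1, 1, 1, 4),
    (2, 1, 1, 2, 1, 1, 2), (3, 1, 1, 0, 1, 1, 4), (3, 1, 1, 0, 1, 2, 4), (3, 2, 0, 0, 1, 1, 4),
    (2, 1, 1, 0, 2, 1, 2), (2, 1, 1, 0, 2, 1, 4), (2, 1, 1, 1, 2, 1, 0), (2, 1, 1, 2, 2, 1, 1),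
    (2, 1, 2, 1, 1, 1, 4), (3, 2, 0, 1, 1, 1, 3), (3, 2, 0, 2, 1, 2, 3), (2, 1, 1, 0, 2, 1, 0),
    (0, 1, 0, 1, 1, 1, 3), (0, 1, 0, 2, 1, 1, 3), (0, 0, 1, 1, 1, 1, 0), (0, 0, 1, 2, 1, 1, 0),
    (0, 1, 0, 1, 1, 1, 0), (0, 1, 0, 2, 1, 1, 0), (2, 1, 2, 1, 2, 1, 2), (2, 1, 2, 2, 2, 1, 4)]

/-- clauses of level 8 -/
def C8 : List (ℕ × ℕ) :=
  [(17301644, 8), (69249024, 8192), (34653184, 16384), (35651857, 1), (69206177, 1), (85721088, 262144),
    (42205204, 262144), (33690628, 4096), (83886528, 64), (65011712, 4194304), (50561024, 65536), (117473536, 16777216),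
    (67180546, 4096), (84115456, 131072), (71565346, 262144), (52166656, 262144), (50332096, 64), (98566144, 8388608),
    (67676160, 8192), (120586240, 16777216), (69738528, 8192), (22020610, 512), (117473536, 67108864), (17826058, 8),
    (76562468, 0), (117473408, 16777216), (38281234, 0), (33629314, 0), (67635329, 1), (67258628, 0),
    (16908428, 8), (16843018, 8), (48758784, 4194304), (49283072, 8388608)]

/-- their instances -/
def I8 : List RI :=
  [(3, 1, 0, 0, 1, 1, 1), (3, 1, 1, 1, 2, 2, 1), (3, 1, 1, 2, 2, 1, 0), (3, 0, 0, 0, 1, 1, 1),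
    (3, 0, 0, 0, 1, 2, 1), (1, 0, 2, 0, 1, 1, 1), (3, 0, 2, 0, 2, 2, 1), (3, 1, 1, 0, 1, 2, 2),
    (2, 2, 0, 0, 1, 1, 1), (1, 1, 2, 1, 2, 1, 1), (2, 2, 1, 1, 2, 1, 1), (2, 2, 2, 0, 1, 1, 2),
    (3, 1, 1, 0, 1, 1, 2), (2, 2, 1, 2, 2, 1, 0), (3, 0, 2, 0, 2, 1, 1), (1, 0, 2, 0, 1, 1, 0),
    (2, 2, 0, 0, 1, 1, 0), (1, 1, 2, 2, 2, 1, 0), (3, 1, 1, 1, 2, 2, 0), (1, 2, 2, 0, 1, 1, 2),
    (4, 1, 1, 1, 2, 2, 4), (4, 0, 1, 0, 2, 2, 4), (2, 2, 2, 2, 2, 1, 3), (3, 1, 0, 0, 1, 2, 1),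
    (0, 1, 2, 2, 1, 1, 3), (2, 2, 2, 0, 1, 1, 4), (0, 1, 2, 1, 1, 1, 3), (0, 2, 1, 1, 1, 1, 2),
    (4, 0, 0, 0, 1, 2, 0), (0, 2, 1, 2, 1, 1, 2), (3, 1, 0, 0, 2, 1, 4), (3, 1, 0, 0, 2, 2, 4),
    (1, 1, 2, 1, 1, 1, 4), (1, 1, 2, 2, 1, 1, 4)]

/-- the leaves -/
def LV : List ℕ := [130511433, 104832073, 33091145, 31760329, 105802585, 110454505, 115643377, 20943481, 19391417]
/-! ### The search -/

/-- number of bits of a mask -/
def pc (m : ℕ) : ℕ := m % 2 + m / 2 % 2 + m / 4 % 2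

/-- the masks with their numbers of bits -/
def masks : List (ℕ × ℕ) := [(1, 1), (2, 1), (3, 2), (4, 1), (5, 2), (6, 2), (7, 3)]

/-- some clause is violated -/
def vio (x : ℕ) : List (ℕ × ℕ) → Bool
  | [] => false
  | c :: l => cond (Nat.beq (Nat.land x c.1) c.2) true (vio x l)

/-- evaluate the argument first -/
def frc (y : ℕ) (f : ℕ → Bool) : Bool :=
  match y with
  | 0 => f 0
  | n + 1 => f (n + 1)

theorem frc_eq (y : ℕ) (f : ℕ → Bool) : frc y f = f y := by
  cases y <;> rfl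

/-- the search -/
def srch (leaf : ℕ → Bool) : List (ℕ × ℕ × List (ℕ × ℕ)) → ℕ → ℕ → Bool
  | [], x, _ => leaf x
  | e :: L, x, c => masks.all fun m =>
      cond (Nat.ble (Nat.add (Nat.add c m.2) e.2.1) 15)
        (frc (Nat.add x (Nat.mul m.1 e.1)) fun y =>
          cond (vio y e.2.2) true (srch leaf L y (Nat.add c m.2)))
        true

/-- the levels -/
def LL : List (ℕ × ℕ × List (ℕ × ℕ)) :=
  [(8, 7, C1), (64, 6, C2), (512, 5, C3), (4096, 4, C4), (32768, 3, C5), (262144, 2, C6),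
    (2097152, 1, C7), (16777216, 0, C8)]

/-- the computation -/
theorem comp : srch (fun x => LV.any fun v => Nat.beq v x) LL 1 1 = true := by decide +kernel

/-! ### Soundness of the search -/

theorem vio_false (x : ℕ) : ∀ l : List (ℕ × ℕ), (∀ c ∈ l, x &&& c.1 ≠ c.2) → vio x l = false
  | [], _ => rfl
  | c :: l, h => by
      have h1 : Nat.beq (Nat.land x c.1) c.2 = false := by
        have := h c (List.mem_cons_self ..)
        cases hb : Nat.beq (Nat.land x c.1) c.2
        · rfl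
        · exact absurd (Nat.eq_of_beq_eq_true hb) this
      rw [vio, h1, cond_false]
      exact vio_false x l fun c hc => h c (List.mem_cons_of_mem _ hc)

theorem land_mod (X n c : ℕ) (hc : c < 2 ^ n) : (X % 2 ^ n) &&& c = X &&& c := by
  apply Nat.eq_of_testBit_eq
  intro i
  rw [Nat.testBit_land, Nat.testBit_land, Nat.testBit_mod_two_pow]
  by_cases hi : i < n
  · simp [hi]
  · have : c.testBit i = false :=
      Nat.testBit_lt_two_pow (lt_of_lt_of_le hc (Nat.pow_le_pow_right (by norm_num) (by omega)))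
    simp [this]

/-- the levels are right for the number `X` -/
def Gd (X : ℕ) : ℕ → List (ℕ × ℕ × List (ℕ × ℕ)) → Prop
  | k, [] => k = 9
  | k, e :: L => k < 9 ∧ e.1 = 8 ^ k ∧ e.2.1 + k = 8 ∧
      (∀ c ∈ e.2.2, c.1 < 8 ^ (k + 1) ∧ X &&& c.1 ≠ c.2) ∧ Gd X (k + 1) L

theorem mem_masks (m : ℕ) (h0 : m ≠ 0) (h8 : m < 8) : (m, pc m) ∈ masks := by
  interval_cases m
  · exact absurd rfl h0
  all_goals decide

theorem pc_pos (m : ℕ) (h0 : m ≠ 0) (h8 : m < 8) : 1 ≤ pc m := by
  interval_cases m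
  · exact absurd rfl h0
  all_goals decide

theorem srch_sound (leaf : ℕ → Bool) (X : ℕ) (hX : X < 8 ^ 9)
    (hnz : ∀ j, j < 9 → X / 8 ^ j % 8 ≠ 0)
    (hT : ∑ j ∈ Finset.range 9, pc (X / 8 ^ j % 8) ≤ 15) :
    ∀ (L : List (ℕ × ℕ × List (ℕ × ℕ))) (k : ℕ), Gd X k L →
      srch leaf L (X % 8 ^ k) (∑ j ∈ Finset.range k, pc (X / 8 ^ j % 8)) = true → leaf X = true
  | [], k, hG, h => by
      have hk : k = 9 := hG
      subst hk
      rw [srch, Nat.mod_eq_of_lt hX] at h
      exact h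
  | e :: L, k, hG, h => by
      obtain ⟨hk, h1, h2, h3, h4⟩ := hG
      rw [srch, List.all_eq_true] at h
      have hm := h _ (mem_masks (X / 8 ^ k % 8) (hnz k hk) (Nat.mod_lt _ (by norm_num)))
      have hsum : (∑ j ∈ Finset.range (k + 1), pc (X / 8 ^ j % 8)) + e.2.1 ≤ 15 := by
        have hle : (∑ j ∈ Finset.range (k + 1), pc (X / 8 ^ j % 8)) + e.2.1 ≤
            ∑ j ∈ Finset.range 9, pc (X / 8 ^ j % 8) := by
          have h9 : Finset.range 9 = Finset.range (k + 1) ∪ Finset.Ico (k + 1) 9 := by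
            ext j
            simp only [Finset.mem_range, Finset.mem_union, Finset.mem_Ico]
            omega
          rw [h9, Finset.sum_union (by
            rw [Finset.disjoint_left]
            intro j hj hj'
            simp only [Finset.mem_range, Finset.mem_Ico] at hj hj'
            omega)]
          have hc : e.2.1 ≤ ∑ j ∈ Finset.Ico (k + 1) 9, pc (X / 8 ^ j % 8) := by
            calc e.2.1 = ∑ j ∈ Finset.Ico (k + 1) 9, 1 := by
                  rw [Finset.sum_const, Nat.card_Ico, smul_eq_mul, mul_one]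
                  omega
              _ ≤ _ := Finset.sum_le_sum fun j hj => by
                  rw [Finset.mem_Ico] at hj
                  exact pc_pos _ (hnz j hj.2) (Nat.mod_lt _ (by norm_num))
          omega
        exact hle.trans hT
      have hb : Nat.ble (Nat.add (Nat.add (∑ j ∈ Finset.range k, pc (X / 8 ^ j % 8))
          (X / 8 ^ k % 8, pc (X / 8 ^ k % 8)).2) e.2.1) 15 = true := by
        rw [Nat.ble_eq]
        rw [Finset.sum_range_succ] at hsum
        exact hsum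
      have hx : Nat.add (X % 8 ^ k) (Nat.mul (X / 8 ^ k % 8, pc (X / 8 ^ k % 8)).1 e.1) =
          X % 8 ^ (k + 1) := by
        rw [Nat.mod_pow_succ, h1]
        show X % 8 ^ k + (X / 8 ^ k % 8) * 8 ^ k = _
        rw [mul_comm (X / 8 ^ k % 8)]
      have hv : vio (X % 8 ^ (k + 1)) e.2.2 = false := by
        apply vio_false
        intro c hc
        have h8 : (8 : ℕ) ^ (k + 1) = 2 ^ (3 * (k + 1)) := by
          rw [show (8 : ℕ) = 2 ^ 3 by norm_num, ← pow_mul]
        rw [h8, land_mod _ _ _ (h8 ▸ (h3 c hc).1)]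
        exact (h3 c hc).2
      rw [hb, cond_true, frc_eq, hx, hv, cond_false] at hm
      have hs : Nat.add (∑ j ∈ Finset.range k, pc (X / 8 ^ j % 8))
          (X / 8 ^ k % 8, pc (X / 8 ^ k % 8)).2 = ∑ j ∈ Finset.range (k + 1), pc (X / 8 ^ j % 8) := by
        rw [Finset.sum_range_succ]
        rfl
      rw [hs] at hm
      exact srch_sound leaf X hX hnz hT L (k + 1) h4 hm

/-! ### The code of a pattern -/

theorem bt_lt : ∀ t : T, bt t < 27 := by decide

theorem bt_inj : ∀ t t' : T, bt t = bt t' → t = t' := by decide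

theorem bt_inv : ∀ t : T, ((bt t / 3 % 3 : ℕ) : ZMod 3) = t.1 ∧ ((bt t / 9 : ℕ) : ZMod 3) = t.2.1 ∧
    ((bt t % 3 : ℕ) : ZMod 3) = t.2.2 := by decide

open scoped Classical in
/-- the code -/
noncomputable def code (P : Pat) : ℕ :=
  Nat.ofBits (n := 27) fun k : Fin 27 =>
    decide (P ((k.1 / 3 % 3 : ℕ) : ZMod 3) ((k.1 / 9 : ℕ) : ZMod 3) ((k.1 % 3 : ℕ) : ZMod 3))

theorem code_lt (P : Pat) : code P < 8 ^ 9 := by
  have := Nat.ofBits_lt_two_pow (n := 27) (fun k : Fin 27 => by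
    classical
    exact decide (P ((k.1 / 3 % 3 : ℕ) : ZMod 3) ((k.1 / 9 : ℕ) : ZMod 3) ((k.1 % 3 : ℕ) : ZMod 3)))
  rw [show (8 : ℕ) ^ 9 = 2 ^ 27 by norm_num]
  exact this

theorem testBit_code (P : Pat) (t : T) : (code P).testBit (bt t) = true ↔ P t.1 t.2.1 t.2.2 := by
  classical
  unfold code
  rw [Nat.testBit_ofBits_lt _ _ (bt_lt t)]
  obtain ⟨h1, h2, h3⟩ := bt_inv t
  simp only [h1, h2, h3, decide_eq_true_eq]

theorem testBit_ms : ∀ (l : List T) (t : T), (ms l).testBit (bt t) = true ↔ t ∈ l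
  | [], t => by simp [ms]
  | a :: l, t => by
      rw [ms, Nat.testBit_lor, Nat.testBit_two_pow, Bool.or_eq_true, decide_eq_true_eq,
        testBit_ms l t, List.mem_cons]
      constructor
      · rintro (h | h)
        · exact Or.inl (bt_inj _ _ h).symm
        · exact Or.inr h
      · rintro (h | h)
        · exact Or.inl (by rw [h])
        · exact Or.inr h

theorem lit_sound (P : Pat) (hP : RE P) (q : RI) (he : q.2.2.2.2.1 ≠ 0) (hj : q.2.2.2.2.2.1 ≠ 0)
    (h1 : ∀ t ∈ (lit q).1, P t.1 t.2.1 t.2.2) (h2 : ∀ t ∈ (lit q).2, ¬ P t.1 t.2.1 t.2.2) :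
    False := by
  unfold lit at h1 h2
  split at h1 <;> simp only [List.mem_cons, List.not_mem_nil, or_false, forall_eq_or_imp, forall_eq,
    false_imp_iff, implies_true] at h1 h2 he hj
  · exact h2.2.2.2.2.2 (hP.dg _ _ _ h2.1 h2.2.1 h2.2.2.1 h2.2.2.2.1 h2.2.2.2.2.1).1
  · exact h2.2.2.2.2.2 (hP.dg _ _ _ h2.1 h2.2.1 h2.2.2.1 h2.2.2.2.1 h2.2.2.2.2.1).2.1
  · exact h2.2.2.2.2.2 (hP.dg _ _ _ h2.1 h2.2.1 h2.2.2.1 h2.2.2.2.1 h2.2.2.2.2.1).2.2.1
  · exact h2.2.2.2.2.2 (hP.dg _ _ _ h2.1 h2.2.1 h2.2.2.1 h2.2.2.2.1 h2.2.2.2.2.1).2.2.2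
  · exact h2.2.2.2 (hP.s1 _ _ _ _ he h1 h2.1 h2.2.1 h2.2.2.1).1
  · exact h2.2.2.2 (hP.s1 _ _ _ _ he h1 h2.1 h2.2.1 h2.2.2.1).2.1
  · exact h2.2.2.2 ((hP.s1 _ _ _ _ he h1 h2.1 h2.2.1 h2.2.2.1).2.2 _)
  · exact h2.2.2.2 (hP.t1 _ _ _ _ he h1 h2.1 h2.2.1 h2.2.2.1).1
  · exact h2.2.2.2 (hP.t1 _ _ _ _ he h1 h2.1 h2.2.1 h2.2.2.1).2.1
  · exact h2.2.2.2 ((hP.t1 _ _ _ _ he h1 h2.1 h2.2.1 h2.2.2.1).2.2 _)
  · exact h2.2.2.2 (hP.q1 _ _ _ _ _ he hj h1 h2.1 h2.2.1 h2.2.2.1).1
  · exact h2.2.2.2 (hP.q1 _ _ _ _ _ he hj h1 h2.1 h2.2.1 h2.2.2.1).2.1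
  · exact h2.2.2.2 (hP.q1 _ _ _ _ _ he hj h1 h2.1 h2.2.1 h2.2.2.1).2.2.1
  · exact h2.2.2.2 (hP.q1 _ _ _ _ _ he hj h1 h2.1 h2.2.1 h2.2.2.1).2.2.2.1
  · exact h2.2.2.2 (hP.q1 _ _ _ _ _ he hj h1 h2.1 h2.2.1 h2.2.2.1).2.2.2.2
  · exact h2.2.2.2 (hP.q2 _ _ _ _ _ he hj h1 h2.1 h2.2.1 h2.2.2.1).1
  · exact h2.2.2.2 (hP.q2 _ _ _ _ _ he hj h1 h2.1 h2.2.1 h2.2.2.1).2.1
  · exact h2.2.2.2 (hP.q2 _ _ _ _ _ he hj h1 h2.1 h2.2.1 h2.2.2.1).2.2.1
  · exact h2.2.2.2 (hP.q2 _ _ _ _ _ he hj h1 h2.1 h2.2.1 h2.2.2.1).2.2.2.1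
  · exact h2.2.2.2 (hP.q2 _ _ _ _ _ he hj h1 h2.1 h2.2.1 h2.2.2.1).2.2.2.2
  · exact h2 h1

theorem cc_sound (P : Pat) (hP : RE P) (q : RI) (hq : ck q = true) :
    code P &&& (cc q).1 ≠ (cc q).2 := by
  intro h
  rw [ck, Bool.and_eq_true, Bool.and_eq_true, decide_eq_true_eq, decide_eq_true_eq,
    List.all_eq_true] at hq
  obtain ⟨⟨he, hj⟩, hd⟩ := hq
  have key : ∀ t : T, ((code P).testBit (bt t) = true ∧ t ∈ (lit q).1 ++ (lit q).2) ↔
      t ∈ (lit q).1 := by
    intro t
    rw [← testBit_ms ((lit q).1 ++ (lit q).2) t, ← testBit_ms (lit q).1 t, ← Bool.and_eq_true,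
      ← Nat.testBit_land]
    rw [show ms ((lit q).1 ++ (lit q).2) = (cc q).1 from rfl,
      show ms (lit q).1 = (cc q).2 from rfl, h]
  refine lit_sound P hP q he hj (fun t ht => ?_) (fun t ht => ?_)
  · exact (testBit_code P t).1 ((key t).2 ht).1
  · intro hPt
    have := (key t).1 ⟨(testBit_code P t).2 hPt, List.mem_append_right _ ht⟩
    have h3 := hd t this
    simp only [Bool.not_eq_true', List.contains_eq_mem, decide_eq_false_iff_not] at h3
    exact h3 ht

theorem list_sound (P : Pat) (hP : RE P) (C : List (ℕ × ℕ)) (I : List RI) (h : C = I.map cc)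
    (hI : I.all ck = true) : ∀ c ∈ C, code P &&& c.1 ≠ c.2 := by
  intro c hc
  rw [h, List.mem_map] at hc
  obtain ⟨q, hq, rfl⟩ := hc
  exact cc_sound P hP q (List.all_eq_true.1 hI q hq)

theorem e1 : C1 = I1.map cc := by decide +kernel
theorem e2 : C2 = I2.map cc := by decide +kernel
theorem e3 : C3 = I3.map cc := by decide +kernel
theorem e4 : C4 = I4.map cc := by decide +kernel
theorem e5 : C5 = I5.map cc := by decide +kernel
theorem e6 : C6 = I6.map cc := by decide +kernel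
theorem e7 : C7 = I7.map cc := by decide +kernel
theorem e8 : C8 = I8.map cc := by decide +kernel
theorem f1 : I1.all ck = true := by decide +kernel
theorem f2 : I2.all ck = true := by decide +kernel
theorem f3 : I3.all ck = true := by decide +kernel
theorem f4 : I4.all ck = true := by decide +kernel
theorem f5 : I5.all ck = true := by decide +kernel
theorem f6 : I6.all ck = true := by decide +kernel
theorem f7 : I7.all ck = true := by decide +kernel
theorem f8 : I8.all ck = true := by decide +kernel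

theorem gd (P : Pat) (hP : RE P) : Gd (code P) 1 LL := by
  have s : ∀ (C : List (ℕ × ℕ)) (I : List RI) (n : ℕ), C = I.map cc → I.all ck = true →
      (∀ c ∈ C, c.1 < n) → ∀ c ∈ C, c.1 < n ∧ code P &&& c.1 ≠ c.2 :=
    fun C I n h hI hn c hc => ⟨hn c hc, list_sound P hP C I h hI c hc⟩
  refine ⟨by norm_num, by norm_num, by norm_num, s C1 I1 _ e1 f1 (by decide +kernel),
    by norm_num, by norm_num, by norm_num, s C2 I2 _ e2 f2 (by decide +kernel),
    by norm_num, by norm_num, by norm_num, s C3 I3 _ e3 f3 (by decide +kernel),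
    by norm_num, by norm_num, by norm_num, s C4 I4 _ e4 f4 (by decide +kernel),
    by norm_num, by norm_num, by norm_num, s C5 I5 _ e5 f5 (by decide +kernel),
    by norm_num, by norm_num, by norm_num, s C6 I6 _ e6 f6 (by decide +kernel),
    by norm_num, by norm_num, by norm_num, s C7 I7 _ e7 f7 (by decide +kernel),
    by norm_num, by norm_num, by norm_num, s C8 I8 _ e8 f8 (by decide +kernel), rfl⟩

/-! ### Masks and sizes -/

theorem testBit_div (X j i : ℕ) (hi : i < 3) :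
    X.testBit (3 * j + i) = (X / 8 ^ j % 8).testBit i := by
  rw [show (8 : ℕ) = 2 ^ 3 by norm_num, ← pow_mul, Nat.testBit_mod_two_pow,
    Nat.testBit_div_two_pow]
  simp [hi, add_comm]

theorem pc_eq (m : ℕ) : pc m = (m.testBit 0).toNat + (m.testBit 1).toNat + (m.testBit 2).toNat := by
  unfold pc
  rw [Nat.testBit_eq_decide_div_mod_eq, Nat.testBit_eq_decide_div_mod_eq,
    Nat.testBit_eq_decide_div_mod_eq]
  have h : ∀ n : ℕ, (decide (n % 2 = 1)).toNat = n % 2 := by
    intro n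
    rcases Nat.mod_two_eq_zero_or_one n with h | h <;> simp [h]
  rw [h, h, h]
  norm_num

theorem sum_pc (X : ℕ) : ∑ j ∈ Finset.range 9, pc (X / 8 ^ j % 8) =
    ∑ k ∈ Finset.range 27, (X.testBit k).toNat := by
  have h : ∀ j, pc (X / 8 ^ j % 8) = (X.testBit (3 * j + 0)).toNat + (X.testBit (3 * j + 1)).toNat +
      (X.testBit (3 * j + 2)).toNat := by
    intro j
    rw [testBit_div X j 0 (by norm_num), testBit_div X j 1 (by norm_num),
      testBit_div X j 2 (by norm_num), pc_eq]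
  rw [Finset.sum_congr rfl fun j _ => h j]
  simp only [Finset.sum_range_succ, Finset.sum_range_zero]
  ring

theorem TT_eq (P : Pat) : TT P = ∑ k ∈ Finset.range 27, ((code P).testBit k).toNat := by
  classical
  have himg : (Finset.univ : Finset T).image bt = Finset.range 27 := by decide
  rw [← himg, Finset.sum_image fun a _ b _ h => bt_inj a b h]
  have h1 : ∀ t : T, ((code P).testBit (bt t)).toNat = if P t.1 t.2.1 t.2.2 then 1 else 0 := by
    intro t
    by_cases h : P t.1 t.2.1 t.2.2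
    · rw [(testBit_code P t).2 h, if_pos h]
      rfl
    · rw [Bool.eq_false_iff.2 fun h' => h ((testBit_code P t).1 h'), if_neg h]
      rfl
  rw [Finset.sum_congr rfl fun t _ => h1 t, ← Finset.card_filter]
  unfold TT
  rw [← Set.ncard_coe_finset]
  congr 1
  ext t
  simp

theorem cover : ∀ j, j < 9 → ∃ a b : ZMod 3, ∀ i : ZMod 3, bt (a, b, i) = 3 * j + i.val := by
  decide

theorem mask_ne (P : Pat) (hP : RE P) (j : ℕ) (hj : j < 9) : code P / 8 ^ j % 8 ≠ 0 := by
  intro h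
  obtain ⟨a, b, hab⟩ := cover j hj
  obtain ⟨i, hi⟩ := hP.vert a b
  have h1 := (testBit_code P (a, b, i)).2 hi
  rw [hab i, testBit_div _ _ _ (ZMod.val_lt i), h] at h1
  simp at h1

theorem mod8 (P : Pat) (hP : RE P) : code P % 8 = 1 := by
  have h0 := (testBit_code P (0, 0, 0)).2 hP.p0
  have h1 : ¬ (code P).testBit (bt (0, 0, 1)) = true := fun h => hP.p1 ((testBit_code P (0, 0, 1)).1 h)
  have h2 : ¬ (code P).testBit (bt (0, 0, 2)) = true := fun h => hP.p2 ((testBit_code P (0, 0, 2)).1 h)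
  rw [show bt (0, 0, 0) = 0 by decide, Nat.testBit_eq_decide_div_mod_eq, decide_eq_true_eq] at h0
  rw [show bt (0, 0, 1) = 1 by decide, Nat.testBit_eq_decide_div_mod_eq, decide_eq_true_eq] at h1
  rw [show bt (0, 0, 2) = 2 by decide, Nat.testBit_eq_decide_div_mod_eq, decide_eq_true_eq] at h2
  omega

/-- the conclusion for one leaf -/
def Cnc (v : ℕ) : Prop := (∃ a₀ b₀ i₀ : ZMod 3, ∀ t : T, v.testBit (bt t) = true ↔
    EP (t.2.2 - i₀) (t.1 - a₀) (t.2.1 - b₀)) ∨
  ∃ k : Fin 4, ∀ t : T, v.testBit (bt t) = true ↔ Ty2 k t.1 t.2.1 t.2.2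

theorem leaf_ok : ∀ v ∈ LV, (∑ k ∈ Finset.range 27, (v.testBit k).toNat) = 15 ∧ Cnc v := by
  unfold Cnc
  decide +kernel

end B1FM

open B1FM in
theorem specB1F : SpecB1F := by
  intro P hP hT
  have hsum : ∑ j ∈ Finset.range 9, pc (code P / 8 ^ j % 8) ≤ 15 := by
    rw [sum_pc, ← TT_eq]
    exact hT
  have h := srch_sound (fun x => LV.any fun v => Nat.beq v x) (code P) (code_lt P)
    (mask_ne P hP) hsum LL 1 (gd P hP) (by
      rw [pow_one, mod8 P hP, Finset.sum_range_one, pow_zero, Nat.div_one, mod8 P hP]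
      exact comp)
  rw [List.any_eq_true] at h
  obtain ⟨v, hv, hvx⟩ := h
  have hvx := Nat.eq_of_beq_eq_true hvx
  obtain ⟨h15, hC⟩ := leaf_ok v hv
  rw [TT_eq, ← hvx]
  refine ⟨h15, ?_⟩
  rw [hvx] at hC
  rcases hC with ⟨a₀, b₀, i₀, h⟩ | ⟨k, h⟩
  · exact Or.inl ⟨a₀, b₀, i₀, fun a b i => (testBit_code P (a, b, i)).symm.trans (h (a, b, i))⟩
  · exact Or.inr ⟨k, fun a b i => (testBit_code P (a, b, i)).symm.trans (h (a, b, i))⟩

end Pool.Agent.Lib.MP_b63a06_co.TR
end

section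
set_option autoImplicit false

/-!
# MP_b63a06_co, module B1V: the classes of `F` if all conflicts have size 5 (helper94)
-/

namespace Pool.Agent.Lib.MP_b63a06_co.TR

namespace B1VM

variable {V : Type} [AddCommGroup V] [Module (ZMod 3) V]

/-- A nonzero element of a subspace of order 3 generates it. -/
theorem exists_smul [Finite V] (W : Submodule (ZMod 3) V) (h3 : Nat.card W = 3) (z : V)
    (hz : z ∈ W) (hz0 : z ≠ 0) : ∀ w ∈ W, ∃ i : ZMod 3, w = i • z := by
  have hinj : Function.Injective (fun c : ZMod 3 => (c • (⟨z, hz⟩ : W))) := by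
    intro c d hcd
    have h := congrArg Subtype.val hcd
    simp only [Submodule.coe_smul] at h
    by_contra hne
    have h2 : (c - d) • z = 0 := by rw [sub_smul, h, sub_self]
    rcases smul_eq_zero.mp h2 with h3 | h3
    · exact hne (sub_eq_zero.mp h3)
    · exact hz0 h3
  have hbij := hinj.bijective_of_nat_card_le (by rw [h3]; simp)
  intro w hw
  obtain ⟨i, hi⟩ := hbij.2 ⟨w, hw⟩
  exact ⟨i, by simpa using (congrArg Subtype.val hi).symm⟩

/-- A subspace of order 3 has a nonzero element. -/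
theorem exists_ne (W : Submodule (ZMod 3) V) (h3 : Nat.card W = 3) : ∃ z ∈ W, z ≠ 0 := by
  apply Submodule.exists_mem_ne_zero_of_ne_bot
  rintro rfl
  simp at h3

/-- Single elements are single in the direction of every nonzero element. -/
theorem hs_of_sgl (A : Set V) (W : Submodule (ZMod 3) V) (z x : V) (hz : z ∈ W) (hz0 : z ≠ 0)
    (hx : Sgl A W x) : HS (fun v => v ∈ A) z x := by
  refine ⟨hx.1, fun h => ?_, fun h => ?_⟩
  · have := hx.2 _ h (by simpa using hz)
    exact hz0 (by simpa using this)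
  · have := hx.2 _ h (by simpa using hz)
    exact hz0 (by simpa using this)

/-- One of the nine cosets has exactly one element. -/
theorem exists_sgl [Finite V] (hYSM : SpecYSM) (hMEE : SpecMEE) (A : Set V) (hA : Sy A)
    (W : Submodule (ZMod 3) V) (s t : V) (hW : MaxAv A W)
    (hind : ∀ a b : ZMod 3, a • s + b • t ∈ W → a = 0 ∧ b = 0) (y : V)
    (hT : (cs A (FF W s t) y).ncard ≤ 15) :
    ∃ y', Sgl A W y' ∧ y' - y ∈ FF W s t := by
  obtain ⟨hmem, hsum⟩ := hYSM V A W s t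
  have hs := hsum hind y
  have hex : ∃ a b : ZMod 3, (cs A W (y + a • s + b • t)).ncard ≤ 1 := by
    by_contra hne
    push Not at hne
    have h18 : ∑ a : ZMod 3, ∑ b : ZMod 3, 2 ≤
        ∑ a : ZMod 3, ∑ b : ZMod 3, (cs A W (y + a • s + b • t)).ncard :=
      Finset.sum_le_sum fun a _ => Finset.sum_le_sum fun b _ => hne a b
    rw [← hs] at h18
    have : ∑ a : ZMod 3, ∑ b : ZMod 3, 2 = 18 := by simp
    omega
  obtain ⟨a, b, hab⟩ := hex
  obtain ⟨y', hy'A, hy'W⟩ := hMEE V A hA W hW (y + a • s + b • t)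
  refine ⟨y', ⟨hy'A, fun x hx hxW => ?_⟩, ?_⟩
  · have h1 : y' ∈ cs A W (y + a • s + b • t) := ⟨hy'A, hy'W⟩
    have h2 : x ∈ cs A W (y + a • s + b • t) := by
      refine ⟨hx, ?_⟩
      have := W.add_mem hxW hy'W
      simpa using this
    exact (Set.ncard_le_one (Set.toFinite _)).mp hab x h2 y' h1
  · rw [hmem]
    refine ⟨a, b, ?_⟩
    have : y' - y - a • s - b • t = y' - (y + a • s + b • t) := by abel
    rw [this]
    exact hy'W

/-- The coordinates are unique. -/
theorem coord_inj (W : Submodule (ZMod 3) V) (s t z y' : V) (hz : z ∈ W) (hz0 : z ≠ 0)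
    (hind : ∀ a b : ZMod 3, a • s + b • t ∈ W → a = 0 ∧ b = 0) :
    Function.Injective (fun p : ZMod 3 × ZMod 3 × ZMod 3 =>
      y' + p.1 • s + p.2.1 • t + p.2.2 • z) := by
  rintro ⟨a, b, i⟩ ⟨a', b', i'⟩ h
  simp only at h
  have h1 : (a - a') • s + (b - b') • t = (i' - i) • z := by
    have h2 : (a - a') • s + (b - b') • t - (i' - i) • z =
      (y' + a • s + b • t + i • z) - (y' + a' • s + b' • t + i' • z) := by
      simp only [sub_smul]
      abel
    rw [h, sub_self] at h2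
    exact sub_eq_zero.mp h2
  obtain ⟨ha, hb⟩ := hind _ _ (h1 ▸ W.smul_mem _ hz)
  rw [ha, hb, zero_smul, zero_smul, add_zero] at h1
  have hi : i' - i = 0 := by
    rcases smul_eq_zero.mp h1.symm with h3 | h3
    · exact h3
    · exact absurd h3 hz0
  rw [sub_eq_zero] at ha hb hi
  rw [ha, hb, hi]

/-- The number of elements of the pattern. -/
theorem tt_eq [Finite V] (hYSM : SpecYSM) (A : Set V) (W : Submodule (ZMod 3) V) (s t z y y' : V)
    (hz : z ∈ W) (hz0 : z ≠ 0) (hgen : ∀ w ∈ W, ∃ i : ZMod 3, w = i • z)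
    (hind : ∀ a b : ZMod 3, a • s + b • t ∈ W → a = 0 ∧ b = 0) (hy' : y' - y ∈ FF W s t) :
    TT (PP (fun v => v ∈ A) s t z y') = (cs A (FF W s t) y).ncard := by
  obtain ⟨hmem, -⟩ := hYSM V A W s t
  unfold TT PP
  rw [← Set.ncard_image_of_injective _ (coord_inj W s t z y' hz hz0 hind)]
  congr 1
  ext x
  constructor
  · rintro ⟨⟨a, b, i⟩, hp, rfl⟩
    refine ⟨hp, ?_⟩
    have h1 : a • s + b • t + i • z ∈ FF W s t := by
      rw [hmem]
      refine ⟨a, b, ?_⟩
      have : a • s + b • t + i • z - a • s - b • t = i • z := by abel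
      rw [this]
      exact W.smul_mem _ hz
    have h2 := (FF W s t).add_mem hy' h1
    have h3 : y' - y + (a • s + b • t + i • z) = y' + a • s + b • t + i • z - y := by abel
    rw [h3] at h2
    exact h2
  · rintro ⟨hxA, hxF⟩
    have h1 : x - y' ∈ FF W s t := by
      have := (FF W s t).sub_mem hxF hy'
      simpa using this
    rw [hmem] at h1
    obtain ⟨a, b, hab⟩ := h1
    obtain ⟨i, hi⟩ := hgen _ hab
    have hx : y' + a • s + b • t + i • z = x := by
      rw [← hi]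
      abel
    exact ⟨(a, b, i), by simpa only [Set.mem_ofPred_eq, hx] using hxA, hx⟩

/-- The main case: at most 15 elements. -/
theorem main [Finite V] (hHEQ : SpecHEQ) (hRER : SpecRER) (hB1F : SpecB1F) (hEPX : SpecEPX)
    (hYSM : SpecYSM) (hCBA : SpecCBA) (hMEE : SpecMEE) (A : Set V) (hA : Sy A)
    (W : Submodule (ZMod 3) V) (s t : V) (hc : Conf A W s t) (h3 : Nat.card W = 3)
    (h5 : ∀ W s t, Conf A W s t → 5 ≤ NN A W s t) (y : V) (hy : y ∉ FF W s t)
    (hT : (cs A (FF W s t) y).ncard ≤ 15) :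
    (cs A (FF W s t) y).ncard = 15 ∧ ((FF W s t).mkQ y ∈ CE A (FF W s t) ∨
    ∃ z ∈ W, z ≠ 0 ∧ ∃ y', y' ∉ FF W s t ∧ ∃ k : Fin 4, ∀ a b i : ZMod 3,
      y' + a • s + b • t + i • z ∈ A ↔ Ty2 k a b i) := by
  obtain ⟨hind, -, -, -⟩ := hCBA V A hA W s t hc
  obtain ⟨y', hs, hy'⟩ := exists_sgl hYSM hMEE A hA W s t hc.mx hind y hT
  obtain ⟨z, hz, hz0⟩ := exists_ne W h3
  have hgen := exists_smul W h3 z hz hz0
  have hHE := hHEQ V A hA W hc.mx h3 h5
  have hzA : ¬ (z ∈ A) := fun h => hz0 (hc.mx.av z h hz)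
  have hRE := hRER V (fun x => x ∈ A) hHE z s t y' hzA (hs_of_sgl A W z s hz hz0 hc.s1)
    (hs_of_sgl A W z t hz hz0 hc.t1) hc.ns (hs_of_sgl A W z y' hz hz0 hs)
  have htt := tt_eq hYSM A W s t z y y' hz hz0 hgen hind hy'
  obtain ⟨h15, hor⟩ := hB1F _ hRE (htt ▸ hT)
  refine ⟨htt ▸ h15, ?_⟩
  obtain ⟨hmem, -⟩ := hYSM V A W s t
  rcases hor with ⟨a₀, b₀, i₀, hcen⟩ | ⟨k, hk⟩
  · left
    refine ⟨y' + a₀ • s + b₀ • t + i₀ • z, ?_, ?_⟩
    · intro q hq
      rw [hmem] at hq
      obtain ⟨a, b, hab⟩ := hq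
      obtain ⟨i, hi⟩ := hgen _ hab
      have hq : q = i • z + a • s + b • t := by
        rw [← hi]
        abel
      have h1 : y' + a₀ • s + b₀ • t + i₀ • z + q =
          y' + (a₀ + a) • s + (b₀ + b) • t + (i₀ + i) • z := by
        rw [hq]
        simp only [add_smul]
        abel
      have h2 := hcen (a₀ + a) (b₀ + b) (i₀ + i)
      rw [add_sub_cancel_left, add_sub_cancel_left, add_sub_cancel_left] at h2
      have h4 := hEPX V A hA W s t hc h3 h5 z hz hz0 i a b
      rw [h1, hq, h4]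
      exact h2
    · have h1 : y' + a₀ • s + b₀ • t + i₀ • z - y ∈ FF W s t := by
        have h2 : a₀ • s + b₀ • t + i₀ • z ∈ FF W s t := by
          rw [hmem]
          refine ⟨a₀, b₀, ?_⟩
          have : a₀ • s + b₀ • t + i₀ • z - a₀ • s - b₀ • t = i₀ • z := by abel
          rw [this]
          exact W.smul_mem _ hz
        have h4 := (FF W s t).add_mem hy' h2
        have h5 : y' - y + (a₀ • s + b₀ • t + i₀ • z) = y' + a₀ • s + b₀ • t + i₀ • z - y := by
          abel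
        rw [h5] at h4
        exact h4
      rw [Submodule.mkQ_apply, Submodule.mkQ_apply]
      exact (Submodule.Quotient.eq _).mpr h1
  · right
    refine ⟨z, hz, hz0, y', ?_, k, hk⟩
    intro h
    apply hy
    have := (FF W s t).sub_mem h hy'
    simpa using this

end B1VM

/-- The classes of `F`. -/
theorem specB1V (hHEQ : SpecHEQ) (hRER : SpecRER) (hB1F : SpecB1F) (hEPX : SpecEPX)
    (hYSM : SpecYSM) (hCBA : SpecCBA) (hMEE : SpecMEE) : SpecB1V := by
  intro V _ _ _ A hA W s t hc h3 h5 y hy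
  rcases Nat.lt_or_ge 15 (cs A (FF W s t) y).ncard with h | h
  · exact ⟨h.le, fun h' => absurd h' h.ne'⟩
  · have hm := B1VM.main hHEQ hRER hB1F hEPX hYSM hCBA hMEE A hA W s t hc h3 h5 y hy h
    exact ⟨hm.1.ge, fun _ => hm.2⟩

end Pool.Agent.Lib.MP_b63a06_co.TR
end

section
set_option autoImplicit false

/-!
# MP_b63a06_co, module BFN: `7 M / 9` colours (helper94)

Strong induction over the order of `V`.
-/

namespace Pool.Agent.Lib.MP_b63a06_co.TR

namespace BFNM

/-- A maximal avoiding subspace of a conflict has the order 3 or at least 9. -/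
theorem card_cases (hMEE : SpecMEE) (V : Type) [AddCommGroup V] [Module (ZMod 3) V] [Finite V]
    (A : Set V) (hA : Sy A) (W : Submodule (ZMod 3) V) (s t : V) (hc : Conf A W s t) :
    Nat.card W = 3 ∨ 9 ≤ Nat.card W := by
  have hp : Nat.card W = 3 ^ Module.finrank (ZMod 3) W := by
    simpa using Module.natCard_eq_pow_finrank (K := ZMod 3) (V := W)
  rcases Nat.lt_or_ge (Module.finrank (ZMod 3) W) 2 with h | h
  · interval_cases hk : Module.finrank (ZMod 3) W
    · exfalso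
      obtain ⟨a, ha, haW⟩ := hMEE V A hA W hc.mx (s - t)
      have hb : W = ⊥ := Submodule.finrank_eq_zero.mp hk
      rw [hb, Submodule.mem_bot, sub_eq_zero] at haW
      exact hc.ns (haW ▸ ha)
    · left
      simpa using hp
  · right
    rw [hp]
    calc 9 = 3 ^ 2 := by norm_num
      _ ≤ 3 ^ Module.finrank (ZMod 3) W := Nat.pow_le_pow_right (by norm_num) h

theorem core (hQUO : SpecQUO) (hCOR : SpecCOR) (hNF4 : SpecNF4) (hN5G : SpecN5G) (hN4X : SpecN4X)
    (hN4F : SpecN4F) (hC7 : SpecC7) (hBST : SpecBST) (hCBA : SpecCBA) (hAVG : SpecAVG)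
    (hEXM : SpecEXM) (hMEE : SpecMEE) (n : ℕ) :
    ∀ (V : Type) [AddCommGroup V] [Module (ZMod 3) V] [Finite V] (A : Set V), Nat.card V = n →
    Sy A → (∀ W, MaxAv A W → 9 * (A.ncard + 4) ≤ 16 * ix W) → (∃ W s t, Conf A W s t) →
    ∀ W, MaxAv A W → ∃ m, ix W = 9 * m ∧ ColA A (7 * m) := by
  induction n using Nat.strong_induction_on with
  | _ n ih =>
    intro V _ _ _ A hn hA hB hconf W hW
    by_cases hqr : QR A
    · obtain ⟨W1, s, t, hc⟩ := hconf
      rcases card_cases hMEE V A hA W1 s t hc with h3 | h9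
      · by_cases h5 : ∀ W s t, Conf A W s t → 5 ≤ NN A W s t
        · obtain ⟨m, hm, hcol⟩ := hBST V A hA W1 s t hc h3 h5 (hB W1 hc.mx)
          exact ⟨m, ((hEXM V A).2 W W1 hW hc.mx).2.trans hm, hcol⟩
        · push Not at h5
          obtain ⟨W2, s2, t2, hc2, hlt⟩ := h5
          have h4 := hNF4 V A hA W2 s2 t2 hc2
          obtain ⟨x, hx, hx0, hor⟩ := hN4X V A hA W2 s2 t2 hc2 (by omega)
          obtain ⟨e, he⟩ := hN4F V A hA W2 s2 t2 hc2 x hx hx0 hor
          exact hC7 V A hA _ e he W hW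
      · exfalso
        have h5 := hN5G V A hA hqr W1 s t hc h9
        obtain ⟨-, -, hix, hcs⟩ := hCBA V A hA W1 s t hc
        have hb := hB W1 hc.mx
        obtain ⟨y, hy, hlt⟩ := hAVG V A (FF W1 s t) 18 (by omega)
        have := hCOR V A hA hqr W1 s t hc h9 y hy
        omega
    · unfold QR at hqr
      push Not at hqr
      obtain ⟨W0, Z, a, b, hZ, hc⟩ := hqr
      obtain ⟨q1, q2, q3, q4, q5, q6⟩ := hQUO V A hA Z hZ ⟨W0, hc.mx, hc.le⟩
      have hfin : Finite (V ⧸ Z) := Finite.of_surjective _ (Submodule.mkQ_surjective Z)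
      have hcf := q6 W0 a b hc
      have hb := hB W0 hc.mx
      obtain ⟨m, hm, hcol⟩ := ih (Nat.card (V ⧸ Z)) (hn ▸ q2) (V ⧸ Z) (Z.mkQ '' A) rfl q1
        (by
          intro W' hW'
          rw [q4 W0 W' hc.mx hW']
          omega)
        ⟨_, _, _, hcf⟩ (W0.map Z.mkQ) hcf.mx
      refine ⟨m, ?_, q5 _ hcol⟩
      rw [((hEXM V A).2 W W0 hW hc.mx).2, ← q4 W0 _ hc.mx hcf.mx, hm]

end BFNM

/-- `7 M / 9` colours. -/
theorem specBFN (hQUO : SpecQUO) (hCOR : SpecCOR) (hNF4 : SpecNF4) (hN5G : SpecN5G)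
    (hN4X : SpecN4X) (hN4F : SpecN4F) (hC7 : SpecC7) (hBST : SpecBST) (hCBA : SpecCBA)
    (hAVG : SpecAVG) (hEXM : SpecEXM) (hMEE : SpecMEE) : SpecBFN := by
  intro V _ _ _ A hA hB hconf W hW
  exact BFNM.core hQUO hCOR hNF4 hN5G hN4X hN4F hC7 hBST hCBA hAVG hEXM hMEE (Nat.card V) V A rfl
    hA hB hconf W hW

end Pool.Agent.Lib.MP_b63a06_co.TR
end

section
set_option autoImplicit false

/-!
# MP_b63a06_co, module BST (helper77): order 3, all conflicts of size at least 5
-/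

namespace Pool.Agent.Lib.MP_b63a06_co.TR

theorem specBST (hB : SpecB1V) (hC21 : SpecC21) (hC63 : SpecC63) (hCNG : SpecCNG)
    (hTWO : SpecTWO) (hCBA : SpecCBA) : SpecBST := by
  intro V _ _ _ A hA W s t hc h3 h5 hn
  obtain ⟨-, -, hix, hc0⟩ := hCBA V A hA W s t hc
  by_cases hex : ∃ y, y ∉ FF W s t ∧ (cs A (FF W s t) y).ncard = 15 ∧
      (FF W s t).mkQ y ∉ CE A (FF W s t)
  · obtain ⟨y, hy, hyc, hyq⟩ := hex
    rcases (hB V A hA W s t hc h3 h5 y hy).2 hyc with h | ⟨z, hz, hz0, y', hy', k, hk⟩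
    · exact absurd h hyq
    · exact hC21 V A hA W s t hc h3 z hz hz0 y' hy' k hk
  · have hex' : ∀ y, y ∉ FF W s t → (cs A (FF W s t) y).ncard = 15 →
        (FF W s t).mkQ y ∈ CE A (FF W s t) := by
      intro y hy hyc
      by_contra hq
      exact hex ⟨y, hy, hyc, hq⟩
    have hall : ∀ v, 15 ≤ (cs A (FF W s t) v).ncard := by
      intro v
      by_cases hv : v ∈ FF W s t
      · have he : cs A (FF W s t) v = cs A (FF W s t) 0 := by
          ext x
          constructor
          · rintro ⟨hx, hxv⟩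
            refine ⟨hx, ?_⟩
            have := (FF W s t).add_mem hxv hv
            simpa using this
          · rintro ⟨hx, hx0⟩
            refine ⟨hx, ?_⟩
            have := (FF W s t).sub_mem hx0 hv
            simpa using this
        rw [he, hc0]
        have := h5 W s t hc
        omega
      · exact (hB V A hA W s t hc h3 h5 v hv).1
    have hce : ∀ v, (cs A (FF W s t) v).ncard = 15 →
        (FF W s t).mkQ v ∈ CE A (FF W s t) := by
      intro v hv
      by_cases hvF : v ∈ FF W s t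
      · refine ⟨0, fun q _ => by simp, ?_⟩
        rw [map_zero]
        exact ((Submodule.Quotient.mk_eq_zero (FF W s t)).2 hvF).symm
      · exact hex' v hvF hv
    have h16 := (hCNG V A (FF W s t) 15 hall).2 hce
    have h4 : 4 ≤ (CE A (FF W s t)).ncard := by omega
    obtain ⟨α, β, ha, hb, hi⟩ := hTWO V A (FF W s t) h4
    exact hC63 V A hA W s t hc h3 h5 α β ha hb hi

end Pool.Agent.Lib.MP_b63a06_co.TR
end

section
set_option autoImplicit false

/-!
# MP_b63a06_co: `7 M / 9` colours in the case of the four patterns (C21)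
-/

namespace Pool.Agent.Lib.MP_b63a06_co.TR

namespace C21M

variable {V : Type} [AddCommGroup V] [Module (ZMod 3) V]

theorem z3 : ∀ j : ZMod 3, j = 0 ∨ j = 1 ∨ j = -1 := by decide

omit [Module (ZMod 3) V] in
theorem neg_iff {A : Set V} (h : Sy A) (x : V) : -x ∈ A ↔ x ∈ A :=
  ⟨fun hx => by simpa using h.2 _ hx, h.2 x⟩

/-- If `x ∈ A` and `x - c v ∈ W`, `c ≠ 0`, `v` single, then `x = c v`. -/
theorem sgl_smul {A : Set V} (hA : Sy A) {W : Submodule (ZMod 3) V} {v : V} (hv : Sgl A W v)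
    {x : V} (hx : x ∈ A) {c : ZMod 3} (hc : c ≠ 0) (h : x - c • v ∈ W) : x = c • v := by
  rcases z3 c with rfl | rfl | rfl
  · exact absurd rfl hc
  · rw [one_smul] at h ⊢
    exact hv.2 x hx h
  · rw [neg_smul, one_smul] at h ⊢
    have h1 : -x - v ∈ W := by
      have : -x - v = -(x - -v) := by abel
      rw [this]; exact W.neg_mem h
    have := hv.2 (-x) (hA.2 x hx) h1
    rw [← this, neg_neg]

/-- The elements of `A` in the span of `z, s, t`. -/
theorem ep_of_mem {A : Set V} (hA : Sy A) {W : Submodule (ZMod 3) V} {s t : V}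
    (h : Conf A W s t) (_hind : ∀ a b : ZMod 3, a • s + b • t ∈ W → a = 0 ∧ b = 0) {z : V}
    (hz : z ∈ W) (hz0 : z ≠ 0) (c₀ c₁ c₂ : ZMod 3) (ha : c₀ • z + c₁ • s + c₂ • t ∈ A) :
    EP c₀ c₁ c₂ := by
  have hs0 : ∀ c : ZMod 3, c • z = 0 → c = 0 := by
    intro c hc
    rcases z3 c with rfl | rfl | rfl
    · rfl
    · rw [one_smul] at hc; exact absurd hc hz0
    · rw [neg_smul, one_smul, neg_eq_zero] at hc; exact absurd hc hz0
  by_cases h1 : c₁ = 0
  · by_cases h2 : c₂ = 0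
    · subst h1 h2
      rw [zero_smul, zero_smul, add_zero, add_zero] at ha
      have := h.mx.av _ ha (W.smul_mem _ hz)
      exact Or.inl ⟨hs0 _ this, Or.inl rfl⟩
    · subst h1
      rw [zero_smul, add_zero] at ha
      have h3 : c₀ • z + c₂ • t - c₂ • t ∈ W := by
        rw [add_sub_cancel_right]; exact W.smul_mem _ hz
      have h4 := sgl_smul hA h.t1 ha h2 h3
      rw [add_eq_right] at h4
      exact Or.inl ⟨hs0 _ h4, Or.inl rfl⟩
  · by_cases h2 : c₂ = 0
    · subst h2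
      rw [zero_smul, add_zero] at ha
      have h3 : c₀ • z + c₁ • s - c₁ • s ∈ W := by
        rw [add_sub_cancel_right]; exact W.smul_mem _ hz
      have h4 := sgl_smul hA h.s1 ha h1 h3
      rw [add_eq_right] at h4
      exact Or.inl ⟨hs0 _ h4, Or.inr rfl⟩
    · by_cases h3 : c₁ = c₂
      · exact Or.inr (Or.inr ⟨h3, h1⟩)
      · have h4 : ∀ u v : ZMod 3, u ≠ 0 → v ≠ 0 → u ≠ v → v = -u := by decide
        have h5 := h4 _ _ h1 h2 h3
        refine Or.inr (Or.inl ⟨?_, by rw [h5]; ring, h1⟩)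
        rintro rfl
        subst h5
        rw [zero_smul, zero_add] at ha
        apply h.ns
        rcases z3 c₁ with rfl | rfl | rfl
        · exact absurd rfl h1
        · have e : (1 : ZMod 3) • s + (-1 : ZMod 3) • t = s - t := by module
          rwa [e] at ha
        · have e : (-1 : ZMod 3) • s + (-(-1 : ZMod 3)) • t = -(s - t) := by module
          rw [e, neg_iff hA] at ha
          exact ha

end C21M

open C21M in
theorem specC21 (hT21 : SpecT21) (hCRD : SpecCRD) (hCBA : SpecCBA) : SpecC21 := by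
  intro V _ _ _ A hA W s t hcf hW z hz hz0 y hy k hpat
  obtain ⟨hind, -, -, -⟩ := hCBA V A hA W s t hcf
  obtain ⟨col, hcol, hprop⟩ := hT21 k
  have hlc : ∀ c : Fin 4 → ZMod 3, lc ![z, s, t, y] c = c 0 • z + c 1 • s + c 2 • t + c 3 • y := by
    intro c
    rw [lc, Fin.sum_univ_four]
    rfl
  have hFF : ∀ a b c : ZMod 3, a • z + b • s + c • t ∈ FF W s t := by
    intro a b c
    have h1 : s ∈ FF W s t := Submodule.mem_sup_right (Submodule.subset_span (by simp))
    have h2 : t ∈ FF W s t := Submodule.mem_sup_right (Submodule.subset_span (by simp))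
    have h3 : z ∈ FF W s t := Submodule.mem_sup_left hz
    exact Submodule.add_mem _ (Submodule.add_mem _ (Submodule.smul_mem _ _ h3)
      (Submodule.smul_mem _ _ h1)) (Submodule.smul_mem _ _ h2)
  have hindep : ∀ c : Fin 4 → ZMod 3, lc ![z, s, t, y] c ∈ (⊥ : Submodule (ZMod 3) V) →
      c = 0 := by
    intro c hc
    rw [Submodule.mem_bot, hlc] at hc
    have h3 : c 3 = 0 := by
      by_contra h3
      apply hy
      rcases z3 (c 3) with h4 | h4 | h4
      · exact absurd h4 h3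
      · rw [h4, one_smul] at hc
        rw [eq_neg_of_add_eq_zero_right hc]
        exact Submodule.neg_mem _ (hFF _ _ _)
      · rw [h4, neg_smul, one_smul, ← sub_eq_add_neg, sub_eq_zero] at hc
        rw [← hc]
        exact hFF _ _ _
    rw [h3, zero_smul, add_zero] at hc
    have h4 : c 1 • s + c 2 • t ∈ W := by
      have h5 : c 1 • s + c 2 • t = -(c 0 • z) := by
        rw [eq_neg_iff_add_eq_zero, ← hc]; abel
      rw [h5]
      exact W.neg_mem (W.smul_mem _ hz)
    obtain ⟨h1, h2⟩ := hind _ _ h4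
    rw [h1, h2, zero_smul, zero_smul, add_zero, add_zero] at hc
    have h0 : c 0 = 0 := by
      rcases z3 (c 0) with h5 | h5 | h5
      · exact h5
      · rw [h5, one_smul] at hc; exact absurd hc hz0
      · rw [h5, neg_smul, one_smul, neg_eq_zero] at hc; exact absurd hc hz0
    funext i
    fin_cases i
    · exact h0
    · exact h1
    · exact h2
    · exact h3
  have hmem : ∀ a ∈ A, a ≠ 0 → ∀ c : Fin 4 → ZMod 3,
      a - lc ![z, s, t, y] c ∈ (⊥ : Submodule (ZMod 3) V) → c ≠ 0 ∧ K21 k c := by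
    intro a ha ha0 c hc
    rw [Submodule.mem_bot, sub_eq_zero] at hc
    rw [hlc] at hc
    refine ⟨?_, ?_, ?_, ?_⟩
    · rintro rfl
      apply ha0
      rw [hc]
      simp
    · intro h3
      rw [h3, zero_smul, add_zero] at hc
      rw [hc] at ha
      exact ep_of_mem hA hcf hind hz hz0 _ _ _ ha
    · intro h3
      rw [h3] at hc
      rw [← hpat]
      have e : y + c 1 • s + c 2 • t + c 0 • z = a := by rw [hc]; module
      rw [e]; exact ha
    · intro h3
      rw [h3] at hc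
      rw [← hpat]
      have e : y + (-c 1) • s + (-c 2) • t + (-c 0) • z = -a := by rw [hc]; module
      rw [e]; exact hA.2 a ha
  obtain ⟨m, hm, hcolA⟩ := hCRD V A ⊥ 4 21 ![z, s, t, y] (K21 k) col hindep hcol hprop hmem
  have h1 : Nat.card V = Nat.card W * ix W := Submodule.card_eq_card_quotient_mul_card W
  have h2 : Nat.card V = Nat.card (⊥ : Submodule (ZMod 3) V) * ix (⊥ : Submodule (ZMod 3) V) :=
    Submodule.card_eq_card_quotient_mul_card _
  have h3 : Nat.card (⊥ : Submodule (ZMod 3) V) = 1 := by simp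
  rw [h3, one_mul, hm, h1, hW] at h2
  refine ⟨3 * m, by norm_num at h2 ⊢; omega, ?_⟩
  have e : 7 * (3 * m) = 21 * m := by ring
  rw [e]
  exact hcolA

end Pool.Agent.Lib.MP_b63a06_co.TR
end

section
set_option autoImplicit false

/-!
# MP_b63a06_co, TR, module C7 (helper44): `7 M / 9` colours for a frame
-/

namespace Pool.Agent.Lib.MP_b63a06_co.TR

theorem specC7 (hT7 : SpecT7) (hCPE : SpecCPE) (hCRD : SpecCRD) : SpecC7 := by
  intro V _ _ _ A hA F e hF W hW
  obtain ⟨⟨R, hR⟩, h2⟩ := hCPE V A F e hF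
  obtain ⟨-, h3, h4⟩ := h2 R hR
  obtain ⟨-, h6, -⟩ := h3 W hW
  obtain ⟨col, hc1, hc2⟩ := hT7
  obtain ⟨m, hm1, hm2⟩ := hCRD V A R 3 7 e EE col hR.dj hc1 hc2 (by
    intro a ha ha0 c hc
    obtain ⟨h7, h8⟩ := h4 a ha c hc
    refine ⟨?_, h7⟩
    rintro rfl
    apply ha0
    rw [h8]
    simp [lc])
  refine ⟨m, ?_, hm2⟩
  rw [hm1] at h6
  omega

end Pool.Agent.Lib.MP_b63a06_co.TR
end

section
set_option autoImplicit false

/-!
# Module CNG (MP_b63a06_co, folder TR): counting the classes with a centre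
-/

namespace Pool.Agent.Lib.MP_b63a06_co.TR

namespace CNGM

theorem ncard_fiber {V Q : Type} [Finite V] [Fintype Q] (A : Set V) (g : V → Q) :
    A.ncard = ∑ c, {a | a ∈ A ∧ g a = c}.ncard := by
  classical
  have := Fintype.ofFinite V
  rw [Set.ncard_eq_toFinset_card' A,
    Finset.card_eq_sum_card_fiberwise (f := g) (t := Finset.univ) (by simp)]
  refine Finset.sum_congr rfl fun c _ => ?_
  rw [Set.ncard_eq_toFinset_card']
  congr 1
  ext a
  simp

theorem cs_eq {V : Type} [AddCommGroup V] [Module (ZMod 3) V] (A : Set V)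
    (F : Submodule (ZMod 3) V) (v : V) : cs A F v = {a | a ∈ A ∧ F.mkQ a = F.mkQ v} := by
  ext a
  simp only [cs, Set.mem_setOf_eq, Submodule.mkQ_apply]
  rw [Submodule.Quotient.eq]

end CNGM

open CNGM in
theorem specCNG : SpecCNG := by
  classical
  intro V _ _ _ A F k hk
  have hfin : Finite (V ⧸ F) := Finite.of_surjective _ (Submodule.mkQ_surjective F)
  have := Fintype.ofFinite (V ⧸ F)
  have hix : ix F = Fintype.card (V ⧸ F) := by rw [ix, Nat.card_eq_fintype_card]
  have hf : ∀ c : V ⧸ F, k ≤ {a | a ∈ A ∧ F.mkQ a = c}.ncard := by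
    intro c
    obtain ⟨v, rfl⟩ := Submodule.mkQ_surjective F c
    rw [← cs_eq]
    exact hk v
  rw [ncard_fiber A F.mkQ, hix]
  constructor
  · calc k * Fintype.card (V ⧸ F) = ∑ _c : V ⧸ F, k := by
          rw [Finset.sum_const, smul_eq_mul, mul_comm, Finset.card_univ]
      _ ≤ _ := Finset.sum_le_sum fun c _ => hf c
  · intro hce
    have h1 : (CE A F).ncard = ∑ c : V ⧸ F, if c ∈ CE A F then 1 else 0 := by
      rw [Finset.sum_boole, Set.ncard_eq_toFinset_card']
      simp only [Nat.cast_id]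
      congr 1
      ext c
      simp
    rw [h1, ← Finset.sum_add_distrib]
    calc (k + 1) * Fintype.card (V ⧸ F) = ∑ _c : V ⧸ F, (k + 1) := by
          rw [Finset.sum_const, smul_eq_mul, mul_comm, Finset.card_univ]
      _ ≤ _ := by
          refine Finset.sum_le_sum fun c _ => ?_
          have h2 := hf c
          by_cases hc : c ∈ CE A F
          · rw [if_pos hc]; omega
          · rw [if_neg hc]
            have h3 : {a | a ∈ A ∧ F.mkQ a = c}.ncard ≠ k := by
              intro h4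
              obtain ⟨v, rfl⟩ := Submodule.mkQ_surjective F c
              rw [← cs_eq] at h4
              exact hc (hce v h4)
            omega

end Pool.Agent.Lib.MP_b63a06_co.TR
end

section
set_option autoImplicit false

/-!
# MP_b63a06_co, TR: module EPX: the pattern of `A ∩ ⟨z, s, t⟩`
-/

namespace Pool.Agent.Lib.MP_b63a06_co.TR

namespace EPXM

variable {V : Type} [AddCommGroup V] [Module (ZMod 3) V]

theorem cases3 (c : ZMod 3) : c = 0 ∨ c = 1 ∨ c = -1 := by
  revert c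
  decide

theorem sgl_hs (A : Set V) (W : Submodule (ZMod 3) V) (z s : V) (hz : z ∈ W) (h0 : z ≠ 0)
    (hs : Sgl A W s) : HS (fun x => x ∈ A) z s := by
  refine ⟨hs.1, fun h => ?_, fun h => ?_⟩
  · have h1 := hs.2 _ h (by rw [add_sub_cancel_left]; exact hz)
    exact h0 (add_eq_left.1 h1)
  · have h1 := hs.2 _ h (by rw [sub_sub_cancel_left]; exact W.neg_mem hz)
    exact h0 (sub_eq_self.1 h1)

end EPXM

open EPXM in
theorem specEPX (hHEQ : SpecHEQ) : SpecEPX := by
  intro V _ _ _ A hA W s t hc h3 hcf z hz hz0 c₀ c₁ c₂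
  have hE := hHEQ V A hA W hc.mx h3 hcf
  have hzA : z ∉ A := fun h => hz0 (hc.mx.av z h hz)
  have hs := sgl_hs A W z s hz hz0 hc.s1
  have ht := sgl_hs A W z t hz hz0 hc.t1
  obtain ⟨g1, g2, g3, g4, g5⟩ := hE.ce z s t hzA hs ht hc.ns
  have cg : ∀ x y : V, x ∈ A → x = y → y ∈ A := fun x y h e => e ▸ h
  have ncg : ∀ x y : V, x ∉ A → x = y → y ∉ A := fun x y h e => e ▸ h
  have hn : ∀ a b c : ZMod 3, a • z + b • s + c • t ∈ A → (-a) • z + (-b) • s + (-c) • t ∈ A :=
    fun a b c h => cg _ _ (hA.2 _ h) (by module)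
  have hn' : ∀ a b c : ZMod 3, a • z + b • s + c • t ∉ A →
      (-a) • z + (-b) • s + (-c) • t ∉ A := fun a b c h h' =>
    h (cg _ _ (hn _ _ _ h') (by module))
  have p000 : (0 : ZMod 3) • z + (0 : ZMod 3) • s + (0 : ZMod 3) • t ∈ A :=
    cg _ _ hA.1 (by module)
  have p010 : (0 : ZMod 3) • z + (1 : ZMod 3) • s + (0 : ZMod 3) • t ∈ A :=
    cg _ _ hs.1 (by module)
  have p001 : (0 : ZMod 3) • z + (0 : ZMod 3) • s + (1 : ZMod 3) • t ∈ A :=
    cg _ _ ht.1 (by module)
  have p11m : (1 : ZMod 3) • z + (1 : ZMod 3) • s + (-1 : ZMod 3) • t ∈ A :=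
    cg _ _ g1 (by module)
  have pm1m : (-1 : ZMod 3) • z + (1 : ZMod 3) • s + (-1 : ZMod 3) • t ∈ A :=
    cg _ _ g2 (by module)
  have p011 : (0 : ZMod 3) • z + (1 : ZMod 3) • s + (1 : ZMod 3) • t ∈ A :=
    cg _ _ g3 (by module)
  have p111 : (1 : ZMod 3) • z + (1 : ZMod 3) • s + (1 : ZMod 3) • t ∈ A :=
    cg _ _ g4 (by module)
  have pm11 : (-1 : ZMod 3) • z + (1 : ZMod 3) • s + (1 : ZMod 3) • t ∈ A :=
    cg _ _ g5 (by module)
  have q100 : (1 : ZMod 3) • z + (0 : ZMod 3) • s + (0 : ZMod 3) • t ∉ A :=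
    ncg _ _ hzA (by module)
  have q110 : (1 : ZMod 3) • z + (1 : ZMod 3) • s + (0 : ZMod 3) • t ∉ A :=
    ncg _ _ hs.2.1 (by module)
  have qm10 : (-1 : ZMod 3) • z + (1 : ZMod 3) • s + (0 : ZMod 3) • t ∉ A :=
    ncg _ _ hs.2.2 (by module)
  have q101 : (1 : ZMod 3) • z + (0 : ZMod 3) • s + (1 : ZMod 3) • t ∉ A :=
    ncg _ _ ht.2.1 (by module)
  have qm01 : (-1 : ZMod 3) • z + (0 : ZMod 3) • s + (1 : ZMod 3) • t ∉ A :=
    ncg _ _ ht.2.2 (by module)
  have q01m : (0 : ZMod 3) • z + (1 : ZMod 3) • s + (-1 : ZMod 3) • t ∉ A :=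
    ncg _ _ hc.ns (by module)
  rcases cases3 c₀ with rfl | rfl | rfl <;> rcases cases3 c₁ with rfl | rfl | rfl <;>
    rcases cases3 c₂ with rfl | rfl | rfl <;>
    first
    | exact iff_of_true p000 (by decide)
    | exact iff_of_true p010 (by decide)
    | exact iff_of_true p001 (by decide)
    | exact iff_of_true p11m (by decide)
    | exact iff_of_true pm1m (by decide)
    | exact iff_of_true p011 (by decide)
    | exact iff_of_true p111 (by decide)
    | exact iff_of_true pm11 (by decide)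
    | exact iff_of_false q100 (by decide)
    | exact iff_of_false q110 (by decide)
    | exact iff_of_false qm10 (by decide)
    | exact iff_of_false q101 (by decide)
    | exact iff_of_false qm01 (by decide)
    | exact iff_of_false q01m (by decide)
    | exact iff_of_true (hn _ _ _ p010) (by decide)
    | exact iff_of_true (hn _ _ _ p001) (by decide)
    | exact iff_of_true (hn _ _ _ p11m) (by decide)
    | exact iff_of_true (hn _ _ _ pm1m) (by decide)
    | exact iff_of_true (hn _ _ _ p011) (by decide)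
    | exact iff_of_true (hn _ _ _ p111) (by decide)
    | exact iff_of_true (hn _ _ _ pm11) (by decide)
    | exact iff_of_false (hn' _ _ _ q100) (by decide)
    | exact iff_of_false (hn' _ _ _ q110) (by decide)
    | exact iff_of_false (hn' _ _ _ qm10) (by decide)
    | exact iff_of_false (hn' _ _ _ q101) (by decide)
    | exact iff_of_false (hn' _ _ _ qm01) (by decide)
    | exact iff_of_false (hn' _ _ _ q01m) (by decide)

end Pool.Agent.Lib.MP_b63a06_co.TR
end

section
set_option autoImplicit false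

/-!
# MP_b63a06_co, module LT8: eight coherent positions (helper27)
-/

namespace Pool.Agent.Lib.MP_b63a06_co.TR

namespace LT8M

variable {V : Type} [AddCommGroup V] [Module (ZMod 3) V]

theorem z3 (c : ZMod 3) : c = 0 ∨ c = 1 ∨ c = 2 := by
  revert c; decide

/-- the part of `A` in `v + W` as a set of elements of `W`. -/
theorem cs_ncard (A : Set V) (W : Submodule (ZMod 3) V) (v : V) :
    ({w : W | v + (w : V) ∈ A} : Set W).ncard = (cs A W v).ncard := by
  have hinj : Function.Injective (fun w : W => v + (w : V)) := by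
    intro a b h
    exact Subtype.ext (add_left_cancel h)
  rw [← Set.ncard_image_of_injective _ hinj]
  congr 1
  ext x
  constructor
  · rintro ⟨w, hw, rfl⟩
    exact ⟨hw, by simp⟩
  · rintro ⟨ha, hx⟩
    exact ⟨⟨x - v, hx⟩, by simpa using ha, by simp⟩

theorem sub_ncard (A : Set V) (W : Submodule (ZMod 3) V) (v : V) (f : W →ₗ[ZMod 3] ZMod 3)
    (φ : V →ₗ[ZMod 3] ZMod 3) (h : ∀ w : W, φ w = f w) :
    ({w : W | w ∈ ({w : W | v + (w : V) ∈ A} : Set W) ∧ f w ≠ 0} : Set W).ncard =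
      ({w | w ∈ W ∧ φ w ≠ 0 ∧ v + w ∈ A} : Set V).ncard := by
  rw [← Set.ncard_image_of_injective _ (Subtype.val_injective (p := fun x => x ∈ W))]
  congr 1
  ext x
  constructor
  · rintro ⟨w, ⟨hw, hf⟩, rfl⟩
    refine ⟨w.2, ?_, hw⟩
    rw [h w]
    exact hf
  · rintro ⟨hx, hf, ha⟩
    refine ⟨⟨x, hx⟩, ⟨ha, ?_⟩, rfl⟩
    rw [← h ⟨x, hx⟩]
    exact hf

theorem indep (W : Submodule (ZMod 3) V) (s t y : V)
    (h : ∀ a b : ZMod 3, a • s + b • t ∈ W → a = 0 ∧ b = 0) (hy : y ∉ FF W s t) :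
    ∀ a b c : ZMod 3, a • s + b • t + c • y ∈ W → a = 0 ∧ b = 0 ∧ c = 0 := by
  intro a b c habc
  have hc : c = 0 := by
    by_contra hc
    apply hy
    have hW : W ≤ FF W s t := le_sup_left
    have hs : s ∈ FF W s t := Submodule.mem_sup_right (Submodule.subset_span (by simp))
    have ht : t ∈ FF W s t := Submodule.mem_sup_right (Submodule.subset_span (by simp))
    have h1 : c • y ∈ FF W s t := by
      have h2 : c • y = (a • s + b • t + c • y) - a • s - b • t := by abel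
      rw [h2]
      exact Submodule.sub_mem _ (Submodule.sub_mem _ (hW habc) (Submodule.smul_mem _ _ hs))
        (Submodule.smul_mem _ _ ht)
    have h3 : c⁻¹ • (c • y) ∈ FF W s t := Submodule.smul_mem _ _ h1
    haveI : Fact (Nat.Prime 3) := ⟨Nat.prime_three⟩
    rwa [smul_smul, inv_mul_cancel₀ hc, one_smul] at h3
  subst hc
  rw [zero_smul, add_zero] at habc
  obtain ⟨h1, h2⟩ := h a b habc
  exact ⟨h1, h2, rfl⟩

theorem layers [Finite V] (A : Set V) (W : Submodule (ZMod 3) V) (s t y : V)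
    (φ : V →ₗ[ZMod 3] ZMod 3) :
    EC A W s t y φ 0 + EC A W s t y φ 1 + EC A W s t y φ 2 ≤ (cs A (FF W s t) y).ncard := by
  unfold EC
  have hd : ∀ c d : ZMod 3, c ≠ d →
      Disjoint ({x | x ∈ A ∧ x - y ∈ FF W s t ∧ φ x = c} : Set V)
        ({x | x ∈ A ∧ x - y ∈ FF W s t ∧ φ x = d} : Set V) := by
    intro c d hcd
    rw [Set.disjoint_left]
    rintro x ⟨_, _, h1⟩ ⟨_, _, h2⟩
    exact hcd (h1.symm.trans h2)
  have h01 : (0 : ZMod 3) ≠ 1 := by decide
  have h02 : (0 : ZMod 3) ≠ 2 := by decide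
  have h12 : (1 : ZMod 3) ≠ 2 := by decide
  rw [← Set.ncard_union_eq (hd 0 1 h01) (Set.toFinite _) (Set.toFinite _),
    ← Set.ncard_union_eq (Set.disjoint_union_left.2 ⟨hd 0 2 h02, hd 1 2 h12⟩)
      (Set.toFinite _) (Set.toFinite _)]
  apply Set.ncard_le_ncard _ (Set.toFinite _)
  rintro x ((⟨h1, h2, _⟩ | ⟨h1, h2, _⟩) | ⟨h1, h2, _⟩) <;> exact ⟨h1, h2⟩

end LT8M

open LT8M

theorem specLT8 (hLPS : SpecLPS) (hHAV : SpecHAV) (hEXF : SpecEXF) (hCBA : SpecCBA) : SpecLT8 := by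
  intro V _ _ _ A hA W s t hC hmin h5 y hy h8
  obtain ⟨hind, -, -, -⟩ := hCBA V A hA W s t hC
  have h0 : (0 : W) ∉ ({w : W | (s - t) + (w : V) ∈ A} : Set W) := by
    intro h
    apply hC.ns
    simpa using h
  have h5' : 5 ≤ ({w : W | (s - t) + (w : V) ∈ A} : Set W).ncard +
      ({w : W | (s + t) + (w : V) ∈ A} : Set W).ncard := by
    rw [cs_ncard, cs_ncard]
    exact h5
  obtain ⟨f, hf⟩ := hHAV W _ _ h0 h5'
  obtain ⟨φ, hφ, hs, ht, hy0⟩ := hEXF V W s t y (indep W s t y hind hy) f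
  rw [sub_ncard A W (s - t) f φ hφ, sub_ncard A W (s + t) f φ hφ] at hf
  have hne : ∃ w ∈ W, φ w ≠ 0 := by
    by_contra hcon
    push Not at hcon
    have e1 : ({w | w ∈ W ∧ φ w ≠ 0 ∧ (s - t) + w ∈ A} : Set V) = ∅ := by
      ext x
      simp only [Set.mem_setOf_eq, Set.mem_empty_iff_false, iff_false]
      rintro ⟨h1, h2, _⟩
      exact h2 (hcon x h1)
    have e2 : ({w | w ∈ W ∧ φ w ≠ 0 ∧ (s + t) + w ∈ A} : Set V) = ∅ := by
      ext x
      simp only [Set.mem_setOf_eq, Set.mem_empty_iff_false, iff_false]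
      rintro ⟨h1, h2, _⟩
      exact h2 (hcon x h1)
    rw [e1, e2, Set.ncard_empty] at hf
    omega
  have hl := hLPS V A hA W s t hC hmin y hy φ hs ht hy0 hne
  have hl1 := hl 1
  have hl2 := hl 2
  rw [min_eq_left hf] at hl1 hl2
  have hl0 : 8 ≤ EC A W s t y φ 0 := by
    refine le_trans h8 ?_
    have hinj : Set.InjOn (fun p : ZMod 3 × ZMod 3 => y + p.1 • s + p.2 • t)
        {p : ZMod 3 × ZMod 3 | y + p.1 • s + p.2 • t ∈ A} := by
      intro p _ q _ hpq
      simp only at hpq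
      have h1 : (p.1 - q.1) • s + (p.2 - q.2) • t = 0 := by
        rw [sub_smul, sub_smul]
        have h2 : p.1 • s - q.1 • s + (p.2 • t - q.2 • t) =
          (y + p.1 • s + p.2 • t) - (y + q.1 • s + q.2 • t) := by abel
        rw [h2, hpq, sub_self]
      obtain ⟨h3, h4⟩ := hind (p.1 - q.1) (p.2 - q.2) (h1 ▸ Submodule.zero_mem _)
      exact Prod.ext (sub_eq_zero.1 h3) (sub_eq_zero.1 h4)
    rw [← Set.ncard_image_of_injOn hinj]
    unfold EC
    apply Set.ncard_le_ncard _ (Set.toFinite _)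
    rintro _ ⟨p, hp, rfl⟩
    refine ⟨hp, ?_, ?_⟩
    · have h1 : y + p.1 • s + p.2 • t - y = p.1 • s + p.2 • t := by abel
      simp only
      rw [h1]
      have hs' : s ∈ FF W s t := Submodule.mem_sup_right (Submodule.subset_span (by simp))
      have ht' : t ∈ FF W s t := Submodule.mem_sup_right (Submodule.subset_span (by simp))
      exact Submodule.add_mem _ (Submodule.smul_mem _ _ hs') (Submodule.smul_mem _ _ ht')
    · simp only [map_add, map_smul, hs, ht, hy0, smul_zero, add_zero]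
  have := layers A W s t y φ
  omega

end Pool.Agent.Lib.MP_b63a06_co.TR
end

section
set_option autoImplicit false

/-!
# MP_b63a06_co, module LTA (helper35): there is a conflict of size 4
-/

namespace Pool.Agent.Lib.MP_b63a06_co.TR

namespace LTAM

variable {V : Type} [AddCommGroup V] [Module (ZMod 3) V]

/-- the elements of `A` at the position `(a, b)`, as elements of `W`. -/
def SS (A : Set V) (W : Submodule (ZMod 3) V) (s t y : V) (a b : ZMod 3) : Set W :=
  {w | y + a • s + b • t + (w : V) ∈ A}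

theorem ncard_pos (A : Set V) (W : Submodule (ZMod 3) V) (v : V) :
    {w : W | v + (w : V) ∈ A}.ncard = (cs A W v).ncard := by
  have hinj : Function.Injective (fun w : W => v + (w : V)) := by
    intro w w' h
    exact Subtype.ext (add_left_cancel h)
  rw [← Set.ncard_image_of_injective _ hinj]
  congr 1
  ext x
  constructor
  · rintro ⟨w, hw, rfl⟩
    exact ⟨hw, by simp⟩
  · rintro ⟨hx, hxW⟩
    exact ⟨⟨x - v, hxW⟩, by simpa using hx, by simp⟩

theorem ncard_SS (A : Set V) (W : Submodule (ZMod 3) V) (s t y : V) (a b : ZMod 3) :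
    (SS A W s t y a b).ncard = (cs A W (y + a • s + b • t)).ncard := ncard_pos A W _

theorem cs_congr (A : Set V) (W : Submodule (ZMod 3) V) (v v' : V) (h : v - v' ∈ W) :
    cs A W v = cs A W v' := by
  ext x
  constructor
  · rintro ⟨hx, hW⟩
    refine ⟨hx, ?_⟩
    have : x - v' = (x - v) + (v - v') := by abel
    rw [this]
    exact W.add_mem hW h
  · rintro ⟨hx, hW⟩
    refine ⟨hx, ?_⟩
    have : x - v = (x - v') - (v - v') := by abel
    rw [this]
    exact W.sub_mem hW h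

theorem sgl_of (A : Set V) (W : Submodule (ZMod 3) V) (s t y : V) (a b : ZMod 3) (x : W)
    (h : SS A W s t y a b = {x}) : Sgl A W (y + a • s + b • t + (x : V)) := by
  have hx : x ∈ SS A W s t y a b := by rw [h]; rfl
  refine ⟨hx, fun c hc hcW => ?_⟩
  have h1 : c - (y + a • s + b • t) ∈ W := by
    have : c - (y + a • s + b • t) = (c - (y + a • s + b • t + (x : V))) + x := by abel
    rw [this]
    exact W.add_mem hcW x.2
  have h2 : (⟨c - (y + a • s + b • t), h1⟩ : W) ∈ SS A W s t y a b := by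
    show y + a • s + b • t + (c - (y + a • s + b • t)) ∈ A
    simpa using hc
  rw [h, Set.mem_singleton_iff] at h2
  have h3 : c - (y + a • s + b • t) = (x : V) := congrArg Subtype.val h2
  rw [← h3]
  abel

end LTAM

open LTAM in
theorem specLTA (hNF4 : SpecNF4) (hCBA : SpecCBA) (hAVG : SpecAVG) (hYSM : SpecYSM)
    (hMEE : SpecMEE) (hLTS : SpecLTS) (hLTB : SpecLTB) (hLT8 : SpecLT8) (hLTC : SpecLTC) :
    SpecLTA := by
  classical
  intro V _ _ _ A hA hbig hex
  by_contra hno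
  have h5 : ∀ W s t, Conf A W s t → 5 ≤ NN A W s t := by
    intro W s t hC
    have h4 := hNF4 V A hA W s t hC
    have h4' : NN A W s t ≠ 4 := fun h => hno ⟨W, s, t, hC, h⟩
    omega
  -- a conflict with minimal size
  have hexn : ∃ n, ∃ W s t, Conf A W s t ∧ NN A W s t = n := by
    obtain ⟨W, s, t, h⟩ := hex
    exact ⟨_, W, s, t, h, rfl⟩
  obtain ⟨W, s, t, hC, hn⟩ := Nat.find_spec hexn
  have hmin : ∀ W' s' t', Conf A W' s' t' → NN A W s t ≤ NN A W' s' t' := by
    intro W' s' t' hC'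
    rw [hn]
    exact Nat.find_min' hexn ⟨W', s', t', hC', rfl⟩
  obtain ⟨hst, -, hix, hcs0⟩ := hCBA V A hA W s t hC
  have hNN := h5 W s t hC
  have hb := hbig W hC.mx
  obtain ⟨y, hy, hyc⟩ := hAVG V A (FF W s t) 14 (by omega)
  obtain ⟨-, hsum⟩ := hYSM V A W s t
  have hsum' := hsum hst y
  have hcoh : ∀ (r : V) (a b a₁ b₁ a₂ b₂ : ZMod 3) (x : W), Sgl A W r →
      (y + a • s + b • t + (x : V) + r = y + a₁ • s + b₁ • t + (x : V)) →
      (y + a • s + b • t + (x : V) - r = y + a₂ • s + b₂ • t + (x : V)) →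
      SS A W s t y a b = {x} →
      (SS A W s t y a₁ b₁).ncard + (SS A W s t y a₂ b₂).ncard ≤ 4 →
      x ∈ SS A W s t y a₁ b₁ ∧ x ∈ SS A W s t y a₂ b₂ := by
    intro r a b a₁ b₁ a₂ b₂ x hr e1 e2 hS hle
    have hX := sgl_of A W s t y a b x hS
    have key := hLTS V A hA h5 W r _ hC.mx hr hX (by
      rw [e1, e2, cs_congr A W (y + a₁ • s + b₁ • t + (x : V)) (y + a₁ • s + b₁ • t) (by simp),
        cs_congr A W (y + a₂ • s + b₂ • t + (x : V)) (y + a₂ • s + b₂ • t) (by simp),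
        ← ncard_SS, ← ncard_SS]
      exact hle)
    rw [e1, e2] at key
    exact key
  rcases hLTB W (SS A W s t y) (by
      intro a b
      obtain ⟨c, hc, hcW⟩ := hMEE V A hA W hC.mx (y + a • s + b • t)
      exact ⟨⟨_, hcW⟩, by show y + a • s + b • t + (c - (y + a • s + b • t)) ∈ A; simpa using hc⟩)
    (by
      simp only [ncard_SS]
      rw [← hsum']
      omega)
    (by
      intro a b x hS hle
      exact hcoh s a b (a + 1) b (a - 1) b x hC.s1 (by rw [add_smul, one_smul]; abel)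
        (by rw [sub_smul, one_smul]; abel) hS hle)
    (by
      intro a b x hS hle
      exact hcoh t a b a (b + 1) a (b - 1) x hC.t1 (by rw [add_smul, one_smul]; abel)
        (by rw [sub_smul, one_smul]; abel) hS hle) with ⟨x, hx⟩ | ⟨a₀, b₀, x, x', hxx, hS0, hS⟩
  · have hyx : y + (x : V) ∉ FF W s t := by
      intro h
      apply hy
      have : y = (y + (x : V)) - (x : V) := by abel
      rw [this]
      exact Submodule.sub_mem _ h (Submodule.mem_sup_left x.2)
    have h14 := hLT8 V A hA W s t hC (fun W' h => hmin W' s t h) hNN (y + (x : V)) hyx (by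
      refine le_trans hx (le_of_eq ?_)
      congr 1
      ext p
      show y + p.1 • s + p.2 • t + (x : V) ∈ A ↔ y + (x : V) + p.1 • s + p.2 • t ∈ A
      have : y + p.1 • s + p.2 • t + (x : V) = y + (x : V) + p.1 • s + p.2 • t := by abel
      rw [this])
    rw [cs_congr A (FF W s t) (y + (x : V)) y (by
      have : y + (x : V) - y = x := by abel
      rw [this]
      exact Submodule.mem_sup_left x.2)] at h14
    omega
  · have hmemFF : ∀ a b : ZMod 3, a • s + b • t ∈ FF W s t := by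
      intro a b
      refine Submodule.mem_sup_right ?_
      exact Submodule.add_mem _ (Submodule.smul_mem _ _ (Submodule.subset_span (by simp)))
        (Submodule.smul_mem _ _ (Submodule.subset_span (by simp)))
    refine hLTC V A hA W s t hC hmin hNN (y + a₀ • s + b₀ • t + (x' : V)) ((x : V) - (x' : V))
      ?_ (W.sub_mem x.2 x'.2) (fun h => hxx (Subtype.ext (sub_eq_zero.mp h)))
      (sgl_of A W s t y a₀ b₀ x' hS0) ?_
    · intro h
      apply hy
      have : y = (y + a₀ • s + b₀ • t + (x' : V)) - (a₀ • s + b₀ • t) - (x' : V) := by abel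
      rw [this]
      exact Submodule.sub_mem _ (Submodule.sub_mem _ h (hmemFF _ _))
        (Submodule.mem_sup_left x'.2)
    · intro a b ha hb'
      have := sgl_of A W s t y (a₀ + a) (b₀ + b) x (hS _ _ (by simpa using ha) (by simpa using hb'))
      have e : y + a₀ • s + b₀ • t + (x' : V) + a • s + b • t + ((x : V) - (x' : V)) =
          y + (a₀ + a) • s + (b₀ + b) • t + (x : V) := by
        rw [add_smul, add_smul]
        abel
      rw [e]
      exact this

end Pool.Agent.Lib.MP_b63a06_co.TR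
end

section
/-!
# MP_b63a06_co: module LTB (combinatorics of nine sets)
-/
set_option autoImplicit false

namespace Pool.Agent.Lib.MP_b63a06_co.TR

namespace LTBM

theorem sum3 (f : ZMod 3 → ℕ) (b : ZMod 3) : ∑ a : ZMod 3, f a = f b + f (b + 1) + f (b - 1) := by
  have h : ∑ a : ZMod 3, f a = f 0 + f 1 + f 2 := Fin.sum_univ_three f
  rw [h]
  have h0 : b = 0 ∨ b = 1 ∨ b = 2 := by revert b; decide
  rcases h0 with rfl | rfl | rfl
  · have h1 : (0 : ZMod 3) + 1 = 1 := by decide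
    have h2 : (0 : ZMod 3) - 1 = 2 := by decide
    rw [h1, h2]
  · have h1 : (1 : ZMod 3) + 1 = 2 := by decide
    have h2 : (1 : ZMod 3) - 1 = 0 := by decide
    rw [h1, h2]; ring
  · have h1 : (2 : ZMod 3) + 1 = 0 := by decide
    have h2 : (2 : ZMod 3) - 1 = 1 := by decide
    rw [h1, h2]; ring

theorem tri (a b : ZMod 3) : b = a ∨ b = a + 1 ∨ b = a - 1 := by
  revert a b; decide

theorem succ_ne (a : ZMod 3) : a + 1 ≠ a := by
  revert a; decide

theorem tri' (a b : ZMod 3) (h : b ≠ a) : b = a + 1 ∨ b = a - 1 := by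
  rcases tri a b with h1 | h1
  · exact absurd h1 h
  · exact h1

section

variable {L : Type}

/-- A good line. -/
theorem line (T : ZMod 3 → Set L) (hne : ∀ a, 1 ≤ (T a).ncard)
    (hco : ∀ a x, T a = {x} → (T (a + 1)).ncard + (T (a - 1)).ncard ≤ 4 →
      x ∈ T (a + 1) ∧ x ∈ T (a - 1))
    (hs : ∑ a : ZMod 3, (T a).ncard ≤ 5) : ∃ x, (∀ a, x ∈ T a) ∧ ∃ a, T a = {x} := by
  have h0 : ∃ a, (T a).ncard = 1 := by
    by_contra hc
    push Not at hc
    have h1 := hne 0
    have h2 := hne 1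
    have h3 := hne 2
    have h4 := hc 0
    have h5 := hc 1
    have h6 := hc 2
    have h : ∑ a : ZMod 3, (T a).ncard = (T 0).ncard + (T 1).ncard + (T 2).ncard :=
      Fin.sum_univ_three (fun a => (T a).ncard)
    omega
  obtain ⟨a, ha⟩ := h0
  obtain ⟨x, hx⟩ := Set.ncard_eq_one.mp ha
  rw [sum3 _ a] at hs
  obtain ⟨h1, h2⟩ := hco a x hx (by omega)
  refine ⟨x, fun b => ?_, a, hx⟩
  rcases tri a b with rfl | rfl | rfl
  · rw [hx]; exact Set.mem_singleton x
  · exact h1
  · exact h2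

theorem eq_of_single {T : Set L} {x y z : L} (h : T = {z}) (hx : x ∈ T) (hy : y ∈ T) : x = y := by
  rw [h] at hx hy
  rw [Set.mem_singleton_iff.mp hx, Set.mem_singleton_iff.mp hy]

theorem all_nine (S : ZMod 3 → ZMod 3 → Set L) (x : L) (h : ∀ a b, x ∈ S a b) :
    8 ≤ {p : ZMod 3 × ZMod 3 | x ∈ S p.1 p.2}.ncard := by
  have h1 : {p : ZMod 3 × ZMod 3 | x ∈ S p.1 p.2} = Set.univ := by
    ext p
    simp [h]
  rw [h1, Set.ncard_univ, Nat.card_eq_fintype_card]
  decide

theorem all_eight (S : ZMod 3 → ZMod 3 → Set L) (x : L) (q : ZMod 3 × ZMod 3)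
    (h : ∀ p : ZMod 3 × ZMod 3, p ≠ q → x ∈ S p.1 p.2) :
    8 ≤ {p : ZMod 3 × ZMod 3 | x ∈ S p.1 p.2}.ncard := by
  have h1 : (Set.univ \ {q} : Set (ZMod 3 × ZMod 3)) ⊆ {p | x ∈ S p.1 p.2} := by
    intro p hp
    exact h p (by simpa using hp.2)
  have h2 := Set.ncard_le_ncard h1 (Set.toFinite _)
  rw [Set.ncard_sdiff_singleton_of_mem (Set.mem_univ q), Set.ncard_univ,
    Nat.card_eq_fintype_card] at h2
  have h3 : Fintype.card (ZMod 3 × ZMod 3) = 9 := by decide
  omega

end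

/-- The partitions of the rows and columns. -/
theorem part : ∀ C R : ZMod 3 → Bool, (∃ a, C a = true) → (∃ a, C a = false) →
    (∃ b, R b = true) → (∃ b, R b = false) →
    5 ≤ ((Finset.univ : Finset (ZMod 3 × ZMod 3)).filter fun p => C p.1 = R p.2).card →
    ((Finset.univ : Finset (ZMod 3 × ZMod 3)).filter fun p => C p.1 = R p.2).card ≤ 5 ∧
      ∃ a₀ b₀, C a₀ = R b₀ ∧ (∀ a, a ≠ a₀ → C a = !C a₀) ∧ ∀ b, b ≠ b₀ → R b = !R b₀ := by
  decide +kernel

end LTBM

open LTBM in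
theorem specLTB : SpecLTB := by
  classical
  intro L _ S hne hsum hrow hcol
  have hpos : ∀ a b, 1 ≤ (S a b).ncard := fun a b =>
    (Set.ncard_pos (Set.toFinite _)).mpr (hne a b)
  have hsum' : (∑ b : ZMod 3, ∑ a : ZMod 3, (S a b).ncard) ≤ 13 := by
    rw [Finset.sum_comm]; exact hsum
  have hR : ∀ b, (∑ a : ZMod 3, (S a b).ncard) ≤ 5 → ∃ x, (∀ a, x ∈ S a b) ∧ ∃ a, S a b = {x} :=
    fun b h => line (fun a => S a b) (fun a => hpos a b) (fun a x => hrow a b x) h
  have hC : ∀ a, (∑ b : ZMod 3, (S a b).ncard) ≤ 5 → ∃ x, (∀ b, x ∈ S a b) ∧ ∃ b, S a b = {x} :=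
    fun a h => line (fun b => S a b) (fun b => hpos a b) (fun b x => hcol a b x) h
  have hRpos : ∀ b, 3 ≤ ∑ a : ZMod 3, (S a b).ncard := fun b => by
    rw [sum3 _ 0]
    have h1 := hpos 0 b
    have h2 := hpos (0 + 1) b
    have h3 := hpos (0 - 1) b
    omega
  have hCpos : ∀ a, 3 ≤ ∑ b : ZMod 3, (S a b).ncard := fun a => by
    rw [sum3 _ 0]
    have h1 := hpos a 0
    have h2 := hpos a (0 + 1)
    have h3 := hpos a (0 - 1)
    omega
  by_cases hbr : ∃ b₁, 6 ≤ ∑ a : ZMod 3, (S a b₁).ncard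
  · obtain ⟨b₁, hb₁⟩ := hbr
    by_cases hbc : ∃ a₁, 6 ≤ ∑ b : ZMod 3, (S a₁ b).ncard
    · -- a bad row and a bad column
      obtain ⟨a₁, ha₁⟩ := hbc
      left
      have e1 := sum3 (fun b => ∑ a : ZMod 3, (S a b).ncard) b₁
      have e2 := sum3 (fun a => ∑ b : ZMod 3, (S a b).ncard) a₁
      rw [e1] at hsum'
      rw [e2] at hsum
      have r1 := hRpos (b₁ + 1)
      have r2 := hRpos (b₁ - 1)
      have c1 := hCpos (a₁ + 1)
      have c2 := hCpos (a₁ - 1)
      obtain ⟨x1, hx1, -⟩ := hR (b₁ + 1) (by omega)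
      obtain ⟨x2, hx2, -⟩ := hR (b₁ - 1) (by omega)
      obtain ⟨y1, hy1, -⟩ := hC (a₁ + 1) (by omega)
      obtain ⟨y2, hy2, -⟩ := hC (a₁ - 1) (by omega)
      have s1 := sum3 (fun a => (S a b₁).ncard) a₁
      have s2 := sum3 (fun a => (S a (b₁ + 1)).ncard) a₁
      have s3 := sum3 (fun a => (S a (b₁ - 1)).ncard) a₁
      have t1 := sum3 (fun b => (S a₁ b).ncard) b₁
      rw [s1] at hb₁
      rw [t1] at ha₁
      rw [s1, s2, s3] at hsum'
      have p1 := hpos (a₁ + 1) (b₁ + 1)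
      have p2 := hpos (a₁ + 1) (b₁ - 1)
      have p3 := hpos (a₁ - 1) (b₁ + 1)
      have p4 := hpos (a₁ - 1) (b₁ - 1)
      have p5 := hpos a₁ b₁
      have p6 := hpos a₁ (b₁ + 1)
      have p7 := hpos a₁ (b₁ - 1)
      have p8 := hpos (a₁ + 1) b₁
      have p9 := hpos (a₁ - 1) b₁
      have k11 : (S (a₁ + 1) (b₁ + 1)).ncard = 1 → y1 = x1 := fun h => by
        obtain ⟨z, hz⟩ := Set.ncard_eq_one.mp h
        exact eq_of_single hz (hy1 _) (hx1 _)
      have k12 : (S (a₁ + 1) (b₁ - 1)).ncard = 1 → y1 = x2 := fun h => by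
        obtain ⟨z, hz⟩ := Set.ncard_eq_one.mp h
        exact eq_of_single hz (hy1 _) (hx2 _)
      have k21 : (S (a₁ - 1) (b₁ + 1)).ncard = 1 → y2 = x1 := fun h => by
        obtain ⟨z, hz⟩ := Set.ncard_eq_one.mp h
        exact eq_of_single hz (hy2 _) (hx1 _)
      have k22 : (S (a₁ - 1) (b₁ - 1)).ncard = 1 → y2 = x2 := fun h => by
        obtain ⟨z, hz⟩ := Set.ncard_eq_one.mp h
        exact eq_of_single hz (hy2 _) (hx2 _)
      have hall : x2 = x1 ∧ y1 = x1 ∧ y2 = x1 := by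
        have h4 : ((S (a₁ + 1) (b₁ + 1)).ncard = 1 ∧ (S (a₁ + 1) (b₁ - 1)).ncard = 1 ∧
            (S (a₁ - 1) (b₁ + 1)).ncard = 1) ∨
            ((S (a₁ + 1) (b₁ + 1)).ncard = 1 ∧ (S (a₁ + 1) (b₁ - 1)).ncard = 1 ∧
            (S (a₁ - 1) (b₁ - 1)).ncard = 1) ∨
            ((S (a₁ + 1) (b₁ + 1)).ncard = 1 ∧ (S (a₁ - 1) (b₁ + 1)).ncard = 1 ∧
            (S (a₁ - 1) (b₁ - 1)).ncard = 1) ∨
            ((S (a₁ + 1) (b₁ - 1)).ncard = 1 ∧ (S (a₁ - 1) (b₁ + 1)).ncard = 1 ∧
            (S (a₁ - 1) (b₁ - 1)).ncard = 1) := by omega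
        rcases h4 with ⟨u, v, w⟩ | ⟨u, v, w⟩ | ⟨u, v, w⟩ | ⟨u, v, w⟩
        · have a1 := k11 u
          have a2 := k12 v
          have a3 := k21 w
          exact ⟨by rw [← a2, a1], a1, a3⟩
        · have a1 := k11 u
          have a2 := k12 v
          have a3 := k22 w
          have a4 : x2 = x1 := by rw [← a2, a1]
          exact ⟨a4, a1, by rw [a3, a4]⟩
        · have a1 := k11 u
          have a2 := k21 v
          have a3 := k22 w
          exact ⟨by rw [← a3, a2], a1, a2⟩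
        · have a1 := k12 u
          have a2 := k21 v
          have a3 := k22 w
          have a4 : x2 = x1 := by rw [← a3, a2]
          exact ⟨a4, by rw [a1, a4], a2⟩
      obtain ⟨e3, e4, e5⟩ := hall
      rw [e3] at hx2
      rw [e4] at hy1
      rw [e5] at hy2
      refine ⟨x1, all_eight S x1 (a₁, b₁) fun p hp => ?_⟩
      by_cases hp1 : p.1 = a₁
      · have hp2 : p.2 ≠ b₁ := fun h => hp (Prod.ext hp1 h)
        rcases tri' _ _ hp2 with h | h
        · rw [h]; exact hx1 _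
        · rw [h]; exact hx2 _
      · rcases tri' _ _ hp1 with h | h
        · rw [h]; exact hy1 _
        · rw [h]; exact hy2 _
    · -- a bad row, all columns good
      left
      push Not at hbc
      have e1 := sum3 (fun b => ∑ a : ZMod 3, (S a b).ncard) b₁
      rw [e1] at hsum'
      have r1 := hRpos (b₁ + 1)
      have r2 := hRpos (b₁ - 1)
      have h3 : ∃ b, (∑ a : ZMod 3, (S a b).ncard) = 3 := by
        by_cases h : (∑ a : ZMod 3, (S a (b₁ + 1)).ncard) = 3
        · exact ⟨_, h⟩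
        · refine ⟨b₁ - 1, ?_⟩
          omega
      obtain ⟨b, hb⟩ := h3
      obtain ⟨x, hx, -⟩ := hR b (by omega)
      have hsing : ∀ a, (S a b).ncard = 1 := by
        intro a
        rw [sum3 _ a] at hb
        have h1 := hpos a b
        have h2 := hpos (a + 1) b
        have h3 := hpos (a - 1) b
        omega
      refine ⟨x, all_nine S x fun a b' => ?_⟩
      obtain ⟨y, hy, -⟩ := hC a (by have := hbc a; omega)
      obtain ⟨z, hz⟩ := Set.ncard_eq_one.mp (hsing a)
      rw [eq_of_single hz (hx a) (hy b)]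
      exact hy b'
  · push Not at hbr
    by_cases hbc : ∃ a₁, 6 ≤ ∑ b : ZMod 3, (S a₁ b).ncard
    · -- a bad column, all rows good
      obtain ⟨a₁, ha₁⟩ := hbc
      left
      have e1 := sum3 (fun a => ∑ b : ZMod 3, (S a b).ncard) a₁
      rw [e1] at hsum
      have r1 := hCpos (a₁ + 1)
      have r2 := hCpos (a₁ - 1)
      have h3 : ∃ a, (∑ b : ZMod 3, (S a b).ncard) = 3 := by
        by_cases h : (∑ b : ZMod 3, (S (a₁ + 1) b).ncard) = 3
        · exact ⟨_, h⟩
        · refine ⟨a₁ - 1, ?_⟩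
          omega
      obtain ⟨a, ha⟩ := h3
      obtain ⟨x, hx, -⟩ := hC a (by omega)
      have hsing : ∀ b, (S a b).ncard = 1 := by
        intro b
        rw [sum3 _ b] at ha
        have h1 := hpos a b
        have h2 := hpos a (b + 1)
        have h3 := hpos a (b - 1)
        omega
      refine ⟨x, all_nine S x fun a' b => ?_⟩
      obtain ⟨y, hy, -⟩ := hR b (by have := hbr b; omega)
      obtain ⟨z, hz⟩ := Set.ncard_eq_one.mp (hsing b)
      rw [eq_of_single hz (hx b) (hy a)]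
      exact hy a'
    · -- all lines are good
      push Not at hbc
      have hR' : ∀ b, ∃ x, (∀ a, x ∈ S a b) ∧ ∃ a, S a b = {x} := fun b =>
        hR b (by have := hbr b; omega)
      have hC' : ∀ a, ∃ x, (∀ b, x ∈ S a b) ∧ ∃ b, S a b = {x} := fun a =>
        hC a (by have := hbc a; omega)
      choose r hr hr' using hR'
      choose c hc hc' using hC'
      by_cases hall : ∀ a b, c a = r b
      · left
        refine ⟨c 0, all_nine S _ fun a b => ?_⟩
        rw [hall 0 b]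
        exact hr b a
      · push Not at hall
        obtain ⟨a₁, b₁, hab⟩ := hall
        right
        set F := (Finset.univ : Finset (ZMod 3 × ZMod 3)).filter
          fun p => (S p.1 p.2).ncard = 1 with hF
        have hFc : ∀ p ∈ F, c p.1 = r p.2 := by
          intro p hp
          obtain ⟨z, hz⟩ := Set.ncard_eq_one.mp (Finset.mem_filter.mp hp).2
          exact eq_of_single hz (hc _ _) (hr _ _)
        have hFcard : 5 ≤ F.card := by
          have h1 : ∑ p : ZMod 3 × ZMod 3, (S p.1 p.2).ncard ≤ 13 := by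
            rw [Fintype.sum_prod_type]
            exact hsum
          have h2 : ∑ p : ZMod 3 × ZMod 3, (2 - if (S p.1 p.2).ncard = 1 then 1 else 0) ≤
              ∑ p : ZMod 3 × ZMod 3, (S p.1 p.2).ncard := by
            refine Finset.sum_le_sum fun p _ => ?_
            have := hpos p.1 p.2
            split_ifs with h
            · omega
            · omega
          have h3 : ∑ p : ZMod 3 × ZMod 3, (2 - if (S p.1 p.2).ncard = 1 then 1 else 0) + F.card =
              18 := by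
            rw [hF, Finset.card_filter, ← Finset.sum_add_distrib]
            have h4 : ∀ p ∈ (Finset.univ : Finset (ZMod 3 × ZMod 3)),
                (2 - if (S p.1 p.2).ncard = 1 then 1 else 0) +
                  (if (S p.1 p.2).ncard = 1 then 1 else 0) = 2 := by
              intro p _
              split_ifs <;> rfl
            rw [Finset.sum_congr rfl h4]
            decide
          omega
        set C : ZMod 3 → Bool := fun a => decide (c a = c a₁) with hCd
        set R : ZMod 3 → Bool := fun b => decide (r b = c a₁) with hRd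
        have hsub : F ⊆ (Finset.univ : Finset (ZMod 3 × ZMod 3)).filter fun p => C p.1 = R p.2 := by
          intro p hp
          rw [Finset.mem_filter]
          refine ⟨Finset.mem_univ _, ?_⟩
          rw [hCd, hRd]
          simp only
          rw [hFc p hp]
        have hx1 : ∃ a, C a = true := ⟨a₁, by simp [hCd]⟩
        have hx2 : ∃ a, C a = false := by
          obtain ⟨a, ha⟩ := hr' b₁
          refine ⟨a, ?_⟩
          have h1 : c a = r b₁ := eq_of_single ha (hc _ _) (hr _ _)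
          rw [hCd]
          simp only [decide_eq_false_iff_not]
          rw [h1]
          exact fun h => hab h.symm
        have hx3 : ∃ b, R b = true := by
          obtain ⟨b, hb⟩ := hc' a₁
          refine ⟨b, ?_⟩
          have h1 : c a₁ = r b := eq_of_single hb (hc _ _) (hr _ _)
          rw [hRd]
          simp only [decide_eq_true_eq]
          exact h1.symm
        have hx4 : ∃ b, R b = false := by
          refine ⟨b₁, ?_⟩
          rw [hRd]
          simp only [decide_eq_false_iff_not]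
          exact fun h => hab h.symm
        obtain ⟨hcard, a₀, b₀, h1, h2, h3⟩ := part C R hx1 hx2 hx3 hx4
          (hFcard.trans (Finset.card_le_card hsub))
        have hEq := Finset.eq_of_subset_of_card_le hsub (hcard.trans hFcard)
        have hmem : ∀ a b, C a = R b → (S a b).ncard = 1 := by
          intro a b hab'
          have : ((a, b) : ZMod 3 × ZMod 3) ∈ F := by
            rw [hEq, Finset.mem_filter]
            exact ⟨Finset.mem_univ _, hab'⟩
          exact (Finset.mem_filter.mp this).2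
        have hval : ∀ a b, C a = R b → S a b = {c a} ∧ c a = r b := by
          intro a b hab'
          obtain ⟨z, hz⟩ := Set.ncard_eq_one.mp (hmem a b hab')
          refine ⟨?_, eq_of_single hz (hc _ _) (hr _ _)⟩
          have h4 := hc a b
          rw [hz] at h4 ⊢
          rw [Set.mem_singleton_iff.mp h4]
        have hblk : ∀ a b, a ≠ a₀ → b ≠ b₀ → C a = R b := by
          intro a b ha hb
          rw [h2 a ha, h3 b hb, h1]
        have hne1 : a₀ + 1 ≠ a₀ := succ_ne a₀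
        have hne2 : b₀ + 1 ≠ b₀ := succ_ne b₀
        refine ⟨a₀, b₀, c (a₀ + 1), c a₀, ?_, (hval a₀ b₀ h1).1, fun a b ha hb => ?_⟩
        · intro h
          have h5 := h2 (a₀ + 1) hne1
          have h6 : C (a₀ + 1) = C a₀ := by
            rw [hCd]
            simp only
            rw [h]
          rw [h6] at h5
          cases hb : C a₀ <;> rw [hb] at h5 <;> simp at h5
        · rw [(hval a b (hblk a b ha hb)).1]
          have h7 := (hval a (b₀ + 1) (hblk a _ ha hne2)).2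
          have h8 := (hval (a₀ + 1) (b₀ + 1) (hblk _ _ hne1 hne2)).2
          rw [h7, h8]

end Pool.Agent.Lib.MP_b63a06_co.TR
end

section
set_option autoImplicit false

/-!
# MP_b63a06_co, Reed's bound for elementary abelian 3-groups: module LTC
-/

namespace Pool.Agent.Lib.MP_b63a06_co.TR

namespace LTCM

variable {V : Type} [AddCommGroup V] [Module (ZMod 3) V]

theorem three (x : V) : x + x + x = 0 := by
  have : x + x + x = (3 : ZMod 3) • x := by
    rw [show (3 : ZMod 3) = 1 + 1 + 1 by decide, add_smul, add_smul, one_smul]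
  rw [this, show (3 : ZMod 3) = 0 by decide, zero_smul]

theorem cs_congr (A : Set V) (W : Submodule (ZMod 3) V) {v v' : V} (h : v - v' ∈ W) :
    cs A W v = cs A W v' := by
  ext a
  constructor
  · rintro ⟨h1, h2⟩
    exact ⟨h1, by simpa using W.add_mem h2 h⟩
  · rintro ⟨h1, h2⟩
    refine ⟨h1, ?_⟩
    have := W.sub_mem h2 h
    rwa [show a - v' - (v - v') = a - v by abel] at this

theorem cs_neg {A : Set V} (hA : Sy A) (W : Submodule (ZMod 3) V) (v : V) :
    (cs A W (-v)).ncard = (cs A W v).ncard := by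
  rw [← Set.ncard_image_of_injective (cs A W v) neg_injective]
  congr 1
  ext a
  constructor
  · rintro ⟨h1, h2⟩
    refine ⟨-a, ⟨hA.2 _ h1, ?_⟩, by simp⟩
    have := W.neg_mem h2
    rwa [show -(a - -v) = -a - v by abel] at this
  · rintro ⟨b, ⟨h1, h2⟩, rfl⟩
    refine ⟨hA.2 _ h1, ?_⟩
    have := W.neg_mem h2
    rwa [show -(b - v) = -b - -v by abel] at this

theorem sgl_card {A : Set V} {W : Submodule (ZMod 3) V} {v : V} (h : Sgl A W v) :
    (cs A W v).ncard = 1 := by
  rw [Set.ncard_eq_one]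
  refine ⟨v, ?_⟩
  ext a
  constructor
  · rintro ⟨h1, h2⟩
    exact h.2 a h1 h2
  · rintro rfl
    exact ⟨h.1, by simp⟩

end LTCM

open LTCM in
theorem specLTC : SpecLTC := by
  classical
  intro V _ _ _ A hA W s t hC hmin h5 y u hy hu hu0 hSy hS
  have hns : s - t ∉ A := hC.ns
  have hnn : ∀ x : V, -x ∈ A ↔ x ∈ A := fun x =>
    ⟨fun h => by simpa using hA.2 _ h, fun h => hA.2 _ h⟩
  have S1 := hS 1 1 (by decide) (by decide)
  have S2 := hS 1 (-1) (by decide) (by decide)
  have S3 := hS (-1) 1 (by decide) (by decide)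
  have S4 := hS (-1) (-1) (by decide) (by decide)
  simp only [one_smul, neg_smul] at S1 S2 S3 S4
  have h3u := three u
  have h3y := three y
  have h3s := three s
  have h3t := three t
  set Xp := (cs A W (s + t)).ncard with hXp
  set Xm := (cs A W (s - t)).ncard with hXm
  have hN : NN A W s t = Xm + Xp := rfl
  have hy1 : (cs A W (-y)).ncard = 1 := by rw [cs_neg hA, sgl_card hSy]
  -- (1)
  have c1 : Conf A W (y + -s + t + u) (y + s + -t + u) := by
    refine ⟨hC.mx, S3, S2, ?_⟩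
    have : y + -s + t + u - (y + s + -t + u) = s - t - (s + s + s) + (t + t + t) := by abel
    rw [this, h3s, h3t, sub_zero, add_zero]
    exact hns
  have n1 : NN A W (y + -s + t + u) (y + s + -t + u) = Xm + 1 := by
    unfold NN
    have e1 : y + -s + t + u - (y + s + -t + u) = s - t := by
      have : y + -s + t + u - (y + s + -t + u) = s - t - (s + s + s) + (t + t + t) := by abel
      rw [this, h3s, h3t, sub_zero, add_zero]
    have e2 : cs A W (y + -s + t + u + (y + s + -t + u)) = cs A W (-y) := by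
      apply cs_congr
      have : y + -s + t + u + (y + s + -t + u) - -y = (y + y + y) + (u + u) := by abel
      rw [this, h3y, zero_add]
      exact W.add_mem hu hu
    rw [e1, e2, hy1]
  have i1 := hmin _ _ _ c1
  rw [n1, hN] at i1
  -- (2)
  by_cases hb : s + t + u ∈ A
  · have hb2 : s + t - u ∉ A := by
      intro hb2
      have hm : ({s + t + u, s + t - u} : Set V) ⊆ cs A W (s + t) := by
        rintro x (rfl | rfl)
        · exact ⟨hb, by simpa using hu⟩
        · refine ⟨hb2, ?_⟩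
          rw [show s + t - u - (s + t) = -u by abel]
          exact W.neg_mem hu
      have hne : s + t + u ≠ s + t - u := by
        intro h
        have h2 : u + u = 0 := by
          have := sub_eq_zero.2 h
          rwa [show s + t + u - (s + t - u) = u + u by abel] at this
        rw [h2, zero_add] at h3u
        exact hu0 h3u
      have := Set.ncard_le_ncard hm (Set.toFinite _)
      rw [Set.ncard_pair hne] at this
      omega
    have c2 : Conf A W y (y + -s + -t + u) := by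
      refine ⟨hC.mx, hSy, S4, ?_⟩
      rw [show y - (y + -s + -t + u) = s + t - u by abel]
      exact hb2
    have n2 : NN A W y (y + -s + -t + u) = Xp + 1 := by
      unfold NN
      have e1 : cs A W (y - (y + -s + -t + u)) = cs A W (s + t) := by
        apply cs_congr
        rw [show y - (y + -s + -t + u) - (s + t) = -u by abel]
        exact W.neg_mem hu
      have e2 : cs A W (y + (y + -s + -t + u)) = cs A W (-(y + s + t + u)) := by
        apply cs_congr
        have : y + (y + -s + -t + u) - -(y + s + t + u) = (y + y + y) + (u + u) := by abel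
        rw [this, h3y, zero_add]
        exact W.add_mem hu hu
      rw [e1, e2, cs_neg hA, sgl_card S1]
    have i2 := hmin _ _ _ c2
    rw [n2, hN] at i2
    omega
  · have c2 : Conf A W y (y + s + t + u) := by
      refine ⟨hC.mx, hSy, S1, ?_⟩
      rw [show y - (y + s + t + u) = -(s + t + u) by abel, hnn]
      exact hb
    have n2 : NN A W y (y + s + t + u) = Xp + 1 := by
      unfold NN
      have e1 : (cs A W (y - (y + s + t + u))).ncard = (cs A W (s + t)).ncard := by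
        rw [← cs_neg hA W (s + t)]
        congr 1
        apply cs_congr
        rw [show y - (y + s + t + u) - -(s + t) = -u by abel]
        exact W.neg_mem hu
      have e2 : cs A W (y + (y + s + t + u)) = cs A W (-(y + -s + -t + u)) := by
        apply cs_congr
        have : y + (y + s + t + u) - -(y + -s + -t + u) = (y + y + y) + (u + u) := by abel
        rw [this, h3y, zero_add]
        exact W.add_mem hu hu
      rw [e1, e2, cs_neg hA, sgl_card S4]
    have i2 := hmin _ _ _ c2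
    rw [n2, hN] at i2
    omega

end Pool.Agent.Lib.MP_b63a06_co.TR
end

section
set_option autoImplicit false

/-!
# MP_b63a06_co: module LTS (helper24)
-/

namespace Pool.Agent.Lib.MP_b63a06_co.TR

theorem specLTS : SpecLTS := by
  intro V _ _ _ A hA hN W s x hW hs hx hle
  have hns : Sgl A W (-s) := by
    refine ⟨hA.2 s hs.1, fun a ha hav => ?_⟩
    have h1 : -a - s ∈ W := by
      have h2 : -a - s = -(a - -s) := by abel
      rw [h2]
      exact W.neg_mem hav
    have h3 := hs.2 (-a) (hA.2 a ha) h1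
    rw [← h3, neg_neg]
  constructor
  · by_contra h
    have hc : Conf A W x (-s) := ⟨hW, hx, hns, by rwa [sub_neg_eq_add]⟩
    have h5 := hN W x (-s) hc
    unfold NN at h5
    rw [sub_neg_eq_add, ← sub_eq_add_neg] at h5
    omega
  · by_contra h
    have hc : Conf A W x s := ⟨hW, hx, hs, h⟩
    have h5 := hN W x s hc
    unfold NN at h5
    omega

end Pool.Agent.Lib.MP_b63a06_co.TR
end

section
set_option autoImplicit false

/-!
# MP_b63a06_co, TR: module N4F
-/

namespace Pool.Agent.Lib.MP_b63a06_co.TR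

namespace N4FM

variable {V : Type} [AddCommGroup V] [Module (ZMod 3) V]

theorem cases3 (c : ZMod 3) : c = 0 ∨ c = 1 ∨ c = -1 := by
  revert c
  decide

theorem ex3 (x w : V) (Q : ZMod 3 → Prop) : (∃ k : ZMod 3, w = k • x ∧ Q k) ↔
    (Q 0 ∧ w = 0) ∨ (Q 1 ∧ w = x) ∨ (Q (-1) ∧ w = -x) := by
  constructor
  · rintro ⟨k, hk, hQ⟩
    rcases cases3 k with h | h | h
    · rw [h, zero_smul] at hk
      rw [h] at hQ
      exact Or.inl ⟨hQ, hk⟩
    · rw [h, one_smul] at hk
      rw [h] at hQ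
      exact Or.inr (Or.inl ⟨hQ, hk⟩)
    · rw [h, neg_smul, one_smul] at hk
      rw [h] at hQ
      exact Or.inr (Or.inr ⟨hQ, hk⟩)
  · rintro (⟨hQ, hw⟩ | ⟨hQ, hw⟩ | ⟨hQ, hw⟩)
    · exact ⟨0, by rw [hw, zero_smul], hQ⟩
    · exact ⟨1, by rw [hw, one_smul], hQ⟩
    · exact ⟨-1, by rw [hw, neg_smul, one_smul], hQ⟩

/-- the elements of the first case. -/
def T1 (a b k : ZMod 3) : Prop :=
  ((a = 0 ∨ b = 0) ∧ k = 0) ∨ (a = -b ∧ b ≠ 0 ∧ k = b) ∨ (a = b ∧ b ≠ 0)

instance (a b k : ZMod 3) : Decidable (T1 a b k) := by unfold T1; infer_instance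

/-- the elements of the second case. -/
def T2 (a b k : ZMod 3) : Prop :=
  ((a = 0 ∨ b = 0) ∧ k = 0) ∨ (a ≠ 0 ∧ b ≠ 0 ∧ k ≠ 0)

instance (a b k : ZMod 3) : Decidable (T2 a b k) := by unfold T2; infer_instance

/-- the pattern `EE` as a predicate of three numbers. -/
def E3 (c₀ c₁ c₂ : ZMod 3) : Prop :=
  (c₀ = 0 ∧ c₁ = 0) ∨ (c₀ = 0 ∧ c₂ = 0) ∨ (c₁ = 0 ∧ c₂ = 0) ∨
    (c₀ + c₁ + c₂ = 0 ∧ (c₀ = 0 ∨ c₁ = 0 ∨ c₂ = 0))

instance (a b k : ZMod 3) : Decidable (E3 a b k) := by unfold E3; infer_instance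

theorem mem_FF (W : Submodule (ZMod 3) V) (s t v : V) :
    v ∈ FF W s t ↔ ∃ a b : ZMod 3, ∃ w ∈ W, v = a • s + b • t + w := by
  unfold FF
  rw [Submodule.mem_sup]
  constructor
  · rintro ⟨w, hw, z, hz, rfl⟩
    rw [Submodule.mem_span_pair] at hz
    obtain ⟨a, b, rfl⟩ := hz
    exact ⟨a, b, w, hw, by abel⟩
  · rintro ⟨a, b, w, hw, rfl⟩
    exact ⟨w, hw, a • s + b • t, Submodule.mem_span_pair.2 ⟨a, b, rfl⟩, by abel⟩

/-- the general part. -/
theorem frame_of (A : Set V) (W : Submodule (ZMod 3) V) (s t x : V) (hx : x ∈ W) (hx0 : x ≠ 0)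
    (hind : ∀ a b : ZMod 3, a • s + b • t ∈ W → a = 0 ∧ b = 0)
    (T : ZMod 3 → ZMod 3 → ZMod 3 → Prop)
    (hT : ∀ a b : ZMod 3, ∀ w ∈ W, a • s + b • t + w ∈ A ↔ ∃ k : ZMod 3, w = k • x ∧ T a b k)
    (e : Fin 3 → V) (f g h : ZMod 3 → ZMod 3 → ZMod 3 → ZMod 3)
    (hlc : ∀ c : Fin 3 → ZMod 3, lc e c = f (c 0) (c 1) (c 2) • s + g (c 0) (c 1) (c 2) • t +
      h (c 0) (c 1) (c 2) • x)
    (hE : ∀ c₀ c₁ c₂ : ZMod 3, E3 c₀ c₁ c₂ ↔ T (f c₀ c₁ c₂) (g c₀ c₁ c₂) (h c₀ c₁ c₂))
    (hsur : ∀ a b k : ZMod 3, ∃ c₀ c₁ c₂ : ZMod 3, f c₀ c₁ c₂ = a ∧ g c₀ c₁ c₂ = b ∧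
      h c₀ c₁ c₂ = k)
    (hinj : ∀ c₀ c₁ c₂ : ZMod 3, f c₀ c₁ c₂ = 0 → g c₀ c₁ c₂ = 0 → h c₀ c₁ c₂ = 0 →
      c₀ = 0 ∧ c₁ = 0 ∧ c₂ = 0)
    (hbig : ∀ W', MaxAv A W' → Nat.card (FF W s t) = 9 * Nat.card W') :
    Frame A (FF W s t) e := by
  have hlcF : ∀ c, lc e c ∈ FF W s t := fun c => by
    rw [hlc c, mem_FF]
    exact ⟨_, _, _, W.smul_mem _ hx, rfl⟩
  refine ⟨?_, ?_, ?_, hbig⟩
  · intro i
    have h1 : lc e (Pi.single i 1) = e i := by
      unfold lc
      rw [Finset.sum_eq_single i]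
      · simp
      · intro j _ hj
        rw [Pi.single_eq_of_ne hj, zero_smul]
      · intro hi
        exact absurd (Finset.mem_univ i) hi
    rw [← h1]
    exact hlcF _
  · intro c hc
    rw [hlc c] at hc
    have h1 : f (c 0) (c 1) (c 2) • s + g (c 0) (c 1) (c 2) • t ∈ W := by
      have : f (c 0) (c 1) (c 2) • s + g (c 0) (c 1) (c 2) • t = -(h (c 0) (c 1) (c 2) • x) :=
        eq_neg_of_add_eq_zero_left hc
      rw [this]
      exact W.neg_mem (W.smul_mem _ hx)
    obtain ⟨hf, hg⟩ := hind _ _ h1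
    rw [hf, hg, zero_smul, zero_smul, zero_add, zero_add] at hc
    have hh : h (c 0) (c 1) (c 2) = 0 := by
      rcases cases3 (h (c 0) (c 1) (c 2)) with h0 | h0 | h0
      · exact h0
      · rw [h0, one_smul] at hc
        exact absurd hc hx0
      · rw [h0, neg_smul, one_smul, neg_eq_zero] at hc
        exact absurd hc hx0
    obtain ⟨h0, h1, h2⟩ := hinj _ _ _ hf hg hh
    funext i
    fin_cases i
    · exact h0
    · exact h1
    · exact h2
  · intro v
    constructor
    · rintro ⟨hvA, hvF⟩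
      obtain ⟨a, b, w, hw, rfl⟩ := (mem_FF W s t v).1 hvF
      obtain ⟨k, rfl, hTk⟩ := (hT a b w hw).1 hvA
      obtain ⟨c₀, c₁, c₂, hf, hg, hh⟩ := hsur a b k
      refine ⟨![c₀, c₁, c₂], ?_, ?_⟩
      · show E3 c₀ c₁ c₂
        rw [hE, hf, hg, hh]
        exact hTk
      · rw [hlc]
        show a • s + b • t + k • x = f c₀ c₁ c₂ • s + g c₀ c₁ c₂ • t + h c₀ c₁ c₂ • x
        rw [hf, hg, hh]
    · rintro ⟨c, hc, rfl⟩
      refine ⟨?_, hlcF c⟩
      rw [hlc c]
      apply (hT _ _ _ (W.smul_mem _ hx)).2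
      exact ⟨_, rfl, (hE _ _ _).1 hc⟩

/-- the nine cosets. -/
theorem nine (A : Set V) (hA : Sy A) (W : Submodule (ZMod 3) V) (s t : V) (hC : Conf A W s t)
    (Qm Qp : V → Prop) (hm : ∀ w ∈ W, t - s + w ∈ A ↔ Qm w) (hp : ∀ w ∈ W, s + t + w ∈ A ↔ Qp w)
    (R : ZMod 3 → ZMod 3 → V → Prop)
    (h0 : ∀ a b w, (a = 0 ∨ b = 0) → (R a b w ↔ w = 0))
    (h1 : ∀ w, R (-1) 1 w ↔ Qm w) (h2 : ∀ w, R 1 (-1) w ↔ Qm (-w))
    (h3 : ∀ w, R 1 1 w ↔ Qp w) (h4 : ∀ w, R (-1) (-1) w ↔ Qp (-w)) :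
    ∀ a b : ZMod 3, ∀ w ∈ W, a • s + b • t + w ∈ A ↔ R a b w := by
  have hneg : ∀ v : V, v ∈ A ↔ -v ∈ A := fun v =>
    ⟨hA.2 v, fun h => by have := hA.2 _ h; rwa [neg_neg] at this⟩
  have hs : ∀ w ∈ W, s + w ∈ A ↔ w = 0 := by
    intro w hw
    constructor
    · intro ha
      have := hC.s1.2 (s + w) ha (by rw [add_sub_cancel_left]; exact hw)
      simpa using this
    · intro h
      rw [h, add_zero]
      exact hC.s1.1
  have ht : ∀ w ∈ W, t + w ∈ A ↔ w = 0 := by
    intro w hw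
    constructor
    · intro ha
      have := hC.t1.2 (t + w) ha (by rw [add_sub_cancel_left]; exact hw)
      simpa using this
    · intro h
      rw [h, add_zero]
      exact hC.t1.1
  intro a b w hw
  have hw' := W.neg_mem hw
  rcases cases3 a with ha | ha | ha <;> rcases cases3 b with hb | hb | hb <;> subst ha <;> subst hb
  · rw [h0 0 0 w (Or.inl rfl), zero_smul, zero_smul, zero_add, zero_add]
    exact ⟨fun h => hC.mx.av w h hw, fun h => by rw [h]; exact hA.1⟩
  · rw [h0 0 1 w (Or.inl rfl), zero_smul, one_smul, zero_add]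
    exact ht w hw
  · rw [h0 0 (-1) w (Or.inl rfl), zero_smul, neg_smul, one_smul, zero_add, hneg]
    rw [show -(-t + w) = t + -w by abel, ht _ hw', neg_eq_zero]
  · rw [h0 1 0 w (Or.inr rfl), zero_smul, one_smul, add_zero]
    exact hs w hw
  · rw [h3, one_smul, one_smul]
    exact hp w hw
  · rw [h2, one_smul, neg_smul, one_smul, hneg]
    rw [show -(s + -t + w) = t - s + -w by abel]
    exact hm _ hw'
  · rw [h0 (-1) 0 w (Or.inr rfl), zero_smul, neg_smul, one_smul, add_zero, hneg]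
    rw [show -(-s + w) = s + -w by abel, hs _ hw', neg_eq_zero]
  · rw [h1, one_smul, neg_smul, one_smul]
    rw [show -s + t + w = t - s + w by abel]
    exact hm w hw
  · rw [h4, neg_smul, neg_smul, one_smul, one_smul, hneg]
    rw [show -(-s + -t + w) = s + t + -w by abel]
    exact hp _ hw'

end N4FM

theorem specN4F (hCBA : SpecCBA) (hEXM : SpecEXM) : SpecN4F := by
  intro V _ _ _ A hA W s t hC x hx hx0 hcase
  obtain ⟨hind, hcard, -, -⟩ := hCBA V A hA W s t hC
  have hbig : ∀ W', MaxAv A W' → Nat.card (FF W s t) = 9 * Nat.card W' := by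
    intro W' hW'
    rw [hcard, ((hEXM V A).2 W W' hC.mx hW').1]
  rcases hcase with ⟨hm, hp⟩ | ⟨hm, hp⟩
  · have hT := N4FM.nine A hA W s t hC _ _ hm hp
      (fun a b w => ∃ k : ZMod 3, w = k • x ∧ N4FM.T1 a b k)
      (fun a b w hab => by
        rw [N4FM.ex3]
        have q0 : N4FM.T1 a b 0 := Or.inl ⟨hab, rfl⟩
        have q1 : ¬ N4FM.T1 a b 1 := by revert a b; decide
        have q2 : ¬ N4FM.T1 a b (-1) := by revert a b; decide
        simp only [q0, q1, q2, true_and, false_and, or_false])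
      (fun w => by
        rw [N4FM.ex3]
        have q0 : ¬ N4FM.T1 (-1) 1 0 := by decide
        have q1 : N4FM.T1 (-1) 1 1 := by decide
        have q2 : ¬ N4FM.T1 (-1) 1 (-1) := by decide
        simp only [q0, q1, q2, true_and, false_and, or_false, false_or])
      (fun w => by
        rw [N4FM.ex3]
        have q0 : ¬ N4FM.T1 1 (-1) 0 := by decide
        have q1 : ¬ N4FM.T1 1 (-1) 1 := by decide
        have q2 : N4FM.T1 1 (-1) (-1) := by decide
        simp only [q0, q1, q2, true_and, false_and, false_or]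
        exact neg_eq_iff_eq_neg.symm)
      (fun w => by
        rw [N4FM.ex3]
        have q0 : N4FM.T1 1 1 0 := by decide
        have q1 : N4FM.T1 1 1 1 := by decide
        have q2 : N4FM.T1 1 1 (-1) := by decide
        simp only [q0, q1, q2, true_and])
      (fun w => by
        rw [N4FM.ex3]
        have q0 : N4FM.T1 (-1) (-1) 0 := by decide
        have q1 : N4FM.T1 (-1) (-1) 1 := by decide
        have q2 : N4FM.T1 (-1) (-1) (-1) := by decide
        simp only [q0, q1, q2, true_and]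
        rw [neg_eq_zero, neg_eq_iff_eq_neg, neg_inj]
        tauto)
    refine ⟨![s + t, s, -s - t - x], N4FM.frame_of A W s t x hx hx0 hind N4FM.T1 hT _
      (fun c₀ c₁ c₂ => c₀ + c₁ - c₂) (fun c₀ _ c₂ => c₀ - c₂) (fun _ _ c₂ => -c₂)
      (fun c => ?_) (by decide) (by decide) (by decide) hbig⟩
    unfold lc
    rw [Fin.sum_univ_three]
    show c 0 • (s + t) + c 1 • s + c 2 • (-s - t - x) = _
    module
  · have hT := N4FM.nine A hA W s t hC _ _ hm hp
      (fun a b w => ∃ k : ZMod 3, w = k • x ∧ N4FM.T2 a b k)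
      (fun a b w hab => by
        rw [N4FM.ex3]
        have q0 : N4FM.T2 a b 0 := Or.inl ⟨hab, rfl⟩
        have q1 : ¬ N4FM.T2 a b 1 := by revert a b; decide
        have q2 : ¬ N4FM.T2 a b (-1) := by revert a b; decide
        simp only [q0, q1, q2, true_and, false_and, or_false])
      (fun w => by
        rw [N4FM.ex3]
        have q0 : ¬ N4FM.T2 (-1) 1 0 := by decide
        have q1 : N4FM.T2 (-1) 1 1 := by decide
        have q2 : N4FM.T2 (-1) 1 (-1) := by decide
        simp only [q0, q1, q2, true_and, false_and, false_or])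
      (fun w => by
        rw [N4FM.ex3]
        have q0 : ¬ N4FM.T2 1 (-1) 0 := by decide
        have q1 : N4FM.T2 1 (-1) 1 := by decide
        have q2 : N4FM.T2 1 (-1) (-1) := by decide
        simp only [q0, q1, q2, true_and, false_and, false_or]
        rw [neg_eq_iff_eq_neg, neg_inj]
        tauto)
      (fun w => by
        rw [N4FM.ex3]
        have q0 : ¬ N4FM.T2 1 1 0 := by decide
        have q1 : N4FM.T2 1 1 1 := by decide
        have q2 : N4FM.T2 1 1 (-1) := by decide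
        simp only [q0, q1, q2, true_and, false_and, false_or])
      (fun w => by
        rw [N4FM.ex3]
        have q0 : ¬ N4FM.T2 (-1) (-1) 0 := by decide
        have q1 : N4FM.T2 (-1) (-1) 1 := by decide
        have q2 : N4FM.T2 (-1) (-1) (-1) := by decide
        simp only [q0, q1, q2, true_and, false_and, false_or]
        rw [neg_eq_iff_eq_neg, neg_inj]
        tauto)
    refine ⟨![s, -(s + t + x), t - s - x], N4FM.frame_of A W s t x hx hx0 hind N4FM.T2 hT _
      (fun c₀ c₁ c₂ => c₀ - c₁ - c₂) (fun _ c₁ c₂ => c₂ - c₁) (fun _ c₁ c₂ => -c₁ - c₂)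
      (fun c => ?_) (by decide) (by decide) (by decide) hbig⟩
    unfold lc
    rw [Fin.sum_univ_three]
    show c 0 • s + c 1 • (-(s + t + x)) + c 2 • (t - s - x) = _
    module

end Pool.Agent.Lib.MP_b63a06_co.TR
end
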