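import Pool.Agent.Lib.MP_b63a06_co.TR.SpecA

set_option autoImplicit false

/-!
# MP_b63a06_co: Reed's bound for all Cayley graphs of elementary abelian 3-groups, part B (helper65)

Conflicts of size 4 and 5; `7 M / 9` colours. See the header of `SpecA`.

For a conflict `(W, s, t)` write `X₋ = {w ∈ W | t - s + w ∈ A}` and `X₊ = {w ∈ W | s + t + w ∈ A}`. So
`0 ∉ X₋`, `|X₋| = |cs A W (s - t)|` (negation), `|X₊| = |cs A W (s + t)|`, `NN = |X₋| + |X₊|`, and both sets are not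
empty (MEE).
-/

namespace Pool.Agent.Lib.MP_b63a06_co.TR

/-! ## Part 5: the size of a conflict -/

/-- HCO [120 lines] (FLI, MEE). The rule for a conflict.

Proof. Let `d ≠ 0`, `w ∈ W` with `φ w = d`, `K = W ⊓ ker φ`. The only element of `A` in `s + W` is `s`, so `s + w + K` has
no element of `A` and `W' = K ⊔ span {s + w}` is `MaxAv` (FLI). MEE for the coset of `t + w`: `a = t + w + k + e (s + w)`.
`e = 0`: `a - t ∈ W`, `a = t`, `w + k = 0`, impossible. `e = 1`: `a = s + t + (2 w + k)`, `φ = -d`. `e = -1`: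
`a = t - s + k`, `φ = 0`. So `XM 0 ∨ XP (-d)`. MEE for the coset of `t - w`: `e = 0` impossible; `e = 1`: `a = s + t + k`;
`e = -1`: `a = t - s + (k - 2 w)`, `φ = d`. So `XP 0 ∨ XM d`. -/
def SpecHCO : Prop := ∀ (V : Type) [AddCommGroup V] [Module (ZMod 3) V] [Finite V] (A : Set V), Sy A →
  ∀ (W : Submodule (ZMod 3) V) (s t : V), Conf A W s t →
  ∀ φ : V →ₗ[ZMod 3] ZMod 3, φ s = 0 → φ t = 0 → (∃ w ∈ W, φ w ≠ 0) →
  ((∃ w ∈ W, φ w = 0 ∧ t - s + w ∈ A) ∨
    ∀ c : ZMod 3, c ≠ 0 → ∃ w ∈ W, φ w = c ∧ s + t + w ∈ A) ∧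
  ((∃ w ∈ W, φ w = 0 ∧ s + t + w ∈ A) ∨
    ∀ c : ZMod 3, c ≠ 0 → ∃ w ∈ W, φ w = c ∧ t - s + w ∈ A)

/-- NF4 [150 lines] (HCO, EXS, CBA, SPN, MEE). Every conflict has size at least 4.

Proof. If `X₋` meets the kernels of all functionals of `W` then `|X₋| ≥ 4` (SPN) and `|X₊| ≥ 1`. Otherwise there is
a functional of `W` whose kernel does not meet `X₋`; it is not zero because `X₋` is not empty; extend it (EXS, CBA)
to `φ`. HCO: `XP 1`, `XP 2`, and `XP 0` or (`XM 1` and `XM 2`). In the first case `|X₊| ≥ 3`, `|X₋| ≥ 1`, in the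
second `|X₊| ≥ 2`, `|X₋| ≥ 2`. -/
def SpecNF4 : Prop := ∀ (V : Type) [AddCommGroup V] [Module (ZMod 3) V] [Finite V] (A : Set V), Sy A →
  ∀ (W : Submodule (ZMod 3) V) (s t : V), Conf A W s t → 4 ≤ NN A W s t

/-- N4X [250 lines] (HCO, EXS, CBA, SPN, MEE). The structure of a conflict of size 4.

Proof. As in NF4 there is a `φ` with `X₋ ∩ ker φ = ∅` (otherwise `NN ≥ 5`).
Case 1: `|X₋| = 1`, `X₋ = {x}`, `|X₊| = 3`. For every `φ` with `φ x ≠ 0`: `XM 0` is false, so `XP 1`, `XP 2`, and as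
`XM 1 ∧ XM 2` is impossible, `XP 0`; so `φ` is injective on `X₊`. Let `p, q ∈ X₊` be different: if `p - q ∉ ⟨x⟩` there
is a functional with `φ (p - q) = 0`, `φ x = 1`, a contradiction. So `X₊ = p + ⟨x⟩`. If `p ∉ ⟨x⟩`, let `φ x = 0`, `φ p = 1`:
`XM 0` holds, `XP 0` fails, `XM 1` fails, against HCO. So `X₊ = ⟨x⟩ = {0, x, -x}`.
Case 2: `|X₋| = 2 = |X₊|`. Let `X₋ = {m₁, m₂}` (nonzero, different). If `m₂ ≠ -m₁` they are independent, let
`φ m₁ = φ m₂ = 1`: `XM 0`, `XM 2` fail, so `XP 1`, `XP 2`, `XP 0`, `|X₊| ≥ 3`, a contradiction. So `X₋ = {x, -x}`. For every `φ`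
with `φ x ≠ 0`: `XM 0` fails, so `X₊ = {p₁, p₂}` with `φ p₁ = 1`, `φ p₂ = 2`; so both elements of `X₊` are in `⟨x⟩` and
not `0`. (Case `|X₋| ≥ 3`: `|X₊| ≥ 2` by HCO for the `φ` from the beginning, `NN ≥ 5`.) -/
def SpecN4X : Prop := ∀ (V : Type) [AddCommGroup V] [Module (ZMod 3) V] [Finite V] (A : Set V), Sy A →
  ∀ (W : Submodule (ZMod 3) V) (s t : V), Conf A W s t → NN A W s t = 4 →
  ∃ x ∈ W, x ≠ 0 ∧
  (((∀ w ∈ W, t - s + w ∈ A ↔ w = x) ∧ (∀ w ∈ W, s + t + w ∈ A ↔ w = 0 ∨ w = x ∨ w = -x)) ∨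
   ((∀ w ∈ W, t - s + w ∈ A ↔ w = x ∨ w = -x) ∧ (∀ w ∈ W, s + t + w ∈ A ↔ w = x ∨ w = -x)))

/-- N4F [200 lines] (CBA, EXM). A conflict of size 4 gives a frame.

Proof. First case: `A ∩ F = {0, ± s, ± t, ± (t - s + x), ± (s + t), ± (s + t + x), ± (s + t - x)}`, `e = (s + t, s, -s - t - x)`:
`e₁ - e₂ = t`, `e₁ - e₃ = -(s + t - x)`, `e₂ - e₃ = t - s + x`. Second case: `A ∩ F = {0, ± s, ± t, ± (t - s + x), ± (t - s - x),
± (s + t + x), ± (s + t - x)}`, `e = (s, -(s + t + x), t - s - x)`: `e₁ - e₂ = t - s + x`, `e₁ - e₃ = -(s + t - x)`,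
`e₂ - e₃ = t`. (`x ∈ A ∩ F` is in one of the nine cosets of `W`; those of `0, ± s, ± t` have one element.) -/
def SpecN4F : Prop := ∀ (V : Type) [AddCommGroup V] [Module (ZMod 3) V] [Finite V] (A : Set V), Sy A →
  ∀ (W : Submodule (ZMod 3) V) (s t : V), Conf A W s t → ∀ x ∈ W, x ≠ 0 →
  (((∀ w ∈ W, t - s + w ∈ A ↔ w = x) ∧ (∀ w ∈ W, s + t + w ∈ A ↔ w = 0 ∨ w = x ∨ w = -x)) ∨
   ((∀ w ∈ W, t - s + w ∈ A ↔ w = x ∨ w = -x) ∧ (∀ w ∈ W, s + t + w ∈ A ↔ w = x ∨ w = -x))) →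
  ∃ e : Fin 3 → V, Frame A (FF W s t) e

/-! ## Part 6: `7 M / 9` colours if `|W| = 3` and all conflicts have size 5 -/

/-- HEQ [100 lines] (MEE). The rules `HE`.

Proof. `κ ∉ A`: `span {κ}` avoids `A` (`± κ ∉ A`), has order 3 and is `MaxAv`. `mx`: MEE. `ce`: `Conf A (span {κ}) a b`,
`|cs (a - b)| ≤ 2` (`a - b ∉ A`) and `|cs (a + b)| ≤ 3`; so `NN ≥ 5` gives all five. -/
def SpecHEQ : Prop := ∀ (V : Type) [AddCommGroup V] [Module (ZMod 3) V] [Finite V] (A : Set V), Sy A →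
  ∀ W, MaxAv A W → Nat.card W = 3 → (∀ W s t, Conf A W s t → 5 ≤ NN A W s t) → HE (fun x => x ∈ A)

/-- RER [250 lines]. The rules `RE` hold.

Proof. `[a, b, i] = y + a s + b t + i z`. `ce` for `z, s, t`: `H (s - t ± z)`, `H (s + t)`, `H (s + t ± z)`. `p0, p1, p2`: `HS H z y`.
`vert`: `mx` for `z`. `dg`: `κ = [a, b, i]`: `s ± κ ∉ H` (`κ - s = [a - 1, b, i]`, `neg`), so `HS H κ s`, `HS H κ t`, `¬ H (s - t)`; `ce`
gives `s - t ± κ`, `s + t ± κ`. `s1`: `ce` for `z`, `a = [a, b, i]`, `b = e s`; `t1` the same with `t`. `q1`: `κ = s + j z ∉ H`,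
`x = [a, b, i]` is `κ`-single; `f = e (s + t - j z) ∈ H`, `(s + t - j z) + κ = -(s - t) ∉ H`,
`(s + t - j z) - κ = t + j z ∉ H`, so `HS H κ f`; `x - f = [a - e, b - e, i + e j] ∉ H`; `ce` for `κ, x, f`. `q2`: the same with
`κ = t + j z`: `(s + t - j z) + κ = s - t`, `(s + t - j z) - κ = s + j z`. -/
def SpecRER : Prop := ∀ (V : Type) [AddCommGroup V] [Module (ZMod 3) V] (H : V → Prop), HE H →
  ∀ z s t y : V, ¬ H z → HS H z s → HS H z t → ¬ H (s - t) → HS H z y → RE (PP H s t z y)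

/-- B1F [300 lines]. The finite classification for conflicts of size 5 (checked by an independent
program: exactly nine patterns).

Proof. Computation. Search the masks of the positions, `B (0, 0) = 1`, in the order
`(0,0), (1,0), (-1,0), (0,1), (0,-1), (1,1), (-1,1), (1,-1), (-1,-1)` (any order will do), in every step with the
instances of the rules for which all positions are known, and `TT P ≤ 15`. -/
def SpecB1F : Prop := ∀ P : Pat, RE P → TT P ≤ 15 → TT P = 15 ∧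
  (CenP P ∨ ∃ k : Fin 4, ∀ a b i, P a b i ↔ Ty2 k a b i)

/-- EPX [100 lines] (HEQ). The pattern of `A ∩ ⟨z, s, t⟩`.

Proof. The cosets `0, ± s, ± t` of `W = {0, z, -z}` have one element; `s - t ∉ A`; the other five by `HE.ce` for
`κ = z`. -/
def SpecEPX : Prop := ∀ (V : Type) [AddCommGroup V] [Module (ZMod 3) V] [Finite V] (A : Set V), Sy A →
  ∀ (W : Submodule (ZMod 3) V) (s t : V), Conf A W s t → Nat.card W = 3 →
  (∀ W s t, Conf A W s t → 5 ≤ NN A W s t) → ∀ z ∈ W, z ≠ 0 → ∀ c₀ c₁ c₂ : ZMod 3,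
  c₀ • z + c₁ • s + c₂ • t ∈ A ↔ EP c₀ c₁ c₂

/-- B1V [250 lines] (HEQ, RER, B1F, EPX, YSM, CBA, MEE). The classes of `F`.

Proof. Let `T = |cs A F y| ≤ 15`. By YSM and MEE one of the nine cosets of `W` in `y + F` has exactly one element
`y'`. Let `z ∈ W`, `z ≠ 0`, `W = {0, z, -z}`, `P = PP (· ∈ A) s t z y'`. RER: `RE P`. `TT P = T` (`(a, b, i) ↦ y' + a s + b t + i z`
is a bijection onto `y' + F`). B1F: `T = 15`; `CenP P` with `a₀, b₀, i₀`: `α = y' + a₀ s + b₀ t + i₀ z` is a centre by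
EPX. -/
def SpecB1V : Prop := ∀ (V : Type) [AddCommGroup V] [Module (ZMod 3) V] [Finite V] (A : Set V), Sy A →
  ∀ (W : Submodule (ZMod 3) V) (s t : V), Conf A W s t → Nat.card W = 3 →
  (∀ W s t, Conf A W s t → 5 ≤ NN A W s t) → ∀ y, y ∉ FF W s t →
  15 ≤ (cs A (FF W s t) y).ncard ∧
  ((cs A (FF W s t) y).ncard = 15 → (FF W s t).mkQ y ∈ CE A (FF W s t) ∨
    ∃ z ∈ W, z ≠ 0 ∧ ∃ y', y' ∉ FF W s t ∧ ∃ k : Fin 4, ∀ a b i : ZMod 3,
      y' + a • s + b • t + i • z ∈ A ↔ Ty2 k a b i)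

/-- the forbidden differences of the table T21. -/
def K21 (k : Fin 4) (c : Fin 4 → ZMod 3) : Prop :=
  (c 3 = 0 → EP (c 0) (c 1) (c 2)) ∧ (c 3 = 1 → Ty2 k (c 1) (c 2) (c 0)) ∧
  (c 3 = -1 → Ty2 k (-(c 1)) (-(c 2)) (-(c 0)))

instance (k : Fin 4) (c : Fin 4 → ZMod 3) : Decidable (K21 k c) := by unfold K21; infer_instance

/-- T21 [80 lines]. Four tables with 21 colours (`/team-store/MP_b63a06_TR_tables.txt`, T21_k,
coordinates `z, s, t, y`). -/
def SpecT21 : Prop := ∀ k : Fin 4, ∃ col : (Fin 4 → ZMod 3) → ℕ, (∀ c, col c < 21) ∧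
  ∀ c d, c ≠ d → K21 k (c - d) → col c ≠ col d

/-- C21 [150 lines] (T21, CRD, CBA). `7 M / 9` colours in the case of the four patterns.

Proof. CRD with `R = ⊥`, `g = (z, s, t, y)`, `C = K21 k` (independent: CBA and `y ∉ F`). Let `a ∈ A`,
`a = c₀ z + c₁ s + c₂ t + c₃ y`. `c₃ = 0`: `EP` as in C8; `c₃ = 1`: by hypothesis; `c₃ = -1`: the same for `-a`.
`ix ⊥ = |V| = 3 * ix W = 81 m`, so `ix W = 27 m` and `21 m = 7 (3 m)`. -/
def SpecC21 : Prop := ∀ (V : Type) [AddCommGroup V] [Module (ZMod 3) V] [Finite V] (A : Set V), Sy A →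
  ∀ (W : Submodule (ZMod 3) V) (s t : V), Conf A W s t → Nat.card W = 3 →
  ∀ z ∈ W, z ≠ 0 → ∀ y, y ∉ FF W s t → ∀ k : Fin 4,
  (∀ a b i : ZMod 3, y + a • s + b • t + i • z ∈ A ↔ Ty2 k a b i) →
  ∃ m, ix W = 9 * m ∧ ColA A (7 * m)

/-- the forbidden differences of the table T63. -/
def K63 (c : Fin 5 → ZMod 3) : Prop := (c 3 = 0 ∨ c 4 = 0) → EP (c 0) (c 1) (c 2)

instance (c : Fin 5 → ZMod 3) : Decidable (K63 c) := by unfold K63; infer_instance

/-- T63 [80 lines]. A table with 63 colours (T63, coordinates `z, s, t, α, β`). -/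
def SpecT63 : Prop := ∃ col : (Fin 5 → ZMod 3) → ℕ, (∀ c, col c < 63) ∧
  ∀ c d, c ≠ d → K63 (c - d) → col c ≠ col d

/-- C63 [150 lines] (T63, CRD, CBA, EPX). `7 M / 9` colours if there are two independent centres.

Proof. CRD with `R = ⊥`, `g = (z, s, t, α, β)`, `C = K63`. `a ∈ A` with `c₃ = c₄ = 0`: EPX. `c₃ = 1, c₄ = 0`: `a = α + q`, `q ∈ F`, so
`q ∈ A` by `Cn`, EPX. The others by symmetry (`-a`). `ix ⊥ = |V| = 3 * ix W = 243 m`, `ix W = 81 m`, `63 m = 7 (9 m)`. -/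
def SpecC63 : Prop := ∀ (V : Type) [AddCommGroup V] [Module (ZMod 3) V] [Finite V] (A : Set V), Sy A →
  ∀ (W : Submodule (ZMod 3) V) (s t : V), Conf A W s t → Nat.card W = 3 →
  (∀ W s t, Conf A W s t → 5 ≤ NN A W s t) → ∀ α β, Cn A (FF W s t) α → Cn A (FF W s t) β →
  Ind2 (FF W s t) α β → ∃ m, ix W = 9 * m ∧ ColA A (7 * m)

/-- CNG [100 lines]. Counting the classes with a centre.

Proof. `A` is the disjoint union of the `cs A F v`, one `v` for each of the `ix F` classes; each has at least `k`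
elements, and (second part) at least `k + 1` if it is not in `CE`. -/
def SpecCNG : Prop := ∀ (V : Type) [AddCommGroup V] [Module (ZMod 3) V] [Finite V] (A : Set V)
  (F : Submodule (ZMod 3) V) (k : ℕ), (∀ v, k ≤ (cs A F v).ncard) →
  k * ix F ≤ A.ncard ∧ ((∀ v, (cs A F v).ncard = k → F.mkQ v ∈ CE A F) →
    (k + 1) * ix F ≤ A.ncard + (CE A F).ncard)

/-- TWO [80 lines]. Two independent centres.

Proof. A class `≠ 0` in `CE` with centre `α`; the classes of `0, α, -α` are three, so there is another class in `CE`,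
centre `β`. `a α + b β ∈ F`: `b ≠ 0` gives `β ∈ {0, ± α} + F`; so `b = 0`, `a α ∈ F`, `a = 0`. -/
def SpecTWO : Prop := ∀ (V : Type) [AddCommGroup V] [Module (ZMod 3) V] [Finite V] (A : Set V)
  (F : Submodule (ZMod 3) V), 4 ≤ (CE A F).ncard →
  ∃ α β, Cn A F α ∧ Cn A F β ∧ Ind2 F α β

/-- BST [120 lines] (B1V, C21, C63, CNG, TWO, CBA). `|W| = 3`, all conflicts of size at least 5.

Proof. `F = FF W s t`, `ix W = 9 * ix F` (CBA). If some `y ∉ F` has `T = 15` and no centre, C21. Otherwise the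
hypothesis of CNG holds for `k = 15` (for `v ∈ F`: `cs A F v = cs A F 0` has at least `5 + 2 * 5` elements, and the class
`0` is in `CE`), so `16 * ix F ≤ |A| + |CE|`; but `|A| + 4 ≤ 16 * ix F`. TWO, C63. -/
def SpecBST : Prop := ∀ (V : Type) [AddCommGroup V] [Module (ZMod 3) V] [Finite V] (A : Set V), Sy A →
  ∀ (W : Submodule (ZMod 3) V) (s t : V), Conf A W s t → Nat.card W = 3 →
  (∀ W s t, Conf A W s t → 5 ≤ NN A W s t) → 9 * (A.ncard + 4) ≤ 16 * ix W →
  ∃ m, ix W = 9 * m ∧ ColA A (7 * m)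

/-! ## Part 7: `7 M / 9` colours -/

/-- CPE [150 lines]. Complements in a frame.

Proof. A complement of `span (range e)` in `F` exists (`Submodule.exists_isCompl` in `F`, or a maximal one).
`|F| = 27 |R|` (`(c, r) ↦ lc e c + r` is a bijection `(Fin 3 → ZMod 3) × R → F`), `|F| = 9 |W|`, so `|W| = 3 |R|`,
`ix R = 3 * ix W`. The last statement: `a ∈ A`, `a - lc e c ∈ R` gives `a ∈ F`, `a = lc e c'` with `EE c'` (`cut`), and
`lc e (c' - c) ∈ R`, `c' = c`. -/
def SpecCPE : Prop := ∀ (V : Type) [AddCommGroup V] [Module (ZMod 3) V] [Finite V] (A : Set V)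
  (F : Submodule (ZMod 3) V) (e : Fin 3 → V), Frame A F e → (∃ R, Cpl F e R) ∧
  ∀ R, Cpl F e R → Nat.card F = 27 * Nat.card R ∧
  (∀ W, MaxAv A W → Nat.card W = 3 * Nat.card R ∧ ix R = 3 * ix W ∧ ix W = 9 * ix F) ∧
  ∀ a ∈ A, ∀ c, a - lc e c ∈ R → EE c ∧ a = lc e c

/-- T7 [60 lines]. A table with 7 colours (T7, coordinates `e₁, e₂, e₃`). -/
def SpecT7 : Prop := ∃ col : (Fin 3 → ZMod 3) → ℕ, (∀ c, col c < 7) ∧
  ∀ c d, c ≠ d → EE (c - d) → col c ≠ col d

/-- C7 [60 lines] (T7, CPE, CRD). `7 M / 9` colours for a frame.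

Proof. CRD with `R` a complement, `g = e`, `C = EE`: CPE. `ix R = 27 m = 3 * ix W`. -/
def SpecC7 : Prop := ∀ (V : Type) [AddCommGroup V] [Module (ZMod 3) V] [Finite V] (A : Set V), Sy A →
  ∀ (F : Submodule (ZMod 3) V) (e : Fin 3 → V), Frame A F e → ∀ W, MaxAv A W →
  ∃ m, ix W = 9 * m ∧ ColA A (7 * m)

/-- BFN [150 lines] (QUO, COR, NF4, N5G, N4X, N4F, C7, BST, CBA, AVG, EXM, MEE). `7 M / 9` colours.

Proof. Strong induction over `|V|` as in AFN. Let `QR A` hold. `W ≠ ⊥` as in AFN. `|W| ≥ 9`: `NN ≥ 5` (N5G),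
`|cs A F 0| ≥ 15`, `|A| + 4 ≤ 16 * ix F` (`ix W = 9 * ix F`), so `|A| + 18 < 15 + 18 * ix F` and AVG gives `y ∉ F` with at most 17
elements, against COR. `|W| = 3` (all maximal avoiding subspaces have order 3, EXM): if some conflict has `NN = 4`
then N4X, N4F, C7; otherwise all have `NN ≥ 5` (NF4): BST. -/
def SpecBFN : Prop := ∀ (V : Type) [AddCommGroup V] [Module (ZMod 3) V] [Finite V] (A : Set V), Sy A →
  (∀ W, MaxAv A W → 9 * (A.ncard + 4) ≤ 16 * ix W) → (∃ W s t, Conf A W s t) →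
  ∀ W, MaxAv A W → ∃ m, ix W = 9 * m ∧ ColA A (7 * m)

/-! ## Part 8: `9 (|A| + 4) ≤ 14 M` gives a conflict of size 4 -/

/-- HAV [100 lines]. A functional which does not vanish on three elements.

Proof. At least four of the elements (of `X` and of `Y`) are not `0`; for each of them two thirds of the
functionals do not vanish; `4 * (2 / 3) > 2`. Double counting. -/
def SpecHAV : Prop := ∀ (V : Type) [AddCommGroup V] [Module (ZMod 3) V] [Finite V] (X Y : Set V),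
  (0 : V) ∉ X → 5 ≤ X.ncard + Y.ncard → ∃ φ : V →ₗ[ZMod 3] ZMod 3,
  3 ≤ {x | x ∈ X ∧ φ x ≠ 0}.ncard + {x | x ∈ Y ∧ φ x ≠ 0}.ncard

/-- LPS [250 lines] (FLI, CBA, YSM). A layer has at least three elements.

Proof. `K = W ⊓ ker φ`, `E = EC A W s t y φ c`. Suppose `E ≤ 2`. The positions `(a, b)` of the `x ∈ A` with `x - y ∈ F`,
`φ x = c` (`x - y - a s - b t ∈ W`) are at most two, so there is a position `p = (a, b)` whose row and column contain
none of them. `y₁ = y + a s + b t`, `κ = y₁ + w₀`, `w₀ ∈ W`, `φ w₀ = c`. There is no element of `A` in `κ + K`; `W' = K ⊔ span {κ}` is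
`MaxAv` (FLI). `s` is `Sgl` for `W'`: `x - s = k + e κ`; `e = 0`: `x = s`; `e = 1`: `x = y₁ + s + (w₀ + k)` is in the layer at
`p + (1, 0)`; `e = -1`: `-x = y₁ - s + (w₀ - k)` is in the layer at `p - (1, 0)`. The same for `t`. So `Conf A W' s t`, and
`NN A W' s t` = (number of the `w ∈ K` with `s - t + w ∈ A` or `s + t + w ∈ A`) + (number of elements of the layer at
`p ± (1, -1)`, `p ± (1, 1)`) `≤ NN - |X ∖ K| + E`. Minimality: `|X ∖ K| ≤ E`. -/
def SpecLPS : Prop := ∀ (V : Type) [AddCommGroup V] [Module (ZMod 3) V] [Finite V] (A : Set V), Sy A →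
  ∀ (W : Submodule (ZMod 3) V) (s t : V), Conf A W s t →
  (∀ W', Conf A W' s t → NN A W s t ≤ NN A W' s t) → ∀ y, y ∉ FF W s t →
  ∀ φ : V →ₗ[ZMod 3] ZMod 3, φ s = 0 → φ t = 0 → φ y = 0 → (∃ w ∈ W, φ w ≠ 0) → ∀ c : ZMod 3,
  min 3 ({w | w ∈ W ∧ φ w ≠ 0 ∧ s - t + w ∈ A}.ncard + {w | w ∈ W ∧ φ w ≠ 0 ∧ s + t + w ∈ A}.ncard)
    ≤ EC A W s t y φ c

/-- LTS [60 lines]. Coherence.

Proof. If `x - s ∉ A` then `Conf A W x s` and `NN A W x s = |cs (x - s)| + |cs (x + s)| ≤ 4`. If `x + s ∉ A` then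
`Conf A W x (-s)` (`-s` is single). -/
def SpecLTS : Prop := ∀ (V : Type) [AddCommGroup V] [Module (ZMod 3) V] [Finite V] (A : Set V), Sy A →
  (∀ W s t, Conf A W s t → 5 ≤ NN A W s t) → ∀ (W : Submodule (ZMod 3) V) (s x : V), MaxAv A W →
  Sgl A W s → Sgl A W x → (cs A W (x + s)).ncard + (cs A W (x - s)).ncard ≤ 4 →
  x + s ∈ A ∧ x - s ∈ A

/-- LTB [250 lines]. Combinatorics of nine sets.

Proof. The excess of a set is its size minus one; the total excess is at most 4. A row (fixed `b`) or column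
is good if its excess is at most 2; it then contains a single set `{r}`, and by hypothesis `r` is in all three
sets of it; so every single set of a good row `b` is `{r_b}`, of a good column `{c_a}`. At most one row and at
most one column is bad. If all are good: there are at least five single sets (edges between rows and
columns), no row or column without single set. If the graph is connected, `r = c = x` for all and `x` is in all nine
sets. Otherwise the components are `2 + 2` and `1 + 1` (a row and a column with two single sets in a `2 + 1`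
component give at most four edges in total), all five positions are single: the second case of the
conclusion (or, if `x = x'`, the first). One bad row, all columns good: the two good rows have excess at most 1, so
at least five of their six sets are single, the graph is connected, and all columns contain `x` in all
three sets: nine. The same for a bad column. A bad row and a bad column: the four sets in the good rows and
columns have excess at most 1, at least three are single, the graph is connected; all sets except the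
one in the bad row and bad column contain `x`: eight. -/
def SpecLTB : Prop := ∀ (L : Type) [Finite L] (S : ZMod 3 → ZMod 3 → Set L),
  (∀ a b, (S a b).Nonempty) → (∑ a : ZMod 3, ∑ b : ZMod 3, (S a b).ncard) ≤ 13 →
  (∀ a b x, S a b = {x} → (S (a + 1) b).ncard + (S (a - 1) b).ncard ≤ 4 →
    x ∈ S (a + 1) b ∧ x ∈ S (a - 1) b) →
  (∀ a b x, S a b = {x} → (S a (b + 1)).ncard + (S a (b - 1)).ncard ≤ 4 →
    x ∈ S a (b + 1) ∧ x ∈ S a (b - 1)) →
  (∃ x, 8 ≤ {p : ZMod 3 × ZMod 3 | x ∈ S p.1 p.2}.ncard) ∨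
  ∃ a₀ b₀ x x', x ≠ x' ∧ S a₀ b₀ = {x'} ∧ ∀ a b, a ≠ a₀ → b ≠ b₀ → S a b = {x}

/-- LT8 [150 lines] (LPS, HAV, EXF, CBA). Eight coherent positions.

Proof. `X = {w : W | s - t + w ∈ A}`, `Y = {w : W | s + t + w ∈ A}`, `NN = |X| + |Y|`, `0 ∉ X`. HAV gives a functional of `W`;
extend it to `φ` (EXF, CBA) vanishing on `s, t, y`. The layer `φ = 0` contains the eight points, the two other layers
have at least three elements each (LPS); `|cs A F y|` is the sum of the three layers. -/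
def SpecLT8 : Prop := ∀ (V : Type) [AddCommGroup V] [Module (ZMod 3) V] [Finite V] (A : Set V), Sy A →
  ∀ (W : Submodule (ZMod 3) V) (s t : V), Conf A W s t →
  (∀ W', Conf A W' s t → NN A W s t ≤ NN A W' s t) → 5 ≤ NN A W s t → ∀ y, y ∉ FF W s t →
  8 ≤ {p : ZMod 3 × ZMod 3 | y + p.1 • s + p.2 • t ∈ A}.ncard →
  14 ≤ (cs A (FF W s t) y).ncard

/-- LTC [150 lines]. The block case.

Proof. `X₊ = |cs A W (s + t)|`, `X₋ = |cs A W (s - t)|` (these are numbers here). (1) `p = y + s - t + u`, `p' = y - s + t + u`: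
`p - p' = -(s - t) ∉ A`, `Conf A W p p'`, `NN A W p p' = X₋ + 1` because `p + p' = -(y + u)` is in the coset of `-y`
(`Sgl A W y`). Minimality: `X₊ ≤ 1`. (2) So not both `s + t + u`, `s + t - u` are in `A` (`u ≠ -u`). If `s + t + u ∉ A`:
`p = y + s + t + u`, `y - p = -(s + t + u) ∉ A`, `Conf A W y p`; `y + p = -(y - s - t - u)` is in the coset of
`-(y - s - t + u)`, so `NN A W y p = X₊ + 1` and `X₋ ≤ 1`. If `s + t - u ∉ A`: the same with `p = y - s - t + u`. So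
`NN ≤ 2`. -/
def SpecLTC : Prop := ∀ (V : Type) [AddCommGroup V] [Module (ZMod 3) V] [Finite V] (A : Set V), Sy A →
  ∀ (W : Submodule (ZMod 3) V) (s t : V), Conf A W s t →
  (∀ W' s' t', Conf A W' s' t' → NN A W s t ≤ NN A W' s' t') → 5 ≤ NN A W s t →
  ∀ y u, y ∉ FF W s t → u ∈ W → u ≠ 0 → Sgl A W y →
  (∀ a b : ZMod 3, a ≠ 0 → b ≠ 0 → Sgl A W (y + a • s + b • t + u)) → False

/-- LTA [200 lines] (NF4, CBA, AVG, YSM, MEE, LTS, LTB, LT8, LTC). There is a conflict of size 4.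

Proof. Otherwise all have `NN ≥ 5` (NF4). Let `(W, s, t)` be a conflict with the smallest `NN`. `F = FF W s t`,
`|cs A F 0| ≥ 15`, `ix W = 9 * ix F`, `|A| + 14 < 15 + 14 * ix F`; AVG gives `y ∉ F`, `|cs A F y| ≤ 13`. LTB for
`S a b = {w : W | y + a s + b t + w ∈ A}` (nonempty by MEE, the sum is `|cs A F y|` by YSM, coherence by LTS for `s` and
`t`). First case: LT8 for `y + x` (`cs A F (y + x) = cs A F y`). Second case: LTC for `y + a₀ s + b₀ t + x'` and
`u = x - x'`. -/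
def SpecLTA : Prop := ∀ (V : Type) [AddCommGroup V] [Module (ZMod 3) V] [Finite V] (A : Set V), Sy A →
  (∀ W, MaxAv A W → 9 * (A.ncard + 4) ≤ 14 * ix W) → (∃ W s t, Conf A W s t) →
  ∃ W s t, Conf A W s t ∧ NN A W s t = 4

end Pool.Agent.Lib.MP_b63a06_co.TR
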