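import Pool.Agent.Lib.MP_b63a06_co.TR.SpecB

set_option autoImplicit false

/-!
# MP_b63a06_co: Reed's bound for all Cayley graphs of elementary abelian 3-groups, part C (helper65)

Frames, centres, conflicts of centres, and the end. See the header of `SpecA`.
-/

namespace Pool.Agent.Lib.MP_b63a06_co.TR

/-! ## Part 9: the classes of a frame -/

/-- SIF [300 lines]. The finite classification for a frame (checked by an independent program; 3532
nodes).

Proof. Computation in `ZMod 3 ^ 3`; `EE` has 13 elements, so there are 14 vectors `v` with `¬ EE v` (seven lines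
with 63 cosets in total), and `P` meets all these cosets. `P ≠ ∅`; by translation `0 ∈ P` (the conclusion is
invariant). Search: state = (elements chosen, elements excluded), `|P| ≤ 13`; branch on an undecided element
of a coset not yet met; the search tree has 3532 nodes. Another way: branch over the elements in a fixed
order and cut as soon as a coset is completely excluded or more than 13 elements are chosen. -/
def SpecSIF : Prop := ∀ P : Set (Fin 3 → ZMod 3),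
  (∀ v, ¬ EE v → ∀ p, p ∈ P ∨ p + v ∈ P ∨ p - v ∈ P) → P.ncard ≤ 13 →
  P.ncard = 13 ∧ ∃ p, ∀ c, c ∈ P ↔ EE (c - p)

/-- CPL [200 lines]. A complement which avoids 26 elements.

Proof. Let `R₀` be a complement of `E = span (range e)` in `F` (`F` is spanned by `R₀` and `e`). For every linear
`f : R₀ → (Fin 3 → ZMod 3)` the subspace `R_f = {r - lc e (f r) | r ∈ R₀}` is a complement. `y = lc e c + r ∈ F` is in `R_f` iff
`f r = -c`. For `r = 0`: never (`y ≠ 0`). For `r ≠ 0`: exactly one of 27 of all `f` satisfies `f r = -c`. So if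
`|Y| ≤ 26` there is an `f` with `R_f ∩ Y = ∅`. -/
def SpecCPL : Prop := ∀ (V : Type) [AddCommGroup V] [Module (ZMod 3) V] [Finite V]
  (F : Submodule (ZMod 3) V) (e : Fin 3 → V), (∀ i, e i ∈ F) → (∀ c, lc e c = 0 → c = 0) →
  ∀ Y : Set V, (∀ y ∈ Y, y ∈ F) → (0 : V) ∉ Y → Y.ncard ≤ 26 →
  ∃ R, Cpl F e R ∧ ∀ y ∈ Y, y ∉ R

/-- FLV [100 lines] (CPE). The maximal avoiding subspaces `R + ⟨v⟩`.

Proof. `δ ∈ {0, γ}` below: `v = δ + lc e u`. `W' = R ⊔ span {v}`: let `a ∈ A`, `a = r + k v`. `k = 0`: `a ∈ R`, so `a = 0` (CPE with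
`c = 0`: `a = lc e 0 = 0`). `k = 1`: `a = δ + (lc e u + r)`, so `lc e u + r ∈ A` (`Cn A F δ`), so `EE u` (CPE). `k = -1`: `-a`.
`v ∉ R`: otherwise `δ ∈ F`, and `δ + q ∈ A ↔ q ∈ A` for `q ∈ F` with `q = 0`: `δ ∈ A ∩ F`, `δ = lc e c` with `EE c`, and
`c + d ∈ EE ↔ d ∈ EE` for all `d` implies `c = 0` (`decide`), so `δ = 0` and `lc e u ∈ R`, `u = 0`, `EE u`. The order is
`3 |R|`. -/
def SpecFLV : Prop := ∀ (V : Type) [AddCommGroup V] [Module (ZMod 3) V] [Finite V] (A : Set V), Sy A →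
  ∀ (F : Submodule (ZMod 3) V) (e : Fin 3 → V), Frame A F e → ∀ R, Cpl F e R →
  ∀ δ, Cn A F δ → ∀ u, ¬ EE u → MaxAv A (R ⊔ Submodule.span (ZMod 3) {δ + lc e u})

/-- SIX [250 lines] (CPE, FLV, SIF, MEE). The classes of a frame.

Proof. Let `R` be a complement and `P_R = {c | ∃ r ∈ R, y + lc e c + r ∈ A}`. For `¬ EE v`, FLV (`δ = 0`) and MEE give:
`P_R` meets `{p, p + v, p - v}`. `|P_R| ≤ |cs A F y|` (`c` is a function of `x ∈ A ∩ (y + F)`). Let `|cs A F y| ≤ 13`. SIF: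
`|P_R| = 13` and `P_R = p + EE`, and the projection is injective on `Q = {q ∈ F | y + q ∈ A}`. Fix one `R₀`, let
`q₀ ∈ Q` be the element over `p`, `α = y + q₀`; then `Q = {q₀ + lc e c + ρ c | EE c}` with `ρ c ∈ R₀`, `ρ 0 = 0`. Claim `ρ = 0`
(then `α` is a centre, `cut`). Suppose `ρ c₁ ≠ 0`, let `ψ` be a functional with `ψ (ρ c₁) = 1`, `h c = ψ (ρ c)`. For
`v : Fin 3 → ZMod 3` the complement `R = {r - ψ r • lc e v | r ∈ R₀}` has `P_R = p₁ + {c + h c • v | EE c}` for some `p₁`;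
this is a translate `p₁ + p' + EE`, 13 elements. The sum over the elements: `(∑ h) v = 13 p' = p'` (`∑ EE = 0`). As `0` is one
of the `c + h c v`: `-(∑ h) v ∈ EE` for all `v`, so `∑ h = 0`, `p' = 0`. So `c₁ + v ∈ EE` for all `v`, a contradiction. -/
def SpecSIX : Prop := ∀ (V : Type) [AddCommGroup V] [Module (ZMod 3) V] [Finite V] (A : Set V), Sy A →
  ∀ (F : Submodule (ZMod 3) V) (e : Fin 3 → V), Frame A F e → ∀ y,
  13 ≤ (cs A F y).ncard ∧ ((cs A F y).ncard = 13 → F.mkQ y ∈ CE A F)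

/-- the forbidden differences of the table T61. -/
def K61 (c : Fin 5 → ZMod 3) : Prop := (c 3 = 0 ∨ c 4 = 0) → EE ![c 0, c 1, c 2]

instance (c : Fin 5 → ZMod 3) : Decidable (K61 c) := by unfold K61; infer_instance

/-- T61 [80 lines]. A table with 61 colours (T61, coordinates `e₁, e₂, e₃, α, β`). -/
def SpecT61 : Prop := ∃ col : (Fin 5 → ZMod 3) → ℕ, (∀ c, col c < 61) ∧
  ∀ c d, c ≠ d → K61 (c - d) → col c ≠ col d

/-- CIN [80 lines] (CPE). Elements of `A` in `R + ⟨e, α, β⟩` with one zero coefficient.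

Proof. `a - x ∈ R` with `x = lc e c + p α + q β`. `q = 0`, `p = 0`: CPE. `p = 1`: `a - α ∈ F`, so `a - α ∈ A` (`Cn`), CPE.
`p = -1`: `-a - α ∈ A`. The same for `p = 0`. -/
def SpecCIN : Prop := ∀ (V : Type) [AddCommGroup V] [Module (ZMod 3) V] [Finite V] (A : Set V), Sy A →
  ∀ (F : Submodule (ZMod 3) V) (e : Fin 3 → V), Frame A F e → ∀ R, Cpl F e R →
  ∀ α β, Cn A F α → Cn A F β → ∀ a ∈ A, ∀ c, ∀ p q : ZMod 3, (p = 0 ∨ q = 0) →
  a - (lc e c + p • α + q • β) ∈ R → EE c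

/-- C61 [120 lines] (T61, CIN, CPE, CRD). `61 M / 81` colours.

Proof. CRD with `R` a complement, `g = (e, α, β)`, `C = K61`. `ix R = 243 m = 3 * ix W`. -/
def SpecC61 : Prop := ∀ (V : Type) [AddCommGroup V] [Module (ZMod 3) V] [Finite V] (A : Set V), Sy A →
  ∀ (F : Submodule (ZMod 3) V) (e : Fin 3 → V), Frame A F e → ∀ α β, Cn A F α → Cn A F β →
  Ind2 F α β → ∀ W, MaxAv A W → ∃ m, ix W = 81 * m ∧ ColA A (61 * m)

/-! ## Part 10: conflicts of centres -/

/-- CLQ [200 lines]. There is a conflict of centres.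

Proof. Choose a centre in every class of `CE`; if all differences are in `A` then they are a clique with
`|CE| > ω` elements. So there are centres `α, β` in different classes with `α - β ∉ A`. (i) A centre `δ ∈ F`
is `0`: `δ ∈ A ∩ F` (`q = 0`), `δ = lc e c`, `EE (c + d) ↔ EE d` for all `d`, so `c = 0` (`decide`). (ii) `α ∉ F`: otherwise
`α = 0` and `β ∈ A` (`Cn β`, `q = 0`), `α - β = -β ∈ A`. The same for `β`. (iii) `α - β ∉ F` (different classes).
(iv) `α + β ∉ F`: `-β` is a centre in the class of `α`, `α = -β + f`, and `f + q ∈ A ↔ q ∈ A` for `q ∈ F`, so `f` is a centre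
in `F`, `f = 0`, `α - β = -β - β = β ∈ A`, a contradiction. These give `Ind2`. -/
def SpecCLQ : Prop := ∀ (V : Type) [AddCommGroup V] [Module (ZMod 3) V] [Finite V] (A : Set V), Sy A →
  ∀ (F : Submodule (ZMod 3) V) (e : Fin 3 → V), Frame A F e → ∀ ω, Cq A ω →
  ω < (CE A F).ncard → ∃ α β, CC A F e α β

/-- LFF [300 lines]. Finite lemma for two classes (checked by an independent program; at most 1077
nodes).

Proof. Computation. Let `N(u) = {v | ¬ EE (u + v) ∧ ¬ EE (u - v)}` (a symmetric relation). For `u ∉ P`, `N(u) ⊆ Q`; for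
`v ∉ Q`, `N(v) ⊆ P`. Suppose that `EE x` and `x ∉ P` (the other case by exchanging `P` and `Q`). Search: decide for every
`u`, in the order of decreasing `|N(u)|`, membership in `P` and in `Q`; propagate; cut if `|P| + |Q| > 30` or
if one of the complements has more than 14 elements. -/
def SpecLFF : Prop := ∀ P Q : Set (Fin 3 → ZMod 3), 13 ≤ P.ncard → 13 ≤ Q.ncard →
  P.ncard + Q.ncard ≤ 30 → (∀ u v, ¬ EE (u + v) → ¬ EE (u - v) → u ∈ P ∨ v ∈ Q) →
  (∀ c, EE c → c ∈ P) ∧ (∀ c, EE c → c ∈ Q)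

/-- LFR [250 lines] (LFF, SIF, SIX, FLV, MEE, CPL, CPE). Classes next to a centre.

Proof. `P = {c | ∃ r ∈ R, γ + α + lc e c + r ∈ A}`, `Q` the same for `γ - α`, `R` any complement. Rule: let `¬ EE (p + m)`,
`¬ EE (p - m)`, `u = m - p`, `v = -(p + m)` (`¬ EE u`, `¬ EE v`, because `EE` is symmetric). FLV: `R ⊔ span {α + lc e u}`
is `MaxAv`; MEE for the coset of `γ + lc e v`: `a = γ + lc e v + r + k (α + lc e u)`. `k = 0`: `lc e v + r ∈ A` (`Cn γ`), so `EE v` (CPE),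
impossible. `k = 1`: `a = γ + α + lc e (u + v) + r`, `u + v = p`; so `p ∈ P`. `k = -1`: `v - u = m`, `m ∈ Q`. `P, Q` meet the 63
cosets of SIF (FLV with `δ = 0`, MEE), so they have at least 13 elements (SIF), and `|P| + |Q| ≤ 30`. LFF: `EE c`
implies `c ∈ P` and `c ∈ Q`, for every complement `R`. Suppose `x = lc e c ∈ A ∩ F`, `x ∉ QQ A F (γ + α)`. Then
`Y = {q - x | q ∈ QQ A F (γ + α)}` does not contain `0`, `|Y| ≤ 30 - 13 = 17` (SIX), and it meets every complement,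
against CPL. The same for `γ - α`. -/
def SpecLFR : Prop := ∀ (V : Type) [AddCommGroup V] [Module (ZMod 3) V] [Finite V] (A : Set V), Sy A →
  ∀ (F : Submodule (ZMod 3) V) (e : Fin 3 → V), Frame A F e → ∀ γ α, Cn A F γ → Cn A F α →
  (QQ A F (γ + α)).ncard + (QQ A F (γ - α)).ncard ≤ 30 →
  ∀ q ∈ F, q ∈ A → q ∈ QQ A F (γ + α) ∧ q ∈ QQ A F (γ - α)

/-- FLP [150 lines]. Flip of a frame along a centre.

Proof. `F' = {f + φ f • γ | f ∈ F}`; `f ↦ f + φ f • γ` is injective on `F` because `γ ∉ F`; so `|F'| = |F|`. `f + φ f • γ ∈ A ↔ f ∈ A`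
for `f ∈ F`: clear for `φ f = 0`; `φ f = 1`: `Cn A F γ`; `φ f = -1`: `f - γ = -(γ + (-f))`. -/
def SpecFLP : Prop := ∀ (V : Type) [AddCommGroup V] [Module (ZMod 3) V] [Finite V] (A : Set V), Sy A →
  ∀ (F : Submodule (ZMod 3) V) (e : Fin 3 → V), Frame A F e → ∀ γ, Cn A F γ → γ ∉ F →
  ∀ φ : V →ₗ[ZMod 3] ZMod 3, Frame A (F.map (flp φ γ)) (fun i => flp φ γ (e i))

/-- FLQ [120 lines]. Centres after a flip.

Proof. `q' = q + φ q • γ`, `q ∈ F`. `φ q = 0`: `Cn A F α`. `φ q = 1`: `α + q' = γ + α + q ∈ A` iff `q ∈ QQ A F (γ + α)` iff `q ∈ A` (the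
hypotheses: `q ∈ QQ`, `q ∉ A` would give `φ q = 0`), and `q' = γ + q ∈ A` iff `q ∈ A` (`Cn γ`). `φ q = -1`:
`-(α + q') = γ - α + (-q)`, so `α + q' ∈ A` iff `-q ∈ QQ A F (γ - α)` iff `-q ∈ A`; `q' = -(γ + (-q))`. -/
def SpecFLQ : Prop := ∀ (V : Type) [AddCommGroup V] [Module (ZMod 3) V] [Finite V] (A : Set V), Sy A →
  ∀ (F : Submodule (ZMod 3) V) (γ α : V), Cn A F γ → Cn A F α →
  ∀ φ : V →ₗ[ZMod 3] ZMod 3,
  (∀ q ∈ F, q ∈ A → q ∈ QQ A F (γ + α) ∧ q ∈ QQ A F (γ - α)) →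
  (∀ q, q ∈ QQ A F (γ + α) ∨ q ∈ QQ A F (γ - α) → q ∉ A → φ q = 0) →
  Cn A (F.map (flp φ γ)) α

/-- FLN [120 lines]. The number of elements after a flip.

Proof. `q ↦ q + φ q • γ` is a bijection `F → F'`; split by `φ q`; for `φ q = -1`:
`-(δ + q - γ) = γ - δ + (-q)`. -/
def SpecFLN : Prop := ∀ (V : Type) [AddCommGroup V] [Module (ZMod 3) V] [Finite V] (A : Set V), Sy A →
  ∀ (F : Submodule (ZMod 3) V) (γ δ : V), γ ∉ F → ∀ φ : V →ₗ[ZMod 3] ZMod 3,
  (QQ A (F.map (flp φ γ)) δ).ncard = {q | q ∈ QQ A F δ ∧ φ q = 0}.ncard +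
    {q | q ∈ QQ A F (γ + δ) ∧ φ q = 1}.ncard + {q | q ∈ QQ A F (γ - δ) ∧ φ q = 1}.ncard

/-- LMA [120 lines]. Averaging over the functionals which vanish on `K`.

Proof. Add the hypotheses for `φ` and `-φ`: `2 |{x ∈ X | φ x ≠ 0}| ≤ |{x ∈ Y | φ x ≠ 0}| + |{x ∈ Z | φ x ≠ 0}|`. Sum over
all `φ` which vanish on `K` (`N` of them): for `x ∉ K` exactly `2 N / 3` have `φ x ≠ 0`, for `x ∈ K` none. -/
def SpecLMA : Prop := ∀ (V : Type) [AddCommGroup V] [Module (ZMod 3) V] [Finite V] (X Y Z : Set V)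
  (K : Submodule (ZMod 3) V),
  (∀ φ : V →ₗ[ZMod 3] ZMod 3, (∀ k ∈ K, φ k = 0) →
    {x | x ∈ X ∧ φ x ≠ 0}.ncard ≤ {x | x ∈ Y ∧ φ x = 1}.ncard + {x | x ∈ Z ∧ φ x = 1}.ncard) →
  2 * {x | x ∈ X ∧ x ∉ K}.ncard ≤ Y.ncard + Z.ncard

/-- EXJ [60 lines]. Nine numbers.

Proof. At least five are `0`. Suppose that for every zero the sum over its four neighbours is at least 3.
The sum of these sums over the zeros is `∑ f(q) *` (number of zeros next to `q`) `≤ 4 * 4 = 16`, so there are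
exactly five zeros and four ones, and at most one pair of ones is adjacent twice counted (`15 ≤ 16 - 2 *`
pairs), so no two of the four ones are in the same row or column, impossible. Or `decide` (all values are
at most 4). -/
def SpecEXJ : Prop := ∀ f : ZMod 3 → ZMod 3 → ℕ, (∑ a : ZMod 3, ∑ b : ZMod 3, f a b) ≤ 4 →
  ∃ a b, f a b = 0 ∧ f (a + 1) b + f (a - 1) b + f a (b + 1) + f a (b - 1) ≤ 2

/-- LMU [250 lines] (AVG, SIX, EXJ). A good centre outside of `U = F + ⟨α, β⟩`.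

Proof. `U = F ⊔ span {α, β}`, `|cs A U y| = ∑ |cs A F (y + a α + b β)|` (`a, b : ZMod 3`), `ix F = 9 * ix U`, `ix W = 9 * ix F` (from
`big`; `|V| = |F| * ix F = |W| * ix W`), so `|A| < 122 * ix U`. `|cs A U 0| ≥ 5 * 13 + 2 * 27 + 2 * 13 = 145` (SIX; the
classes of `α - β` and of `-(α - β)` have at least 27 elements). AVG with `k = 122`: `y ∉ U` with `|cs A U y| ≤ 121`.
`f a b = |cs A F (y + a α + b β)| - 13`, `∑ f ≤ 4` (SIX). EXJ; the class of `y + a α + b β` has 13 elements, so it has a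
centre `γ` (SIX). `γ ∉ U`, so the first conclusion. The classes of `γ ± α`, `γ ± β` have together at most
`4 * 13 + 2`, those of `γ + (α - β)`, `γ - (α - β)` at most `26 + 4` elements. (`ncard_QQ`.) -/
def SpecLMU : Prop := ∀ (V : Type) [AddCommGroup V] [Module (ZMod 3) V] [Finite V] (A : Set V), Sy A →
  ∀ (F : Submodule (ZMod 3) V) (e : Fin 3 → V) (α β : V), CC A F e α β →
  27 ≤ (QQ A F (α - β)).ncard → (∀ W, MaxAv A W → 81 * A.ncard < 122 * ix W) →
  ∃ γ, Cn A F γ ∧ (∀ a b c : ZMod 3, a • α + b • β + c • γ ∈ F → a = 0 ∧ b = 0 ∧ c = 0) ∧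
  (QQ A F (γ + α)).ncard + (QQ A F (γ - α)).ncard + (QQ A F (γ + β)).ncard +
    (QQ A F (γ - β)).ncard ≤ 54 ∧
  (QQ A F (γ + (α - β))).ncard + (QQ A F (γ - (α - β))).ncard ≤ 30

/-- LMK [250 lines] (SIX, LFR, FLP, FLQ, FLN, LMA). The flip makes the conflict smaller.

Proof. SIX: each of the four classes has at least 13 elements, so each pair at most 30 together; LFR for
`(γ, α)` and `(γ, β)`. The four classes contain `A ∩ F` (13 elements, SIX gives `|QQ A F 0| ≥ 13`); let `X` be the set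
of the other elements `q` of the four `QQ`, `|X| ≤ 54 - 52 = 2`; `K = span X` has at most 9 elements. Let `φ` vanish
on `K`. `F' = F.map (flp φ γ)`: FLP, FLQ (twice), `α - β ∉ A`, and `Ind2 F' α β`: `a α + b β = f + φ f • γ` implies `φ f = 0`
(the independence of `α, β, γ`), so `a = b = 0`. So `CC A F' e' α β`, and by hypothesis
`|QQ A F (α - β)| ≤ |QQ A F' (α - β)|`. FLN (`δ = α - β`): the hypothesis of LMA for `X = QQ A F (α - β)`,
`Y = QQ A F (γ + (α - β))`, `Z = QQ A F (γ - (α - β))`. So `2 |X ∖ K| ≤ 30`; but `0 ∉ X`, so `|X ∖ K| ≥ 27 - 8 = 19`. -/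
def SpecLMK : Prop := ∀ (V : Type) [AddCommGroup V] [Module (ZMod 3) V] [Finite V] (A : Set V), Sy A →
  ∀ (F : Submodule (ZMod 3) V) (e : Fin 3 → V) (α β : V), CC A F e α β →
  27 ≤ (QQ A F (α - β)).ncard →
  (∀ (F' : Submodule (ZMod 3) V) (e' : Fin 3 → V), CC A F' e' α β →
    (QQ A F (α - β)).ncard ≤ (QQ A F' (α - β)).ncard) →
  ∀ γ, Cn A F γ → (∀ a b c : ZMod 3, a • α + b • β + c • γ ∈ F → a = 0 ∧ b = 0 ∧ c = 0) →
  (QQ A F (γ + α)).ncard + (QQ A F (γ - α)).ncard + (QQ A F (γ + β)).ncard +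
    (QQ A F (γ - β)).ncard ≤ 54 →
  (QQ A F (γ + (α - β))).ncard + (QQ A F (γ - (α - β))).ncard ≤ 30 → False

/-- LMB [100 lines] (CPL, LMU, LMK). A complement which avoids the conflict.

Proof. Choose `(F, e, α, β)` with `|QQ A F (α - β)|` minimal. `0 ∉ QQ`. If it has at most 26 elements, CPL. Otherwise
LMU, LMK. -/
def SpecLMB : Prop := ∀ (V : Type) [AddCommGroup V] [Module (ZMod 3) V] [Finite V] (A : Set V), Sy A →
  (∃ F e α β, CC A F e α β) → (∀ W, MaxAv A W → 81 * A.ncard < 122 * ix W) →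
  ∃ F e α β R, CC A F e α β ∧ Cpl F e R ∧ ∀ q ∈ QQ A F (α - β), q ∉ R

/-- the forbidden differences of the table T54. -/
def K54 (c : Fin 5 → ZMod 3) : Prop := ((c 3 = 0 ∨ c 4 = 0) → EE ![c 0, c 1, c 2]) ∧
  (c 3 ≠ 0 → c 3 + c 4 = 0 → ¬ (c 0 = 0 ∧ c 1 = 0 ∧ c 2 = 0))

instance (c : Fin 5 → ZMod 3) : Decidable (K54 c) := by unfold K54; infer_instance

/-- T54 [80 lines]. A table with 54 colours (T54, coordinates `e₁, e₂, e₃, α, β`). -/
def SpecT54 : Prop := ∃ col : (Fin 5 → ZMod 3) → ℕ, (∀ c, col c < 54) ∧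
  ∀ c d, c ≠ d → K54 (c - d) → col c ≠ col d

/-- C54 [120 lines] (T54, CIN, CPE, CRD). `54 M / 81` colours.

Proof. CRD with `R`, `g = (e, α, β)`, `C = K54`. The second part: let `a ∈ A`, `a - (p α + q β) ∈ R`, `p = -q ≠ 0`, so
`± a - (α - β) ∈ R`, and this is an element of `QQ A F (α - β)`. -/
def SpecC54 : Prop := ∀ (V : Type) [AddCommGroup V] [Module (ZMod 3) V] [Finite V] (A : Set V), Sy A →
  ∀ (F : Submodule (ZMod 3) V) (e : Fin 3 → V) (α β : V) (R : Submodule (ZMod 3) V),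
  CC A F e α β → Cpl F e R → (∀ q ∈ QQ A F (α - β), q ∉ R) → ∀ W, MaxAv A W →
  ∃ m, ix W = 81 * m ∧ ColA A (54 * m)

/-! ## Part 11: the end -/

/-- NOC [120 lines] (MEE). No conflict.

Proof. Let `k` be the number of the cosets of `W` with exactly one element of `A`. All cosets contain an
element (MEE), so `|A| ≥ k + 2 (M - k) = 2 M - k`. The single elements are a clique, `k ≤ ω`. -/
def SpecNOC : Prop := ∀ (V : Type) [AddCommGroup V] [Module (ZMod 3) V] [Finite V] (A : Set V), Sy A →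
  (¬ ∃ W s t, Conf A W s t) → ∀ ω, Cq A ω → ∀ W, MaxAv A W → 2 * ix W ≤ A.ncard + ω

/-- FIN [150 lines] (EXM, MEE, CRD, NOC, AFN, BFN, LTA, N4X, N4F, SIX, CNG, TWO, C61, CLQ, LMB, C54, CPE).
The theorem.

Proof. `W` maximal, `M = ix W`; `M` colours suffice (CRD with `n = 0`). `θ = |A| + ω`. If `2 M ≤ θ`: done. Otherwise there is
a conflict (NOC), so `A ≠ {0}` and `ω ≥ 3` (`{0, a, -a}` is a clique), so `|A| + 4 ≤ 2 M`. AFN: `M = 9 m`, `8 m` colours. If
`θ < 16 m` then `|A| + 4 ≤ 16 m`, BFN: `7 m` colours. If `θ < 14 m` then LTA, N4X, N4F: a frame, `ix F = m` (CPE);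
CNG with `k = 13` (SIX): `14 m ≤ |A| + |CE|`, so `|CE| > ω ≥ 3`: TWO, C61: `M = 81 n`, `61 n` colours. If `θ < 122 n`: CLQ, LMB, C54:
`54 n` colours; and `|A| ≥ 13 * ix F = 117 n` (SIX, first part of CNG), so `54 n ≤ θ / 2`. -/
def SpecFIN : Prop := ∀ (V : Type) [AddCommGroup V] [Module (ZMod 3) V] [Finite V] (A : Set V), Sy A →
  ∀ ω, Cq A ω → ColA A ((A.ncard + ω) / 2)

end Pool.Agent.Lib.MP_b63a06_co.TR
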