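import Pool.Agent.Lib.MP_b63a06_co.TR.SpecA
import Pool.Agent.Lib.MP_b63a06_co.TR.SpecC
import Pool.Agent.Lib.MP_b63a06_co.TR.SpecB

section
set_option autoImplicit false

/-!
# Module AFN (MP_b63a06_co, folder TR): `8 M / 9` colours
-/

namespace Pool.Agent.Lib.MP_b63a06_co.TR

namespace AFNM

variable {V : Type} [AddCommGroup V] [Module (ZMod 3) V]

theorem ne_card_one [Finite V] {A : Set V} (hA : Sy A) {W : Submodule (ZMod 3) V} {s t : V}
    (h : Conf A W s t) : Nat.card W ≠ 1 := by
  intro h1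
  have hs0 : s - t ≠ 0 := fun h0 => h.ns (by rw [h0]; exact hA.1)
  have hav : Avo A (Submodule.span (ZMod 3) {s - t}) := by
    intro a ha haW
    rw [Submodule.mem_span_singleton] at haW
    obtain ⟨c, rfl⟩ := haW
    have key : ∀ z : ZMod 3, z = 0 ∨ z = 1 ∨ z = -1 := by decide
    rcases key c with rfl | rfl | rfl
    · exact zero_smul _ _
    · rw [one_smul] at ha
      exact absurd ha h.ns
    · have h2 := hA.2 _ ha
      rw [neg_smul, one_smul, neg_neg] at h2
      exact absurd h2 h.ns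
  have h2 := h.mx.mx _ hav
  rw [h1] at h2
  have h3 : Nontrivial (Submodule.span (ZMod 3) ({s - t} : Set V)) :=
    ⟨⟨⟨s - t, Submodule.mem_span_singleton_self _⟩, 0, fun h0 => hs0 (congrArg Subtype.val h0)⟩⟩
  have h4 : 1 < Nat.card (Submodule.span (ZMod 3) ({s - t} : Set V)) :=
    Finite.one_lt_card
  omega

theorem card_cases [Finite V] (W : Submodule (ZMod 3) V) :
    Nat.card W = 1 ∨ Nat.card W = 3 ∨ 9 ≤ Nat.card W := by
  have h := Module.natCard_eq_pow_finrank (K := ZMod 3) (V := W)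
  rw [Nat.card_zmod] at h
  rcases hk : Module.finrank (ZMod 3) W with _ | _ | k
  · left; rw [h, hk]; norm_num
  · right; left; rw [h, hk]; norm_num
  · right; right
    rw [h, hk, pow_succ, pow_succ]
    have : 1 ≤ 3 ^ k := Nat.one_le_pow _ _ (by norm_num)
    omega

end AFNM

open AFNM in
theorem specAFN (hQUO : SpecQUO) (hCOR : SpecCOR) (hC8 : SpecC8) (hN5G : SpecN5G)
    (hCBA : SpecCBA) (hAVG : SpecAVG) (hEXM : SpecEXM) : SpecAFN := by
  have main : ∀ (n : ℕ) (V : Type) [AddCommGroup V] [Module (ZMod 3) V] [Finite V] (A : Set V),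
      Nat.card V ≤ n → Sy A → (∀ W, MaxAv A W → A.ncard + 4 ≤ 2 * ix W) →
      (∃ W s t, Conf A W s t) → ∀ W, MaxAv A W → ∃ m, ix W = 9 * m ∧ ColA A (8 * m) := by
    intro n
    induction n with
    | zero =>
      intro V _ _ _ A hn
      have : 0 < Nat.card V := Nat.card_pos
      omega
    | succ n ih =>
      intro V _ _ _ A hn hA hlt hconf W hW
      by_cases hQR : QR A
      · obtain ⟨W1, s, t, hc⟩ := hconf
        have hixW : ix W = ix W1 := ((hEXM V A).2 W W1 hW hc.mx).2
        rcases card_cases W1 with h1 | h3 | h9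
        · exact absurd h1 (ne_card_one hA hc)
        · rw [hixW]
          exact hC8 V A hA W1 s t hc h3
        · exfalso
          have h5 := hN5G V A hA hQR W1 s t hc h9
          obtain ⟨-, -, hix, hcs⟩ := hCBA V A hA W1 s t hc
          have hl := hlt W1 hc.mx
          have havg : A.ncard + 18 < (cs A (FF W1 s t) 0).ncard + 18 * ix (FF W1 s t) := by
            rw [hcs]
            omega
          obtain ⟨y, hy, hylt⟩ := hAVG V A (FF W1 s t) 18 havg
          have := hCOR V A hA hQR W1 s t hc h9 y hy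
          omega
      · unfold QR at hQR
        push Not at hQR
        obtain ⟨W0, Z, a, b, hZ, hw⟩ := hQR
        obtain ⟨hSy', hcard, hncard, hix, hcol, hcf⟩ := hQUO V A hA Z hZ ⟨W0, hw.mx, hw.le⟩
        haveI : Finite (V ⧸ Z) := Finite.of_surjective _ (Submodule.mkQ_surjective Z)
        have hc' := hcf W0 a b hw
        obtain ⟨m, hm, hC⟩ := ih (V ⧸ Z) (Z.mkQ '' A) (by omega) hSy'
          (fun W' hW' => by
            have h1 := hlt W hW
            have h2 := hix W W' hW hW'
            omega)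
          ⟨_, _, _, hc'⟩ (W0.map Z.mkQ) hc'.mx
        refine ⟨m, ?_, hcol _ hC⟩
        rw [← hix W (W0.map Z.mkQ) hW hc'.mx]
        exact hm
  intro V _ _ _ A hA hlt hconf W hW
  exact main (Nat.card V) V A le_rfl hA hlt hconf W hW

end Pool.Agent.Lib.MP_b63a06_co.TR
end

section
set_option autoImplicit false

/-! # MP_b63a06_co, module AVG (helper32): a coset with few elements. -/

namespace Pool.Agent.Lib.MP_b63a06_co.TR

namespace AVGM

variable {V : Type} [AddCommGroup V] [Module (ZMod 3) V]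

theorem ncard_eq_sum [Finite V] [Fintype V] (F : Submodule (ZMod 3) V) [Fintype (V ⧸ F)]
    (A : Set V) : A.ncard = ∑ q : V ⧸ F, {a | a ∈ A ∧ F.mkQ a = q}.ncard := by
  classical
  have h1 : ∀ S : Set V, S.ncard = (Finset.univ.filter (fun a => a ∈ S)).card := by
    intro S
    rw [← Set.ncard_coe_finset]
    congr 1
    ext a
    simp
  rw [h1 A, Finset.card_eq_sum_card_fiberwise (f := fun a => F.mkQ a) (t := Finset.univ)
    (fun _ _ => Finset.mem_coe.2 (Finset.mem_univ _))]
  refine Finset.sum_congr rfl fun q _ => ?_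
  rw [h1]
  congr 1
  ext a
  simp

theorem fib_eq (F : Submodule (ZMod 3) V) (A : Set V) (y : V) :
    {a | a ∈ A ∧ F.mkQ a = F.mkQ y} = cs A F y := by
  ext a
  constructor
  · rintro ⟨ha, h⟩
    refine ⟨ha, ?_⟩
    exact (Submodule.Quotient.eq F).1 h
  · rintro ⟨ha, h⟩
    exact ⟨ha, (Submodule.Quotient.eq F).2 h⟩

end AVGM

open AVGM in
theorem specAVG : SpecAVG := by
  intro V _ _ _ A F k h
  classical
  have : Fintype V := Fintype.ofFinite V
  have : Fintype (V ⧸ F) := Fintype.ofFinite _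
  by_contra hc
  push Not at hc
  have h1 := ncard_eq_sum F A
  rw [← Finset.add_sum_erase _ _ (Finset.mem_univ (0 : V ⧸ F))] at h1
  have h0 : {a | a ∈ A ∧ F.mkQ a = 0} = cs A F 0 := by
    rw [← fib_eq, map_zero]
  rw [h0] at h1
  have h2 : k * (Finset.univ.erase (0 : V ⧸ F)).card ≤
      ∑ q ∈ Finset.univ.erase (0 : V ⧸ F), {a | a ∈ A ∧ F.mkQ a = q}.ncard := by
    rw [mul_comm, ← smul_eq_mul]
    refine Finset.card_nsmul_le_sum _ _ _ fun q hq => ?_
    obtain ⟨y, rfl⟩ := F.mkQ_surjective q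
    rw [fib_eq]
    refine hc y fun hy => (Finset.mem_erase.1 hq).1 ?_
    exact (Submodule.Quotient.mk_eq_zero F).2 hy
  have h3 : (Finset.univ.erase (0 : V ⧸ F)).card + 1 = ix F := by
    rw [Finset.card_erase_add_one (Finset.mem_univ _), ix, Nat.card_eq_fintype_card,
      Finset.card_univ]
  rw [← h3, mul_add, mul_one] at h
  omega

end Pool.Agent.Lib.MP_b63a06_co.TR
end

section
set_option autoImplicit false

/-!
# MP_b63a06_co, folder TR: module C8 (helper50)
-/

namespace Pool.Agent.Lib.MP_b63a06_co.TR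

namespace C8M

variable {V : Type} [AddCommGroup V] [Module (ZMod 3) V]

theorem zcases (c : ZMod 3) : c = 0 ∨ c = 1 ∨ c = -1 := by
  revert c; decide

theorem lc3 (z s t : V) (c : Fin 3 → ZMod 3) :
    lc ![z, s, t] c = c 0 • z + c 1 • s + c 2 • t := by
  simp [lc, Fin.sum_univ_three]

/-- a submodule with three elements is spanned by any nonzero element. -/
theorem span3 [Finite V] (W : Submodule (ZMod 3) V) (hW : Nat.card W = 3) :
    ∃ z : V, z ∈ W ∧ z ≠ 0 := by
  by_contra h
  push Not at h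
  have hb : W = ⊥ := by
    rw [Submodule.eq_bot_iff]
    exact h
  rw [hb] at hW
  simp at hW

theorem card_quot [Finite V] (W : Submodule (ZMod 3) V) : Nat.card V = Nat.card W * ix W := by
  unfold ix
  rw [Submodule.card_eq_card_quotient_mul_card W, mul_comm]

end C8M

open C8M in
theorem specC8 (hT8 : SpecT8) (hCRD : SpecCRD) (hCBA : SpecCBA) : SpecC8 := by
  intro V _ _ _ A hA W s t hc hW
  obtain ⟨z, hzW, hz0⟩ := span3 W hW
  obtain ⟨col, hcol, hT⟩ := hT8
  obtain ⟨hind, -, -, -⟩ := hCBA V A hA W s t hc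
  have hzc : ∀ c : ZMod 3, c • z = 0 → c = 0 := by
    intro c h
    rcases smul_eq_zero.mp h with h | h
    · exact h
    · exact absurd h hz0
  have h1 : ∀ c, lc ![z, s, t] c ∈ (⊥ : Submodule (ZMod 3) V) → c = 0 := by
    intro c h
    rw [Submodule.mem_bot, lc3] at h
    have h2 : c 1 • s + c 2 • t ∈ W := by
      have : c 1 • s + c 2 • t = -(c 0 • z) := by
        rw [eq_neg_iff_add_eq_zero, ← h]; abel
      rw [this]
      exact W.neg_mem (W.smul_mem _ hzW)
    obtain ⟨e1, e2⟩ := hind _ _ h2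
    rw [e1, e2] at h
    simp only [zero_smul, add_zero] at h
    have e0 := hzc _ h
    funext i
    fin_cases i
    · exact e0
    · exact e1
    · exact e2
  have h4 : ∀ a ∈ A, a ≠ 0 → ∀ c, a - lc ![z, s, t] c ∈ (⊥ : Submodule (ZMod 3) V) →
      c ≠ 0 ∧ EP (c 0) (c 1) (c 2) := by
    intro a ha ha0 c h
    rw [Submodule.mem_bot, sub_eq_zero, lc3] at h
    refine ⟨?_, ?_⟩
    · rintro rfl
      apply ha0
      rw [h]
      simp
    · have hzc0 : c 0 • z ∈ W := W.smul_mem _ hzW
      -- the cosets `± s`, `± t`, `0`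
      have key : ∀ u : V, Sgl A W u → ∀ e : ZMod 3, a = c 0 • z + e • u → c 0 = 0 := by
        intro u hu e he
        rcases zcases e with h0 | h0 | h0
        · rw [h0, zero_smul, add_zero] at he
          have : a ∈ W := by rw [he]; exact hzc0
          exact absurd (hc.mx.av a ha this) ha0
        · rw [h0, one_smul] at he
          have h5 : a - u = c 0 • z := by rw [he]; abel
          have h6 := hu.2 a ha (by rw [h5]; exact hzc0)
          rw [h6, sub_self] at h5
          exact hzc _ h5.symm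
        · rw [h0, neg_smul, one_smul] at he
          have h5 : -a - u = -(c 0 • z) := by rw [he]; abel
          have h6 := hu.2 (-a) (hA.2 a ha) (by rw [h5]; exact W.neg_mem hzc0)
          rw [h6, sub_self] at h5
          exact hzc _ (neg_eq_zero.mp h5.symm)
      by_cases hs0 : c 1 = 0
      · left
        refine ⟨?_, Or.inl hs0⟩
        apply key t hc.t1 (c 2)
        rw [h, hs0, zero_smul, add_zero]
      · by_cases ht0 : c 2 = 0
        · left
          refine ⟨?_, Or.inr ht0⟩
          apply key s hc.s1 (c 1)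
          rw [h, ht0, zero_smul, add_zero]
        · by_cases hst : c 1 = c 2
          · right; right
            exact ⟨hst, hs0⟩
          · right; left
            have hsum : c 1 + c 2 = 0 := by
              revert hs0 ht0 hst
              generalize c 1 = x
              generalize c 2 = y
              revert x y
              decide
            refine ⟨?_, hsum, hs0⟩
            intro h00
            have h22 : c 2 = -c 1 := by
              rw [eq_neg_iff_add_eq_zero, add_comm]; exact hsum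
            rw [h00, zero_smul, zero_add, h22, neg_smul] at h
            rcases zcases (c 1) with h7 | h7 | h7
            · exact hs0 h7
            · rw [h7, one_smul, one_smul] at h
              apply hc.ns
              rw [sub_eq_add_neg, ← h]
              exact ha
            · rw [h7, neg_smul, neg_smul, one_smul, one_smul, neg_neg] at h
              apply hc.ns
              have : s - t = -a := by rw [h]; abel
              rw [this]
              exact hA.2 a ha
  obtain ⟨m, hm, hcolA⟩ := hCRD V A ⊥ 3 8 ![z, s, t] (fun c => EP (c 0) (c 1) (c 2)) col h1 hcol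
    (fun c d hcd h => hT c d hcd h) h4
  refine ⟨m, ?_, hcolA⟩
  have e1 := card_quot W
  have e2 := card_quot (⊥ : Submodule (ZMod 3) V)
  rw [hW] at e1
  rw [hm] at e2
  have e3 : Nat.card (⊥ : Submodule (ZMod 3) V) = 1 := by simp
  rw [e3, one_mul] at e2
  omega

end Pool.Agent.Lib.MP_b63a06_co.TR
end

section
set_option autoImplicit false

/-! # CBA: the plane of a conflict -/

namespace Pool.Agent.Lib.MP_b63a06_co.TR

namespace CBAM

variable {V : Type} [AddCommGroup V] [Module (ZMod 3) V]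

theorem z3 (c : ZMod 3) : c = 0 ∨ c = 1 ∨ c = -1 := by revert c; decide

theorem sum3 (f : ZMod 3 → ℕ) : ∑ a : ZMod 3, f a = f 0 + f 1 + f (-1) := by
  have h : ∑ a : Fin 3, f a = f 0 + f 1 + f 2 := Fin.sum_univ_three f
  exact h

theorem two_eq (s : V) : s + s = -s := by
  have h : (3 : ZMod 3) • s = 0 := by
    have : (3 : ZMod 3) = 0 := by decide
    rw [this, zero_smul]
  have h2 : (3 : ZMod 3) • s = s + s + s := by
    have : (3 : ZMod 3) = 1 + 1 + 1 := by decide
    rw [this, add_smul, add_smul, one_smul]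
  rw [h2] at h
  exact eq_neg_of_add_eq_zero_left h

theorem cs_neg (A : Set V) (hA : ∀ a ∈ A, -a ∈ A) (W : Submodule (ZMod 3) V) (v : V) :
    (cs A W (-v)).ncard = (cs A W v).ncard := by
  rw [← Set.ncard_image_of_injective (cs A W v) neg_injective]
  congr 1
  ext x
  constructor
  · rintro ⟨hx, hw⟩
    refine ⟨-x, ⟨hA x hx, ?_⟩, neg_neg x⟩
    have := W.neg_mem hw
    have e : -(x - -v) = -x - v := by abel
    rwa [e] at this
  · rintro ⟨y, ⟨hy, hw⟩, rfl⟩
    refine ⟨hA y hy, ?_⟩
    have := W.neg_mem hw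
    have e : -(y - v) = -y - -v := by abel
    rwa [e] at this

theorem cs_single (A : Set V) (W : Submodule (ZMod 3) V) (v : V) (h : Sgl A W v) :
    (cs A W v).ncard = 1 := by
  rw [Set.ncard_eq_one]
  refine ⟨v, ?_⟩
  ext x
  constructor
  · rintro ⟨hx, hw⟩
    exact h.2 x hx hw
  · rintro rfl
    exact ⟨h.1, by simp⟩

end CBAM

open CBAM in
theorem specCBA (hYSM : SpecYSM) : SpecCBA := by
  intro V _ _ _ A hA W s t hc
  have hs := hc.s1.1
  have ht := hc.t1.1
  have hsW : s ∉ W := by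
    intro h
    have h0 := hc.mx.av s hs h
    apply hc.ns
    rw [h0, zero_sub]
    exact hA.2 t ht
  have htW : t ∉ W := by
    intro h
    have h0 := hc.mx.av t ht h
    apply hc.ns
    rw [h0, sub_zero]
    exact hs
  have hdW : s - t ∉ W := by
    intro h
    have h0 := hc.t1.2 s hs h
    apply hc.ns
    rw [h0, sub_self]
    exact hA.1
  have haW : s + t ∉ W := by
    intro h
    have h1 : -t - s ∈ W := by
      have := W.neg_mem h
      have e : -(s + t) = -t - s := by abel
      rwa [e] at this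
    have h0 := hc.s1.2 (-t) (hA.2 t ht) h1
    apply hc.ns
    have h2 : t = -s := by rw [← h0, neg_neg]
    rw [h2, sub_neg_eq_add, two_eq]
    exact hA.2 s hs
  have hind : ∀ a b : ZMod 3, a • s + b • t ∈ W → a = 0 ∧ b = 0 := by
    intro a b h
    rcases z3 a with rfl | rfl | rfl <;> rcases z3 b with rfl | rfl | rfl
    · exact ⟨rfl, rfl⟩
    · exact absurd (by simpa using h) htW
    · exact absurd (by simpa using h) htW
    · exact absurd (by simpa using h) hsW
    · exact absurd (by simpa using h) haW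
    · exact absurd (by simpa [sub_eq_add_neg] using h) hdW
    · exact absurd (by simpa using h) hsW
    · refine absurd ?_ hdW
      have h1 := W.neg_mem h
      have e : -((-1 : ZMod 3) • s + (1 : ZMod 3) • t) = s - t := by
        rw [neg_smul, one_smul, one_smul]; abel
      rwa [e] at h1
    · refine absurd ?_ haW
      have h1 := W.neg_mem h
      have e : -((-1 : ZMod 3) • s + (-1 : ZMod 3) • t) = s + t := by
        rw [neg_smul, one_smul, neg_smul, one_smul]; abel
      rwa [e] at h1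
  obtain ⟨hF, hsum⟩ := hYSM V A W s t
  have hcard : Nat.card (FF W s t) = 9 * Nat.card W := by
    let f : W × (ZMod 3 × ZMod 3) → FF W s t := fun p =>
      ⟨(p.1 : V) + p.2.1 • s + p.2.2 • t, (hF _).2 ⟨p.2.1, p.2.2, by
        have e : (p.1 : V) + p.2.1 • s + p.2.2 • t - p.2.1 • s - p.2.2 • t = p.1 := by abel
        rw [e]; exact p.1.2⟩⟩
    have hf : Function.Bijective f := by
      constructor
      · rintro ⟨w, a, b⟩ ⟨w', a', b'⟩ h
        have h1 : (w : V) + a • s + b • t = (w' : V) + a' • s + b' • t :=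
          congrArg Subtype.val h
        have h2 : (a - a') • s + (b - b') • t ∈ W := by
          have e : (a - a') • s + (b - b') • t = (w' : V) - w := by
            rw [sub_smul, sub_smul]
            have : a • s + b • t = (w' : V) + a' • s + b' • t - w := by rw [← h1]; abel
            calc a • s - a' • s + (b • t - b' • t) = (a • s + b • t) - a' • s - b' • t := by abel
              _ = (w' : V) - w := by rw [this]; abel
          rw [e]
          exact W.sub_mem w'.2 w.2
        obtain ⟨h3, h4⟩ := hind _ _ h2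
        have h5 : a = a' := sub_eq_zero.1 h3
        have h6 : b = b' := sub_eq_zero.1 h4
        subst h5 h6
        have h7 : (w : V) = w' := by
          have := add_right_cancel (add_right_cancel h1)
          exact this
        exact Prod.ext (Subtype.ext h7) rfl
      · rintro ⟨x, hx⟩
        obtain ⟨a, b, hw⟩ := (hF x).1 hx
        refine ⟨(⟨x - a • s - b • t, hw⟩, a, b), ?_⟩
        apply Subtype.ext
        change x - a • s - b • t + a • s + b • t = x
        abel
    have h9 := Nat.card_eq_of_bijective f hf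
    rw [← h9, Nat.card_prod, Nat.card_prod, Nat.card_zmod]
    ring
  refine ⟨hind, hcard, ?_, ?_⟩
  · have h1 := Submodule.card_eq_card_quotient_mul_card W
    have h2 := Submodule.card_eq_card_quotient_mul_card (FF W s t)
    have hW : 0 < Nat.card W := Nat.card_pos
    unfold ix
    rw [h1, hcard] at h2
    have h3 : Nat.card W * Nat.card (V ⧸ W) = Nat.card W * (9 * Nat.card (V ⧸ FF W s t)) := by
      nlinarith [h2]
    exact Nat.eq_of_mul_eq_mul_left hW h3
  · rw [hsum hind 0]
    have h0 : (cs A W 0).ncard = 1 := by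
      refine cs_single A W 0 ⟨hA.1, fun a ha hw => ?_⟩
      rw [sub_zero] at hw
      exact hc.mx.av a ha hw
    have h1 := cs_single A W s hc.s1
    have h2 := cs_single A W t hc.t1
    have h3 := cs_neg A hA.2 W s
    have h4 := cs_neg A hA.2 W t
    have h5 := cs_neg A hA.2 W (s - t)
    have h6 := cs_neg A hA.2 W (s + t)
    have e1 : -(s - t) = -s + t := by abel
    have e2 : -(s + t) = -s + -t := by abel
    rw [e1] at h5
    rw [e2] at h6
    simp only [sum3, NN, zero_smul, one_smul, neg_smul, zero_add, add_zero]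
    rw [sub_eq_add_neg] at h5 ⊢
    omega

end Pool.Agent.Lib.MP_b63a06_co.TR
end

section
set_option autoImplicit false

/-!
# Module COR: the core
-/

namespace Pool.Agent.Lib.MP_b63a06_co.TR

namespace CORM

theorem mem_FF {V : Type} [AddCommGroup V] [Module (ZMod 3) V] (W : Submodule (ZMod 3) V) (s t : V)
    (a b : ZMod 3) : a • s + b • t ∈ FF W s t := by
  refine Submodule.mem_sup_right (Submodule.add_mem _ (Submodule.smul_mem _ _ ?_)
    (Submodule.smul_mem _ _ ?_))
  · exact Submodule.subset_span (by simp)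
  · exact Submodule.subset_span (by simp)

end CORM

theorem specCOR (h4 : SpecP4) (h5 : SpecP5) (hY : SpecYSM) (hM : SpecMEE) (hC : SpecCBA) :
    SpecCOR := by
  intro V _ _ _ A hA hQ W s t hc h9 y hy
  by_contra hlt
  have hle : (cs A (FF W s t) y).ncard ≤ 17 := by omega
  have hind := (hC V A hA W s t hc).1
  have hsum := (hY V A W s t).2 hind y
  -- every coset of `W` has an element
  have hpos : ∀ v, 1 ≤ (cs A W v).ncard := by
    intro v
    obtain ⟨a, ha, hav⟩ := hM V A hA W hc.mx v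
    exact Set.Nonempty.ncard_pos (Set.toFinite _) ⟨a, ha, hav⟩
  -- one of them has exactly one
  have hex : ∃ a b : ZMod 3, (cs A W (y + a • s + b • t)).ncard = 1 := by
    by_contra hne
    push Not at hne
    have h2 : ∀ a b : ZMod 3, 2 ≤ (cs A W (y + a • s + b • t)).ncard := by
      intro a b
      have := hpos (y + a • s + b • t)
      have := hne a b
      omega
    have h3 : (∑ a : ZMod 3, ∑ b : ZMod 3, 2) ≤
        ∑ a : ZMod 3, ∑ b : ZMod 3, (cs A W (y + a • s + b • t)).ncard :=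
      Finset.sum_le_sum fun a _ => Finset.sum_le_sum fun b _ => h2 a b
    rw [← hsum] at h3
    simp only [Finset.sum_const, Finset.card_univ, ZMod.card, smul_eq_mul] at h3
    omega
  obtain ⟨a, b, hab⟩ := hex
  obtain ⟨y', hy'⟩ := Set.ncard_eq_one.mp hab
  have hmem : y' ∈ cs A W (y + a • s + b • t) := by rw [hy']; exact Set.mem_singleton _
  obtain ⟨hy'A, hy'W⟩ := hmem
  have hS : Sgl A W y' := by
    refine ⟨hy'A, fun x hx hxW => ?_⟩
    have h1 : x ∈ cs A W (y + a • s + b • t) := by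
      refine ⟨hx, ?_⟩
      have h2 : x - (y + a • s + b • t) = (x - y') + (y' - (y + a • s + b • t)) := by abel
      rw [h2]
      exact W.add_mem hxW hy'W
    rw [hy'] at h1
    exact h1
  have hWF : W ≤ FF W s t := le_sup_left
  have hd : y' - y ∈ FF W s t := by
    have h2 : y' - y = (y' - (y + a • s + b • t)) + (a • s + b • t) := by abel
    rw [h2]
    exact Submodule.add_mem _ (hWF hy'W) (CORM.mem_FF W s t a b)
  have hyF : y' ∉ FF W s t := fun h => hy (by
    have h2 : y = y' - (y' - y) := by abel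
    rw [h2]
    exact Submodule.sub_mem _ h hd)
  have hcs : cs A (FF W s t) y' = cs A (FF W s t) y := by
    ext x
    constructor
    · rintro ⟨hx, hxF⟩
      refine ⟨hx, ?_⟩
      have h2 : x - y = (x - y') + (y' - y) := by abel
      rw [h2]
      exact Submodule.add_mem _ hxF hd
    · rintro ⟨hx, hxF⟩
      refine ⟨hx, ?_⟩
      have h2 : x - y' = (x - y) - (y' - y) := by abel
      rw [h2]
      exact Submodule.sub_mem _ hxF hd
  have hle' : (cs A (FF W s t) y').ncard ≤ 17 := by rw [hcs]; exact hle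
  have h18 := h4 V A hA hQ W s t hc h9 y' hyF
    (fun φ hs ht hyy => h5 V A hA hQ W s t hc h9 y' hyF hS hle' φ hs ht hyy)
  omega

end Pool.Agent.Lib.MP_b63a06_co.TR
end

section
set_option autoImplicit false

/-! # CRD: colourings by coordinates -/

namespace Pool.Agent.Lib.MP_b63a06_co.TR

namespace CRDM

variable {V : Type} [AddCommGroup V] [Module (ZMod 3) V]

theorem lc_sub {n : ℕ} (g : Fin n → V) (c d : Fin n → ZMod 3) :
    lc g (c - d) = lc g c - lc g d := by
  simp [lc, sub_smul, Finset.sum_sub_distrib]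

theorem mem_U {n : ℕ} (R : Submodule (ZMod 3) V) (g : Fin n → V) (x : V) :
    x ∈ R ⊔ Submodule.span (ZMod 3) (Set.range g) ↔ ∃ c, x - lc g c ∈ R := by
  rw [Submodule.mem_sup]
  constructor
  · rintro ⟨r, hr, z, hz, rfl⟩
    obtain ⟨c, hc⟩ := (Submodule.mem_span_range_iff_exists_fun (ZMod 3)).1 hz
    refine ⟨c, ?_⟩
    have e : r + z - lc g c = r := by
      unfold lc
      rw [hc]; abel
    rwa [e]
  · rintro ⟨c, hc⟩
    refine ⟨x - lc g c, hc, lc g c, ?_, by abel⟩
    exact (Submodule.mem_span_range_iff_exists_fun (ZMod 3)).2 ⟨c, rfl⟩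

end CRDM

open CRDM in
theorem specCRD : SpecCRD := by
  classical
  intro V _ _ _ A R n k g C col hind hcol hC hA
  set U : Submodule (ZMod 3) V := R ⊔ Submodule.span (ZMod 3) (Set.range g) with hU
  have hmem : ∀ x, x ∈ U ↔ ∃ c, x - lc g c ∈ R := mem_U R g
  have hcard : Nat.card U = 3 ^ n * Nat.card R := by
    let f : R × (Fin n → ZMod 3) → U := fun p =>
      ⟨(p.1 : V) + lc g p.2, (hmem _).2 ⟨p.2, by
        have e : (p.1 : V) + lc g p.2 - lc g p.2 = p.1 := by abel
        rw [e]; exact p.1.2⟩⟩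
    have hf : Function.Bijective f := by
      constructor
      · rintro ⟨w, c⟩ ⟨w', c'⟩ h
        have h1 : (w : V) + lc g c = (w' : V) + lc g c' := congrArg Subtype.val h
        have h2 : lc g (c - c') ∈ R := by
          have e : lc g (c - c') = (w' : V) - w := by
            rw [lc_sub]
            have : lc g c = (w' : V) + lc g c' - w := by rw [← h1]; abel
            rw [this]; abel
          rw [e]
          exact R.sub_mem w'.2 w.2
        have h5 : c = c' := sub_eq_zero.1 (hind _ h2)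
        subst h5
        have h7 : (w : V) = w' := add_right_cancel h1
        exact Prod.ext (Subtype.ext h7) rfl
      · rintro ⟨x, hx⟩
        obtain ⟨c, hw⟩ := (hmem x).1 hx
        refine ⟨(⟨x - lc g c, hw⟩, c), ?_⟩
        apply Subtype.ext
        change x - lc g c + lc g c = x
        abel
    have h9 := Nat.card_eq_of_bijective f hf
    have h10 : Nat.card (Fin n → ZMod 3) = 3 ^ n := by
      rw [Nat.card_fun, Nat.card_zmod, Nat.card_fin]
    rw [← h9, Nat.card_prod, h10]
    ring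
  refine ⟨Nat.card (V ⧸ U), ?_, ?_⟩
  · have h1 := Submodule.card_eq_card_quotient_mul_card R
    have h2 := Submodule.card_eq_card_quotient_mul_card U
    have hR : 0 < Nat.card R := Nat.card_pos
    unfold ix
    rw [h1, hcard] at h2
    have h3 : Nat.card R * Nat.card (V ⧸ R) = Nat.card R * (3 ^ n * Nat.card (V ⧸ U)) := by
      nlinarith [h2]
    exact Nat.eq_of_mul_eq_mul_left hR h3
  · set m := Nat.card (V ⧸ U) with hm
    have : Finite (V ⧸ U) := Finite.of_surjective U.mkQ U.mkQ_surjective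
    let e : (V ⧸ U) ≃ Fin m := Finite.equivFin (V ⧸ U)
    have hrep : ∀ x : V, ∃ c, x - (Quotient.out (U.mkQ x) : V) - lc g c ∈ R := by
      intro x
      apply (hmem _).1
      have : (U.mkQ (Quotient.out (U.mkQ x) : V)) = U.mkQ x := Quotient.out_eq (U.mkQ x)
      refine (Submodule.Quotient.mk_eq_zero U).1 ?_
      change U.mkQ (x - (Quotient.out (U.mkQ x) : V)) = 0
      rw [map_sub, this, sub_self]
    choose c hc using hrep
    have hk : 0 < k := lt_of_le_of_lt (Nat.zero_le _) (hcol 0)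
    refine ⟨fun x => k * (e (U.mkQ x)).val + col (c x), ?_, ?_⟩
    · intro x
      have h1 := (e (U.mkQ x)).isLt
      have h2 := hcol (c x)
      calc k * (e (U.mkQ x)).val + col (c x) < k * (e (U.mkQ x)).val + k := by omega
        _ = k * ((e (U.mkQ x)).val + 1) := by ring
        _ ≤ k * m := Nat.mul_le_mul_left _ h1
    · intro x y hxy hxyA heq
      have h1 : (k * (e (U.mkQ x)).val + col (c x)) / k = (e (U.mkQ x)).val := by
        rw [Nat.mul_add_div hk, Nat.div_eq_of_lt (hcol _), add_zero]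
      have h2 : (k * (e (U.mkQ y)).val + col (c y)) / k = (e (U.mkQ y)).val := by
        rw [Nat.mul_add_div hk, Nat.div_eq_of_lt (hcol _), add_zero]
      have heq' : k * (e (U.mkQ x)).val + col (c x) = k * (e (U.mkQ y)).val + col (c y) := heq
      have h3 : (e (U.mkQ x)).val = (e (U.mkQ y)).val := by rw [← h1, ← h2, heq']
      have h4 : col (c x) = col (c y) := by
        rw [h3] at heq'
        omega
      have h5 : U.mkQ x = U.mkQ y := e.injective (Fin.ext h3)
      have h6 : x - y - lc g (c x - c y) ∈ R := by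
        have := R.sub_mem (hc x) (hc y)
        rw [h5] at this
        have e1 : x - (Quotient.out (U.mkQ y) : V) - lc g (c x) -
            (y - (Quotient.out (U.mkQ y) : V) - lc g (c y)) = x - y - lc g (c x - c y) := by
          rw [lc_sub]; abel
        rwa [e1] at this
      obtain ⟨h7, h8⟩ := hA (x - y) hxyA (sub_ne_zero.2 hxy) _ h6
      exact hC _ _ (sub_ne_zero.1 h7) h8 h4

end Pool.Agent.Lib.MP_b63a06_co.TR
end

section
/-!
MP_b63a06_co, TR, module EX2: two independent functionals on `W`, vanishing on a given element.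
-/
set_option autoImplicit false

namespace Pool.Agent.Lib.MP_b63a06_co.TR

namespace EX2M

theorem card_span {Q : Type} [AddCommGroup Q] [Module (ZMod 3) Q] [Finite Q] (w : Q) :
    Nat.card (Submodule.span (ZMod 3) {w}) ≤ 3 := by
  have h : Function.Surjective (fun c : ZMod 3 =>
      (⟨c • w, Submodule.smul_mem _ c (Submodule.mem_span_singleton_self w)⟩ :
        Submodule.span (ZMod 3) {w})) := by
    rintro ⟨x, hx⟩
    obtain ⟨c, hc⟩ := Submodule.mem_span_singleton.1 hx
    exact ⟨c, Subtype.ext hc⟩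
  have h1 := Nat.card_le_card_of_surjective _ h
  rwa [Nat.card_zmod] at h1

/-- two coordinates on a space with at least nine elements -/
theorem two_coord {Q : Type} [AddCommGroup Q] [Module (ZMod 3) Q] [Finite Q]
    (h : 9 ≤ Nat.card Q) :
    ∃ f g : Q →ₗ[ZMod 3] ZMod 3, ∃ u v : Q, f u = 1 ∧ f v = 0 ∧ g u = 0 ∧ g v = 1 := by
  have : Fact (Nat.Prime 3) := ⟨by norm_num⟩
  have : Module.Finite (ZMod 3) Q := Module.Finite.of_finite
  have hr : 2 ≤ Module.finrank (ZMod 3) Q := by
    by_contra hlt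
    have h1 := Module.natCard_eq_pow_finrank (K := ZMod 3) (V := Q)
    rw [Nat.card_zmod] at h1
    have h2 : 3 ^ Module.finrank (ZMod 3) Q ≤ 3 ^ 1 := Nat.pow_le_pow_right (by norm_num) (by omega)
    omega
  set b := Module.finBasis (ZMod 3) Q with hb
  have hne : (⟨0, by omega⟩ : Fin (Module.finrank (ZMod 3) Q)) ≠ ⟨1, by omega⟩ := by
    intro h
    have := congrArg Fin.val h
    simp at this
  refine ⟨b.coord ⟨0, by omega⟩, b.coord ⟨1, by omega⟩, b ⟨0, by omega⟩, b ⟨1, by omega⟩,
    ?_, ?_, ?_, ?_⟩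
  · rw [Module.Basis.coord_apply, Module.Basis.repr_self, Finsupp.single_eq_same]
  · rw [Module.Basis.coord_apply, Module.Basis.repr_self, Finsupp.single_eq_of_ne hne]
  · rw [Module.Basis.coord_apply, Module.Basis.repr_self, Finsupp.single_eq_of_ne hne.symm]
  · rw [Module.Basis.coord_apply, Module.Basis.repr_self, Finsupp.single_eq_same]

/-- two functionals on `Q`, vanishing on `w` -/
theorem two_fun {Q : Type} [AddCommGroup Q] [Module (ZMod 3) Q] [Finite Q] (w : Q)
    (h : (9 ≤ Nat.card Q ∧ w = 0) ∨ 27 ≤ Nat.card Q) :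
    ∃ f g : Q →ₗ[ZMod 3] ZMod 3, f w = 0 ∧ g w = 0 ∧
      ∃ u v : Q, f u = 1 ∧ f v = 0 ∧ g u = 0 ∧ g v = 1 := by
  have h9 : 9 ≤ Nat.card (Q ⧸ Submodule.span (ZMod 3) {w}) := by
    have h1 := Submodule.card_eq_card_quotient_mul_card (Submodule.span (ZMod 3) {w})
    rcases h with ⟨h, hw⟩ | h
    · have h2 : Nat.card (Submodule.span (ZMod 3) {w}) = 1 := by
        rw [hw, Submodule.span_zero_singleton]
        exact Nat.card_unique
      rw [h2, one_mul] at h1
      omega
    · have h2 := card_span w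
      nlinarith
  have : Finite (Q ⧸ Submodule.span (ZMod 3) {w}) :=
    Finite.of_surjective _ (Submodule.mkQ_surjective (Submodule.span (ZMod 3) {w}))
  obtain ⟨f, g, u, v, h1, h2, h3, h4⟩ := two_coord h9
  obtain ⟨u', rfl⟩ := Submodule.mkQ_surjective _ u
  obtain ⟨v', rfl⟩ := Submodule.mkQ_surjective _ v
  have hw : (Submodule.span (ZMod 3) {w}).mkQ w = 0 := by
    rw [← LinearMap.mem_ker, Submodule.ker_mkQ]
    exact Submodule.mem_span_singleton_self w
  refine ⟨f ∘ₗ (Submodule.span (ZMod 3) {w}).mkQ, g ∘ₗ (Submodule.span (ZMod 3) {w}).mkQ, ?_, ?_,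
    u', v', h1, h2, h3, h4⟩
  · rw [LinearMap.comp_apply, hw, map_zero]
  · rw [LinearMap.comp_apply, hw, map_zero]

end EX2M

theorem specEX2 (hEXF : SpecEXF) (hCBA : SpecCBA) : SpecEX2 := by
  intro V _ _ _ A hS W s t hc y hy w₁ hw₁ hcard
  have hind := (hCBA V A hS W s t hc).1
  have hind3 : ∀ a b c : ZMod 3, a • s + b • t + c • y ∈ W → a = 0 ∧ b = 0 ∧ c = 0 := by
    intro a b c h
    have hc0 : c = 0 := by
      by_contra hne
      apply hy
      have hle : W ≤ FF W s t := le_sup_left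
      have hs : s ∈ FF W s t :=
        (le_sup_right : Submodule.span (ZMod 3) {s, t} ≤ FF W s t)
          (Submodule.subset_span (by simp))
      have ht : t ∈ FF W s t :=
        (le_sup_right : Submodule.span (ZMod 3) {s, t} ≤ FF W s t)
          (Submodule.subset_span (by simp))
      have h1 : c • y ∈ FF W s t := by
        have h2 := (FF W s t).sub_mem (hle h)
          ((FF W s t).add_mem ((FF W s t).smul_mem a hs) ((FF W s t).smul_mem b ht))
        rwa [add_sub_cancel_left] at h2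
      have h3 := (FF W s t).smul_mem c h1
      have h4 : ∀ c : ZMod 3, c ≠ 0 → c * c = 1 := by decide
      rwa [smul_smul, h4 c hne, one_smul] at h3
    rw [hc0, zero_smul, add_zero] at h
    obtain ⟨ha, hb⟩ := hind a b h
    exact ⟨ha, hb, hc0⟩
  have hcard' : (9 ≤ Nat.card W ∧ (⟨w₁, hw₁⟩ : W) = 0) ∨ 27 ≤ Nat.card W := by
    rcases hcard with ⟨h, h0⟩ | h
    · exact Or.inl ⟨h, Subtype.ext h0⟩
    · exact Or.inr h
  obtain ⟨f, g, hf, hg, u, v, h1, h2, h3, h4⟩ := EX2M.two_fun (⟨w₁, hw₁⟩ : W) hcard'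
  obtain ⟨φ, hφ, hφs, hφt, hφy⟩ := hEXF V W s t y hind3 f
  obtain ⟨ψ, hψ, hψs, hψt, hψy⟩ := hEXF V W s t y hind3 g
  refine ⟨φ, ψ, hφs, hφt, hφy, hψs, hψt, hψy, ?_, ?_, ?_⟩
  · have := hφ ⟨w₁, hw₁⟩
    rw [hf] at this
    exact this
  · have := hψ ⟨w₁, hw₁⟩
    rw [hg] at this
    exact this
  · intro a b hab
    have hu := hab u u.2
    have hv := hab v v.2
    simp only [LinearMap.add_apply, LinearMap.smul_apply, smul_eq_mul, hφ, hψ, h1, h2, h3, h4,
      mul_one, mul_zero, add_zero, zero_add] at hu hv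
    exact ⟨hu, hv⟩

end Pool.Agent.Lib.MP_b63a06_co.TR
end

section
/-!
# EXF: extension of functionals
-/
namespace Pool.Agent.Lib.MP_b63a06_co.TR

namespace EXFM

theorem extend {V : Type} [AddCommGroup V] [Module (ZMod 3) V] (W S : Submodule (ZMod 3) V)
    (h : ∀ x ∈ W, x ∈ S → x = 0) (f : W →ₗ[ZMod 3] ZMod 3) :
    ∃ φ : V →ₗ[ZMod 3] ZMod 3, (∀ w : W, φ w = f w) ∧ ∀ x ∈ S, φ x = 0 := by
  have hker : LinearMap.ker (S.mkQ.comp W.subtype) = ⊥ := by
    rw [LinearMap.ker_eq_bot']
    intro w hw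
    rw [LinearMap.comp_apply, Submodule.mkQ_apply, Submodule.Quotient.mk_eq_zero] at hw
    exact Subtype.ext (h _ w.2 hw)
  obtain ⟨p, hp⟩ := LinearMap.exists_leftInverse_of_injective _ hker
  refine ⟨f.comp (p.comp S.mkQ), fun w => ?_, fun x hx => ?_⟩
  · have h1 := LinearMap.congr_fun hp w
    rw [LinearMap.comp_apply, LinearMap.comp_apply] at h1
    rw [LinearMap.comp_apply, LinearMap.comp_apply]
    exact congrArg f h1
  · have h1 : S.mkQ x = 0 := by
      rw [Submodule.mkQ_apply, Submodule.Quotient.mk_eq_zero]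
      exact hx
    rw [LinearMap.comp_apply, LinearMap.comp_apply, h1, map_zero, map_zero]

end EXFM

theorem specEXF : SpecEXF := by
  intro V _ _ _ W s t y h f
  obtain ⟨φ, h1, h2⟩ := EXFM.extend W (Submodule.span (ZMod 3) {s, t, y}) (fun x hx hxS => by
    obtain ⟨a, b, c, rfl⟩ := Submodule.mem_span_triple.1 hxS
    obtain ⟨rfl, rfl, rfl⟩ := h a b c hx
    simp) f
  exact ⟨φ, h1, h2 s (Submodule.subset_span (by simp)), h2 t (Submodule.subset_span (by simp)),
    h2 y (Submodule.subset_span (by simp))⟩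

end Pool.Agent.Lib.MP_b63a06_co.TR
end

section
set_option autoImplicit false

/-!
# MP_b63a06_co, TR: module EXM
-/

namespace Pool.Agent.Lib.MP_b63a06_co.TR

theorem specEXM : SpecEXM := by
  intro V _ _ _ A
  constructor
  · have hfin : Finite (Submodule (ZMod 3) V) :=
      Finite.of_injective (fun W : Submodule (ZMod 3) V => (W : Set V)) SetLike.coe_injective
    have hne : {W : Submodule (ZMod 3) V | Avo A W}.Nonempty :=
      ⟨⊥, fun a _ h => (Submodule.mem_bot (ZMod 3)).1 h⟩
    obtain ⟨W, hW, hmax⟩ := Set.exists_max_image {W : Submodule (ZMod 3) V | Avo A W}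
      (fun W => Nat.card W) (Set.toFinite _) hne
    exact ⟨W, hW, fun W' hW' => hmax W' hW'⟩
  · intro W W' h h'
    have h1 : Nat.card W = Nat.card W' := le_antisymm (h'.mx W h.av) (h.mx W' h'.av)
    refine ⟨h1, ?_⟩
    have e1 : Nat.card V = Nat.card W * ix W := W.card_eq_card_quotient_mul_card
    have e2 : Nat.card V = Nat.card W' * ix W' :=
      W'.card_eq_card_quotient_mul_card
    have h2 : 0 < Nat.card W' := Nat.card_pos
    rw [h1, e2] at e1
    exact (Nat.eq_of_mul_eq_mul_left h2 e1).symm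

end Pool.Agent.Lib.MP_b63a06_co.TR
end

section
set_option autoImplicit false

/-!
# Module EXS: extension of functionals, two vectors
-/

namespace Pool.Agent.Lib.MP_b63a06_co.TR

theorem specEXS : SpecEXS := by
  intro V _ _ _ W s t hind f
  haveI : Fact (Nat.Prime 3) := ⟨Nat.prime_three⟩
  -- extend `f`
  obtain ⟨g, hg⟩ := LinearMap.exists_extend f
  have hg' : ∀ w : W, g w = f w := fun w => by rw [← hg]; rfl
  -- the map `(a, b) ↦ a s + b t` modulo `W`
  let L : (ZMod 3 × ZMod 3) →ₗ[ZMod 3] (V ⧸ W) :=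
    W.mkQ.comp ((LinearMap.fst (ZMod 3) (ZMod 3) (ZMod 3)).smulRight s +
      (LinearMap.snd (ZMod 3) (ZMod 3) (ZMod 3)).smulRight t)
  have hL : ∀ a b : ZMod 3, L (a, b) = W.mkQ (a • s + b • t) := fun a b => by
    simp [L]
  have hker : LinearMap.ker L = ⊥ := by
    rw [LinearMap.ker_eq_bot']
    rintro ⟨a, b⟩ hab
    rw [hL, Submodule.mkQ_apply, Submodule.Quotient.mk_eq_zero] at hab
    obtain ⟨ha, hb⟩ := hind a b hab
    rw [ha, hb]; rfl
  obtain ⟨r, hr⟩ := LinearMap.exists_leftInverse_of_injective L hker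
  have hr' : ∀ a b : ZMod 3, r (W.mkQ (a • s + b • t)) = (a, b) := fun a b => by
    have := LinearMap.congr_fun hr (a, b)
    rw [LinearMap.comp_apply, hL] at this
    exact this
  let k : (ZMod 3 × ZMod 3) →ₗ[ZMod 3] ZMod 3 :=
    (LinearMap.fst (ZMod 3) (ZMod 3) (ZMod 3)).smulRight (g s) +
      (LinearMap.snd (ZMod 3) (ZMod 3) (ZMod 3)).smulRight (g t)
  have hk : ∀ a b : ZMod 3, k (a, b) = a * g s + b * g t := fun a b => by simp [k]
  refine ⟨g - (k.comp r).comp W.mkQ, fun w => ?_, ?_, ?_⟩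
  · have h0 : W.mkQ (w : V) = 0 := by
      rw [Submodule.mkQ_apply, Submodule.Quotient.mk_eq_zero]
      exact w.2
    rw [LinearMap.sub_apply, LinearMap.comp_apply, h0, map_zero, sub_zero, hg']
  · have h1 := hr' 1 0
    rw [one_smul, zero_smul, add_zero] at h1
    rw [LinearMap.sub_apply, LinearMap.comp_apply, LinearMap.comp_apply, h1, hk]
    ring
  · have h1 := hr' 0 1
    rw [one_smul, zero_smul, zero_add] at h1
    rw [LinearMap.sub_apply, LinearMap.comp_apply, LinearMap.comp_apply, h1, hk]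
    ring

end Pool.Agent.Lib.MP_b63a06_co.TR
end

section
set_option autoImplicit false

/-!
# MP_b63a06_co, TR: module FLI
-/

namespace Pool.Agent.Lib.MP_b63a06_co.TR

namespace FLIM

variable {V : Type} [AddCommGroup V] [Module (ZMod 3) V]

theorem cases3 (c : ZMod 3) : c = 0 ∨ c = 1 ∨ c = -1 := by
  revert c
  decide

theorem mem_iff (K : Submodule (ZMod 3) V) (v x : V) :
    x ∈ K ⊔ Submodule.span (ZMod 3) {v} ↔ ∃ c : ZMod 3, x - c • v ∈ K := by
  rw [Submodule.mem_sup]
  constructor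
  · rintro ⟨y, hy, z, hz, rfl⟩
    obtain ⟨c, rfl⟩ := Submodule.mem_span_singleton.1 hz
    exact ⟨c, by simpa using hy⟩
  · rintro ⟨c, hc⟩
    exact ⟨x - c • v, hc, c • v, Submodule.mem_span_singleton.2 ⟨c, rfl⟩, by abel⟩

theorem coef_zero (K : Submodule (ZMod 3) V) (v : V) (hv : v ∉ K) (c : ZMod 3) (h : c • v ∈ K) :
    c = 0 := by
  rcases cases3 c with h0 | h0 | h0
  · exact h0
  · rw [h0, one_smul] at h
    exact absurd h hv
  · rw [h0, neg_smul, one_smul] at h
    exact absurd (by simpa using K.neg_mem h) hv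

theorem card_sup [Finite V] (K : Submodule (ZMod 3) V) (v : V) (hv : v ∉ K) :
    Nat.card (K ⊔ Submodule.span (ZMod 3) {v} : Submodule (ZMod 3) V) = 3 * Nat.card K := by
  let f : ZMod 3 × K → (K ⊔ Submodule.span (ZMod 3) {v} : Submodule (ZMod 3) V) := fun p =>
    ⟨p.2 + p.1 • v, (mem_iff K v _).2 ⟨p.1, by simp⟩⟩
  have hf : Function.Bijective f := by
    constructor
    · rintro ⟨c, k⟩ ⟨d, l⟩ h
      have h1 : (k : V) + c • v = l + d • v := congrArg Subtype.val h
      have h2 : (c - d) • v = (l : V) - k := by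
        rw [sub_smul]
        have : c • v = l + d • v - k := by rw [← h1]; abel
        rw [this]
        abel
      have h3 : c - d = 0 := coef_zero K v hv _ (by rw [h2]; exact K.sub_mem l.2 k.2)
      have h4 : c = d := sub_eq_zero.1 h3
      subst h4
      have h5 : (k : V) = l := add_right_cancel h1
      rw [Prod.mk.injEq]
      exact ⟨rfl, Subtype.ext h5⟩
    · rintro ⟨x, hx⟩
      obtain ⟨c, hc⟩ := (mem_iff K v x).1 hx
      exact ⟨(c, ⟨x - c • v, hc⟩), Subtype.ext (by simp [f])⟩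
  rw [← Nat.card_eq_of_bijective f hf, Nat.card_prod, Nat.card_zmod]

end FLIM

theorem specFLI : SpecFLI := by
  intro V _ _ _ A hA W K κ hW hKW hcard hκ
  have hnot : κ ∉ K := by
    intro h
    apply hκ 0 hA.1
    rw [zero_sub]
    exact K.neg_mem h
  refine ⟨⟨?_, ?_⟩, fun x => FLIM.mem_iff K κ x⟩
  · intro a ha hm
    obtain ⟨c, hc⟩ := (FLIM.mem_iff K κ a).1 hm
    rcases FLIM.cases3 c with h0 | h0 | h0
    · rw [h0, zero_smul, sub_zero] at hc
      exact hW.av a ha (hKW hc)
    · rw [h0, one_smul] at hc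
      exact absurd hc (hκ a ha)
    · rw [h0, neg_smul, one_smul, sub_neg_eq_add] at hc
      refine absurd ?_ (hκ (-a) (hA.2 a ha))
      have := K.neg_mem hc
      rwa [neg_add, ← sub_eq_add_neg] at this
  · intro W' hW'
    rw [FLIM.card_sup K κ hnot, ← hcard]
    exact hW.mx W' hW'

end Pool.Agent.Lib.MP_b63a06_co.TR
end

section
set_option autoImplicit false

/-!
# MP_b63a06_co, TR: module MEE
-/

namespace Pool.Agent.Lib.MP_b63a06_co.TR

namespace MEEM

variable {V : Type} [AddCommGroup V] [Module (ZMod 3) V]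

theorem cases3 (c : ZMod 3) : c = 0 ∨ c = 1 ∨ c = -1 := by
  revert c
  decide

theorem mem_iff (K : Submodule (ZMod 3) V) (v x : V) :
    x ∈ K ⊔ Submodule.span (ZMod 3) {v} ↔ ∃ c : ZMod 3, x - c • v ∈ K := by
  rw [Submodule.mem_sup]
  constructor
  · rintro ⟨y, hy, z, hz, rfl⟩
    obtain ⟨c, rfl⟩ := Submodule.mem_span_singleton.1 hz
    exact ⟨c, by simpa using hy⟩
  · rintro ⟨c, hc⟩
    exact ⟨x - c • v, hc, c • v, Submodule.mem_span_singleton.2 ⟨c, rfl⟩, by abel⟩

theorem coef_zero (K : Submodule (ZMod 3) V) (v : V) (hv : v ∉ K) (c : ZMod 3) (h : c • v ∈ K) :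
    c = 0 := by
  rcases cases3 c with h0 | h0 | h0
  · exact h0
  · rw [h0, one_smul] at h
    exact absurd h hv
  · rw [h0, neg_smul, one_smul] at h
    exact absurd (by simpa using K.neg_mem h) hv

theorem card_sup [Finite V] (K : Submodule (ZMod 3) V) (v : V) (hv : v ∉ K) :
    Nat.card (K ⊔ Submodule.span (ZMod 3) {v} : Submodule (ZMod 3) V) = 3 * Nat.card K := by
  let f : ZMod 3 × K → (K ⊔ Submodule.span (ZMod 3) {v} : Submodule (ZMod 3) V) := fun p =>
    ⟨p.2 + p.1 • v, (mem_iff K v _).2 ⟨p.1, by simp⟩⟩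
  have hf : Function.Bijective f := by
    constructor
    · rintro ⟨c, k⟩ ⟨d, l⟩ h
      have h1 : (k : V) + c • v = l + d • v := congrArg Subtype.val h
      have h2 : (c - d) • v = (l : V) - k := by
        rw [sub_smul]
        have : c • v = l + d • v - k := by rw [← h1]; abel
        rw [this]
        abel
      have h3 : c - d = 0 := coef_zero K v hv _ (by rw [h2]; exact K.sub_mem l.2 k.2)
      have h4 : c = d := sub_eq_zero.1 h3
      subst h4
      have h5 : (k : V) = l := add_right_cancel h1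
      rw [Prod.mk.injEq]
      exact ⟨rfl, Subtype.ext h5⟩
    · rintro ⟨x, hx⟩
      obtain ⟨c, hc⟩ := (mem_iff K v x).1 hx
      exact ⟨(c, ⟨x - c • v, hc⟩), Subtype.ext (by simp [f])⟩
  rw [← Nat.card_eq_of_bijective f hf, Nat.card_prod, Nat.card_zmod]

/-- the subspace `K + ⟨v⟩` avoids `A`. -/
theorem avo_sup (A : Set V) (hA : Sy A) (K : Submodule (ZMod 3) V) (v : V)
    (hK : Avo A K) (hv : ∀ a ∈ A, a - v ∉ K) : Avo A (K ⊔ Submodule.span (ZMod 3) {v}) := by
  intro a ha hm
  obtain ⟨c, hc⟩ := (mem_iff K v a).1 hm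
  rcases cases3 c with h0 | h0 | h0
  · rw [h0, zero_smul, sub_zero] at hc
    exact hK a ha hc
  · rw [h0, one_smul] at hc
    exact absurd hc (hv a ha)
  · rw [h0, neg_smul, one_smul, sub_neg_eq_add] at hc
    refine absurd ?_ (hv (-a) (hA.2 a ha))
    have := K.neg_mem hc
    rwa [neg_add, ← sub_eq_add_neg] at this

theorem not_mem (A : Set V) (hA : Sy A) (K : Submodule (ZMod 3) V) (v : V)
    (hv : ∀ a ∈ A, a - v ∉ K) : v ∉ K := by
  intro h
  apply hv 0 hA.1
  rw [zero_sub]
  exact K.neg_mem h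

end MEEM

theorem specMEE : SpecMEE := by
  intro V _ _ _ A hA W hW v
  by_contra hcon
  have h : ∀ a ∈ A, a - v ∉ W := fun a ha hm => hcon ⟨a, ha, hm⟩
  have h1 := hW.mx _ (MEEM.avo_sup A hA W v hW.av h)
  rw [MEEM.card_sup W v (MEEM.not_mem A hA W v h)] at h1
  have h2 : 0 < Nat.card W := Nat.card_pos
  omega

end Pool.Agent.Lib.MP_b63a06_co.TR
end

section
set_option autoImplicit false

/-!
# MP_b63a06_co, TR: module FLV
-/

namespace Pool.Agent.Lib.MP_b63a06_co.TR

namespace FLVM

variable {V : Type} [AddCommGroup V] [Module (ZMod 3) V]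

theorem exists_maxAv [Finite V] (A : Set V) : ∃ W, MaxAv A W := by
  have hfin : Finite (Submodule (ZMod 3) V) :=
    Finite.of_injective (fun W : Submodule (ZMod 3) V => (W : Set V)) SetLike.coe_injective
  obtain ⟨W, hW, hm⟩ := Set.exists_max_image {W : Submodule (ZMod 3) V | Avo A W}
    (fun W => Nat.card W) (Set.toFinite _) ⟨⊥, fun a _ h => (Submodule.mem_bot _).1 h⟩
  exact ⟨W, hW, hm⟩

theorem lc_zero {n : ℕ} (e : Fin n → V) : lc e 0 = 0 := by
  simp [lc]

theorem lc_add {n : ℕ} (e : Fin n → V) (c d : Fin n → ZMod 3) : lc e (c + d) = lc e c + lc e d := by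
  simp [lc, add_smul, Finset.sum_add_distrib]

theorem lc_sub {n : ℕ} (e : Fin n → V) (c d : Fin n → ZMod 3) : lc e (c - d) = lc e c - lc e d := by
  simp [lc, sub_smul, Finset.sum_sub_distrib]

theorem lc_mem {n : ℕ} {F : Submodule (ZMod 3) V} {e : Fin n → V} (he : ∀ i, e i ∈ F)
    (c : Fin n → ZMod 3) : lc e c ∈ F :=
  F.sum_mem fun i _ => F.smul_mem _ (he i)

theorem lc_mem_A {A : Set V} {F : Submodule (ZMod 3) V} {e : Fin 3 → V} (h : Frame A F e)
    (c : Fin 3 → ZMod 3) : lc e c ∈ A ↔ EE c := by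
  constructor
  · intro hc
    obtain ⟨d, hd, hcd⟩ := (h.cut _).1 ⟨hc, lc_mem h.mem c⟩
    have h1 : c - d = 0 := h.ind _ (by rw [lc_sub, hcd, sub_self])
    rw [sub_eq_zero.1 h1]
    exact hd
  · intro hc
    exact ((h.cut _).2 ⟨c, hc, rfl⟩).1

set_option maxRecDepth 100000 in
theorem EE_per : ∀ a b c : ZMod 3, (∀ x y z : ZMod 3, EE ![a + x, b + y, c + z] ↔ EE ![x, y, z]) →
    a = 0 ∧ b = 0 ∧ c = 0 := by
  decide

theorem EE_per' (c : Fin 3 → ZMod 3) (h : ∀ d : Fin 3 → ZMod 3, EE (c + d) ↔ EE d) : c = 0 := by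
  have h1 := EE_per (c 0) (c 1) (c 2) (fun x y z => by
    have h2 := h ![x, y, z]
    have e : c + ![x, y, z] = ![c 0 + x, c 1 + y, c 2 + z] := by
      funext i
      fin_cases i <;> simp
    rw [e] at h2
    exact h2)
  funext i
  fin_cases i
  · exact h1.1
  · exact h1.2.1
  · exact h1.2.2

theorem EE_zero : EE 0 := by
  left
  exact ⟨rfl, rfl⟩

end FLVM

open FLVM in
theorem specFLV (hCPE : SpecCPE) : SpecFLV := by
  intro V _ _ _ A hA F e hF R hR δ hδ u hu
  obtain ⟨-, h2⟩ := hCPE V A F e hF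
  obtain ⟨-, h3, h4⟩ := h2 R hR
  have hv : δ + lc e u ∉ R := by
    intro hv
    have h5 : δ ∈ F := by
      have := F.sub_mem (hR.le hv) (lc_mem hF.mem u)
      rwa [add_sub_cancel_right] at this
    have h6 : δ ∈ A := by
      have := (hδ 0 F.zero_mem).2 hA.1
      rwa [add_zero] at this
    obtain ⟨c, hc, rfl⟩ := (hF.cut δ).1 ⟨h6, h5⟩
    have h7 : c = 0 := EE_per' c fun d => by
      rw [← lc_mem_A hF, ← lc_mem_A hF, lc_add]
      exact hδ (lc e d) (lc_mem hF.mem d)
    rw [h7, lc_zero, zero_add] at hv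
    have h8 := hR.dj u hv
    rw [h8] at hu
    exact hu EE_zero
  have key : ∀ a ∈ A, a - (δ + lc e u) ∉ R := by
    intro a ha h5
    have h6 : a - δ ∈ F := by
      have := F.add_mem (hR.le h5) (lc_mem hF.mem u)
      have e1 : a - (δ + lc e u) + lc e u = a - δ := by abel
      rwa [e1] at this
    have h7 : a - δ ∈ A := (hδ (a - δ) h6).1 (by rwa [add_sub_cancel])
    have h8 := h4 (a - δ) h7 u (by
      have e1 : a - δ - lc e u = a - (δ + lc e u) := by abel
      rwa [e1])
    exact hu h8.1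
  obtain ⟨W, hW⟩ := exists_maxAv A
  refine ⟨?_, ?_⟩
  · intro a ha h5
    obtain ⟨k, hk⟩ := (MEEM.mem_iff R _ a).1 h5
    rcases MEEM.cases3 k with rfl | rfl | rfl
    · rw [zero_smul, sub_zero] at hk
      have h6 := h4 a ha 0 (by rwa [lc_zero, sub_zero])
      rw [h6.2, lc_zero]
    · rw [one_smul] at hk
      exact absurd hk (key a ha)
    · exfalso
      refine key (-a) (hA.2 a ha) ?_
      have := R.neg_mem hk
      have e1 : -(a - (-1 : ZMod 3) • (δ + lc e u)) = -a - (δ + lc e u) := by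
        rw [neg_smul, one_smul]
        abel
      rwa [e1] at this
  · intro W' hW'
    rw [MEEM.card_sup R _ hv, ← (h3 W hW).1]
    exact hW.mx W' hW'

end Pool.Agent.Lib.MP_b63a06_co.TR
end

section
set_option autoImplicit false

/-!
# MP_b63a06_co, TR: module HCO, the rule for a conflict (helper20)
-/

namespace Pool.Agent.Lib.MP_b63a06_co.TR

namespace HCOM

variable {V : Type} [AddCommGroup V] [Module (ZMod 3) V]

theorem two_d : ∀ d : ZMod 3, d + d = -d := by decide

theorem sq_one (z : ZMod 3) (h : z ≠ 0) : z * z = 1 := by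
  revert z
  decide

theorem card_ker [Finite V] (W : Submodule (ZMod 3) V) (φ : V →ₗ[ZMod 3] ZMod 3)
    (h : ∃ w ∈ W, φ w ≠ 0) :
    Nat.card W = 3 * Nat.card (W ⊓ LinearMap.ker φ : Submodule (ZMod 3) V) := by
  obtain ⟨w₁, hw₁, hφ⟩ := h
  have hn : w₁ ∉ W ⊓ LinearMap.ker φ := fun h => hφ (LinearMap.mem_ker.1 h.2)
  have hW : W = (W ⊓ LinearMap.ker φ) ⊔ Submodule.span (ZMod 3) {w₁} := by
    apply le_antisymm
    · intro w hw
      rw [FLIM.mem_iff]
      refine ⟨φ w * φ w₁, Submodule.mem_inf.2 ⟨W.sub_mem hw (W.smul_mem _ hw₁), ?_⟩⟩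
      rw [LinearMap.mem_ker, map_sub, map_smul, smul_eq_mul, mul_assoc, sq_one _ hφ, mul_one,
        sub_self]
    · refine sup_le inf_le_left ?_
      rw [Submodule.span_singleton_le_iff_mem]
      exact hw₁
  conv_lhs => rw [hW]
  exact FLIM.card_sup _ w₁ hn

theorem key (hFLI : SpecFLI) (hMEE : SpecMEE) [Finite V] (A : Set V) (hA : Sy A)
    (W : Submodule (ZMod 3) V) (s t : V) (hC : Conf A W s t) (φ : V →ₗ[ZMod 3] ZMod 3)
    (hφ : ∃ w ∈ W, φ w ≠ 0) (d : ZMod 3) (hd : d ≠ 0) :
    ((∃ w ∈ W, φ w = 0 ∧ t - s + w ∈ A) ∨ (∃ w ∈ W, φ w = -d ∧ s + t + w ∈ A)) ∧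
    ((∃ w ∈ W, φ w = 0 ∧ s + t + w ∈ A) ∨ (∃ w ∈ W, φ w = d ∧ t - s + w ∈ A)) := by
  obtain ⟨w, hw, hwd⟩ : ∃ w ∈ W, φ w = d := by
    obtain ⟨w₁, hw₁, hφ₁⟩ := hφ
    refine ⟨(d * φ w₁) • w₁, W.smul_mem _ hw₁, ?_⟩
    rw [map_smul, smul_eq_mul, mul_assoc, sq_one _ hφ₁, mul_one]
  have hcard := card_ker W φ hφ
  have hκ : ∀ a ∈ A, a - (s + w) ∉ W ⊓ LinearMap.ker φ := by
    intro a ha h
    obtain ⟨h1, h2⟩ := Submodule.mem_inf.1 h
    rw [LinearMap.mem_ker] at h2
    have h3 : a = s := hC.s1.2 a ha (by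
      have : a - s = a - (s + w) + w := by abel
      rw [this]
      exact W.add_mem h1 hw)
    rw [h3] at h2
    have h4 : s - (s + w) = -w := by abel
    rw [h4, map_neg, hwd, neg_eq_zero] at h2
    exact hd h2
  obtain ⟨hmx, hmem⟩ := hFLI V A hA W (W ⊓ LinearMap.ker φ) (s + w) hC.mx inf_le_left hcard hκ
  constructor
  · obtain ⟨a, ha, haw⟩ := hMEE V A hA _ hmx (t + w)
    obtain ⟨e, he⟩ := (hmem _).1 haw
    obtain ⟨he1, he2⟩ := Submodule.mem_inf.1 he
    rw [LinearMap.mem_ker] at he2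
    rcases FLIM.cases3 e with h0 | h0 | h0
    · exfalso
      rw [h0, zero_smul, sub_zero] at he1 he2
      have h3 : a = t := hC.t1.2 a ha (by
        have : a - t = a - (t + w) + w := by abel
        rw [this]
        exact W.add_mem he1 hw)
      rw [h3] at he2
      have h4 : t - (t + w) = -w := by abel
      rw [h4, map_neg, hwd, neg_eq_zero] at he2
      exact hd he2
    · right
      rw [h0, one_smul] at he1 he2
      refine ⟨w + w + (a - (t + w) - (s + w)), W.add_mem (W.add_mem hw hw) he1, ?_, ?_⟩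
      · rw [map_add, he2, map_add, hwd, add_zero, two_d]
      · have : s + t + (w + w + (a - (t + w) - (s + w))) = a := by abel
        rw [this]
        exact ha
    · left
      rw [h0, neg_smul, one_smul, sub_neg_eq_add] at he1 he2
      refine ⟨a - (t + w) + (s + w), he1, he2, ?_⟩
      have : t - s + (a - (t + w) + (s + w)) = a := by abel
      rw [this]
      exact ha
  · obtain ⟨a, ha, haw⟩ := hMEE V A hA _ hmx (t - w)
    obtain ⟨e, he⟩ := (hmem _).1 haw
    obtain ⟨he1, he2⟩ := Submodule.mem_inf.1 he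
    rw [LinearMap.mem_ker] at he2
    rcases FLIM.cases3 e with h0 | h0 | h0
    · exfalso
      rw [h0, zero_smul, sub_zero] at he1 he2
      have h3 : a = t := hC.t1.2 a ha (by
        have : a - t = a - (t - w) - w := by abel
        rw [this]
        exact W.sub_mem he1 hw)
      rw [h3] at he2
      have h4 : t - (t - w) = w := by abel
      rw [h4, hwd] at he2
      exact hd he2
    · left
      rw [h0, one_smul] at he1 he2
      refine ⟨a - (t - w) - (s + w), he1, he2, ?_⟩
      have : s + t + (a - (t - w) - (s + w)) = a := by abel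
      rw [this]
      exact ha
    · right
      rw [h0, neg_smul, one_smul, sub_neg_eq_add] at he1 he2
      refine ⟨a - (t - w) + (s + w) - (w + w), W.sub_mem he1 (W.add_mem hw hw), ?_, ?_⟩
      · rw [map_sub, he2, map_add, hwd, zero_sub, two_d, neg_neg]
      · have : t - s + (a - (t - w) + (s + w) - (w + w)) = a := by abel
        rw [this]
        exact ha

end HCOM

theorem specHCO (hFLI : SpecFLI) (hMEE : SpecMEE) : SpecHCO := by
  intro V _ _ _ A hA W s t hC φ _ _ hφ
  have hk := fun d hd => HCOM.key hFLI hMEE A hA W s t hC φ hφ d hd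
  constructor
  · by_cases h : ∃ w ∈ W, φ w = 0 ∧ t - s + w ∈ A
    · exact Or.inl h
    · refine Or.inr fun c hc => ?_
      have h1 := (hk (-c) (neg_ne_zero.2 hc)).1.resolve_left h
      rwa [neg_neg] at h1
  · by_cases h : ∃ w ∈ W, φ w = 0 ∧ s + t + w ∈ A
    · exact Or.inl h
    · exact Or.inr fun c hc => (hk c hc).2.resolve_left h

end Pool.Agent.Lib.MP_b63a06_co.TR
end

section
set_option autoImplicit false

/-!
# MP_b63a06_co, TR: module HEQ: the rules `HE`
-/

namespace Pool.Agent.Lib.MP_b63a06_co.TR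

namespace HEQM

variable {V : Type} [AddCommGroup V] [Module (ZMod 3) V]

/-- membership in a line. -/
theorem mem_line (κ x : V) : x ∈ Submodule.span (ZMod 3) {κ} ↔ x = 0 ∨ x = κ ∨ x = -κ := by
  rw [Submodule.mem_span_singleton]
  constructor
  · rintro ⟨c, rfl⟩
    rcases MEEM.cases3 c with rfl | rfl | rfl
    · left; rw [zero_smul]
    · right; left; rw [one_smul]
    · right; right; rw [neg_smul, one_smul]
  · rintro (rfl | rfl | rfl)
    · exact ⟨0, zero_smul _ _⟩
    · exact ⟨1, one_smul _ _⟩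
    · exact ⟨-1, by rw [neg_smul, one_smul]⟩

theorem sub_mem_line (κ v x : V) (h : x - v ∈ Submodule.span (ZMod 3) {κ}) :
    x = v ∨ x = v + κ ∨ x = v - κ := by
  rcases (mem_line κ _).1 h with h | h | h
  · left; exact sub_eq_zero.1 h
  · right; left; rw [← h]; abel
  · right; right
    have : x = v + (x - v) := by abel
    rw [this, h]; abel

theorem avo_line (A : Set V) (hA : Sy A) (κ : V) (hκ : κ ∉ A) :
    Avo A (Submodule.span (ZMod 3) {κ}) := by
  intro a ha hm
  rcases (mem_line κ a).1 hm with h | h | h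
  · exact h
  · rw [h] at ha; exact absurd ha hκ
  · rw [h] at ha
    have := hA.2 _ ha
    rw [neg_neg] at this
    exact absurd this hκ

theorem card_line [Finite V] (κ : V) (hκ : κ ≠ 0) :
    Nat.card (Submodule.span (ZMod 3) {κ} : Submodule (ZMod 3) V) = 3 := by
  have h := MEEM.card_sup (⊥ : Submodule (ZMod 3) V) κ (by simpa using hκ)
  rw [bot_sup_eq] at h
  rw [h]
  simp

omit [AddCommGroup V] [Module (ZMod 3) V] in
theorem pair_le (p q : V) : ({p, q} : Set V).ncard ≤ 2 :=
  (Set.ncard_insert_le p {q}).trans (Nat.succ_le_succ (Set.ncard_singleton q).le)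

theorem le3 (A : Set V) (κ v : V) :
    (cs A (Submodule.span (ZMod 3) {κ}) v).ncard ≤ 3 := by
  have h : cs A (Submodule.span (ZMod 3) {κ}) v ⊆ ({v, v + κ, v - κ} : Set V) := by
    rintro x ⟨_, hx⟩
    rcases sub_mem_line κ v x hx with h | h | h <;> simp [h]
  refine (Set.ncard_le_ncard h (Set.toFinite _)).trans ?_
  exact (Set.ncard_insert_le _ _).trans (Nat.succ_le_succ (pair_le _ _))

theorem le2 (A : Set V) (κ v : V) (h0 : v ∉ A ∨ v + κ ∉ A ∨ v - κ ∉ A) :
    (cs A (Submodule.span (ZMod 3) {κ}) v).ncard ≤ 2 := by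
  have key : ∀ p q : V, cs A (Submodule.span (ZMod 3) {κ}) v ⊆ ({p, q} : Set V) →
      (cs A (Submodule.span (ZMod 3) {κ}) v).ncard ≤ 2 := fun p q h =>
    (Set.ncard_le_ncard h (Set.toFinite _)).trans (pair_le _ _)
  rcases h0 with h0 | h0 | h0
  · refine key (v + κ) (v - κ) ?_
    rintro x ⟨ha, hx⟩
    rcases sub_mem_line κ v x hx with h | h | h
    · rw [h] at ha; exact absurd ha h0
    · simp [h]
    · simp [h]
  · refine key v (v - κ) ?_
    rintro x ⟨ha, hx⟩
    rcases sub_mem_line κ v x hx with h | h | h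
    · simp [h]
    · rw [h] at ha; exact absurd ha h0
    · simp [h]
  · refine key v (v + κ) ?_
    rintro x ⟨ha, hx⟩
    rcases sub_mem_line κ v x hx with h | h | h
    · simp [h]
    · simp [h]
    · rw [h] at ha; exact absurd ha h0

theorem le1 (A : Set V) (κ v : V) (h1 : v ∉ A) (h0 : v + κ ∉ A ∨ v - κ ∉ A) :
    (cs A (Submodule.span (ZMod 3) {κ}) v).ncard ≤ 1 := by
  have key : ∀ p : V, cs A (Submodule.span (ZMod 3) {κ}) v ⊆ ({p} : Set V) →
      (cs A (Submodule.span (ZMod 3) {κ}) v).ncard ≤ 1 := fun p h =>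
    (Set.ncard_le_ncard h (Set.toFinite _)).trans (Set.ncard_singleton _).le
  rcases h0 with h0 | h0
  · refine key (v - κ) ?_
    rintro x ⟨ha, hx⟩
    rcases sub_mem_line κ v x hx with h | h | h
    · rw [h] at ha; exact absurd ha h1
    · rw [h] at ha; exact absurd ha h0
    · simp [h]
  · refine key (v + κ) ?_
    rintro x ⟨ha, hx⟩
    rcases sub_mem_line κ v x hx with h | h | h
    · rw [h] at ha; exact absurd ha h1
    · simp [h]
    · rw [h] at ha; exact absurd ha h0

theorem maxAv [Finite V] (A : Set V) (hA : Sy A) (W : Submodule (ZMod 3) V) (hW : MaxAv A W)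
    (h3 : Nat.card W = 3) (κ : V) (hκ : κ ∉ A) : MaxAv A (Submodule.span (ZMod 3) {κ}) := by
  refine ⟨avo_line A hA κ hκ, fun W' hW' => ?_⟩
  rw [card_line κ (fun h => hκ (h ▸ hA.1))]
  exact (hW.mx W' hW').trans h3.le

theorem sgl (A : Set V) (κ a : V) (h : HS (fun x => x ∈ A) κ a) :
    Sgl A (Submodule.span (ZMod 3) {κ}) a := by
  refine ⟨h.1, fun x hx hm => ?_⟩
  rcases sub_mem_line κ a x hm with h1 | h1 | h1
  · exact h1
  · rw [h1] at hx; exact absurd hx h.2.1
  · rw [h1] at hx; exact absurd hx h.2.2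

end HEQM

open HEQM in
theorem specHEQ (hMEE : SpecMEE) : SpecHEQ := by
  intro V _ _ _ A hA W hW h3 hc
  refine { zero := hA.1, neg := hA.2, mx := ?_, ce := ?_ }
  · intro κ hκ v
    obtain ⟨a, ha, hm⟩ := hMEE V A hA _ (maxAv A hA W hW h3 κ hκ) v
    rcases sub_mem_line κ v a hm with h | h | h
    · left; rw [← h]; exact ha
    · right; left; rw [← h]; exact ha
    · right; right; rw [← h]; exact ha
  · intro κ a b hκ ha hb hab
    have hC : Conf A (Submodule.span (ZMod 3) {κ}) a b :=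
      ⟨maxAv A hA W hW h3 κ hκ, sgl A κ a ha, sgl A κ b hb, hab⟩
    have h5 := hc _ _ _ hC
    unfold NN at h5
    have e2 := le2 A κ (a - b) (Or.inl hab)
    have e3 := le3 A κ (a + b)
    refine ⟨?_, ?_, ?_, ?_, ?_⟩ <;> by_contra h0
    · have := le1 A κ (a - b) hab (Or.inl h0); omega
    · have := le1 A κ (a - b) hab (Or.inr h0); omega
    · have := le2 A κ (a + b) (Or.inl h0); omega
    · have := le2 A κ (a + b) (Or.inr (Or.inl h0)); omega
    · have := le2 A κ (a + b) (Or.inr (Or.inr h0)); omega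

end Pool.Agent.Lib.MP_b63a06_co.TR
end

section
set_option autoImplicit false

/-! # MP_b63a06_co, TR: module LFR, classes next to a centre (helper83) -/

namespace Pool.Agent.Lib.MP_b63a06_co.TR

namespace LFRM

variable {V : Type} [AddCommGroup V] [Module (ZMod 3) V]

theorem lc_add (e : Fin 3 → V) (c d : Fin 3 → ZMod 3) : lc e (c + d) = lc e c + lc e d := by
  simp [lc, add_smul, Finset.sum_add_distrib]

theorem lc_sub (e : Fin 3 → V) (c d : Fin 3 → ZMod 3) : lc e (c - d) = lc e c - lc e d := by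
  simp [lc, sub_smul, Finset.sum_sub_distrib]

theorem lc_neg (e : Fin 3 → V) (c : Fin 3 → ZMod 3) : lc e (-c) = - lc e c := by
  simp [lc]

theorem lc_mem {F : Submodule (ZMod 3) V} {e : Fin 3 → V} (h : ∀ i, e i ∈ F)
    (c : Fin 3 → ZMod 3) : lc e c ∈ F :=
  F.sum_mem fun i _ => F.smul_mem _ (h i)

theorem EE_neg (c : Fin 3 → ZMod 3) : EE (-c) ↔ EE c := by
  revert c; decide

theorem fun_two (c : Fin 3 → ZMod 3) : -c - c = c := by
  revert c; decide

theorem cases3 (k : ZMod 3) : k = 0 ∨ k = 1 ∨ k = -1 := by revert k; decide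

/-- the coordinates of the elements of `A` in `y + F` modulo `R`. -/
def PR (A : Set V) (e : Fin 3 → V) (R : Submodule (ZMod 3) V) (y : V) : Set (Fin 3 → ZMod 3) :=
  {c | ∃ r ∈ R, y + (lc e c + r) ∈ A}

theorem PR_card [Finite V] (A : Set V) (F : Submodule (ZMod 3) V) (e : Fin 3 → V)
    (he : ∀ i, e i ∈ F) (R : Submodule (ZMod 3) V) (hR : Cpl F e R) (y : V) :
    (PR A e R y).ncard ≤ (QQ A F y).ncard := by
  classical
  have hch : ∀ c : Fin 3 → ZMod 3, ∃ q : V, c ∈ PR A e R y → (q ∈ QQ A F y ∧ q - lc e c ∈ R) := by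
    intro c
    by_cases hc : c ∈ PR A e R y
    · obtain ⟨r, hr, ha⟩ := hc
      refine ⟨lc e c + r, fun _ => ⟨⟨F.add_mem (lc_mem he c) (hR.le hr), ha⟩, ?_⟩⟩
      simpa using hr
    · exact ⟨0, fun h => absurd h hc⟩
  choose g hg using hch
  apply Set.ncard_le_ncard_of_injOn g (fun c hc => (hg c hc).1) ?_ (Set.toFinite _)
  intro c hc d hd hcd
  have h1 := (hg c hc).2
  have h2 := (hg d hd).2
  have hcd' : g c = g d := hcd
  rw [← hcd'] at h2
  have h3 : lc e (c - d) ∈ R := by
    rw [lc_sub]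
    have := R.sub_mem h2 h1
    have e1 : g c - lc e d - (g c - lc e c) = lc e c - lc e d := by abel
    rwa [e1] at this
  exact sub_eq_zero.1 (hR.dj _ h3)

/-- `R ⊔ span {v}`. -/
theorem mem_sup' {R : Submodule (ZMod 3) V} {v x : V}
    (h : x ∈ R ⊔ Submodule.span (ZMod 3) {v}) : ∃ r ∈ R, ∃ k : ZMod 3, x = r + k • v := by
  obtain ⟨r, hr, z, hz, rfl⟩ := Submodule.mem_sup.1 h
  obtain ⟨k, rfl⟩ := Submodule.mem_span_singleton.1 hz
  exact ⟨r, hr, k, rfl⟩

theorem Cn_zero (A : Set V) (F : Submodule (ZMod 3) V) : Cn A F 0 := by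
  intro q _
  simp

theorem meets [Finite V] (hFLV : SpecFLV) (hMEE : SpecMEE) (A : Set V) (hA : Sy A)
    (F : Submodule (ZMod 3) V) (e : Fin 3 → V) (hF : Frame A F e) (R : Submodule (ZMod 3) V)
    (hR : Cpl F e R) (y : V) (v : Fin 3 → ZMod 3) (hv : ¬ EE v) (p : Fin 3 → ZMod 3) :
    p ∈ PR A e R y ∨ p + v ∈ PR A e R y ∨ p - v ∈ PR A e R y := by
  have hm := hFLV V A hA F e hF R hR 0 (Cn_zero A F) v hv
  obtain ⟨a, ha, hm'⟩ := hMEE V A hA _ hm (y + lc e p)
  obtain ⟨r, hr, k, hk⟩ := mem_sup' hm'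
  have ha' : a = y + (lc e p + r + k • lc e v) := by
    have : a = (a - (y + lc e p)) + (y + lc e p) := by abel
    rw [this, hk, zero_add]; abel
  rcases cases3 k with rfl | rfl | rfl
  · left
    refine ⟨r, hr, ?_⟩
    rw [ha'] at ha
    simpa using ha
  · right; left
    refine ⟨r, hr, ?_⟩
    rw [ha'] at ha
    have e1 : y + (lc e (p + v) + r) = y + (lc e p + r + (1 : ZMod 3) • lc e v) := by
      rw [lc_add, one_smul]; abel
    rw [e1]; exact ha
  · right; right
    refine ⟨r, hr, ?_⟩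
    rw [ha'] at ha
    have e1 : y + (lc e (p - v) + r) = y + (lc e p + r + (-1 : ZMod 3) • lc e v) := by
      rw [lc_sub, neg_smul, one_smul]; abel
    rw [e1]; exact ha

theorem rule [Finite V] (hFLV : SpecFLV) (hMEE : SpecMEE) (hCPE : SpecCPE) (A : Set V) (hA : Sy A)
    (F : Submodule (ZMod 3) V) (e : Fin 3 → V) (hF : Frame A F e) (R : Submodule (ZMod 3) V)
    (hR : Cpl F e R) (γ α : V) (hγ : Cn A F γ) (hα : Cn A F α) (p m : Fin 3 → ZMod 3)
    (h1 : ¬ EE (p + m)) (h2 : ¬ EE (p - m)) :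
    p ∈ PR A e R (γ + α) ∨ m ∈ PR A e R (γ - α) := by
  have hu : ¬ EE (m - p) := by
    intro h
    apply h2
    rw [← EE_neg, neg_sub]
    exact h
  have hv : ¬ EE (-(p + m)) := fun h => h1 ((EE_neg _).1 h)
  have hm := hFLV V A hA F e hF R hR α hα (m - p) hu
  obtain ⟨a, ha, hm'⟩ := hMEE V A hA _ hm (γ + lc e (-(p + m)))
  obtain ⟨r, hr, k, hk⟩ := mem_sup' hm'
  have ha' : a = γ + (lc e (-(p + m)) + r + k • (α + lc e (m - p))) := by
    have : a = (a - (γ + lc e (-(p + m)))) + (γ + lc e (-(p + m))) := by abel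
    rw [this, hk]; abel
  rw [ha'] at ha
  rcases cases3 k with rfl | rfl | rfl
  · exfalso
    rw [zero_smul, add_zero] at ha
    have h3 : lc e (-(p + m)) + r ∈ A :=
      (hγ _ (F.add_mem (lc_mem hF.mem _) (hR.le hr))).1 ha
    have h4 := ((hCPE V A F e hF).2 R hR).2.2 _ h3 (-(p + m)) (by simpa using hr)
    exact hv h4.1
  · left
    refine ⟨r, hr, ?_⟩
    have e1 : γ + α + (lc e p + r) =
        γ + (lc e (-(p + m)) + r + (1 : ZMod 3) • (α + lc e (m - p))) := by
      have e2 : lc e p = lc e (-(p + m)) + lc e (m - p) := by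
        rw [← lc_add]
        congr 1
        have := fun_two p
        calc p = -p - p := this.symm
          _ = _ := by abel
      rw [e2, one_smul]; abel
    rw [e1]; exact ha
  · right
    refine ⟨r, hr, ?_⟩
    have e1 : γ - α + (lc e m + r) =
        γ + (lc e (-(p + m)) + r + (-1 : ZMod 3) • (α + lc e (m - p))) := by
      have e2 : lc e m = lc e (-(p + m)) - lc e (m - p) := by
        rw [← lc_sub]
        congr 1
        have := fun_two m
        calc m = -m - m := this.symm
          _ = _ := by abel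
      rw [e2, neg_smul, one_smul]; abel
    rw [e1]; exact ha

/-- the last step. -/
theorem last [Finite V] (hCPL : SpecCPL) (A : Set V) (F : Submodule (ZMod 3) V) (e : Fin 3 → V)
    (hF : Frame A F e) (y : V) (hy : (QQ A F y).ncard ≤ 26)
    (h : ∀ R, Cpl F e R → ∀ c, EE c → c ∈ PR A e R y) :
    ∀ q ∈ F, q ∈ A → q ∈ QQ A F y := by
  intro q hq hqA
  obtain ⟨c, hc, rfl⟩ := (hF.cut q).1 ⟨hqA, hq⟩
  by_contra hn
  obtain ⟨R, hR, hY⟩ := hCPL V F e hF.mem hF.ind ((fun q => q - lc e c) '' QQ A F y)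
    (by
      rintro _ ⟨q', hq', rfl⟩
      exact F.sub_mem hq'.1 hq)
    (by
      rintro ⟨q', hq', h0⟩
      have : q' = lc e c := sub_eq_zero.1 h0
      rw [this] at hq'
      exact hn hq')
    ((Set.ncard_image_le (Set.toFinite _)).trans hy)
  obtain ⟨r, hr, ha⟩ := h R hR c hc
  apply hY r _ hr
  exact ⟨lc e c + r, ⟨F.add_mem hq (hR.le hr), ha⟩, by simp⟩

end LFRM

open LFRM

theorem specLFR (hLFF : SpecLFF) (hSIF : SpecSIF) (hSIX : SpecSIX) (hFLV : SpecFLV)
    (hMEE : SpecMEE) (hCPL : SpecCPL) (hCPE : SpecCPE) : SpecLFR := by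
  intro V _ _ _ A hA F e hF γ α hγ hα h30
  have h13 : ∀ y, 13 ≤ (QQ A F y).ncard := by
    intro y
    rw [ncard_QQ]
    exact (hSIX V A hA F e hF y).1
  have key : ∀ R, Cpl F e R → (∀ c, EE c → c ∈ PR A e R (γ + α)) ∧
      (∀ c, EE c → c ∈ PR A e R (γ - α)) := by
    intro R hR
    have hp13 : ∀ y, 13 ≤ (PR A e R y).ncard := by
      intro y
      by_contra hlt
      have := (hSIF (PR A e R y) (fun v hv p => meets hFLV hMEE A hA F e hF R hR y v hv p)
        (by omega)).1
      omega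
    apply hLFF _ _ (hp13 _) (hp13 _)
    · have h1 := PR_card A F e hF.mem R hR (γ + α)
      have h2 := PR_card A F e hF.mem R hR (γ - α)
      omega
    · intro u v hu hv
      exact rule hFLV hMEE hCPE A hA F e hF R hR γ α hγ hα u v hu hv
  have ha := h13 (γ + α)
  have hb := h13 (γ - α)
  intro q hq hqA
  exact ⟨last hCPL A F e hF (γ + α) (by omega) (fun R hR => (key R hR).1) q hq hqA,
    last hCPL A F e hF (γ - α) (by omega) (fun R hR => (key R hR).2) q hq hqA⟩

end Pool.Agent.Lib.MP_b63a06_co.TR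
end

section
set_option autoImplicit false

/-! # MP_b63a06_co, module LMB (helper32): a complement which avoids the conflict. -/

namespace Pool.Agent.Lib.MP_b63a06_co.TR

theorem specLMB (hCPL : SpecCPL) (hLMU : SpecLMU) (hLMK : SpecLMK) : SpecLMB := by
  intro V _ _ _ A hA hex hW
  classical
  have hex' : ∃ n : ℕ, ∃ F e α β, CC A F e α β ∧ (QQ A F (α - β)).ncard = n := by
    obtain ⟨F, e, α, β, h⟩ := hex
    exact ⟨_, F, e, α, β, h, rfl⟩
  obtain ⟨F, e, α, β, hcc, hn⟩ := Nat.find_spec hex'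
  have hmin : ∀ (F' : Submodule (ZMod 3) V) (e' : Fin 3 → V), CC A F' e' α β →
      (QQ A F (α - β)).ncard ≤ (QQ A F' (α - β)).ncard := by
    intro F' e' h'
    rw [hn]
    exact Nat.find_min' hex' ⟨F', e', α, β, h', rfl⟩
  have h26 : (QQ A F (α - β)).ncard ≤ 26 := by
    by_contra hc
    push Not at hc
    obtain ⟨γ, h1, h2, h3, h4⟩ := hLMU V A hA F e α β hcc hc hW
    exact hLMK V A hA F e α β hcc hc hmin γ h1 h2 h3 h4
  have h0 : (0 : V) ∉ QQ A F (α - β) := by
    rintro ⟨_, h⟩
    rw [add_zero] at h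
    exact hcc.nd h
  obtain ⟨R, hR, hR'⟩ := hCPL V F e hcc.fr.mem hcc.fr.ind (QQ A F (α - β))
    (fun y hy => hy.1) h0 h26
  exact ⟨F, e, α, β, R, hcc, hR, hR'⟩

end Pool.Agent.Lib.MP_b63a06_co.TR
end

section
set_option autoImplicit false

/-! # MP_b63a06_co, module LMK (helper65): the flip makes the conflict smaller. -/

namespace Pool.Agent.Lib.MP_b63a06_co.TR

namespace LMKM

variable {V : Type} [AddCommGroup V] [Module (ZMod 3) V]

theorem flp_apply (φ : V →ₗ[ZMod 3] ZMod 3) (γ x : V) : flp φ γ x = x + φ x • γ := by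
  simp [flp]

theorem card_span2 [Finite V] (X : Set V) (hX : X.ncard ≤ 2) :
    Nat.card (Submodule.span (ZMod 3) X) ≤ 9 := by
  have : Fact (Nat.Prime 3) := ⟨Nat.prime_three⟩
  have hfin : X.Finite := Set.toFinite X
  have h1 : Module.finrank (ZMod 3) (Submodule.span (ZMod 3) X) ≤ 2 := by
    classical
    let _ : Fintype X := hfin.fintype
    refine le_trans (finrank_span_le_card X) ?_
    rw [← Set.ncard_eq_toFinset_card']
    exact hX
  rw [Module.natCard_eq_pow_finrank (K := ZMod 3), Nat.card_zmod]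
  calc 3 ^ _ ≤ 3 ^ 2 := Nat.pow_le_pow_right (by norm_num) h1
    _ = 9 := by norm_num

theorem diff_card [Finite V] {A : Set V} {F : Submodule (ZMod 3) V} {v : V}
    (hB : ∀ q ∈ F, q ∈ A → q ∈ QQ A F v) :
    {q | q ∈ QQ A F v ∧ q ∉ A}.ncard + {q | q ∈ F ∧ q ∈ A}.ncard = (QQ A F v).ncard := by
  rw [← Set.ncard_union_eq]
  · congr 1
    ext q
    constructor
    · rintro (⟨h, _⟩ | ⟨h1, h2⟩)
      · exact h
      · exact hB q h1 h2
    · intro h
      by_cases hq : q ∈ A
      · exact Or.inr ⟨h.1, hq⟩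
      · exact Or.inl ⟨h, hq⟩
  · rw [Set.disjoint_left]
    rintro q ⟨_, h⟩ ⟨_, h'⟩
    exact h h'

end LMKM

open LMKM

theorem specLMK (hSIX : SpecSIX) (hLFR : SpecLFR) (hFLP : SpecFLP) (hFLQ : SpecFLQ)
    (hFLN : SpecFLN) (hLMA : SpecLMA) : SpecLMK := by
  intro V _ _ _ A hA F e α β hcc h27 hmin γ hγ hind h54 h30
  classical
  have hγF : γ ∉ F := by
    intro h
    have := hind 0 0 1 (by simpa using h)
    exact absurd this.2.2 (by decide)
  have h13 : ∀ v, 13 ≤ (QQ A F v).ncard := fun v => by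
    rw [ncard_QQ]
    exact (hSIX V A hA F e hcc.fr v).1
  have hB13 : 13 ≤ {q | q ∈ F ∧ q ∈ A}.ncard := by
    have h0 := h13 0
    have : QQ A F 0 = {q | q ∈ F ∧ q ∈ A} := by
      ext q
      simp [QQ]
    rwa [this] at h0
  have a1 := h13 (γ + α)
  have a2 := h13 (γ - α)
  have a3 := h13 (γ + β)
  have a4 := h13 (γ - β)
  have hla := hLFR V A hA F e hcc.fr γ α hγ hcc.ca (by omega)
  have hlb := hLFR V A hA F e hcc.fr γ β hγ hcc.cb (by omega)
  have d1 := diff_card (A := A) (F := F) (v := γ + α) (fun q h1 h2 => (hla q h1 h2).1)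
  have d2 := diff_card (A := A) (F := F) (v := γ - α) (fun q h1 h2 => (hla q h1 h2).2)
  have d3 := diff_card (A := A) (F := F) (v := γ + β) (fun q h1 h2 => (hlb q h1 h2).1)
  have d4 := diff_card (A := A) (F := F) (v := γ - β) (fun q h1 h2 => (hlb q h1 h2).2)
  set X1 := {q | q ∈ QQ A F (γ + α) ∧ q ∉ A} with hX1
  set X2 := {q | q ∈ QQ A F (γ - α) ∧ q ∉ A} with hX2
  set X3 := {q | q ∈ QQ A F (γ + β) ∧ q ∉ A} with hX3
  set X4 := {q | q ∈ QQ A F (γ - β) ∧ q ∉ A} with hX4
  set X := X1 ∪ X2 ∪ (X3 ∪ X4) with hX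
  have hXc : X.ncard ≤ 2 := by
    have e1 := Set.ncard_union_le (X1 ∪ X2) (X3 ∪ X4)
    have e2 := Set.ncard_union_le X1 X2
    have e3 := Set.ncard_union_le X3 X4
    rw [hX]
    omega
  set K := Submodule.span (ZMod 3) X with hK
  have hK9 : Nat.card K ≤ 9 := card_span2 X hXc
  have hmain : ∀ φ : V →ₗ[ZMod 3] ZMod 3, (∀ k ∈ K, φ k = 0) →
      {x | x ∈ QQ A F (α - β) ∧ φ x ≠ 0}.ncard ≤
        {x | x ∈ QQ A F (γ + (α - β)) ∧ φ x = 1}.ncard +
        {x | x ∈ QQ A F (γ - (α - β)) ∧ φ x = 1}.ncard := by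
    intro φ hφ
    have hφX : ∀ x ∈ X, φ x = 0 := fun x hx => hφ x (Submodule.subset_span hx)
    have hfr := hFLP V A hA F e hcc.fr γ hγ hγF φ
    have hca : Cn A (F.map (flp φ γ)) α := by
      refine hFLQ V A hA F γ α hγ hcc.ca φ hla ?_
      rintro q (hq | hq) hqA
      · exact hφX q (Or.inl (Or.inl ⟨hq, hqA⟩))
      · exact hφX q (Or.inl (Or.inr ⟨hq, hqA⟩))
    have hcb : Cn A (F.map (flp φ γ)) β := by
      refine hFLQ V A hA F γ β hγ hcc.cb φ hlb ?_
      rintro q (hq | hq) hqA
      · exact hφX q (Or.inr (Or.inl ⟨hq, hqA⟩))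
      · exact hφX q (Or.inr (Or.inr ⟨hq, hqA⟩))
    have hid : Ind2 (F.map (flp φ γ)) α β := by
      intro a b hab
      obtain ⟨f, hf, hfe⟩ := Submodule.mem_map.1 hab
      rw [flp_apply] at hfe
      have h5 : a • α + b • β + (-(φ f)) • γ ∈ F := by
        rw [← hfe, neg_smul, add_neg_cancel_right]
        exact hf
      have h6 := hind a b (-(φ f)) h5
      exact ⟨h6.1, h6.2.1⟩
    have hm := hmin (F.map (flp φ γ)) (fun i => flp φ γ (e i)) ⟨hfr, hca, hcb, hcc.nd, hid⟩
    rw [hFLN V A hA F γ (α - β) hγF φ] at hm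
    have hsplit : (QQ A F (α - β)).ncard = {q | q ∈ QQ A F (α - β) ∧ φ q = 0}.ncard +
        {x | x ∈ QQ A F (α - β) ∧ φ x ≠ 0}.ncard := by
      rw [← Set.ncard_union_eq]
      · congr 1
        ext q
        constructor
        · intro h
          by_cases hq : φ q = 0
          · exact Or.inl ⟨h, hq⟩
          · exact Or.inr ⟨h, hq⟩
        · rintro (h | h)
          · exact h.1
          · exact h.1
      · rw [Set.disjoint_left]
        rintro q ⟨_, h⟩ ⟨_, h'⟩
        exact h' h
    omega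
  have hfin := hLMA V (QQ A F (α - β)) (QQ A F (γ + (α - β))) (QQ A F (γ - (α - β))) K hmain
  have h0 : (0 : V) ∉ QQ A F (α - β) := by
    intro h
    have := h.2
    rw [add_zero] at this
    exact hcc.nd this
  have hlow : (QQ A F (α - β)).ncard ≤ {x | x ∈ QQ A F (α - β) ∧ x ∉ K}.ncard + 8 := by
    have hK0 : ((K : Set V) \ {0}).ncard ≤ 8 := by
      have h1 : ((K : Set V) \ {0}).ncard + 1 = (K : Set V).ncard :=
        Set.ncard_sdiff_singleton_add_one K.zero_mem (Set.toFinite _)
      have h2 : (K : Set V).ncard = Nat.card K := rfl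
      omega
    have hsub : QQ A F (α - β) ⊆ {x | x ∈ QQ A F (α - β) ∧ x ∉ K} ∪ ((K : Set V) \ {0}) := by
      intro x hx
      by_cases hxK : x ∈ K
      · right
        refine ⟨hxK, ?_⟩
        rintro rfl
        exact h0 hx
      · exact Or.inl ⟨hx, hxK⟩
    have h3 := Set.ncard_le_ncard hsub (Set.toFinite _)
    have h4 := Set.ncard_union_le {x | x ∈ QQ A F (α - β) ∧ x ∉ K} ((K : Set V) \ {0})
    omega
  omega

end Pool.Agent.Lib.MP_b63a06_co.TR
end

section
set_option autoImplicit false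

/-!
# MP_b63a06_co, TR: module LMU (helper14)

A good centre outside of `U = F + ⟨α, β⟩`.
-/

namespace Pool.Agent.Lib.MP_b63a06_co.TR

namespace LMUM

variable {V : Type} [AddCommGroup V] [Module (ZMod 3) V]

theorem sum3 (f : ZMod 3 → ℕ) : (∑ a : ZMod 3, f a) = f 0 + f 1 + f (-1) := by
  have h : (∑ a : ZMod 3, f a) = f 0 + f 1 + f 2 := Fin.sum_univ_three f
  have h2 : (2 : ZMod 3) = -1 := by decide
  rw [h, h2]

theorem sum9 (f : ZMod 3 → ZMod 3 → ℕ) : (∑ a : ZMod 3, ∑ b : ZMod 3, f a b) =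
    (f 0 0 + f 0 1 + f 0 (-1)) + (f 1 0 + f 1 1 + f 1 (-1)) +
    (f (-1) 0 + f (-1) 1 + f (-1) (-1)) := by
  rw [sum3]
  simp only [sum3]

/-- two of nine numbers. -/
theorem two_le (f : ZMod 3 → ZMod 3 → ℕ) (a b : ZMod 3) :
    f (a + 1) (b - 1) + f (a - 1) (b + 1) ≤ ∑ a : ZMod 3, ∑ b : ZMod 3, f a b := by
  have hne : ((a + 1, b - 1) : ZMod 3 × ZMod 3) ≠ (a - 1, b + 1) := by
    revert a b; decide
  calc f (a + 1) (b - 1) + f (a - 1) (b + 1)
      = ∑ p ∈ ({(a + 1, b - 1), (a - 1, b + 1)} : Finset (ZMod 3 × ZMod 3)), f p.1 p.2 := by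
        rw [Finset.sum_pair hne]
    _ ≤ ∑ p : ZMod 3 × ZMod 3, f p.1 p.2 :=
        Finset.sum_le_sum_of_subset (Finset.subset_univ _)
    _ = ∑ a : ZMod 3, ∑ b : ZMod 3, f a b := Fintype.sum_prod_type' f

theorem cs_congr (A : Set V) (W : Submodule (ZMod 3) V) (v v' : V) (h : v - v' ∈ W) :
    cs A W v = cs A W v' := by
  ext x
  constructor
  · rintro ⟨ha, hx⟩
    exact ⟨ha, by have := W.add_mem hx h; simpa using this⟩
  · rintro ⟨ha, hx⟩
    exact ⟨ha, by have := W.sub_mem hx h; simpa using this⟩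

theorem cs_neg (A : Set V) (hA : Sy A) (W : Submodule (ZMod 3) V) (v : V) :
    (cs A W (-v)).ncard = (cs A W v).ncard := by
  rw [← Set.ncard_image_of_injective (cs A W v) neg_injective]
  congr 1
  ext x
  constructor
  · rintro ⟨ha, hx⟩
    refine ⟨-x, ⟨hA.2 x ha, ?_⟩, neg_neg x⟩
    have := W.neg_mem hx
    have h2 : -x - v = -(x - -v) := by abel
    rw [h2]; exact this
  · rintro ⟨z, ⟨ha, hz⟩, rfl⟩
    refine ⟨hA.2 z ha, ?_⟩
    have := W.neg_mem hz
    have h2 : -z - -v = -(z - v) := by abel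
    rw [h2]; exact this

theorem cs_univ [Finite V] (W : Submodule (ZMod 3) V) (v : V) :
    (cs (Set.univ : Set V) W v).ncard = Nat.card W := by
  have h : cs (Set.univ : Set V) W v = (fun w : W => (w : V) + v) '' Set.univ := by
    ext x
    constructor
    · rintro ⟨-, hx⟩
      exact ⟨⟨x - v, hx⟩, trivial, by simp⟩
    · rintro ⟨w, -, rfl⟩
      exact ⟨trivial, by simp⟩
  rw [h, Set.ncard_image_of_injective, Set.ncard_univ]
  intro w w' hw
  exact Subtype.ext (add_right_cancel hw)

theorem card_FF [Finite V] (hY : SpecYSM) (W : Submodule (ZMod 3) V) (s t : V)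
    (h : ∀ a b : ZMod 3, a • s + b • t ∈ W → a = 0 ∧ b = 0) :
    Nat.card (FF W s t) = 9 * Nat.card W := by
  have h1 := (hY V Set.univ W s t).2 h 0
  rw [cs_univ] at h1
  simp only [cs_univ, sum9] at h1
  omega

theorem ix_eq [Finite V] (W : Submodule (ZMod 3) V) : Nat.card V = Nat.card W * ix W := by
  unfold ix
  exact Submodule.card_eq_card_quotient_mul_card W

theorem one_or (c : ZMod 3) (hc : c ≠ 0) : c = 1 ∨ c = -1 := by revert c; decide

theorem mem_of (c : ZMod 3) (hc : c ≠ 0) (U : Submodule (ZMod 3) V) (x : V) (h : c • x ∈ U) :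
    x ∈ U := by
  have h2 := one_or c hc
  rcases h2 with rfl | rfl
  · simpa using h
  · simpa using h

end LMUM

open LMUM

theorem specLMU (hEXM : SpecEXM) (hYSM : SpecYSM) (hAVG : SpecAVG) (hSIX : SpecSIX)
    (hEXJ : SpecEXJ) : SpecLMU := by
  intro V _ _ _ A hA F e α β hC h27 hlt
  obtain ⟨W, hW⟩ := (hEXM V A).1
  have hfr := hC.fr
  have hind : ∀ a b : ZMod 3, a • α + b • β ∈ F → a = 0 ∧ b = 0 := hC.id
  set U := FF F α β with hU
  -- indices
  have hcU : Nat.card U = 9 * Nat.card F := card_FF hYSM F α β hind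
  have hcF : Nat.card F = 9 * Nat.card W := hfr.big W hW
  have hV1 := ix_eq U
  have hV3 := ix_eq W
  have hWpos : 0 < Nat.card W := Nat.card_pos
  have hixW : ix W = 81 * ix U := by
    rw [hV1, hcU, hcF] at hV3
    have : Nat.card W * (81 * ix U) = Nat.card W * ix W := by rw [← hV3]; ring
    exact (Nat.eq_of_mul_eq_mul_left hWpos this).symm
  have hAU : A.ncard < 122 * ix U := by
    have := hlt W hW
    rw [hixW] at this
    omega
  -- the class of zero
  have hs := fun v => (hYSM V A F α β).2 hind v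
  have h13 : ∀ v, 13 ≤ (cs A F v).ncard := fun v => (hSIX V A hA F e hfr v).1
  have h0 : 145 ≤ (cs A U 0).ncard := by
    have h1 := hs 0
    rw [← hU, sum9] at h1
    have e1 : (0 : V) + (1 : ZMod 3) • α + (-1 : ZMod 3) • β = α - β := by
      simp [sub_eq_add_neg]
    have e2 : (0 : V) + (-1 : ZMod 3) • α + (1 : ZMod 3) • β = -(α - β) := by
      rw [neg_smul, one_smul, one_smul]; abel
    rw [e1, e2, cs_neg A hA] at h1
    have h27' : 27 ≤ (cs A F (α - β)).ncard := by rw [← ncard_QQ]; exact h27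
    have k1 := h13 (0 + (0 : ZMod 3) • α + (0 : ZMod 3) • β)
    have k2 := h13 (0 + (0 : ZMod 3) • α + (1 : ZMod 3) • β)
    have k3 := h13 (0 + (0 : ZMod 3) • α + (-1 : ZMod 3) • β)
    have k4 := h13 (0 + (1 : ZMod 3) • α + (0 : ZMod 3) • β)
    have k5 := h13 (0 + (1 : ZMod 3) • α + (1 : ZMod 3) • β)
    have k6 := h13 (0 + (-1 : ZMod 3) • α + (0 : ZMod 3) • β)
    have k7 := h13 (0 + (-1 : ZMod 3) • α + (-1 : ZMod 3) • β)
    omega
  obtain ⟨y, hyU, hy⟩ := hAVG V A U 122 (by omega)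
  -- the excess
  have h1 := hs y
  rw [← hU] at h1
  let f : ZMod 3 → ZMod 3 → ℕ := fun a b => (cs A F (y + a • α + b • β)).ncard - 13
  have hf : ∀ a b, (cs A F (y + a • α + b • β)).ncard = f a b + 13 := by
    intro a b
    have := h13 (y + a • α + b • β)
    simp only [f]
    omega
  have hsum : (∑ a : ZMod 3, ∑ b : ZMod 3, f a b) ≤ 4 := by
    simp only [hf] at h1
    rw [sum9] at h1
    rw [sum9]
    omega
  obtain ⟨a, b, hab, hn⟩ := hEXJ f hsum
  have hy1 : (cs A F (y + a • α + b • β)).ncard = 13 := by rw [hf, hab]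
  obtain ⟨γ, hγ, hq⟩ := (hSIX V A hA F e hfr (y + a • α + b • β)).2 hy1
  have hγF : γ - (y + a • α + b • β) ∈ F := by
    have := (Submodule.Quotient.eq F).1 (show (Submodule.Quotient.mk γ : V ⧸ F) =
      Submodule.Quotient.mk (y + a • α + b • β) from hq)
    exact this
  have key : ∀ p q : ZMod 3, (QQ A F (γ + (p • α + q • β))).ncard = f (a + p) (b + q) + 13 := by
    intro p q
    rw [ncard_QQ, ← hf]
    congr 1
    apply cs_congr
    have : γ + (p • α + q • β) - (y + (a + p) • α + (b + q) • β) = γ - (y + a • α + b • β) := by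
      rw [add_smul, add_smul]; abel
    rw [this]
    exact hγF
  refine ⟨γ, hγ, ?_, ?_, ?_⟩
  · intro a' b' c' hm
    have hc : c' = 0 := by
      by_contra hc
      apply hyU
      have hFU : F ≤ U := le_sup_left
      have hαU : α ∈ U := Submodule.mem_sup_right (Submodule.subset_span (by simp))
      have hβU : β ∈ U := Submodule.mem_sup_right (Submodule.subset_span (by simp))
      have hγU : γ ∈ U := by
        apply mem_of c' hc
        have := U.sub_mem (hFU hm) (U.add_mem (U.smul_mem a' hαU) (U.smul_mem b' hβU))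
        have h2 : a' • α + b' • β + c' • γ - (a' • α + b' • β) = c' • γ := by abel
        rwa [h2] at this
      have := U.sub_mem (U.sub_mem (U.sub_mem hγU (hFU hγF)) (U.smul_mem a hαU))
        (U.smul_mem b hβU)
      have h2 : γ - (γ - (y + a • α + b • β)) - a • α - b • β = y := by abel
      rwa [h2] at this
    subst hc
    have := hind a' b' (by simpa using hm)
    exact ⟨this.1, this.2, rfl⟩
  · have k1 := key 1 0
    have k2 := key (-1) 0
    have k3 := key 0 1
    have k4 := key 0 (-1)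
    simp only [one_smul, zero_smul, neg_smul, add_zero, zero_add] at k1 k2 k3 k4
    rw [← sub_eq_add_neg] at k2 k4
    rw [← sub_eq_add_neg] at k2 k4
    rw [k1, k2, k3, k4]
    omega
  · have k1 := key 1 (-1)
    have k2 := key (-1) 1
    have t := two_le f a b
    simp only [one_smul, neg_smul, ← sub_eq_add_neg] at k1 k2
    have e2 : γ + (-α + β) = γ - (α - β) := by abel
    rw [e2] at k2
    rw [k1, k2]
    omega

end Pool.Agent.Lib.MP_b63a06_co.TR
end

section
set_option autoImplicit false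

/-!
# Module NOC (MP_b63a06_co, folder TR): no conflict
-/

namespace Pool.Agent.Lib.MP_b63a06_co.TR

namespace NOCM

theorem ncard_fiber {V Q : Type} [Finite V] [Fintype Q] (A : Set V) (g : V → Q) :
    A.ncard = ∑ c, {a | a ∈ A ∧ g a = c}.ncard := by
  classical
  have := Fintype.ofFinite V
  rw [Set.ncard_eq_toFinset_card' A,
    Finset.card_eq_sum_card_fiberwise (f := g) (t := Finset.univ) (by simp)]
  refine Finset.sum_congr rfl fun c _ => ?_
  rw [Set.ncard_eq_toFinset_card']
  congr 1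
  ext a
  simp

end NOCM

open NOCM in
theorem specNOC (hMEE : SpecMEE) : SpecNOC := by
  classical
  intro V _ _ _ A hA hno ω hω W hW
  have hfin : Finite (V ⧸ W) := Finite.of_surjective _ (Submodule.mkQ_surjective W)
  have := Fintype.ofFinite (V ⧸ W)
  have hix : ix W = Fintype.card (V ⧸ W) := by rw [ix, Nat.card_eq_fintype_card]
  have hpos : ∀ c : V ⧸ W, 1 ≤ {a | a ∈ A ∧ W.mkQ a = c}.ncard := by
    intro c
    obtain ⟨v, rfl⟩ := Submodule.mkQ_surjective W c
    obtain ⟨a, ha, hav⟩ := hMEE V A hA W hW v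
    exact (Set.ncard_pos (Set.toFinite _)).2
      ⟨a, ha, by simpa only [Submodule.mkQ_apply, Submodule.Quotient.eq] using hav⟩
  set C : Set V := {a | Sgl A W a} with hC
  have hclique : C.ncard ≤ ω := by
    apply hω
    intro x hx y hy _
    by_contra h
    exact hno ⟨W, x, y, hW, hx, hy, h⟩
  set S : Set (V ⧸ W) := {c | {a | a ∈ A ∧ W.mkQ a = c}.ncard = 1} with hS
  have hSC : S ⊆ W.mkQ '' C := by
    intro c hc
    rw [hS, Set.mem_setOf_eq, Set.ncard_eq_one] at hc
    obtain ⟨a, ha⟩ := hc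
    have h1 : a ∈ {a | a ∈ A ∧ W.mkQ a = c} := by rw [ha]; exact Set.mem_singleton _
    refine ⟨a, ⟨h1.1, ?_⟩, h1.2⟩
    intro b hb hba
    have h2 : b ∈ {a | a ∈ A ∧ W.mkQ a = c} := by
      refine ⟨hb, ?_⟩
      rw [← h1.2]
      simpa only [Submodule.mkQ_apply, Submodule.Quotient.eq] using hba
    rw [ha] at h2
    exact h2
  have hScard : S.ncard ≤ ω := by
    calc S.ncard ≤ (W.mkQ '' C).ncard := Set.ncard_le_ncard hSC (Set.toFinite _)
      _ ≤ C.ncard := Set.ncard_image_le (Set.toFinite _)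
      _ ≤ ω := hclique
  have h1 : S.ncard = ∑ c : V ⧸ W, if c ∈ S then 1 else 0 := by
    rw [Finset.sum_boole, Set.ncard_eq_toFinset_card']
    simp only [Nat.cast_id]
    congr 1
    ext c
    simp
  have h2 : 2 * ix W ≤ A.ncard + S.ncard := by
    rw [ncard_fiber A W.mkQ, hix, h1, ← Finset.sum_add_distrib]
    calc 2 * Fintype.card (V ⧸ W) = ∑ _c : V ⧸ W, 2 := by
          rw [Finset.sum_const, smul_eq_mul, mul_comm, Finset.card_univ]
      _ ≤ _ := by
          refine Finset.sum_le_sum fun c _ => ?_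
          have h3 := hpos c
          by_cases hc : c ∈ S
          · rw [if_pos hc]; omega
          · rw [if_neg hc]
            have h4 : {a | a ∈ A ∧ W.mkQ a = c}.ncard ≠ 1 := hc
            omega
  omega

end Pool.Agent.Lib.MP_b63a06_co.TR
end

section
set_option autoImplicit false

/-!
# MP_b63a06_co, TR: module P1, the quotient by `κ = y + w₀` (helper20)
-/

namespace Pool.Agent.Lib.MP_b63a06_co.TR

namespace P1M

variable {V : Type} [AddCommGroup V] [Module (ZMod 3) V]

theorem card_ker [Finite V] (W : Submodule (ZMod 3) V) (φ : V →ₗ[ZMod 3] ZMod 3)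
    (h : ∃ w ∈ W, φ w ≠ 0) :
    Nat.card W = 3 * Nat.card (W ⊓ LinearMap.ker φ : Submodule (ZMod 3) V) := by
  obtain ⟨w₁, hw₁, hφ⟩ := h
  have hn : w₁ ∉ W ⊓ LinearMap.ker φ := fun h => hφ (LinearMap.mem_ker.1 h.2)
  have hW : W = (W ⊓ LinearMap.ker φ) ⊔ Submodule.span (ZMod 3) {w₁} := by
    apply le_antisymm
    · intro w hw
      rw [FLIM.mem_iff]
      have hinv : φ w₁ * φ w₁ = 1 := by
        rcases FLIM.cases3 (φ w₁) with h0 | h0 | h0
        · exact absurd h0 hφ
        · rw [h0]; rfl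
        · rw [h0]; rfl
      refine ⟨φ w * φ w₁, Submodule.mem_inf.2 ⟨W.sub_mem hw (W.smul_mem _ hw₁), ?_⟩⟩
      rw [LinearMap.mem_ker, map_sub, map_smul, smul_eq_mul, mul_assoc, hinv, mul_one, sub_self]
    · refine sup_le inf_le_left ?_
      rw [Submodule.span_singleton_le_iff_mem]
      exact hw₁
  conv_lhs => rw [hW]
  exact FLIM.card_sup _ w₁ hn

/-- one of the two single elements -/
theorem single (A : Set V) (hA : Sy A) (W : Submodule (ZMod 3) V) (s : V) (hs : Sgl A W s)
    (φ : V →ₗ[ZMod 3] ZMod 3) (c : ZMod 3) (y w₀ : V) (hw₀ : w₀ ∈ W) (hc : φ w₀ = c)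
    (hst : ∀ w ∈ W, φ w = c → w ≠ w₀ → y + s + w ∉ A ∧ y - s + w ∉ A) (x : V) (hx : x ∈ A)
    (e : ZMod 3) (he : x - s - e • (y + w₀) ∈ W ⊓ LinearMap.ker φ) :
    x - s ∈ Submodule.span (ZMod 3) {y + w₀} := by
  obtain ⟨hk1, hk2⟩ := Submodule.mem_inf.1 he
  rw [LinearMap.mem_ker] at hk2
  rcases FLIM.cases3 e with h0 | h0 | h0
  · rw [h0, zero_smul, sub_zero] at hk1
    rw [hs.2 x hx hk1, sub_self]
    exact Submodule.zero_mem _
  · rw [h0, one_smul] at hk1 hk2
    by_cases hk : x - s - (y + w₀) = 0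
    · rw [sub_eq_zero.1 hk]
      exact Submodule.mem_span_singleton_self _
    · exfalso
      refine (hst (w₀ + (x - s - (y + w₀))) (W.add_mem hw₀ hk1) ?_ ?_).1 ?_
      · rw [map_add, hk2, hc, add_zero]
      · intro h
        exact hk (add_eq_left.1 h)
      · have : y + s + (w₀ + (x - s - (y + w₀))) = x := by abel
        rw [this]
        exact hx
  · rw [h0, neg_smul, one_smul, sub_neg_eq_add] at hk1 hk2
    by_cases hk : x - s + (y + w₀) = 0
    · rw [eq_neg_of_add_eq_zero_left hk]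
      exact Submodule.neg_mem _ (Submodule.mem_span_singleton_self _)
    · exfalso
      refine (hst (w₀ - (x - s + (y + w₀))) (W.sub_mem hw₀ hk1) ?_ ?_).2 ?_
      · rw [map_sub, hk2, hc, sub_zero]
      · intro h
        exact hk (sub_eq_self.1 h)
      · have : y - s + (w₀ - (x - s + (y + w₀))) = -x := by abel
        rw [this]
        exact hA.2 x hx

end P1M

theorem specP1 (hFLI : SpecFLI) : SpecP1 := by
  intro V _ _ _ A hA hQR W s t hC φ c hφ y w₀ hw₀ hc hy hst
  by_contra hcon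
  push Not at hcon
  have hcard := P1M.card_ker W φ hφ
  have hκ : ∀ a ∈ A, a - (y + w₀) ∉ W ⊓ LinearMap.ker φ := by
    intro a ha h
    obtain ⟨h1, h2⟩ := Submodule.mem_inf.1 h
    rw [LinearMap.mem_ker] at h2
    refine hy (w₀ + (a - (y + w₀))) (W.add_mem hw₀ h1) ?_ ?_
    · rw [map_add, h2, hc, add_zero]
    · have : y + (w₀ + (a - (y + w₀))) = a := by abel
      rw [this]
      exact ha
  obtain ⟨hmx, hmem⟩ := hFLI V A hA W (W ⊓ LinearMap.ker φ) (y + w₀) hC.mx inf_le_left hcard hκ
  have hne : y + w₀ ≠ 0 := by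
    intro h
    refine hκ 0 hA.1 ?_
    rw [h, sub_zero]
    exact Submodule.zero_mem _
  refine hQR ((W ⊓ LinearMap.ker φ) ⊔ Submodule.span (ZMod 3) {y + w₀})
    (Submodule.span (ZMod 3) {y + w₀}) s t (by
      rw [Ne, Submodule.span_singleton_eq_bot]
      exact hne) ?_
  refine ⟨hmx, le_sup_right, hC.s1.1, hC.t1.1, ?_, ?_, ?_⟩
  · intro x hx hxs
    obtain ⟨e, he⟩ := (hmem _).1 hxs
    exact P1M.single A hA W s hC.s1 φ c y w₀ hw₀ hc
      (fun w hw hwc hne => ⟨(hst w hw hwc hne).1, (hst w hw hwc hne).2.1⟩) x hx e he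
  · intro x hx hxs
    obtain ⟨e, he⟩ := (hmem _).1 hxs
    exact P1M.single A hA W t hC.t1 φ c y w₀ hw₀ hc
      (fun w hw hwc hne => ⟨(hst w hw hwc hne).2.2.1, (hst w hw hwc hne).2.2.2⟩) x hx e he
  · intro x hx hxs
    obtain ⟨e, he⟩ := Submodule.mem_span_singleton.1 hxs
    rcases FLIM.cases3 e with h0 | h0 | h0
    · rw [h0, zero_smul] at he
      rw [sub_eq_zero.1 he.symm] at hx
      exact hC.ns hx
    · rw [h0, one_smul] at he
      refine hcon.1 ?_
      have : y + s - t + w₀ = x := by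
        rw [← sub_add_cancel x (s - t), ← he]
        abel
      rw [this]
      exact hx
    · rw [h0, neg_smul, one_smul] at he
      refine hcon.2 ?_
      have : y - s + t + w₀ = -x := by
        rw [← sub_add_cancel x (s - t), ← he]
        abel
      rw [this]
      exact hA.2 x hx

end Pool.Agent.Lib.MP_b63a06_co.TR
end
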