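import Pool.Agent.Lib.MP_b63a06_co.TR.SpecA

section
set_option autoImplicit false

namespace Pool.Agent.Lib.MP_b63a06_co.TR

namespace HQRM

variable {V : Type} [AddCommGroup V] [Module (ZMod 3) V]

theorem zmod3_cases (c : ZMod 3) : c = 0 ∨ c = 1 ∨ c = -1 := by
  revert c; decide

end HQRM

open HQRM in
theorem specHQR (hFLI : SpecFLI) (hMEE : SpecMEE) : SpecHQR := by
  intro V _ _ _ A hA hQR W K hW hK hK0 hcard
  have hsmul : ∀ (x : V) (c : ZMod 3), c = 0 ∨ c = 1 ∨ c = -1 := fun _ c => zmod3_cases c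
  -- the flip
  have key : ∀ κ : V, ¬ (∃ a ∈ A, a - κ ∈ K) →
      MaxAv A (K ⊔ Submodule.span (ZMod 3) {κ}) ∧
      ∀ x, x ∈ K ⊔ Submodule.span (ZMod 3) {κ} ↔ ∃ c : ZMod 3, x - c • κ ∈ K := by
    intro κ hκ
    refine hFLI V A hA W K κ hW hK hcard ?_
    intro a ha h
    exact hκ ⟨a, ha, h⟩
  refine ⟨⟨0, hA.1, by simp⟩, ?_, ?_, ?_⟩
  · rintro x ⟨a, ha, h⟩
    refine ⟨-a, hA.2 a ha, ?_⟩
    have : -a - -x = -(a - x) := by abel
    rw [this]
    exact K.neg_mem h
  · intro κ hκ v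
    obtain ⟨hm, hx⟩ := key κ hκ
    obtain ⟨a, ha, hav⟩ := hMEE V A hA _ hm v
    obtain ⟨c, hc⟩ := (hx _).1 hav
    rcases zmod3_cases c with rfl | rfl | rfl
    · left
      exact ⟨a, ha, by simpa using hc⟩
    · right; left
      refine ⟨a, ha, ?_⟩
      have : a - (v + κ) = a - v - (1 : ZMod 3) • κ := by rw [one_smul]; abel
      rw [this]; exact hc
    · right; right
      refine ⟨a, ha, ?_⟩
      have : a - (v - κ) = a - v - (-1 : ZMod 3) • κ := by rw [neg_smul, one_smul]; abel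
      rw [this]; exact hc
  · intro κ a b hκ hsa hsb
    obtain ⟨hm, hx⟩ := key κ hκ
    obtain ⟨⟨a', ha', haa⟩, ha1, ha2⟩ := hsa
    obtain ⟨⟨b', hb', hbb⟩, hb1, hb2⟩ := hsb
    have single : ∀ (u u' : V), u' - u ∈ K → ¬ (∃ a ∈ A, a - (u + κ) ∈ K) →
        ¬ (∃ a ∈ A, a - (u - κ) ∈ K) →
        ∀ x ∈ A, x - u' ∈ K ⊔ Submodule.span (ZMod 3) {κ} → x - u' ∈ K := by
      intro u u' huu h1 h2 x hxA hxm
      obtain ⟨c, hc⟩ := (hx _).1 hxm
      rcases zmod3_cases c with rfl | rfl | rfl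
      · simpa using hc
      · exfalso
        apply h1
        refine ⟨x, hxA, ?_⟩
        have : x - (u + κ) = (x - u' - (1 : ZMod 3) • κ) + (u' - u) := by rw [one_smul]; abel
        rw [this]
        exact K.add_mem hc huu
      · exfalso
        apply h2
        refine ⟨x, hxA, ?_⟩
        have : x - (u - κ) = (x - u' - (-1 : ZMod 3) • κ) + (u' - u) := by
          rw [neg_smul, one_smul]; abel
        rw [this]
        exact K.add_mem hc huu
    by_contra hcon
    apply hQR (K ⊔ Submodule.span (ZMod 3) {κ}) K a' b' hK0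
    refine ⟨hm, le_sup_left, ha', hb', single a a' haa ha1 ha2, single b b' hbb hb1 hb2, ?_⟩
    intro x hxA hxK
    apply hcon
    refine ⟨x, hxA, ?_⟩
    have : x - (a - b) = (x - (a' - b')) + ((a' - a) - (b' - b)) := by abel
    rw [this]
    exact K.add_mem hxK (K.sub_mem haa hbb)

end Pool.Agent.Lib.MP_b63a06_co.TR
end

section
set_option autoImplicit false
set_option linter.unusedSimpArgs false

/-!
# Module L1F: the finite classification without conflicts (helper95)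

The rules `RL` are read as clauses in the 27 variables `P a b i` (variable number
`i + 3 (a + 3 b)`). The lists `c0, c1, ...` code a decision tree in prefix order: a number below 27 is a
branching on this variable, a larger number names a clause which is false at this leaf, or the leaf is closed by
the number of elements, or it is one of the exceptional patterns. `chk` checks the tree.
-/

namespace Pool.Agent.Lib.MP_b63a06_co.TR

namespace L1FM

open Finset

/-- the number of a variable. -/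
def nx (a b i : ℕ) : ℕ := i % 3 + 3 * (a % 3 + 3 * (b % 3))

/-- the value of a variable. -/
def At (P : Pat) (v : ℕ) : Prop := P ((v / 3 : ℕ) : ZMod 3) ((v / 9 : ℕ) : ZMod 3) ((v : ℕ) : ZMod 3)

theorem three : (3 : ZMod 3) = 0 := rfl

theorem two : (2 : ZMod 3) = -1 := rfl

theorem at_nx (P : Pat) (a b i : ℕ) : At P (nx a b i) ↔ P (a : ZMod 3) (b : ZMod 3) (i : ZMod 3) := by
  have h1 : nx a b i / 3 = a % 3 + 3 * (b % 3) := by unfold nx; omega
  have h2 : nx a b i / 9 = b % 3 := by unfold nx; omega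
  unfold At
  rw [h1, h2]
  unfold nx
  push_cast
  rw [three, zero_mul, add_zero, zero_mul, add_zero]
  simp only [ZMod.natCast_mod]

/-- a clause: positive and negative variables. -/
def Val (P : Pat) (c : List ℕ × List ℕ) : Prop := (∃ v ∈ c.1, At P v) ∨ ∃ v ∈ c.2, ¬ At P v

def c_def : List ℕ × List ℕ := ([nx 0 0 0], [])
def c_vert (a b : ℕ) : List ℕ × List ℕ := ([nx a b 0, nx a b 1, nx a b 2], [])
def c_ln1 (a b i j : ℕ) : List ℕ × List ℕ :=
  ([nx a b i, nx (a + 1) b (i + j), nx (a + 2) b (i + 2 * j)], [])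
def c_ln2 (a b i j : ℕ) : List ℕ × List ℕ :=
  ([nx a b i, nx a (b + 1) (i + j), nx a (b + 2) (i + 2 * j)], [])
def c_sn (a b i x y : ℕ) : List ℕ × List ℕ :=
  ([nx a b (i + 1), nx a b (i + 2), nx x y i], [nx a b i])
def c_th (a b i A B I : ℕ) : List ℕ × List ℕ :=
  ([nx a b (i + 1), nx a b (i + 2), nx A B (I + 1), nx A B (I + 2),
    nx (2 * a + 2 * A) (2 * b + 2 * B) (2 * i + 2 * I)], [nx a b i, nx A B I])
def c_hs (j a b i A B I : ℕ) : List ℕ × List ℕ :=
  ([nx (a + 1) b (i + j), nx (a + 2) b (i + 2 * j), nx (A + 1) B (I + j), nx (A + 2) B (I + 2 * j),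
    nx (2 * a + 2 * A) (2 * b + 2 * B) (2 * i + 2 * I)], [nx a b i, nx A B I])
def c_ht (j a b i A B I : ℕ) : List ℕ × List ℕ :=
  ([nx a (b + 1) (i + j), nx a (b + 2) (i + 2 * j), nx A (B + 1) (I + j), nx A (B + 2) (I + 2 * j),
    nx (2 * a + 2 * A) (2 * b + 2 * B) (2 * i + 2 * I)], [nx a b i, nx A B I])
def c_k1 (a b i j x y : ℕ) : List ℕ × List ℕ :=
  if i % 3 = j % 3 then c_def else
  ([nx a b j, nx (a + x) b (2 * i + 2 * j), nx a (b + y) (2 * i + 2 * j), nx (a + x) (b + y) i],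
    [nx (a + 2 * x) b i, nx a (b + 2 * y) i])

theorem v_def (P : Pat) (h : RL P) : Val P c_def := by
  left
  refine ⟨nx 0 0 0, List.mem_cons_self, ?_⟩
  rw [at_nx]
  simpa using h.p0

theorem v_vert (P : Pat) (h : RL P) (a b : ℕ) : Val P (c_vert a b) := by
  obtain ⟨i, hi⟩ := h.vert (a : ZMod 3) (b : ZMod 3)
  simp only [Val, c_vert, List.mem_cons, List.not_mem_nil, or_false, exists_eq_or_imp,
    exists_eq_left, at_nx, false_and, exists_false, Nat.cast_zero, Nat.cast_one, Nat.cast_ofNat]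
  have hc : ∀ k : ZMod 3, k = 0 ∨ k = 1 ∨ k = 2 := by decide
  rcases hc i with rfl | rfl | rfl
  · exact Or.inl hi
  · exact Or.inr (Or.inl hi)
  · exact Or.inr (Or.inr hi)

theorem v_ln1 (P : Pat) (h : RL P) (a b i j : ℕ) (hj : (j : ZMod 3) ≠ 0) :
    Val P (c_ln1 a b i j) := by
  have := h.ln1 a b i j hj
  simp only [Val, c_ln1, List.mem_cons, List.not_mem_nil, or_false, exists_eq_or_imp,
    exists_eq_left, at_nx, false_and, exists_false, Nat.cast_add, Nat.cast_mul, Nat.cast_one,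
    Nat.cast_ofNat, two, neg_one_mul, ← sub_eq_add_neg]
  exact this

theorem v_ln2 (P : Pat) (h : RL P) (a b i j : ℕ) (hj : (j : ZMod 3) ≠ 0) :
    Val P (c_ln2 a b i j) := by
  have := h.ln2 a b i j hj
  simp only [Val, c_ln2, List.mem_cons, List.not_mem_nil, or_false, exists_eq_or_imp,
    exists_eq_left, at_nx, false_and, exists_false, Nat.cast_add, Nat.cast_mul, Nat.cast_one,
    Nat.cast_ofNat, two, neg_one_mul, ← sub_eq_add_neg]
  exact this

theorem v_sn (P : Pat) (a b i x y : ℕ)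
    (h : P (a : ZMod 3) b i → ¬ P (a : ZMod 3) b (i + 1) → ¬ P (a : ZMod 3) b (i - 1) →
      P (x : ZMod 3) y i) :
    Val P (c_sn a b i x y) := by
  simp only [Val, c_sn, List.mem_cons, List.not_mem_nil, or_false, exists_eq_or_imp,
    exists_eq_left, at_nx, false_and, exists_false, Nat.cast_add, Nat.cast_mul, Nat.cast_one,
    Nat.cast_ofNat, two, neg_one_mul, ← sub_eq_add_neg]
  tauto

theorem v_th (P : Pat) (h : RL P) (a b i A B I : ℕ) : Val P (c_th a b i A B I) := by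
  have := h.th a b i A B I
  simp only [Val, c_th, List.mem_cons, List.not_mem_nil, or_false, exists_eq_or_imp,
    exists_eq_left, at_nx, false_and, exists_false, Nat.cast_add, Nat.cast_mul, Nat.cast_one,
    Nat.cast_ofNat, two, neg_one_mul, ← sub_eq_add_neg]
  tauto

theorem v_hs (P : Pat) (h : RL P) (j a b i A B I : ℕ) (hj : (j : ZMod 3) ≠ 0) :
    Val P (c_hs j a b i A B I) := by
  have := h.hs j hj a b i A B I
  simp only [Val, c_hs, List.mem_cons, List.not_mem_nil, or_false, exists_eq_or_imp,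
    exists_eq_left, at_nx, false_and, exists_false, Nat.cast_add, Nat.cast_mul, Nat.cast_one,
    Nat.cast_ofNat, two, neg_one_mul, ← sub_eq_add_neg]
  tauto

theorem v_ht (P : Pat) (h : RL P) (j a b i A B I : ℕ) (hj : (j : ZMod 3) ≠ 0) :
    Val P (c_ht j a b i A B I) := by
  have := h.ht j hj a b i A B I
  simp only [Val, c_ht, List.mem_cons, List.not_mem_nil, or_false, exists_eq_or_imp,
    exists_eq_left, at_nx, false_and, exists_false, Nat.cast_add, Nat.cast_mul, Nat.cast_one,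
    Nat.cast_ofNat, two, neg_one_mul, ← sub_eq_add_neg]
  tauto

theorem v_k1 (P : Pat) (h : RL P) (a b i j x y : ℕ) (hx : (x : ZMod 3) ≠ 0)
    (hy : (y : ZMod 3) ≠ 0) : Val P (c_k1 a b i j x y) := by
  unfold c_k1
  split_ifs with hij
  · exact v_def P h
  · have hij' : (i : ZMod 3) ≠ (j : ZMod 3) := by
      intro he
      exact hij ((ZMod.natCast_eq_natCast_iff' i j 3).mp he)
    have := h.k1 a b i j x y hij' hx hy
    simp only [Val, List.mem_cons, List.not_mem_nil, or_false, exists_eq_or_imp,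
      exists_eq_left, at_nx, false_and, exists_false, Nat.cast_add, Nat.cast_mul, Nat.cast_one,
      Nat.cast_ofNat, two, neg_one_mul, ← sub_eq_add_neg]
    tauto

/-- the clauses. -/
def cl (t a b i A B I : ℕ) : List ℕ × List ℕ :=
  match t with
  | 1 => c_vert a b
  | 2 => c_ln1 a b i 1
  | 3 => c_ln1 a b i 2
  | 4 => c_ln2 a b i 1
  | 5 => c_ln2 a b i 2
  | 6 => c_sn a b i (a + 1) b
  | 7 => c_sn a b i (a + 2) b
  | 8 => c_sn a b i a (b + 1)
  | 9 => c_sn a b i a (b + 2)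
  | 10 => c_th a b i A B I
  | 11 => c_hs 1 a b i A B I
  | 12 => c_hs 2 a b i A B I
  | 13 => c_ht 1 a b i A B I
  | 14 => c_ht 2 a b i A B I
  | 15 => c_k1 a b i A 1 1
  | 16 => c_k1 a b i A 1 2
  | 17 => c_k1 a b i A 2 1
  | 18 => c_k1 a b i A 2 2
  | _ => c_def

theorem one_ne : ((1 : ℕ) : ZMod 3) ≠ 0 := by decide

theorem two_ne : ((2 : ℕ) : ZMod 3) ≠ 0 := by decide

theorem cl_val (P : Pat) (h : RL P) (t a b i A B I : ℕ) : Val P (cl t a b i A B I) := by
  unfold cl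
  split
  · exact v_vert P h a b
  · exact v_ln1 P h a b i 1 one_ne
  · exact v_ln1 P h a b i 2 two_ne
  · exact v_ln2 P h a b i 1 one_ne
  · exact v_ln2 P h a b i 2 two_ne
  · refine v_sn P a b i _ _ fun h1 h2 h3 => ?_
    have := (h.sn a b i h1 h2 h3).1
    simpa using this
  · refine v_sn P a b i _ _ fun h1 h2 h3 => ?_
    have := (h.sn a b i h1 h2 h3).2.1
    simpa [two, ← sub_eq_add_neg] using this
  · refine v_sn P a b i _ _ fun h1 h2 h3 => ?_
    have := (h.sn a b i h1 h2 h3).2.2.1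
    simpa using this
  · refine v_sn P a b i _ _ fun h1 h2 h3 => ?_
    have := (h.sn a b i h1 h2 h3).2.2.2
    simpa [two, ← sub_eq_add_neg] using this
  · exact v_th P h a b i A B I
  · exact v_hs P h 1 a b i A B I one_ne
  · exact v_hs P h 2 a b i A B I two_ne
  · exact v_ht P h 1 a b i A B I one_ne
  · exact v_ht P h 2 a b i A B I two_ne
  · exact v_k1 P h a b i A 1 1 one_ne one_ne
  · exact v_k1 P h a b i A 1 2 one_ne two_ne
  · exact v_k1 P h a b i A 2 1 two_ne one_ne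
  · exact v_k1 P h a b i A 2 2 two_ne two_ne
  · exact v_def P h

/-- `P` agrees with the masks of the true and of the false variables. -/
def Agree (P : Pat) (T F : ℕ) : Prop :=
  (∀ v, T.testBit v = true → At P v) ∧ ∀ v, F.testBit v = true → ¬ At P v

/-- the clause is false. -/
def fals (T F : ℕ) (c : List ℕ × List ℕ) : Bool :=
  c.1.all (fun v => F.testBit v) && c.2.all (fun v => T.testBit v)

theorem fals_ok (P : Pat) (T F : ℕ) (c : List ℕ × List ℕ) (ha : Agree P T F) (hv : Val P c) :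
    fals T F c ≠ true := by
  intro hf
  unfold fals at hf
  rw [Bool.and_eq_true, List.all_eq_true, List.all_eq_true] at hf
  rcases hv with ⟨v, hv, h1⟩ | ⟨v, hv, h1⟩
  · exact ha.2 v (hf.1 v hv) h1
  · exact h1 (ha.1 v (hf.2 v hv))

/-- the pattern of a mask. -/
def Pt (T : ℕ) : Pat := fun a b i => T.testBit (nx a.val b.val i.val) = true

instance (T : ℕ) (a b i : ZMod 3) : Decidable (Pt T a b i) := by unfold Pt; infer_instance

/-- number of indices at a position. -/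
def szD (T : ℕ) (a b : ZMod 3) : ℕ := (univ.filter fun i : ZMod 3 => Pt T a b i).card

theorem sz_Pt (T : ℕ) (a b : ZMod 3) : sz (Pt T) a b = szD T a b := by
  unfold sz szD
  rw [Set.ncard_eq_toFinset_card']
  congr 1
  ext x
  simp

/-- decidable form of `Exc`. -/
def ExcD (T : ℕ) : Prop :=
  (univ.filter fun p : ZMod 3 × ZMod 3 × ZMod 3 => Pt T p.1 p.2.1 p.2.2).card = 17 ∧
  ∃ α β : ZMod 3, α ≠ 0 ∧ β ≠ 0 ∧ ¬ Pt T α β 0 ∧
  (∀ a b, ¬ (a = α ∧ b = β) → Pt T a b 0) ∧ (∀ b, szD T α b = 2) ∧ (∀ a, szD T a β = 2) ∧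
  (∃ b, szD T (-α) b ≠ 2) ∧ (∃ a, szD T a (-β) ≠ 2) ∧
  ((univ.filter fun p : ZMod 3 × ZMod 3 => Pt T p.1 p.2 1).card = 4 ∨
    (univ.filter fun p : ZMod 3 × ZMod 3 => Pt T p.1 p.2 1).card = 5)

instance (T : ℕ) : Decidable (ExcD T) := by unfold ExcD; infer_instance

theorem exc_of (T : ℕ) (h : ExcD T) : Exc (Pt T) := by
  unfold Exc
  simp only [sz_Pt]
  have h1 : TT (Pt T) =
      (univ.filter fun p : ZMod 3 × ZMod 3 × ZMod 3 => Pt T p.1 p.2.1 p.2.2).card := by
    unfold TT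
    rw [Set.ncard_eq_toFinset_card']
    congr 1
    ext x
    simp
  have h2 : {p : ZMod 3 × ZMod 3 | Pt T p.1 p.2 1}.ncard =
      (univ.filter fun p : ZMod 3 × ZMod 3 => Pt T p.1 p.2 1).card := by
    rw [Set.ncard_eq_toFinset_card']
    congr 1
    ext x
    simp
  rw [h1, h2]
  exact h

theorem eq_Pt (P : Pat) (T F : ℕ) (ha : Agree P T F) (hf : T ||| F = 2 ^ 27 - 1) : P = Pt T := by
  have hv : ∀ v, v < 27 → (At P v ↔ T.testBit v = true) := by
    intro v hv
    constructor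
    · intro h1
      by_contra h2
      have h3 : (T ||| F).testBit v = true := by
        rw [hf, Nat.testBit_two_pow_sub_one]
        simpa using hv
      rw [Nat.testBit_or, Bool.or_eq_true] at h3
      rcases h3 with h3 | h3
      · exact h2 h3
      · exact ha.2 v h3 h1
    · exact ha.1 v
  funext a b i
  have h1 := hv (nx a.val b.val i.val) (by unfold nx; omega)
  rw [at_nx] at h1
  simp only [ZMod.natCast_val, ZMod.cast_id', id_eq] at h1
  exact propext h1

/-- lower bound for the number of elements at a position. -/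
def wt (T a b : ℕ) : ℕ :=
  max 1 ((T.testBit (nx a b 0)).toNat + (T.testBit (nx a b 1)).toNat + (T.testBit (nx a b 2)).toNat)

/-- lower bound for the number of elements. -/
def low (T : ℕ) : ℕ :=
  (wt T 0 0 + wt T 0 1 + wt T 0 2) + (wt T 1 0 + wt T 1 1 + wt T 1 2) +
    (wt T 2 0 + wt T 2 1 + wt T 2 2)

theorem wt_le (P : Pat) (h : RL P) (T F : ℕ) (ha : Agree P T F) (a b : ℕ) :
    wt T a b ≤ sz P (a : ZMod 3) (b : ZMod 3) := by
  classical
  unfold wt
  refine max_le ?_ ?_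
  · obtain ⟨i, hi⟩ := h.vert (a : ZMod 3) (b : ZMod 3)
    unfold sz
    rw [Nat.one_le_iff_ne_zero]
    exact Set.ncard_ne_zero_of_mem (a := i) hi
  · have hs : sz P (a : ZMod 3) (b : ZMod 3) =
        ∑ i : ZMod 3, if P (a : ZMod 3) (b : ZMod 3) i then 1 else 0 := by
      unfold sz
      rw [Set.ncard_eq_toFinset_card', ← Finset.card_filter]
      congr 1
      ext x
      simp
    have h3 : (∑ i : ZMod 3, if P (a : ZMod 3) (b : ZMod 3) i then 1 else 0) =
        (if P (a : ZMod 3) (b : ZMod 3) 0 then 1 else 0) +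
        (if P (a : ZMod 3) (b : ZMod 3) 1 then 1 else 0) +
        (if P (a : ZMod 3) (b : ZMod 3) 2 then 1 else 0) :=
      Fin.sum_univ_three (fun i : Fin 3 => if P (a : ZMod 3) (b : ZMod 3) i then 1 else 0)
    rw [hs, h3]
    have key : ∀ k : ℕ, (T.testBit (nx a b k)).toNat ≤
        if P (a : ZMod 3) (b : ZMod 3) (k : ZMod 3) then 1 else 0 := by
      intro k
      split_ifs with hk
      · exact Bool.toNat_le _
      · have : T.testBit (nx a b k) = false := by
          by_contra hc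
          rw [Bool.not_eq_false] at hc
          exact hk ((at_nx P a b k).mp (ha.1 _ hc))
        rw [this]
        exact le_refl 0
    have k0 := key 0
    have k1 := key 1
    have k2 := key 2
    rw [Nat.cast_zero] at k0
    rw [Nat.cast_one] at k1
    rw [Nat.cast_ofNat] at k2
    exact add_le_add (add_le_add k0 k1) k2

theorem TT_sum (P : Pat) : TT P =
    (sz P 0 0 + sz P 0 1 + sz P 0 2) + (sz P 1 0 + sz P 1 1 + sz P 1 2) +
      (sz P 2 0 + sz P 2 1 + sz P 2 2) := by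
  classical
  have hs : ∀ a b : ZMod 3, sz P a b = ∑ i : ZMod 3, if P a b i then 1 else 0 := by
    intro a b
    unfold sz
    rw [Set.ncard_eq_toFinset_card', ← Finset.card_filter]
    congr 1
    ext x
    simp
  have h1 : TT P = ∑ a : ZMod 3, ∑ b : ZMod 3, sz P a b := by
    unfold TT
    rw [Set.ncard_eq_toFinset_card']
    have : {p : ZMod 3 × ZMod 3 × ZMod 3 | P p.1 p.2.1 p.2.2}.toFinset =
        univ.filter fun p : ZMod 3 × ZMod 3 × ZMod 3 => P p.1 p.2.1 p.2.2 := by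
      ext x
      simp
    rw [this, Finset.card_filter, Fintype.sum_prod_type]
    refine Finset.sum_congr rfl fun a _ => ?_
    rw [Fintype.sum_prod_type]
    exact Finset.sum_congr rfl fun b _ => (hs a b).symm
  rw [h1]
  have h3 : ∀ f : ZMod 3 → ℕ, ∑ i : ZMod 3, f i = f 0 + f 1 + f 2 :=
    fun f => Fin.sum_univ_three (fun i : Fin 3 => f i)
  rw [h3, h3, h3, h3]

theorem low_le (P : Pat) (h : RL P) (T F : ℕ) (ha : Agree P T F) : low T ≤ TT P := by
  rw [TT_sum]
  have k := fun a b => wt_le P h T F ha a b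
  have k00 := k 0 0
  have k01 := k 0 1
  have k02 := k 0 2
  have k10 := k 1 0
  have k11 := k 1 1
  have k12 := k 1 2
  have k20 := k 2 0
  have k21 := k 2 1
  have k22 := k 2 2
  simp only [Nat.cast_zero, Nat.cast_one, Nat.cast_ofNat] at k00 k01 k02 k10 k11 k12 k20 k21 k22
  unfold low
  omega

/-- the leaves. -/
def leaf (c T F : ℕ) : Bool :=
  if c / 729 = 19 then Nat.ble 18 (low T)
  else if c / 729 = 20 then Nat.beq (T ||| F) 134217727 && decide (ExcD T)
  else fals T F (cl (c / 729) (c % 729 / 243) (c % 243 / 81) (c % 81 / 27) (c % 27 / 9)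
    (c % 9 / 3) (c % 3))

theorem leaf_ok (P : Pat) (h : RL P) (ht : TT P ≤ 17) (c T F : ℕ) (ha : Agree P T F)
    (hl : leaf c T F = true) : Exc P := by
  unfold leaf at hl
  split_ifs at hl with h1 h2
  · have h3 := low_le P h T F ha
    have h4 : 18 ≤ low T := Nat.le_of_ble_eq_true hl
    omega
  · rw [Bool.and_eq_true] at hl
    have h3 : T ||| F = 2 ^ 27 - 1 := by
      have := Nat.eq_of_beq_eq_true hl.1
      simpa using this
    rw [eq_Pt P T F ha h3]
    exact exc_of T (of_decide_eq_true hl.2)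
  · exact absurd hl (fals_ok P T F _ ha (cl_val P h _ _ _ _ _ _ _))

/-- the checker. -/
def chk : List ℕ → List (ℕ × ℕ) → Bool
  | [], [] => true
  | [], _ :: _ => false
  | _ :: _, [] => false
  | c :: cs, s :: st =>
    bif Nat.blt c 27 then chk cs ((s.1, s.2 ||| 2 ^ c) :: (s.1 ||| 2 ^ c, s.2) :: st)
    else bif leaf c s.1 s.2 then chk cs st else false

theorem agree_F (P : Pat) (T F c : ℕ) (ha : Agree P T F) (hc : ¬ At P c) :
    Agree P T (F ||| 2 ^ c) := by
  refine ⟨ha.1, fun v hv => ?_⟩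
  rw [Nat.testBit_or, Bool.or_eq_true, Nat.testBit_two_pow] at hv
  rcases hv with hv | hv
  · exact ha.2 v hv
  · have : c = v := of_decide_eq_true hv
    rwa [← this]

theorem agree_T (P : Pat) (T F c : ℕ) (ha : Agree P T F) (hc : At P c) :
    Agree P (T ||| 2 ^ c) F := by
  refine ⟨fun v hv => ?_, ha.2⟩
  rw [Nat.testBit_or, Bool.or_eq_true, Nat.testBit_two_pow] at hv
  rcases hv with hv | hv
  · exact ha.1 v hv
  · have : c = v := of_decide_eq_true hv
    rwa [← this]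

theorem chk_ok (P : Pat) (h : RL P) (ht : TT P ≤ 17) : ∀ (cs : List ℕ) (st : List (ℕ × ℕ)),
    chk cs st = true → ∀ s ∈ st, Agree P s.1 s.2 → Exc P := by
  intro cs
  induction cs with
  | nil =>
    intro st hc s hs
    cases st with
    | nil => exact absurd hs List.not_mem_nil
    | cons s' st' => exact absurd hc (by simp [chk])
  | cons c cs ih =>
    intro st hc s hs ha
    cases st with
    | nil => exact absurd hs List.not_mem_nil
    | cons s' st' =>
      rw [chk] at hc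
      cases hb : Nat.blt c 27 with
      | true =>
        rw [hb, cond_true] at hc
        rw [List.mem_cons] at hs
        rcases hs with rfl | hs
        · by_cases hp : At P c
          · exact ih _ hc (s.1 ||| 2 ^ c, s.2) (by simp) (agree_T P _ _ c ha hp)
          · exact ih _ hc (s.1, s.2 ||| 2 ^ c) (by simp) (agree_F P _ _ c ha hp)
        · exact ih _ hc s (by simp [hs]) ha
      | false =>
        rw [hb, cond_false] at hc
        cases hl : leaf c s'.1 s'.2 with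
        | true =>
          rw [hl, cond_true] at hc
          rw [List.mem_cons] at hs
          rcases hs with rfl | hs
          · exact leaf_ok P h ht c _ _ ha hl
          · exact ih _ hc s hs ha
        | false =>
          rw [hl, cond_false] at hc
          exact absurd hc Bool.false_ne_true

def c0 : List ℕ := [3, 4374, 6, 5103, 9, 5832, 18, 6561, 13, 14, 1053, 17, 4752, 11, 5481, 23,
  6210, 5, 6939, 25, 7304, 4, 10, 10953, 7, 20, 10304, 8, 15, 6318, 24, 7047, 19, 7686, 16,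
  12042, 26, 10686, 13851, 26, 15, 4158, 24, 6507, 10686, 19, 24, 9581, 21, 11682, 15, 22, 8901,
  13851, 13851, 22, 15, 8901, 24, 8982, 13851, 15, 16, 21, 24, 10523, 13851, 13851, 13851, 13851,
  8, 16, 12042, 19, 21, 11682, 26, 9006, 24, 20, 5265, 22, 8982, 13851, 15, 22, 8901, 13851,
  13851, 24, 20, 13131, 22, 8982, 15, 21, 26, 11322, 13851, 13851, 13851, 15, 22, 8901, 21, 26,
  11322, 13851, 13851, 20, 21, 22, 5562, 13851, 13851, 13851, 15, 22, 8901, 21, 19, 11682, 26,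
  11322, 16, 24, 10523, 13851, 13851, 16, 26, 6453, 19, 20, 7475, 13851, 13851, 19, 20, 24, 5265,
  13851, 13851, 13851, 19, 21, 11682, 24, 20, 5265, 26, 5049, 13851, 16, 22, 26, 8160, 13851,
  13851, 13851, 16, 21, 22, 7307, 24, 10523, 13851, 22, 26, 8160, 13851, 13851, 20, 21, 22, 5562,
  13851, 13851, 13851, 7, 8, 15, 6318, 24, 7047, 19, 7686, 20, 26, 10308, 22, 21, 5562, 10, 9488,
  13851, 10, 16, 21, 10379, 13851, 13851, 13851, 10, 21, 16, 10379, 22, 7767, 13851, 16, 22, 26,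
  8160, 13851, 13851, 13851, 16, 21, 22, 7307, 13851, 13851, 13851, 26, 15, 4158, 24, 6507, 20,
  10308, 19, 21, 2376, 10, 9176, 13851, 16, 22, 8160, 13851, 13851, 19, 24, 9581, 20, 7466, 10,
  15, 12411, 16, 21, 10379, 13851, 13851, 15, 16, 22, 7313, 13851, 13851, 13851, 10, 15, 12411,
  16, 21, 10379, 24, 10388, 13851, 20, 22, 9488, 13851, 13851, 15, 16, 22, 7313, 21, 24, 10523,
  13851, 13851, 20, 21, 22, 5562, 13851, 13851, 13851, 16, 21, 22, 7307, 13851, 13851, 13851, 8,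
  16, 24, 4185, 15, 7182, 10, 21, 10379, 19, 9014, 20, 22, 11844, 13851, 13851, 22, 21, 7307, 26,
  8160, 13851, 19, 20, 21, 4536, 13851, 13851, 13851, 10, 19, 9014, 20, 24, 13131, 22, 11844, 15,
  21, 26, 11322, 13851, 13851, 13851, 15, 21, 26, 11322, 22, 24, 8891, 13851, 13851, 22, 24,
  8891, 13851, 13851, 21, 22, 26, 4833, 13851, 13851, 13851, 20, 24, 13131, 19, 21, 4536, 26,
  9006, 13851, 21, 22, 5562, 13851, 13851, 15, 26, 21, 11322, 19, 9006, 13851, 22, 24, 8891,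
  13851, 13851, 19, 21, 26, 2376, 13851, 13851, 13851, 10, 16, 21, 10379, 24, 10388, 15, 26,
  6453, 22, 7313, 13851, 19, 26, 9176, 13851, 13851, 20, 22, 12771, 19, 21, 4536, 24, 5265,
  13851, 15, 21, 26, 11322, 13851, 13851, 13851, 15, 26, 21, 11322, 19, 9176, 13851, 22, 24,
  8891, 13851, 13851, 19, 21, 26, 2376, 13851, 13851, 13851, 15, 16, 26, 6453, 22, 7313, 21, 24,
  10523, 13851, 13851, 21, 26, 11322, 19, 20, 4536, 13851, 13851, 19, 20, 24, 5265, 13851, 13851,
  13851, 16, 21, 22, 7307, 24, 10523, 13851, 22, 26, 8160, 13851, 13851, 19, 20, 21, 4536, 13851,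
  13851, 13851, 14, 16, 4725, 10, 5454, 22]

def c1 : List ℕ := [6183, 4, 6912, 26, 7303, 5, 11, 10944, 7, 17, 12015, 8, 15, 6318, 24, 7047,
  19, 9574, 20, 7659, 25, 9930, 13851, 20, 21, 11673, 25, 8277, 24, 19, 5265, 23, 8226, 13851,
  15, 23, 8145, 13851, 13851, 24, 19, 13140, 23, 8226, 15, 21, 25, 11304, 13851, 13851, 13851,
  15, 23, 8145, 21, 25, 11304, 13851, 13851, 19, 21, 23, 5535, 13851, 13851, 13851, 8, 19, 9574,
  25, 15, 3456, 24, 6534, 9930, 20, 24, 10309, 21, 11673, 15, 23, 8145, 13851, 13851, 23, 15,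
  8145, 24, 8226, 13851, 15, 17, 21, 24, 9766, 13851, 13851, 13851, 13851, 15, 23, 8145, 21, 20,
  11673, 25, 11304, 17, 24, 9766, 13851, 13851, 17, 25, 6426, 19, 20, 7474, 13851, 13851, 19, 20,
  24, 5265, 13851, 13851, 13851, 20, 21, 11673, 24, 19, 5265, 25, 5076, 13851, 17, 23, 25, 8862,
  13851, 13851, 13851, 17, 21, 23, 7306, 24, 9766, 13851, 23, 25, 8862, 13851, 13851, 19, 21, 23,
  5535, 13851, 13851, 13851, 7, 8, 15, 6318, 24, 7047, 20, 7659, 19, 25, 9579, 23, 21, 5535, 11,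
  10216, 13851, 11, 17, 21, 9649, 13851, 13851, 13851, 11, 21, 17, 9649, 23, 7740, 13851, 17, 23,
  25, 8862, 13851, 13851, 13851, 17, 21, 23, 7306, 13851, 13851, 13851, 17, 24, 3429, 15, 7155,
  11, 21, 9649, 20, 8284, 19, 23, 11835, 13851, 13851, 23, 21, 7306, 25, 8862, 13851, 19, 20, 21,
  4536, 13851, 13851, 13851, 11, 20, 8284, 19, 24, 13140, 23, 11835, 15, 21, 25, 11304, 13851,
  13851, 13851, 15, 21, 25, 11304, 23, 24, 8134, 13851, 13851, 23, 24, 8134, 13851, 13851, 21,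
  23, 25, 4806, 13851, 13851, 13851, 19, 24, 13140, 20, 21, 4536, 25, 8277, 13851, 21, 23, 5535,
  13851, 13851, 15, 25, 21, 11304, 20, 8277, 13851, 23, 24, 8134, 13851, 13851, 20, 21, 25, 1674,
  13851, 13851, 13851, 8, 25, 15, 3456, 24, 6534, 19, 9579, 20, 21, 1674, 11, 8446, 13851, 17,
  23, 8862, 13851, 13851, 20, 24, 10309, 19, 7465, 11, 15, 12402, 17, 21, 9649, 13851, 13851, 15,
  17, 23, 7312, 13851, 13851, 13851, 11, 15, 12402, 17, 21, 9649, 24, 9658, 13851, 19, 23, 10216,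
  13851, 13851, 15, 17, 23, 7312, 21, 24, 9766, 13851, 13851, 19, 21, 23, 5535, 13851, 13851,
  13851, 17, 21, 23, 7306, 13851, 13851, 13851, 11, 17, 21, 9649, 24, 9658, 15, 25, 6426, 23,
  7312, 13851, 19, 23, 11835, 13851, 13851, 19, 23, 12744, 20, 21, 4536, 24, 5265, 13851, 15, 21,
  25, 11304, 13851, 13851, 13851, 15, 25, 21, 11304, 20, 8446, 13851, 23, 24, 8134, 13851, 13851,
  20, 21, 25, 1674, 13851, 13851, 13851, 15, 17, 25, 6426, 23, 7312, 21, 24, 9766, 13851, 13851,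
  21, 25, 11304, 19, 20, 4536, 13851, 13851, 19, 20, 24, 5265, 13851, 13851, 13851, 17, 21, 23,
  7306, 24, 9766, 13851, 23, 25, 8862, 13851, 13851, 19, 20, 21, 4536, 13851, 13851, 13851, 4, 5,
  6075, 23, 3915, 10, 10953, 16, 11, 1593, 8, 12042, 17, 15, 1296, 5670, 22, 21, 7307, 15, 7313,
  26]

def c2 : List ℕ := [8160, 7, 20, 10304, 25, 8163, 13851, 19, 25, 9569, 13851, 13851, 7, 20,
  10304, 25, 8163, 15, 26, 4158, 19, 21, 9572, 13851, 13851, 26, 10686, 13851, 19, 21, 9572, 15,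
  26, 6453, 20, 7475, 13851, 13851, 15, 26, 6453, 20, 21, 25, 1674, 13851, 13851, 13851, 13851,
  7, 20, 10304, 26, 15, 4158, 10686, 24, 8, 7047, 17, 3429, 11, 9662, 19, 13140, 15, 22, 25,
  9794, 13851, 13851, 13851, 21, 11, 9653, 17, 9879, 19, 11682, 8, 15, 6318, 13851, 13851, 15, 8,
  6318, 17, 7155, 22, 25, 9794, 13851, 13851, 8, 19, 25, 9579, 11, 17, 22, 14580, 13851, 13851,
  13851, 11, 17, 22, 25, 14580, 13851, 13851, 13851, 13851, 11, 17, 19, 22, 25, 9569, 13851,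
  13851, 13851, 13851, 13851, 19, 21, 11682, 8, 26, 9006, 25, 15, 3456, 24, 6534, 22, 9569, 9579,
  11, 15, 12402, 20, 24, 5265, 17, 22, 14580, 13851, 13851, 17, 22, 24, 12132, 13851, 13851,
  13851, 20, 24, 5265, 15, 22, 9258, 13851, 13851, 15, 17, 22, 24, 12132, 13851, 13851, 13851,
  13851, 20, 24, 5265, 25, 26, 7314, 22, 9569, 11, 8446, 13851, 15, 11, 9117, 22, 9258, 13851,
  11, 17, 22, 26, 14580, 13851, 13851, 13851, 13851, 22, 25, 9569, 24, 26, 5049, 17, 12132,
  13851, 11, 15, 26, 13293, 13851, 13851, 13851, 11, 15, 26, 13293, 17, 25, 6426, 13851, 13851,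
  13851, 13851, 8, 15, 25, 3456, 11, 12402, 20, 24, 13131, 22, 9258, 17, 26, 8865, 13851, 13851,
  17, 26, 8865, 22, 24, 12132, 13851, 13851, 21, 22, 26, 4833, 13851, 13851, 13851, 17, 26, 8865,
  24, 25, 6534, 20, 13131, 22, 12132, 13851, 21, 25, 13626, 20, 22, 5562, 13851, 13851, 11, 20,
  25, 8446, 13851, 13851, 13851, 20, 24, 13131, 21, 25, 1674, 22, 5562, 13851, 11, 25, 8446,
  13851, 13851, 21, 25, 11394, 22, 26, 4833, 13851, 13851, 13851, 11, 15, 20, 9117, 25, 17, 6426,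
  22, 9794, 13851, 17, 21, 26, 8863, 22, 24, 12132, 13851, 13851, 22, 24, 12132, 13851, 13851,
  21, 22, 26, 4833, 13851, 13851, 13851, 17, 24, 22, 13005, 20, 9198, 13851, 26, 25, 7314, 21,
  8863, 13851, 20, 21, 25, 1674, 13851, 13851, 13851, 20, 21, 25, 1674, 22, 5562, 13851, 13851,
  13851, 15, 25, 17, 6426, 22, 9794, 13851, 17, 22, 24, 13005, 20, 9258, 13851, 21, 26, 8863,
  13851, 13851, 20, 21, 22, 5562, 13851, 13851, 13851, 17, 21, 26, 8863, 20, 25, 1674, 13851,
  13851, 13851, 13851, 11, 10, 4455, 16, 1593, 5, 10944, 7, 20, 8284, 15, 8, 6318, 26, 4158, 17,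
  7155, 19, 24, 13140, 23, 11835, 22, 25, 9569, 13851, 13851, 25, 22, 9794, 21, 23, 4806, 13851,
  13851, 13851, 24, 8, 7047, 17, 3429, 19, 13140, 13851, 25, 26, 7314, 19, 22, 9569, 8, 9579, 23,
  11835, 13851, 17, 23, 8862, 21, 9663, 13851, 13851, 17, 21, 9663, 23, 22, 6966, 19, 11835,
  13851, 8, 26, 8865, 13851, 13851, 19, 23, 11835, 21, 26, 2376, 13851, 13851, 13851, 8, 15,
  12402, 19, 23, 10216, 25, 9579, 20, 21, 4536]

def c3 : List ℕ := [24, 5265, 26, 9006, 13851, 21, 26, 2376, 17, 22, 24, 12132, 13851, 13851,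
  13851, 26, 9006, 13851, 17, 26, 8865, 24, 25, 6534, 20, 13131, 13851, 25, 23, 8862, 20, 21,
  1674, 13851, 13851, 13851, 20, 24, 13131, 21, 25, 1674, 13851, 25, 8446, 13851, 13851, 19, 23,
  12744, 20, 21, 4536, 24, 5265, 25, 8446, 15, 22, 9123, 13851, 13851, 26, 21, 2376, 15, 13293,
  13851, 22, 25, 9569, 17, 24, 12132, 13851, 13851, 15, 17, 25, 6426, 13851, 13851, 13851, 15,
  17, 25, 6426, 23, 7312, 22, 24, 13005, 20, 9123, 13851, 21, 26, 8863, 13851, 13851, 20, 22, 24,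
  2403, 25, 9794, 13851, 21, 25, 1674, 23, 26, 10297, 13851, 13851, 13851, 13851, 17, 20, 21, 25,
  1674, 26, 8863, 13851, 25, 8446, 22, 24, 2403, 13851, 13851, 13851, 13851, 5, 22, 3213, 17, 10,
  2295, 7, 12015, 16, 15, 1296, 5670, 23, 21, 7306, 15, 7312, 25, 8862, 8, 19, 9574, 26, 8865,
  13851, 19, 24, 1647, 13851, 13851, 8, 19, 9574, 26, 8865, 15, 25, 3456, 20, 21, 10300, 13851,
  13851, 25, 9930, 13851, 20, 21, 10300, 15, 25, 6426, 19, 7474, 13851, 13851, 15, 25, 6426, 19,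
  21, 26, 2376, 13851, 13851, 13851, 13851, 8, 19, 9574, 25, 15, 3456, 9930, 24, 7, 7047, 16,
  4185, 10, 10390, 20, 13131, 15, 23, 26, 10495, 13851, 13851, 13851, 21, 10, 10381, 16, 10581,
  20, 11673, 7, 15, 6318, 13851, 13851, 15, 7, 6318, 16, 7182, 23, 26, 10495, 13851, 13851, 7,
  20, 26, 10308, 10, 16, 23, 14580, 13851, 13851, 13851, 10, 16, 23, 26, 14580, 13851, 13851,
  13851, 13851, 10, 16, 20, 23, 26, 10297, 13851, 13851, 13851, 13851, 13851, 20, 21, 11673, 7,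
  25, 8277, 26, 15, 4158, 24, 6507, 23, 10297, 10308, 10, 15, 12411, 19, 24, 5265, 16, 23, 14580,
  13851, 13851, 16, 23, 24, 12114, 13851, 13851, 13851, 19, 24, 5265, 15, 23, 8529, 13851, 13851,
  15, 16, 23, 24, 12114, 13851, 13851, 13851, 13851, 19, 24, 5265, 26, 25, 7314, 23, 10297, 10,
  9176, 13851, 15, 10, 8415, 23, 8529, 13851, 10, 16, 23, 25, 14580, 13851, 13851, 13851, 13851,
  23, 26, 10297, 24, 25, 5076, 16, 12114, 13851, 10, 15, 25, 13302, 13851, 13851, 13851, 10, 15,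
  25, 13302, 16, 26, 6453, 13851, 13851, 13851, 13851, 7, 15, 26, 4158, 10, 12411, 19, 24, 13140,
  23, 8529, 16, 25, 8163, 13851, 13851, 16, 25, 8163, 23, 24, 12114, 13851, 13851, 21, 23, 25,
  4806, 13851, 13851, 13851, 16, 25, 8163, 24, 26, 6507, 19, 13140, 23, 12114, 13851, 21, 26,
  13617, 19, 23, 5535, 13851, 13851, 10, 19, 26, 9176, 13851, 13851, 13851, 19, 24, 13140, 21,
  26, 2376, 23, 5535, 13851, 10, 26, 9176, 13851, 13851, 21, 26, 11367, 23, 25, 4806, 13851,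
  13851, 13851, 10, 15, 19, 8415, 26, 16, 6453, 23, 10495, 13851, 16, 21, 25, 8162, 23, 24,
  12114, 13851, 13851, 23, 24, 12114, 13851, 13851, 21, 23, 25, 4806, 13851, 13851, 13851, 16,
  24, 23, 13023, 19, 8496, 13851, 25, 26, 7314]

def c4 : List ℕ := [21, 8162, 13851, 19, 21, 26, 2376, 13851, 13851, 13851, 19, 21, 26, 2376, 23,
  5535, 13851, 13851, 13851, 15, 26, 16, 6453, 23, 10495, 13851, 16, 23, 24, 13023, 19, 8529,
  13851, 21, 25, 8162, 13851, 13851, 19, 21, 23, 5535, 13851, 13851, 13851, 16, 21, 25, 8162, 19,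
  26, 2376, 13851, 13851, 13851, 13851, 10, 17, 2295, 7, 15, 12411, 8, 24, 7047, 19, 9014, 25,
  26, 7314, 16, 8163, 20, 21, 1674, 22, 9488, 13851, 13851, 20, 22, 9488, 26, 10308, 16, 21,
  10392, 13851, 13851, 16, 21, 10392, 22, 23, 6966, 13851, 13851, 13851, 20, 22, 9488, 26, 10308,
  19, 21, 4536, 24, 5265, 25, 8277, 13851, 21, 25, 1674, 16, 23, 24, 12114, 13851, 13851, 13851,
  25, 8277, 13851, 16, 25, 8163, 24, 26, 6507, 19, 13140, 13851, 26, 22, 8160, 19, 21, 2376,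
  13851, 13851, 13851, 19, 24, 13140, 21, 26, 2376, 13851, 26, 9176, 13851, 13851, 8, 19, 9014,
  16, 24, 4185, 15, 7182, 21, 10392, 22, 23, 6966, 26, 8160, 13851, 25, 26, 7314, 13851, 13851,
  20, 24, 13131, 22, 11844, 25, 21, 1674, 15, 3456, 13851, 23, 26, 10297, 13851, 13851, 15, 25,
  3456, 26, 23, 10495, 21, 22, 4833, 13851, 13851, 13851, 13851, 20, 22, 12771, 19, 21, 4536, 24,
  5265, 26, 9176, 15, 23, 8421, 13851, 13851, 25, 21, 1674, 15, 13302, 13851, 23, 26, 10297, 16,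
  24, 12114, 13851, 13851, 15, 16, 26, 6453, 13851, 13851, 13851, 15, 16, 26, 6453, 22, 7313, 23,
  24, 13023, 19, 8421, 13851, 21, 25, 8162, 13851, 13851, 19, 23, 24, 1647, 26, 10495, 13851, 21,
  26, 2376, 22, 25, 9569, 13851, 13851, 13851, 13851, 16, 19, 21, 26, 2376, 25, 8162, 13851, 26,
  9176, 22, 23, 6966, 13851, 13851, 13851, 13851, 7, 24, 8, 7047, 17, 3429, 19, 13140, 25, 26,
  1377, 20, 5076, 23, 5805, 16, 8163, 13851, 26, 6507, 16, 23, 12114, 15, 22, 7313, 13851, 13851,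
  13851, 26, 15, 4158, 25, 7314, 20, 10308, 17, 16, 5670, 8, 8865, 13851, 19, 21, 2376, 8, 9006,
  13851, 13851, 8, 15, 6318, 16, 17, 5670, 25, 8163, 19, 20, 7470, 13851, 13851, 19, 25, 9579,
  20, 7470, 13851, 17, 25, 23, 8862, 20, 21, 1674, 13851, 13851, 13851, 13851, 16, 25, 8163, 15,
  17, 1296, 22, 7313, 19, 20, 21, 4536, 13851, 13851, 13851, 17, 5670, 13851, 15, 17, 7155, 25,
  22, 9794, 20, 21, 1674, 13851, 13851, 13851, 17, 25, 23, 8862, 19, 22, 9569, 13851, 13851,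
  13851, 13851, 8, 24, 16, 4185, 20, 13131, 26, 25, 1377, 19, 5049, 22, 5778, 17, 8865, 13851,
  25, 6534, 17, 22, 12132, 15, 23, 7312, 13851, 13851, 13851, 25, 15, 3456, 26, 7314, 19, 9579,
  16, 17, 5670, 13851, 13851, 17, 26, 8865, 15, 16, 1296, 23, 7312, 19, 20, 21, 4536, 13851,
  13851, 13851, 16, 5670, 13851, 15, 16, 7182, 26, 23, 10495, 19, 21, 2376, 13851, 13851, 13851,
  16, 26, 22, 8160, 19, 21, 2376, 13851, 13851, 13851, 13851, 19, 20, 21, 4536, 24, 5265, 22, 23,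
  6966, 25]

def c5 : List ℕ := [9569, 13851, 23, 26, 10297, 13851, 13851, 21, 26, 2376, 22, 23, 1134, 16,
  7307, 25, 9569, 13851, 23, 5535, 13851, 22, 23, 6966, 13851, 13851, 20, 21, 25, 1674, 23, 22,
  1134, 17, 7306, 26, 10297, 13851, 22, 5562, 13851, 22, 24, 2403, 23, 6966, 13851, 13851, 13851,
  3, 4374, 6, 5103, 9, 5832, 18, 6561, 22, 23, 1134, 26, 4833, 20, 5562, 5, 6291, 14, 7020, 16,
  7307, 4, 19, 11682, 7, 11, 9653, 8, 15, 6318, 24, 7047, 10, 7767, 25, 11394, 17, 9879, 13851,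
  17, 24, 3429, 15, 7155, 9879, 10, 15, 10394, 12, 10953, 13, 24, 8982, 13851, 13851, 13, 15,
  8901, 24, 8982, 13851, 12, 15, 25, 9794, 13851, 13851, 13851, 8, 25, 11394, 10, 12, 10953, 17,
  9003, 15, 11, 5184, 13, 8901, 13851, 13, 24, 8982, 13851, 13851, 15, 11, 12402, 13, 8901, 12,
  17, 24, 12132, 13851, 13851, 13851, 13, 24, 8982, 11, 12, 5481, 13851, 13851, 11, 12, 17, 24,
  12132, 13851, 13851, 13851, 13851, 10, 12, 10953, 15, 11, 5184, 17, 4968, 13, 8901, 13851, 13,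
  24, 8982, 17, 25, 8108, 13851, 13851, 11, 24, 25, 7397, 13851, 13851, 13851, 13, 24, 8982, 11,
  15, 2322, 12, 5481, 13851, 15, 8901, 13851, 11, 12, 15, 25, 9794, 17, 24, 12132, 13851, 13851,
  17, 24, 12132, 13851, 13851, 15, 17, 25, 6426, 13851, 13851, 13851, 12, 15, 25, 9794, 13851,
  13851, 13851, 7, 8, 15, 6318, 24, 7047, 10, 7767, 11, 17, 9663, 13, 12, 5481, 19, 10217, 13851,
  12, 19, 25, 9569, 13851, 13851, 13851, 12, 13, 17, 4752, 25, 7304, 13851, 19, 25, 9569, 13851,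
  13851, 13, 17, 25, 8108, 13851, 13851, 13851, 17, 24, 3429, 15, 7155, 11, 9663, 10, 12, 2295,
  19, 9098, 13851, 12, 13, 4752, 13851, 13851, 10, 11, 7388, 15, 10394, 19, 24, 13140, 12, 25,
  9569, 13851, 13851, 12, 13, 25, 7304, 13851, 13851, 13851, 19, 24, 13140, 25, 12, 9569, 15,
  9578, 13851, 11, 13, 10217, 13851, 13851, 11, 13, 15, 2322, 12, 5481, 13851, 12, 15, 25, 9794,
  13851, 13851, 13851, 12, 13, 25, 7304, 13851, 13851, 13851, 8, 15, 25, 3456, 11, 12402, 10, 17,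
  4968, 19, 9017, 13, 24, 8891, 13851, 13851, 13, 17, 5697, 24, 8891, 13851, 12, 17, 24, 12132,
  13851, 13851, 13851, 10, 19, 9017, 17, 12, 2295, 9003, 11, 12, 4455, 24, 25, 6534, 13851,
  13851, 24, 25, 6534, 13851, 13851, 24, 25, 6534, 12, 17, 12132, 11, 13, 5481, 13851, 13851, 11,
  13, 19, 11034, 13851, 13851, 13851, 11, 13, 12, 5481, 19, 11034, 13851, 12, 19, 25, 9569,
  13851, 13851, 13851, 12, 13, 17, 4752, 13851, 13851, 13851, 10, 17, 12, 2295, 15, 4968, 19,
  9098, 13, 25, 8108, 13851, 13851, 11, 12, 4455, 15, 5184, 13, 19, 11034, 13851, 13851, 12, 25,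
  13, 7304, 19, 9569, 13851, 13, 15, 24, 8891, 13851, 13851, 13851, 13, 15, 24, 8891, 13851,
  13851, 13851, 11, 13, 15, 2322, 12, 5481, 19, 11034, 13851, 12, 25, 19, 9569, 15, 9794, 13851,
  17, 24, 12132, 13851]

def c6 : List ℕ := [13851, 15, 17, 25, 6426, 13851, 13851, 13851, 12, 13, 17, 4752, 25, 7304,
  13851, 15, 25, 9794, 13851, 13851, 13, 15, 17, 5697, 13851, 13851, 13851, 23, 25, 4806, 19,
  5535, 4, 6264, 13, 6993, 17, 7306, 5, 20, 11673, 7, 26, 11367, 8, 15, 6318, 24, 7047, 10,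
  10381, 16, 10581, 11, 7740, 13851, 11, 12, 10944, 16, 8274, 15, 10, 5184, 14, 8145, 13851, 14,
  24, 8226, 13851, 13851, 15, 10, 12411, 14, 8145, 12, 16, 24, 12114, 13851, 13851, 13851, 14,
  24, 8226, 10, 12, 5454, 13851, 13851, 10, 12, 16, 24, 12114, 13851, 13851, 13851, 13851, 8, 10,
  10381, 16, 24, 4185, 15, 7182, 10581, 11, 15, 9664, 12, 10944, 14, 24, 8226, 13851, 13851, 14,
  15, 8145, 24, 8226, 13851, 12, 15, 26, 10495, 13851, 13851, 13851, 11, 12, 10944, 15, 10, 5184,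
  16, 4995, 14, 8145, 13851, 14, 24, 8226, 16, 26, 8836, 13851, 13851, 10, 24, 26, 7396, 13851,
  13851, 13851, 14, 24, 8226, 10, 15, 1566, 12, 5454, 13851, 15, 8145, 13851, 10, 12, 15, 26,
  10495, 16, 24, 12114, 13851, 13851, 16, 24, 12114, 13851, 13851, 15, 16, 26, 6453, 13851,
  13851, 13851, 12, 15, 26, 10495, 13851, 13851, 13851, 7, 8, 15, 6318, 24, 7047, 11, 7740, 10,
  16, 10392, 14, 12, 5454, 20, 9487, 13851, 12, 20, 26, 10297, 13851, 13851, 13851, 12, 14, 16,
  4725, 26, 7303, 13851, 20, 26, 10297, 13851, 13851, 14, 16, 26, 8836, 13851, 13851, 13851, 15,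
  26, 4158, 10, 12411, 11, 16, 4995, 20, 8287, 14, 24, 8134, 13851, 13851, 14, 16, 5724, 24,
  8134, 13851, 12, 16, 24, 12114, 13851, 13851, 13851, 11, 20, 8287, 16, 12, 1593, 8274, 10, 12,
  4455, 24, 26, 6507, 13851, 13851, 24, 26, 6507, 13851, 13851, 24, 26, 6507, 12, 16, 12114, 10,
  14, 5454, 13851, 13851, 10, 14, 20, 11025, 13851, 13851, 13851, 10, 14, 12, 5454, 20, 11025,
  13851, 12, 20, 26, 10297, 13851, 13851, 13851, 12, 14, 16, 4725, 13851, 13851, 13851, 8, 16,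
  24, 4185, 15, 7182, 10, 10392, 11, 12, 1593, 20, 8368, 13851, 12, 14, 4725, 13851, 13851, 11,
  10, 7387, 15, 9664, 20, 24, 13131, 12, 26, 10297, 13851, 13851, 12, 14, 26, 7303, 13851, 13851,
  13851, 20, 24, 13131, 26, 12, 10297, 15, 10306, 13851, 10, 14, 9487, 13851, 13851, 10, 14, 15,
  1566, 12, 5454, 13851, 12, 15, 26, 10495, 13851, 13851, 13851, 12, 14, 26, 7303, 13851, 13851,
  13851, 10, 14, 15, 1566, 12, 5454, 20, 11025, 16, 26, 8836, 13851, 13851, 11, 12, 4455, 15,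
  5184, 16, 20, 8368, 13851, 13851, 12, 26, 20, 10297, 15, 10495, 13851, 16, 24, 12114, 13851,
  13851, 15, 16, 26, 6453, 13851, 13851, 13851, 11, 16, 12, 1593, 15, 4995, 20, 8368, 13851, 12,
  26, 14, 7303, 20, 10297, 13851, 14, 15, 24, 8134, 13851, 13851, 13851, 14, 15, 24, 8134, 13851,
  13851, 13851, 12, 14, 16, 4725, 26, 7303, 13851, 15, 26, 10495, 13851, 13851, 14, 15, 16, 5724,
  13851, 13851, 13851, 4, 5, 6804, 14, 3186]

def c7 : List ℕ := [19, 11682, 25, 20, 1674, 8, 11394, 26, 24, 1377, 5751, 13, 12, 7304, 24,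
  7316, 17, 8108, 7, 11, 9653, 16, 8244, 13851, 10, 16, 10379, 13851, 13851, 7, 11, 9653, 16,
  8244, 24, 17, 3429, 10, 12, 10385, 13851, 13851, 17, 9879, 13851, 10, 12, 10385, 11, 15, 5184,
  24, 7397, 13851, 13851, 24, 17, 7263, 11, 12, 16, 1593, 13851, 13851, 13851, 13851, 7, 11,
  9653, 17, 24, 3429, 9879, 15, 8, 6318, 26, 4158, 20, 10313, 10, 12411, 12, 13, 16, 24, 10523,
  13851, 13851, 13851, 13851, 12, 20, 10304, 26, 10686, 10, 10953, 8, 24, 7047, 13851, 13851, 24,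
  8, 7047, 26, 6507, 13, 16, 10523, 13851, 13851, 8, 10, 16, 10392, 13, 20, 26, 14580, 13851,
  13851, 13851, 13, 16, 20, 26, 14580, 13851, 13851, 13851, 13851, 10, 13, 16, 10379, 13851,
  13851, 13851, 10, 12, 10953, 8, 17, 9003, 16, 24, 4185, 15, 7182, 13, 10379, 10392, 11, 15,
  5184, 24, 20, 9198, 13, 9255, 13851, 13, 20, 26, 14580, 13851, 13851, 13851, 20, 24, 13131, 13,
  15, 26, 11322, 13851, 13851, 13851, 13, 15, 26, 11322, 13851, 13851, 13851, 11, 15, 5184, 16,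
  17, 7311, 13, 10379, 20, 8368, 13851, 24, 20, 9198, 13, 9255, 13851, 13, 17, 20, 26, 14580,
  13851, 13851, 13851, 13851, 13, 16, 10379, 15, 17, 4968, 26, 11322, 13851, 17, 20, 24, 12483,
  13851, 13851, 13851, 20, 24, 17, 12483, 16, 26, 7236, 13851, 13851, 13851, 13851, 8, 16, 24,
  4185, 12, 12897, 15, 17, 1296, 11, 4995, 26, 6453, 13851, 17, 7311, 11, 20, 8368, 13851, 13851,
  11, 15, 12402, 13, 12, 5481, 24, 9255, 17, 26, 8946, 13851, 13851, 17, 26, 8946, 20, 24, 9198,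
  13851, 13851, 20, 24, 9198, 13851, 13851, 17, 26, 8946, 13, 12, 4752, 15, 5697, 13851, 20, 24,
  13131, 13851, 13851, 20, 24, 13131, 12, 13, 15, 26, 11322, 13851, 13851, 13851, 13851, 12, 13,
  15, 26, 11322, 13851, 13851, 13851, 13851, 11, 13, 15, 2322, 12, 5481, 24, 9255, 16, 17, 7311,
  13851, 13851, 16, 12, 1593, 20, 8368, 13851, 20, 15, 9117, 24, 9198, 13851, 12, 17, 26, 8863,
  13851, 13851, 13851, 12, 17, 13, 4752, 26, 8863, 13851, 13, 15, 26, 11322, 16, 24, 10523,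
  13851, 13851, 16, 24, 10523, 13851, 13851, 15, 16, 26, 6453, 13851, 13851, 13851, 13, 24, 16,
  10523, 15, 17, 5697, 13851, 13851, 13851, 13851, 20, 19, 4536, 25, 1674, 5, 11673, 7, 11, 8287,
  15, 8, 6318, 26, 4158, 10, 12411, 16, 17, 1296, 14, 5724, 13, 24, 10523, 13851, 13851, 17,
  7155, 13851, 24, 8, 7047, 17, 3429, 26, 6507, 10, 14, 11025, 13, 16, 10379, 13851, 13851,
  13851, 16, 17, 7311, 10, 13, 10379, 8, 10392, 14, 11025, 13851, 26, 14, 8836, 12, 10308, 13851,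
  13851, 10, 14, 11025, 12, 17, 2295, 26, 10308, 13851, 8, 17, 9003, 13851, 13851, 26, 12, 10308,
  8, 17, 8946, 13851, 13851, 13851, 8, 24, 13131, 10, 14, 9487, 16, 10392, 11, 12, 4455, 15,
  5184, 17, 9003, 13851, 12, 17, 2295, 13]

def c8 : List ℕ := [15, 26, 11322, 13851, 13851, 13851, 17, 9003, 13851, 11, 15, 12402, 16, 12,
  1593, 17, 7311, 8368, 17, 14, 9649, 26, 8946, 13851, 13851, 26, 17, 8946, 15, 16, 6453, 13851,
  13851, 13851, 10, 14, 13554, 11, 12, 4455, 15, 5184, 16, 8368, 13, 24, 9201, 13851, 13851, 17,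
  12, 2295, 24, 12483, 13851, 13, 16, 10379, 15, 26, 11322, 13851, 13851, 12, 15, 16, 26, 6453,
  13851, 13851, 13851, 13851, 11, 16, 12, 1593, 8368, 13, 15, 2322, 24, 9201, 13851, 14, 17,
  9649, 12, 26, 7303, 13851, 13851, 12, 17, 26, 8863, 13851, 13851, 13851, 24, 26, 16, 7236, 14,
  7315, 12, 17, 8863, 13851, 13851, 13851, 13851, 5, 13, 3942, 26, 19, 2376, 7, 11367, 25, 24,
  1377, 5751, 14, 12, 7303, 24, 7315, 16, 8836, 8, 10, 10381, 17, 8946, 13851, 10, 15, 1566,
  13851, 13851, 8, 10, 10381, 17, 8946, 24, 16, 4185, 11, 12, 9655, 13851, 13851, 16, 10581,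
  13851, 11, 12, 9655, 10, 15, 5184, 24, 7396, 13851, 13851, 24, 16, 7236, 10, 12, 17, 2295,
  13851, 13851, 13851, 13851, 8, 10, 10381, 16, 24, 4185, 10581, 15, 7, 6318, 25, 3456, 19, 9583,
  11, 12402, 12, 14, 17, 24, 9766, 13851, 13851, 13851, 13851, 12, 19, 9574, 25, 9930, 11, 10944,
  7, 24, 7047, 13851, 13851, 24, 7, 7047, 25, 6534, 14, 17, 9766, 13851, 13851, 7, 11, 17, 9663,
  14, 19, 25, 14580, 13851, 13851, 13851, 14, 17, 19, 25, 14580, 13851, 13851, 13851, 13851, 11,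
  14, 17, 9649, 13851, 13851, 13851, 11, 12, 10944, 7, 16, 8274, 17, 24, 3429, 15, 7155, 14,
  9649, 9663, 10, 15, 5184, 24, 19, 8496, 14, 8526, 13851, 14, 19, 25, 14580, 13851, 13851,
  13851, 19, 24, 13140, 14, 15, 25, 11304, 13851, 13851, 13851, 14, 15, 25, 11304, 13851, 13851,
  13851, 10, 15, 5184, 17, 16, 7311, 14, 9649, 19, 9098, 13851, 24, 19, 8496, 14, 8526, 13851,
  14, 16, 19, 25, 14580, 13851, 13851, 13851, 13851, 14, 17, 9649, 15, 16, 4995, 25, 11304,
  13851, 16, 19, 24, 12492, 13851, 13851, 13851, 19, 24, 16, 12492, 17, 25, 7263, 13851, 13851,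
  13851, 13851, 7, 17, 24, 3429, 12, 12888, 15, 16, 1296, 10, 4968, 25, 6426, 13851, 16, 7311,
  10, 19, 9098, 13851, 13851, 10, 15, 12411, 14, 12, 5454, 24, 8526, 16, 25, 8244, 13851, 13851,
  16, 25, 8244, 19, 24, 8496, 13851, 13851, 19, 24, 8496, 13851, 13851, 16, 25, 8244, 14, 12,
  4725, 15, 5724, 13851, 19, 24, 13140, 13851, 13851, 19, 24, 13140, 12, 14, 15, 25, 11304,
  13851, 13851, 13851, 13851, 12, 14, 15, 25, 11304, 13851, 13851, 13851, 13851, 10, 14, 15,
  1566, 12, 5454, 24, 8526, 16, 17, 7311, 13851, 13851, 17, 12, 2295, 19, 9098, 13851, 19, 15,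
  8415, 24, 8496, 13851, 12, 16, 25, 8162, 13851, 13851, 13851, 12, 16, 14, 4725, 25, 8162,
  13851, 14, 15, 25, 11304, 17, 24, 9766, 13851, 13851, 17, 24, 9766, 13851, 13851, 15, 17, 25,
  6426, 13851, 13851, 13851, 14, 24, 17, 9766, 15, 16]

def c9 : List ℕ := [5724, 13851, 13851, 13851, 13851, 19, 26, 2376, 7, 24, 13140, 8, 15, 6318,
  10, 9017, 16, 17, 7311, 25, 8244, 11, 12, 1593, 13, 10217, 13851, 13851, 11, 13, 10217, 17,
  9663, 12, 25, 9579, 13851, 13851, 25, 12, 9579, 13, 14, 6156, 13851, 13851, 13851, 11, 13,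
  10217, 17, 9663, 10, 12, 4455, 15, 5184, 16, 8274, 13851, 12, 16, 1593, 14, 15, 25, 11304,
  13851, 13851, 13851, 16, 8274, 13851, 10, 15, 12411, 16, 17, 7311, 13, 10379, 25, 8244, 13851,
  12, 17, 2295, 13851, 17, 9098, 13851, 25, 16, 8244, 15, 17, 6426, 13851, 13851, 13851, 8, 10,
  9017, 25, 15, 3456, 24, 6534, 12, 9579, 13, 14, 6156, 17, 8108, 13851, 16, 17, 7311, 13851,
  13851, 11, 15, 12402, 13, 11034, 16, 12, 1593, 24, 4185, 13851, 14, 17, 9649, 13851, 13851, 24,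
  16, 4185, 17, 14, 9766, 12, 13, 4752, 13851, 13851, 13851, 13851, 11, 13, 13581, 10, 12, 4455,
  15, 5184, 17, 9098, 14, 24, 8499, 13851, 13851, 16, 12, 1593, 24, 12492, 13851, 14, 17, 9649,
  15, 25, 11304, 13851, 13851, 12, 15, 17, 25, 6426, 13851, 13851, 13851, 13851, 10, 17, 12,
  2295, 9098, 14, 15, 1566, 24, 8499, 13851, 13, 16, 10379, 12, 25, 7304, 13851, 13851, 12, 16,
  25, 8162, 13851, 13851, 13851, 24, 25, 17, 7263, 13, 7316, 12, 16, 8162, 13851, 13851, 13851,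
  13851, 7, 15, 8, 6318, 26, 4158, 10, 12411, 16, 17, 1296, 11, 4995, 14, 5724, 25, 8244, 13851,
  17, 7155, 11, 13, 2322, 14, 25, 11304, 13851, 13851, 13851, 17, 24, 3429, 16, 7311, 11, 9663,
  12, 10, 2295, 26, 8863, 13851, 8, 26, 8946, 10, 9003, 13851, 13, 14, 6156, 13851, 13851, 8, 24,
  7047, 10, 11, 7389, 16, 10392, 25, 26, 5751, 13851, 13851, 25, 26, 5751, 16, 8244, 13851, 11,
  12, 16, 1593, 13851, 16, 8274, 13851, 13851, 16, 25, 8244, 11, 12, 1593, 8274, 24, 26, 6507,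
  13851, 13851, 10, 11, 12, 4455, 13, 14, 6156, 13851, 13851, 13851, 13851, 8, 15, 25, 3456, 11,
  12402, 17, 16, 1296, 10, 4968, 13, 5697, 26, 8946, 13851, 16, 7182, 10, 14, 1566, 13, 26,
  11322, 13851, 13851, 13851, 16, 24, 4185, 17, 7311, 10, 10392, 25, 26, 5751, 13851, 13851, 17,
  26, 8946, 10, 12, 2295, 9003, 24, 25, 6534, 13851, 13851, 10, 11, 12, 4455, 13, 14, 6156,
  13851, 13851, 13851, 13851, 10, 11, 12, 4455, 15, 5184, 13, 14, 6156, 16, 10379, 13851, 14, 17,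
  9649, 13851, 13851, 12, 17, 2295, 13, 14, 1053, 25, 7304, 16, 10379, 13851, 14, 5454, 13851,
  13, 14, 6156, 13851, 13851, 11, 12, 16, 1593, 14, 13, 1053, 26, 7303, 17, 9649, 13851, 13,
  5481, 13851, 13, 15, 2322, 14, 6156, 13851, 13851, 13851, 3, 4374, 6, 5103, 9, 5832, 18, 6561,
  16, 17, 1296, 11, 4995, 14, 5724, 26, 6453, 8, 7182, 22, 7313, 7, 10, 12411, 4, 20, 10313, 5,
  12, 6075, 21, 6804, 19, 7556, 13, 11196, 23, 10556, 13851, 23, 12, 3915, 21, 6264, 10556, 19,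
  21, 9572]

def c10 : List ℕ := [24, 13140, 12, 25, 8163, 13851, 13851, 25, 12, 8163, 21, 8244, 13851, 12,
  13, 21, 24, 10523, 13851, 13851, 13851, 13851, 5, 13, 13743, 19, 24, 13140, 23, 8529, 21, 20,
  4536, 25, 8244, 13851, 12, 25, 8163, 13851, 13851, 21, 20, 11673, 25, 8244, 12, 23, 24, 12114,
  13851, 13851, 13851, 12, 25, 8163, 23, 24, 12114, 13851, 13851, 20, 24, 25, 5076, 13851, 13851,
  13851, 12, 25, 8163, 23, 13, 6210, 24, 13023, 19, 21, 5535, 13851, 13851, 19, 24, 13140, 13,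
  20, 7466, 13851, 13851, 13, 21, 24, 10523, 13851, 13851, 13851, 19, 24, 13140, 21, 20, 4536,
  23, 5535, 13851, 13, 23, 25, 8889, 13851, 13851, 13851, 13, 21, 23, 6993, 24, 10523, 13851, 23,
  25, 8889, 13851, 13851, 20, 21, 25, 1674, 13851, 13851, 13851, 4, 5, 12, 6075, 21, 6804, 19,
  7556, 20, 23, 10299, 25, 24, 5076, 10, 9497, 13851, 10, 13, 24, 10383, 13851, 13851, 13851, 10,
  24, 13, 10383, 25, 7559, 13851, 13, 23, 25, 8889, 13851, 13851, 13851, 13, 23, 25, 8889, 13851,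
  13851, 13851, 23, 12, 3915, 21, 6264, 20, 10299, 19, 24, 1647, 10, 8421, 13851, 13, 25, 8889,
  13851, 13851, 19, 21, 9572, 20, 7475, 10, 12, 10953, 13, 24, 10388, 13851, 13851, 12, 13, 25,
  7304, 13851, 13851, 13851, 10, 12, 10953, 13, 21, 10379, 24, 10388, 13851, 20, 25, 9497, 13851,
  13851, 12, 13, 25, 7304, 21, 24, 10523, 13851, 13851, 20, 21, 25, 1674, 13851, 13851, 13851,
  13, 21, 24, 10523, 13851, 13851, 13851, 5, 13, 21, 3942, 12, 6939, 10, 24, 10383, 19, 8415, 20,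
  25, 13302, 13851, 13851, 25, 24, 7316, 23, 8889, 13851, 19, 20, 24, 5265, 13851, 13851, 13851,
  10, 19, 8415, 20, 21, 11673, 25, 13302, 12, 23, 24, 12114, 13851, 13851, 13851, 12, 21, 25,
  8162, 23, 24, 12114, 13851, 13851, 23, 24, 12114, 13851, 13851, 21, 23, 25, 4806, 13851, 13851,
  13851, 20, 21, 11673, 19, 24, 5265, 23, 8529, 13851, 24, 25, 5076, 13851, 13851, 12, 23, 24,
  13023, 19, 8529, 13851, 21, 25, 8162, 13851, 13851, 19, 21, 23, 5535, 13851, 13851, 13851, 10,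
  13, 21, 10379, 24, 10388, 12, 23, 6210, 25, 7304, 13851, 19, 23, 8421, 13851, 13851, 20, 25,
  11556, 19, 21, 4536, 24, 5265, 13851, 12, 23, 24, 12114, 13851, 13851, 13851, 12, 23, 24,
  13023, 19, 8421, 13851, 21, 25, 8162, 13851, 13851, 19, 21, 23, 5535, 13851, 13851, 13851, 12,
  13, 23, 6210, 25, 7304, 21, 24, 10523, 13851, 13851, 23, 24, 13023, 19, 21, 5535, 13851, 13851,
  19, 20, 21, 4536, 13851, 13851, 13851, 13, 21, 23, 6993, 24, 10523, 13851, 23, 25, 8889, 13851,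
  13851, 19, 20, 21, 4536, 13851, 13851, 13851, 17, 10, 4968, 13, 5697, 25, 6426, 7, 7155, 23,
  7312, 8, 11, 12402, 4, 14, 13716, 5, 12, 6075, 21, 6804, 19, 9583, 20, 7555, 22, 9826, 13851,
  20, 24, 13131, 22, 9258, 21, 19, 4536, 26, 8946, 13851, 12, 26, 8865, 13851, 13851, 21, 19,
  11682, 26, 8946, 12, 22, 24, 12132]

def c11 : List ℕ := [13851, 13851, 13851, 12, 26, 8865, 22, 24, 12132, 13851, 13851, 19, 24, 26,
  5049, 13851, 13851, 13851, 5, 19, 9583, 22, 12, 3213, 21, 6291, 9826, 20, 21, 10300, 24, 13131,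
  12, 26, 8865, 13851, 13851, 26, 12, 8865, 21, 8946, 13851, 12, 14, 21, 24, 9766, 13851, 13851,
  13851, 13851, 12, 26, 8865, 22, 14, 6183, 24, 13005, 20, 21, 5562, 13851, 13851, 20, 24, 13131,
  14, 19, 7465, 13851, 13851, 14, 21, 24, 9766, 13851, 13851, 13851, 20, 24, 13131, 21, 19, 4536,
  22, 5562, 13851, 14, 22, 26, 8133, 13851, 13851, 13851, 14, 21, 22, 7020, 24, 9766, 13851, 22,
  26, 8133, 13851, 13851, 19, 21, 26, 2376, 13851, 13851, 13851, 4, 5, 12, 6075, 21, 6804, 20,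
  7555, 19, 22, 9570, 26, 24, 5049, 11, 10225, 13851, 11, 14, 24, 9654, 13851, 13851, 13851, 11,
  24, 14, 9654, 26, 7558, 13851, 14, 22, 26, 8133, 13851, 13851, 13851, 14, 22, 26, 8133, 13851,
  13851, 13851, 14, 21, 3186, 12, 6912, 11, 24, 9654, 20, 9117, 19, 26, 13293, 13851, 13851, 26,
  24, 7315, 22, 8133, 13851, 19, 20, 24, 5265, 13851, 13851, 13851, 11, 20, 9117, 19, 21, 11682,
  26, 13293, 12, 22, 24, 12132, 13851, 13851, 13851, 12, 21, 26, 8863, 22, 24, 12132, 13851,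
  13851, 22, 24, 12132, 13851, 13851, 21, 22, 26, 4833, 13851, 13851, 13851, 19, 21, 11682, 20,
  24, 5265, 22, 9258, 13851, 24, 26, 5049, 13851, 13851, 12, 22, 24, 13005, 20, 9258, 13851, 21,
  26, 8863, 13851, 13851, 20, 21, 22, 5562, 13851, 13851, 13851, 5, 22, 12, 3213, 21, 6291, 19,
  9570, 20, 24, 2403, 11, 9123, 13851, 14, 26, 8133, 13851, 13851, 20, 21, 10300, 19, 7474, 11,
  12, 10944, 14, 24, 9658, 13851, 13851, 12, 14, 26, 7303, 13851, 13851, 13851, 11, 12, 10944,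
  14, 21, 9649, 24, 9658, 13851, 19, 26, 10225, 13851, 13851, 12, 14, 26, 7303, 21, 24, 9766,
  13851, 13851, 19, 21, 26, 2376, 13851, 13851, 13851, 14, 21, 24, 9766, 13851, 13851, 13851, 11,
  14, 21, 9649, 24, 9658, 12, 22, 6183, 26, 7303, 13851, 19, 26, 13293, 13851, 13851, 19, 26,
  11529, 20, 21, 4536, 24, 5265, 13851, 12, 22, 24, 12132, 13851, 13851, 13851, 12, 22, 24,
  13005, 20, 9123, 13851, 21, 26, 8863, 13851, 13851, 20, 21, 22, 5562, 13851, 13851, 13851, 12,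
  14, 22, 6183, 26, 7303, 21, 24, 9766, 13851, 13851, 22, 24, 13005, 20, 21, 5562, 13851, 13851,
  19, 20, 21, 4536, 13851, 13851, 13851, 14, 21, 22, 7020, 24, 9766, 13851, 22, 26, 8133, 13851,
  13851, 19, 20, 21, 4536, 13851, 13851, 13851, 7, 8, 6318, 26, 4158, 10, 12411, 13, 11, 2322, 5,
  13743, 14, 12, 1053, 4698, 23, 12, 6210, 25, 8889, 4, 10556, 19, 24, 1647, 13851, 13851, 4, 20,
  10313, 22, 8901, 19, 24, 9581, 21, 11682, 13851, 12, 25, 7304, 13851, 13851, 24, 25, 7316, 19,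
  9581, 20, 22, 2403, 13851, 13851, 12, 25, 7304, 19, 20, 7466, 13851, 13851, 19, 20, 21, 4536,
  13851, 13851, 13851, 4]

def c12 : List ℕ := [20, 10313, 23, 12, 3915, 10556, 21, 5, 6804, 14, 3186, 11, 9653, 19, 11682,
  12, 22, 25, 9794, 13851, 13851, 13851, 24, 11, 9662, 14, 9905, 19, 13140, 5, 12, 6075, 13851,
  13851, 12, 5, 6075, 14, 6912, 22, 25, 9794, 13851, 13851, 5, 19, 22, 9570, 11, 14, 25, 14580,
  13851, 13851, 13851, 11, 14, 22, 25, 14580, 13851, 13851, 13851, 13851, 11, 14, 19, 22, 25,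
  9578, 13851, 13851, 13851, 13851, 13851, 19, 24, 13140, 5, 23, 8529, 22, 12, 3213, 21, 6291,
  9570, 11, 12, 10944, 20, 21, 4536, 14, 25, 14580, 13851, 13851, 14, 21, 25, 11304, 13851,
  13851, 13851, 20, 21, 4536, 12, 25, 8277, 13851, 13851, 12, 14, 21, 25, 11304, 13851, 13851,
  13851, 13851, 20, 21, 4536, 22, 23, 7305, 25, 9578, 11, 9123, 13851, 12, 25, 8277, 11, 8284,
  13851, 11, 14, 23, 25, 14580, 13851, 13851, 13851, 13851, 22, 25, 9578, 12, 14, 6183, 13851,
  13851, 21, 23, 5535, 14, 25, 11304, 13851, 13851, 11, 12, 23, 11835, 13851, 13851, 13851, 5,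
  12, 22, 3213, 11, 10944, 20, 21, 11673, 25, 8277, 14, 23, 8145, 13851, 13851, 14, 23, 8145, 21,
  25, 11304, 13851, 13851, 21, 23, 25, 4806, 13851, 13851, 13851, 14, 23, 8145, 21, 22, 6291, 20,
  11673, 25, 11304, 13851, 22, 24, 11925, 11, 20, 9123, 13851, 13851, 11, 20, 24, 25, 5076,
  13851, 13851, 13851, 13851, 20, 21, 11673, 22, 24, 2403, 23, 7305, 13851, 24, 25, 5076, 13851,
  13851, 24, 22, 11925, 23, 25, 5805, 13851, 13851, 13851, 11, 12, 20, 8284, 22, 14, 6183, 25,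
  9794, 13851, 14, 21, 25, 11304, 23, 24, 8134, 13851, 13851, 23, 24, 8134, 13851, 13851, 21, 23,
  25, 4806, 13851, 13851, 13851, 14, 21, 25, 11304, 20, 8287, 13851, 23, 22, 7305, 24, 8134,
  13851, 20, 22, 24, 2403, 13851, 13851, 13851, 20, 24, 22, 2403, 25, 5076, 13851, 13851, 13851,
  12, 22, 14, 6183, 25, 9794, 13851, 14, 25, 21, 11304, 20, 8277, 13851, 23, 24, 8134, 13851,
  13851, 20, 21, 25, 1674, 13851, 13851, 13851, 14, 24, 23, 8134, 20, 22, 2403, 13851, 13851,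
  13851, 13851, 11, 10, 5184, 13, 2322, 8, 12402, 4, 20, 9117, 12, 5, 6075, 23, 3915, 14, 6912,
  19, 21, 11682, 26, 13293, 22, 25, 9569, 13851, 13851, 22, 25, 9794, 21, 26, 4833, 13851, 13851,
  13851, 21, 5, 6804, 14, 3186, 19, 11682, 13851, 22, 23, 7305, 19, 5, 9570, 25, 9578, 26, 13293,
  13851, 14, 26, 8133, 24, 9654, 13851, 13851, 14, 24, 9654, 26, 25, 7209, 19, 13293, 13851, 5,
  23, 8145, 13851, 13851, 19, 26, 13293, 23, 24, 1647, 13851, 13851, 13851, 5, 12, 10944, 19, 26,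
  10225, 22, 9570, 20, 21, 4536, 24, 5265, 23, 8529, 13851, 24, 23, 1647, 14, 21, 25, 11304,
  13851, 13851, 13851, 23, 8529, 13851, 14, 23, 8145, 21, 22, 6291, 20, 11673, 13851, 22, 26,
  8133, 20, 24, 2403, 13851, 13851, 13851, 20, 21, 11673, 22, 24, 2403, 23, 7305, 13851, 13851,
  13851, 19, 26, 11529, 20, 21, 4536, 24]

def c13 : List ℕ := [5265, 22, 9123, 12, 25, 8446, 13851, 13851, 23, 24, 1647, 12, 11835, 13851,
  22, 25, 9578, 12, 14, 6183, 13851, 13851, 12, 14, 21, 25, 11304, 13851, 13851, 13851, 13851,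
  12, 14, 22, 6183, 26, 7303, 25, 21, 11304, 20, 8446, 13851, 23, 24, 8134, 13851, 13851, 20, 22,
  24, 2403, 25, 9794, 13851, 21, 25, 1674, 23, 26, 10297, 13851, 13851, 13851, 13851, 14, 20, 24,
  22, 2403, 23, 8134, 13851, 22, 9123, 21, 25, 1674, 13851, 13851, 13851, 13851, 8, 25, 3456, 14,
  10, 1566, 4, 13716, 13, 12, 1053, 4698, 22, 12, 6183, 26, 8133, 5, 9826, 20, 24, 2403, 13851,
  13851, 5, 19, 9583, 23, 8145, 20, 24, 10309, 21, 11673, 13851, 12, 26, 7303, 13851, 13851, 24,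
  26, 7315, 20, 10309, 19, 23, 1647, 13851, 13851, 12, 26, 7303, 19, 20, 7465, 13851, 13851, 19,
  20, 21, 4536, 13851, 13851, 13851, 5, 19, 9583, 22, 12, 3213, 9826, 21, 4, 6804, 13, 3942, 10,
  10381, 20, 11673, 12, 23, 26, 10495, 13851, 13851, 13851, 24, 10, 10390, 13, 10633, 20, 13131,
  4, 12, 6075, 13851, 13851, 12, 4, 6075, 13, 6939, 23, 26, 10495, 13851, 13851, 4, 20, 23,
  10299, 10, 13, 26, 14580, 13851, 13851, 13851, 10, 13, 23, 26, 14580, 13851, 13851, 13851,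
  13851, 10, 13, 20, 23, 26, 10306, 13851, 13851, 13851, 13851, 13851, 20, 24, 13131, 4, 22,
  9258, 23, 12, 3915, 21, 6264, 10299, 10, 12, 10953, 19, 21, 4536, 13, 26, 14580, 13851, 13851,
  13, 21, 26, 11322, 13851, 13851, 13851, 19, 21, 4536, 12, 26, 9006, 13851, 13851, 12, 13, 21,
  26, 11322, 13851, 13851, 13851, 13851, 19, 21, 4536, 23, 22, 7305, 26, 10306, 10, 8421, 13851,
  12, 26, 9006, 10, 9014, 13851, 10, 13, 22, 26, 14580, 13851, 13851, 13851, 13851, 23, 26,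
  10306, 12, 13, 6210, 13851, 13851, 21, 22, 5562, 13, 26, 11322, 13851, 13851, 10, 12, 22,
  11844, 13851, 13851, 13851, 4, 12, 23, 3915, 10, 10953, 19, 21, 11682, 26, 9006, 13, 22, 8901,
  13851, 13851, 13, 22, 8901, 21, 26, 11322, 13851, 13851, 21, 22, 26, 4833, 13851, 13851, 13851,
  13, 22, 8901, 21, 23, 6264, 19, 11682, 26, 11322, 13851, 23, 24, 11916, 10, 19, 8421, 13851,
  13851, 10, 19, 24, 26, 5049, 13851, 13851, 13851, 13851, 19, 21, 11682, 23, 24, 1647, 22, 7305,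
  13851, 24, 26, 5049, 13851, 13851, 24, 23, 11916, 22, 26, 5778, 13851, 13851, 13851, 10, 12,
  19, 9014, 23, 13, 6210, 26, 10495, 13851, 13, 21, 26, 11322, 22, 24, 8891, 13851, 13851, 22,
  24, 8891, 13851, 13851, 21, 22, 26, 4833, 13851, 13851, 13851, 13, 21, 26, 11322, 19, 9017,
  13851, 22, 23, 7305, 24, 8891, 13851, 19, 23, 24, 1647, 13851, 13851, 13851, 19, 24, 23, 1647,
  26, 5049, 13851, 13851, 13851, 12, 23, 13, 6210, 26, 10495, 13851, 13, 26, 21, 11322, 19, 9006,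
  13851, 22, 24, 8891, 13851, 13851, 19, 21, 26, 2376, 13851, 13851, 13851, 13, 24, 22, 8891, 19,
  23, 1647, 13851, 13851, 13851, 13851, 10, 14]

def c14 : List ℕ := [1566, 4, 12, 10953, 5, 21, 6804, 19, 8415, 22, 23, 7305, 13, 8901, 20, 24,
  2403, 25, 9497, 13851, 13851, 20, 25, 9497, 23, 10299, 13, 24, 10383, 13851, 13851, 13, 24,
  10383, 23, 25, 8889, 13851, 13851, 13851, 20, 25, 9497, 23, 10299, 19, 21, 4536, 24, 5265, 22,
  9258, 13851, 24, 22, 2403, 13, 21, 26, 11322, 13851, 13851, 13851, 22, 9258, 13851, 13, 22,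
  8901, 21, 23, 6264, 19, 11682, 13851, 23, 25, 8889, 19, 24, 1647, 13851, 13851, 13851, 19, 21,
  11682, 22, 23, 7305, 13851, 13851, 13851, 5, 19, 8415, 13, 21, 3942, 12, 6939, 24, 10383, 23,
  22, 7305, 25, 8889, 13851, 20, 25, 13302, 13851, 13851, 20, 21, 11673, 25, 13302, 22, 24, 2403,
  12, 3213, 13851, 23, 26, 10306, 13851, 13851, 12, 22, 3213, 23, 26, 10495, 21, 25, 4806, 13851,
  13851, 13851, 13851, 20, 25, 11556, 19, 21, 4536, 24, 5265, 23, 8421, 12, 26, 9176, 13851,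
  13851, 22, 24, 2403, 12, 11844, 13851, 23, 26, 10306, 12, 13, 6210, 13851, 13851, 12, 13, 21,
  26, 11322, 13851, 13851, 13851, 13851, 12, 13, 23, 6210, 25, 7304, 26, 21, 11322, 19, 9176,
  13851, 22, 24, 8891, 13851, 13851, 19, 23, 24, 1647, 26, 10495, 13851, 21, 26, 2376, 22, 25,
  9569, 13851, 13851, 13851, 13851, 13, 19, 24, 23, 1647, 22, 8891, 13851, 23, 8421, 21, 26,
  2376, 13851, 13851, 13851, 13851, 4, 21, 5, 6804, 14, 3186, 19, 11682, 22, 23, 1134, 26, 4833,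
  20, 5562, 13, 8901, 13851, 23, 6264, 13, 26, 11322, 12, 25, 7304, 13851, 13851, 13851, 23, 12,
  3915, 22, 7305, 20, 10299, 14, 13, 4698, 5, 8145, 13851, 19, 24, 1647, 5, 8529, 13851, 13851,
  5, 12, 6075, 13, 14, 4698, 22, 8901, 19, 20, 7461, 13851, 13851, 19, 22, 9570, 20, 7461, 13851,
  14, 22, 26, 8133, 20, 24, 2403, 13851, 13851, 13851, 13851, 13, 22, 8901, 12, 14, 1053, 25,
  7304, 19, 20, 24, 5265, 13851, 13851, 13851, 14, 4698, 13851, 12, 14, 6912, 22, 25, 9794, 20,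
  24, 2403, 13851, 13851, 13851, 14, 22, 26, 8133, 19, 25, 9578, 13851, 13851, 13851, 13851, 5,
  21, 13, 3942, 20, 11673, 23, 22, 1134, 25, 4806, 19, 5535, 14, 8145, 13851, 22, 6291, 14, 25,
  11304, 12, 26, 7303, 13851, 13851, 13851, 22, 12, 3213, 23, 7305, 19, 9570, 13, 14, 4698,
  13851, 13851, 14, 23, 8145, 12, 13, 1053, 26, 7303, 19, 20, 24, 5265, 13851, 13851, 13851, 13,
  4698, 13851, 12, 13, 6939, 23, 26, 10495, 19, 24, 1647, 13851, 13851, 13851, 13, 23, 25, 8889,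
  19, 24, 1647, 13851, 13851, 13851, 13851, 19, 20, 21, 4536, 24, 5265, 22, 23, 7305, 25, 9578,
  13851, 23, 26, 10306, 13851, 13851, 21, 26, 2376, 22, 23, 1134, 14, 7020, 25, 9578, 13851, 23,
  5535, 13851, 22, 23, 7305, 13851, 13851, 20, 21, 25, 1674, 23, 22, 1134, 13, 6993, 26, 10306,
  13851, 22, 5562, 13851, 22, 24, 2403, 23, 7305, 13851, 13851, 13851, 3, 4374, 6, 5103, 9, 5832,
  18, 6561, 25]

def c15 : List ℕ := [26, 1377, 20, 5076, 23, 5805, 8, 6534, 17, 7263, 13, 7316, 7, 19, 13140, 4,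
  11, 9662, 5, 12, 6075, 21, 6804, 10, 7559, 22, 11925, 14, 9905, 13851, 14, 21, 3186, 12, 6912,
  9905, 10, 12, 10385, 15, 12411, 16, 21, 8244, 13851, 13851, 16, 12, 8163, 21, 8244, 13851, 12,
  15, 22, 9794, 13851, 13851, 13851, 5, 22, 13095, 10, 15, 12411, 14, 8526, 12, 11, 4455, 16,
  8163, 13851, 16, 21, 8244, 13851, 13851, 12, 11, 10944, 16, 8163, 14, 15, 21, 11304, 13851,
  13851, 13851, 16, 21, 8244, 11, 15, 4995, 13851, 13851, 11, 14, 15, 21, 11304, 13851, 13851,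
  13851, 13851, 10, 15, 12411, 12, 11, 4455, 14, 5454, 16, 8163, 13851, 16, 21, 8244, 14, 22,
  8837, 13851, 13851, 11, 21, 22, 7388, 13851, 13851, 13851, 16, 21, 8244, 11, 12, 1593, 15,
  4995, 13851, 12, 8163, 13851, 11, 12, 22, 14, 6183, 15, 9794, 13851, 14, 15, 21, 11304, 13851,
  13851, 13851, 14, 15, 21, 11304, 13851, 13851, 13851, 12, 14, 22, 6183, 13851, 13851, 13851, 4,
  5, 12, 6075, 21, 6804, 10, 7559, 11, 14, 9654, 16, 15, 4995, 19, 10226, 13851, 15, 19, 22,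
  9570, 13851, 13851, 13851, 14, 16, 15, 5724, 22, 8837, 13851, 15, 19, 22, 9570, 13851, 13851,
  13851, 15, 16, 22, 7313, 13851, 13851, 13851, 14, 21, 3186, 12, 6912, 11, 9654, 10, 15, 1566,
  19, 8499, 13851, 15, 16, 5724, 13851, 13851, 10, 11, 7397, 12, 10385, 19, 21, 11682, 15, 22,
  9578, 13851, 13851, 15, 16, 22, 7313, 13851, 13851, 13851, 19, 21, 11682, 22, 12, 9569, 15,
  9578, 13851, 11, 16, 10226, 13851, 13851, 11, 16, 12, 1593, 15, 4995, 13851, 12, 15, 22, 9794,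
  13851, 13851, 13851, 12, 15, 22, 9794, 13851, 13851, 13851, 5, 12, 22, 3213, 11, 10944, 10, 14,
  5454, 19, 8496, 16, 21, 8162, 13851, 13851, 16, 14, 4725, 21, 8162, 13851, 14, 15, 21, 11304,
  13851, 13851, 13851, 10, 19, 8496, 14, 15, 1566, 8526, 11, 15, 5184, 21, 22, 6291, 13851,
  13851, 21, 22, 6291, 13851, 13851, 21, 22, 6291, 14, 15, 11304, 11, 16, 19, 12492, 13851,
  13851, 13851, 11, 15, 16, 4995, 13851, 13851, 13851, 11, 16, 15, 4995, 19, 12492, 13851, 14,
  15, 19, 22, 9570, 13851, 13851, 13851, 13851, 14, 15, 16, 5724, 13851, 13851, 13851, 10, 14,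
  15, 1566, 12, 5454, 19, 8499, 16, 22, 8837, 13851, 13851, 11, 12, 4455, 15, 5184, 16, 19,
  12492, 13851, 13851, 12, 22, 19, 9569, 15, 9794, 13851, 16, 21, 8162, 13851, 13851, 15, 16, 22,
  7313, 13851, 13851, 13851, 11, 16, 12, 1593, 15, 4995, 19, 12492, 13851, 12, 22, 14, 6183, 19,
  9569, 13851, 14, 15, 21, 11304, 13851, 13851, 13851, 14, 15, 21, 11304, 13851, 13851, 13851,
  12, 14, 16, 4725, 22, 6183, 13851, 15, 22, 9794, 13851, 13851, 14, 15, 16, 5724, 13851, 13851,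
  13851, 26, 19, 5049, 22, 5778, 7, 6507, 16, 7236, 14, 7315, 8, 20, 13131, 4, 23, 13068, 5, 12,
  6075, 21, 6804, 10, 10390, 11]

def c16 : List ℕ := [7558, 13, 10633, 13851, 11, 15, 12402, 13, 9255, 12, 10, 4455, 17, 8865,
  13851, 17, 21, 8946, 13851, 13851, 12, 10, 10953, 17, 8865, 13, 15, 21, 11322, 13851, 13851,
  13851, 17, 21, 8946, 10, 15, 4968, 13851, 13851, 10, 13, 15, 21, 11322, 13851, 13851, 13851,
  13851, 5, 10, 10390, 13, 21, 3942, 12, 6939, 10633, 11, 12, 9655, 15, 12402, 17, 21, 8946,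
  13851, 13851, 17, 12, 8865, 21, 8946, 13851, 12, 15, 23, 10495, 13851, 13851, 13851, 11, 15,
  12402, 12, 10, 4455, 13, 5481, 17, 8865, 13851, 17, 21, 8946, 13, 23, 8107, 13851, 13851, 10,
  21, 23, 7387, 13851, 13851, 13851, 17, 21, 8946, 10, 12, 2295, 15, 4968, 13851, 12, 8865,
  13851, 10, 12, 23, 13, 6210, 15, 10495, 13851, 13, 15, 21, 11322, 13851, 13851, 13851, 13, 15,
  21, 11322, 13851, 13851, 13851, 12, 13, 23, 6210, 13851, 13851, 13851, 4, 5, 12, 6075, 21,
  6804, 11, 7558, 10, 13, 10383, 17, 15, 4968, 20, 9496, 13851, 15, 20, 23, 10299, 13851, 13851,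
  13851, 13, 17, 15, 5697, 23, 8107, 13851, 15, 20, 23, 10299, 13851, 13851, 13851, 15, 17, 23,
  7312, 13851, 13851, 13851, 12, 23, 3915, 10, 10953, 11, 13, 5481, 20, 9198, 17, 21, 8863,
  13851, 13851, 17, 13, 4752, 21, 8863, 13851, 13, 15, 21, 11322, 13851, 13851, 13851, 11, 20,
  9198, 13, 15, 2322, 9255, 10, 15, 5184, 21, 23, 6264, 13851, 13851, 21, 23, 6264, 13851, 13851,
  21, 23, 6264, 13, 15, 11322, 10, 17, 20, 12483, 13851, 13851, 13851, 10, 15, 17, 4968, 13851,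
  13851, 13851, 10, 17, 15, 4968, 20, 12483, 13851, 13, 15, 20, 23, 10299, 13851, 13851, 13851,
  13851, 13, 15, 17, 5697, 13851, 13851, 13851, 5, 13, 21, 3942, 12, 6939, 10, 10383, 11, 15,
  2322, 20, 9201, 13851, 15, 17, 5697, 13851, 13851, 11, 10, 7396, 12, 9655, 20, 21, 11673, 15,
  23, 10306, 13851, 13851, 15, 17, 23, 7312, 13851, 13851, 13851, 20, 21, 11673, 23, 12, 10297,
  15, 10306, 13851, 10, 17, 9496, 13851, 13851, 10, 17, 12, 2295, 15, 4968, 13851, 12, 15, 23,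
  10495, 13851, 13851, 13851, 12, 15, 23, 10495, 13851, 13851, 13851, 10, 17, 12, 2295, 15, 4968,
  20, 12483, 13, 23, 8107, 13851, 13851, 11, 12, 4455, 15, 5184, 13, 20, 9201, 13851, 13851, 12,
  23, 13, 6210, 20, 10297, 13851, 13, 15, 21, 11322, 13851, 13851, 13851, 13, 15, 21, 11322,
  13851, 13851, 13851, 11, 13, 15, 2322, 12, 5481, 20, 9201, 13851, 12, 23, 20, 10297, 15, 10495,
  13851, 17, 21, 8863, 13851, 13851, 15, 17, 23, 7312, 13851, 13851, 13851, 12, 13, 17, 4752, 23,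
  6210, 13851, 15, 23, 10495, 13851, 13851, 13, 15, 17, 5697, 13851, 13851, 13851, 7, 8, 7047,
  17, 3429, 19, 13140, 22, 20, 2403, 5, 13095, 23, 21, 1134, 4779, 14, 21, 7020, 16, 8837, 4,
  9905, 10, 15, 1566, 13851, 13851, 4, 11, 9662, 13, 8982, 10, 15, 10394, 12, 10953, 13851, 15,
  16, 7313, 13851, 13851, 15, 16, 7313, 10, 10394, 11, 13]

def c17 : List ℕ := [2322, 13851, 13851, 16, 21, 7307, 10, 13, 10388, 13851, 13851, 10, 11, 12,
  4455, 13851, 13851, 13851, 4, 11, 9662, 14, 21, 3186, 9905, 12, 5, 6075, 23, 3915, 20, 10304,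
  10, 10953, 13, 16, 21, 10523, 13851, 13851, 13851, 15, 20, 10313, 23, 10556, 10, 12411, 5, 21,
  6804, 13851, 13851, 21, 5, 6804, 23, 6264, 13, 16, 10523, 13851, 13851, 5, 10, 13, 10383, 16,
  20, 23, 14580, 13851, 13851, 13851, 13, 16, 20, 23, 14580, 13851, 13851, 13851, 13851, 10, 13,
  16, 10388, 13851, 13851, 13851, 10, 15, 12411, 5, 14, 8526, 13, 21, 3942, 12, 6939, 10383, 11,
  12, 4455, 21, 16, 8274, 20, 8287, 13851, 16, 20, 23, 14580, 13851, 13851, 13851, 20, 21, 11673,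
  12, 16, 23, 12114, 13851, 13851, 13851, 12, 16, 23, 12114, 13851, 13851, 13851, 11, 12, 4455,
  13, 14, 7302, 16, 10388, 20, 9201, 13851, 21, 16, 8274, 20, 8287, 13851, 14, 16, 20, 23, 14580,
  13851, 13851, 13851, 13851, 13, 16, 10388, 12, 14, 1053, 23, 6210, 13851, 14, 7302, 13851, 12,
  14, 5454, 16, 23, 12114, 13851, 13851, 14, 20, 21, 11025, 13851, 13851, 13851, 5, 13, 21, 3942,
  15, 11196, 12, 14, 1053, 11, 5481, 23, 6210, 13851, 14, 7302, 11, 20, 9201, 13851, 13851, 11,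
  12, 10944, 16, 15, 4995, 21, 8274, 14, 23, 8226, 13851, 13851, 14, 23, 8226, 20, 21, 8287,
  13851, 13851, 20, 21, 8287, 13851, 13851, 14, 23, 8226, 16, 12, 4725, 15, 5724, 13851, 20, 21,
  11673, 13851, 13851, 20, 21, 11673, 12, 16, 23, 12114, 13851, 13851, 13851, 12, 16, 23, 12114,
  13851, 13851, 13851, 11, 16, 12, 1593, 15, 4995, 21, 8274, 13, 14, 7302, 13851, 13851, 13, 15,
  2322, 20, 9201, 13851, 20, 12, 8284, 21, 8287, 13851, 12, 14, 15, 23, 8134, 13851, 13851,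
  13851, 13851, 15, 14, 16, 5724, 23, 8134, 13851, 12, 23, 13, 6210, 16, 12114, 13851, 13, 16,
  21, 10523, 13851, 13851, 13851, 13, 16, 21, 10523, 13851, 13851, 13851, 16, 21, 13, 10523, 12,
  14, 4725, 13851, 13851, 13851, 13851, 20, 19, 5265, 22, 2403, 8, 13131, 4, 11, 9198, 12, 5,
  6075, 23, 3915, 10, 10953, 13, 14, 1053, 17, 4752, 16, 21, 10523, 13851, 13851, 14, 6912,
  13851, 21, 5, 6804, 14, 3186, 23, 6264, 10, 17, 12483, 13, 16, 10379, 13851, 13851, 13851, 13,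
  14, 7302, 10, 5, 10383, 16, 10388, 17, 12483, 13851, 23, 17, 8107, 15, 10299, 13851, 13851, 10,
  17, 12483, 14, 15, 1566, 5, 8526, 13851, 15, 23, 10299, 13851, 13851, 23, 15, 10299, 5, 14,
  8226, 13851, 13851, 13851, 5, 21, 11673, 10, 17, 9496, 13, 10383, 11, 12, 4455, 15, 5184, 14,
  8526, 13851, 15, 14, 1566, 12, 16, 23, 12114, 13851, 13851, 13851, 14, 8526, 13851, 11, 12,
  10944, 13, 15, 2322, 14, 7302, 9201, 14, 17, 9658, 23, 8226, 13851, 13851, 23, 14, 8226, 12,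
  13, 6210, 13851, 13851, 13851, 10, 17, 12339, 11, 12, 4455, 15, 5184, 13, 9201, 14, 21, 11025,
  13851, 13851, 14, 15, 1566, 21, 11025]

def c18 : List ℕ := [13851, 13, 16, 10388, 12, 23, 6210, 13851, 13851, 12, 16, 23, 12114, 13851,
  13851, 13851, 11, 13, 15, 2322, 9201, 16, 12, 1593, 21, 8368, 13851, 14, 17, 9658, 15, 23,
  8134, 13851, 13851, 12, 15, 17, 23, 7312, 13851, 13851, 13851, 13851, 21, 23, 13, 6993, 17,
  7306, 12, 16, 12114, 13851, 13851, 13851, 13851, 8, 16, 4185, 23, 19, 1647, 4, 13068, 22, 21,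
  1134, 4779, 13, 21, 6993, 17, 8107, 5, 10633, 11, 15, 2322, 13851, 13851, 5, 10, 10390, 14,
  8226, 11, 15, 9664, 12, 10944, 13851, 15, 17, 7312, 13851, 13851, 15, 17, 7312, 11, 9664, 10,
  14, 1566, 13851, 13851, 17, 21, 7306, 10, 12, 2295, 13851, 13851, 10, 11, 12, 4455, 13851,
  13851, 13851, 5, 10, 10390, 13, 21, 3942, 10633, 12, 4, 6075, 22, 3213, 19, 9574, 11, 10944,
  14, 17, 21, 9766, 13851, 13851, 13851, 15, 19, 9583, 22, 9826, 11, 12402, 4, 21, 6804, 13851,
  13851, 21, 4, 6804, 22, 6291, 14, 17, 9766, 13851, 13851, 4, 11, 14, 9654, 17, 19, 22, 14580,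
  13851, 13851, 13851, 14, 17, 19, 22, 14580, 13851, 13851, 13851, 13851, 11, 14, 17, 9658,
  13851, 13851, 13851, 11, 15, 12402, 4, 13, 9255, 14, 21, 3186, 12, 6912, 9654, 10, 12, 4455,
  21, 17, 9003, 19, 9017, 13851, 17, 19, 22, 14580, 13851, 13851, 13851, 19, 21, 11682, 12, 17,
  22, 12132, 13851, 13851, 13851, 12, 17, 22, 12132, 13851, 13851, 13851, 10, 12, 4455, 14, 13,
  7302, 17, 9658, 19, 8499, 13851, 21, 17, 9003, 19, 9017, 13851, 13, 17, 19, 22, 14580, 13851,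
  13851, 13851, 13851, 14, 17, 9658, 12, 13, 1053, 22, 6183, 13851, 13, 7302, 13851, 12, 13,
  5481, 17, 22, 12132, 13851, 13851, 13, 19, 21, 11034, 13851, 13851, 13851, 4, 14, 21, 3186, 15,
  11187, 12, 13, 1053, 10, 5454, 22, 6183, 13851, 13, 7302, 10, 19, 8499, 13851, 13851, 10, 12,
  10953, 17, 15, 4968, 21, 9003, 13, 22, 8982, 13851, 13851, 13, 22, 8982, 19, 21, 9017, 13851,
  13851, 19, 21, 9017, 13851, 13851, 13, 22, 8982, 17, 12, 4752, 15, 5697, 13851, 19, 21, 11682,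
  13851, 13851, 19, 21, 11682, 12, 17, 22, 12132, 13851, 13851, 13851, 12, 17, 22, 12132, 13851,
  13851, 13851, 10, 17, 12, 2295, 15, 4968, 21, 9003, 13, 14, 7302, 13851, 13851, 14, 15, 1566,
  19, 8499, 13851, 19, 12, 9014, 21, 9017, 13851, 12, 13, 15, 22, 8891, 13851, 13851, 13851,
  13851, 15, 13, 17, 5697, 22, 8891, 13851, 12, 22, 14, 6183, 17, 12132, 13851, 14, 17, 21, 9766,
  13851, 13851, 13851, 14, 17, 21, 9766, 13851, 13851, 13851, 17, 21, 14, 9766, 12, 13, 4752,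
  13851, 13851, 13851, 13851, 19, 23, 1647, 4, 21, 11682, 5, 12, 6075, 10, 8496, 13, 14, 7302,
  22, 8982, 11, 15, 2322, 16, 10226, 13851, 13851, 11, 16, 10226, 14, 9654, 15, 22, 9570, 13851,
  13851, 22, 15, 9570, 14, 16, 8837, 13851, 13851, 13851, 11, 16, 10226, 14, 9654, 10, 12, 4455,
  15, 5184, 13, 9255, 13851, 15, 13]

def c19 : List ℕ := [2322, 12, 17, 22, 12132, 13851, 13851, 13851, 13, 9255, 13851, 10, 12,
  10953, 13, 14, 7302, 16, 10388, 22, 8982, 13851, 14, 15, 1566, 8499, 13851, 22, 13, 8982, 12,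
  14, 6183, 13851, 13851, 13851, 5, 10, 8496, 22, 12, 3213, 21, 6291, 15, 9570, 14, 13, 7302, 16,
  8837, 13851, 11, 16, 12492, 13851, 13851, 11, 12, 10944, 16, 12492, 13, 15, 2322, 21, 3942,
  13851, 14, 17, 9658, 13851, 13851, 21, 13, 3942, 14, 17, 9766, 12, 16, 4725, 13851, 13851,
  13851, 13851, 11, 16, 12366, 10, 12, 4455, 15, 5184, 14, 8499, 13, 21, 11034, 13851, 13851, 13,
  15, 2322, 21, 11034, 13851, 14, 17, 9658, 12, 22, 6183, 13851, 13851, 12, 17, 22, 12132, 13851,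
  13851, 13851, 10, 14, 15, 1566, 8499, 17, 12, 2295, 21, 9098, 13851, 13, 16, 10388, 15, 22,
  8891, 13851, 13851, 12, 15, 16, 22, 7313, 13851, 13851, 13851, 13851, 21, 22, 14, 7020, 16,
  7307, 12, 17, 12132, 13851, 13851, 13851, 13851, 4, 12, 5, 6075, 23, 3915, 10, 10953, 13, 14,
  1053, 17, 4752, 11, 5481, 22, 8982, 13851, 14, 6912, 11, 16, 1593, 17, 22, 12132, 13851, 13851,
  13851, 14, 21, 3186, 13, 7302, 11, 9654, 15, 10, 1566, 23, 8134, 13851, 5, 23, 8226, 10, 8526,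
  13851, 16, 17, 6399, 13851, 13851, 5, 21, 6804, 10, 11, 7380, 13, 10383, 22, 23, 4779, 13851,
  13851, 22, 23, 4779, 13, 8982, 13851, 11, 13, 15, 2322, 9255, 13851, 13851, 13, 22, 8982, 11,
  15, 2322, 9255, 21, 23, 6264, 13851, 13851, 10, 11, 15, 5184, 16, 17, 6399, 13851, 13851,
  13851, 13851, 5, 12, 22, 3213, 11, 10944, 14, 13, 1053, 16, 4725, 10, 5454, 23, 8226, 13851,
  13, 6939, 10, 17, 2295, 16, 23, 12114, 13851, 13851, 13851, 13, 21, 3942, 14, 7302, 10, 10383,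
  22, 23, 4779, 13851, 13851, 14, 23, 8226, 10, 15, 1566, 8526, 21, 22, 6291, 13851, 13851, 10,
  11, 15, 5184, 16, 17, 6399, 13851, 13851, 13851, 13851, 10, 11, 12, 4455, 15, 5184, 13, 14,
  7302, 16, 10388, 13851, 14, 17, 9658, 13851, 13851, 12, 17, 2295, 13, 14, 1053, 23, 6210, 16,
  10388, 13851, 14, 5454, 13851, 13, 14, 7302, 13851, 13851, 11, 12, 16, 1593, 14, 13, 1053, 22,
  6183, 17, 9658, 13851, 13, 5481, 13851, 13, 15, 2322, 14, 7302, 13851, 13851, 13851]

/-- the codes of the decision tree. -/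
def codes : List ℕ := c0 ++ (c1 ++ (c2 ++ (c3 ++ (c4 ++ (c5 ++ (c6 ++ (c7 ++ (c8 ++ (c9 ++ (c10 ++ (c11 ++ (c12 ++ (c13 ++ (c14 ++ (c15 ++ (c16 ++ (c17 ++ (c18 ++ (c19)))))))))))))))))))

theorem chk_codes : chk codes [(1, 4102), (1, 2097158), (1, 32774), (1, 16777222)] = true := by
  decide +kernel

theorem init (P : Pat) (h : RL P) (c : ℕ) (hc : ¬ At P c) : Agree P 1 (6 ||| 2 ^ c) := by
  have h0 : Agree P 0 0 := ⟨fun v hv => by simp at hv, fun v hv => by simp at hv⟩
  have a0 : At P 0 := by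
    have := (at_nx P 0 0 0).mpr (by simpa using h.p0)
    exact this
  have a1 : ¬ At P 1 := by
    intro hh
    have := (at_nx P 0 0 1).mp hh
    exact h.p1 (by simpa using this)
  have a2 : ¬ At P 2 := by
    intro hh
    have := (at_nx P 0 0 2).mp hh
    exact h.p2 (by simpa using this)
  have h1 := agree_T P 0 0 0 h0 a0
  have h2 := agree_F P _ _ 1 h1 a1
  have h3 := agree_F P _ _ 2 h2 a2
  have h4 := agree_F P _ _ c h3 hc
  exact h4

end L1FM

open L1FM in
theorem specL1F : SpecL1F := by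
  intro P h ht
  by_cases hall : ∀ a b, P a b 0
  · exact Or.inl hall
  right
  push Not at hall
  obtain ⟨a, b, hab⟩ := hall
  obtain ⟨q1, q2, q3, q4⟩ := h.sn 0 0 0 h.p0 (by simpa using h.p1) (by
    have h2 : (0 : ZMod 3) - 1 = 2 := rfl
    rw [h2]
    exact h.p2)
  have e1 : (0 : ZMod 3) + 1 = 1 := rfl
  have e2 : (0 : ZMod 3) - 1 = 2 := rfl
  rw [e1] at q1 q3
  rw [e2] at q2 q4
  have main : ∀ c T F : ℕ, ¬ At P c → (T, F) ∈ [(1, 4102), (1, 2097158), (1, 32774),
      (1, 16777222)] → 6 ||| 2 ^ c = F → T = 1 → Exc P := by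
    intro c T F hc hm hF hT
    refine chk_ok P h ht codes _ chk_codes (T, F) hm ?_
    rw [hT, ← hF]
    exact init P h c hc
  have hc : ∀ k : ZMod 3, k = 0 ∨ k = 1 ∨ k = 2 := by decide
  rcases hc a with rfl | rfl | rfl
  · rcases hc b with rfl | rfl | rfl
    · exact absurd h.p0 hab
    · exact absurd q3 hab
    · exact absurd q4 hab
  · rcases hc b with rfl | rfl | rfl
    · exact absurd q1 hab
    · refine main 12 1 4102 ?_ (by simp) (by decide) rfl
      intro hh
      have := (at_nx P 1 1 0).mp hh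
      exact hab (by simpa using this)
    · refine main 21 1 2097158 ?_ (by simp) (by decide) rfl
      intro hh
      have := (at_nx P 1 2 0).mp hh
      exact hab (by simpa using this)
  · rcases hc b with rfl | rfl | rfl
    · exact absurd q2 hab
    · refine main 15 1 32774 ?_ (by simp) (by decide) rfl
      intro hh
      have := (at_nx P 2 1 0).mp hh
      exact hab (by simpa using this)
    · refine main 24 1 16777222 ?_ (by simp) (by decide) rfl
      intro hh
      have := (at_nx P 2 2 0).mp hh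
      exact hab (by simpa using this)

end Pool.Agent.Lib.MP_b63a06_co.TR
end

section
set_option autoImplicit false

/-!
# MP_b63a06_co: the rules hold (L1R)
-/

namespace Pool.Agent.Lib.MP_b63a06_co.TR

namespace L1RM

variable {V : Type} [AddCommGroup V] [Module (ZMod 3) V]

theorem z3 : ∀ j : ZMod 3, j ≠ 0 → j = 1 ∨ j = -1 := by decide

omit [Module (ZMod 3) V] in
theorem neg_iff {H : V → Prop} (h : HR H) (x : V) : H (-x) ↔ H x :=
  ⟨fun hx => by simpa using h.neg _ hx, h.neg x⟩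

theorem hs_neg {H : V → Prop} (h : HR H) {κ a : V} (ha : HS H κ a) : HS H κ (-a) := by
  refine ⟨h.neg _ ha.1, fun h1 => ha.2.2 ?_, fun h1 => ha.2.1 ?_⟩
  · rw [← neg_iff h]
    have e : -(a - κ) = -a + κ := by abel
    rw [e]; exact h1
  · rw [← neg_iff h]
    have e : -(a + κ) = -a - κ := by abel
    rw [e]; exact h1

theorem add_mem {H : V → Prop} (h : HR H) {κ a b : V} (hκ : ¬ H κ) (ha : HS H κ a)
    (hb : HS H κ b) : H (a + b) := by
  have := h.cf κ a (-b) hκ ha (hs_neg h hb)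
  rwa [sub_neg_eq_add] at this

theorem dir {H : V → Prop} {z s : V} (hs : HS H z s) {j : ZMod 3} (hj : j ≠ 0) :
    ¬ H (s + j • z) := by
  rcases z3 j hj with rfl | rfl
  · rw [one_smul]; exact hs.2.1
  · rw [neg_smul, one_smul, ← sub_eq_add_neg]; exact hs.2.2

theorem dir2 {H : V → Prop} (h : HR H) {z s : V} (hs : HS H z s) {α k : ZMod 3} (hα : α ≠ 0)
    (hk : k ≠ 0) : ¬ H (-(α • s) + k • z) := by
  rcases z3 α hα with rfl | rfl
  · intro h1
    apply dir hs (neg_ne_zero.mpr hk)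
    rw [← neg_iff h]
    have e : -(s + (-k) • z) = -((1 : ZMod 3) • s) + k • z := by module
    rw [e]; exact h1
  · intro h1
    apply dir hs hk
    have e : s + k • z = -((-1 : ZMod 3) • s) + k • z := by module
    rw [e]; exact h1

/-- The sum of two points. -/
theorem pt_add (s t z y : V) (a b i a' b' i' : ZMod 3) :
    y + (-a - a') • s + (-b - b') • t + (-i - i') • z =
      -((y + a • s + b • t + i • z) + (y + a' • s + b' • t + i' • z)) := by
  have h3 : y + y + y = 0 := by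
    have : y + y + y = (3 : ZMod 3) • y := by module
    rw [this, show (3 : ZMod 3) = 0 from rfl, zero_smul]
  have : y + (-a - a') • s + (-b - b') • t + (-i - i') • z -
      -((y + a • s + b • t + i • z) + (y + a' • s + b' • t + i' • z)) = y + y + y := by module
  rw [← sub_eq_zero, this, h3]

/-- Two points which are single in the direction `κ`. -/
theorem two {H : V → Prop} (h : HR H) (s t z y κ : V) (a b i a' b' i' : ZMod 3) (hκ : ¬ H κ)
    (h1 : HS H κ (y + a • s + b • t + i • z)) (h2 : HS H κ (y + a' • s + b' • t + i' • z)) :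
    H (y + (-a - a') • s + (-b - b') • t + (-i - i') • z) := by
  rw [pt_add, neg_iff h]
  exact add_mem h hκ h1 h2

theorem sgl1 {H : V → Prop} (s t z y : V) (a b i : ZMod 3) (da db di : ZMod 3)
    (h0 : H (y + a • s + b • t + i • z))
    (h1 : ¬ H (y + (a + da) • s + (b + db) • t + (i + di) • z))
    (h2 : ¬ H (y + (a - da) • s + (b - db) • t + (i - di) • z)) :
    HS H (da • s + db • t + di • z) (y + a • s + b • t + i • z) := by
  refine ⟨h0, ?_, ?_⟩
  · have e : y + a • s + b • t + i • z + (da • s + db • t + di • z) =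
        y + (a + da) • s + (b + db) • t + (i + di) • z := by module
    rw [e]; exact h1
  · have e : y + a • s + b • t + i • z - (da • s + db • t + di • z) =
        y + (a - da) • s + (b - db) • t + (i - di) • z := by module
    rw [e]; exact h2

end L1RM

open L1RM in
theorem specL1R : SpecL1R := by
  intro V _ _ H h z s t y hz hs ht hy
  have hdir : ∀ da db di : ZMod 3, da • s + db • t + di • z = da • s + db • t + di • z :=
    fun _ _ _ => rfl
  have kz : ¬ H ((0 : ZMod 3) • s + (0 : ZMod 3) • t + (1 : ZMod 3) • z) := by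
    rw [zero_smul, zero_smul, one_smul, zero_add, zero_add]; exact hz
  have ks : ∀ j : ZMod 3, j ≠ 0 → ¬ H ((1 : ZMod 3) • s + (0 : ZMod 3) • t + j • z) := by
    intro j hj
    rw [zero_smul, one_smul, add_zero]; exact dir hs hj
  have kt : ∀ j : ZMod 3, j ≠ 0 → ¬ H ((0 : ZMod 3) • s + (1 : ZMod 3) • t + j • z) := by
    intro j hj
    rw [zero_smul, one_smul, zero_add]; exact dir ht hj
  refine
    { p0 := ?_, p1 := ?_, p2 := ?_, vert := ?_, ln1 := ?_, ln2 := ?_, sn := ?_, th := ?_,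
      hs := ?_, ht := ?_, k1 := ?_ }
  · show H (y + (0 : ZMod 3) • s + (0 : ZMod 3) • t + (0 : ZMod 3) • z)
    rw [zero_smul, zero_smul, zero_smul, add_zero, add_zero, add_zero]
    exact hy.1
  · show ¬ H (y + (0 : ZMod 3) • s + (0 : ZMod 3) • t + (1 : ZMod 3) • z)
    rw [zero_smul, zero_smul, one_smul, add_zero, add_zero]
    exact hy.2.1
  · show ¬ H (y + (0 : ZMod 3) • s + (0 : ZMod 3) • t + (2 : ZMod 3) • z)
    rw [zero_smul, zero_smul, add_zero, add_zero, show (2 : ZMod 3) = -1 from rfl, neg_smul,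
      one_smul, ← sub_eq_add_neg]
    exact hy.2.2
  · intro a b
    rcases h.mx z hz (y + a • s + b • t) with h1 | h1 | h1
    · exact ⟨0, by show H _; rw [zero_smul, add_zero]; exact h1⟩
    · exact ⟨1, by show H _; rw [one_smul]; exact h1⟩
    · exact ⟨-1, by show H _; rw [neg_smul, one_smul, ← sub_eq_add_neg]; exact h1⟩
  · intro a b i j hj
    rcases h.mx _ (dir hs hj) (y + a • s + b • t + i • z) with h1 | h1 | h1
    · exact Or.inl h1
    · refine Or.inr (Or.inl ?_)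
      show H _
      have e : y + (a + 1) • s + b • t + (i + j) • z = y + a • s + b • t + i • z + (s + j • z) := by
        module
      rw [e]; exact h1
    · refine Or.inr (Or.inr ?_)
      show H _
      have e : y + (a - 1) • s + b • t + (i - j) • z = y + a • s + b • t + i • z - (s + j • z) := by
        module
      rw [e]; exact h1
  · intro a b i j hj
    rcases h.mx _ (dir ht hj) (y + a • s + b • t + i • z) with h1 | h1 | h1
    · exact Or.inl h1
    · refine Or.inr (Or.inl ?_)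
      show H _
      have e : y + a • s + (b + 1) • t + (i + j) • z = y + a • s + b • t + i • z + (t + j • z) := by
        module
      rw [e]; exact h1
    · refine Or.inr (Or.inr ?_)
      show H _
      have e : y + a • s + (b - 1) • t + (i - j) • z = y + a • s + b • t + i • z - (t + j • z) := by
        module
      rw [e]; exact h1
  · intro a b i h0 h1 h2
    have hx := sgl1 s t z y a b i 0 0 1 h0 (by rw [add_zero, add_zero]; exact h1)
      (by rw [sub_zero, sub_zero]; exact h2)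
    have ez : (0 : ZMod 3) • s + (0 : ZMod 3) • t + (1 : ZMod 3) • z = z := by module
    rw [ez] at hx
    refine ⟨?_, ?_, ?_, ?_⟩
    · show H _
      have e : y + (a + 1) • s + b • t + i • z = y + a • s + b • t + i • z + s := by module
      rw [e]; exact add_mem h hz hx hs
    · show H _
      have e : y + (a - 1) • s + b • t + i • z = y + a • s + b • t + i • z - s := by module
      rw [e]; exact h.cf z _ _ hz hx hs
    · show H _
      have e : y + a • s + (b + 1) • t + i • z = y + a • s + b • t + i • z + t := by module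
      rw [e]; exact add_mem h hz hx ht
    · show H _
      have e : y + a • s + (b - 1) • t + i • z = y + a • s + b • t + i • z - t := by module
      rw [e]; exact h.cf z _ _ hz hx ht
  · intro a b i a' b' i' h0 h1 h2 h0' h1' h2'
    exact two h s t z y _ a b i a' b' i' kz
      (sgl1 s t z y a b i 0 0 1 h0 (by rw [add_zero, add_zero]; exact h1)
        (by rw [sub_zero, sub_zero]; exact h2))
      (sgl1 s t z y a' b' i' 0 0 1 h0' (by rw [add_zero, add_zero]; exact h1')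
        (by rw [sub_zero, sub_zero]; exact h2'))
  · intro j hj a b i a' b' i' h0 h1 h2 h0' h1' h2'
    exact two h s t z y _ a b i a' b' i' (ks j hj)
      (sgl1 s t z y a b i 1 0 j h0 (by rw [add_zero]; exact h1) (by rw [sub_zero]; exact h2))
      (sgl1 s t z y a' b' i' 1 0 j h0' (by rw [add_zero]; exact h1')
        (by rw [sub_zero]; exact h2'))
  · intro j hj a b i a' b' i' h0 h1 h2 h0' h1' h2'
    exact two h s t z y _ a b i a' b' i' (kt j hj)
      (sgl1 s t z y a b i 0 1 j h0 (by rw [add_zero]; exact h1) (by rw [sub_zero]; exact h2))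
      (sgl1 s t z y a' b' i' 0 1 j h0' (by rw [add_zero]; exact h1')
        (by rw [sub_zero]; exact h2'))
  · intro a b i j α β hij hα hβ hκ h0 h1 h0' h1'
    have hk : i - j ≠ 0 := sub_ne_zero.mpr hij
    have z1 : ∀ u v : ZMod 3, -(u - v) - u = u + v := by decide
    have z2 : ∀ u : ZMod 3, -u - u = u := by decide
    have z4 : ∀ u v : ZMod 3, -u - (u - v) = u + v := by decide
    -- the first point
    have hx : HS H (y + a • s + b • t + j • z) (y + (a - α) • s + b • t + i • z) := by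
      refine ⟨h0, ?_, ?_⟩
      · intro h2
        apply h1
        show H _
        have e := pt_add s t z y (a - α) b i a b j
        rw [z1, z2] at e
        rw [e, neg_iff h]
        exact h2
      · have e : y + (a - α) • s + b • t + i • z - (y + a • s + b • t + j • z) =
            -(α • s) + (i - j) • z := by module
        rw [e]
        exact dir2 h hs hα hk
    have hx' : HS H (y + a • s + b • t + j • z) (y + a • s + (b - β) • t + i • z) := by
      refine ⟨h0', ?_, ?_⟩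
      · intro h2
        apply h1'
        show H _
        have e := pt_add s t z y a (b - β) i a b j
        rw [z1, z2] at e
        rw [e, neg_iff h]
        exact h2
      · have e : y + a • s + (b - β) • t + i • z - (y + a • s + b • t + j • z) =
            -(β • t) + (i - j) • z := by module
        rw [e]
        exact dir2 h ht hβ hk
    have := two h s t z y _ _ _ _ _ _ _ hκ hx hx'
    rw [z1, z4, z2] at this
    exact this

end Pool.Agent.Lib.MP_b63a06_co.TR
end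

section
set_option autoImplicit false

/-!
# N5G: a conflict has size at least 5 if `|W| ≥ 9` (helper73)
-/

namespace Pool.Agent.Lib.MP_b63a06_co.TR

namespace N5GM

variable {V : Type} [AddCommGroup V] [Module (ZMod 3) V]

/-- A functional on a space with at least nine elements has a nonzero kernel. -/
theorem ker_ne_bot [Finite V] (W : Submodule (ZMod 3) V) (hW : 9 ≤ Nat.card W)
    (φ : V →ₗ[ZMod 3] ZMod 3) : W ⊓ LinearMap.ker φ ≠ ⊥ := by
  intro h
  have hinj : Function.Injective (fun w : W => φ w) := by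
    intro w w' hww
    have h1 : (w : V) - w' ∈ W ⊓ LinearMap.ker φ := by
      refine ⟨W.sub_mem w.2 w'.2, ?_⟩
      rw [SetLike.mem_coe, LinearMap.mem_ker, map_sub, sub_eq_zero]
      exact hww
    rw [h, Submodule.mem_bot, sub_eq_zero] at h1
    exact Subtype.ext h1
  have h2 := Nat.card_le_card_of_injective _ hinj
  rw [Nat.card_zmod] at h2
  omega

end N5GM

open N5GM in
theorem specN5G (hEXS : SpecEXS) (hCBA : SpecCBA) (hSPN : SpecSPN) (hMEE : SpecMEE) :
    SpecN5G := by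
  intro V _ _ _ A hA hQR W s t hc hW
  have hind := (hCBA V A hA W s t hc).1
  have hst : s - t ∉ A := hc.ns
  -- the set of the indices at the coset of `s - t`
  have hY : 4 ≤ {w : W | s - t + (w : V) ∈ A}.ncard := by
    apply hSPN W
    · intro h0
      apply hst
      have h1 : s - t + ((0 : W) : V) ∈ A := h0
      simpa using h1
    · intro f
      obtain ⟨φ, hφ, hs, ht⟩ := hEXS V W s t hind f
      have hK := ker_ne_bot W hW φ
      have hn := hQR W (W ⊓ LinearMap.ker φ) s t hK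
      have hx : ∃ x ∈ A, x - (s - t) ∈ W ⊓ LinearMap.ker φ := by
        by_contra hcon
        push Not at hcon
        apply hn
        refine ⟨hc.mx, inf_le_left, hc.s1.1, hc.t1.1, ?_, ?_, hcon⟩
        · intro x hx hxs
          rw [hc.s1.2 x hx hxs, sub_self]
          exact Submodule.zero_mem _
        · intro x hx hxt
          rw [hc.t1.2 x hx hxt, sub_self]
          exact Submodule.zero_mem _
      obtain ⟨x, hxA, hxW, hxK⟩ := hx
      refine ⟨⟨x - (s - t), hxW⟩, ?_, ?_⟩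
      · show s - t + (x - (s - t)) ∈ A
        rw [add_sub_cancel]
        exact hxA
      · rw [← hφ]
        exact hxK
  have h1 : 4 ≤ (cs A W (s - t)).ncard := by
    refine le_trans hY ?_
    refine Set.ncard_le_ncard_of_injOn (fun w : W => s - t + (w : V)) ?_ ?_ (Set.toFinite _)
    · intro w hw
      refine ⟨hw, ?_⟩
      show s - t + (w : V) - (s - t) ∈ W
      rw [add_sub_cancel_left]
      exact w.2
    · intro w _ w' _ h
      have h2 : s - t + (w : V) = s - t + (w' : V) := h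
      exact Subtype.ext (add_left_cancel h2)
  have h2 : 1 ≤ (cs A W (s + t)).ncard := by
    obtain ⟨a, ha, haW⟩ := hMEE V A hA W hc.mx (s + t)
    have hne : (cs A W (s + t)).Nonempty := ⟨a, ha, haW⟩
    exact (Set.ncard_pos (Set.toFinite _)).2 hne
  unfold NN
  omega

end Pool.Agent.Lib.MP_b63a06_co.TR
end

section
set_option autoImplicit false

namespace Pool.Agent.Lib.MP_b63a06_co.TR

namespace P2M

variable {V : Type} [AddCommGroup V] [Module (ZMod 3) V]

/-- A hyperplane coset of `W` has at least three elements if `|W| ≥ 9`. -/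
theorem three_le [Finite V] (W : Submodule (ZMod 3) V) (h9 : 9 ≤ Nat.card W)
    (φ : V →ₗ[ZMod 3] ZMod 3) (hφ : ∃ w ∈ W, φ w ≠ 0) (c : ZMod 3)
    [Fintype {w : V // w ∈ W ∧ φ w = c}] :
    3 ≤ Fintype.card {w : V // w ∈ W ∧ φ w = c} := by
  classical
  haveI : Fintype V := Fintype.ofFinite V
  obtain ⟨w₁, hw₁, hne⟩ := hφ
  -- an element with value one
  obtain ⟨u, hu, hu1⟩ : ∃ u ∈ W, φ u = 1 := by
    refine ⟨(φ w₁)⁻¹ • w₁, W.smul_mem _ hw₁, ?_⟩
    rw [map_smul, smul_eq_mul, inv_mul_cancel₀ hne]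
  -- all the cosets have the same number of elements
  have hcard : ∀ d : ZMod 3, Fintype.card {w : V // w ∈ W ∧ φ w = d} =
      Fintype.card {w : V // w ∈ W ∧ φ w = c} := by
    intro d
    refine Fintype.card_congr
      { toFun := fun w => ⟨w.1 + (c - d) • u, W.add_mem w.2.1 (W.smul_mem _ hu), by
          rw [map_add, map_smul, hu1, w.2.2, smul_eq_mul, mul_one]; ring⟩
        invFun := fun w => ⟨w.1 - (c - d) • u, W.sub_mem w.2.1 (W.smul_mem _ hu), by
          rw [map_sub, map_smul, hu1, w.2.2, smul_eq_mul, mul_one]; ring⟩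
        left_inv := fun w => by ext; simp
        right_inv := fun w => by ext; simp }
  have hsum : Nat.card W = ∑ d : ZMod 3, Fintype.card {w : V // w ∈ W ∧ φ w = d} := by
    rw [Nat.card_eq_fintype_card, ← Fintype.card_sigma]
    refine Fintype.card_congr
      { toFun := fun w => ⟨φ w.1, ⟨w.1, w.2, rfl⟩⟩
        invFun := fun x => ⟨x.2.1, x.2.2.1⟩
        left_inv := fun w => rfl
        right_inv := ?_ }
    rintro ⟨d, w, hw, rfl⟩
    rfl
  rw [Finset.sum_congr rfl fun d _ => hcard d] at hsum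
  rw [Finset.sum_const, Finset.card_univ, ZMod.card, smul_eq_mul] at hsum
  omega

end P2M

open P2M in
theorem specP2 (hPC : SpecPC) (hPD : SpecPD) : SpecP2 := by
  classical
  intro V _ _ _ A hA hQR W s t hC h9 y φ c hs ht hy hφ
  haveI : Fintype V := Fintype.ofFinite V
  haveI : Fintype {w : V // w ∈ W ∧ φ w = c} := inferInstance
  obtain ⟨hR, hE⟩ := hPD V A hA hQR W s t hC y φ c hs ht hy hφ
  have hE' := hE inferInstance
  have h3 := three_le W h9 φ hφ c
  obtain ⟨p1, p2, -⟩ := hPC _ _ h3 hR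
  rw [hE']
  refine ⟨p1, ?_⟩
  rintro a b ⟨w, hw, hwc, hwA⟩
  have h := p2 (a, b) ⟨⟨w, hw, hwc⟩, hwA⟩
  have hset : {w : V | w ∈ W ∧ φ w = c ∧ y + a • s + b • t + w ∈ A} =
      Subtype.val '' {w : {w : V // w ∈ W ∧ φ w = c} | (a, b) ∈
        {p : ZMod 3 × ZMod 3 | y + p.1 • s + p.2 • t + w.1 ∈ A}} := by
    ext x
    constructor
    · rintro ⟨h1, h2, h3⟩
      exact ⟨⟨x, h1, h2⟩, h3, rfl⟩
    · rintro ⟨⟨x', h1, h2⟩, h3, rfl⟩
      exact ⟨h1, h2, h3⟩
  rw [hset, Set.ncard_image_of_injective _ Subtype.val_injective]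
  exact h

end Pool.Agent.Lib.MP_b63a06_co.TR
end

section
set_option autoImplicit false

/-!
# MP_b63a06_co, TR: module P3 (helper14)

`9 + e₀ ≤ T`.
-/

namespace Pool.Agent.Lib.MP_b63a06_co.TR

namespace P3M

variable {V : Type} [AddCommGroup V] [Module (ZMod 3) V]

/-- the linear form `c` at `u`. -/
def dt (c u : ZMod 3 × ZMod 3) : ZMod 3 := c.1 * u.1 + c.2 * u.2

theorem three (a : ZMod 3) : a = 0 ∨ a = 1 ∨ a = 2 := by revert a; decide

/-- eight equations. -/
theorem N_one (N : ZMod 3 × ZMod 3 → ℕ)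
    (h : ∀ c : ZMod 3 × ZMod 3, c ≠ 0 →
      (∑ u ∈ Finset.univ.filter (fun u => dt c u = 1), N u) = 3) :
    ∀ u : ZMod 3 × ZMod 3, u ≠ 0 → N u = 1 := by
  have e1 : Finset.univ.filter (fun u : ZMod 3 × ZMod 3 => dt (1, 0) u = 1) =
    {(1, 0), (1, 1), (1, 2)} := by decide
  have e2 : Finset.univ.filter (fun u : ZMod 3 × ZMod 3 => dt (2, 0) u = 1) =
    {(2, 0), (2, 1), (2, 2)} := by decide
  have e3 : Finset.univ.filter (fun u : ZMod 3 × ZMod 3 => dt (0, 1) u = 1) =
    {(0, 1), (1, 1), (2, 1)} := by decide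
  have e4 : Finset.univ.filter (fun u : ZMod 3 × ZMod 3 => dt (0, 2) u = 1) =
    {(0, 2), (1, 2), (2, 2)} := by decide
  have e5 : Finset.univ.filter (fun u : ZMod 3 × ZMod 3 => dt (1, 1) u = 1) =
    {(1, 0), (0, 1), (2, 2)} := by decide
  have e6 : Finset.univ.filter (fun u : ZMod 3 × ZMod 3 => dt (2, 2) u = 1) =
    {(2, 0), (0, 2), (1, 1)} := by decide
  have e7 : Finset.univ.filter (fun u : ZMod 3 × ZMod 3 => dt (1, 2) u = 1) =
    {(1, 0), (0, 2), (2, 1)} := by decide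
  have e8 : Finset.univ.filter (fun u : ZMod 3 × ZMod 3 => dt (2, 1) u = 1) =
    {(2, 0), (0, 1), (1, 2)} := by decide
  have tri : ∀ a b c : ZMod 3 × ZMod 3, a ≠ b → a ≠ c → b ≠ c →
      (∑ u ∈ ({a, b, c} : Finset (ZMod 3 × ZMod 3)), N u) = N a + N b + N c := by
    intro a b c hab hac hbc
    rw [Finset.sum_insert (by simp [hab, hac]), Finset.sum_pair hbc]
    ring
  have h1 := h (1, 0) (by decide)
  have h2 := h (2, 0) (by decide)
  have h3 := h (0, 1) (by decide)
  have h4 := h (0, 2) (by decide)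
  have h5 := h (1, 1) (by decide)
  have h6 := h (2, 2) (by decide)
  have h7 := h (1, 2) (by decide)
  have h8 := h (2, 1) (by decide)
  rw [e1, tri _ _ _ (by decide) (by decide) (by decide)] at h1
  rw [e2, tri _ _ _ (by decide) (by decide) (by decide)] at h2
  rw [e3, tri _ _ _ (by decide) (by decide) (by decide)] at h3
  rw [e4, tri _ _ _ (by decide) (by decide) (by decide)] at h4
  rw [e5, tri _ _ _ (by decide) (by decide) (by decide)] at h5
  rw [e6, tri _ _ _ (by decide) (by decide) (by decide)] at h6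
  rw [e7, tri _ _ _ (by decide) (by decide) (by decide)] at h7
  rw [e8, tri _ _ _ (by decide) (by decide) (by decide)] at h8
  have k1 : N (1, 0) = 1 := by omega
  have k2 : N (2, 0) = 1 := by omega
  have k3 : N (0, 1) = 1 := by omega
  have k4 : N (0, 2) = 1 := by omega
  have k5 : N (1, 1) = 1 := by omega
  have k6 : N (2, 2) = 1 := by omega
  have k7 : N (1, 2) = 1 := by omega
  have k8 : N (2, 1) = 1 := by omega
  rintro ⟨a, b⟩ hu
  have ha := three a
  have hb := three b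
  rcases ha with rfl | rfl | rfl <;> rcases hb with rfl | rfl | rfl
  · exact absurd rfl hu
  · exact k3
  · exact k4
  · exact k1
  · exact k5
  · exact k7
  · exact k2
  · exact k8
  · exact k6

theorem four (a b c d : ZMod 3) : ¬ (a ≠ b ∧ a ≠ c ∧ a ≠ d ∧ b ≠ c ∧ b ≠ d ∧ c ≠ d) := by
  revert a b c d; decide

theorem card_dt (c : ZMod 3 × ZMod 3) (hc : c ≠ 0) :
    (Finset.univ.filter (fun u : ZMod 3 × ZMod 3 => dt c u = 1)).card = 3 := by
  revert c; decide

/-- independent functionals are surjective. -/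
theorem surj (W : Submodule (ZMod 3) V) (φ ψ : V →ₗ[ZMod 3] ZMod 3)
    (h : ∀ a b : ZMod 3, (∀ w ∈ W, (a • φ + b • ψ) w = 0) → a = 0 ∧ b = 0) :
    Function.Surjective (fun w : W => ((φ w, ψ w) : ZMod 3 × ZMod 3)) := by
  let g : W →ₗ[ZMod 3] ZMod 3 × ZMod 3 := (φ.prod ψ).comp W.subtype
  have hg : LinearMap.range g = ⊤ := by
    by_contra hne
    obtain ⟨f, hf, hle⟩ := Submodule.exists_le_ker_of_lt_top _ (lt_top_iff_ne_top.2 hne)
    have hfx : ∀ x y : ZMod 3, f (x, y) = x * f (1, 0) + y * f (0, 1) := by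
      intro x y
      have : ((x, y) : ZMod 3 × ZMod 3) = x • ((1, 0) : ZMod 3 × ZMod 3) +
        y • ((0, 1) : ZMod 3 × ZMod 3) := by simp
      rw [this, map_add, map_smul, map_smul, smul_eq_mul, smul_eq_mul]
    have h0 := h (f (1, 0)) (f (0, 1)) (by
      intro w hw
      have h1 : g ⟨w, hw⟩ ∈ LinearMap.ker f := hle ⟨_, rfl⟩
      have h2 : f (φ w, ψ w) = 0 := h1
      rw [hfx] at h2
      simp only [LinearMap.add_apply, LinearMap.smul_apply, smul_eq_mul]
      rw [mul_comm (f (1, 0)), mul_comm (f (0, 1))]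
      exact h2)
    apply hf
    ext
    · simpa using h0.1
    · simpa using h0.2
  intro u
  have : u ∈ LinearMap.range g := by rw [hg]; trivial
  obtain ⟨w, hw⟩ := this
  exact ⟨w, hw⟩

theorem exists_ne (W : Submodule (ZMod 3) V) (φ ψ : V →ₗ[ZMod 3] ZMod 3)
    (h : ∀ a b : ZMod 3, (∀ w ∈ W, (a • φ + b • ψ) w = 0) → a = 0 ∧ b = 0)
    (p : ZMod 3 × ZMod 3) (hp : p ≠ 0) : ∃ w ∈ W, (p.1 • φ + p.2 • ψ) w ≠ 0 := by
  by_contra hcon
  push Not at hcon
  have := h p.1 p.2 hcon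
  exact hp (Prod.ext this.1 this.2)

variable [Finite V]

/-- the main computation. -/
theorem main (hP2 : SpecP2) (hP8 : SpecP8) (A : Set V) (hA : Sy A) (hQ : QR A)
    (W : Submodule (ZMod 3) V) (s t : V) (hC : Conf A W s t) (h9 : 9 ≤ Nat.card W)
    (y : V) (φ ψ : V →ₗ[ZMod 3] ZMod 3) (hφs : φ s = 0) (hφt : φ t = 0) (hφy : φ y = 0)
    (hψs : ψ s = 0) (hψt : ψ t = 0) (hψy : ψ y = 0)
    (h : ∀ a b : ZMod 3, (∀ w ∈ W, (a • φ + b • ψ) w = 0) → a = 0 ∧ b = 0) :
    (cs A (FF W s t) y).ncard = {x | x ∈ cs A (FF W s t) y ∧ (φ x = 0 ∧ ψ x = 0)}.ncard +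
      {x | x ∈ cs A (FF W s t) y ∧ ¬ (φ x = 0 ∧ ψ x = 0)}.ncard ∧
    8 ≤ {x | x ∈ cs A (FF W s t) y ∧ ¬ (φ x = 0 ∧ ψ x = 0)}.ncard ∧
    ({x | x ∈ cs A (FF W s t) y ∧ ¬ (φ x = 0 ∧ ψ x = 0)}.ncard = 8 →
      ∀ p : ZMod 3 × ZMod 3, p ≠ 0 → EC A W s t y (p.1 • φ + p.2 • ψ) 1 = 3) := by
  set Y := cs A (FF W s t) y with hY
  have hsum := hP8 V Y φ ψ
  have hEC : ∀ p : ZMod 3 × ZMod 3, {x | x ∈ Y ∧ (p.1 • φ + p.2 • ψ) x = 1}.ncard =
      EC A W s t y (p.1 • φ + p.2 • ψ) 1 := by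
    intro p
    unfold EC
    congr 1
    ext x
    simp only [hY, cs, Set.mem_ofPred_eq, and_assoc]
  simp only [hEC] at hsum
  have h3 : ∀ p : ZMod 3 × ZMod 3, p ≠ 0 → 3 ≤ EC A W s t y (p.1 • φ + p.2 • ψ) 1 := by
    intro p hp
    exact (hP2 V A hA hQ W s t hC h9 y (p.1 • φ + p.2 • ψ) 1 (by simp [hφs, hψs])
      (by simp [hφt, hψt]) (by simp [hφy, hψy]) (exists_ne W φ ψ h p hp)).1
  have hz : EC A W s t y (((0 : ZMod 3 × ZMod 3).1) • φ + ((0 : ZMod 3 × ZMod 3).2) • ψ) 1 = 0 := by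
    unfold EC
    rw [Set.ncard_eq_zero]
    ext x
    simp
  have hcard : (Finset.univ.erase (0 : ZMod 3 × ZMod 3)).card = 8 := by decide
  have hsplit : (∑ p ∈ Finset.univ.erase (0 : ZMod 3 × ZMod 3),
      EC A W s t y (p.1 • φ + p.2 • ψ) 1) =
      3 * {x | x ∈ Y ∧ ¬ (φ x = 0 ∧ ψ x = 0)}.ncard := by
    rw [← hsum]
    apply Finset.sum_erase
    exact hz
  have hge : ∑ p ∈ Finset.univ.erase (0 : ZMod 3 × ZMod 3), 3 ≤
      ∑ p ∈ Finset.univ.erase (0 : ZMod 3 × ZMod 3), EC A W s t y (p.1 • φ + p.2 • ψ) 1 := by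
    apply Finset.sum_le_sum
    intro p hp
    exact h3 p (Finset.ne_of_mem_erase hp)
  rw [Finset.sum_const, hcard, smul_eq_mul] at hge
  refine ⟨?_, by omega, ?_⟩
  · rw [← Set.ncard_union_eq]
    · congr 1
      ext x
      simp only [Set.mem_union, Set.mem_ofPred_eq]
      tauto
    · rw [Set.disjoint_left]
      rintro x ⟨-, h1⟩ ⟨-, h2⟩
      exact h2 h1
  · intro h8 p hp
    rw [h8] at hsplit
    have h24 : (∑ p ∈ Finset.univ.erase (0 : ZMod 3 × ZMod 3), 3) =
        ∑ p ∈ Finset.univ.erase (0 : ZMod 3 × ZMod 3), EC A W s t y (p.1 • φ + p.2 • ψ) 1 := by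
      rw [hsplit, Finset.sum_const, hcard, smul_eq_mul]
    have := (Finset.sum_eq_sum_iff_of_le (fun p hp => h3 p (Finset.ne_of_mem_erase hp))).1 h24 p
      (Finset.mem_erase.2 ⟨hp, Finset.mem_univ _⟩)
    exact this.symm

end P3M

open P3M

theorem specP3 (hCBA : SpecCBA) (hYSM : SpecYSM) (hP2 : SpecP2) (hP8 : SpecP8) (hEX2 : SpecEX2)
    (hPC : SpecPC) (hPD : SpecPD) : SpecP3 := by
  intro V _ _ _ A hA hQ W s t hC h9 y hy
  have hind := (hCBA V A hA W s t hC).1
  have hmem := (hYSM V A W s t).1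
  -- the points
  set P := {p : ZMod 3 × ZMod 3 | y + p.1 • s + p.2 • t ∈ A} with hP
  set pt : ZMod 3 × ZMod 3 → V := fun p => y + p.1 • s + p.2 • t with hpt
  have hsF : s ∈ FF W s t := Submodule.mem_sup_right (Submodule.subset_span (by simp))
  have htF : t ∈ FF W s t := Submodule.mem_sup_right (Submodule.subset_span (by simp))
  have hWF : W ≤ FF W s t := le_sup_left
  have hptF : ∀ p w, w ∈ W → pt p + w - y ∈ FF W s t := by
    intro p w hw
    have : pt p + w - y = p.1 • s + p.2 • t + w := by simp only [hpt]; abel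
    rw [this]
    exact Submodule.add_mem _ (Submodule.add_mem _ (Submodule.smul_mem _ _ hsF)
      (Submodule.smul_mem _ _ htF)) (hWF hw)
  have hinj : ∀ p q : ZMod 3 × ZMod 3, ∀ w ∈ W, pt p + w = pt q → p = q ∧ w = 0 := by
    intro p q w hw he
    have h1 : (q.1 - p.1) • s + (q.2 - p.2) • t = w := by
      have h2 : pt q - pt p = w := by rw [← he]; abel
      rw [← h2]
      simp only [hpt, sub_smul]
      abel
    have h3 := hind (q.1 - p.1) (q.2 - p.2) (by rw [h1]; exact hw)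
    have hpq : p = q := Prod.ext (sub_eq_zero.1 h3.1).symm (sub_eq_zero.1 h3.2).symm
    refine ⟨hpq, ?_⟩
    rw [← h1, h3.1, h3.2]
    simp
  have hptinj : Function.Injective pt := by
    intro p q he
    exact (hinj p q 0 W.zero_mem (by simpa using he)).1
  have hPcard : (pt '' P).ncard = P.ncard := Set.ncard_image_of_injective P hptinj
  -- two functionals
  obtain ⟨φ, ψ, hφs, hφt, hφy, hψs, hψt, hψy, -, -, hφψ⟩ :=
    hEX2 V A hA W s t hC y hy 0 W.zero_mem (Or.inl ⟨h9, rfl⟩)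
  have hpow : Nat.card W = 3 ^ Module.finrank (ZMod 3) W := by
    have := Module.natCard_eq_pow_finrank (K := ZMod 3) (V := W)
    rw [Nat.card_zmod] at this
    exact this
  by_cases h27 : 27 ≤ Nat.card W
  · -- an element which is not a point
    have hex : ∃ p : ZMod 3 × ZMod 3, ∃ w ∈ W, w ≠ 0 ∧ pt p + w ∈ A := by
      obtain ⟨w₀, hw₀, hne⟩ := exists_ne W φ ψ hφψ (1, 0) (by decide)
      have h3 := (hP2 V A hA hQ W s t hC h9 y φ 1 hφs hφt hφy
        ⟨w₀, hw₀, by simpa using hne⟩).1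
      have hnon : {x | x ∈ A ∧ x - y ∈ FF W s t ∧ φ x = 1}.Nonempty := by
        rw [← Set.ncard_pos]
        have : 3 ≤ {x | x ∈ A ∧ x - y ∈ FF W s t ∧ φ x = 1}.ncard := h3
        omega
      obtain ⟨x, hxA, hxF, hx1⟩ := hnon
      obtain ⟨a, b, hab⟩ := (hmem (x - y)).1 hxF
      refine ⟨(a, b), x - y - a • s - b • t, hab, ?_, ?_⟩
      · intro h0
        have : φ (x - y - a • s - b • t) = 0 := by rw [h0, map_zero]
        simp only [map_sub, map_smul, hφs, hφt, hφy, smul_zero, sub_zero] at this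
        rw [this] at hx1
        exact absurd hx1 (by decide)
      · have : pt (a, b) + (x - y - a • s - b • t) = x := by simp only [hpt]; abel
        rw [this]
        exact hxA
    obtain ⟨p₁, w₁, hw₁, hw₁0, hp₁⟩ := hex
    obtain ⟨φ', ψ', hφs, hφt, hφy, hψs, hψt, hψy, hφw, hψw, hφψ⟩ :=
      hEX2 V A hA W s t hC y hy w₁ hw₁ (Or.inr h27)
    obtain ⟨hT, h8, -⟩ := main hP2 hP8 A hA hQ W s t hC h9 y φ' ψ' hφs hφt hφy hψs hψt hψy hφψ
    have hsub : insert (pt p₁ + w₁) (pt '' P) ⊆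
        {x | x ∈ cs A (FF W s t) y ∧ (φ' x = 0 ∧ ψ' x = 0)} := by
      intro x hx
      rcases Set.mem_insert_iff.1 hx with rfl | ⟨p, hp, rfl⟩
      · refine ⟨⟨hp₁, hptF p₁ w₁ hw₁⟩, ?_, ?_⟩
        · simp [hpt, hφs, hφt, hφy, hφw]
        · simp [hpt, hψs, hψt, hψy, hψw]
      · refine ⟨⟨hp, ?_⟩, ?_, ?_⟩
        · have := hptF p 0 W.zero_mem
          simpa using this
        · simp [hpt, hφs, hφt, hφy]
        · simp [hpt, hψs, hψt, hψy]
    have hnot : pt p₁ + w₁ ∉ pt '' P := by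
      rintro ⟨q, -, hq⟩
      exact hw₁0 (hinj p₁ q w₁ hw₁ hq.symm).2
    have hle := Set.ncard_le_ncard hsub (Set.toFinite _)
    rw [Set.ncard_insert_of_notMem hnot (Set.toFinite _), hPcard] at hle
    omega
  · -- order nine
    have hW9 : Nat.card W = 9 := by
      have hn : Module.finrank (ZMod 3) W < 3 := by
        by_contra hcon
        push Not at hcon
        have : 3 ^ 3 ≤ 3 ^ Module.finrank (ZMod 3) W := Nat.pow_le_pow_right (by norm_num) hcon
        omega
      interval_cases hh : Module.finrank (ZMod 3) W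
      · omega
      · omega
      · omega
    obtain ⟨hT, h8, h8'⟩ := main hP2 hP8 A hA hQ W s t hC h9 y φ ψ hφs hφt hφy hψs hψt hψy hφψ
    have hsurj := surj W φ ψ hφψ
    have : Fintype W := Fintype.ofFinite _
    have hbij : Function.Bijective (fun w : W => ((φ w, ψ w) : ZMod 3 × ZMod 3)) := by
      rw [Fintype.bijective_iff_surjective_and_card]
      refine ⟨hsurj, ?_⟩
      rw [← Nat.card_eq_fintype_card, hW9]
      rfl
    let E : W ≃ ZMod 3 × ZMod 3 := Equiv.ofBijective _ hbij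
    have hE : ∀ w : W, E w = (φ w, ψ w) := fun w => rfl
    -- the elements on which both vanish are points
    have hpts : {x | x ∈ cs A (FF W s t) y ∧ (φ x = 0 ∧ ψ x = 0)} = pt '' P := by
      ext x
      constructor
      · rintro ⟨⟨hxA, hxF⟩, h1, h2⟩
        obtain ⟨a, b, hab⟩ := (hmem (x - y)).1 hxF
        have hw0 : (⟨x - y - a • s - b • t, hab⟩ : W) = 0 := by
          apply hbij.1
          simp [hφs, hφt, hφy, hψs, hψt, hψy, h1, h2]
        have hw0' : x - y - a • s - b • t = 0 := congrArg Subtype.val hw0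
        have hxe : x = pt (a, b) := by
          have : pt (a, b) + (x - y - a • s - b • t) = x := by simp only [hpt]; abel
          rw [hw0', add_zero] at this
          exact this.symm
        exact ⟨(a, b), by rw [hxe] at hxA; exact hxA, hxe.symm⟩
      · rintro ⟨p, hp, rfl⟩
        refine ⟨⟨hp, ?_⟩, ?_, ?_⟩
        · have := hptF p 0 W.zero_mem
          simpa using this
        · simp [hpt, hφs, hφt, hφy]
        · simp [hpt, hψs, hψt, hψy]
    rw [hpts, hPcard] at hT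
    by_contra hcon
    have hY8 : {x | x ∈ cs A (FF W s t) y ∧ ¬ (φ x = 0 ∧ ψ x = 0)}.ncard = 8 := by
      have : ¬ (9 + P.ncard ≤ (cs A (FF W s t) y).ncard) := hcon
      omega
    have hEC3 := h8' hY8
    -- positions
    let D : ZMod 3 × ZMod 3 → Set (ZMod 3 × ZMod 3) := fun u =>
      {p | y + p.1 • s + p.2 • t + (E.symm u : V) ∈ A}
    have hχ : ∀ c : ZMod 3 × ZMod 3, ∀ w : W, (c.1 • φ + c.2 • ψ) (w : V) = dt c (E w) := by
      intro c w
      rw [hE]
      simp [dt]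
    -- the lines
    have hline : ∀ c : ZMod 3 × ZMod 3, c ≠ 0 →
        (∑ u ∈ Finset.univ.filter (fun u => dt c u = 1), (D u).ncard) = 3 ∧
        ((∀ u, dt c u = 1 → (D u).ncard = 1) → ∀ u u', dt c u = 1 → dt c u' = 1 → u ≠ u' →
          ∀ p ∈ D u, ∀ p' ∈ D u', p.1 ≠ p'.1) := by
      intro c hc
      let χ : V →ₗ[ZMod 3] ZMod 3 := c.1 • φ + c.2 • ψ
      have hF : Fintype {w : V // w ∈ W ∧ χ w = 1} := Fintype.ofFinite _
      obtain ⟨hR, hS⟩ := hPD V A hA hQ W s t hC y χ 1 (by simp [χ, hφs, hψs])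
        (by simp [χ, hφt, hψt]) (by simp [χ, hφy, hψy]) (exists_ne W φ ψ hφψ c hc)
      have hS := hS hF
      rw [show EC A W s t y χ 1 = 3 from hEC3 c hc] at hS
      let e : {w : V // w ∈ W ∧ χ w = 1} ≃ {u : ZMod 3 × ZMod 3 // dt c u = 1} :=
        { toFun := fun w => ⟨E ⟨w.1, w.2.1⟩, by
            have := w.2.2
            rw [← hχ]
            exact this⟩
          invFun := fun u => ⟨(E.symm u.1 : V), (E.symm u.1).2, by
            have := hχ c (E.symm u.1)
            rw [Equiv.apply_symm_apply, u.2] at this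
            exact this⟩
          left_inv := by
            intro w
            apply Subtype.ext
            simp
          right_inv := by
            intro u
            apply Subtype.ext
            simp }
      have hDe : ∀ w : {w : V // w ∈ W ∧ χ w = 1},
          {p : ZMod 3 × ZMod 3 | y + p.1 • s + p.2 • t + w.1 ∈ A} = D (e w).1 := by
        intro w
        have : ((E.symm (e w).1 : W) : V) = w.1 := by
          simp [e]
        simp only [D, this]
      have hcard : Fintype.card {w : V // w ∈ W ∧ χ w = 1} = 3 := by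
        rw [Fintype.card_congr e, Fintype.card_subtype]
        exact card_dt c hc
      refine ⟨?_, ?_⟩
      · have k1 : (∑ u ∈ Finset.univ.filter (fun u => dt c u = 1), (D u).ncard) =
            ∑ u : {u : ZMod 3 × ZMod 3 // dt c u = 1}, (D u.1).ncard :=
          Finset.sum_subtype _ (by simp) _
        have k2 : (∑ w : {w : V // w ∈ W ∧ χ w = 1}, (D (e w).1).ncard) =
            ∑ u : {u : ZMod 3 × ZMod 3 // dt c u = 1}, (D u.1).ncard :=
          Fintype.sum_equiv e _ _ (fun w => rfl)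
        simp only [hDe] at hS
        rw [k1, ← k2]
        exact hS.symm
      · intro h1 u u' hu hu' hne p hp p' hp'
        have hpc := (hPC {w : V // w ∈ W ∧ χ w = 1} _ (by omega) hR).2.2 hcard (by
          intro w
          rw [hDe]
          exact h1 _ (e w).2)
        have := hpc (e.symm ⟨u, hu⟩) (e.symm ⟨u', hu'⟩) (by
          intro heq
          have := e.symm.injective heq
          exact hne (congrArg Subtype.val this)) p (by
          rw [hDe, Equiv.apply_symm_apply]; exact hp) p' (by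
          rw [hDe, Equiv.apply_symm_apply]; exact hp')
        exact this.1
    have hone := N_one (fun u => (D u).ncard) (fun c hc => (hline c hc).1)
    have hrow : ∀ u u' : ZMod 3 × ZMod 3, u ≠ 0 → u' ≠ 0 → u ≠ u' →
        (∃ c : ZMod 3 × ZMod 3, dt c u = 1 ∧ dt c u' = 1) →
        ∀ p ∈ D u, ∀ p' ∈ D u', p.1 ≠ p'.1 := by
      rintro u u' hu hu' hne ⟨c, hc, hc'⟩
      have hc0 : c ≠ 0 := by
        rintro rfl
        simp [dt] at hc
      refine (hline c hc0).2 ?_ u u' hc hc' hne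
      intro v hv
      apply hone
      rintro rfl
      simp [dt] at hv
    have hget : ∀ u : ZMod 3 × ZMod 3, u ≠ 0 → (D u).Nonempty := by
      intro u hu
      rw [← Set.ncard_pos]
      have h1 : (D u).ncard = 1 := hone u hu
      omega
    obtain ⟨a, ha⟩ := hget (1, 0) (by decide)
    obtain ⟨b, hb⟩ := hget (0, 1) (by decide)
    obtain ⟨c, hc⟩ := hget (1, 1) (by decide)
    obtain ⟨d, hd⟩ := hget (1, 2) (by decide)
    exact four a.1 b.1 c.1 d.1
      ⟨hrow _ _ (by decide) (by decide) (by decide) (by decide) a ha b hb,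
       hrow _ _ (by decide) (by decide) (by decide) (by decide) a ha c hc,
       hrow _ _ (by decide) (by decide) (by decide) (by decide) a ha d hd,
       hrow _ _ (by decide) (by decide) (by decide) (by decide) b hb c hc,
       hrow _ _ (by decide) (by decide) (by decide) (by decide) b hb d hd,
       hrow _ _ (by decide) (by decide) (by decide) (by decide) c hc d hd⟩

end Pool.Agent.Lib.MP_b63a06_co.TR
end
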