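import Pool.Agent.Lib.MP_b63a06_co.TR.SpecC

section
set_option autoImplicit false

/-!
# MP_b63a06_co, TR, module C61 (helper54): `61 M / 81` colours; the common part of C61 and C54.
-/

namespace Pool.Agent.Lib.MP_b63a06_co.TR

namespace C61M

variable {V : Type} [AddCommGroup V] [Module (ZMod 3) V]

/-- the five coordinate vectors. -/
def gg (e : Fin 3 → V) (α β : V) : Fin 5 → V := ![e 0, e 1, e 2, α, β]

theorem lc_gg (e : Fin 3 → V) (α β : V) (c : Fin 5 → ZMod 3) :
    lc (gg e α β) c = lc e ![c 0, c 1, c 2] + c 3 • α + c 4 • β := by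
  simp [lc, gg, Fin.sum_univ_succ]
  abel_nf
  try rfl

theorem eq_zero (c : Fin 5 → ZMod 3) (h : (![c 0, c 1, c 2] : Fin 3 → ZMod 3) = 0) (h3 : c 3 = 0)
    (h4 : c 4 = 0) : c = 0 := by
  have h0 : c 0 = 0 := by simpa using congrFun h 0
  have h1 : c 1 = 0 := by simpa using congrFun h 1
  have h2 : c 2 = 0 := by simpa using congrFun h 2
  funext i
  fin_cases i
  · exact h0
  · exact h1
  · exact h2
  · exact h3
  · exact h4

/-- the common part of C61 and C54. -/
theorem main (hCIN : SpecCIN) (hCPE : SpecCPE) (hCRD : SpecCRD) {V : Type} [AddCommGroup V]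
    [Module (ZMod 3) V] [Finite V] {A : Set V} (hA : Sy A) {F : Submodule (ZMod 3) V}
    {e : Fin 3 → V} (hF : Frame A F e) {α β : V} (hα : Cn A F α) (hβ : Cn A F β)
    (hI : Ind2 F α β) {R : Submodule (ZMod 3) V} (hR : Cpl F e R) {W : Submodule (ZMod 3) V}
    (hW : MaxAv A W) (k : ℕ) (K : (Fin 5 → ZMod 3) → Prop) (col : (Fin 5 → ZMod 3) → ℕ)
    (h1 : ∀ c, col c < k) (h2 : ∀ c d, c ≠ d → K (c - d) → col c ≠ col d)
    (hK : ∀ a ∈ A, ∀ c : Fin 5 → ZMod 3,
      a - (lc e ![c 0, c 1, c 2] + c 3 • α + c 4 • β) ∈ R →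
      ((c 3 = 0 ∨ c 4 = 0) → EE ![c 0, c 1, c 2]) → K c) :
    ∃ m, ix W = 81 * m ∧ ColA A (k * m) := by
  obtain ⟨-, h⟩ := hCPE V A F e hF
  obtain ⟨-, hcard, hel⟩ := h R hR
  obtain ⟨m, hm, hc⟩ := hCRD V A R 5 k (gg e α β) K col (by
    intro c hc
    rw [lc_gg] at hc
    have hlF : lc e ![c 0, c 1, c 2] ∈ F :=
      Submodule.sum_mem _ fun i _ => F.smul_mem _ (hF.mem i)
    have hab : c 3 • α + c 4 • β ∈ F := by
      have h := F.sub_mem (hR.le hc) hlF
      have e1 : lc e ![c 0, c 1, c 2] + c 3 • α + c 4 • β - lc e ![c 0, c 1, c 2] =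
          c 3 • α + c 4 • β := by abel
      rwa [e1] at h
    obtain ⟨h3, h4⟩ := hI _ _ hab
    refine eq_zero c (hR.dj _ ?_) h3 h4
    rw [h3, h4, zero_smul, zero_smul, add_zero, add_zero] at hc
    exact hc) h1 h2 (by
    intro a ha ha0 c hc
    rw [lc_gg] at hc
    refine ⟨?_, hK a ha c hc fun hpq => ?_⟩
    · rintro rfl
      refine ha0 ?_
      have hz : lc e ![(0 : Fin 5 → ZMod 3) 0, (0 : Fin 5 → ZMod 3) 1, (0 : Fin 5 → ZMod 3) 2] =
          0 := by
        simp [lc, Fin.sum_univ_succ]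
      rw [hz] at hc
      have h := (hel a ha 0 (by simpa [lc] using hc)).2
      simpa [lc] using h
    · exact hCIN V A hA F e hF R hR α β hα hβ a ha _ _ _ hpq hc)
  refine ⟨m, ?_, hc⟩
  have := (hcard W hW).2.1
  omega

end C61M

/-- C61. -/
theorem specC61 (hT61 : SpecT61) (hCIN : SpecCIN) (hCPE : SpecCPE) (hCRD : SpecCRD) : SpecC61 := by
  intro V _ _ _ A hA F e hF α β hα hβ hI W hW
  obtain ⟨col, h1, h2⟩ := hT61
  obtain ⟨⟨R, hR⟩, -⟩ := hCPE V A F e hF
  exact C61M.main hCIN hCPE hCRD hA hF hα hβ hI hR hW 61 K61 col h1 h2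
    (fun a _ c _ h => h)

end Pool.Agent.Lib.MP_b63a06_co.TR
end

section
set_option autoImplicit false

/-!
# MP_b63a06_co, TR, module C54 (helper54): `54 M / 81` colours.
-/

namespace Pool.Agent.Lib.MP_b63a06_co.TR

/-- C54. -/
theorem specC54 (hT54 : SpecT54) (hCIN : SpecCIN) (hCPE : SpecCPE) (hCRD : SpecCRD) : SpecC54 := by
  intro V _ _ _ A hA F e α β R hC hR hq W hW
  obtain ⟨col, h1, h2⟩ := hT54
  refine C61M.main hCIN hCPE hCRD hA hC.fr hC.ca hC.cb hC.id hR hW 54 K54 col h1 h2 ?_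
  intro a ha c hc h
  refine ⟨h, ?_⟩
  rintro h3 h34 ⟨h0, h1', h2'⟩
  have hz : lc e ![c 0, c 1, c 2] = 0 := by
    simp [lc, h0, h1', h2', Fin.sum_univ_succ]
  have h4 : c 4 = - c 3 := by
    rw [eq_neg_iff_add_eq_zero, add_comm]; exact h34
  rw [hz, zero_add, h4] at hc
  have h33 : c 3 = 1 ∨ c 3 = -1 := by
    revert h3
    generalize c 3 = x
    revert x
    decide
  rcases h33 with h | h
  · rw [h, one_smul, neg_smul, one_smul, ← sub_eq_add_neg] at hc
    exact hq (a - (α - β)) ⟨hR.le hc, by simpa using ha⟩ hc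
  · rw [h, neg_neg, one_smul, neg_smul, one_smul] at hc
    have hc' : -a - (α - β) ∈ R := by
      have := R.neg_mem hc
      have e1 : -(a - (-α + β)) = -a - (α - β) := by abel
      rwa [e1] at this
    exact hq (-a - (α - β)) ⟨hR.le hc', by simpa using hA.2 a ha⟩ hc'

end Pool.Agent.Lib.MP_b63a06_co.TR
end

section
set_option autoImplicit false

/-!
# MP_b63a06_co, module C63 (helper80): `7 M / 9` colours if there are two independent centres

Colouring by the coordinates `z, s, t, α, β` with the table T63.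
-/

namespace Pool.Agent.Lib.MP_b63a06_co.TR

namespace C63M

variable {V : Type} [AddCommGroup V] [Module (ZMod 3) V]

theorem zmod_cases : ∀ c : ZMod 3, c = 0 ∨ c = 1 ∨ c = -1 := by decide

/-- removing a multiple of a centre. -/
theorem cn_drop {A : Set V} (hA : Sy A) {F : Submodule (ZMod 3) V} {γ : V} (hγ : Cn A F γ)
    {q : V} (hq : q ∈ F) (c : ZMod 3) (h : q + c • γ ∈ A) : q ∈ A := by
  rcases zmod_cases c with rfl | rfl | rfl
  · simpa using h
  · have h' : γ + q ∈ A := by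
      rw [one_smul, add_comm] at h
      exact h
    exact (hγ q hq).1 h'
  · have h1 := hA.2 _ h
    have h' : γ + -q ∈ A := by
      rw [neg_smul, one_smul] at h1
      have e : -(q + -γ) = γ + -q := by abel
      rwa [e] at h1
    have h2 := (hγ (-q) (F.neg_mem hq)).1 h'
    simpa using hA.2 _ h2

theorem lc5 (z s t α β : V) (c : Fin 5 → ZMod 3) :
    lc ![z, s, t, α, β] c = c 0 • z + c 1 • s + c 2 • t + c 3 • α + c 4 • β := by
  unfold lc
  rw [Fin.sum_univ_five]
  rfl

theorem ix_bot [Finite V] (W : Submodule (ZMod 3) V) :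
    ix (⊥ : Submodule (ZMod 3) V) = Nat.card W * ix W := by
  unfold ix
  rw [Nat.card_congr (Submodule.quotEquivOfEqBot (⊥ : Submodule (ZMod 3) V) rfl).toEquiv,
    Submodule.card_eq_card_quotient_mul_card W]

theorem exists_ne (W : Submodule (ZMod 3) V) (h : Nat.card W = 3) : ∃ z ∈ W, z ≠ 0 := by
  by_contra hcon
  push Not at hcon
  have hb : W = ⊥ := (Submodule.eq_bot_iff W).2 hcon
  rw [hb] at h
  simp at h

theorem W_le (W : Submodule (ZMod 3) V) (s t : V) : W ≤ FF W s t := le_sup_left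

theorem s_mem (W : Submodule (ZMod 3) V) (s t : V) : s ∈ FF W s t :=
  Submodule.mem_sup_right (Submodule.subset_span (by simp))

theorem t_mem (W : Submodule (ZMod 3) V) (s t : V) : t ∈ FF W s t :=
  Submodule.mem_sup_right (Submodule.subset_span (by simp))

end C63M

open C63M in
theorem specC63 (hT : SpecT63) (hD : SpecCRD) (hB : SpecCBA) (hE : SpecEPX) : SpecC63 := by
  intro V _ _ _ A hA W s t hc hW h5 α β hα hβ hI
  obtain ⟨col, hlt, hcol⟩ := hT
  obtain ⟨z, hz, hz0⟩ := exists_ne W hW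
  have hind := (hB V A hA W s t hc).1
  have hq : ∀ c₀ c₁ c₂ : ZMod 3, c₀ • z + c₁ • s + c₂ • t ∈ FF W s t := fun c₀ c₁ c₂ =>
    (FF W s t).add_mem ((FF W s t).add_mem ((FF W s t).smul_mem _ (W_le W s t hz))
      ((FF W s t).smul_mem _ (s_mem W s t))) ((FF W s t).smul_mem _ (t_mem W s t))
  have H1 : ∀ c, lc ![z, s, t, α, β] c ∈ (⊥ : Submodule (ZMod 3) V) → c = 0 := by
    intro c h
    rw [Submodule.mem_bot, lc5] at h
    have h34 : c 3 • α + c 4 • β ∈ FF W s t := by
      have e : c 3 • α + c 4 • β = -(c 0 • z + c 1 • s + c 2 • t) := by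
        rw [eq_neg_iff_add_eq_zero, ← h]
        abel
      rw [e]
      exact (FF W s t).neg_mem (hq _ _ _)
    obtain ⟨h3, h4⟩ := hI _ _ h34
    rw [h3, h4, zero_smul, zero_smul, add_zero, add_zero] at h
    have h12 : c 1 • s + c 2 • t ∈ W := by
      have e : c 1 • s + c 2 • t = -(c 0 • z) := by
        rw [eq_neg_iff_add_eq_zero, ← h]
        abel
      rw [e]
      exact W.neg_mem (W.smul_mem _ hz)
    obtain ⟨h1, h2⟩ := hind _ _ h12
    rw [h1, h2, zero_smul, zero_smul, add_zero, add_zero] at h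
    have h0 : c 0 = 0 := by
      by_contra hne
      apply hz0
      have : Fact (Nat.Prime 3) := ⟨Nat.prime_three⟩
      rcases zmod_cases (c 0) with h' | h' | h'
      · exact absurd h' hne
      · rw [h', one_smul] at h
        exact h
      · rw [h', neg_smul, one_smul, neg_eq_zero] at h
        exact h
    funext i
    fin_cases i
    · exact h0
    · exact h1
    · exact h2
    · exact h3
    · exact h4
  have H2 : ∀ a ∈ A, a ≠ 0 → ∀ c, a - lc ![z, s, t, α, β] c ∈ (⊥ : Submodule (ZMod 3) V) →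
      c ≠ 0 ∧ K63 c := by
    intro a ha ha0 c h
    rw [Submodule.mem_bot, sub_eq_zero] at h
    refine ⟨?_, ?_⟩
    · rintro rfl
      apply ha0
      rw [h, lc5]
      simp
    · intro h34
      rw [lc5] at h
      rw [← hE V A hA W s t hc hW h5 z hz hz0]
      rcases h34 with h3 | h4
      · rw [h3, zero_smul, add_zero] at h
        rw [h] at ha
        exact cn_drop hA hβ (hq _ _ _) _ ha
      · rw [h4, zero_smul, add_zero] at h
        rw [h] at ha
        exact cn_drop hA hα (hq _ _ _) _ ha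
  obtain ⟨m, hm, hcm⟩ := hD V A ⊥ 5 63 ![z, s, t, α, β] K63 col H1 hlt hcol H2
  refine ⟨9 * m, ?_, ?_⟩
  · have h1 := ix_bot W
    rw [hm, hW] at h1
    norm_num at h1
    omega
  · have e : 7 * (9 * m) = 63 * m := by ring
    rw [e]
    exact hcm

end Pool.Agent.Lib.MP_b63a06_co.TR
end

section
set_option autoImplicit false

/-!
# MP_b63a06_co, module CIN (helper30): elements of `A` in `R + ⟨e, α, β⟩` with one zero coefficient
-/

namespace Pool.Agent.Lib.MP_b63a06_co.TR

namespace CINM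

variable {V : Type} [AddCommGroup V] [Module (ZMod 3) V]

theorem lc_mem {A : Set V} {F : Submodule (ZMod 3) V} {e : Fin 3 → V} (h : Frame A F e)
    (c : Fin 3 → ZMod 3) : lc e c ∈ F :=
  Submodule.sum_mem _ fun i _ => Submodule.smul_mem _ _ (h.mem i)

theorem three_cases : ∀ p : ZMod 3, p = 0 ∨ p = 1 ∨ p = -1 := by decide

theorem one_dir [Finite V] (hCPE : SpecCPE) {A : Set V} (hA : Sy A) {F : Submodule (ZMod 3) V}
    {e : Fin 3 → V} (hF : Frame A F e) {R : Submodule (ZMod 3) V} (hR : Cpl F e R) {α : V}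
    (hα : Cn A F α) {a : V} (ha : a ∈ A) (c : Fin 3 → ZMod 3) (p : ZMod 3)
    (h : a - (lc e c + p • α) ∈ R) : EE c := by
  have key := ((hCPE V A F e hF).2 R hR).2.2
  have hlc := lc_mem hF c
  rcases three_cases p with rfl | rfl | rfl
  · exact (key a ha c (by simpa using h)).1
  · have h1 : (a - α) - lc e c ∈ R := by
      have : a - (lc e c + (1 : ZMod 3) • α) = (a - α) - lc e c := by rw [one_smul]; abel
      rwa [this] at h
    have h2 : a - α ∈ F := by
      have := F.add_mem (hR.le h1) hlc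
      simpa using this
    have h3 : a - α ∈ A := (hα _ h2).1 (by simpa using ha)
    exact (key _ h3 c h1).1
  · have h1 : (a + α) - lc e c ∈ R := by
      have : a - (lc e c + (-1 : ZMod 3) • α) = (a + α) - lc e c := by
        rw [neg_smul, one_smul]; abel
      rwa [this] at h
    have h2 : a + α ∈ F := by
      have := F.add_mem (hR.le h1) hlc
      simpa using this
    have h3 : -(a + α) ∈ A := (hα _ (F.neg_mem h2)).1 (by
      have : α + -(a + α) = -a := by abel
      rw [this]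
      exact hA.2 a ha)
    have h4 : a + α ∈ A := by
      have := hA.2 _ h3
      rwa [neg_neg] at this
    exact (key _ h4 c h1).1

end CINM

theorem specCIN (hCPE : SpecCPE) : SpecCIN := by
  intro V _ _ _ A hA F e hF R hR α β hα hβ a ha c p q hpq h
  rcases hpq with rfl | rfl
  · exact CINM.one_dir hCPE hA hF hR hβ ha c q (by simpa using h)
  · exact CINM.one_dir hCPE hA hF hR hα ha c p (by simpa using h)

end Pool.Agent.Lib.MP_b63a06_co.TR
end

section
set_option autoImplicit false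

/-!
# MP_b63a06_co, Reed's bound for elementary abelian 3-groups: module CLQ
-/

namespace Pool.Agent.Lib.MP_b63a06_co.TR

namespace CLQM

/-- The coordinate form of `EE`. -/
theorem ee_shift : ∀ c0 c1 c2 : ZMod 3, EE ![c0, c1, c2] →
    (∀ d0 d1 d2 : ZMod 3, EE ![c0 + d0, c1 + d1, c2 + d2] ↔ EE ![d0, d1, d2]) →
    c0 = 0 ∧ c1 = 0 ∧ c2 = 0 := by decide

theorem vec3 (c : Fin 3 → ZMod 3) : ![c 0, c 1, c 2] = c := by
  funext i
  fin_cases i <;> rfl

theorem ee_zero (c : Fin 3 → ZMod 3) (h : EE c) (h2 : ∀ d, EE (c + d) ↔ EE d) : c = 0 := by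
  have h3 := ee_shift (c 0) (c 1) (c 2) (by rw [vec3]; exact h) (by
    intro d0 d1 d2
    have := h2 ![d0, d1, d2]
    have e : c + ![d0, d1, d2] = ![c 0 + d0, c 1 + d1, c 2 + d2] := by
      funext i
      fin_cases i <;> rfl
    rw [e] at this
    exact this)
  funext i
  fin_cases i
  · exact h3.1
  · exact h3.2.1
  · exact h3.2.2

variable {V : Type} [AddCommGroup V] [Module (ZMod 3) V]

theorem lc_add (e : Fin 3 → V) (c d : Fin 3 → ZMod 3) : lc e (c + d) = lc e c + lc e d := by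
  simp [lc, add_smul, Finset.sum_add_distrib]

theorem lc_sub (e : Fin 3 → V) (c d : Fin 3 → ZMod 3) : lc e (c - d) = lc e c - lc e d := by
  simp [lc, sub_smul, Finset.sum_sub_distrib]

theorem three (x : V) : x + x + x = 0 := by
  have : x + x + x = (3 : ZMod 3) • x := by
    rw [show (3 : ZMod 3) = 1 + 1 + 1 by decide, add_smul, add_smul, one_smul]
  rw [this, show (3 : ZMod 3) = 0 by decide, zero_smul]

theorem lc_mem {A : Set V} {F : Submodule (ZMod 3) V} {e : Fin 3 → V} (hF : Frame A F e)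
    (c : Fin 3 → ZMod 3) : lc e c ∈ F :=
  F.sum_mem fun i _ => F.smul_mem _ (hF.mem i)

theorem lc_iff {A : Set V} {F : Submodule (ZMod 3) V} {e : Fin 3 → V} (hF : Frame A F e)
    (c : Fin 3 → ZMod 3) : lc e c ∈ A ↔ EE c := by
  constructor
  · intro h
    obtain ⟨c', hc', h2⟩ := (hF.cut (lc e c)).1 ⟨h, lc_mem hF c⟩
    have h3 : c - c' = 0 := hF.ind _ (by rw [lc_sub, h2, sub_self])
    rw [sub_eq_zero.1 h3]
    exact hc'
  · intro h
    exact ((hF.cut (lc e c)).2 ⟨c, h, rfl⟩).1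

/-- (i): a centre in `F` is `0`. -/
theorem cen_zero {A : Set V} (hA : Sy A) {F : Submodule (ZMod 3) V} {e : Fin 3 → V}
    (hF : Frame A F e) {δ : V} (hδ : δ ∈ F) (hc : Cn A F δ) : δ = 0 := by
  have h1 : δ ∈ A := by
    have := (hc 0 F.zero_mem).2 hA.1
    simpa using this
  obtain ⟨c, hcE, rfl⟩ := (hF.cut δ).1 ⟨h1, hδ⟩
  have h2 : c = 0 := by
    refine ee_zero c hcE fun d => ?_
    rw [← lc_iff hF, ← lc_iff hF, lc_add]
    exact hc _ (lc_mem hF d)
  rw [h2]
  simp [lc]

theorem cen_neg {A : Set V} (hA : Sy A) {F : Submodule (ZMod 3) V} {α : V}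
    (hc : Cn A F α) : Cn A F (-α) := by
  have hn : ∀ x : V, -x ∈ A ↔ x ∈ A := fun x =>
    ⟨fun h => by simpa using hA.2 _ h, fun h => hA.2 _ h⟩
  intro q hq
  rw [← hn, show -(-α + q) = α + (-q) by abel, hc _ (F.neg_mem hq), hn]

theorem zcases (a : ZMod 3) : a = 0 ∨ a = 1 ∨ a = -1 := by
  revert a
  decide

/-- the difference of two centres in different classes which are not adjacent. -/
theorem main {A : Set V} (hA : Sy A) {F : Submodule (ZMod 3) V} {e : Fin 3 → V}
    (hF : Frame A F e) {α β : V} (ha : Cn A F α) (hb : Cn A F β) (hn : α - β ∉ A)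
    (hd : α - β ∉ F) : Ind2 F α β := by
  have mem_of : ∀ γ, Cn A F γ → γ ∈ A := fun γ h => by
    have := (h 0 F.zero_mem).2 hA.1
    simpa using this
  have h1 : α ∉ F := by
    intro h
    have h0 := cen_zero hA hF h ha
    subst h0
    apply hn
    rw [zero_sub]
    exact hA.2 _ (mem_of β hb)
  have h2 : β ∉ F := by
    intro h
    have h0 := cen_zero hA hF h hb
    subst h0
    apply hn
    rw [sub_zero]
    exact mem_of α ha
  have h3 : α + β ∉ F := by
    intro h
    have hcf : Cn A F (α + β) := by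
      intro q hq
      have e1 : α + β + q ∈ A ↔ -β + (α + β + q) ∈ A :=
        ((cen_neg hA hb) (α + β + q) (F.add_mem h hq)).symm
      rw [e1, show -β + (α + β + q) = α + q by abel]
      exact ha q hq
    have h0 := cen_zero hA hF h hcf
    apply hn
    have e2 : α = -β := eq_neg_of_add_eq_zero_left h0
    have e3 : α - β = β := by
      rw [e2]
      have := three β
      rw [← sub_eq_zero]
      rw [show -β - β - β = -(β + β + β) by abel, this, neg_zero]
    rw [e3]
    exact mem_of β hb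
  intro a b hab
  rcases zcases a with rfl | rfl | rfl <;> rcases zcases b with rfl | rfl | rfl
  · exact ⟨rfl, rfl⟩
  · exact absurd (by simpa using hab) h2
  · refine absurd (F.neg_mem hab) ?_
    simpa using h2
  · exact absurd (by simpa using hab) h1
  · exact absurd (by simpa using hab) h3
  · exact absurd (by simpa [sub_eq_add_neg] using hab) hd
  · refine absurd (F.neg_mem hab) ?_
    simpa using h1
  · refine absurd (F.neg_mem hab) ?_
    rw [show -((-1 : ZMod 3) • α + (1 : ZMod 3) • β) = α - β by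
      rw [neg_smul, one_smul, one_smul]; abel]
    exact hd
  · refine absurd (F.neg_mem hab) ?_
    rw [show -((-1 : ZMod 3) • α + (-1 : ZMod 3) • β) = α + β by simp [add_comm]]
    exact h3

end CLQM

open CLQM in
theorem specCLQ : SpecCLQ := by
  classical
  intro V _ _ _ A hA F e hF ω hω hlt
  have hch : ∀ c : V ⧸ F, ∃ α, c ∈ CE A F → Cn A F α ∧ F.mkQ α = c := by
    intro c
    by_cases hc : c ∈ CE A F
    · obtain ⟨α, h⟩ := hc
      exact ⟨α, fun _ => h⟩
    · exact ⟨0, fun h => absurd h hc⟩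
  choose g hg using hch
  by_contra hcon
  push Not at hcon
  have hinj : Set.InjOn g (CE A F) := by
    intro c hc d hd h
    rw [← (hg c hc).2, ← (hg d hd).2, h]
  have hcl : ∀ x ∈ g '' CE A F, ∀ y ∈ g '' CE A F, x ≠ y → x - y ∈ A := by
    rintro x ⟨c, hc, rfl⟩ y ⟨d, hd, rfl⟩ hxy
    by_contra hn
    have hne : c ≠ d := fun h => hxy (by rw [h])
    have hdF : g c - g d ∉ F := by
      intro h
      apply hne
      rw [← (hg c hc).2, ← (hg d hd).2]
      exact (Submodule.Quotient.eq F).2 h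
    exact hcon (g c) (g d) ⟨hF, (hg c hc).1, (hg d hd).1, hn,
      main hA hF (hg c hc).1 (hg d hd).1 hn hdF⟩
  have := hω _ hcl
  rw [Set.InjOn.ncard_image hinj] at this
  omega

end Pool.Agent.Lib.MP_b63a06_co.TR
end

section
set_option autoImplicit false

/-! # MP_b63a06_co, TR: module CPE, complements in a frame (helper89) -/

namespace Pool.Agent.Lib.MP_b63a06_co.TR

namespace CPEM

variable {V : Type} [AddCommGroup V] [Module (ZMod 3) V]

theorem lc_sub (e : Fin 3 → V) (c d : Fin 3 → ZMod 3) : lc e (c - d) = lc e c - lc e d := by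
  simp [lc, sub_smul, Finset.sum_sub_distrib]

theorem lc_zero (e : Fin 3 → V) : lc e 0 = 0 := by simp [lc]

theorem lc_mem {F : Submodule (ZMod 3) V} {e : Fin 3 → V} (h : ∀ i, e i ∈ F)
    (c : Fin 3 → ZMod 3) : lc e c ∈ F :=
  F.sum_mem fun i _ => F.smul_mem _ (h i)

/-- existence of a complement -/
theorem exists_cpl (F : Submodule (ZMod 3) V) (e : Fin 3 → V) (he : ∀ i, e i ∈ F)
    (hi : ∀ c, lc e c = 0 → c = 0) : ∃ R, Cpl F e R := by
  obtain ⟨R', hR'⟩ := Submodule.exists_isCompl (Submodule.span (ZMod 3) (Set.range e))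
  refine ⟨R' ⊓ F, inf_le_right, ?_, ?_⟩
  · intro c hc
    apply hi
    have h1 : lc e c ∈ Submodule.span (ZMod 3) (Set.range e) :=
      Submodule.sum_mem _ fun i _ => Submodule.smul_mem _ _ (Submodule.subset_span ⟨i, rfl⟩)
    have h2 := hR'.disjoint.le_bot (Submodule.mem_inf.2 ⟨h1, (Submodule.mem_inf.1 hc).1⟩)
    simpa using h2
  · intro x hx
    have hx' : x ∈ Submodule.span (ZMod 3) (Set.range e) ⊔ R' := by
      rw [hR'.sup_eq_top]; trivial
    obtain ⟨y, hy, r, hr, rfl⟩ := Submodule.mem_sup.1 hx'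
    obtain ⟨c, hc⟩ := (Submodule.mem_span_range_iff_exists_fun (ZMod 3)).1 hy
    refine ⟨c, ?_⟩
    have hyc : y = lc e c := hc.symm
    have hyF : y ∈ F := hyc ▸ lc_mem he c
    rw [← hyc]
    refine Submodule.mem_inf.2 ⟨?_, ?_⟩
    · simpa using hr
    · simpa using F.sub_mem hx hyF

theorem card_F [Finite V] (F : Submodule (ZMod 3) V) (e : Fin 3 → V) (he : ∀ i, e i ∈ F)
    (R : Submodule (ZMod 3) V) (h : Cpl F e R) :
    Nat.card F = 27 * Nat.card R := by
  let f : (Fin 3 → ZMod 3) × R → F := fun p =>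
    ⟨lc e p.1 + p.2.1, F.add_mem (lc_mem he _) (h.le p.2.2)⟩
  have hf : Function.Bijective f := by
    constructor
    · rintro ⟨c, r⟩ ⟨d, s⟩ hcd
      have h1 : lc e c + r.1 = lc e d + s.1 := congrArg Subtype.val hcd
      have h2 : lc e (c - d) = s.1 - r.1 := by
        rw [lc_sub]
        rw [sub_eq_sub_iff_add_eq_add]
        rw [h1]; abel
      have h3 : c - d = 0 := h.dj _ (by rw [h2]; exact R.sub_mem s.2 r.2)
      have h4 : c = d := sub_eq_zero.1 h3
      subst h4
      have h5 : r.1 = s.1 := add_left_cancel h1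
      exact Prod.ext rfl (Subtype.ext h5)
    · rintro ⟨x, hx⟩
      obtain ⟨c, hc⟩ := h.sp x hx
      exact ⟨(c, ⟨_, hc⟩), Subtype.ext (by simp [f])⟩
  have h1 := Nat.card_eq_of_bijective f hf
  rw [← h1, Nat.card_prod]
  congr 1
  simp [Nat.card_eq_fintype_card]

end CPEM

theorem specCPE : SpecCPE := by
  intro V _ _ _ A F e hF
  refine ⟨CPEM.exists_cpl F e hF.mem hF.ind, ?_⟩
  intro R hR
  have hc := CPEM.card_F F e hF.mem R hR
  refine ⟨hc, ?_, ?_⟩
  · intro W hW
    have hb := hF.big W hW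
    have hRp : 0 < Nat.card R := Nat.card_pos
    have hWp : 0 < Nat.card W := Nat.card_pos
    have hWR : Nat.card W = 3 * Nat.card R := by omega
    have h1 : Nat.card V = Nat.card R * ix R := Submodule.card_eq_card_quotient_mul_card R
    have h2 : Nat.card V = Nat.card W * ix W := Submodule.card_eq_card_quotient_mul_card W
    have h3 : Nat.card V = Nat.card F * ix F := Submodule.card_eq_card_quotient_mul_card F
    refine ⟨hWR, ?_, ?_⟩
    · apply Nat.eq_of_mul_eq_mul_left hRp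
      rw [← h1, h2, hWR]; ring
    · apply Nat.eq_of_mul_eq_mul_left hWp
      rw [← h2, h3, hb]; ring
  · intro a ha c hac
    have haF : a ∈ F := by
      have : a = (a - lc e c) + lc e c := by abel
      rw [this]
      exact F.add_mem (hR.le hac) (CPEM.lc_mem hF.mem c)
    obtain ⟨c', hc', rfl⟩ := (hF.cut a).1 ⟨ha, haF⟩
    have h1 : c' - c = 0 := hR.dj _ (by rw [CPEM.lc_sub]; exact hac)
    have h2 : c' = c := sub_eq_zero.1 h1
    subst h2
    exact ⟨hc', rfl⟩

end Pool.Agent.Lib.MP_b63a06_co.TR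
end

section
set_option autoImplicit false

/-! # MP_b63a06_co, TR: module CPL, a complement which avoids 26 elements (helper89) -/

namespace Pool.Agent.Lib.MP_b63a06_co.TR

namespace CPLM

variable {V : Type} [AddCommGroup V] [Module (ZMod 3) V]

theorem lc_zero (e : Fin 3 → V) : lc e 0 = 0 := by simp [lc]

theorem lc_add (e : Fin 3 → V) (c d : Fin 3 → ZMod 3) : lc e (c + d) = lc e c + lc e d := by
  simp [lc, add_smul, Finset.sum_add_distrib]

theorem lc_mem {F : Submodule (ZMod 3) V} {e : Fin 3 → V} (h : ∀ i, e i ∈ F)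
    (c : Fin 3 → ZMod 3) : lc e c ∈ F :=
  F.sum_mem fun i _ => F.smul_mem _ (h i)

/-- existence of a complement -/
theorem exists_cpl (F : Submodule (ZMod 3) V) (e : Fin 3 → V) (he : ∀ i, e i ∈ F)
    (hi : ∀ c, lc e c = 0 → c = 0) : ∃ R, Cpl F e R := by
  obtain ⟨R', hR'⟩ := Submodule.exists_isCompl (Submodule.span (ZMod 3) (Set.range e))
  refine ⟨R' ⊓ F, inf_le_right, ?_, ?_⟩
  · intro c hc
    apply hi
    have h1 : lc e c ∈ Submodule.span (ZMod 3) (Set.range e) :=
      Submodule.sum_mem _ fun i _ => Submodule.smul_mem _ _ (Submodule.subset_span ⟨i, rfl⟩)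
    have h2 := hR'.disjoint.le_bot (Submodule.mem_inf.2 ⟨h1, (Submodule.mem_inf.1 hc).1⟩)
    simpa using h2
  · intro x hx
    have hx' : x ∈ Submodule.span (ZMod 3) (Set.range e) ⊔ R' := by
      rw [hR'.sup_eq_top]; trivial
    obtain ⟨y, hy, r, hr, rfl⟩ := Submodule.mem_sup.1 hx'
    obtain ⟨c, hc⟩ := (Submodule.mem_span_range_iff_exists_fun (ZMod 3)).1 hy
    refine ⟨c, ?_⟩
    have hyc : y = lc e c := hc.symm
    have hyF : y ∈ F := hyc ▸ lc_mem he c
    rw [← hyc]
    refine Submodule.mem_inf.2 ⟨?_, ?_⟩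
    · simpa using hr
    · simpa using F.sub_mem hx hyF

/-- `lc e` as a linear map -/
def lcL (e : Fin 3 → V) : (Fin 3 → ZMod 3) →ₗ[ZMod 3] V where
  toFun := lc e
  map_add' := lc_add e
  map_smul' := by intro a c; simp [lc, Finset.smul_sum, smul_smul]

/-- the complement of `f` -/
def Rf {R : Submodule (ZMod 3) V} (e : Fin 3 → V) (f : R →ₗ[ZMod 3] (Fin 3 → ZMod 3)) :
    Submodule (ZMod 3) V := LinearMap.range (R.subtype - (lcL e).comp f)

theorem mem_Rf {R : Submodule (ZMod 3) V} {e : Fin 3 → V} {f : R →ₗ[ZMod 3] (Fin 3 → ZMod 3)}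
    {y : V} : y ∈ Rf e f ↔ ∃ r : R, (r : V) - lc e (f r) = y := by
  rw [Rf, LinearMap.mem_range]
  rfl

theorem cpl_Rf {F R : Submodule (ZMod 3) V} {e : Fin 3 → V} (he : ∀ i, e i ∈ F)
    (h : Cpl F e R) (f : R →ₗ[ZMod 3] (Fin 3 → ZMod 3)) : Cpl F e (Rf e f) := by
  refine ⟨?_, ?_, ?_⟩
  · intro y hy
    obtain ⟨r, rfl⟩ := mem_Rf.1 hy
    exact F.sub_mem (h.le r.2) (lc_mem he _)
  · intro c hc
    obtain ⟨r, hr⟩ := mem_Rf.1 hc
    have h1 : lc e (c + f r) = (r : V) := by rw [lc_add, ← hr]; abel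
    have h2 : c + f r = 0 := h.dj _ (by rw [h1]; exact r.2)
    have h3 : r = 0 := by
      apply Subtype.ext
      rw [← h1, h2, lc_zero]; rfl
    rw [h3, map_zero, add_zero] at h2
    exact h2
  · intro x hx
    obtain ⟨c, hc⟩ := h.sp x hx
    refine ⟨c + f ⟨_, hc⟩, mem_Rf.2 ⟨⟨_, hc⟩, ?_⟩⟩
    rw [lc_add]
    exact sub_sub _ _ _

/-- few linear maps take a given value at a given nonzero element -/
theorem few {R : Type} [AddCommGroup R] [Module (ZMod 3) R] [Finite R] (r : R) (hr : r ≠ 0)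
    (u : Fin 3 → ZMod 3) :
    Nat.card {f : R →ₗ[ZMod 3] (Fin 3 → ZMod 3) // f r = u} * 27 ≤
      Nat.card (R →ₗ[ZMod 3] (Fin 3 → ZMod 3)) := by
  have : Finite (R →ₗ[ZMod 3] (Fin 3 → ZMod 3)) := DFunLike.finite _
  obtain ⟨φ, hφ⟩ : ∃ φ : Module.Dual (ZMod 3) R, φ r ≠ 0 := by
    by_contra hcon
    push Not at hcon
    exact hr ((Module.forall_dual_apply_eq_zero_iff (ZMod 3) r).1 hcon)
  let g : {f : R →ₗ[ZMod 3] (Fin 3 → ZMod 3) // f r = u} × (Fin 3 → ZMod 3) →
      (R →ₗ[ZMod 3] (Fin 3 → ZMod 3)) := fun p => p.1.1 + φ.smulRight p.2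
  have hg : Function.Injective g := by
    rintro ⟨⟨f, hf⟩, c⟩ ⟨⟨f', hf'⟩, c'⟩ h
    have h1 : f + φ.smulRight c = f' + φ.smulRight c' := h
    have h2 := congrArg (fun l : R →ₗ[ZMod 3] (Fin 3 → ZMod 3) => l r) h1
    simp only [LinearMap.add_apply, LinearMap.smulRight_apply, hf, hf'] at h2
    have h3 : φ r • c = φ r • c' := add_left_cancel h2
    have h4 : c = c' := smul_right_injective _ hφ h3
    subst h4
    have h5 : f = f' := add_right_cancel h1
    subst h5
    rfl
  have := Nat.card_le_card_of_injective g hg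
  rw [Nat.card_prod] at this
  have h27 : Nat.card (Fin 3 → ZMod 3) = 27 := by simp [Nat.card_eq_fintype_card]
  rwa [h27] at this

end CPLM

open CPLM in
theorem specCPL : SpecCPL := by
  classical
  intro V _ _ _ F e he hi Y hYF hY0 hYc
  obtain ⟨R, hR⟩ := exists_cpl F e he hi
  have : Finite (R →ₗ[ZMod 3] (Fin 3 → ZMod 3)) := DFunLike.finite _
  haveI : Fintype (R →ₗ[ZMod 3] (Fin 3 → ZMod 3)) := Fintype.ofFinite _
  by_contra hcon
  push Not at hcon
  have hall : ∀ f : R →ₗ[ZMod 3] (Fin 3 → ZMod 3), ∃ y ∈ Y, y ∈ Rf e f :=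
    fun f => hcon _ (cpl_Rf he hR f)
  have hYfin : Y.Finite := Set.toFinite Y
  let S : V → Finset (R →ₗ[ZMod 3] (Fin 3 → ZMod 3)) := fun y => Finset.univ.filter fun f => y ∈ Rf e f
  have hcov : (Finset.univ : Finset (R →ₗ[ZMod 3] (Fin 3 → ZMod 3))) ⊆ hYfin.toFinset.biUnion S := by
    intro f _
    obtain ⟨y, hy, hyf⟩ := hall f
    exact Finset.mem_biUnion.2 ⟨y, hYfin.mem_toFinset.2 hy, Finset.mem_filter.2 ⟨Finset.mem_univ _, hyf⟩⟩
  have hS : ∀ y ∈ hYfin.toFinset, (S y).card * 27 ≤ Fintype.card (R →ₗ[ZMod 3] (Fin 3 → ZMod 3)) := by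
    intro y hy
    have hyY : y ∈ Y := hYfin.mem_toFinset.1 hy
    obtain ⟨c, hc⟩ := hR.sp y (hYF y hyY)
    have key : ∀ f : R →ₗ[ZMod 3] (Fin 3 → ZMod 3), y ∈ Rf e f → f ⟨_, hc⟩ = -c := by
      intro f hf
      obtain ⟨r', hr'⟩ := mem_Rf.1 hf
      have h1 : lc e (c + f r') = (r' : V) - (y - lc e c) := by
        rw [lc_add, ← hr']; abel
      have h2 : c + f r' = 0 := hR.dj _ (by rw [h1]; exact R.sub_mem r'.2 hc)
      have h3 : r' = ⟨_, hc⟩ := by
        apply Subtype.ext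
        have : (r' : V) - (y - lc e c) = 0 := by rw [← h1, h2, lc_zero]
        exact sub_eq_zero.1 this
      rw [← h3]
      exact eq_neg_of_add_eq_zero_right h2
    by_cases hr0 : (⟨_, hc⟩ : R) = 0
    · have hemp : S y = ∅ := by
        apply Finset.eq_empty_of_forall_notMem
        intro f hf
        have h1 := key f (Finset.mem_filter.1 hf).2
        rw [hr0, map_zero] at h1
        have h2 : c = 0 := by rw [← neg_eq_zero]; exact h1.symm
        have h3 : y - lc e c = 0 := congrArg Subtype.val hr0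
        rw [h2, lc_zero, sub_zero] at h3
        exact hY0 (h3 ▸ hyY)
      rw [hemp]; simp
    · have h1 := few (R := R) ⟨_, hc⟩ hr0 (-c)
      rw [Nat.card_eq_fintype_card (α := (R →ₗ[ZMod 3] (Fin 3 → ZMod 3)))] at h1
      refine le_trans (Nat.mul_le_mul_right 27 ?_) h1
      rw [Nat.card_eq_fintype_card, Fintype.card_subtype]
      apply Finset.card_le_card
      intro f hf
      exact Finset.mem_filter.2 ⟨Finset.mem_univ _, key f (Finset.mem_filter.1 hf).2⟩
  have h1 : Fintype.card (R →ₗ[ZMod 3] (Fin 3 → ZMod 3)) ≤ ∑ y ∈ hYfin.toFinset, (S y).card := by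
    have := (Finset.card_le_card hcov).trans Finset.card_biUnion_le
    simpa using this
  have h2 : (∑ y ∈ hYfin.toFinset, (S y).card) * 27 ≤
      hYfin.toFinset.card * Fintype.card (R →ₗ[ZMod 3] (Fin 3 → ZMod 3)) := by
    rw [Finset.sum_mul, ← smul_eq_mul]
    exact Finset.sum_le_card_nsmul _ _ _ hS
  have h3 : hYfin.toFinset.card ≤ 26 := by
    rw [← Set.ncard_eq_toFinset_card Y hYfin]; exact hYc
  have h4 : 0 < Fintype.card (R →ₗ[ZMod 3] (Fin 3 → ZMod 3)) := Fintype.card_pos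
  have h5 : hYfin.toFinset.card * Fintype.card (R →ₗ[ZMod 3] (Fin 3 → ZMod 3)) ≤
      26 * Fintype.card (R →ₗ[ZMod 3] (Fin 3 → ZMod 3)) := Nat.mul_le_mul_right _ h3
  omega

end Pool.Agent.Lib.MP_b63a06_co.TR
end

section
set_option autoImplicit false

/-!
# MP_b63a06_co: module EXJ, nine numbers (helper24)
-/

namespace Pool.Agent.Lib.MP_b63a06_co.TR

theorem specEXJ : SpecEXJ := by
  intro f hf
  have hs : ∀ g : ZMod 3 → ℕ, ∑ a : ZMod 3, g a = g 0 + g 1 + g 2 := by
    intro g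
    exact Fin.sum_univ_three g
  have e1 : (0 : ZMod 3) + 1 = 1 := by decide
  have e2 : (1 : ZMod 3) + 1 = 2 := by decide
  have e3 : (2 : ZMod 3) + 1 = 0 := by decide
  have e4 : (0 : ZMod 3) - 1 = 2 := by decide
  have e5 : (1 : ZMod 3) - 1 = 0 := by decide
  have e6 : (2 : ZMod 3) - 1 = 1 := by decide
  simp only [hs] at hf
  by_contra hc
  push Not at hc
  have c00 := hc 0 0
  have c01 := hc 0 1
  have c02 := hc 0 2
  have c10 := hc 1 0
  have c11 := hc 1 1
  have c12 := hc 1 2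
  have c20 := hc 2 0
  have c21 := hc 2 1
  have c22 := hc 2 2
  simp only [e1, e2, e3, e4, e5, e6] at c00 c01 c02 c10 c11 c12 c20 c21 c22
  generalize f 0 0 = x00 at *
  generalize f 0 1 = x01 at *
  generalize f 0 2 = x02 at *
  generalize f 1 0 = x10 at *
  generalize f 1 1 = x11 at *
  generalize f 1 2 = x12 at *
  generalize f 2 0 = x20 at *
  generalize f 2 1 = x21 at *
  generalize f 2 2 = x22 at *
  omega

end Pool.Agent.Lib.MP_b63a06_co.TR
end

section
set_option autoImplicit false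

/-!
# MP_b63a06_co, ternary Reed: FIN (helper65)
-/

namespace Pool.Agent.Lib.MP_b63a06_co.TR

namespace FINM

variable {V : Type} [AddCommGroup V] [Module (ZMod 3) V]

theorem mono {A : Set V} {k l : ℕ} (h : ColA A k) (hkl : k ≤ l) : ColA A l := by
  obtain ⟨c, h1, h2⟩ := h
  exact ⟨c, fun x => lt_of_lt_of_le (h1 x) hkl, h2⟩

theorem neg_ne {a : V} (ha : a ≠ 0) : a ≠ -a := by
  intro h
  apply ha
  have h2 : a + a = 0 := by
    nth_rw 2 [h]
    exact add_neg_cancel a
  have h3 : (3 : ZMod 3) • a = 0 := by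
    have : (3 : ZMod 3) = 0 := by decide
    rw [this, zero_smul]
  have h4 : (3 : ZMod 3) • a = a + a + a := by
    have : (3 : ZMod 3) = 1 + 1 + 1 := by decide
    rw [this, add_smul, add_smul, one_smul]
  rw [h4, h2, zero_add] at h3
  exact h3

theorem three_smul (a : V) : a + a + a = 0 := by
  have h3 : (3 : ZMod 3) • a = 0 := by
    have : (3 : ZMod 3) = 0 := by decide
    rw [this, zero_smul]
  have h4 : (3 : ZMod 3) • a = a + a + a := by
    have : (3 : ZMod 3) = 1 + 1 + 1 := by decide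
    rw [this, add_smul, add_smul, one_smul]
  rw [← h4, h3]

/-- a clique with three elements -/
theorem three {A : Set V} (hA : Sy A) {ω : ℕ} (hω : Cq A ω) {a : V} (ha : a ∈ A) (h0 : a ≠ 0) :
    3 ≤ ω := by
  have h1 : -a ∈ A := hA.2 a ha
  have haa : a + a = -a := by
    have := three_smul a
    exact eq_neg_of_add_eq_zero_left this
  have h3 : ({0, a, -a} : Set V).ncard = 3 := by
    rw [Set.ncard_eq_three]
    exact ⟨0, a, -a, h0.symm, (neg_ne_zero.2 h0).symm, neg_ne h0, rfl⟩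
  rw [← h3]
  apply hω
  have e1 : a - -a = -a := by rw [sub_neg_eq_add, haa]
  have e2 : -a - a = a := by
    rw [← neg_add', haa, neg_neg]
  intro x hx y hy hxy
  simp only [Set.mem_insert_iff, Set.mem_singleton_iff] at hx hy
  rcases hx with rfl | rfl | rfl <;> rcases hy with rfl | rfl | rfl
  · exact absurd rfl hxy
  · rw [zero_sub]; exact h1
  · rw [zero_sub, neg_neg]; exact ha
  · rw [sub_zero]; exact ha
  · exact absurd rfl hxy
  · rw [e1]; exact h1
  · rw [sub_zero]; exact h1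
  · rw [e2]; exact ha
  · exact absurd rfl hxy

end FINM

open FINM

theorem specFIN (hEXM : SpecEXM) (_hMEE : SpecMEE) (hCRD : SpecCRD) (hNOC : SpecNOC)
    (hAFN : SpecAFN) (hBFN : SpecBFN) (hLTA : SpecLTA) (hN4X : SpecN4X) (hN4F : SpecN4F)
    (hSIX : SpecSIX) (hCNG : SpecCNG) (hTWO : SpecTWO) (hC61 : SpecC61) (hCLQ : SpecCLQ)
    (hLMB : SpecLMB) (hC54 : SpecC54) (hCPE : SpecCPE) : SpecFIN := by
  intro V _ _ _ A hA ω hω
  classical
  obtain ⟨W, hW⟩ := (hEXM V A).1
  have hix : ∀ W', MaxAv A W' → ix W' = ix W := fun W' hW' => ((hEXM V A).2 W' W hW' hW).2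
  by_cases h2M : 2 * ix W ≤ A.ncard + ω
  · -- the cosets of W
    obtain ⟨m, hm1, hm2⟩ := hCRD V A W 0 1 (fun i => i.elim0) (fun _ => True) (fun _ => 0)
      (fun c _ => Subsingleton.elim _ _) (fun _ => Nat.zero_lt_one)
      (fun c d hcd => absurd (Subsingleton.elim c d) hcd)
      (by
        intro a ha ha0 c hc
        exfalso
        apply ha0
        apply hW.av a ha
        have : lc (V := V) (fun i : Fin 0 => i.elim0) c = 0 := by
          unfold lc
          simp
        rwa [this, sub_zero] at hc)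
    rw [pow_zero, one_mul] at hm1
    refine mono hm2 ?_
    rw [one_mul, ← hm1]
    omega
  have hconf : ∃ W s t, Conf A W s t := by
    by_contra hno
    exact h2M (hNOC V A hA hno ω hω W hW)
  have hω3 : 3 ≤ ω := by
    obtain ⟨W', s, t, hc⟩ := hconf
    have hs0 : s ≠ 0 := by
      rintro rfl
      apply hc.ns
      rw [zero_sub]
      exact hA.2 t hc.t1.1
    exact three hA hω hc.s1.1 hs0
  have hAF : ∀ W', MaxAv A W' → A.ncard + 4 ≤ 2 * ix W' := by
    intro W' hW'
    rw [hix W' hW']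
    omega
  obtain ⟨m, hm, hcol8⟩ := hAFN V A hA hAF hconf W hW
  by_cases h16 : 16 * m ≤ A.ncard + ω
  · exact mono hcol8 (by omega)
  have hBF : ∀ W', MaxAv A W' → 9 * (A.ncard + 4) ≤ 16 * ix W' := by
    intro W' hW'
    rw [hix W' hW', hm]
    omega
  obtain ⟨m', hm', hcol7⟩ := hBFN V A hA hBF hconf W hW
  have hmm : m' = m := by omega
  subst hmm
  by_cases h14 : 14 * m' ≤ A.ncard + ω
  · exact mono hcol7 (by omega)
  have hLT : ∀ W', MaxAv A W' → 9 * (A.ncard + 4) ≤ 14 * ix W' := by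
    intro W' hW'
    rw [hix W' hW', hm]
    omega
  obtain ⟨W₁, s, t, hc, hN⟩ := hLTA V A hA hLT hconf
  obtain ⟨x, hx, hx0, hX⟩ := hN4X V A hA W₁ s t hc hN
  obtain ⟨e, hfr⟩ := hN4F V A hA W₁ s t hc x hx hx0 hX
  set F := FF W₁ s t with hF
  obtain ⟨R, hR⟩ := (hCPE V A F e hfr).1
  have hixF : ix F = m' := by
    have := (((hCPE V A F e hfr).2 R hR).2.1 W hW).2.2
    omega
  have h13 : ∀ v, 13 ≤ (cs A F v).ncard := fun v => (hSIX V A hA F e hfr v).1
  obtain ⟨hlow, hce⟩ := hCNG V A F 13 h13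
  have hce' := hce (fun v => (hSIX V A hA F e hfr v).2)
  rw [hixF] at hlow hce'
  obtain ⟨α, β, hα, hβ, hI⟩ := hTWO V A F (by omega)
  obtain ⟨n, hn, hcol61⟩ := hC61 V A hA F e hfr α β hα hβ hI W hW
  by_cases h122 : 122 * n ≤ A.ncard + ω
  · exact mono hcol61 (by omega)
  obtain ⟨α', β', hcc⟩ := hCLQ V A hA F e hfr ω hω (by omega)
  obtain ⟨F', e', α₂, β₂, R', hcc', hR', hav⟩ := hLMB V A hA ⟨F, e, α', β', hcc⟩ (by
    intro W' hW'
    rw [hix W' hW', hn]
    omega)
  obtain ⟨n', hn', hcol54⟩ := hC54 V A hA F' e' α₂ β₂ R' hcc' hR' hav W hW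
  exact mono hcol54 (by omega)

end Pool.Agent.Lib.MP_b63a06_co.TR
end

section
set_option autoImplicit false

/-!
# MP_b63a06_co: module FLN, the number of elements after a flip (helper24)
-/

namespace Pool.Agent.Lib.MP_b63a06_co.TR

theorem specFLN : SpecFLN := by
  intro V _ _ _ A hA F γ δ hγ φ
  have h3 : ∀ c : ZMod 3, c = 0 ∨ c = 1 ∨ c = -1 := by decide
  have hfl : ∀ v, flp φ γ v = v + φ v • γ := fun v => rfl
  have hz : ∀ c : ZMod 3, c • γ ∈ F → c = 0 := by
    intro c hc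
    rcases h3 c with h | h | h
    · exact h
    · rw [h, one_smul] at hc
      exact absurd hc hγ
    · rw [h, neg_smul, one_smul] at hc
      exact absurd (by simpa using F.neg_mem hc) hγ
  have hinj : Set.InjOn (flp φ γ) (F : Set V) := by
    intro a ha b hb hab
    rw [hfl, hfl] at hab
    have h1 : (φ b - φ a) • γ = a - b := by
      rw [sub_smul, sub_eq_sub_iff_add_eq_add, add_comm, hab]
    have h5 : φ b - φ a = 0 := hz _ (by rw [h1]; exact F.sub_mem ha hb)
    rw [h5, zero_smul] at h1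
    exact (sub_eq_zero.1 h1.symm)
  set S : Set V := {q | q ∈ F ∧ δ + q + φ q • γ ∈ A} with hS
  have h1 : QQ A (F.map (flp φ γ)) δ = (flp φ γ) '' S := by
    ext q
    constructor
    · rintro ⟨hq, ha⟩
      obtain ⟨f, hf, rfl⟩ := Submodule.mem_map.1 hq
      refine ⟨f, ⟨hf, ?_⟩, rfl⟩
      rw [hfl, ← add_assoc] at ha
      exact ha
    · rintro ⟨f, ⟨hf, ha⟩, rfl⟩
      refine ⟨Submodule.mem_map.2 ⟨f, hf, rfl⟩, ?_⟩
      rw [hfl, ← add_assoc]
      exact ha
  rw [h1, (hinj.mono fun q hq => hq.1).ncard_image]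
  set S0 : Set V := {q | q ∈ QQ A F δ ∧ φ q = 0} with hS0
  set S1 : Set V := {q | q ∈ QQ A F (γ + δ) ∧ φ q = 1} with hS1
  set S2 : Set V := {q | q ∈ QQ A F (γ - δ) ∧ φ q = 1} with hS2
  set T2 : Set V := {q | q ∈ F ∧ δ + q - γ ∈ A ∧ φ q = -1} with hT2
  have h2 : S2.ncard = T2.ncard := by
    have h4 : S2 = (fun q => -q) '' T2 := by
      ext q
      constructor
      · rintro ⟨⟨hq, ha⟩, hf⟩
        refine ⟨-q, ⟨F.neg_mem hq, ?_, by rw [map_neg, hf]⟩, by simp⟩
        have h5 := hA.2 _ ha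
        have h6 : -(γ - δ + q) = δ + -q - γ := by abel
        rwa [h6] at h5
      · rintro ⟨r, ⟨hr, ha, hf⟩, rfl⟩
        refine ⟨⟨F.neg_mem hr, ?_⟩, by simp [hf]⟩
        have h5 := hA.2 _ ha
        have h6 : -(δ + r - γ) = γ - δ + -r := by abel
        rwa [h6] at h5
    rw [h4]
    exact Set.ncard_image_of_injective _ neg_injective
  have h5 : S = S0 ∪ (S1 ∪ T2) := by
    ext q
    constructor
    · rintro ⟨hq, ha⟩
      rcases h3 (φ q) with h | h | h
      · left
        rw [h, zero_smul, add_zero] at ha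
        exact ⟨⟨hq, ha⟩, h⟩
      · right
        left
        rw [h, one_smul] at ha
        refine ⟨⟨hq, ?_⟩, h⟩
        have h6 : γ + δ + q = δ + q + γ := by abel
        rwa [h6]
      · right
        right
        rw [h, neg_smul, one_smul, ← sub_eq_add_neg] at ha
        exact ⟨hq, ha, h⟩
    · rintro (⟨⟨hq, ha⟩, h⟩ | ⟨⟨hq, ha⟩, h⟩ | ⟨hq, ha, h⟩)
      · refine ⟨hq, ?_⟩
        rw [h, zero_smul, add_zero]
        exact ha
      · refine ⟨hq, ?_⟩
        rw [h, one_smul]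
        have h6 : δ + q + γ = γ + δ + q := by abel
        rwa [h6]
      · refine ⟨hq, ?_⟩
        rw [h, neg_smul, one_smul, ← sub_eq_add_neg]
        exact ha
  have hd1 : Disjoint S1 T2 := by
    rw [Set.disjoint_left]
    rintro q ⟨_, h⟩ ⟨_, _, h'⟩
    rw [h] at h'
    exact absurd h' (by decide)
  have hd0 : Disjoint S0 (S1 ∪ T2) := by
    rw [Set.disjoint_left]
    rintro q ⟨_, h⟩ (⟨_, h'⟩ | ⟨_, _, h'⟩)
    · rw [h] at h'
      exact absurd h' (by decide)
    · rw [h] at h'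
      exact absurd h' (by decide)
  rw [h5, Set.ncard_union_eq hd0 (Set.toFinite _) (Set.toFinite _),
    Set.ncard_union_eq hd1 (Set.toFinite _) (Set.toFinite _), h2, add_assoc]

end Pool.Agent.Lib.MP_b63a06_co.TR
end

section
/-!
MP_b63a06_co, TR, module FLP: flip of a frame along a centre.
-/
set_option autoImplicit false

namespace Pool.Agent.Lib.MP_b63a06_co.TR

namespace FLPM

variable {V : Type} [AddCommGroup V] [Module (ZMod 3) V]

theorem flp_apply (φ : V →ₗ[ZMod 3] ZMod 3) (γ v : V) : flp φ γ v = v + φ v • γ := rfl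

theorem zcase : ∀ c : ZMod 3, c = 0 ∨ c = 1 ∨ c = -1 := by decide

theorem sq_one : ∀ c : ZMod 3, c ≠ 0 → c * c = 1 := by decide

theorem lc_flp {n : ℕ} (φ : V →ₗ[ZMod 3] ZMod 3) (γ : V) (e : Fin n → V) (c : Fin n → ZMod 3) :
    lc (fun i => flp φ γ (e i)) c = flp φ γ (lc e c) := by
  simp only [lc, map_sum, map_smul]

theorem coeff_zero (F : Submodule (ZMod 3) V) (γ : V) (hγ : γ ∉ F) (c : ZMod 3)
    (h : c • γ ∈ F) : c = 0 := by
  by_contra hc
  apply hγ
  have h1 := F.smul_mem c h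
  rwa [smul_smul, sq_one c hc, one_smul] at h1

/-- the flip is injective on `F` -/
theorem inj (F : Submodule (ZMod 3) V) (γ : V) (hγ : γ ∉ F) (φ : V →ₗ[ZMod 3] ZMod 3) (f : V)
    (hf : f ∈ F) (h : flp φ γ f = 0) : f = 0 := by
  rw [flp_apply] at h
  have h1 : φ f • γ ∈ F := by
    have h2 : φ f • γ = -f := by
      rw [add_comm] at h
      exact eq_neg_of_add_eq_zero_left h
    rw [h2]
    exact F.neg_mem hf
  rw [coeff_zero F γ hγ _ h1, zero_smul, add_zero] at h
  exact h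

theorem memA (A : Set V) (hS : Sy A) (F : Submodule (ZMod 3) V) (γ : V) (hC : Cn A F γ)
    (φ : V →ₗ[ZMod 3] ZMod 3) (f : V) (hf : f ∈ F) : flp φ γ f ∈ A ↔ f ∈ A := by
  rw [flp_apply]
  have hneg : ∀ x : V, -x ∈ A ↔ x ∈ A := by
    intro x
    constructor
    · intro h
      have := hS.2 _ h
      rwa [neg_neg] at this
    · exact hS.2 x
  rcases zcase (φ f) with h | h | h
  · rw [h, zero_smul, add_zero]
  · rw [h, one_smul, add_comm]
    exact hC f hf
  · rw [h, neg_smul, one_smul, show f + -γ = -(γ + -f) by abel, hneg, hC (-f) (F.neg_mem hf), hneg]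

theorem card_map [Finite V] (F : Submodule (ZMod 3) V) (γ : V) (hγ : γ ∉ F)
    (φ : V →ₗ[ZMod 3] ZMod 3) : Nat.card (F.map (flp φ γ)) = Nat.card F := by
  have h1 : Set.InjOn (flp φ γ) (F : Set V) := by
    intro x hx y hy hxy
    have h2 : flp φ γ (x - y) = 0 := by
      rw [map_sub, hxy, sub_self]
    exact sub_eq_zero.1 (inj F γ hγ φ (x - y) (F.sub_mem hx hy) h2)
  have h3 := Set.InjOn.ncard_image h1
  rw [← Nat.card_coe_set_eq, ← Nat.card_coe_set_eq] at h3
  rw [← Submodule.map_coe] at h3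
  exact h3

end FLPM

theorem specFLP : SpecFLP := by
  intro V _ _ _ A hS F e hF γ hC hγ φ
  have hlcF : ∀ c, lc e c ∈ F := by
    intro c
    exact F.sum_mem (fun i _ => F.smul_mem _ (hF.mem i))
  refine ⟨?_, ?_, ?_, ?_⟩
  · intro i
    exact Submodule.mem_map_of_mem (hF.mem i)
  · intro c hc
    rw [FLPM.lc_flp] at hc
    exact hF.ind c (FLPM.inj F γ hγ φ _ (hlcF c) hc)
  · intro x
    constructor
    · rintro ⟨hxA, hxF⟩
      obtain ⟨f, hf, rfl⟩ := hxF
      have h1 : f ∈ A := (FLPM.memA A hS F γ hC φ f hf).1 hxA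
      obtain ⟨c, hc, hfc⟩ := (hF.cut f).1 ⟨h1, hf⟩
      refine ⟨c, hc, ?_⟩
      rw [FLPM.lc_flp, ← hfc]
    · rintro ⟨c, hc, rfl⟩
      rw [FLPM.lc_flp]
      have h1 := (hF.cut (lc e c)).2 ⟨c, hc, rfl⟩
      exact ⟨(FLPM.memA A hS F γ hC φ _ (hlcF c)).2 h1.1, Submodule.mem_map_of_mem (hlcF c)⟩
  · intro W hW
    rw [FLPM.card_map F γ hγ φ]
    exact hF.big W hW

end Pool.Agent.Lib.MP_b63a06_co.TR
end

section
set_option autoImplicit false

/-!
# MP_b63a06_co: centres after a flip (FLQ)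
-/

namespace Pool.Agent.Lib.MP_b63a06_co.TR

namespace FLQM

variable {V : Type} [AddCommGroup V] [Module (ZMod 3) V]

theorem z3 : ∀ j : ZMod 3, j = 0 ∨ j = 1 ∨ j = -1 := by decide

omit [Module (ZMod 3) V] in
theorem neg_iff {A : Set V} (h : Sy A) (x : V) : -x ∈ A ↔ x ∈ A :=
  ⟨fun hx => by simpa using h.2 _ hx, h.2 x⟩

end FLQM

open FLQM in
theorem specFLQ : SpecFLQ := by
  intro V _ _ _ A hA F γ α hγ hα φ h1 h2
  rintro _ ⟨q, hq, rfl⟩
  have hf : flp φ γ q = q + φ q • γ := by simp [flp]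
  have hq' : -q ∈ F := F.neg_mem hq
  rw [hf]
  rcases z3 (φ q) with h0 | h0 | h0
  · rw [h0, zero_smul, add_zero]
    exact hα q hq
  · rw [h0, one_smul]
    have e1 : α + (q + γ) = γ + α + q := by abel
    have e2 : q + γ = γ + q := by abel
    rw [e1, e2, hγ q hq]
    constructor
    · intro h
      by_contra hc
      have := h2 q (Or.inl ⟨hq, h⟩) hc
      rw [h0] at this
      exact one_ne_zero this
    · exact fun h => (h1 q hq h).1.2
  · rw [h0, neg_smul, one_smul]
    have e1 : α + (q + -γ) = -(γ - α + -q) := by abel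
    have e2 : q + -γ = -(γ + -q) := by abel
    rw [e1, e2, neg_iff hA, neg_iff hA, hγ _ hq']
    constructor
    · intro h
      by_contra hc
      have h3 := h2 (-q) (Or.inr ⟨hq', h⟩) hc
      rw [map_neg, h0, neg_neg] at h3
      exact one_ne_zero h3
    · exact fun h => (h1 (-q) hq' h).2.2

end Pool.Agent.Lib.MP_b63a06_co.TR
end

section
set_option autoImplicit false

/-! # MP_b63a06_co, module HAV (helper32): a functional which does not vanish on three elements. -/

namespace Pool.Agent.Lib.MP_b63a06_co.TR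

namespace HAVM

variable {V : Type} [AddCommGroup V] [Module (ZMod 3) V]

theorem z3 : ∀ c : ZMod 3, c = 0 ∨ c = 1 ∨ c = -1 := by decide

theorem z3' : ∀ c : ZMod 3, c ≠ 0 ↔ (c = 1 ∨ c = -1) := by decide

theorem z3n : ¬ ((1 : ZMod 3) = -1) := by decide

theorem surj1 (x : V) (hx : x ≠ 0) : ∃ φ : V →ₗ[ZMod 3] ZMod 3, φ x = 1 := by
  have : Fact (Nat.Prime 3) := ⟨Nat.prime_three⟩
  by_contra hc
  push Not at hc
  apply hx
  rw [← Module.forall_dual_apply_eq_zero_iff (ZMod 3) x]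
  intro φ
  rcases z3 (φ x) with h | h | h
  · exact h
  · exact absurd h (hc φ)
  · exact absurd (by rw [LinearMap.neg_apply, h, neg_neg]) (hc (-φ))

theorem cnt [Finite V] (x : V) (hx : x ≠ 0) :
    3 * {φ : V →ₗ[ZMod 3] ZMod 3 | φ x ≠ 0}.ncard = 2 * Nat.card (V →ₗ[ZMod 3] ZMod 3) := by
  classical
  have : Fact (Nat.Prime 3) := ⟨Nat.prime_three⟩
  have hfin : Finite (V →ₗ[ZMod 3] ZMod 3) := DFunLike.finite _
  obtain ⟨φ₁, h1⟩ := surj1 x hx
  have heq : ∀ c : ZMod 3, {φ : V →ₗ[ZMod 3] ZMod 3 | φ x = c}.ncard =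
      {φ : V →ₗ[ZMod 3] ZMod 3 | φ x = 0}.ncard := by
    intro c
    rw [← Set.ncard_image_of_injective {φ : V →ₗ[ZMod 3] ZMod 3 | φ x = 0}
      (add_right_injective (c • φ₁))]
    congr 1
    ext φ
    constructor
    · intro h
      have h' : φ x = c := h
      refine ⟨φ - c • φ₁, ?_, by simp⟩
      simp [h', h1]
    · rintro ⟨ψ, hψ, rfl⟩
      have h' : ψ x = 0 := hψ
      simp [h', h1]
  have hne : {φ : V →ₗ[ZMod 3] ZMod 3 | φ x ≠ 0} =
      {φ : V →ₗ[ZMod 3] ZMod 3 | φ x = 1} ∪ {φ : V →ₗ[ZMod 3] ZMod 3 | φ x = -1} := by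
    ext φ
    exact z3' (φ x)
  have hN : Nat.card (V →ₗ[ZMod 3] ZMod 3) = {φ : V →ₗ[ZMod 3] ZMod 3 | φ x = 0}.ncard +
      {φ : V →ₗ[ZMod 3] ZMod 3 | φ x ≠ 0}.ncard := by
    have : {φ : V →ₗ[ZMod 3] ZMod 3 | φ x ≠ 0} = {φ : V →ₗ[ZMod 3] ZMod 3 | φ x = 0}ᶜ := by
      ext φ; rfl
    rw [this, Set.ncard_add_ncard_compl]
  have hU : {φ : V →ₗ[ZMod 3] ZMod 3 | φ x ≠ 0}.ncard =
      2 * {φ : V →ₗ[ZMod 3] ZMod 3 | φ x = 0}.ncard := by
    have hd : Disjoint {φ : V →ₗ[ZMod 3] ZMod 3 | φ x = 1}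
        {φ : V →ₗ[ZMod 3] ZMod 3 | φ x = -1} := by
      rw [Set.disjoint_left]
      intro φ ha hb
      have ha' : φ x = 1 := ha
      have hb' : φ x = -1 := hb
      rw [ha'] at hb'
      exact z3n hb'
    rw [hne, Set.ncard_union_eq hd (Set.toFinite _) (Set.toFinite _), heq 1, heq (-1), two_mul]
  omega

theorem sum_eq [Finite V] (X : Set V) [Fintype (V →ₗ[ZMod 3] ZMod 3)] :
    3 * ∑ φ : V →ₗ[ZMod 3] ZMod 3, {x | x ∈ X ∧ φ x ≠ 0}.ncard =
      2 * Nat.card (V →ₗ[ZMod 3] ZMod 3) * (X \ {0}).ncard := by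
  classical
  have hX : (X \ {0}).Finite := Set.toFinite _
  have h1 : ∀ φ : V →ₗ[ZMod 3] ZMod 3, {x | x ∈ X ∧ φ x ≠ 0}.ncard =
      (hX.toFinset.filter (fun x => φ x ≠ 0)).card := by
    intro φ
    rw [← Set.ncard_coe_finset]
    congr 1
    ext x
    simp only [Finset.coe_filter, Set.Finite.mem_toFinset, Set.mem_ofPred_eq, Set.mem_sdiff,
      Set.mem_singleton_iff]
    constructor
    · rintro ⟨a, b⟩
      exact ⟨⟨a, fun h => b (by rw [h, map_zero])⟩, b⟩
    · rintro ⟨⟨a, _⟩, b⟩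
      exact ⟨a, b⟩
  simp_rw [h1]
  have h2 := Finset.sum_card_bipartiteAbove_eq_sum_card_bipartiteBelow
    (s := (Finset.univ : Finset (V →ₗ[ZMod 3] ZMod 3))) (t := hX.toFinset)
    (fun φ x => φ x ≠ 0)
  unfold Finset.bipartiteAbove Finset.bipartiteBelow at h2
  rw [h2, Finset.mul_sum]
  have h3 : ∀ x ∈ hX.toFinset,
      3 * ((Finset.univ : Finset (V →ₗ[ZMod 3] ZMod 3)).filter (fun φ => φ x ≠ 0)).card =
      2 * Nat.card (V →ₗ[ZMod 3] ZMod 3) := by
    intro x hx
    have hx0 : x ≠ 0 := ((hX.mem_toFinset).1 hx).2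
    rw [← cnt x hx0]
    congr 1
    rw [← Set.ncard_coe_finset]
    congr 1
    ext φ
    simp
  rw [Finset.sum_congr rfl h3, Finset.sum_const, smul_eq_mul, mul_comm,
    Set.ncard_eq_toFinset_card _ hX]

end HAVM

open HAVM in
theorem specHAV : SpecHAV := by
  intro V _ _ _ X Y h0 h5
  classical
  have : Fact (Nat.Prime 3) := ⟨Nat.prime_three⟩
  have hfin : Finite (V →ₗ[ZMod 3] ZMod 3) := DFunLike.finite _
  have : Fintype (V →ₗ[ZMod 3] ZMod 3) := Fintype.ofFinite _
  by_contra hc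
  push Not at hc
  have hX := sum_eq X
  have hY := sum_eq Y
  have hX1 : (X \ {0}).ncard = X.ncard := by
    rw [Set.sdiff_singleton_eq_self h0]
  have hY1 : Y.ncard ≤ (Y \ {0}).ncard + 1 := by
    have := Set.ncard_le_ncard_sdiff_add_ncard Y ({0} : Set V) (Set.toFinite _)
    rwa [Set.ncard_singleton] at this
  have hle : ∑ φ : V →ₗ[ZMod 3] ZMod 3, ({x | x ∈ X ∧ φ x ≠ 0}.ncard +
      {x | x ∈ Y ∧ φ x ≠ 0}.ncard) ≤ ∑ _φ : V →ₗ[ZMod 3] ZMod 3, 2 :=
    Finset.sum_le_sum fun φ _ => by have := hc φ; omega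
  rw [Finset.sum_add_distrib, Finset.sum_const, Finset.card_univ, smul_eq_mul,
    ← Nat.card_eq_fintype_card] at hle
  have hpos : 0 < Nat.card (V →ₗ[ZMod 3] ZMod 3) := Nat.card_pos
  set N := Nat.card (V →ₗ[ZMod 3] ZMod 3)
  have h4 : 4 ≤ (X \ {0}).ncard + (Y \ {0}).ncard := by omega
  have h6 : 2 * N * 4 ≤ 2 * N * ((X \ {0}).ncard + (Y \ {0}).ncard) :=
    Nat.mul_le_mul_left _ h4
  rw [mul_add, ← hX, ← hY] at h6
  omega

end Pool.Agent.Lib.MP_b63a06_co.TR
end

section
set_option autoImplicit false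

/-!
# LFF: finite lemma for two classes

Vectors of `ZMod 3 ^ 3` are numbered `0, …, 26`, sets are bit masks. The search decides the
membership in `P` and in `Q` of the vectors in a fixed order (`Pi, Po` = in `P`, not in `P`, the
same for `Q`).
-/

namespace Pool.Agent.Lib.MP_b63a06_co.TR

namespace LFFM

/-- the list of the pairs `(2 ^ u, N u)`, `N u` the mask of the `v` with `¬ EE (u + v)` and
`¬ EE (u - v)`. -/
def ord : List (ℕ × ℕ) := [(1, 131298576), (2, 119599104), (4, 119599104), (8, 77147136),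
  (32, 22418944), (64, 77147136), (128, 22418944), (512, 71442864), (2048, 25235800),
  (32768, 34620694), (262144, 71442864), (524288, 25235800), (2097152, 34620694), (16, 2918913),
  (256, 2918913), (1024, 2130153), (4096, 526503), (8192, 262735), (1048576, 2130153),
  (16777216, 526503), (67108864, 262735), (16384, 2129927), (65536, 526409), (131072, 262817),
  (4194304, 262817), (8388608, 526409), (33554432, 2129927)]

/-- the numbers of the elements of `EE`. -/
def eel : List ℕ := [0, 1, 2, 3, 5, 6, 7, 9, 11, 15, 18, 19, 21]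

/-- number of the ones among the first `k` bits. -/
def popc : ℕ → ℕ → ℕ
  | 0, _ => 0
  | k + 1, x => Nat.add (Nat.mod x 2) (popc k (Nat.div x 2))

/-- the state is impossible. -/
def bad (Pi Po Qi Qo : ℕ) : Bool :=
  cond (Nat.beq (Nat.land Pi Po) 0) (cond (Nat.beq (Nat.land Qi Qo) 0)
    (Nat.ble 15 (popc 27 Po) || (Nat.ble 15 (popc 27 Qo) || (
      Nat.ble 18 (popc 27 Pi) || (Nat.ble 18 (popc 27 Qi) ||
      Nat.ble 31 (popc 27 Pi + popc 27 Qi))))) true) true

/-- decide about `Q`. -/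
def stepQ (g : ℕ → ℕ → ℕ → ℕ → Bool) (e m Pi Po Qi Qo : ℕ) : Bool :=
  cond (Nat.beq (Nat.land (Nat.lor Qi Qo) e) 0)
    ((bad (Nat.lor Pi m) Po Qi (Nat.lor Qo e) || g (Nat.lor Pi m) Po Qi (Nat.lor Qo e)) &&
     (bad Pi Po (Nat.lor Qi e) Qo || g Pi Po (Nat.lor Qi e) Qo))
    (g Pi Po Qi Qo)

/-- decide about `P`. -/
def stepP (g : ℕ → ℕ → ℕ → ℕ → Bool) (e m Pi Po Qi Qo : ℕ) : Bool :=
  cond (Nat.beq (Nat.land (Nat.lor Pi Po) e) 0)
    ((bad Pi (Nat.lor Po e) (Nat.lor Qi m) Qo || g Pi (Nat.lor Po e) (Nat.lor Qi m) Qo) &&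
     (bad (Nat.lor Pi e) Po Qi Qo || g (Nat.lor Pi e) Po Qi Qo))
    (g Pi Po Qi Qo)

/-- the search. -/
def go : List (ℕ × ℕ) → ℕ → ℕ → ℕ → ℕ → Bool
  | [], _, _, _, _ => false
  | (e, m) :: t, Pi, Po, Qi, Qo => stepP (stepQ (go t) e m) e m Pi Po Qi Qo

set_option maxRecDepth 100000 in
theorem run : ∀ x ∈ ord, (Nat.log2 x.1) ∈ eel → go ord 0 x.1 x.2 0 = true := by decide +kernel

/-! ### Soundness -/

theorem lor_tb (a b i : ℕ) : (Nat.lor a b).testBit i = (a.testBit i || b.testBit i) :=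
  Nat.testBit_or a b i

theorem land_ne {a b : ℕ} (h : Nat.land a b ≠ 0) : ∃ i, a.testBit i = true ∧ b.testBit i = true := by
  by_contra hc
  apply h
  have : a &&& b = 0 := by
    apply Nat.eq_of_testBit_eq
    intro i
    rw [Nat.testBit_and]
    by_contra hh
    apply hc
    refine ⟨i, ?_, ?_⟩
    · by_contra h1
      rw [Bool.not_eq_true] at h1
      apply hh
      rw [h1]
      simp
    · by_contra h1
      rw [Bool.not_eq_true] at h1
      apply hh
      rw [h1]
      simp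
  exact this

/-- `popc` counts. -/
theorem popc_eq : ∀ k x : ℕ, popc k x = ((Finset.range k).filter (fun i => x.testBit i = true)).card := by
  intro k
  induction k with
  | zero => intro x; simp [popc]
  | succ k ih =>
    intro x
    have h1 : popc (k + 1) x = x % 2 + popc k (x / 2) := rfl
    rw [h1, ih]
    have h2 : (Finset.range (k + 1)).filter (fun i => x.testBit i = true) =
        (({0} : Finset ℕ).filter (fun i => x.testBit i = true)) ∪
        (((Finset.range k).filter (fun i => (x / 2).testBit i = true)).image Nat.succ) := by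
      ext i
      simp only [Finset.mem_filter, Finset.mem_range, Finset.mem_union, Finset.mem_singleton,
        Finset.mem_image]
      constructor
      · rintro ⟨hi, hb⟩
        rcases Nat.eq_zero_or_pos i with rfl | hp
        · exact Or.inl ⟨rfl, hb⟩
        · refine Or.inr ⟨i - 1, ⟨by omega, ?_⟩, by omega⟩
          rw [← Nat.testBit_succ]
          have : (i - 1).succ = i := by omega
          rw [this]
          exact hb
      · rintro (⟨rfl, hb⟩ | ⟨j, ⟨hj, hb⟩, rfl⟩)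
        · exact ⟨by omega, hb⟩
        · refine ⟨by omega, ?_⟩
          rw [← Nat.testBit_succ] at hb
          exact hb
    rw [h2, Finset.card_union_of_disjoint, Finset.card_image_of_injective _ Nat.succ_injective]
    · congr 1
      rcases Nat.mod_two_eq_zero_or_one x with hm | hm
      · have : x.testBit 0 = false := by rw [Nat.testBit_zero, hm]; rfl
        rw [hm]
        simp [Finset.filter_singleton, this]
      · have : x.testBit 0 = true := by rw [Nat.testBit_zero, hm]; rfl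
        rw [hm]
        simp [Finset.filter_singleton, this]
    · rw [Finset.disjoint_left]
      intro i hi hj
      rw [Finset.mem_filter, Finset.mem_singleton] at hi
      rw [Finset.mem_image] at hj
      obtain ⟨j, _, hj⟩ := hj
      rw [hi.1] at hj
      exact Nat.succ_ne_zero _ hj

/-- the situation. -/
structure Sit (SP SQ : Finset ℕ) : Prop where
  p27 : SP ⊆ Finset.range 27
  q27 : SQ ⊆ Finset.range 27
  p13 : 13 ≤ SP.card
  q13 : 13 ≤ SQ.card
  pq : SP.card + SQ.card ≤ 30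

/-- the invariant. -/
structure Inv (SP SQ : Finset ℕ) (Pi Po Qi Qo : ℕ) : Prop where
  pi : ∀ i, Pi.testBit i = true → i ∈ SP
  po : ∀ i, Po.testBit i = true → i ∉ SP
  qi : ∀ i, Qi.testBit i = true → i ∈ SQ
  qo : ∀ i, Qo.testBit i = true → i ∉ SQ

theorem in_le {S : Finset ℕ} {x : ℕ} (h : ∀ i, x.testBit i = true → i ∈ S) : popc 27 x ≤ S.card := by
  rw [popc_eq]
  apply Finset.card_le_card
  intro i hi
  exact h i (Finset.mem_filter.1 hi).2

theorem out_le {S : Finset ℕ} (h27 : S ⊆ Finset.range 27) {x : ℕ}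
    (h : ∀ i, x.testBit i = true → i ∉ S) : popc 27 x + S.card ≤ 27 := by
  rw [popc_eq]
  have hd : Disjoint ((Finset.range 27).filter (fun i => x.testBit i = true)) S := by
    rw [Finset.disjoint_left]
    intro i hi
    exact h i (Finset.mem_filter.1 hi).2
  rw [← Finset.card_union_of_disjoint hd]
  have : (Finset.range 27).filter (fun i => x.testBit i = true) ∪ S ⊆ Finset.range 27 :=
    Finset.union_subset (Finset.filter_subset _ _) h27
  have := Finset.card_le_card this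
  simpa using this

theorem bad_sound {SP SQ : Finset ℕ} (hS : Sit SP SQ) {Pi Po Qi Qo : ℕ}
    (hI : Inv SP SQ Pi Po Qi Qo) : bad Pi Po Qi Qo = false := by
  have h1 : Nat.land Pi Po = 0 := by
    by_contra h
    obtain ⟨i, ha, hb⟩ := land_ne h
    exact hI.po i hb (hI.pi i ha)
  have h2 : Nat.land Qi Qo = 0 := by
    by_contra h
    obtain ⟨i, ha, hb⟩ := land_ne h
    exact hI.qo i hb (hI.qi i ha)
  have a1 := in_le hI.pi
  have a2 := in_le hI.qi
  have a3 := out_le hS.p27 hI.po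
  have a4 := out_le hS.q27 hI.qo
  have b1 := hS.p13
  have b2 := hS.q13
  have b3 := hS.pq
  have key : ∀ a b : ℕ, ¬ a ≤ b → Nat.ble a b = false := by
    intro a b h
    rw [Bool.eq_false_iff]
    intro hb
    exact h (Nat.le_of_ble_eq_true hb)
  unfold bad
  rw [h1, h2, key _ _ (by omega), key _ _ (by omega), key _ _ (by omega), key _ _ (by omega),
    key _ _ (by omega)]
  rfl

/-- a good entry. -/
def Good (SP SQ : Finset ℕ) (x : ℕ × ℕ) : Prop := ∃ i, x.1 = 2 ^ i ∧
  (i ∉ SP → ∀ v, x.2.testBit v = true → v ∈ SQ) ∧ (i ∉ SQ → ∀ v, x.2.testBit v = true → v ∈ SP)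

theorem lor_pow_tb {a i j : ℕ} (h : (Nat.lor a (2 ^ i)).testBit j = true) :
    a.testBit j = true ∨ i = j := by
  rw [lor_tb, Bool.or_eq_true, Nat.testBit_two_pow, decide_eq_true_eq] at h
  exact h

theorem lor_or {a b j : ℕ} (h : (Nat.lor a b).testBit j = true) :
    a.testBit j = true ∨ b.testBit j = true := by
  rw [lor_tb, Bool.or_eq_true] at h
  exact h

theorem stepQ_sound {SP SQ : Finset ℕ} (hS : Sit SP SQ) (g : ℕ → ℕ → ℕ → ℕ → Bool)
    (hg : ∀ Pi Po Qi Qo, Inv SP SQ Pi Po Qi Qo → g Pi Po Qi Qo = true → False) {x : ℕ × ℕ}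
    (hx : Good SP SQ x) : ∀ Pi Po Qi Qo, Inv SP SQ Pi Po Qi Qo →
    stepQ g x.1 x.2 Pi Po Qi Qo = true → False := by
  intro Pi Po Qi Qo hI h
  obtain ⟨i, hi, _, hq⟩ := hx
  rw [hi] at h
  unfold stepQ at h
  cases hc : Nat.beq (Nat.land (Nat.lor Qi Qo) (2 ^ i)) 0 with
  | false => rw [hc] at h; exact hg _ _ _ _ hI h
  | true =>
    rw [hc, cond_true, Bool.and_eq_true, Bool.or_eq_true, Bool.or_eq_true] at h
    by_cases hm : i ∈ SQ
    · have hI' : Inv SP SQ Pi Po (Nat.lor Qi (2 ^ i)) Qo := by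
        refine ⟨hI.pi, hI.po, ?_, hI.qo⟩
        intro j hj
        rcases lor_pow_tb hj with hj | rfl
        · exact hI.qi j hj
        · exact hm
      rw [bad_sound hS hI'] at h
      rcases h.2 with h | h
      · exact absurd h (by simp)
      · exact hg _ _ _ _ hI' h
    · have hI' : Inv SP SQ (Nat.lor Pi x.2) Po Qi (Nat.lor Qo (2 ^ i)) := by
        refine ⟨?_, hI.po, hI.qi, ?_⟩
        · intro j hj
          rcases lor_or hj with hj | hj
          · exact hI.pi j hj
          · exact hq hm j hj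
        · intro j hj
          rcases lor_pow_tb hj with hj | rfl
          · exact hI.qo j hj
          · exact hm
      rw [bad_sound hS hI'] at h
      rcases h.1 with h | h
      · exact absurd h (by simp)
      · exact hg _ _ _ _ hI' h

theorem stepP_sound {SP SQ : Finset ℕ} (hS : Sit SP SQ) (g : ℕ → ℕ → ℕ → ℕ → Bool)
    (hg : ∀ Pi Po Qi Qo, Inv SP SQ Pi Po Qi Qo → g Pi Po Qi Qo = true → False) {x : ℕ × ℕ}
    (hx : Good SP SQ x) : ∀ Pi Po Qi Qo, Inv SP SQ Pi Po Qi Qo →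
    stepP g x.1 x.2 Pi Po Qi Qo = true → False := by
  intro Pi Po Qi Qo hI h
  obtain ⟨i, hi, hp, _⟩ := hx
  rw [hi] at h
  unfold stepP at h
  cases hc : Nat.beq (Nat.land (Nat.lor Pi Po) (2 ^ i)) 0 with
  | false => rw [hc] at h; exact hg _ _ _ _ hI h
  | true =>
    rw [hc, cond_true, Bool.and_eq_true, Bool.or_eq_true, Bool.or_eq_true] at h
    by_cases hm : i ∈ SP
    · have hI' : Inv SP SQ (Nat.lor Pi (2 ^ i)) Po Qi Qo := by
        refine ⟨?_, hI.po, hI.qi, hI.qo⟩
        intro j hj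
        rcases lor_pow_tb hj with hj | rfl
        · exact hI.pi j hj
        · exact hm
      rw [bad_sound hS hI'] at h
      rcases h.2 with h | h
      · exact absurd h (by simp)
      · exact hg _ _ _ _ hI' h
    · have hI' : Inv SP SQ Pi (Nat.lor Po (2 ^ i)) (Nat.lor Qi x.2) Qo := by
        refine ⟨hI.pi, ?_, ?_, hI.qo⟩
        · intro j hj
          rcases lor_pow_tb hj with hj | rfl
          · exact hI.po j hj
          · exact hm
        · intro j hj
          rcases lor_or hj with hj | hj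
          · exact hI.qi j hj
          · exact hp hm j hj
      rw [bad_sound hS hI'] at h
      rcases h.1 with h | h
      · exact absurd h (by simp)
      · exact hg _ _ _ _ hI' h

theorem go_sound {SP SQ : Finset ℕ} (hS : Sit SP SQ) : ∀ t : List (ℕ × ℕ),
    (∀ x ∈ t, Good SP SQ x) → ∀ Pi Po Qi Qo, Inv SP SQ Pi Po Qi Qo → go t Pi Po Qi Qo = true →
    False := by
  intro t
  induction t with
  | nil => intro _ Pi Po Qi Qo _ h; simp [go] at h
  | cons x t ih =>
    intro ht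
    have ih' := ih (fun y hy => ht y (List.mem_cons_of_mem _ hy))
    have hx := ht x List.mem_cons_self
    exact stepP_sound hS _ (stepQ_sound hS _ ih' hx) hx

/-! ### Numbers and vectors -/

/-- the number of a vector. -/
def ixn (c : Fin 3 → ZMod 3) : ℕ := (c 0).val + 3 * (c 1).val + 9 * (c 2).val

/-- the vector with a number. -/
def vec (i : ℕ) : Fin 3 → ZMod 3 := ![(i : ZMod 3), ((i / 3 : ℕ) : ZMod 3), ((i / 9 : ℕ) : ZMod 3)]

theorem e0 : ∀ a b d : ZMod 3, ((a.val + 3 * b.val + 9 * d.val : ℕ) : ZMod 3) = a := by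
  decide +kernel

theorem e1 : ∀ a b d : ZMod 3, (((a.val + 3 * b.val + 9 * d.val) / 3 : ℕ) : ZMod 3) = b := by
  decide +kernel

theorem e2 : ∀ a b d : ZMod 3, (((a.val + 3 * b.val + 9 * d.val) / 9 : ℕ) : ZMod 3) = d := by
  decide +kernel

theorem e3 : ∀ a b d : ZMod 3, a.val + 3 * b.val + 9 * d.val < 27 := by decide +kernel

theorem vec_ixn (c : Fin 3 → ZMod 3) : vec (ixn c) = c := by
  ext i
  fin_cases i
  · exact congrArg (fun z => z) (e0 (c 0) (c 1) (c 2))
  · exact congrArg (fun z => z) (e1 (c 0) (c 1) (c 2))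
  · exact congrArg (fun z => z) (e2 (c 0) (c 1) (c 2))

theorem ixn_lt (c : Fin 3 → ZMod 3) : ixn c < 27 := e3 _ _ _

theorem ixn_vec : ∀ i : Fin 27, ixn (vec i.val) = i.val := by decide +kernel

theorem ord_pow : ∀ x ∈ ord, x.1 = 2 ^ Nat.log2 x.1 ∧ Nat.log2 x.1 < 27 ∧ x.2 < 2 ^ 27 := by
  decide +kernel

theorem ord_N : ∀ x ∈ ord, ∀ v : Fin 27, x.2.testBit v.val = true →
    ¬ EE (vec (Nat.log2 x.1) + vec v.val) ∧ ¬ EE (vec (Nat.log2 x.1) - vec v.val) := by
  decide +kernel

theorem ord_all : ∀ i : Fin 27, ∃ x ∈ ord, Nat.log2 x.1 = i.val := by decide +kernel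

theorem eel_ok : ∀ i : Fin 27, EE (vec i.val) → i.val ∈ eel := by decide +kernel

theorem EE_neg : ∀ a b d : ZMod 3, EE ![a, b, d] → EE ![-a, -b, -d] := by decide +kernel

theorem EE_neg' (c : Fin 3 → ZMod 3) (h : EE c) : EE (-c) := by
  have h1 : c = ![c 0, c 1, c 2] := by
    ext i
    fin_cases i <;> rfl
  have h2 : -c = ![-c 0, -c 1, -c 2] := by
    ext i
    fin_cases i <;> rfl
  rw [h2]
  rw [h1] at h
  exact EE_neg _ _ _ h

/-- the set of numbers. -/
noncomputable def num (P : Set (Fin 3 → ZMod 3)) : Finset ℕ := by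
  classical exact (Finset.range 27).filter (fun i => vec i ∈ P)

theorem mem_num (P : Set (Fin 3 → ZMod 3)) (i : ℕ) : i ∈ num P ↔ i < 27 ∧ vec i ∈ P := by
  classical
  unfold num
  rw [Finset.mem_filter, Finset.mem_range]

theorem card_num (P : Set (Fin 3 → ZMod 3)) : P.ncard = (num P).card := by
  classical
  have inj : Set.InjOn vec ((num P : Finset ℕ) : Set ℕ) := by
    intro i hi j hj hij
    rw [Finset.mem_coe, mem_num] at hi hj
    have hi' := ixn_vec ⟨i, hi.1⟩
    have hj' := ixn_vec ⟨j, hj.1⟩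
    simp only at hi' hj'
    rw [← hi', ← hj', hij]
  have img : (((num P).image vec : Finset (Fin 3 → ZMod 3)) : Set (Fin 3 → ZMod 3)) = P := by
    ext c
    rw [Finset.mem_coe, Finset.mem_image]
    constructor
    · rintro ⟨i, hi, rfl⟩
      rw [mem_num] at hi
      exact hi.2
    · intro h
      refine ⟨ixn c, ?_, vec_ixn c⟩
      rw [mem_num, vec_ixn]
      exact ⟨ixn_lt c, h⟩
  rw [← Finset.card_image_of_injOn inj, ← Set.ncard_coe_finset, img]

theorem half (P Q : Set (Fin 3 → ZMod 3)) (hP : 13 ≤ P.ncard) (hQ : 13 ≤ Q.ncard)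
    (hPQ : P.ncard + Q.ncard ≤ 30)
    (h : ∀ u v, ¬ EE (u + v) → ¬ EE (u - v) → u ∈ P ∨ v ∈ Q) (c : Fin 3 → ZMod 3) (hc : EE c) :
    c ∈ P := by
  by_contra hcP
  have hS : Sit (num P) (num Q) := by
    refine ⟨?_, ?_, ?_, ?_, ?_⟩
    · intro i hi
      rw [mem_num] at hi
      exact Finset.mem_range.2 hi.1
    · intro i hi
      rw [mem_num] at hi
      exact Finset.mem_range.2 hi.1
    · rw [← card_num]; exact hP
    · rw [← card_num]; exact hQ
    · rw [← card_num, ← card_num]; exact hPQ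
  have bnd : ∀ x ∈ ord, ∀ v, x.2.testBit v = true → v < 27 := by
    intro x hx v hv
    by_contra hlt
    have h27 := (ord_pow x hx).2.2
    have hlt' : x.2 < 2 ^ v := lt_of_lt_of_le h27 (Nat.pow_le_pow_right (by omega) (by omega))
    rw [Nat.testBit_lt_two_pow hlt'] at hv
    exact absurd hv (by simp)
  have hgood : ∀ x ∈ ord, Good (num P) (num Q) x := by
    intro x hx
    obtain ⟨h1, h2, _⟩ := ord_pow x hx
    refine ⟨Nat.log2 x.1, h1, ?_, ?_⟩
    · intro hi v hv
      have hv27 := bnd x hx v hv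
      obtain ⟨n1, n2⟩ := ord_N x hx ⟨v, hv27⟩ hv
      rw [mem_num] at hi ⊢
      refine ⟨hv27, ?_⟩
      rcases h _ _ n1 n2 with h3 | h3
      · exact absurd ⟨h2, h3⟩ hi
      · exact h3
    · intro hi v hv
      have hv27 := bnd x hx v hv
      obtain ⟨n1, n2⟩ := ord_N x hx ⟨v, hv27⟩ hv
      rw [mem_num] at hi ⊢
      refine ⟨hv27, ?_⟩
      have n1' : ¬ EE (vec v + vec (Nat.log2 x.1)) := by rw [add_comm]; exact n1
      have n2' : ¬ EE (vec v - vec (Nat.log2 x.1)) := by
        intro hh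
        apply n2
        have := EE_neg' _ hh
        rw [neg_sub] at this
        exact this
      rcases h _ _ n1' n2' with h3 | h3
      · exact h3
      · exact absurd ⟨h2, h3⟩ hi
  obtain ⟨x, hx, hxi⟩ := ord_all ⟨ixn c, ixn_lt c⟩
  simp only at hxi
  have hel : Nat.log2 x.1 ∈ eel := by
    rw [hxi]
    refine eel_ok ⟨ixn c, ixn_lt c⟩ ?_
    simp only
    rw [vec_ixn]
    exact hc
  have hr := run x hx hel
  have hni : ixn c ∉ num P := by
    rw [mem_num, vec_ixn]
    exact fun hh => hcP hh.2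
  have hI : Inv (num P) (num Q) 0 x.1 x.2 0 := by
    refine ⟨?_, ?_, ?_, ?_⟩
    · intro i hi
      simp at hi
    · intro i hi
      rw [(ord_pow x hx).1, hxi, Nat.testBit_two_pow, decide_eq_true_eq] at hi
      rw [← hi]
      exact hni
    · intro i hi
      obtain ⟨k, hk, hg, _⟩ := hgood x hx
      refine hg ?_ i hi
      have : k = ixn c := by
        have h1 := (ord_pow x hx).1
        rw [hxi] at h1
        rw [h1] at hk
        exact (Nat.pow_right_injective (le_refl 2) hk).symm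
      rw [this]
      exact hni
    · intro i hi
      simp at hi
  exact go_sound hS ord hgood 0 x.1 x.2 0 hI hr

end LFFM

open LFFM in
theorem specLFF : SpecLFF := by
  intro P Q hP hQ hPQ h
  refine ⟨fun c hc => half P Q hP hQ hPQ h c hc, fun c hc => ?_⟩
  refine half Q P hQ hP (by omega) ?_ c hc
  intro u v h1 h2
  have h1' : ¬ EE (v + u) := by rw [add_comm]; exact h1
  have h2' : ¬ EE (v - u) := by
    intro hh
    apply h2
    have := EE_neg' _ hh
    rw [neg_sub] at this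
    exact this
  exact (h v u h1' h2').symm

end Pool.Agent.Lib.MP_b63a06_co.TR
end

section
set_option autoImplicit false

/-! # MP_b63a06_co, module LMA (helper65): averaging over functionals vanishing on `K`. -/

namespace Pool.Agent.Lib.MP_b63a06_co.TR

namespace LMAM

variable {V : Type} [AddCommGroup V] [Module (ZMod 3) V]

theorem cnt1 [Finite V] (x : V) (hx : x ≠ 0) :
    3 * {φ : V →ₗ[ZMod 3] ZMod 3 | φ x = 1}.ncard = Nat.card (V →ₗ[ZMod 3] ZMod 3) := by
  classical
  have : Fact (Nat.Prime 3) := ⟨Nat.prime_three⟩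
  have hfin : Finite (V →ₗ[ZMod 3] ZMod 3) := DFunLike.finite _
  have h0 := HAVM.cnt x hx
  have hneg : {φ : V →ₗ[ZMod 3] ZMod 3 | φ x = -1}.ncard =
      {φ : V →ₗ[ZMod 3] ZMod 3 | φ x = 1}.ncard := by
    rw [← Set.ncard_image_of_injective {φ : V →ₗ[ZMod 3] ZMod 3 | φ x = 1} neg_injective]
    congr 1
    ext φ
    constructor
    · intro h
      have h' : φ x = -1 := h
      exact ⟨-φ, by simp [h'], by simp⟩
    · rintro ⟨ψ, hψ, rfl⟩
      have h' : ψ x = 1 := hψ
      simp [h']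
  have hne : {φ : V →ₗ[ZMod 3] ZMod 3 | φ x ≠ 0} =
      {φ : V →ₗ[ZMod 3] ZMod 3 | φ x = 1} ∪ {φ : V →ₗ[ZMod 3] ZMod 3 | φ x = -1} := by
    ext φ
    exact HAVM.z3' (φ x)
  have hd : Disjoint {φ : V →ₗ[ZMod 3] ZMod 3 | φ x = 1}
      {φ : V →ₗ[ZMod 3] ZMod 3 | φ x = -1} := by
    rw [Set.disjoint_left]
    intro φ ha hb
    have ha' : φ x = 1 := ha
    have hb' : φ x = -1 := hb
    rw [ha'] at hb'
    exact HAVM.z3n hb'
  rw [hne, Set.ncard_union_eq hd (Set.toFinite _) (Set.toFinite _), hneg] at h0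
  omega

theorem dc [Finite V] (K : Submodule (ZMod 3) V) (X : Set V)
    [Fintype ((V ⧸ K) →ₗ[ZMod 3] ZMod 3)] (p : ZMod 3 → Prop) [DecidablePred p] :
    ∑ f : (V ⧸ K) →ₗ[ZMod 3] ZMod 3, {x | x ∈ X ∧ p (f (K.mkQ x))}.ncard =
      ∑ x ∈ (Set.toFinite X).toFinset, {f : (V ⧸ K) →ₗ[ZMod 3] ZMod 3 | p (f (K.mkQ x))}.ncard := by
  classical
  have h1 : ∀ f : (V ⧸ K) →ₗ[ZMod 3] ZMod 3, {x | x ∈ X ∧ p (f (K.mkQ x))}.ncard =
      ∑ x ∈ (Set.toFinite X).toFinset, if p (f (K.mkQ x)) then 1 else 0 := by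
    intro f
    rw [← Finset.card_filter, ← Set.ncard_coe_finset]
    congr 1
    ext x
    simp
  have h2 : ∀ x : V, {f : (V ⧸ K) →ₗ[ZMod 3] ZMod 3 | p (f (K.mkQ x))}.ncard =
      ∑ f : (V ⧸ K) →ₗ[ZMod 3] ZMod 3, if p (f (K.mkQ x)) then 1 else 0 := by
    intro x
    rw [← Finset.card_filter, ← Set.ncard_coe_finset]
    congr 1
    ext f
    simp
  simp_rw [h1, h2]
  rw [Finset.sum_comm]

end LMAM

open LMAM

theorem specLMA : SpecLMA := by
  intro V _ _ _ X Y Z K h
  classical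
  have hfinQ : Finite (V ⧸ K) := Quotient.finite _
  have hfin : Finite ((V ⧸ K) →ₗ[ZMod 3] ZMod 3) := DFunLike.finite _
  let _ : Fintype ((V ⧸ K) →ₗ[ZMod 3] ZMod 3) := Fintype.ofFinite _
  set N := Nat.card ((V ⧸ K) →ₗ[ZMod 3] ZMod 3) with hN
  have hNpos : 0 < N := Nat.card_pos
  have hsum : ∑ f : (V ⧸ K) →ₗ[ZMod 3] ZMod 3, {x | x ∈ X ∧ f (K.mkQ x) ≠ 0}.ncard ≤
      ∑ f : (V ⧸ K) →ₗ[ZMod 3] ZMod 3, {x | x ∈ Y ∧ f (K.mkQ x) = 1}.ncard +
      ∑ f : (V ⧸ K) →ₗ[ZMod 3] ZMod 3, {x | x ∈ Z ∧ f (K.mkQ x) = 1}.ncard := by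
    rw [← Finset.sum_add_distrib]
    refine Finset.sum_le_sum ?_
    intro f _
    refine h (f.comp K.mkQ) ?_
    intro k hk
    have : K.mkQ k = 0 := by simpa using hk
    rw [LinearMap.comp_apply, this, map_zero]
  rw [dc K X (fun c => c ≠ 0), dc K Y (fun c => c = 1), dc K Z (fun c => c = 1)] at hsum
  have hX : 2 * N * {x | x ∈ X ∧ x ∉ K}.ncard ≤
      3 * ∑ x ∈ (Set.toFinite X).toFinset,
        {f : (V ⧸ K) →ₗ[ZMod 3] ZMod 3 | f (K.mkQ x) ≠ 0}.ncard := by
    have e1 : {x | x ∈ X ∧ x ∉ K}.ncard = ((Set.toFinite X).toFinset.filter (fun x => x ∉ K)).card := by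
      rw [← Set.ncard_coe_finset]
      congr 1
      ext x
      simp
    rw [e1, Finset.card_filter, Finset.mul_sum, Finset.mul_sum]
    refine Finset.sum_le_sum ?_
    intro x _
    by_cases hx : x ∈ K
    · rw [if_neg (by simpa using hx)]
      exact Nat.zero_le _
    · rw [if_pos hx, mul_one]
      have hq : K.mkQ x ≠ 0 := by simpa using hx
      exact le_of_eq (HAVM.cnt (K.mkQ x) hq).symm
  have hY : ∀ Y : Set V, 3 * ∑ x ∈ (Set.toFinite Y).toFinset,
      {f : (V ⧸ K) →ₗ[ZMod 3] ZMod 3 | f (K.mkQ x) = 1}.ncard ≤ N * Y.ncard := by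
    intro Y
    rw [Set.ncard_eq_toFinset_card Y (Set.toFinite Y), Finset.mul_sum, Finset.card_eq_sum_ones,
      Finset.mul_sum]
    refine Finset.sum_le_sum ?_
    intro x _
    rw [mul_one]
    by_cases hx : x ∈ K
    · have hq : K.mkQ x = 0 := by simpa using hx
      have : {f : (V ⧸ K) →ₗ[ZMod 3] ZMod 3 | f (K.mkQ x) = 1} = ∅ := by
        ext f
        simp only [Set.mem_ofPred_eq, Set.mem_empty_iff_false, iff_false]
        rw [hq, map_zero]
        decide
      rw [this, Set.ncard_empty]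
      exact Nat.zero_le _
    · have hq : K.mkQ x ≠ 0 := by simpa using hx
      exact le_of_eq (cnt1 (K.mkQ x) hq)
  have h1 := hY Y
  have h2 := hY Z
  have h3 : N * (2 * {x | x ∈ X ∧ x ∉ K}.ncard) ≤ N * (Y.ncard + Z.ncard) := by
    calc N * (2 * {x | x ∈ X ∧ x ∉ K}.ncard) = 2 * N * {x | x ∈ X ∧ x ∉ K}.ncard := by ring
      _ ≤ _ := hX
      _ ≤ _ := Nat.mul_le_mul_left 3 hsum
      _ = 3 * _ + 3 * _ := Nat.mul_add _ _ _
      _ ≤ N * Y.ncard + N * Z.ncard := Nat.add_le_add h1 h2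
      _ = N * (Y.ncard + Z.ncard) := (Nat.mul_add _ _ _).symm
  exact Nat.le_of_mul_le_mul_left h3 hNpos

end Pool.Agent.Lib.MP_b63a06_co.TR
end

section
set_option autoImplicit false

/-! # TR, module LPS: a layer has at least three elements -/

namespace Pool.Agent.Lib.MP_b63a06_co.TR

namespace LPSM

variable {V : Type} [AddCommGroup V] [Module (ZMod 3) V]

theorem zm3 : ∀ k : ZMod 3, k = 0 ∨ k = 1 ∨ k = -1 := by decide

omit [AddCommGroup V] [Module (ZMod 3) V] in
theorem exists_avoid [Finite V] (L : Set V) (hL : L.ncard ≤ 2) (f : V → ZMod 3) :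
    ∃ a, ∀ x ∈ L, f x ≠ a := by
  by_contra hcon
  push Not at hcon
  have h1 : (Set.univ : Set (ZMod 3)) ⊆ f '' L := fun a _ => by
    obtain ⟨x, hx, hxa⟩ := hcon a
    exact ⟨x, hx, hxa⟩
  have h2 := Set.ncard_le_ncard h1 (Set.toFinite _)
  rw [Set.ncard_univ, Nat.card_zmod] at h2
  have h3 := Set.ncard_image_le (f := f) (Set.toFinite L)
  omega

theorem cardK [Finite V] (W : Submodule (ZMod 3) V) (φ : V →ₗ[ZMod 3] ZMod 3) (w : V) (hw : w ∈ W)
    (hφ : φ w ≠ 0) : Nat.card W = 3 * Nat.card ↥(W ⊓ LinearMap.ker φ) := by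
  have : Fact (Nat.Prime 3) := ⟨Nat.prime_three⟩
  let ψ : W →ₗ[ZMod 3] ZMod 3 := φ.comp W.subtype
  have hsurj : Function.Surjective ψ := by
    intro c
    refine ⟨(c * (φ w)⁻¹) • ⟨w, hw⟩, ?_⟩
    rw [map_smul]
    change (c * (φ w)⁻¹) * φ w = c
    rw [mul_assoc, inv_mul_cancel₀ hφ, mul_one]
  have h1 : Nat.card (W ⧸ LinearMap.ker ψ) = 3 := by
    rw [Nat.card_congr (LinearMap.quotKerEquivOfSurjective ψ hsurj).toEquiv, Nat.card_zmod]
  have h2 : Nat.card ↥(W ⊓ LinearMap.ker φ) = Nat.card ↥(LinearMap.ker ψ) :=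
    Nat.card_congr
      { toFun := fun x => ⟨⟨x.1, x.2.1⟩, x.2.2⟩
        invFun := fun x => ⟨x.1.1, x.1.2, x.2⟩
        left_inv := fun _ => rfl
        right_inv := fun _ => rfl }
  rw [h2, Submodule.card_eq_card_quotient_mul_card (LinearMap.ker ψ), h1, mul_comm]

/-- the elements of the layer at a position -/
def Lp (A : Set V) (W : Submodule (ZMod 3) V) (s t y : V) (φ : V →ₗ[ZMod 3] ZMod 3) (c : ZMod 3)
    (a b : ZMod 3) : Set V := {x | x ∈ A ∧ x - y - a • s - b • t ∈ W ∧ φ x = c}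

theorem disj {A : Set V} {W : Submodule (ZMod 3) V} {s t y : V} {φ : V →ₗ[ZMod 3] ZMod 3}
    {c : ZMod 3} (hind : ∀ a b : ZMod 3, a • s + b • t ∈ W → a = 0 ∧ b = 0)
    (a b a' b' : ZMod 3) (h : ¬ (a = a' ∧ b = b')) :
    Disjoint (Lp A W s t y φ c a b) (Lp A W s t y φ c a' b') := by
  rw [Set.disjoint_left]
  rintro x ⟨-, hx, -⟩ ⟨-, hx', -⟩
  apply h
  have h1 : (a - a') • s + (b - b') • t ∈ W := by
    have : (a - a') • s + (b - b') • t =
        (x - y - a' • s - b' • t) - (x - y - a • s - b • t) := by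
      rw [sub_smul, sub_smul]; abel
    rw [this]
    exact W.sub_mem hx' hx
  have h2 := hind _ _ h1
  exact ⟨sub_eq_zero.mp h2.1, sub_eq_zero.mp h2.2⟩

/-- The count of a coset of `W`. -/
theorem cs_split [Finite V] (A : Set V) (W : Submodule (ZMod 3) V) (φ : V →ₗ[ZMod 3] ZMod 3)
    (u : V) : (cs A W u).ncard = {k | k ∈ W ⊓ LinearMap.ker φ ∧ u + k ∈ A}.ncard +
      {w | w ∈ W ∧ φ w ≠ 0 ∧ u + w ∈ A}.ncard := by
  have hcs : cs A W u = (fun w => u + w) '' ({k | k ∈ W ⊓ LinearMap.ker φ ∧ u + k ∈ A} ∪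
      {w | w ∈ W ∧ φ w ≠ 0 ∧ u + w ∈ A}) := by
    ext x
    constructor
    · rintro ⟨hx, hxu⟩
      refine ⟨x - u, ?_, by simp⟩
      have h1 : u + (x - u) ∈ A := by rwa [add_sub_cancel]
      by_cases h : φ (x - u) = 0
      · exact Or.inl ⟨⟨hxu, h⟩, h1⟩
      · exact Or.inr ⟨hxu, h, h1⟩
    · rintro ⟨w, h | h, rfl⟩
      · exact ⟨h.2, by simpa using h.1.1⟩
      · exact ⟨h.2.2, by simpa using h.1⟩
  rw [hcs, Set.ncard_image_of_injective _ (add_right_injective u),
    Set.ncard_union_eq ?_ (Set.toFinite _) (Set.toFinite _)]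
  rw [Set.disjoint_left]
  rintro w ⟨⟨-, h⟩, -⟩ ⟨-, h', -⟩
  exact h' h

theorem n1 : ∀ x : ZMod 3, x + 1 ≠ x - 1 := by decide

theorem n2 : ∀ x : ZMod 3, x + -1 ≠ x + 1 := by decide

theorem n3 : ∀ x : ZMod 3, x - -1 ≠ x - 1 := by decide

end LPSM

open LPSM in
theorem specLPS (hFLI : SpecFLI) (hCBA : SpecCBA) (hYSM : SpecYSM) : SpecLPS := by
  have : Fact (Nat.Prime 3) := ⟨Nat.prime_three⟩
  intro V _ _ _ A hA W s t hc hmin y _ φ hφs hφt hφy hw c
  obtain ⟨w₁, hw₁, hw₁'⟩ := hw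
  by_cases hE : 3 ≤ EC A W s t y φ c
  · exact (min_le_left _ _).trans hE
  refine (min_le_right _ _).trans ?_
  have hind := (hCBA V A hA W s t hc).1
  have hFF := (hYSM V A W s t).1
  have hE2 : {x | x ∈ A ∧ x - y ∈ FF W s t ∧ φ x = c}.ncard ≤ 2 := by
    have : EC A W s t y φ c = {x | x ∈ A ∧ x - y ∈ FF W s t ∧ φ x = c}.ncard := rfl
    omega
  -- coordinates
  have hco : ∀ x, ∃ p : ZMod 3 × ZMod 3, x ∈ {x | x ∈ A ∧ x - y ∈ FF W s t ∧ φ x = c} →
      x - y - p.1 • s - p.2 • t ∈ W := by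
    intro x
    by_cases hx : x ∈ {x | x ∈ A ∧ x - y ∈ FF W s t ∧ φ x = c}
    · obtain ⟨a, b, hab⟩ := (hFF _).mp hx.2.1
      exact ⟨(a, b), fun _ => hab⟩
    · exact ⟨0, fun h => absurd h hx⟩
  choose f hf using hco
  obtain ⟨a, ha⟩ := exists_avoid _ hE2 (fun x => (f x).1)
  obtain ⟨b, hb⟩ := exists_avoid _ hE2 (fun x => (f x).2)
  have hLL : ∀ a' b' x, x ∈ Lp A W s t y φ c a' b' →
      x ∈ {x | x ∈ A ∧ x - y ∈ FF W s t ∧ φ x = c} ∧ a' ≠ a ∧ b' ≠ b := by
    intro a' b' x hx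
    have h1 : x ∈ {x | x ∈ A ∧ x - y ∈ FF W s t ∧ φ x = c} :=
      ⟨hx.1, (hFF _).mpr ⟨a', b', hx.2.1⟩, hx.2.2⟩
    have h2 := hf x h1
    have h3 : (a' - (f x).1) • s + (b' - (f x).2) • t ∈ W := by
      have : (a' - (f x).1) • s + (b' - (f x).2) • t =
          (x - y - (f x).1 • s - (f x).2 • t) - (x - y - a' • s - b' • t) := by
        rw [sub_smul, sub_smul]; abel
      rw [this]
      exact W.sub_mem h2 hx.2.1
    have h4 := hind _ _ h3
    have h5 := sub_eq_zero.mp h4.1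
    have h6 := sub_eq_zero.mp h4.2
    refine ⟨h1, ?_, ?_⟩
    · rw [h5]; exact ha x h1
    · rw [h6]; exact hb x h1
  -- the new subspace
  obtain ⟨w₀, hw₀, hw₀'⟩ : ∃ w₀ ∈ W, φ w₀ = c := by
    refine ⟨(c * (φ w₁)⁻¹) • w₁, W.smul_mem _ hw₁, ?_⟩
    rw [map_smul, smul_eq_mul, mul_assoc, inv_mul_cancel₀ hw₁', mul_one]
  set κ : V := y + a • s + b • t + w₀ with hκ
  have hφκ : φ κ = c := by
    rw [hκ, map_add, map_add, map_add, map_smul, map_smul, hφy, hφs, hφt, hw₀']
    simp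
  have hnot : ∀ x ∈ A, x - κ ∉ W ⊓ LinearMap.ker φ := by
    rintro x hx ⟨h1, h2⟩
    have h3 : x ∈ Lp A W s t y φ c a b := by
      refine ⟨hx, ?_, ?_⟩
      · have : x - y - a • s - b • t = (x - κ) + w₀ := by rw [hκ]; abel
        rw [this]
        exact W.add_mem h1 hw₀
      · have h4 : φ (x - κ) = 0 := h2
        rw [map_sub, hφκ, sub_eq_zero] at h4
        exact h4
    exact (hLL a b x h3).2.1 rfl
  obtain ⟨hW'1, hW'2⟩ := hFLI V A hA W (W ⊓ LinearMap.ker φ) κ hc.mx inf_le_left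
    (cardK W φ w₁ hw₁ hw₁') hnot
  set W' := (W ⊓ LinearMap.ker φ) ⊔ Submodule.span (ZMod 3) {κ} with hW'
  have htri : ∀ (α β : ZMod 3) (x : V), x ∈ A → x - (α • s + β • t) ∈ W' →
      x - (α • s + β • t) ∈ W ⊓ LinearMap.ker φ ∨ x ∈ Lp A W s t y φ c (a + α) (b + β) ∨
        -x ∈ Lp A W s t y φ c (a - α) (b - β) := by
    intro α β x hx hxW
    have hφu : φ (α • s + β • t) = 0 := by
      rw [map_add, map_smul, map_smul, hφs, hφt]; simp
    obtain ⟨e, he⟩ := (hW'2 _).mp hxW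
    rcases zm3 e with rfl | rfl | rfl
    · left
      rwa [zero_smul, sub_zero] at he
    · right; left
      rw [one_smul] at he
      obtain ⟨h1, h2⟩ := he
      refine ⟨hx, ?_, ?_⟩
      · have : x - y - (a + α) • s - (b + β) • t = (x - (α • s + β • t) - κ) + w₀ := by
          rw [hκ, add_smul, add_smul]; abel
        rw [this]
        exact W.add_mem h1 hw₀
      · have h3 : φ (x - (α • s + β • t) - κ) = 0 := h2
        rw [map_sub, map_sub, hφu, hφκ, sub_zero, sub_eq_zero] at h3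
        exact h3
    · right; right
      rw [neg_smul, one_smul, sub_neg_eq_add] at he
      obtain ⟨h1, h2⟩ := he
      refine ⟨hA.2 x hx, ?_, ?_⟩
      · have : -x - y - (a - α) • s - (b - β) • t = -(x - (α • s + β • t) + κ) + w₀ := by
          rw [hκ, sub_smul, sub_smul]; abel
        rw [this]
        exact W.add_mem (W.neg_mem h1) hw₀
      · have h3 : φ (x - (α • s + β • t) + κ) = 0 := h2
        rw [map_add, map_sub, hφu, hφκ, sub_zero] at h3
        rw [map_neg, neg_eq_iff_add_eq_zero]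
        exact h3
  have hs1 : Sgl A W' s := by
    refine ⟨hc.s1.1, fun x hx hxs => ?_⟩
    have hu : (1 : ZMod 3) • s + (0 : ZMod 3) • t = s := by simp
    have h := htri 1 0 x hx (by rwa [hu])
    rw [hu] at h
    rcases h with h | h | h
    · exact hc.s1.2 x hx h.1
    · exact absurd (add_zero b) (hLL _ _ _ h).2.2
    · exact absurd (sub_zero b) (hLL _ _ _ h).2.2
  have ht1 : Sgl A W' t := by
    refine ⟨hc.t1.1, fun x hx hxs => ?_⟩
    have hu : (0 : ZMod 3) • s + (1 : ZMod 3) • t = t := by simp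
    have h := htri 0 1 x hx (by rwa [hu])
    rw [hu] at h
    rcases h with h | h | h
    · exact hc.t1.2 x hx h.1
    · exact absurd (add_zero a) (hLL _ _ _ h).2.1
    · exact absurd (sub_zero a) (hLL _ _ _ h).2.1
  have hmin' := hmin W' ⟨hW'1, hs1, ht1, hc.ns⟩
  -- the count for the new subspace
  have hcount : ∀ α β : ZMod 3, (cs A W' (α • s + β • t)).ncard ≤
      {k | k ∈ W ⊓ LinearMap.ker φ ∧ (α • s + β • t) + k ∈ A}.ncard +
        (Lp A W s t y φ c (a + α) (b + β)).ncard + (Lp A W s t y φ c (a - α) (b - β)).ncard := by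
    intro α β
    have hsub : cs A W' (α • s + β • t) ⊆
        ((fun k => (α • s + β • t) + k) ''
          {k | k ∈ W ⊓ LinearMap.ker φ ∧ (α • s + β • t) + k ∈ A} ∪
        Lp A W s t y φ c (a + α) (b + β)) ∪
        (fun x => -x) '' Lp A W s t y φ c (a - α) (b - β) := by
      rintro x ⟨hx, hxu⟩
      rcases htri α β x hx hxu with h | h | h
      · left; left
        exact ⟨x - (α • s + β • t), ⟨h, by rwa [add_sub_cancel]⟩, by simp⟩
      · left; right
        exact h
      · right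
        exact ⟨-x, h, neg_neg x⟩
    refine (Set.ncard_le_ncard hsub (Set.toFinite _)).trans ?_
    refine (Set.ncard_union_le _ _).trans ?_
    refine Nat.add_le_add ((Set.ncard_union_le _ _).trans (Nat.add_le_add ?_ le_rfl)) ?_
    · exact Set.ncard_image_le (Set.toFinite _)
    · exact Set.ncard_image_le (Set.toFinite _)
  have hm : (1 : ZMod 3) • s + (-1 : ZMod 3) • t = s - t := by
    rw [one_smul, neg_smul, one_smul, ← sub_eq_add_neg]
  have hp : (1 : ZMod 3) • s + (1 : ZMod 3) • t = s + t := by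
    rw [one_smul, one_smul]
  have hc1 := hcount 1 (-1)
  have hc2 := hcount 1 1
  rw [hm] at hc1
  rw [hp] at hc2
  -- the layer
  have hlayer : (Lp A W s t y φ c (a + 1) (b + -1)).ncard +
      (Lp A W s t y φ c (a - 1) (b - -1)).ncard + ((Lp A W s t y φ c (a + 1) (b + 1)).ncard +
      (Lp A W s t y φ c (a - 1) (b - 1)).ncard) ≤ EC A W s t y φ c := by
    rw [← Set.ncard_union_eq (disj hind _ _ _ _ fun h => n1 a h.1) (Set.toFinite _)
      (Set.toFinite _), ← Set.ncard_union_eq (disj hind _ _ _ _ fun h => n1 a h.1)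
      (Set.toFinite _) (Set.toFinite _), ← Set.ncard_union_eq ?_ (Set.toFinite _)
      (Set.toFinite _)]
    · refine Set.ncard_le_ncard ?_ (Set.toFinite _)
      rintro x ((h | h) | (h | h))
      all_goals exact (hLL _ _ _ h).1
    · rw [Set.disjoint_union_left, Set.disjoint_union_right, Set.disjoint_union_right]
      refine ⟨⟨disj hind _ _ _ _ fun h => n2 b h.2, disj hind _ _ _ _ fun h => n1 a h.1⟩,
        disj hind _ _ _ _ fun h => n1 a h.1.symm, disj hind _ _ _ _ fun h => n3 b h.2⟩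
  have hs1 := cs_split A W φ (s - t)
  have hs2 := cs_split A W φ (s + t)
  unfold NN at hmin'
  omega

end Pool.Agent.Lib.MP_b63a06_co.TR
end

section
/-!
# Module PC (MP_b63a06_co, folder TR): combinatorics of the positions
-/
set_option autoImplicit false

namespace Pool.Agent.Lib.MP_b63a06_co.TR

namespace PCM

/-- the four neighbours -/
def nb (p x : ZMod 3 × ZMod 3) : Prop :=
  p + (1, 0) = x ∨ p - (1, 0) = x ∨ p + (0, 1) = x ∨ p - (0, 1) = x

/-- the two antidiagonal points -/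
def ad (p x : ZMod 3 × ZMod 3) : Prop := p + (1, -1) = x ∨ p - (1, -1) = x

instance (p x : ZMod 3 × ZMod 3) : Decidable (nb p x) := by unfold nb; infer_instance

instance (p x : ZMod 3 × ZMod 3) : Decidable (ad p x) := by unfold ad; infer_instance

/-- the rule for three elements at `a`, `b`, `c` -/
def ok (a b c p : ZMod 3 × ZMod 3) : Prop := p = a ∨ p = b ∨ p = c ∨
  (((nb p b ∨ nb p c) ∨ ad p a) ∧ ((nb p a ∨ nb p c) ∨ ad p b) ∧ ((nb p a ∨ nb p b) ∨ ad p c))

instance (a b c p : ZMod 3 × ZMod 3) : Decidable (ok a b c p) := by unfold ok; infer_instance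

theorem fact1 : ∀ q q' : ZMod 3 × ZMod 3, ∃ p : ZMod 3 × ZMod 3, p ≠ q ∧ p ≠ q' ∧ ¬ nb p q ∧
    ¬ ad p q ∧ ¬ (nb p q' ∧ ad p q') := by
  decide +kernel

theorem fact2 : ∀ a b c : ZMod 3 × ZMod 3, (∀ p : ZMod 3 × ZMod 3, ok a b c p) →
    a.1 ≠ b.1 ∧ a.2 ≠ b.2 := by
  decide +kernel

theorem sum_eq {L : Type} [Fintype L] (D : L → Set (ZMod 3 × ZMod 3)) :
    ∑ w, (D w).ncard = ∑ p : ZMod 3 × ZMod 3, {w | p ∈ D w}.ncard := by
  classical
  have h1 : ∀ w, (D w).ncard = ∑ p : ZMod 3 × ZMod 3, if p ∈ D w then 1 else 0 := by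
    intro w
    rw [← Finset.card_filter, ← Set.ncard_coe_finset]
    congr 1
    ext p
    simp
  have h2 : ∀ p, {w | p ∈ D w}.ncard = ∑ w, if p ∈ D w then 1 else 0 := by
    intro p
    rw [← Finset.card_filter, ← Set.ncard_coe_finset]
    congr 1
    ext w
    simp
  rw [Finset.sum_congr rfl fun w _ => h1 w, Finset.sum_congr rfl fun p _ => h2 p,
    Finset.sum_comm]

/-- if there is at most one element outside of `q` -/
theorem one {L : Type} [Fintype L] (D : L → Set (ZMod 3 × ZMod 3)) (w₀ : L)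
    (q : ZMod 3 × ZMod 3) (h : ∑ w, (D w).ncard < {w | q ∈ D w}.ncard + 2) :
    ∃ (w' : L) (q' : ZMod 3 × ZMod 3), ∀ w, ∀ p ∈ D w, p = q ∨ (w = w' ∧ p = q') := by
  classical
  rw [sum_eq, ← Finset.add_sum_erase _ _ (Finset.mem_univ q)] at h
  have h1 : ∑ p ∈ (Finset.univ : Finset (ZMod 3 × ZMod 3)).erase q, {w | p ∈ D w}.ncard ≤ 1 := by
    omega
  by_cases h2 : ∃ w, ∃ p ∈ D w, p ≠ q
  · obtain ⟨w', q', hq', hne⟩ := h2
    refine ⟨w', q', fun w p hp => ?_⟩
    by_contra hc
    push Not at hc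
    obtain ⟨hpq, hc⟩ := hc
    by_cases hpq' : p = q'
    · subst hpq'
      have hww : w ≠ w' := fun e => hc e rfl
      have h3 : 2 ≤ {w | p ∈ D w}.ncard := by
        have h4 : ({w, w'} : Set L) ⊆ {w | p ∈ D w} := by
          intro x hx
          rcases hx with rfl | hx
          · exact hp
          · rw [Set.mem_singleton_iff.1 hx]
            exact hq'
        have h5 := Set.ncard_le_ncard h4 (Set.toFinite _)
        rwa [Set.ncard_pair hww] at h5
      have h6 := Finset.single_le_sum (f := fun p => {w | p ∈ D w}.ncard)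
        (fun _ _ => Nat.zero_le _) (Finset.mem_erase.2 ⟨hpq, Finset.mem_univ p⟩)
      have h7 : {w | p ∈ D w}.ncard ≤ 1 := h6.trans h1
      omega
    · have a1 : 0 < {w | p ∈ D w}.ncard := (Set.ncard_pos (Set.toFinite _)).2 ⟨w, hp⟩
      have a2 : 0 < {w | q' ∈ D w}.ncard := (Set.ncard_pos (Set.toFinite _)).2 ⟨w', hq'⟩
      have h6 : ∑ x ∈ ({p, q'} : Finset (ZMod 3 × ZMod 3)), {w | x ∈ D w}.ncard ≤
          ∑ p ∈ (Finset.univ : Finset (ZMod 3 × ZMod 3)).erase q, {w | p ∈ D w}.ncard := by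
        refine Finset.sum_le_sum_of_subset ?_
        intro x hx
        rw [Finset.mem_insert, Finset.mem_singleton] at hx
        rcases hx with rfl | rfl
        · exact Finset.mem_erase.2 ⟨hpq, Finset.mem_univ _⟩
        · exact Finset.mem_erase.2 ⟨hne, Finset.mem_univ _⟩
      rw [Finset.sum_pair hpq'] at h6
      omega
  · push Not at h2
    exact ⟨w₀, q, fun w p hp => Or.inl (h2 w p hp)⟩

theorem bound {L : Type} [Fintype L] (D : L → Set (ZMod 3 × ZMod 3)) (hL : 3 ≤ Fintype.card L)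
    (hR : RuleD D) (q : ZMod 3 × ZMod 3) :
    {w | q ∈ D w}.ncard + 2 ≤ ∑ w, (D w).ncard := by
  classical
  by_contra hlt
  obtain ⟨w₀⟩ : Nonempty L := Fintype.card_pos_iff.1 (by omega)
  obtain ⟨w', q', h⟩ := one D w₀ q (by omega)
  obtain ⟨p, h1, h2, h3, h4, h5⟩ := fact1 q q'
  have hp : ∀ w, p ∉ D w := by
    intro w hw
    rcases h w p hw with e | ⟨_, e⟩
    · exact h1 e
    · exact h2 e
  obtain ⟨w, hw⟩ : ∃ w, w ≠ w' := Fintype.exists_ne_of_one_lt_card (by omega) w'
  apply h5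
  constructor
  · rcases hR p hp w with ⟨v, hv, hh⟩ | hh
    · rcases hh with hh | hh | hh | hh
      · rcases h v _ hh with e | ⟨_, e⟩
        · exact absurd (Or.inl e) h3
        · exact Or.inl e
      · rcases h v _ hh with e | ⟨_, e⟩
        · exact absurd (Or.inr (Or.inl e)) h3
        · exact Or.inr (Or.inl e)
      · rcases h v _ hh with e | ⟨_, e⟩
        · exact absurd (Or.inr (Or.inr (Or.inl e))) h3
        · exact Or.inr (Or.inr (Or.inl e))
      · rcases h v _ hh with e | ⟨_, e⟩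
        · exact absurd (Or.inr (Or.inr (Or.inr e))) h3
        · exact Or.inr (Or.inr (Or.inr e))
    · exfalso
      rcases hh with hh | hh
      · rcases h w _ hh with e | ⟨e, _⟩
        · exact h4 (Or.inl e)
        · exact hw e
      · rcases h w _ hh with e | ⟨e, _⟩
        · exact h4 (Or.inr e)
        · exact hw e
  · rcases hR p hp w' with ⟨v, hv, hh⟩ | hh
    · exfalso
      rcases hh with hh | hh | hh | hh
      · rcases h v _ hh with e | ⟨e, _⟩
        · exact h3 (Or.inl e)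
        · exact hv e
      · rcases h v _ hh with e | ⟨e, _⟩
        · exact h3 (Or.inr (Or.inl e))
        · exact hv e
      · rcases h v _ hh with e | ⟨e, _⟩
        · exact h3 (Or.inr (Or.inr (Or.inl e)))
        · exact hv e
      · rcases h v _ hh with e | ⟨e, _⟩
        · exact h3 (Or.inr (Or.inr (Or.inr e)))
        · exact hv e
    · rcases hh with hh | hh
      · rcases h w' _ hh with e | ⟨_, e⟩
        · exact absurd (Or.inl e) h4
        · exact Or.inl e
      · rcases h w' _ hh with e | ⟨_, e⟩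
        · exact absurd (Or.inr e) h4
        · exact Or.inr e

end PCM

/-- **PC**: combinatorics of the positions. -/
theorem specPC : SpecPC := by
  intro L _ D hL hR
  classical
  refine ⟨?_, fun q _ => PCM.bound D hL hR q, ?_⟩
  · by_cases h : ∃ q w, q ∈ D w
    · obtain ⟨q, w, hw⟩ := h
      have h1 := PCM.bound D hL hR q
      have h2 : 0 < {w | q ∈ D w}.ncard := (Set.ncard_pos (Set.toFinite _)).2 ⟨w, hw⟩
      omega
    · push Not at h
      exfalso
      obtain ⟨w⟩ : Nonempty L := Fintype.card_pos_iff.1 (by omega)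
      rcases hR 0 (fun w => h 0 w) w with ⟨w', _, h1 | h1 | h1 | h1⟩ | h1 | h1
      all_goals exact h _ _ h1
  · intro h3 hone w w' hww p hp p' hp'
    have hs : ∀ v, ∃ d, D v = {d} := fun v => Set.ncard_eq_one.1 (hone v)
    choose d hd using hs
    have e1 : p = d w := by rw [hd] at hp; exact hp
    have e2 : p' = d w' := by rw [hd] at hp'; exact hp'
    subst e1 e2
    -- the third element
    obtain ⟨v, hv⟩ : ∃ v, v ∉ ({w, w'} : Finset L) := by
      by_contra hc
      push Not at hc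
      have h4 : (Finset.univ : Finset L).card ≤ ({w, w'} : Finset L).card :=
        Finset.card_le_card fun x _ => hc x
      rw [Finset.card_univ, h3, Finset.card_pair hww] at h4
      omega
    rw [Finset.mem_insert, Finset.mem_singleton, not_or] at hv
    have hall : ∀ x : L, x = w ∨ x = w' ∨ x = v := by
      intro x
      by_contra hc
      push Not at hc
      have h4 : ({x, w, w', v} : Finset L).card ≤ Fintype.card L := Finset.card_le_univ _
      rw [Finset.card_insert_of_notMem (by simp [hc.1, hc.2.1, hc.2.2]),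
        Finset.card_insert_of_notMem (by simp [hww, Ne.symm hv.1]),
        Finset.card_pair (Ne.symm hv.2), h3] at h4
      omega
    refine PCM.fact2 (d w) (d w') (d v) fun p => ?_
    by_cases hp1 : p = d w
    · exact Or.inl hp1
    by_cases hp2 : p = d w'
    · exact Or.inr (Or.inl hp2)
    by_cases hp3 : p = d v
    · exact Or.inr (Or.inr (Or.inl hp3))
    have hp : ∀ x, p ∉ D x := by
      intro x
      rw [hd]
      rcases hall x with rfl | rfl | rfl
      · exact hp1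
      · exact hp2
      · exact hp3
    have hn : ∀ x, (p + (1, 0) ∈ D x ∨ p - (1, 0) ∈ D x ∨ p + (0, 1) ∈ D x ∨ p - (0, 1) ∈ D x) ↔
        PCM.nb p (d x) := by
      intro x
      rw [hd]
      exact Iff.rfl
    have ha : ∀ x, (p + (1, -1) ∈ D x ∨ p - (1, -1) ∈ D x) ↔ PCM.ad p (d x) := by
      intro x
      rw [hd]
      exact Iff.rfl
    have key : ∀ x, (∃ y, y ≠ x ∧ PCM.nb p (d y)) ∨ PCM.ad p (d x) := by
      intro x
      rcases hR p hp x with ⟨y, hy, hh⟩ | hh
      · exact Or.inl ⟨y, hy, (hn y).1 hh⟩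
      · exact Or.inr ((ha x).1 hh)
    refine Or.inr (Or.inr (Or.inr ⟨?_, ?_, ?_⟩))
    · rcases key w with ⟨y, hy, hh⟩ | hh
      · rcases hall y with rfl | rfl | rfl
        · exact absurd rfl hy
        · exact Or.inl (Or.inl hh)
        · exact Or.inl (Or.inr hh)
      · exact Or.inr hh
    · rcases key w' with ⟨y, hy, hh⟩ | hh
      · rcases hall y with rfl | rfl | rfl
        · exact Or.inl (Or.inl hh)
        · exact absurd rfl hy
        · exact Or.inl (Or.inr hh)
      · exact Or.inr hh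
    · rcases key v with ⟨y, hy, hh⟩ | hh
      · rcases hall y with rfl | rfl | rfl
        · exact Or.inl (Or.inl hh)
        · exact Or.inl (Or.inr hh)
        · exact absurd rfl hy
      · exact Or.inr hh

end Pool.Agent.Lib.MP_b63a06_co.TR
end
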