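import Pool.Agent.Lib.MP_b63a06_co.TR.SpecA

set_option autoImplicit false

/-!
# MP_b63a06_co, TR, module PF (helper44): two half systems in the plane
-/

namespace Pool.Agent.Lib.MP_b63a06_co.TR.PFM

/-- the lower bound for `f c` from the memberships of the three points of the line of `c`. -/
def lb (p1 p2 p3 q1 q2 q3 : Bool) : ℕ :=
  if (!p1 && !p2 && !p3) && (!q1 && !q2 && !q3) then 3
  else if (!p1 && !p2 && !p3) || (!q1 && !q2 && !q3) then 2
  else if (p1 || q1) && (p2 || q2) && (p3 || q3) &&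
    ((p1 && p2) || (p1 && p3) || (p2 && p3)) && ((q1 && q2) || (q1 && q3) || (q2 && q3)) then 0
  else 1

theorem table : ∀ x0 x1 x2 x3 y0 y1 y2 y3 : Bool,
    7 ≤ lb x0 x2 x3 y0 y2 y3 + lb (!x0) (!x3) (!x2) (!y0) (!y3) (!y2) +
      lb x1 x2 (!x3) y1 y2 (!y3) + lb (!x1) x3 (!x2) (!y1) y3 (!y2) +
      lb x0 x1 (!x2) y0 y1 (!y2) + lb (!x0) (!x1) x2 (!y0) (!y1) y2 +
      lb x0 (!x1) (!x3) y0 (!y1) (!y3) + lb (!x0) x1 x3 (!y0) y1 y3 := by
  decide

theorem two_of {P : Type} [DecidableEq P] (X : Finset P) (R : P → Prop) [DecidablePred R]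
    (u v w : P) (hL : ∀ z, R z ↔ z = u ∨ z = v ∨ z = w)
    (h : 2 ≤ (X.filter R).card) :
    ((decide (u ∈ X) && decide (v ∈ X)) || (decide (u ∈ X) && decide (w ∈ X)) ||
      (decide (v ∈ X) && decide (w ∈ X))) = true := by
  by_contra hn
  have hc : (X.filter R).card ≤ 1 := by
    rw [Finset.card_le_one]
    intro a ha b hb
    rw [Finset.mem_filter, hL] at ha hb
    simp only [Bool.or_eq_true, Bool.and_eq_true, decide_eq_true_eq, not_or, not_and] at hn
    obtain ⟨⟨h1, h2⟩, h3⟩ := hn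
    obtain ⟨haX, ha⟩ := ha
    obtain ⟨hbX, hb⟩ := hb
    rcases ha with rfl | rfl | rfl <;> rcases hb with rfl | rfl | rfl
    · rfl
    · exact absurd hbX (h1 haX)
    · exact absurd hbX (h2 haX)
    · exact absurd haX (h1 hbX)
    · rfl
    · exact absurd hbX (h3 haX)
    · exact absurd haX (h2 hbX)
    · exact absurd haX (h3 hbX)
    · rfl
  omega

theorem line {P : Type} [DecidableEq P] (X Y : Finset P) (n : ℕ) (R : P → Prop)
    [DecidablePred R] (u v w : P) (hL : ∀ z, R z ↔ z = u ∨ z = v ∨ z = w)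
    (h1 : (∀ z, R z → z ∉ X ∧ z ∉ Y) → 3 ≤ n)
    (h2 : (∀ z, R z → z ∉ X) ∨ (∀ z, R z → z ∉ Y) → 2 ≤ n)
    (h3 : n = 0 → (∀ z, R z → z ∈ X ∨ z ∈ Y) ∧ 2 ≤ (X.filter R).card ∧
      2 ≤ (Y.filter R).card) :
    lb (decide (u ∈ X)) (decide (v ∈ X)) (decide (w ∈ X)) (decide (u ∈ Y)) (decide (v ∈ Y))
      (decide (w ∈ Y)) ≤ n := by
  unfold lb
  split_ifs with c1 c2 c3
  · apply h1
    intro z hz
    simp only [Bool.and_eq_true, Bool.not_eq_true', decide_eq_false_iff_not] at c1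
    obtain ⟨⟨⟨a1, a2⟩, a3⟩, ⟨b1, b2⟩, b3⟩ := c1
    rcases (hL z).1 hz with rfl | rfl | rfl
    · exact ⟨a1, b1⟩
    · exact ⟨a2, b2⟩
    · exact ⟨a3, b3⟩
  · apply h2
    simp only [Bool.or_eq_true, Bool.and_eq_true, Bool.not_eq_true',
      decide_eq_false_iff_not] at c2
    rcases c2 with ⟨⟨a1, a2⟩, a3⟩ | ⟨⟨a1, a2⟩, a3⟩
    · left
      intro z hz
      rcases (hL z).1 hz with rfl | rfl | rfl
      · exact a1
      · exact a2
      · exact a3
    · right
      intro z hz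
      rcases (hL z).1 hz with rfl | rfl | rfl
      · exact a1
      · exact a2
      · exact a3
  · exact Nat.zero_le _
  · by_contra hn
    have h0 : n = 0 := by omega
    obtain ⟨g1, g2, g3⟩ := h3 h0
    apply c3
    have e1 := two_of X R u v w hL g2
    have e2 := two_of Y R u v w hL g3
    rw [e1, e2]
    have i1 := g1 u ((hL u).2 (Or.inl rfl))
    have i2 := g1 v ((hL v).2 (Or.inr (Or.inl rfl)))
    have i3 := g1 w ((hL w).2 (Or.inr (Or.inr rfl)))
    simp only [Bool.and_true, Bool.and_eq_true, Bool.or_eq_true, decide_eq_true_eq]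
    exact ⟨⟨i1, i2⟩, i3⟩

theorem neg_dec (X : Finset (ZMod 3 × ZMod 3)) (w w' : ZMod 3 × ZMod 3) (hw : -w = w')
    (h : w ∈ X ↔ -w ∉ X) : decide (w' ∈ X) = !decide (w ∈ X) := by
  subst hw
  by_cases h' : w ∈ X
  · have := h.1 h'
    simp [h', this]
  · have : -w ∈ X := by
      by_contra hc
      exact h' (h.2 hc)
    simp [h', this]

theorem univ_eq : (Finset.univ.erase (0 : ZMod 3 × ZMod 3)) =
    {(1, 0), (2, 0), (0, 1), (0, 2), (1, 1), (2, 2), (1, 2), (2, 1)} := by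
  decide

end PFM

open PFM in
theorem specPF : SpecPF := by
  intro X Y f hXY _ _ hf
  have L : ∀ c : ZMod 3 × ZMod 3, c ≠ 0 → ∀ u v w : ZMod 3 × ZMod 3,
      (∀ z : ZMod 3 × ZMod 3, c.1 * z.1 + c.2 * z.2 = 1 ↔ z = u ∨ z = v ∨ z = w) →
      lb (decide (u ∈ X)) (decide (v ∈ X)) (decide (w ∈ X)) (decide (u ∈ Y)) (decide (v ∈ Y))
        (decide (w ∈ Y)) ≤ f c := by
    intro c hc u v w hL
    exact line X Y (f c) (fun z => c.1 * z.1 + c.2 * z.2 = 1) u v w hL (hf c hc).1 (hf c hc).2.1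
      (hf c hc).2.2
  have c1 := L (1, 0) (by decide) (1, 0) (1, 1) (1, 2) (by decide)
  have c2 := L (2, 0) (by decide) (2, 0) (2, 1) (2, 2) (by decide)
  have c3 := L (0, 1) (by decide) (0, 1) (1, 1) (2, 1) (by decide)
  have c4 := L (0, 2) (by decide) (0, 2) (1, 2) (2, 2) (by decide)
  have c5 := L (1, 1) (by decide) (1, 0) (0, 1) (2, 2) (by decide)
  have c6 := L (2, 2) (by decide) (2, 0) (0, 2) (1, 1) (by decide)
  have c7 := L (1, 2) (by decide) (1, 0) (0, 2) (2, 1) (by decide)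
  have c8 := L (2, 1) (by decide) (2, 0) (0, 1) (1, 2) (by decide)
  have x0 := neg_dec X (1, 0) (2, 0) (by decide) (hXY (1, 0) (by decide)).1
  have x1 := neg_dec X (0, 1) (0, 2) (by decide) (hXY (0, 1) (by decide)).1
  have x2 := neg_dec X (1, 1) (2, 2) (by decide) (hXY (1, 1) (by decide)).1
  have x3 := neg_dec X (1, 2) (2, 1) (by decide) (hXY (1, 2) (by decide)).1
  have y0 := neg_dec Y (1, 0) (2, 0) (by decide) (hXY (1, 0) (by decide)).2
  have y1 := neg_dec Y (0, 1) (0, 2) (by decide) (hXY (0, 1) (by decide)).2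
  have y2 := neg_dec Y (1, 1) (2, 2) (by decide) (hXY (1, 1) (by decide)).2
  have y3 := neg_dec Y (1, 2) (2, 1) (by decide) (hXY (1, 2) (by decide)).2
  simp only [x0, x1, x2, x3, y0, y1, y2, y3] at c1 c2 c3 c4 c5 c6 c7 c8
  have T := table (decide ((1, 0) ∈ X)) (decide ((0, 1) ∈ X)) (decide ((1, 1) ∈ X))
    (decide ((1, 2) ∈ X)) (decide ((1, 0) ∈ Y)) (decide ((0, 1) ∈ Y)) (decide ((1, 1) ∈ Y))
    (decide ((1, 2) ∈ Y))
  have S : ∑ c ∈ Finset.univ.erase (0 : ZMod 3 × ZMod 3), f c =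
      f (1, 0) + f (2, 0) + f (0, 1) + f (0, 2) + f (1, 1) + f (2, 2) + f (1, 2) + f (2, 1) := by
    rw [univ_eq]
    rw [Finset.sum_insert (by decide), Finset.sum_insert (by decide),
      Finset.sum_insert (by decide), Finset.sum_insert (by decide),
      Finset.sum_insert (by decide), Finset.sum_insert (by decide),
      Finset.sum_insert (by decide), Finset.sum_singleton]
    ring
  rw [S]
  omega

end Pool.Agent.Lib.MP_b63a06_co.TR
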