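import Pool.Agent.Lib.MP_b63a06_co.TR.SpecC

section
set_option autoImplicit false

/-!
# SIF: the finite classification for a frame

Vectors of `ZMod 3 ^ 3` are numbered `0, …, 26`, sets are bit masks. The search keeps a mask `Y` of
chosen elements, a mask `X` such that the elements of the set in `X` are in `Y`, and `n = |Y|`.
-/

namespace Pool.Agent.Lib.MP_b63a06_co.TR

namespace SIFM

/-! ### The search -/

/-- the cosets of the seven lines. -/
def dirs : List (List ℕ) := [
  [98, 140, 273, 50176, 71680, 139776, 25690112, 36700160, 71565312],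
  [264194, 524804, 1049601, 2113552, 4198432, 8396808, 16908416, 33587456, 67174464],
  [294920, 589840, 1179680, 2097728, 4195456, 8390912, 16781313, 33562626, 67125252],
  [393232, 557088, 1114120, 2099328, 4195072, 8389696, 16793602, 33558532, 67117057],
  [327712, 655368, 1081360, 2098432, 4196416, 8389248, 16785412, 33570817, 67112962],
  [278656, 528640, 1056832, 2228226, 4227076, 8454145, 16779280, 33554976, 67109896],
  [270592, 540736, 1052800, 2162692, 4325377, 8421378, 16778272, 33556488, 67109392]]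

/-- all cosets, with a point and a direction. -/
def gens : List (ℕ × ℕ × ℕ) := [(98, 1, 4), (140, 2, 4), (273, 0, 4), (50176, 10, 4),
  (71680, 11, 4), (139776, 9, 4), (25690112, 19, 4), (36700160, 20, 4), (71565312, 18, 4),
  (264194, 1, 10), (524804, 2, 10), (1049601, 0, 10), (2113552, 4, 10), (4198432, 5, 10),
  (8396808, 3, 10), (16908416, 7, 10), (33587456, 8, 10), (67174464, 6, 10), (294920, 3, 12),
  (589840, 4, 12), (1179680, 5, 12), (2097728, 6, 12), (4195456, 7, 12), (8390912, 8, 12),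
  (16781313, 0, 12), (33562626, 1, 12), (67125252, 2, 12), (393232, 4, 13), (557088, 5, 13),
  (1114120, 3, 13), (2099328, 7, 13), (4195072, 8, 13), (8389696, 6, 13), (16793602, 1, 13),
  (33558532, 2, 13), (67117057, 0, 13), (327712, 5, 14), (655368, 3, 14), (1081360, 4, 14),
  (2098432, 8, 14), (4196416, 6, 14), (8389248, 7, 14), (16785412, 2, 14), (33570817, 0, 14),
  (67112962, 1, 14), (278656, 7, 16), (528640, 8, 16), (1056832, 6, 16), (2228226, 1, 16),
  (4227076, 2, 16), (8454145, 0, 16), (16779280, 4, 16), (33554976, 5, 16), (67109896, 3, 16),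
  (270592, 8, 17), (540736, 6, 17), (1052800, 7, 17), (2162692, 2, 17), (4325377, 0, 17),
  (8421378, 1, 17), (16778272, 5, 17), (33556488, 3, 17), (67109392, 4, 17)]

/-- the translates of `EE`, the translate by `p` at the place `p`. -/
def trans : List ℕ := [2919151, 5834655, 9833847, 23090043, 46150910, 77621693, 50762205,
  101294579, 85148142, 18210315, 34553366, 68873765, 10942040, 6945968, 13859624, 86227649,
  54781826, 109305156, 62658117, 108801155, 98323206, 99397673, 66674714, 116805684, 125141832,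
  131007696, 129665440]

/-- number of the cosets of the list which are not met. -/
def un (Y : ℕ) : List ℕ → ℕ
  | [] => 0
  | m :: ms => cond (Nat.beq (Nat.land m Y) 0) (un Y ms + 1) (un Y ms)

/-- union of `X` and the cosets of the list which are met. -/
def met (Y : ℕ) : List ℕ → ℕ → ℕ
  | [], X => X
  | m :: ms, X => cond (Nat.beq (Nat.land m Y) 0) (met Y ms X) (met Y ms (Nat.lor m X))

/-- propagation; `0` = contradiction, otherwise `X + 1`. -/
def prp (Y n : ℕ) : List (List ℕ) → ℕ → ℕ
  | [], X => X + 1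
  | l :: ls, X => cond (Nat.ble (n + un Y l) 12) (prp Y n ls X)
      (cond (Nat.ble (n + un Y l) 13) (prp Y n ls (met Y l X)) 0)

/-- a coset which is not met, with few undecided elements (nothing is proved about it). -/
def pick (Y X : ℕ) : List ℕ → ℕ → ℕ → ℕ
  | [], b2, b3 => cond (Nat.beq b2 0) b3 b2
  | m :: ms, b2, b3 => cond (Nat.beq (Nat.land m Y) 0)
      (cond (Nat.beq (Nat.land (Nat.xor (Nat.lor m X) X) (Nat.xor (Nat.lor m X) X - 1)) 0)
        (Nat.xor (Nat.lor m X) X)
        (cond (Nat.beq b2 0)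
          (cond (Nat.beq (Nat.land (Nat.land (Nat.xor (Nat.lor m X) X)
              (Nat.xor (Nat.lor m X) X - 1))
              (Nat.land (Nat.xor (Nat.lor m X) X) (Nat.xor (Nat.lor m X) X - 1) - 1)) 0)
            (pick Y X ms (Nat.xor (Nat.lor m X) X) b3)
            (pick Y X ms b2 (cond (Nat.beq b3 0) (Nat.xor (Nat.lor m X) X) b3)))
          (pick Y X ms b2 b3)))
      (pick Y X ms b2 b3)

/-- some coset of the list is excluded. -/
def dead (Y X : ℕ) : List ℕ → Bool
  | [] => false
  | m :: ms => (Nat.beq (Nat.land m Y) 0 && Nat.beq (Nat.lor m X) X) || dead Y X ms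

/-- all cosets. -/
def mks : List ℕ := dirs.flatten

/-- a solution. -/
def fin (Y n : ℕ) : Bool := Nat.beq n 13 && trans.any (fun t => Nat.beq t Y)

/-- the search. -/
def srch : ℕ → ℕ → ℕ → ℕ → Bool
  | 0, _, _, _ => false
  | f + 1, Y, X, n =>
    Nat.rec (motive := fun _ => Bool) true (fun X' _ =>
      Nat.rec (motive := fun _ => Bool) (dead Y X' mks || fin Y n) (fun u _ =>
        Nat.beq (Nat.land Y (2 ^ Nat.log2 (u + 1))) 0 &&
        (srch f (Nat.lor Y (2 ^ Nat.log2 (u + 1))) X' (n + 1) &&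
        srch f Y (Nat.lor X' (2 ^ Nat.log2 (u + 1))) n))
        (pick Y X' mks 0 0)) (prp Y n dirs X)

set_option maxRecDepth 100000 in
theorem srch1 : srch 30 1 0 1 = true := by decide +kernel

/-! ### Soundness -/

theorem land_tb {a b i : ℕ} (h : Nat.land a b = 0) (ha : a.testBit i = true)
    (hb : b.testBit i = true) : False := by
  have h1 : (a &&& b).testBit i = true := by rw [Nat.testBit_and, ha, hb]; rfl
  have h2 : a &&& b = 0 := h
  rw [h2] at h1
  simp at h1

theorem lor_tb (a b i : ℕ) : (Nat.lor a b).testBit i = (a.testBit i || b.testBit i) :=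
  Nat.testBit_or a b i

theorem land_ne {a b : ℕ} (h : Nat.land a b ≠ 0) : ∃ i, a.testBit i = true ∧ b.testBit i = true := by
  by_contra hc
  apply h
  have : a &&& b = 0 := by
    apply Nat.eq_of_testBit_eq
    intro i
    rw [Nat.testBit_and]
    by_contra hh
    apply hc
    refine ⟨i, ?_, ?_⟩
    · by_contra h1
      rw [Bool.not_eq_true] at h1
      apply hh
      rw [h1]
      simp
    · by_contra h1
      rw [Bool.not_eq_true] at h1
      apply hh
      rw [h1]
      simp
  exact this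

/-- disjointness of masks. -/
def Dj (a b : ℕ) : Prop := Nat.land a b = 0

instance : Std.Symm Dj := ⟨fun a b h => by
  have : b &&& a = 0 := by rw [Nat.and_comm]; exact h
  exact this⟩

instance (a b : ℕ) : Decidable (Dj a b) := by unfold Dj; infer_instance

theorem dirs_pw : ∀ l ∈ dirs, l.Pairwise Dj := by decide +kernel

/-- the invariant. -/
structure Inv (S : Finset ℕ) (Y X n : ℕ) : Prop where
  yy : ∀ i, Y.testBit i = true → i ∈ S
  xx : ∀ i ∈ S, X.testBit i = true → Y.testBit i = true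
  nn : (S.filter (fun i => Y.testBit i = true)).card = n

theorem un_le (S : Finset ℕ) (Y : ℕ) : ∀ l : List ℕ, l.Pairwise Dj →
    (∀ m ∈ l, ∃ i ∈ S, m.testBit i = true) →
    un Y l ≤ (S.filter (fun i => ∃ m ∈ l, Nat.land m Y = 0 ∧ m.testBit i = true)).card := by
  intro l
  induction l with
  | nil => intro _ _; simp [un]
  | cons m ms ih =>
    intro hp hh
    rw [List.pairwise_cons] at hp
    have ih' := ih hp.2 (fun m' hm' => hh m' (List.mem_cons_of_mem _ hm'))
    by_cases h0 : Nat.land m Y = 0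
    · have e : un Y (m :: ms) = un Y ms + 1 := by
        simp only [un]
        rw [h0]
        rfl
      rw [e]
      obtain ⟨i, hi, hmi⟩ := hh m List.mem_cons_self
      have hni : i ∉ S.filter (fun i => ∃ m ∈ ms, Nat.land m Y = 0 ∧ m.testBit i = true) := by
        intro hc
        rw [Finset.mem_filter] at hc
        obtain ⟨_, m', hm', _, hb⟩ := hc
        exact land_tb (hp.1 m' hm') hmi hb
      have hc := Finset.card_insert_of_notMem hni
      refine le_trans (Nat.succ_le_succ ih') ?_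
      rw [Nat.succ_eq_add_one, ← hc]
      apply Finset.card_le_card
      intro j hj
      rw [Finset.mem_insert] at hj
      rw [Finset.mem_filter]
      rcases hj with rfl | hj
      · exact ⟨hi, m, List.mem_cons_self, h0, hmi⟩
      · rw [Finset.mem_filter] at hj
        obtain ⟨hj1, m', hm', h1, h2⟩ := hj
        exact ⟨hj1, m', List.mem_cons_of_mem _ hm', h1, h2⟩
    · have e : un Y (m :: ms) = un Y ms := by
        simp only [un]
        have : Nat.beq (Nat.land m Y) 0 = false := by
          rw [Bool.eq_false_iff]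
          intro hb
          exact h0 (Nat.eq_of_beq_eq_true hb)
        rw [this]
        rfl
      rw [e]
      refine le_trans ih' (Finset.card_le_card ?_)
      intro j hj
      rw [Finset.mem_filter] at hj ⊢
      obtain ⟨hj1, m', hm', h1, h2⟩ := hj
      exact ⟨hj1, m', List.mem_cons_of_mem _ hm', h1, h2⟩

theorem met_tb (Y : ℕ) : ∀ (l : List ℕ) (X i : ℕ), (met Y l X).testBit i = true →
    X.testBit i = true ∨ ∃ m ∈ l, Nat.land m Y ≠ 0 ∧ m.testBit i = true := by
  intro l
  induction l with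
  | nil => intro X i h; exact Or.inl h
  | cons m ms ih =>
    intro X i h
    by_cases h0 : Nat.land m Y = 0
    · have e : met Y (m :: ms) X = met Y ms X := by
        simp only [met]
        rw [h0]
        rfl
      rw [e] at h
      rcases ih X i h with h | ⟨m', hm', h1, h2⟩
      · exact Or.inl h
      · exact Or.inr ⟨m', List.mem_cons_of_mem _ hm', h1, h2⟩
    · have e : met Y (m :: ms) X = met Y ms (Nat.lor m X) := by
        simp only [met]
        have : Nat.beq (Nat.land m Y) 0 = false := by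
          rw [Bool.eq_false_iff]
          intro hb
          exact h0 (Nat.eq_of_beq_eq_true hb)
        rw [this]
        rfl
      rw [e] at h
      rcases ih _ i h with h | ⟨m', hm', h1, h2⟩
      · rw [lor_tb, Bool.or_eq_true] at h
        rcases h with h | h
        · exact Or.inr ⟨m, List.mem_cons_self, h0, h⟩
        · exact Or.inl h
      · exact Or.inr ⟨m', List.mem_cons_of_mem _ hm', h1, h2⟩

/-- the basic count, with a set `T` of further elements. -/
theorem count {S : Finset ℕ} {Y X n : ℕ} (hI : Inv S Y X n) {l : List ℕ} (hp : l.Pairwise Dj)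
    (hh : ∀ m ∈ l, ∃ i ∈ S, m.testBit i = true) (T : Finset ℕ) (hT : T ⊆ S)
    (h1 : ∀ i ∈ T, Y.testBit i = false)
    (h2 : ∀ i ∈ T, ∀ m ∈ l, Nat.land m Y = 0 → m.testBit i = false) :
    n + un Y l + T.card ≤ S.card := by
  have hu := un_le S Y l hp hh
  have hn := hI.nn
  set A := S.filter (fun i => Y.testBit i = true) with hA
  set B := S.filter (fun i => ∃ m ∈ l, Nat.land m Y = 0 ∧ m.testBit i = true) with hB
  have d1 : Disjoint A B := by
    rw [Finset.disjoint_left]
    intro i hi hj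
    rw [hA, Finset.mem_filter] at hi
    rw [hB, Finset.mem_filter] at hj
    obtain ⟨_, m, _, h0, hb⟩ := hj
    exact land_tb h0 hb hi.2
  have d2 : Disjoint (A ∪ B) T := by
    rw [Finset.disjoint_left]
    intro i hi hj
    rw [Finset.mem_union] at hi
    rcases hi with hi | hi
    · rw [hA, Finset.mem_filter] at hi
      rw [h1 i hj] at hi
      exact absurd hi.2 (by simp)
    · rw [hB, Finset.mem_filter] at hi
      obtain ⟨_, m, hm, h0, hb⟩ := hi
      rw [h2 i hj m hm h0] at hb
      exact absurd hb (by simp)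
  have hs : (A ∪ B) ∪ T ⊆ S := by
    intro i hi
    rw [Finset.mem_union, Finset.mem_union] at hi
    rcases hi with (hi | hi) | hi
    · exact (Finset.mem_filter.1 hi).1
    · exact (Finset.mem_filter.1 hi).1
    · exact hT hi
  have hc := Finset.card_le_card hs
  rw [Finset.card_union_of_disjoint d2, Finset.card_union_of_disjoint d1] at hc
  omega

theorem met_inv {S : Finset ℕ} (hS : S.card ≤ 13) {Y X n : ℕ} (hI : Inv S Y X n) {l : List ℕ}
    (hp : l.Pairwise Dj) (hh : ∀ m ∈ l, ∃ i ∈ S, m.testBit i = true) (h13 : 13 ≤ n + un Y l) :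
    Inv S Y (met Y l X) n := by
  refine ⟨hI.yy, ?_, hI.nn⟩
  intro i hi hb
  rcases met_tb Y l X i hb with hb | ⟨m, hm, h0, hb⟩
  · exact hI.xx i hi hb
  by_contra hy
  rw [Bool.not_eq_true] at hy
  have hc := count hI hp hh {i} (by simpa using hi) (by simpa using hy) (by
    intro j hj m' hm' h0'
    rw [Finset.mem_singleton] at hj
    subst hj
    by_contra hb'
    rw [Bool.not_eq_false] at hb'
    have hne : m ≠ m' := by
      rintro rfl
      exact h0 h0'
    exact land_tb (List.Pairwise.forall hp hm hm' hne) hb hb')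
  rw [Finset.card_singleton] at hc
  omega

theorem prp_sound {S : Finset ℕ} (hS : S.card ≤ 13) {Y n : ℕ} :
    ∀ (ls : List (List ℕ)), (∀ l ∈ ls, l.Pairwise Dj) →
    (∀ l ∈ ls, ∀ m ∈ l, ∃ i ∈ S, m.testBit i = true) → ∀ X, Inv S Y X n →
    ∃ X', prp Y n ls X = X' + 1 ∧ Inv S Y X' n := by
  intro ls
  induction ls with
  | nil => intro _ _ X hI; exact ⟨X, rfl, hI⟩
  | cons l ls ih =>
    intro hp hh X hI
    have hp' : ∀ l ∈ ls, l.Pairwise Dj := fun l hl => hp l (List.mem_cons_of_mem _ hl)
    have hh' : ∀ l ∈ ls, ∀ m ∈ l, ∃ i ∈ S, m.testBit i = true :=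
      fun l hl => hh l (List.mem_cons_of_mem _ hl)
    have hpl := hp l List.mem_cons_self
    have hhl := hh l List.mem_cons_self
    by_cases c12 : n + un Y l ≤ 12
    · have e : prp Y n (l :: ls) X = prp Y n ls X := by
        simp only [prp]
        rw [Nat.ble_eq_true_of_le c12]
        rfl
      rw [e]
      exact ih hp' hh' X hI
    · have b12 : Nat.ble (n + un Y l) 12 = false := by
        rw [Bool.eq_false_iff]
        intro hb
        exact c12 (Nat.le_of_ble_eq_true hb)
      have c13 : n + un Y l ≤ 13 := by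
        have := count hI hpl hhl ∅ (by simp) (by simp) (by simp)
        simp only [Finset.card_empty] at this
        omega
      have e : prp Y n (l :: ls) X = prp Y n ls (met Y l X) := by
        simp only [prp]
        rw [b12, Nat.ble_eq_true_of_le c13]
        rfl
      rw [e]
      exact ih hp' hh' _ (met_inv hS hI hpl hhl (by omega))

theorem dead_sound {S : Finset ℕ} {Y X n : ℕ} (hI : Inv S Y X n) : ∀ (ms : List ℕ),
    (∀ m ∈ ms, ∃ i ∈ S, m.testBit i = true) → dead Y X ms = false := by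
  intro ms
  induction ms with
  | nil => intro _; rfl
  | cons m ms ih =>
    intro hh
    have ih' := ih (fun m' hm' => hh m' (List.mem_cons_of_mem _ hm'))
    simp only [dead]
    rw [ih', Bool.or_false, Bool.and_eq_false_iff]
    by_contra hc
    rw [not_or, Bool.not_eq_false, Bool.not_eq_false] at hc
    obtain ⟨h1, h2⟩ := hc
    obtain ⟨i, hi, hb⟩ := hh m List.mem_cons_self
    have h2' := Nat.eq_of_beq_eq_true h2
    have hx : X.testBit i = true := by
      rw [← h2', lor_tb, hb]
      rfl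
    exact land_tb (Nat.eq_of_beq_eq_true h1) hb (hI.xx i hi hx)

/-- the conclusion. -/
def Concl (S : Finset ℕ) : Prop := ∃ t ∈ trans, S.card = 13 ∧ ∀ i, i ∈ S ↔ t.testBit i = true

theorem fin_sound {S : Finset ℕ} (hS : S.card ≤ 13) {Y X n : ℕ} (hI : Inv S Y X n)
    (h : fin Y n = true) : Concl S := by
  unfold fin at h
  rw [Bool.and_eq_true] at h
  obtain ⟨h1, h2⟩ := h
  have hn := Nat.eq_of_beq_eq_true h1
  rw [List.any_eq_true] at h2
  obtain ⟨t, ht, hb⟩ := h2
  have hY := Nat.eq_of_beq_eq_true hb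
  have hf : S.filter (fun i => Y.testBit i = true) = S := by
    apply Finset.eq_of_subset_of_card_le (Finset.filter_subset _ _)
    rw [hI.nn, hn]
    exact hS
  refine ⟨t, ht, ?_, ?_⟩
  · rw [← hf, hI.nn, hn]
  · intro i
    rw [hY]
    constructor
    · intro hi
      rw [← hf] at hi
      exact (Finset.mem_filter.1 hi).2
    · exact hI.yy i

theorem srch_sound {S : Finset ℕ} (hS : S.card ≤ 13)
    (hh : ∀ l ∈ dirs, ∀ m ∈ l, ∃ i ∈ S, m.testBit i = true) :
    ∀ f Y X n, Inv S Y X n → srch f Y X n = true → Concl S := by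
  intro f
  induction f with
  | zero => intro Y X n _ h; simp [srch] at h
  | succ f ih =>
    intro Y X n hI h
    obtain ⟨X', hX, hI'⟩ := prp_sound hS dirs dirs_pw hh X hI
    rw [srch, hX] at h
    replace h : (Nat.rec (motive := fun _ => Bool) (dead Y X' mks || fin Y n) (fun u _ =>
        Nat.beq (Nat.land Y (2 ^ Nat.log2 (u + 1))) 0 &&
        (srch f (Nat.lor Y (2 ^ Nat.log2 (u + 1))) X' (n + 1) &&
        srch f Y (Nat.lor X' (2 ^ Nat.log2 (u + 1))) n))
        (pick Y X' mks 0 0) : Bool) = true := h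
    have hm : ∀ m ∈ mks, ∃ i ∈ S, m.testBit i = true := by
      intro m hm
      unfold mks at hm
      rw [List.mem_flatten] at hm
      obtain ⟨l, hl, hml⟩ := hm
      exact hh l hl m hml
    generalize pick Y X' mks 0 0 = u at h
    cases u with
    | zero =>
      replace h : (dead Y X' mks || fin Y n) = true := h
      rw [dead_sound hI' mks hm, Bool.false_or] at h
      exact fin_sound hS hI' h
    | succ u =>
      replace h : (Nat.beq (Nat.land Y (2 ^ Nat.log2 (u + 1))) 0 &&
        (srch f (Nat.lor Y (2 ^ Nat.log2 (u + 1))) X' (n + 1) &&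
        srch f Y (Nat.lor X' (2 ^ Nat.log2 (u + 1))) n)) = true := h
      rw [Bool.and_eq_true, Bool.and_eq_true] at h
      obtain ⟨h0, h1, h2⟩ := h
      have h0' := Nat.eq_of_beq_eq_true h0
      generalize Nat.log2 (u + 1) = i at h0' h1 h2
      by_cases hi : i ∈ S
      · refine ih _ _ _ ?_ h1
        have hyi : Y.testBit i = false := by
          by_contra hc
          rw [Bool.not_eq_false] at hc
          exact land_tb h0' hc (Nat.testBit_two_pow_self)
        have tb : ∀ j, (Nat.lor Y (2 ^ i)).testBit j = true ↔ (Y.testBit j = true ∨ j = i) := by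
          intro j
          rw [lor_tb, Bool.or_eq_true, Nat.testBit_two_pow, decide_eq_true_eq]
          exact or_congr_right eq_comm
        refine ⟨?_, ?_, ?_⟩
        · intro j hj
          rcases (tb j).1 hj with hj | rfl
          · exact hI'.yy j hj
          · exact hi
        · intro j hj hx
          exact (tb j).2 (Or.inl (hI'.xx j hj hx))
        · have e : S.filter (fun j => (Nat.lor Y (2 ^ i)).testBit j = true) =
              insert i (S.filter (fun j => Y.testBit j = true)) := by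
            ext j
            rw [Finset.mem_filter, Finset.mem_insert, Finset.mem_filter, tb j]
            constructor
            · rintro ⟨h3, h4 | h4⟩
              · exact Or.inr ⟨h3, h4⟩
              · exact Or.inl h4
            · rintro (rfl | ⟨h3, h4⟩)
              · exact ⟨hi, Or.inr rfl⟩
              · exact ⟨h3, Or.inl h4⟩
          rw [e, Finset.card_insert_of_notMem, hI'.nn]
          rw [Finset.mem_filter, hyi]
          simp
      · refine ih _ _ _ ⟨hI'.yy, ?_, hI'.nn⟩ h2
        intro j hj hx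
        rw [lor_tb, Bool.or_eq_true, Nat.testBit_two_pow, decide_eq_true_eq] at hx
        rcases hx with hx | hx
        · exact hI'.xx j hj hx
        · exact absurd (hx ▸ hj) hi

/-! ### Numbers and vectors -/

/-- the number of a vector. -/
def ixn (c : Fin 3 → ZMod 3) : ℕ := (c 0).val + 3 * (c 1).val + 9 * (c 2).val

/-- the vector with a number. -/
def vec (i : ℕ) : Fin 3 → ZMod 3 := ![(i : ZMod 3), ((i / 3 : ℕ) : ZMod 3), ((i / 9 : ℕ) : ZMod 3)]

theorem e0 : ∀ a b d : ZMod 3, ((a.val + 3 * b.val + 9 * d.val : ℕ) : ZMod 3) = a := by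
  decide +kernel

theorem e1 : ∀ a b d : ZMod 3, (((a.val + 3 * b.val + 9 * d.val) / 3 : ℕ) : ZMod 3) = b := by
  decide +kernel

theorem e2 : ∀ a b d : ZMod 3, (((a.val + 3 * b.val + 9 * d.val) / 9 : ℕ) : ZMod 3) = d := by
  decide +kernel

theorem e3 : ∀ a b d : ZMod 3, a.val + 3 * b.val + 9 * d.val < 27 := by decide +kernel

theorem vec_ixn (c : Fin 3 → ZMod 3) : vec (ixn c) = c := by
  ext i
  fin_cases i
  · exact congrArg (fun z => z) (e0 (c 0) (c 1) (c 2))
  · exact congrArg (fun z => z) (e1 (c 0) (c 1) (c 2))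
  · exact congrArg (fun z => z) (e2 (c 0) (c 1) (c 2))

theorem ixn_lt (c : Fin 3 → ZMod 3) : ixn c < 27 := e3 _ _ _

theorem ixn_vec : ∀ i : Fin 27, ixn (vec i.val) = i.val := by decide +kernel

theorem gens_mks : gens.map (fun g => g.1) = mks := by decide +kernel

theorem gens_ok : ∀ g ∈ gens, ¬ EE (vec g.2.2) ∧ g.1.testBit (ixn (vec g.2.1)) = true ∧
    g.1.testBit (ixn (vec g.2.1 + vec g.2.2)) = true ∧
    g.1.testBit (ixn (vec g.2.1 - vec g.2.2)) = true := by decide +kernel

theorem trans_ok : ∀ p : Fin 27, ∀ i : Fin 27,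
    ((trans.getD p.val 0).testBit i.val = true ↔ EE (vec i.val - vec p.val)) := by decide +kernel

theorem trans_len : ∀ t ∈ trans, ∃ p : Fin 27, t = trans.getD p.val 0 := by decide +kernel

end SIFM

open SIFM in
theorem specSIF : SpecSIF := by
  classical
  -- the case `0 ∈ P`
  have main : ∀ P : Set (Fin 3 → ZMod 3), (0 : Fin 3 → ZMod 3) ∈ P →
      (∀ v, ¬ EE v → ∀ p, p ∈ P ∨ p + v ∈ P ∨ p - v ∈ P) → P.ncard ≤ 13 →
      P.ncard = 13 ∧ ∃ p, ∀ c, c ∈ P ↔ EE (c - p) := by
    intro P h0 hh hc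
    set S : Finset ℕ := (Finset.range 27).filter (fun i => vec i ∈ P) with hS
    have mem : ∀ c, c ∈ P ↔ ixn c ∈ S := by
      intro c
      rw [hS, Finset.mem_filter, vec_ixn, Finset.mem_range]
      exact ⟨fun h => ⟨ixn_lt c, h⟩, fun h => h.2⟩
    have inj : Set.InjOn vec (S : Set ℕ) := by
      intro i hi j hj hij
      rw [Finset.mem_coe, hS, Finset.mem_filter, Finset.mem_range] at hi hj
      have hi' := ixn_vec ⟨i, hi.1⟩
      have hj' := ixn_vec ⟨j, hj.1⟩
      simp only at hi' hj'
      rw [← hi', ← hj', hij]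
    have img : ((S.image vec : Finset (Fin 3 → ZMod 3)) : Set (Fin 3 → ZMod 3)) = P := by
      ext c
      rw [Finset.mem_coe, Finset.mem_image]
      constructor
      · rintro ⟨i, hi, rfl⟩
        rw [hS, Finset.mem_filter] at hi
        exact hi.2
      · intro h
        exact ⟨ixn c, (mem c).1 h, vec_ixn c⟩
    have card : P.ncard = S.card := by
      rw [← img, Set.ncard_coe_finset, Finset.card_image_of_injOn inj]
    have hit : ∀ l ∈ dirs, ∀ m ∈ l, ∃ i ∈ S, m.testBit i = true := by
      intro l hl m hm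
      have hmm : m ∈ mks := by
        unfold mks
        exact List.mem_flatten.2 ⟨l, hl, hm⟩
      rw [← gens_mks, List.mem_map] at hmm
      obtain ⟨g, hg, rfl⟩ := hmm
      obtain ⟨g1, g2, g3, g4⟩ := gens_ok g hg
      rcases hh _ g1 (vec g.2.1) with h | h | h
      · exact ⟨_, (mem _).1 h, g2⟩
      · exact ⟨_, (mem _).1 h, g3⟩
      · exact ⟨_, (mem _).1 h, g4⟩
    have hz : (0 : ℕ) ∈ S := by
      have := (mem 0).1 h0
      exact this
    have one : ∀ i, (1 : ℕ).testBit i = true ↔ i = 0 := by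
      intro i
      rw [Nat.testBit_one_eq_true_iff_self_eq_zero]
    have hI : Inv S 1 0 1 := by
      refine ⟨?_, ?_, ?_⟩
      · intro i hi
        rw [one] at hi
        rw [hi]
        exact hz
      · intro i _ hi
        simp at hi
      · have : S.filter (fun i => (1 : ℕ).testBit i = true) = {0} := by
          ext i
          rw [Finset.mem_filter, Finset.mem_singleton, one]
          exact ⟨fun h => h.2, fun h => ⟨h ▸ hz, h⟩⟩
        rw [this, Finset.card_singleton]
    obtain ⟨t, ht, hc13, hti⟩ := srch_sound (card ▸ hc) hit 30 1 0 1 hI srch1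
    refine ⟨card.trans hc13, ?_⟩
    obtain ⟨p, rfl⟩ := trans_len t ht
    refine ⟨vec p.val, fun c => ?_⟩
    rw [mem c, hti, ← vec_ixn c]
    have := trans_ok p ⟨ixn c, ixn_lt c⟩
    simp only at this
    rw [vec_ixn c]
    rw [vec_ixn c] at this
    exact this
  intro P hh hc
  have hne : ∃ p₀, p₀ ∈ P := by
    have hv : ¬ EE ![1, 1, 0] := by decide
    rcases hh _ hv 0 with h | h | h
    · exact ⟨_, h⟩
    · exact ⟨_, h⟩
    · exact ⟨_, h⟩
  obtain ⟨p₀, hp₀⟩ := hne
  have hcard : {c | c + p₀ ∈ P}.ncard = P.ncard := by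
    rw [← Set.ncard_image_of_injective {c | c + p₀ ∈ P} (add_left_injective p₀)]
    congr 1
    ext x
    constructor
    · rintro ⟨c, hc, rfl⟩
      exact hc
    · intro hx
      exact ⟨x - p₀, by simpa using hx, by simp⟩
  obtain ⟨h1, p, h2⟩ := main {c | c + p₀ ∈ P} (by simpa using hp₀) (by
    intro v hv q
    rcases hh v hv (q + p₀) with h | h | h
    · exact Or.inl h
    · refine Or.inr (Or.inl ?_)
      have : q + v + p₀ = q + p₀ + v := by abel
      show q + v + p₀ ∈ P
      rw [this]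
      exact h
    · refine Or.inr (Or.inr ?_)
      have : q - v + p₀ = q + p₀ - v := by abel
      show q - v + p₀ ∈ P
      rw [this]
      exact h) (hcard ▸ hc)
  refine ⟨hcard ▸ h1, p + p₀, fun c => ?_⟩
  have := h2 (c - p₀)
  rw [Set.mem_ofPred_eq, sub_add_cancel] at this
  rw [this]
  have e : c - p₀ - p = c - (p + p₀) := by abel
  rw [e]

end Pool.Agent.Lib.MP_b63a06_co.TR
end

section
set_option autoImplicit false

/-! # TR, module SIX: the classes of a frame -/

namespace Pool.Agent.Lib.MP_b63a06_co.TR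

namespace SIXM

variable {V : Type} [AddCommGroup V] [Module (ZMod 3) V]

theorem lc_add {n : ℕ} (e : Fin n → V) (c d : Fin n → ZMod 3) : lc e (c + d) = lc e c + lc e d := by
  simp only [lc, Pi.add_apply, add_smul, Finset.sum_add_distrib]

theorem lc_smul {n : ℕ} (e : Fin n → V) (k : ZMod 3) (c : Fin n → ZMod 3) :
    lc e (k • c) = k • lc e c := by
  simp only [lc, Pi.smul_apply, smul_eq_mul, mul_smul, Finset.smul_sum]

theorem lc_neg {n : ℕ} (e : Fin n → V) (c : Fin n → ZMod 3) : lc e (-c) = -lc e c := by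
  simp only [lc, Pi.neg_apply, neg_smul, Finset.sum_neg_distrib]

theorem lc_sub {n : ℕ} (e : Fin n → V) (c d : Fin n → ZMod 3) : lc e (c - d) = lc e c - lc e d := by
  rw [sub_eq_add_neg, lc_add, lc_neg, ← sub_eq_add_neg]

theorem lc_mem {n : ℕ} {F : Submodule (ZMod 3) V} {e : Fin n → V} (h : ∀ i, e i ∈ F)
    (c : Fin n → ZMod 3) : lc e c ∈ F :=
  F.sum_mem fun i _ => F.smul_mem _ (h i)

theorem zm3 : ∀ k : ZMod 3, k = 0 ∨ k = 1 ∨ k = -1 := by decide

/-- the elements of `EE` -/
def Ef : Finset (Fin 3 → ZMod 3) := Finset.univ.filter fun c => EE c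

theorem mem_Ef (c : Fin 3 → ZMod 3) : c ∈ Ef ↔ EE c := by
  simp [Ef]

theorem Ef_card : Ef.card = 13 := by decide +kernel

theorem not_EE : ¬ EE (fun _ => 1) := by decide

theorem EE_zero : EE 0 := by decide

/-- the positions -/
def PR (A : Set V) (e : Fin 3 → V) (y : V) (R : Submodule (ZMod 3) V) : Set (Fin 3 → ZMod 3) :=
  {c | ∃ r ∈ R, y + lc e c + r ∈ A}

theorem PR_hyp (hFLV : SpecFLV) (hMEE : SpecMEE) [Finite V] (A : Set V) (hA : Sy A)
    (F : Submodule (ZMod 3) V) (e : Fin 3 → V) (hF : Frame A F e) (y : V)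
    (R : Submodule (ZMod 3) V) (hR : Cpl F e R) :
    ∀ v, ¬ EE v → ∀ p, p ∈ PR A e y R ∨ p + v ∈ PR A e y R ∨ p - v ∈ PR A e y R := by
  intro v hv p
  have h0 : Cn A F 0 := fun q _ => by rw [zero_add]
  have hW := hFLV V A hA F e hF R hR 0 h0 v hv
  obtain ⟨a, ha, haW⟩ := hMEE V A hA _ hW (y + lc e p)
  obtain ⟨r, hr, z, hz, hrz⟩ := Submodule.mem_sup.mp haW
  obtain ⟨k, rfl⟩ := Submodule.mem_span_singleton.mp hz
  have h1 : a = y + lc e p + r + k • (0 + lc e v) := by
    rw [add_assoc (y + lc e p), hrz]; abel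
  rw [zero_add] at h1
  rcases zm3 k with rfl | rfl | rfl
  · left
    refine ⟨r, hr, ?_⟩
    rw [zero_smul, add_zero] at h1
    rwa [← h1]
  · right; left
    refine ⟨r, hr, ?_⟩
    have : y + lc e (p + v) + r = a := by
      rw [h1, lc_add, one_smul]; abel
    rwa [this]
  · right; right
    refine ⟨r, hr, ?_⟩
    have : y + lc e (p - v) + r = a := by
      rw [h1, lc_sub, neg_smul, one_smul]; abel
    rwa [this]

theorem cpl_unique {F : Submodule (ZMod 3) V} {e : Fin 3 → V} {R : Submodule (ZMod 3) V}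
    (hR : Cpl F e R) {c d : Fin 3 → ZMod 3} {r s : V} (hr : r ∈ R) (hs : s ∈ R)
    (h : lc e c + r = lc e d + s) : c = d ∧ r = s := by
  have h1 : lc e (c - d) = s - r := by
    rw [lc_sub, sub_eq_sub_iff_add_eq_add, h]; abel
  have h2 : c - d = 0 := hR.dj _ (by rw [h1]; exact R.sub_mem hs hr)
  have h3 : c = d := sub_eq_zero.mp h2
  refine ⟨h3, ?_⟩
  rw [h3] at h
  exact add_left_cancel h

theorem exists_inj [Finite V] (A : Set V) (F : Submodule (ZMod 3) V) (e : Fin 3 → V)
    (he : ∀ i, e i ∈ F) (y : V) (R : Submodule (ZMod 3) V) (hR : Cpl F e R) :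
    ∃ rr : (Fin 3 → ZMod 3) → V, (∀ c ∈ PR A e y R, rr c ∈ R ∧ y + lc e c + rr c ∈ A) ∧
      Set.InjOn (fun c => y + lc e c + rr c) (PR A e y R) ∧
      ∀ c ∈ PR A e y R, y + lc e c + rr c ∈ cs A F y := by
  have h : ∀ c, ∃ r, c ∈ PR A e y R → r ∈ R ∧ y + lc e c + r ∈ A := by
    intro c
    by_cases hc : c ∈ PR A e y R
    · obtain ⟨r, hr, hr'⟩ := hc
      exact ⟨r, fun _ => ⟨hr, hr'⟩⟩
    · exact ⟨0, fun h => absurd h hc⟩
  choose rr hrr using h
  refine ⟨rr, hrr, ?_, ?_⟩
  · intro c hc d hd hcd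
    have h1 : lc e c + rr c = lc e d + rr d := by
      have h2 : y + lc e c + rr c = y + lc e d + rr d := hcd
      rw [add_assoc, add_assoc] at h2
      exact add_left_cancel h2
    exact (cpl_unique hR (hrr c hc).1 (hrr d hd).1 h1).1
  · intro c hc
    refine ⟨(hrr c hc).2, ?_⟩
    have : y + lc e c + rr c - y = lc e c + rr c := by abel
    rw [this]
    exact F.add_mem (lc_mem he c) (hR.le (hrr c hc).1)

theorem card_le [Finite V] (A : Set V) (F : Submodule (ZMod 3) V) (e : Fin 3 → V)
    (he : ∀ i, e i ∈ F) (y : V) (R : Submodule (ZMod 3) V) (hR : Cpl F e R) :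
    (PR A e y R).ncard ≤ (cs A F y).ncard := by
  obtain ⟨rr, -, h2, h3⟩ := exists_inj A F e he y R hR
  exact Set.ncard_le_ncard_of_injOn _ h3 h2 (Set.toFinite _)

/-- the complements `{r - ψ r • lc e v}` -/
theorem cpl_tw {F : Submodule (ZMod 3) V} {e : Fin 3 → V} (he : ∀ i, e i ∈ F)
    {R : Submodule (ZMod 3) V} (hR : Cpl F e R)
    (ψ : V →ₗ[ZMod 3] ZMod 3) (v : Fin 3 → ZMod 3) :
    Cpl F e (R.map (LinearMap.id - ψ.smulRight (lc e v))) where
  le := by
    rintro _ ⟨r, hr, rfl⟩
    exact F.sub_mem (hR.le hr) (F.smul_mem _ (lc_mem he v))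
  dj := by
    rintro c ⟨r, hr, hrc⟩
    have h1 : r - ψ r • lc e v = lc e c := hrc
    have h2 : lc e (0 : Fin 3 → ZMod 3) + r = lc e (c + ψ r • v) + 0 := by
      rw [lc_add, lc_smul, ← h1]
      have : lc e (0 : Fin 3 → ZMod 3) = 0 := by simp [lc]
      rw [this]; abel
    obtain ⟨h3, h4⟩ := cpl_unique hR hr R.zero_mem h2
    rw [h4, map_zero, zero_smul, add_zero] at h3
    exact h3.symm
  sp := by
    intro x hx
    obtain ⟨c, hc⟩ := hR.sp x hx
    refine ⟨c + ψ (x - lc e c) • v, x - lc e c, hc, ?_⟩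
    change (x - lc e c) - ψ (x - lc e c) • lc e v = x - lc e (c + ψ (x - lc e c) • v)
    rw [lc_add, lc_smul]; abel

theorem key (G : ZMod 3) (g : (Fin 3 → ZMod 3) → ZMod 3)
    (h : ∀ v c, EE c → EE (c + (g c - G) • v)) (c : Fin 3 → ZMod 3) (hc : EE c) : g c = G := by
  have : Fact (Nat.Prime 3) := ⟨Nat.prime_three⟩
  by_contra hne
  have h1 : g c - G ≠ 0 := sub_ne_zero.mpr hne
  have h2 := h ((g c - G)⁻¹ • ((fun _ => 1) - c)) c hc
  rw [smul_smul, mul_inv_cancel₀ h1, one_smul, add_sub_cancel] at h2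
  exact not_EE h2

/-- The sum argument. -/
theorem summ (g : (Fin 3 → ZMod 3) → ZMod 3) (p p' v : Fin 3 → ZMod 3)
    (P : Set (Fin 3 → ZMod 3)) (hP : ∀ c, c ∈ P ↔ ∃ d, EE d ∧ c = p + d + g d • v)
    (hP' : ∀ c, c ∈ P ↔ EE (c - p')) (hcard : P.ncard = 13) :
    p' = p + (∑ d ∈ Ef, g d) • v := by
  classical
  have h1 : P = ↑(Ef.image fun d => p + d + g d • v) := by
    ext c
    rw [hP, Finset.mem_coe, Finset.mem_image]
    constructor
    · rintro ⟨d, hd, rfl⟩
      exact ⟨d, (mem_Ef d).mpr hd, rfl⟩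
    · rintro ⟨d, hd, rfl⟩
      exact ⟨d, (mem_Ef d).mp hd, rfl⟩
  have h2 : P = ↑(Ef.image fun d => d + p') := by
    ext c
    rw [hP', Finset.mem_coe, Finset.mem_image]
    constructor
    · intro hc
      exact ⟨c - p', (mem_Ef _).mpr hc, by abel⟩
    · rintro ⟨d, hd, rfl⟩
      rw [add_sub_cancel_right]
      exact (mem_Ef d).mp hd
  have h3 : (Ef.image fun d => p + d + g d • v) = Ef.image fun d => d + p' := by
    rw [h1] at h2
    exact_mod_cast h2
  have h4 : Set.InjOn (fun d => p + d + g d • v) (Ef : Set (Fin 3 → ZMod 3)) := by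
    rw [← Finset.card_image_iff, Ef_card, ← hcard, h1, Set.ncard_coe_finset]
  have h5 : Set.InjOn (fun d => d + p') (Ef : Set (Fin 3 → ZMod 3)) := by
    intro a _ b _ hab
    exact add_right_cancel hab
  have h6 : ∑ c ∈ (Ef.image fun d => p + d + g d • v), c = ∑ c ∈ (Ef.image fun d => d + p'), c := by
    rw [h3]
  rw [Finset.sum_image h4, Finset.sum_image h5, Finset.sum_add_distrib, Finset.sum_add_distrib,
    Finset.sum_add_distrib, Finset.sum_const, Finset.sum_const, Ef_card, ← Finset.sum_smul] at h6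
  have h7 : ∀ q : Fin 3 → ZMod 3, (13 : ℕ) • q = q := by
    intro q
    funext i
    rw [Pi.smul_apply, nsmul_eq_mul]
    have : ((13 : ℕ) : ZMod 3) = 1 := by decide
    rw [this, one_mul]
  rw [h7, h7] at h6
  have h8 : ∑ d ∈ Ef, d + p' = ∑ d ∈ Ef, d + (p + (∑ d ∈ Ef, g d) • v) := by
    rw [← h6]; abel
  exact add_left_cancel h8

end SIXM

open SIXM in
theorem specSIX (hCPE : SpecCPE) (hFLV : SpecFLV) (hSIF : SpecSIF) (hMEE : SpecMEE) :
    SpecSIX := by
  intro V _ _ _ A hA F e hF y
  obtain ⟨R, hR⟩ := (hCPE V A F e hF).1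
  have hsif : ∀ R, Cpl F e R → (cs A F y).ncard ≤ 13 → (PR A e y R).ncard = 13 ∧
      ∃ p, ∀ c, c ∈ PR A e y R ↔ EE (c - p) := fun R hR h =>
    hSIF _ (PR_hyp hFLV hMEE A hA F e hF y R hR) ((card_le A F e hF.mem y R hR).trans h)
  have h13 : 13 ≤ (cs A F y).ncard := by
    by_contra hcon
    have h1 := (hsif R hR (by omega)).1
    have h2 := card_le A F e hF.mem y R hR
    omega
  refine ⟨h13, fun heq => ?_⟩
  obtain ⟨hc1, p, hp⟩ := hsif R hR heq.le
  obtain ⟨rr, hr1, hr2, hr3⟩ := exists_inj A F e hF.mem y R hR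
  -- the elements of the coset
  have hcs : (fun c => y + lc e c + rr c) '' (PR A e y R) = cs A F y := by
    apply Set.eq_of_subset_of_ncard_le
    · rintro _ ⟨c, hc, rfl⟩
      exact hr3 c hc
    · rw [Set.InjOn.ncard_image hr2, hc1, heq]
    · exact Set.toFinite _
  have hQ : ∀ x, (x ∈ A ∧ x - y ∈ F) ↔ ∃ c, EE c ∧ x = y + lc e (p + c) + rr (p + c) := by
    intro x
    constructor
    · rintro ⟨hx, hxy⟩
      have h1 : x ∈ cs A F y := ⟨hx, hxy⟩
      rw [← hcs] at h1
      obtain ⟨c, hc, rfl⟩ := h1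
      refine ⟨c - p, (hp c).mp hc, ?_⟩
      rw [add_sub_cancel]
    · rintro ⟨c, hc, rfl⟩
      have h1 : p + c ∈ PR A e y R := (hp _).mpr (by rwa [add_sub_cancel_left])
      exact hr3 _ h1
  have hrR : ∀ c, EE c → rr (p + c) ∈ R := fun c hc =>
    (hr1 _ ((hp _).mpr (by rwa [add_sub_cancel_left]))).1
  -- the functionals
  have hψ : ∀ ψ : V →ₗ[ZMod 3] ZMod 3, ∀ c, EE c →
      ψ (rr (p + c)) = ∑ d ∈ Ef, ψ (rr (p + d)) := by
    intro ψ
    apply key (∑ d ∈ Ef, ψ (rr (p + d))) (fun c => ψ (rr (p + c)))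
    intro v c hc
    have hRv := cpl_tw hF.mem hR ψ v
    obtain ⟨hv1, p', hv2⟩ := hsif _ hRv heq.le
    have hv3 : ∀ c', c' ∈ PR A e y (R.map (LinearMap.id - ψ.smulRight (lc e v))) ↔
        ∃ d, EE d ∧ c' = p + d + ψ (rr (p + d)) • v := by
      intro c'
      constructor
      · rintro ⟨_, ⟨r, hr, rfl⟩, hz⟩
        have hz' : y + lc e c' + (r - ψ r • lc e v) ∈ A := hz
        have hzF : y + lc e c' + (r - ψ r • lc e v) - y ∈ F := by
          have : y + lc e c' + (r - ψ r • lc e v) - y = lc e c' + (r - ψ r • lc e v) := by abel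
          rw [this]
          exact F.add_mem (lc_mem hF.mem _)
            (F.sub_mem (hR.le hr) (F.smul_mem _ (lc_mem hF.mem _)))
        obtain ⟨d, hd, hd2⟩ := (hQ _).mp ⟨hz', hzF⟩
        have h1 : lc e (c' - ψ r • v) + r = lc e (p + d) + rr (p + d) := by
          rw [lc_sub, lc_smul]
          have h2 : y + (lc e c' - ψ r • lc e v + r) = y + (lc e (p + d) + rr (p + d)) := by
            rw [← add_assoc y (lc e (p + d)), ← hd2]; abel
          exact add_left_cancel h2
        obtain ⟨h3, h4⟩ := cpl_unique hR hr (hrR d hd) h1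
        refine ⟨d, hd, ?_⟩
        rw [← h4, ← h3]; abel
      · rintro ⟨d, hd, rfl⟩
        refine ⟨rr (p + d) - ψ (rr (p + d)) • lc e v, ⟨rr (p + d), hrR d hd, rfl⟩, ?_⟩
        have h1 : y + lc e (p + d + ψ (rr (p + d)) • v) +
            (rr (p + d) - ψ (rr (p + d)) • lc e v) = y + lc e (p + d) + rr (p + d) := by
          rw [lc_add e (p + d), lc_smul]; abel
        rw [h1]
        exact ((hQ _).mpr ⟨d, hd, rfl⟩).1
    have hv4 := summ (fun d => ψ (rr (p + d))) p p' v _ hv3 hv2 hv1
    have hv5 := (hv2 _).mp ((hv3 _).mpr ⟨c, hc, rfl⟩)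
    rw [hv4] at hv5
    have h1 : c + (ψ (rr (p + c)) - ∑ d ∈ Ef, ψ (rr (p + d))) • v =
        p + c + ψ (rr (p + c)) • v - (p + (∑ d ∈ Ef, ψ (rr (p + d))) • v) := by
      rw [sub_smul]; abel
    rw [h1]
    exact hv5
  have hrr : ∀ c, EE c → rr (p + c) = rr p := by
    have : Fact (Nat.Prime 3) := ⟨Nat.prime_three⟩
    intro c hc
    rw [← sub_eq_zero, ← Module.forall_dual_apply_eq_zero_iff (ZMod 3)]
    intro ψ
    rw [map_sub, sub_eq_zero]
    have h1 := hψ ψ c hc
    have h2 := hψ ψ 0 EE_zero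
    rw [add_zero] at h2
    rw [h1, h2]
  -- the centre
  refine ⟨y + lc e p + rr p, ?_, ?_⟩
  · intro q hq
    have hrp : rr p ∈ R := by
      have := hrR 0 EE_zero
      rwa [add_zero] at this
    constructor
    · intro hx
      have hF' : y + lc e p + rr p + q - y ∈ F := by
        have : y + lc e p + rr p + q - y = lc e p + rr p + q := by abel
        rw [this]
        exact F.add_mem (F.add_mem (lc_mem hF.mem _) (hR.le hrp)) hq
      obtain ⟨c, hc, hc2⟩ := (hQ _).mp ⟨hx, hF'⟩
      rw [hrr c hc, lc_add] at hc2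
      have h1 : y + lc e p + rr p + q = y + lc e p + rr p + lc e c := by
        rw [hc2]; abel
      have h2 := add_left_cancel h1
      exact ((hF.cut q).mpr ⟨c, hc, h2⟩).1
    · intro hx
      obtain ⟨c, hc, rfl⟩ := (hF.cut q).mp ⟨hx, hq⟩
      have h1 := ((hQ _).mpr ⟨c, hc, rfl⟩).1
      rw [hrr c hc, lc_add] at h1
      have : y + lc e p + rr p + lc e c = y + (lc e p + lc e c) + rr p := by abel
      rwa [this]
  · rw [← sub_eq_zero, ← map_sub, Submodule.mkQ_apply, Submodule.Quotient.mk_eq_zero]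
    have hrp : rr p ∈ R := by
      have := hrR 0 EE_zero
      rwa [add_zero] at this
    have : y + lc e p + rr p - y = lc e p + rr p := by abel
    rw [this]
    exact F.add_mem (lc_mem hF.mem _) (hR.le hrp)

end Pool.Agent.Lib.MP_b63a06_co.TR
end

section
/-!
# MP_b63a06_co, TR: the table T54

The colour classes are lists of indices `c 0 + 3 c 1 + 9 c 2 + 27 c 3 + 81 c 4`; the kernel checks on
natural numbers that they cover everything and that no class contains a forbidden difference.
-/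
set_option autoImplicit false
set_option linter.all false

namespace Pool.Agent.Lib.MP_b63a06_co.TR

namespace T54M

/-- the colour classes -/
def cls : List (List ℕ) :=
  [[81, 143, 147, 157, 216], [141, 151, 155, 156], [31, 43, 80, 134], [7, 57, 65, 77, 142],
   [14, 29, 69, 73], [6, 26, 36, 67], [18, 30, 40, 53, 207], [115, 119, 132, 158, 212],
   [82, 94, 99, 125, 179], [59, 167, 222, 232, 236], [85, 92, 124, 153], [136, 152, 221, 234],
   [148, 202, 218, 219, 241], [2, 19, 24, 66, 174], [39, 194, 205, 208, 228],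
   [22, 35, 42, 45, 211], [3, 83, 178, 188], [127, 181, 193, 198, 206], [162, 184, 197, 199],
   [84, 96, 100, 110, 164], [166, 170, 180, 227], [1, 13, 17, 186], [71, 140, 154, 225],
   [51, 112, 122, 189], [27, 37, 50, 62, 116], [86, 98, 103, 144], [165, 177, 209, 226],
   [150, 204, 220, 224, 235], [12, 163, 173, 187, 201], [109, 121, 131, 159, 213],
   [4, 16, 20, 75, 183], [11, 58, 70, 72, 146], [49, 126, 196, 200], [25, 89, 90, 102, 160],
   [5, 10, 15, 74, 182], [23, 28, 38, 60], [91, 105, 169, 185], [32, 47, 120, 133],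
   [41, 46, 56, 78], [138, 192, 229, 239], [104, 111, 123, 145], [137, 191, 223, 230, 240],
   [171, 175, 195, 215], [108, 139, 149, 161], [114, 168, 190, 203, 210], [176, 214, 217, 231],
   [34, 88, 128, 129], [54, 64, 238, 242], [44, 61, 63, 76, 233], [87, 95, 107, 118, 172],
   [0, 93, 97, 101, 135], [33, 113, 117, 130], [48, 55, 68, 79, 237], [8, 9, 21, 52, 106]]

/-- the index of a vector -/
def idx (c : Fin 5 → ZMod 3) : ℕ :=
  (c 0).val + 3 * (c 1).val + 9 * (c 2).val + 27 * (c 3).val + 81 * (c 4).val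

/-- difference of two digits -/
def df (a b : ℕ) : ℕ := (a % 3 + 3 - b % 3) % 3

/-- the pattern of a frame -/
def eeb (a b c : ℕ) : Bool :=
  (Nat.beq a 0 && Nat.beq b 0) || (Nat.beq a 0 && Nat.beq c 0) || (Nat.beq b 0 && Nat.beq c 0) ||
    (Nat.beq ((a + b + c) % 3) 0 && (Nat.beq a 0 || Nat.beq b 0 || Nat.beq c 0))

/-- `K54` on digits -/
def kb (a b c d e : ℕ) : Bool := (!(Nat.beq d 0 || Nat.beq e 0) || eeb a b c) &&
  !(!Nat.beq d 0 && Nat.beq ((d + e) % 3) 0 && Nat.beq a 0 && Nat.beq b 0 && Nat.beq c 0)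

/-- the class `l` is independent -/
def okl (l : List ℕ) : Bool :=
  l.all fun i => l.all fun j => Nat.beq i j ||
    !kb (df i j) (df (i / 3) (j / 3)) (df (i / 9) (j / 9)) (df (i / 27) (j / 27))
      (df (i / 81) (j / 81))

theorem ok_all : cls.all okl = true := by decide +kernel

theorem cover : ((List.range 243).all fun i => cls.any fun l => l.any (Nat.beq i)) = true := by
  decide +kernel

theorem len : cls.length = 54 := by decide +kernel

theorem sub_val (a b : ZMod 3) : (a - b).val = df a.val b.val := by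
  revert a b
  decide

theorem z_iff (a : ZMod 3) : a = 0 ↔ a.val = 0 := by
  revert a
  decide

theorem s_iff (a b c : ZMod 3) : a + b + c = 0 ↔ (a.val + b.val + c.val) % 3 = 0 := by
  revert a b c
  decide

theorem s_iff2 (a b : ZMod 3) : a + b = 0 ↔ (a.val + b.val) % 3 = 0 := by
  revert a b
  decide

theorem nbeq (a b : ℕ) : Nat.beq a b = true ↔ a = b :=
  ⟨Nat.eq_of_beq_eq_true, fun h => by subst h; exact Nat.beq_refl a⟩

theorem eeb_iff (a b c : ZMod 3) : eeb a.val b.val c.val = true ↔ EE ![a, b, c] := by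
  revert a b c
  decide

theorem kb_of (c : Fin 5 → ZMod 3) (h : K54 c) :
    kb (c 0).val (c 1).val (c 2).val (c 3).val (c 4).val = true := by
  obtain ⟨h, h'⟩ := h
  unfold kb
  rw [Bool.and_eq_true]
  constructor
  · by_cases h3 : c 3 = 0 ∨ c 4 = 0
    · rw [(eeb_iff _ _ _).2 (h h3), Bool.or_true]
    · have e3 : Nat.beq (c 3).val 0 = false := by
        rw [← Bool.not_eq_true, nbeq, ← z_iff]
        exact fun h => h3 (Or.inl h)
      have e4 : Nat.beq (c 4).val 0 = false := by
        rw [← Bool.not_eq_true, nbeq, ← z_iff]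
        exact fun h => h3 (Or.inr h)
      rw [e3, e4]
      rfl
  · rw [Bool.not_eq_true']
    by_contra hc
    rw [Bool.not_eq_false, Bool.and_eq_true, Bool.and_eq_true, Bool.and_eq_true,
      Bool.and_eq_true, nbeq, nbeq, nbeq, nbeq, Bool.not_eq_true', ← Bool.not_eq_true, nbeq,
      ← s_iff2, ← z_iff, ← z_iff, ← z_iff, ← z_iff] at hc
    obtain ⟨⟨⟨⟨h1, h2⟩, h3⟩, h4⟩, h5⟩ := hc
    exact h' h1 h2 ⟨h3, h4, h5⟩

theorem idx_lt (c : Fin 5 → ZMod 3) : idx c < 243 := by
  have h0 := ZMod.val_lt (c 0)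
  have h1 := ZMod.val_lt (c 1)
  have h2 := ZMod.val_lt (c 2)
  have h3 := ZMod.val_lt (c 3)
  have h4 := ZMod.val_lt (c 4)
  unfold idx
  omega

theorem kb_idx (c d : Fin 5 → ZMod 3) (h : K54 (c - d)) :
    kb (df (idx c) (idx d)) (df (idx c / 3) (idx d / 3)) (df (idx c / 9) (idx d / 9))
      (df (idx c / 27) (idx d / 27)) (df (idx c / 81) (idx d / 81)) = true := by
  have h0 := ZMod.val_lt (c 0)
  have h1 := ZMod.val_lt (c 1)
  have h2 := ZMod.val_lt (c 2)
  have h3 := ZMod.val_lt (c 3)
  have h4 := ZMod.val_lt (c 4)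
  have k0 := ZMod.val_lt (d 0)
  have k1 := ZMod.val_lt (d 1)
  have k2 := ZMod.val_lt (d 2)
  have k3 := ZMod.val_lt (d 3)
  have k4 := ZMod.val_lt (d 4)
  have e0 : df (idx c) (idx d) = ((c - d) 0).val := by
    rw [Pi.sub_apply, sub_val]; unfold df idx; omega
  have e1 : df (idx c / 3) (idx d / 3) = ((c - d) 1).val := by
    rw [Pi.sub_apply, sub_val]; unfold df idx; omega
  have e2 : df (idx c / 9) (idx d / 9) = ((c - d) 2).val := by
    rw [Pi.sub_apply, sub_val]; unfold df idx; omega
  have e3 : df (idx c / 27) (idx d / 27) = ((c - d) 3).val := by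
    rw [Pi.sub_apply, sub_val]; unfold df idx; omega
  have e4 : df (idx c / 81) (idx d / 81) = ((c - d) 4).val := by
    rw [Pi.sub_apply, sub_val]; unfold df idx; omega
  rw [e0, e1, e2, e3, e4]
  exact kb_of (c - d) h

theorem idx_inj (c d : Fin 5 → ZMod 3) (h : idx c = idx d) : c = d := by
  have h0 := ZMod.val_lt (c 0)
  have h1 := ZMod.val_lt (c 1)
  have h2 := ZMod.val_lt (c 2)
  have h3 := ZMod.val_lt (c 3)
  have h4 := ZMod.val_lt (c 4)
  have k0 := ZMod.val_lt (d 0)
  have k1 := ZMod.val_lt (d 1)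
  have k2 := ZMod.val_lt (d 2)
  have k3 := ZMod.val_lt (d 3)
  have k4 := ZMod.val_lt (d 4)
  unfold idx at h
  funext i
  apply ZMod.val_injective 3
  fin_cases i
  · show (c 0).val = (d 0).val
    omega
  · show (c 1).val = (d 1).val
    omega
  · show (c 2).val = (d 2).val
    omega
  · show (c 3).val = (d 3).val
    omega
  · show (c 4).val = (d 4).val
    omega

end T54M

open T54M

theorem specT54 : SpecT54 := by
  have hcov : ∀ c : Fin 5 → ZMod 3, ∃ l ∈ cls, (l.any (Nat.beq (idx c))) = true := by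
    intro c
    have h := List.all_eq_true.1 cover (idx c) (List.mem_range.2 (idx_lt c))
    exact List.any_eq_true.1 h
  have hlt : ∀ c : Fin 5 → ZMod 3, cls.findIdx (fun l => l.any (Nat.beq (idx c))) < cls.length :=
    fun c => List.findIdx_lt_length_of_exists (hcov c)
  refine ⟨fun c => cls.findIdx (fun l => l.any (Nat.beq (idx c))), fun c => ?_, ?_⟩
  · have := hlt c
    rw [len] at this
    exact this
  · intro c d hcd hK heq
    have hc := List.findIdx_getElem (w := hlt c)
    have hd := List.findIdx_getElem (w := hlt d)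
    have hd' : (cls[cls.findIdx (fun l => l.any (Nat.beq (idx c)))]'(hlt c)).any
        (Nat.beq (idx d)) = true := by
      have e : cls[cls.findIdx (fun l => l.any (Nat.beq (idx c)))]'(hlt c) =
          cls[cls.findIdx (fun l => l.any (Nat.beq (idx d)))]'(hlt d) := by
        congr 1
      rw [e]
      exact hd
    obtain ⟨l, hl⟩ : ∃ l, l = cls[cls.findIdx (fun l => l.any (Nat.beq (idx c)))]'(hlt c) :=
      ⟨_, rfl⟩
    rw [← hl] at hc hd'
    have hmem : l ∈ cls := by
      rw [hl]
      exact List.getElem_mem _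
    have hok := List.all_eq_true.1 ok_all l hmem
    obtain ⟨i, hi, hi'⟩ := List.any_eq_true.1 hc
    obtain ⟨j, hj, hj'⟩ := List.any_eq_true.1 hd'
    rw [nbeq] at hi' hj'
    subst hi' hj'
    have h1 := List.all_eq_true.1 hok _ hi
    have h2 := List.all_eq_true.1 h1 _ hj
    rw [Bool.or_eq_true, nbeq] at h2
    rcases h2 with h2 | h2
    · exact hcd (idx_inj c d h2)
    · rw [kb_idx c d hK] at h2
      exact Bool.noConfusion h2

end Pool.Agent.Lib.MP_b63a06_co.TR
end

section
/-!
# MP_b63a06_co, TR: the table T61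

The colour classes are lists of indices `c 0 + 3 c 1 + 9 c 2 + 27 c 3 + 81 c 4`; the kernel checks on
natural numbers that they cover everything and that no class contains a forbidden difference.
-/
set_option autoImplicit false
set_option linter.all false

namespace Pool.Agent.Lib.MP_b63a06_co.TR

namespace T61M

/-- the colour classes -/
def cls : List (List ℕ) :=
  [[7, 36, 71, 76], [177, 209, 226], [91, 95, 102, 168], [84, 127, 151, 158], [42, 52, 128, 194],
   [12, 29, 34, 78], [105, 109, 119, 147], [46, 50, 111, 204], [32, 198, 206, 211],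
   [89, 171, 175, 187], [3, 17, 20, 94], [173, 195, 212, 217], [197, 214, 227, 228],
   [108, 131, 145, 159], [18, 86, 163, 179], [1, 15, 99, 167], [191, 192, 202, 242],
   [55, 65, 156, 160], [11, 23, 88, 165], [56, 79, 138, 231], [169, 184, 200, 207],
   [10, 22, 27, 35], [75, 141, 155, 232], [31, 48, 116, 117], [6, 26, 28, 40],
   [178, 182, 201, 216], [25, 93, 101, 162], [41, 114, 190, 210], [59, 69, 153, 238],
   [4, 92, 170, 183], [185, 186, 189, 199], [58, 72, 143, 150], [98, 132, 136, 148],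
   [82, 129, 133, 146], [44, 51, 113, 208], [57, 142, 233, 234], [172, 196, 203, 213],
   [103, 110, 120, 134], [30, 47, 115, 125], [73, 144, 222, 239], [8, 9, 13, 106],
   [5, 16, 19, 174], [118, 123, 130, 140], [54, 152, 220, 236], [166, 176, 181, 240],
   [21, 33, 37, 74], [38, 45, 124, 193], [62, 135, 229, 241], [218, 223, 230, 237],
   [63, 67, 77, 224], [43, 53, 112, 126], [90, 107, 121, 137], [2, 39, 49, 61],
   [83, 96, 100, 122], [14, 85, 180, 188], [66, 70, 221, 235], [0, 24, 64, 68],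
   [60, 80, 157, 225], [87, 97, 104, 154], [81, 139, 149, 161], [164, 205, 215, 219]]

/-- the index of a vector -/
def idx (c : Fin 5 → ZMod 3) : ℕ :=
  (c 0).val + 3 * (c 1).val + 9 * (c 2).val + 27 * (c 3).val + 81 * (c 4).val

/-- difference of two digits -/
def df (a b : ℕ) : ℕ := (a % 3 + 3 - b % 3) % 3

/-- the pattern of a frame -/
def eeb (a b c : ℕ) : Bool :=
  (Nat.beq a 0 && Nat.beq b 0) || (Nat.beq a 0 && Nat.beq c 0) || (Nat.beq b 0 && Nat.beq c 0) ||
    (Nat.beq ((a + b + c) % 3) 0 && (Nat.beq a 0 || Nat.beq b 0 || Nat.beq c 0))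

/-- `K61` on digits -/
def kb (a b c d e : ℕ) : Bool := !(Nat.beq d 0 || Nat.beq e 0) || eeb a b c

/-- the class `l` is independent -/
def okl (l : List ℕ) : Bool :=
  l.all fun i => l.all fun j => Nat.beq i j ||
    !kb (df i j) (df (i / 3) (j / 3)) (df (i / 9) (j / 9)) (df (i / 27) (j / 27))
      (df (i / 81) (j / 81))

theorem ok_all : cls.all okl = true := by decide +kernel

theorem cover : ((List.range 243).all fun i => cls.any fun l => l.any (Nat.beq i)) = true := by
  decide +kernel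

theorem len : cls.length = 61 := by decide +kernel

theorem sub_val (a b : ZMod 3) : (a - b).val = df a.val b.val := by
  revert a b
  decide

theorem z_iff (a : ZMod 3) : a = 0 ↔ a.val = 0 := by
  revert a
  decide

theorem s_iff (a b c : ZMod 3) : a + b + c = 0 ↔ (a.val + b.val + c.val) % 3 = 0 := by
  revert a b c
  decide

theorem s_iff2 (a b : ZMod 3) : a + b = 0 ↔ (a.val + b.val) % 3 = 0 := by
  revert a b
  decide

theorem nbeq (a b : ℕ) : Nat.beq a b = true ↔ a = b :=
  ⟨Nat.eq_of_beq_eq_true, fun h => by subst h; exact Nat.beq_refl a⟩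

theorem eeb_iff (a b c : ZMod 3) : eeb a.val b.val c.val = true ↔ EE ![a, b, c] := by
  revert a b c
  decide

theorem kb_of (c : Fin 5 → ZMod 3) (h : K61 c) :
    kb (c 0).val (c 1).val (c 2).val (c 3).val (c 4).val = true := by
  unfold K61 at h
  unfold kb
  by_cases h3 : c 3 = 0 ∨ c 4 = 0
  · rw [(eeb_iff _ _ _).2 (h h3), Bool.or_true]
  · have e3 : Nat.beq (c 3).val 0 = false := by
      rw [← Bool.not_eq_true, nbeq, ← z_iff]
      exact fun h => h3 (Or.inl h)
    have e4 : Nat.beq (c 4).val 0 = false := by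
      rw [← Bool.not_eq_true, nbeq, ← z_iff]
      exact fun h => h3 (Or.inr h)
    rw [e3, e4]
    rfl

theorem idx_lt (c : Fin 5 → ZMod 3) : idx c < 243 := by
  have h0 := ZMod.val_lt (c 0)
  have h1 := ZMod.val_lt (c 1)
  have h2 := ZMod.val_lt (c 2)
  have h3 := ZMod.val_lt (c 3)
  have h4 := ZMod.val_lt (c 4)
  unfold idx
  omega

theorem kb_idx (c d : Fin 5 → ZMod 3) (h : K61 (c - d)) :
    kb (df (idx c) (idx d)) (df (idx c / 3) (idx d / 3)) (df (idx c / 9) (idx d / 9))
      (df (idx c / 27) (idx d / 27)) (df (idx c / 81) (idx d / 81)) = true := by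
  have h0 := ZMod.val_lt (c 0)
  have h1 := ZMod.val_lt (c 1)
  have h2 := ZMod.val_lt (c 2)
  have h3 := ZMod.val_lt (c 3)
  have h4 := ZMod.val_lt (c 4)
  have k0 := ZMod.val_lt (d 0)
  have k1 := ZMod.val_lt (d 1)
  have k2 := ZMod.val_lt (d 2)
  have k3 := ZMod.val_lt (d 3)
  have k4 := ZMod.val_lt (d 4)
  have e0 : df (idx c) (idx d) = ((c - d) 0).val := by
    rw [Pi.sub_apply, sub_val]; unfold df idx; omega
  have e1 : df (idx c / 3) (idx d / 3) = ((c - d) 1).val := by
    rw [Pi.sub_apply, sub_val]; unfold df idx; omega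
  have e2 : df (idx c / 9) (idx d / 9) = ((c - d) 2).val := by
    rw [Pi.sub_apply, sub_val]; unfold df idx; omega
  have e3 : df (idx c / 27) (idx d / 27) = ((c - d) 3).val := by
    rw [Pi.sub_apply, sub_val]; unfold df idx; omega
  have e4 : df (idx c / 81) (idx d / 81) = ((c - d) 4).val := by
    rw [Pi.sub_apply, sub_val]; unfold df idx; omega
  rw [e0, e1, e2, e3, e4]
  exact kb_of (c - d) h

theorem idx_inj (c d : Fin 5 → ZMod 3) (h : idx c = idx d) : c = d := by
  have h0 := ZMod.val_lt (c 0)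
  have h1 := ZMod.val_lt (c 1)
  have h2 := ZMod.val_lt (c 2)
  have h3 := ZMod.val_lt (c 3)
  have h4 := ZMod.val_lt (c 4)
  have k0 := ZMod.val_lt (d 0)
  have k1 := ZMod.val_lt (d 1)
  have k2 := ZMod.val_lt (d 2)
  have k3 := ZMod.val_lt (d 3)
  have k4 := ZMod.val_lt (d 4)
  unfold idx at h
  funext i
  apply ZMod.val_injective 3
  fin_cases i
  · show (c 0).val = (d 0).val
    omega
  · show (c 1).val = (d 1).val
    omega
  · show (c 2).val = (d 2).val
    omega
  · show (c 3).val = (d 3).val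
    omega
  · show (c 4).val = (d 4).val
    omega

end T61M

open T61M

theorem specT61 : SpecT61 := by
  have hcov : ∀ c : Fin 5 → ZMod 3, ∃ l ∈ cls, (l.any (Nat.beq (idx c))) = true := by
    intro c
    have h := List.all_eq_true.1 cover (idx c) (List.mem_range.2 (idx_lt c))
    exact List.any_eq_true.1 h
  have hlt : ∀ c : Fin 5 → ZMod 3, cls.findIdx (fun l => l.any (Nat.beq (idx c))) < cls.length :=
    fun c => List.findIdx_lt_length_of_exists (hcov c)
  refine ⟨fun c => cls.findIdx (fun l => l.any (Nat.beq (idx c))), fun c => ?_, ?_⟩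
  · have := hlt c
    rw [len] at this
    exact this
  · intro c d hcd hK heq
    have hc := List.findIdx_getElem (w := hlt c)
    have hd := List.findIdx_getElem (w := hlt d)
    have hd' : (cls[cls.findIdx (fun l => l.any (Nat.beq (idx c)))]'(hlt c)).any
        (Nat.beq (idx d)) = true := by
      have e : cls[cls.findIdx (fun l => l.any (Nat.beq (idx c)))]'(hlt c) =
          cls[cls.findIdx (fun l => l.any (Nat.beq (idx d)))]'(hlt d) := by
        congr 1
      rw [e]
      exact hd
    obtain ⟨l, hl⟩ : ∃ l, l = cls[cls.findIdx (fun l => l.any (Nat.beq (idx c)))]'(hlt c) :=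
      ⟨_, rfl⟩
    rw [← hl] at hc hd'
    have hmem : l ∈ cls := by
      rw [hl]
      exact List.getElem_mem _
    have hok := List.all_eq_true.1 ok_all l hmem
    obtain ⟨i, hi, hi'⟩ := List.any_eq_true.1 hc
    obtain ⟨j, hj, hj'⟩ := List.any_eq_true.1 hd'
    rw [nbeq] at hi' hj'
    subst hi' hj'
    have h1 := List.all_eq_true.1 hok _ hi
    have h2 := List.all_eq_true.1 h1 _ hj
    rw [Bool.or_eq_true, nbeq] at h2
    rcases h2 with h2 | h2
    · exact hcd (idx_inj c d h2)
    · rw [kb_idx c d hK] at h2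
      exact Bool.noConfusion h2

end Pool.Agent.Lib.MP_b63a06_co.TR
end

section
set_option autoImplicit false

/-!
# MP_b63a06_co, module T63 (helper80): a table with 63 colours

The table is checked class by class, on the codes `c 0 + 3 c 1 + 9 c 2 + 27 c 3 + 81 c 4` of the
vectors.
-/

namespace Pool.Agent.Lib.MP_b63a06_co.TR

namespace T63M

/-- the colours of the codes. -/
def tab : List ℕ :=
  [57, 35, 31, 40, 34, 55, 56, 5, 35, 18, 11, 59, 11, 59, 39, 54, 39, 54, 11, 19, 24, 51, 49,
   49, 10, 54, 19, 44, 6, 44, 14, 20, 51, 6, 55, 62, 53, 53, 38, 56, 4, 20, 23, 1, 56, 15, 18,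
   53, 34, 14, 34, 18, 15, 33, 41, 7, 29, 55, 57, 57, 52, 44, 43, 28, 30, 30, 47, 55, 37, 43,
   56, 46, 47, 44, 18, 57, 51, 14, 14, 34, 51, 60, 8, 22, 8, 60, 40, 35, 40, 27, 59, 54, 11,
   42, 40, 42, 27, 35, 31, 16, 24, 16, 60, 16, 31, 24, 10, 32, 27, 22, 8, 13, 62, 60, 62, 32,
   13, 1, 38, 23, 4, 25, 0, 38, 45, 4, 6, 32, 15, 0, 0, 25, 13, 62, 23, 29, 16, 52, 7, 9, 7,
   22, 27, 41, 8, 29, 45, 46, 28, 43, 45, 43, 52, 30, 25, 0, 25, 7, 46, 32, 9, 45, 48, 48, 36,
   5, 42, 5, 58, 50, 10, 24, 42, 19, 39, 5, 61, 21, 17, 17, 19, 59, 10, 21, 39, 26, 49, 3, 3,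
   38, 1, 6, 20, 58, 58, 33, 13, 20, 61, 15, 1, 58, 61, 53, 3, 23, 36, 33, 12, 2, 3, 2, 4, 17,
   33, 21, 12, 2, 26, 28, 29, 48, 9, 52, 9, 17, 47, 47, 30, 46, 28, 41, 37, 26, 2, 50, 12, 12,
   37, 36, 50, 21, 50]

/-- the colour classes. -/
def cls : List (List ℕ) :=
  [[122, 129, 130, 155], [43, 117, 190, 200], [209, 211, 217, 234], [187, 188, 204, 210],
   [40, 120, 125, 212], [7, 165, 167, 175], [28, 33, 126, 191], [55, 138, 140, 157],
   [82, 84, 110, 144], [139, 160, 222, 224], [24, 106, 170, 182], [10, 12, 18, 92],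
   [208, 216, 236, 237], [111, 116, 132, 196], [30, 49, 77, 78], [45, 52, 128, 199],
   [99, 101, 103, 136], [178, 179, 213, 225], [9, 46, 51, 74], [19, 26, 173, 180],
   [31, 41, 192, 197], [177, 183, 215, 241], [83, 109, 141], [42, 119, 134, 205],
   [20, 100, 105, 171], [121, 131, 154, 156], [185, 218, 233], [89, 96, 108, 142],
   [63, 148, 219, 230], [56, 135, 145, 220], [64, 65, 153, 228], [2, 98, 104],
   [107, 115, 127, 159], [53, 195, 207, 214], [4, 48, 50, 79], [1, 8, 87, 97],
   [164, 206, 239], [68, 232, 238], [38, 118, 123, 189], [14, 16, 174, 184], [3, 86, 88, 94],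
   [54, 143, 231], [93, 95, 166, 172], [62, 69, 149, 151], [27, 29, 61, 73],
   [124, 146, 150, 161], [71, 147, 158, 229], [66, 72, 226, 227], [162, 163, 221],
   [22, 23, 186], [169, 235, 240, 242], [21, 32, 76, 80], [60, 137, 152, 223],
   [36, 37, 47, 203], [15, 17, 25, 91], [5, 34, 57, 67], [6, 39, 44, 70], [0, 58, 59, 75],
   [168, 193, 194, 201], [11, 13, 90, 181], [81, 85, 102, 113], [176, 198, 202],
   [35, 112, 114, 133]]

/-- the code of a vector. -/
def enc (c : Fin 5 → ZMod 3) : ℕ :=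
  (c 0).val + 3 * (c 1).val + 9 * (c 2).val + 27 * (c 3).val + 81 * (c 4).val

/-- difference of two digits. -/
def sb (a b : ℕ) : ℕ := (a + 3 - b) % 3

/-- `EP` on digits. -/
def ep (z s t : ℕ) : Bool :=
  (z == 0 && (s == 0 || t == 0)) || (z != 0 && (s + t) % 3 == 0 && s != 0) || (s == t && s != 0)

/-- `K63` on codes. -/
def kk (n m : ℕ) : Bool :=
  !(sb (n / 27 % 3) (m / 27 % 3) == 0 || sb (n / 81 % 3) (m / 81 % 3) == 0) ||
    ep (sb (n % 3) (m % 3)) (sb (n / 3 % 3) (m / 3 % 3)) (sb (n / 9 % 3) (m / 9 % 3))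

theorem sb_val : ∀ a b : ZMod 3, (a - b).val = sb a.val b.val := by decide

theorem ep_val : ∀ z s t : ZMod 3, EP z s t → ep z.val s.val t.val = true := by decide

theorem val_zero : ∀ a : ZMod 3, a.val = 0 → a = 0 := by decide

theorem enc_lt (c : Fin 5 → ZMod 3) : enc c < 243 := by
  have h0 := (c 0).val_lt
  have h1 := (c 1).val_lt
  have h2 := (c 2).val_lt
  have h3 := (c 3).val_lt
  have h4 := (c 4).val_lt
  unfold enc
  omega

theorem enc_dig (c : Fin 5 → ZMod 3) : enc c % 3 = (c 0).val ∧ enc c / 3 % 3 = (c 1).val ∧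
    enc c / 9 % 3 = (c 2).val ∧ enc c / 27 % 3 = (c 3).val ∧ enc c / 81 % 3 = (c 4).val := by
  have h0 := (c 0).val_lt
  have h1 := (c 1).val_lt
  have h2 := (c 2).val_lt
  have h3 := (c 3).val_lt
  have h4 := (c 4).val_lt
  unfold enc
  refine ⟨?_, ?_, ?_, ?_, ?_⟩ <;> omega

theorem enc_inj (c d : Fin 5 → ZMod 3) (h : enc c = enc d) : c = d := by
  obtain ⟨a0, a1, a2, a3, a4⟩ := enc_dig c
  obtain ⟨b0, b1, b2, b3, b4⟩ := enc_dig d
  rw [h] at a0 a1 a2 a3 a4
  funext i
  apply ZMod.val_injective 3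
  fin_cases i
  · exact a0.symm.trans b0
  · exact a1.symm.trans b1
  · exact a2.symm.trans b2
  · exact a3.symm.trans b3
  · exact a4.symm.trans b4

theorem kk_of (c d : Fin 5 → ZMod 3) (h : K63 (c - d)) : kk (enc c) (enc d) = true := by
  obtain ⟨a0, a1, a2, a3, a4⟩ := enc_dig c
  obtain ⟨b0, b1, b2, b3, b4⟩ := enc_dig d
  unfold kk
  rw [a0, a1, a2, a3, a4, b0, b1, b2, b3, b4, ← sb_val, ← sb_val, ← sb_val, ← sb_val, ← sb_val]
  by_cases hz : (c 3 - d 3).val = 0 ∨ (c 4 - d 4).val = 0
  · have he : EP (c 0 - d 0) (c 1 - d 1) (c 2 - d 2) := by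
      apply h
      rcases hz with hz | hz
      · exact Or.inl (val_zero _ hz)
      · exact Or.inr (val_zero _ hz)
    rw [ep_val _ _ _ he]
    simp
  · push Not at hz
    simp [hz.1, hz.2]

/-- every code is in the class of its colour, and there are 63 colours. -/
theorem chk1 : ((List.range 243).all fun n =>
    (cls.getD (tab.getD n 0) []).contains n && Nat.blt (tab.getD n 0) 63) = true := by
  decide +kernel

/-- no forbidden differences in a class. -/
theorem chk2 : (cls.all fun l => l.all fun n => l.all fun m => n == m || !kk n m) = true := by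
  decide +kernel

theorem mem_cls (n : ℕ) (hn : n < 243) : n ∈ cls.getD (tab.getD n 0) [] ∧ tab.getD n 0 < 63 := by
  have h := List.all_eq_true.1 chk1 n (List.mem_range.2 hn)
  rw [Bool.and_eq_true] at h
  refine ⟨?_, ?_⟩
  · simpa using h.1
  · simpa using h.2

theorem pair (l : List ℕ) (hl : l ∈ cls) (n m : ℕ) (hn : n ∈ l) (hm : m ∈ l) (hnm : n ≠ m) :
    kk n m = false := by
  have h := List.all_eq_true.1 (List.all_eq_true.1 (List.all_eq_true.1 chk2 l hl) n hn) m hm
  simpa [hnm] using h

end T63M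

open T63M in
theorem specT63 : SpecT63 := by
  refine ⟨fun c => tab.getD (enc c) 0, fun c => (mem_cls _ (enc_lt c)).2, ?_⟩
  intro c d hcd hk he
  have hc := (mem_cls _ (enc_lt c)).1
  have hd := (mem_cls _ (enc_lt d)).1
  have he' : tab.getD (enc c) 0 = tab.getD (enc d) 0 := he
  rw [← he'] at hd
  have hlt : tab.getD (enc c) 0 < cls.length := lt_of_lt_of_eq (mem_cls _ (enc_lt c)).2 (by decide)
  have hl : cls.getD (tab.getD (enc c) 0) [] ∈ cls := by
    rw [List.getD_eq_getElem _ _ hlt]
    exact List.getElem_mem hlt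
  have := pair _ hl _ _ hc hd (fun h => hcd (enc_inj c d h))
  rw [kk_of c d hk] at this
  exact absurd this (by decide)

end Pool.Agent.Lib.MP_b63a06_co.TR
end
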