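import Pool.Agent.Lib.MP_b63a06_co.TR.SpecA

section
set_option autoImplicit false

/-!
# MP_b63a06_co, P4: all hyperplanes are good
-/

namespace Pool.Agent.Lib.MP_b63a06_co.TR

namespace P4M

variable {V : Type} [AddCommGroup V] [Module (ZMod 3) V]

theorem three (c : ZMod 3) : c = 0 ∨ c = 1 ∨ c = -1 := by
  revert c; decide

/-- the number of elements in a coset. -/
theorem ncard_B (A : Set V) (W : Submodule (ZMod 3) V) (v : V) :
    ({w : W | v + (w : V) ∈ A} : Set W).ncard = (cs A W v).ncard := by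
  have himg : cs A W v = (fun w : W => v + (w : V)) '' {w : W | v + (w : V) ∈ A} := by
    ext a
    constructor
    · rintro ⟨ha, hw⟩
      refine ⟨⟨a - v, hw⟩, ?_, ?_⟩
      · show v + (a - v) ∈ A
        rwa [add_sub_cancel]
      · show v + (a - v) = a
        rw [add_sub_cancel]
    · rintro ⟨w, hw, rfl⟩
      refine ⟨hw, ?_⟩
      show v + (w : V) - v ∈ W
      rw [add_sub_cancel_left]
      exact w.2
  rw [himg, Set.ncard_image_of_injective]
  intro w w' h
  have h1 : v + (w : V) = v + (w' : V) := h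
  exact Subtype.ext (add_left_cancel h1)

theorem card_nine_or (W : Submodule (ZMod 3) V) [Finite V] (h : 9 ≤ Nat.card W) :
    Nat.card W = 9 ∨ 27 ≤ Nat.card W := by
  have h1 : Nat.card W = 3 ^ Module.finrank (ZMod 3) W := by
    rw [Module.natCard_eq_pow_finrank (K := ZMod 3) (V := W), Nat.card_zmod]
  rw [h1] at h ⊢
  obtain ⟨k, hk⟩ : ∃ k, k = Module.finrank (ZMod 3) W := ⟨_, rfl⟩
  rw [← hk] at h ⊢
  rcases lt_trichotomy k 2 with h2 | h2 | h2
  · exfalso
    have : 3 ^ k ≤ 3 ^ 1 := Nat.pow_le_pow_right (by norm_num) (by omega)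
    omega
  · left
    rw [h2]
    norm_num
  · right
    have : 3 ^ 3 ≤ 3 ^ k := Nat.pow_le_pow_right (by norm_num) (by omega)
    omega

/-- counting. -/
theorem sum_lower (N : ZMod 3 × ZMod 3 → ℕ) (Bd : Finset (ZMod 3 × ZMod 3)) (h1 : ∀ p, 1 ≤ N p)
    (h4 : ∀ p ∈ Bd, 4 ≤ N p) : 9 + 3 * Bd.card ≤ ∑ p, N p := by
  have h5 : ∑ p : ZMod 3 × ZMod 3, (1 + if p ∈ Bd then 3 else 0) ≤ ∑ p, N p := by
    refine Finset.sum_le_sum fun p _ => ?_
    split_ifs with h
    · exact h4 p h
    · exact h1 p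
  have h6 : ∑ p : ZMod 3 × ZMod 3, (1 + if p ∈ Bd then 3 else 0) = 9 + 3 * Bd.card := by
    rw [Finset.sum_add_distrib, Finset.sum_ite_mem, Finset.univ_inter, Finset.sum_const,
      Finset.sum_const, smul_eq_mul, smul_eq_mul, mul_one, mul_comm Bd.card 3]
    congr 1
  omega

end P4M

open P4M

theorem specP4 (hP3 : SpecP3) (hP4B : SpecP4B) (hP4C : SpecP4C) (hP4D : SpecP4D)
    (hSPN : SpecSPN) (hEXF : SpecEXF) (hYSM : SpecYSM) (hCBA : SpecCBA) : SpecP4 := by
  classical
  intro V _ _ _ A hA hQ W s t hC hW y hy hall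
  obtain ⟨hind, -, -, -⟩ := hCBA V A hA W s t hC
  obtain ⟨hmem, hcount⟩ := hYSM V A W s t
  have hcount' := hcount hind y
  have hind3 : ∀ a b c : ZMod 3, a • s + b • t + c • y ∈ W → a = 0 ∧ b = 0 ∧ c = 0 := by
    intro a b c h
    rcases three c with rfl | rfl | rfl
    · rw [zero_smul, add_zero] at h
      obtain ⟨h1, h2⟩ := hind a b h
      exact ⟨h1, h2, rfl⟩
    · exfalso
      apply hy
      rw [hmem]
      refine ⟨-a, -b, ?_⟩
      have : y - (-a) • s - (-b) • t = a • s + b • t + (1 : ZMod 3) • y := by module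
      rwa [this]
    · exfalso
      apply hy
      rw [hmem]
      refine ⟨a, b, ?_⟩
      have : y - a • s - b • t = -(a • s + b • t + (-1 : ZMod 3) • y) := by module
      rw [this]
      exact W.neg_mem h
  by_contra hT
  have hT17 : (cs A (FF W s t) y).ncard ≤ 17 := by omega
  obtain ⟨N, hN⟩ : ∃ N : ZMod 3 × ZMod 3 → ℕ,
      N = fun p => (cs A W (y + p.1 • s + p.2 • t)).ncard := ⟨_, rfl⟩
  have hNp : ∀ a b, N (a, b) = (cs A W (y + a • s + b • t)).ncard := fun a b => by rw [hN]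
  obtain ⟨Bd, hBd⟩ : ∃ Bd : Finset (ZMod 3 × ZMod 3),
      Bd = Finset.univ.filter (fun p => y + p.1 • s + p.2 • t ∉ A) := ⟨_, rfl⟩
  have hBdm : ∀ a b, (a, b) ∈ Bd ↔ y + a • s + b • t ∉ A := fun a b => by
    rw [hBd]; simp
  have hsum : (cs A (FF W s t) y).ncard = ∑ p, N p := by
    rw [hcount', Fintype.sum_prod_type]
    refine Finset.sum_congr rfl fun a _ => Finset.sum_congr rfl fun b _ => ?_
    rw [hNp]
  have h1 : ∀ p, 1 ≤ N p := by
    rintro ⟨a, b⟩
    rw [hNp]
    obtain ⟨w, hw, -, hwA⟩ := hall 0 rfl rfl rfl a b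
    have hne : (cs A W (y + a • s + b • t)).Nonempty :=
      ⟨_, hwA, by rw [add_sub_cancel_left]; exact hw⟩
    exact (Set.ncard_pos (Set.toFinite _)).mpr hne
  have h4 : ∀ p ∈ Bd, 4 ≤ N p := by
    rintro ⟨a, b⟩ hp
    rw [hBdm] at hp
    rw [hNp, ← ncard_B]
    refine hSPN W _ ?_ ?_
    · intro h0
      have : y + a • s + b • t + ((0 : W) : V) ∈ A := h0
      rw [Submodule.coe_zero, add_zero] at this
      exact hp this
    · intro f
      obtain ⟨φ, hφ, hφs, hφt, hφy⟩ := hEXF V W s t y hind3 f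
      obtain ⟨w, hw, hw0, hwA⟩ := hall φ hφs hφt hφy a b
      exact ⟨⟨w, hw⟩, hwA, by rw [← hφ]; exact hw0⟩
  have h5 := sum_lower N Bd h1 h4
  rw [← hsum] at h5
  have hcard : Bd.card = 0 ∨ Bd.card = 1 ∨ Bd.card = 2 := by omega
  rcases hcard with hc | hc | hc
  · have hemp : Bd = ∅ := Finset.card_eq_zero.mp hc
    have h6 := hP3 V A hA hQ W s t hC hW y hy
    have h7 : {p : ZMod 3 × ZMod 3 | y + p.1 • s + p.2 • t ∈ A} = Set.univ := by
      rw [Set.eq_univ_iff_forall]
      rintro ⟨a, b⟩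
      by_contra hcon
      have : (a, b) ∈ Bd := (hBdm a b).mpr hcon
      rw [hemp] at this
      simp at this
    rw [h7, Set.ncard_univ] at h6
    have h8 : Nat.card (ZMod 3 × ZMod 3) = 9 := by
      rw [Nat.card_prod, Nat.card_zmod]
    omega
  · obtain ⟨⟨a₁, b₁⟩, hp1⟩ := Finset.card_eq_one.mp hc
    have hiff : ∀ a b : ZMod 3, y + a • s + b • t ∈ A ↔ ¬ (a = a₁ ∧ b = b₁) := by
      intro a b
      have h6 := hBdm a b
      rw [hp1, Finset.mem_singleton, Prod.mk.injEq] at h6
      rw [h6, not_not]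
    have h6 := hP4B V A hA hQ W s t hC hW y hy a₁ b₁ (by
      rw [← hNp]
      exact h4 _ (by rw [hp1]; exact Finset.mem_singleton_self _)) hiff
    omega
  · obtain ⟨⟨a₁, b₁⟩, ⟨a₂, b₂⟩, hne, hp2⟩ := Finset.card_eq_two.mp hc
    have hne' : ¬ (a₁ = a₂ ∧ b₁ = b₂) := fun h => hne (by rw [h.1, h.2])
    have hiff : ∀ a b : ZMod 3, y + a • s + b • t ∈ A ↔
        ¬ (a = a₁ ∧ b = b₁) ∧ ¬ (a = a₂ ∧ b = b₂) := by
      intro a b
      have h6 := hBdm a b
      rw [hp2, Finset.mem_insert, Finset.mem_singleton, Prod.mk.injEq, Prod.mk.injEq] at h6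
      rw [← not_or, h6, not_not]
    have g1 : 4 ≤ (cs A W (y + a₁ • s + b₁ • t)).ncard := by
      rw [← hNp]
      exact h4 _ (by rw [hp2]; simp)
    have g2 : 4 ≤ (cs A W (y + a₂ • s + b₂ • t)).ncard := by
      rw [← hNp]
      exact h4 _ (by rw [hp2]; simp)
    rcases card_nine_or W hW with h9 | h27
    · have h6 := hP4D V A hA hQ W s t hC h9 y hy a₁ b₁ a₂ b₂ hne' hiff hall
      omega
    · have h6 := hP4C V A hA hQ W s t hC h27 y hy a₁ b₁ a₂ b₂ hne' g1 g2 hiff
      omega

end Pool.Agent.Lib.MP_b63a06_co.TR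
end

section
/-!
# MP_b63a06_co, module P4B (helper70): exactly one position without index 0
-/
set_option autoImplicit false

namespace Pool.Agent.Lib.MP_b63a06_co.TR

namespace P4BM

variable {V : Type} [AddCommGroup V] [Module (ZMod 3) V]

theorem mem_FF (W : Submodule (ZMod 3) V) (s t : V) (a b : ZMod 3) (w : V) (hw : w ∈ W) :
    a • s + b • t + w ∈ FF W s t := by
  unfold FF
  have hs : s ∈ Submodule.span (ZMod 3) ({s, t} : Set V) := Submodule.subset_span (by simp)
  have ht : t ∈ Submodule.span (ZMod 3) ({s, t} : Set V) := Submodule.subset_span (by simp)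
  refine Submodule.add_mem _ (Submodule.add_mem _ ?_ ?_) (Submodule.mem_sup_left hw)
  · exact Submodule.smul_mem _ _ (Submodule.mem_sup_right hs)
  · exact Submodule.smul_mem _ _ (Submodule.mem_sup_right ht)

omit [AddCommGroup V] [Module (ZMod 3) V] in
theorem split [Finite V] (Y : Set V) (P : V → Prop) :
    {x | x ∈ Y ∧ P x}.ncard + {x | x ∈ Y ∧ ¬ P x}.ncard = Y.ncard := by
  have h := Set.ncard_inter_add_ncard_sdiff_eq_ncard Y {x | P x} (Set.toFinite _)
  exact h

/-- The points and the elements of one position in the common kernel. -/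
theorem low [Finite V] (A : Set V) (W : Submodule (ZMod 3) V) (s t y : V)
    (ind : ∀ a b : ZMod 3, a • s + b • t ∈ W → a = 0 ∧ b = 0)
    (φ ψ : V →ₗ[ZMod 3] ZMod 3) (hφs : φ s = 0) (hφt : φ t = 0) (hφy : φ y = 0)
    (hψs : ψ s = 0) (hψt : ψ t = 0) (hψy : ψ y = 0) (a₁ b₁ : ZMod 3)
    (S : Finset (ZMod 3 × ZMod 3)) (hS : ∀ p ∈ S, y + p.1 • s + p.2 • t ∈ A)
    (h1 : (a₁, b₁) ∉ S) :
    S.card + {w | w ∈ {w | w ∈ W ∧ y + a₁ • s + b₁ • t + w ∈ A} ∧ (φ w = 0 ∧ ψ w = 0)}.ncard ≤
      {x | x ∈ cs A (FF W s t) y ∧ (φ x = 0 ∧ ψ x = 0)}.ncard := by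
  classical
  have inj1 : Function.Injective (fun p : ZMod 3 × ZMod 3 => y + p.1 • s + p.2 • t) := by
    intro p q h
    have h2 : y + p.1 • s + p.2 • t = y + q.1 • s + q.2 • t := h
    have h3 : (p.1 - q.1) • s + (p.2 - q.2) • t = 0 := by
      have : (p.1 - q.1) • s + (p.2 - q.2) • t =
          (y + p.1 • s + p.2 • t) - (y + q.1 • s + q.2 • t) := by
        rw [sub_smul, sub_smul]
        abel
      rw [this, h2, sub_self]
    have h4 := ind _ _ (h3 ▸ W.zero_mem)
    exact Prod.ext (sub_eq_zero.1 h4.1) (sub_eq_zero.1 h4.2)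
  have inj2 : Function.Injective (fun w : V => y + a₁ • s + b₁ • t + w) :=
    add_right_injective _
  rw [← Set.ncard_coe_finset S, ← Set.ncard_image_of_injective (S : Set (ZMod 3 × ZMod 3)) inj1,
    ← Set.ncard_image_of_injective
      {w | w ∈ {w | w ∈ W ∧ y + a₁ • s + b₁ • t + w ∈ A} ∧ (φ w = 0 ∧ ψ w = 0)} inj2]
  rw [← Set.ncard_union_eq ?_ (Set.toFinite _) (Set.toFinite _)]
  · refine Set.ncard_le_ncard ?_ (Set.toFinite _)
    rintro x (⟨p, hp, rfl⟩ | ⟨w, ⟨⟨hw, hwA⟩, hw1, hw2⟩, rfl⟩)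
    · refine ⟨⟨hS p hp, ?_⟩, ?_, ?_⟩
      · have := mem_FF W s t p.1 p.2 0 W.zero_mem
        have e : y + p.1 • s + p.2 • t - y = p.1 • s + p.2 • t + 0 := by abel
        simpa only [e] using this
      · simp [hφs, hφt, hφy]
      · simp [hψs, hψt, hψy]
    · refine ⟨⟨hwA, ?_⟩, ?_, ?_⟩
      · have := mem_FF W s t a₁ b₁ w hw
        have e : y + a₁ • s + b₁ • t + w - y = a₁ • s + b₁ • t + w := by abel
        simpa only [e] using this
      · simp [hφs, hφt, hφy, hw1]
      · simp [hψs, hψt, hψy, hw2]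
  · rw [Set.disjoint_left]
    rintro x ⟨p, hp, rfl⟩ ⟨w, ⟨⟨hw, hwA⟩, hw1, hw2⟩, he⟩
    have he' : y + a₁ • s + b₁ • t + w = y + p.1 • s + p.2 • t := he
    have h3 : (p.1 - a₁) • s + (p.2 - b₁) • t = w := by
      have : (p.1 - a₁) • s + (p.2 - b₁) • t =
          (y + p.1 • s + p.2 • t) - (y + a₁ • s + b₁ • t) := by
        rw [sub_smul, sub_smul]
        abel
      rw [this, ← he']
      abel
    have h4 := ind _ _ (h3 ▸ hw)
    have h5 : p = (a₁, b₁) := Prod.ext (sub_eq_zero.1 h4.1) (sub_eq_zero.1 h4.2)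
    exact h1 (h5 ▸ hp)

/-- The sum over the eight hyperplanes. -/
theorem sums (hP2 : SpecP2) (hP8 : SpecP8) [Finite V] (A : Set V) (hA : Sy A) (hQ : QR A)
    (W : Submodule (ZMod 3) V) (s t : V) (hC : Conf A W s t) (h9 : 9 ≤ Nat.card W) (y : V)
    (φ ψ : V →ₗ[ZMod 3] ZMod 3) (hφs : φ s = 0) (hφt : φ t = 0) (hφy : φ y = 0)
    (hψs : ψ s = 0) (hψt : ψ t = 0) (hψy : ψ y = 0)
    (hind : ∀ a b : ZMod 3, (∀ w ∈ W, (a • φ + b • ψ) w = 0) → a = 0 ∧ b = 0) (a₁ b₁ : ZMod 3) :
    16 + 3 * {x | x ∈ {w | w ∈ W ∧ y + a₁ • s + b₁ • t + w ∈ A} ∧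
      ¬ (φ x = 0 ∧ ψ x = 0)}.ncard ≤
    3 * {x | x ∈ cs A (FF W s t) y ∧ ¬ (φ x = 0 ∧ ψ x = 0)}.ncard := by
  classical
  rw [← hP8 V (cs A (FF W s t) y) φ ψ,
    ← hP8 V {w | w ∈ W ∧ y + a₁ • s + b₁ • t + w ∈ A} φ ψ]
  have hpt : ∀ p : ZMod 3 × ZMod 3, (if p = 0 then 0 else 2) +
      {x | x ∈ {w | w ∈ W ∧ y + a₁ • s + b₁ • t + w ∈ A} ∧ (p.1 • φ + p.2 • ψ) x = 1}.ncard ≤
      {x | x ∈ cs A (FF W s t) y ∧ (p.1 • φ + p.2 • ψ) x = 1}.ncard := by
    intro p
    by_cases hp : p = 0
    · subst hp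
      have e : {x : V | x ∈ {w | w ∈ W ∧ y + a₁ • s + b₁ • t + w ∈ A} ∧
          ((0 : ZMod 3 × ZMod 3).1 • φ + (0 : ZMod 3 × ZMod 3).2 • ψ) x = 1} = ∅ := by
        ext x
        simp
      rw [e, Set.ncard_empty]
      simp
    · rw [if_neg hp]
      have hχ : ∃ w ∈ W, (p.1 • φ + p.2 • ψ) w ≠ 0 := by
        by_contra hc
        push Not at hc
        obtain ⟨h1, h2⟩ := hind _ _ hc
        exact hp (Prod.ext h1 h2)
      obtain ⟨h3, ha⟩ := hP2 V A hA hQ W s t hC h9 y (p.1 • φ + p.2 • ψ) 1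
        (by simp [hφs, hψs]) (by simp [hφt, hψt]) (by simp [hφy, hψy]) hχ
      have e1 : EC A W s t y (p.1 • φ + p.2 • ψ) 1 =
          {x | x ∈ cs A (FF W s t) y ∧ (p.1 • φ + p.2 • ψ) x = 1}.ncard := by
        unfold EC
        congr 1
        ext x
        exact and_assoc.symm
      have e2 : {w | w ∈ W ∧ (p.1 • φ + p.2 • ψ) w = 1 ∧ y + a₁ • s + b₁ • t + w ∈ A} =
          {x | x ∈ {w | w ∈ W ∧ y + a₁ • s + b₁ • t + w ∈ A} ∧ (p.1 • φ + p.2 • ψ) x = 1} := by
        ext x
        constructor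
        · rintro ⟨h1, h2, h3⟩
          exact ⟨⟨h1, h3⟩, h2⟩
        · rintro ⟨⟨h1, h3⟩, h2⟩
          exact ⟨h1, h2, h3⟩
      rw [← e1]
      by_cases hex : ∃ w ∈ W, (p.1 • φ + p.2 • ψ) w = 1 ∧ y + a₁ • s + b₁ • t + w ∈ A
      · have := ha a₁ b₁ hex
        rw [e2] at this
        omega
      · have : {x | x ∈ {w | w ∈ W ∧ y + a₁ • s + b₁ • t + w ∈ A} ∧
            (p.1 • φ + p.2 • ψ) x = 1} = ∅ := by
          ext x
          simp only [Set.mem_empty_iff_false, iff_false]
          rintro ⟨⟨h1, h3⟩, h2⟩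
          exact hex ⟨x, h1, h2, h3⟩
        rw [this, Set.ncard_empty]
        omega
  have hsum := Finset.sum_le_sum fun p (_ : p ∈ Finset.univ) => hpt p
  rw [Finset.sum_add_distrib] at hsum
  have h16 : (∑ p : ZMod 3 × ZMod 3, if p = 0 then 0 else 2) = 16 := by
    decide
  rw [h16] at hsum
  exact hsum

end P4BM

open P4BM in
theorem specP4B (hCBA : SpecCBA) (hP2 : SpecP2) (hP8 : SpecP8) (hEX2 : SpecEX2) : SpecP4B := by
  classical
  intro V _ _ _ A hA hQ W s t hC h9 y hy a₁ b₁ h4 hpts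
  obtain ⟨ind, -, -, -⟩ := hCBA V A hA W s t hC
  obtain ⟨φ, ψ, hφs, hφt, hφy, hψs, hψt, hψy, -, -, hind⟩ :=
    hEX2 V A hA W s t hC y hy 0 W.zero_mem (Or.inl ⟨h9, rfl⟩)
  have hs := sums hP2 hP8 A hA hQ W s t hC h9 y φ ψ hφs hφt hφy hψs hψt hψy hind a₁ b₁
  have hl := low A W s t y ind φ ψ hφs hφt hφy hψs hψt hψy a₁ b₁
    (Finset.univ.erase (a₁, b₁)) (by
      intro p hp
      refine (hpts p.1 p.2).2 ?_
      rintro ⟨h1, h2⟩
      exact (Finset.mem_erase.1 hp).1 (Prod.ext h1 h2)) (by simp)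
  rw [Finset.card_erase_of_mem (Finset.mem_univ _)] at hl
  have hc9 : (Finset.univ : Finset (ZMod 3 × ZMod 3)).card = 9 := by decide
  rw [hc9] at hl
  have hT := split (cs A (FF W s t) y) (fun x => φ x = 0 ∧ ψ x = 0)
  have hB := split {w | w ∈ W ∧ y + a₁ • s + b₁ • t + w ∈ A} (fun x => φ x = 0 ∧ ψ x = 0)
  have hm : (cs A W (y + a₁ • s + b₁ • t)).ncard =
      {w | w ∈ W ∧ y + a₁ • s + b₁ • t + w ∈ A}.ncard := by
    rw [← Set.ncard_image_of_injective {w | w ∈ W ∧ y + a₁ • s + b₁ • t + w ∈ A}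
      (add_right_injective (y + a₁ • s + b₁ • t))]
    congr 1
    ext x
    constructor
    · rintro ⟨h1, h2⟩
      exact ⟨x - (y + a₁ • s + b₁ • t), ⟨h2, by simpa using h1⟩, by simp⟩
    · rintro ⟨w, ⟨h1, h2⟩, rfl⟩
      exact ⟨h2, by simpa using h1⟩
  rw [hm] at h4
  omega

end Pool.Agent.Lib.MP_b63a06_co.TR
end

section
set_option autoImplicit false

/-!
# MP_b63a06_co, module P4C (helper30): two positions without index 0, `|W| ≥ 27`

`P4CM.core` is the common counting argument of P4B and P4C.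
-/

namespace Pool.Agent.Lib.MP_b63a06_co.TR

namespace P4CM

variable {V : Type} [AddCommGroup V] [Module (ZMod 3) V]

theorem cs_le {A : Set V} {W : Submodule (ZMod 3) V} {s t y : V} (a b : ZMod 3) :
    cs A W (y + a • s + b • t) ⊆ cs A (FF W s t) y := by
  rintro x ⟨hx, hw⟩
  refine ⟨hx, ?_⟩
  have h1 : x - y = (x - (y + a • s + b • t)) + (a • s + b • t) := by abel
  rw [h1]
  refine Submodule.add_mem _ (Submodule.mem_sup_left hw) (Submodule.mem_sup_right ?_)
  exact Submodule.mem_span_pair.2 ⟨a, b, rfl⟩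

theorem split_ncard [Finite V] (Y : Set V) (Q : V → Prop) :
    {x | x ∈ Y ∧ ¬ Q x}.ncard + {x | x ∈ Y ∧ Q x}.ncard = Y.ncard := by
  rw [← Set.ncard_union_eq _ (Set.toFinite _) (Set.toFinite _)]
  · congr 1
    ext x
    simp only [Set.mem_union, Set.mem_setOf_eq]
    tauto
  · rw [Set.disjoint_left]
    rintro x ⟨_, h1⟩ ⟨_, h2⟩
    exact h1 h2

/-- The counting argument of P4B and P4C. -/
theorem core [Finite V] (hP2 : SpecP2) (hP8 : SpecP8) {A : Set V} (hA : Sy A) (hQ : QR A)
    {W : Submodule (ZMod 3) V} {s t : V} (hc : Conf A W s t) (h9 : 9 ≤ Nat.card W) (y : V)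
    (φ ψ : V →ₗ[ZMod 3] ZMod 3) (hs : φ s = 0) (ht : φ t = 0) (hy : φ y = 0)
    (hs' : ψ s = 0) (ht' : ψ t = 0) (hy' : ψ y = 0)
    (ind : ∀ a b : ZMod 3, (∀ w ∈ W, (a • φ + b • ψ) w = 0) → a = 0 ∧ b = 0)
    (a₁ b₁ : ZMod 3) (Z : Set V)
    (hZ : ∀ x ∈ Z, x ∈ cs A (FF W s t) y ∧ (φ x = 0 ∧ ψ x = 0) ∧
      x ∉ cs A W (y + a₁ • s + b₁ • t)) :
    6 + (cs A W (y + a₁ • s + b₁ • t)).ncard + Z.ncard ≤ (cs A (FF W s t) y).ncard := by
  classical
  set Y := cs A (FF W s t) y with hYd
  set B := cs A W (y + a₁ • s + b₁ • t) with hBd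
  have hBY : B ⊆ Y := cs_le a₁ b₁
  have e1 := hP8 V Y φ ψ
  have e2 := hP8 V B φ ψ
  have e3 := split_ncard Y (fun x => φ x = 0 ∧ ψ x = 0)
  have e4 := split_ncard B (fun x => φ x = 0 ∧ ψ x = 0)
  have e5 : {x | x ∈ B ∧ (φ x = 0 ∧ ψ x = 0)}.ncard + Z.ncard ≤
      {x | x ∈ Y ∧ (φ x = 0 ∧ ψ x = 0)}.ncard := by
    rw [← Set.ncard_union_eq _ (Set.toFinite _) (Set.toFinite _)]
    · refine Set.ncard_le_ncard ?_ (Set.toFinite _)
      rintro x (⟨h1, h2⟩ | h1)
      · exact ⟨hBY h1, h2⟩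
      · exact ⟨(hZ x h1).1, (hZ x h1).2.1⟩
    · rw [Set.disjoint_left]
      rintro x ⟨h1, _⟩ h2
      exact (hZ x h2).2.2 h1
  -- the bound for one functional
  have hp : ∀ p : ZMod 3 × ZMod 3, {x | x ∈ B ∧ (p.1 • φ + p.2 • ψ) x = 1}.ncard +
      (if p = 0 then 0 else 2) ≤ {x | x ∈ Y ∧ (p.1 • φ + p.2 • ψ) x = 1}.ncard := by
    intro p
    by_cases h0 : p = 0
    · rw [if_pos h0, add_zero]
      refine Set.ncard_le_ncard ?_ (Set.toFinite _)
      rintro x ⟨h1, h2⟩
      exact ⟨hBY h1, h2⟩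
    · rw [if_neg h0]
      set χ : V →ₗ[ZMod 3] ZMod 3 := p.1 • φ + p.2 • ψ with hχ
      have c1 : χ s = 0 := by simp [hχ, hs, hs']
      have c2 : χ t = 0 := by simp [hχ, ht, ht']
      have c3 : χ y = 0 := by simp [hχ, hy, hy']
      have c4 : ∃ w ∈ W, χ w ≠ 0 := by
        by_contra hcon
        push Not at hcon
        exact h0 (Prod.ext_iff.2 (ind p.1 p.2 hcon))
      obtain ⟨q1, q2⟩ := hP2 V A hA hQ W s t hc h9 y χ 1 c1 c2 c3 c4
      have hE : EC A W s t y χ 1 = {x | x ∈ Y ∧ χ x = 1}.ncard := by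
        unfold EC
        congr 1
        ext x
        simp only [Set.mem_setOf_eq, hYd, cs, and_assoc]
      have hB : {w | w ∈ W ∧ χ w = 1 ∧ y + a₁ • s + b₁ • t + w ∈ A}.ncard =
          {x | x ∈ B ∧ χ x = 1}.ncard := by
        rw [← Set.ncard_image_of_injective _ (add_right_injective (y + a₁ • s + b₁ • t))]
        congr 1
        ext x
        simp only [Set.mem_image, Set.mem_setOf_eq, hBd, cs]
        constructor
        · rintro ⟨w, ⟨h1, h2, h3⟩, rfl⟩
          refine ⟨⟨h3, by simpa using h1⟩, ?_⟩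
          simp [c1, c2, c3, h2]
        · rintro ⟨⟨h1, h2⟩, h3⟩
          refine ⟨x - (y + a₁ • s + b₁ • t), ⟨h2, ?_, by simpa using h1⟩, by abel⟩
          simp [c1, c2, c3, h3]
      rw [hE] at q1 q2
      rcases Nat.eq_zero_or_pos {x | x ∈ B ∧ χ x = 1}.ncard with h | h
      · omega
      · have q3 := q2 a₁ b₁ (by
          rw [← hB] at h
          obtain ⟨w, hw⟩ := (Set.ncard_pos (Set.toFinite _)).1 h
          exact ⟨w, hw.1, hw.2⟩)
        rw [hB] at q3
        exact q3
  have hsum := Finset.sum_le_sum fun (p : ZMod 3 × ZMod 3) (_ : p ∈ Finset.univ) => hp p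
  rw [Finset.sum_add_distrib, e1, e2] at hsum
  have h16 : (∑ p : ZMod 3 × ZMod 3, if p = 0 then 0 else 2) = 16 := by decide
  rw [h16] at hsum
  omega

theorem seven (p₁ p₂ : ZMod 3 × ZMod 3) : 7 ≤ {p : ZMod 3 × ZMod 3 | p ≠ p₁ ∧ p ≠ p₂}.ncard := by
  classical
  have h : {p : ZMod 3 × ZMod 3 | p ≠ p₁ ∧ p ≠ p₂} =
      (((Finset.univ.erase p₁).erase p₂ : Finset (ZMod 3 × ZMod 3)) : Set (ZMod 3 × ZMod 3)) := by
    ext p
    simp
  rw [h, Set.ncard_coe_finset]
  have h1 := Finset.pred_card_le_card_erase (s := (Finset.univ.erase p₁)) (a := p₂)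
  have h2 := Finset.pred_card_le_card_erase (s := (Finset.univ : Finset (ZMod 3 × ZMod 3)))
    (a := p₁)
  have h3 : (Finset.univ : Finset (ZMod 3 × ZMod 3)).card = 9 := by decide
  omega

end P4CM

theorem specP4C (hP2 : SpecP2) (hP8 : SpecP8) (hEX2 : SpecEX2) (hCBA : SpecCBA) : SpecP4C := by
  classical
  intro V _ _ _ A hA hQ W s t hc h27 y hy a₁ b₁ a₂ b₂ hne h1 h2 hpt
  have hind := (hCBA V A hA W s t hc).1
  have hind' : ∀ a b a' b' : ZMod 3, (y + a • s + b • t) - (y + a' • s + b' • t) ∈ W →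
      a = a' ∧ b = b' := by
    intro a b a' b' h
    have h3 : (y + a • s + b • t) - (y + a' • s + b' • t) = (a - a') • s + (b - b') • t := by
      rw [sub_smul, sub_smul]
      abel
    rw [h3] at h
    obtain ⟨h4, h5⟩ := hind _ _ h
    exact ⟨sub_eq_zero.1 h4, sub_eq_zero.1 h5⟩
  obtain ⟨x₂, hx₂⟩ := (Set.ncard_pos (Set.toFinite _)).1
    (show 0 < (cs A W (y + a₂ • s + b₂ • t)).ncard by omega)
  obtain ⟨φ, ψ, hs, ht, hφy, hs', ht', hψy, hw, hw', ind⟩ :=
    hEX2 V A hA W s t hc y hy (x₂ - (y + a₂ • s + b₂ • t)) hx₂.2 (Or.inr h27)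
  have hφ : ∀ a b : ZMod 3, φ (y + a • s + b • t) = 0 := by
    intro a b
    simp [hs, ht, hφy]
  have hψ : ∀ a b : ZMod 3, ψ (y + a • s + b • t) = 0 := by
    intro a b
    simp [hs', ht', hψy]
  set g : ZMod 3 × ZMod 3 → V := fun p => y + p.1 • s + p.2 • t with hg
  have ginj : Function.Injective g := by
    intro p q hpq
    have : (y + p.1 • s + p.2 • t) - (y + q.1 • s + q.2 • t) ∈ W := by
      have h0 : y + p.1 • s + p.2 • t = y + q.1 • s + q.2 • t := hpq
      rw [h0, sub_self]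
      exact W.zero_mem
    exact Prod.ext_iff.2 (hind' _ _ _ _ this)
  have hmain := P4CM.core hP2 hP8 hA hQ hc (by omega) y φ ψ hs ht hφy hs' ht' hψy ind a₁ b₁
    (insert x₂ (g '' {p | p ≠ (a₁, b₁) ∧ p ≠ (a₂, b₂)})) (by
      rintro x (rfl | ⟨p, ⟨hp1, hp2⟩, rfl⟩)
      · refine ⟨P4CM.cs_le a₂ b₂ hx₂, ⟨?_, ?_⟩, ?_⟩
        · rw [map_sub, hφ, sub_zero] at hw
          exact hw
        · rw [map_sub, hψ, sub_zero] at hw'
          exact hw'
        · intro h
          have h3 := W.sub_mem h.2 hx₂.2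
          have h4 : x - (y + a₁ • s + b₁ • t) - (x - (y + a₂ • s + b₂ • t)) =
            (y + a₂ • s + b₂ • t) - (y + a₁ • s + b₁ • t) := by abel
          rw [h4] at h3
          obtain ⟨h5, h6⟩ := hind' _ _ _ _ h3
          exact hne ⟨h5.symm, h6.symm⟩
      · have hpA : g p ∈ A := by
          refine (hpt p.1 p.2).2 ⟨fun h => hp1 (Prod.ext_iff.2 h), fun h => hp2 (Prod.ext_iff.2 h)⟩
        refine ⟨P4CM.cs_le p.1 p.2 ⟨hpA, by simp [hg]⟩, ⟨hφ _ _, hψ _ _⟩, ?_⟩
        intro h
        exact hp1 (Prod.ext_iff.2 (hind' _ _ _ _ h.2)))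
  have hcard : (insert x₂ (g '' {p | p ≠ (a₁, b₁) ∧ p ≠ (a₂, b₂)})).ncard =
      {p : ZMod 3 × ZMod 3 | p ≠ (a₁, b₁) ∧ p ≠ (a₂, b₂)}.ncard + 1 := by
    rw [Set.ncard_insert_of_notMem _ (Set.toFinite _), Set.ncard_image_of_injective _ ginj]
    rintro ⟨p, ⟨_, hp2⟩, hpx⟩
    have h3 := hx₂.2
    rw [← hpx] at h3
    exact hp2 (Prod.ext_iff.2 (hind' _ _ _ _ h3))
  have h7 := P4CM.seven (a₁, b₁) (a₂, b₂)
  omega

end Pool.Agent.Lib.MP_b63a06_co.TR
end

section
set_option autoImplicit false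

/-!
# MP_b63a06_co, TR: module P4D (two positions without index 0, `|W| = 9`)
-/

namespace Pool.Agent.Lib.MP_b63a06_co.TR

namespace P4DM

/-- the plane over `ZMod 3` -/
abbrev K2 : Type := ZMod 3 × ZMod 3

/-- scalar product -/
def dot (c v : K2) : ZMod 3 := c.1 * v.1 + c.2 * v.2

theorem card_line : ∀ c : K2, c ≠ 0 → (Finset.univ.filter fun v : K2 => dot c v = 1).card = 3 := by
  decide

theorem card_line' : ∀ v : K2, v ≠ 0 →
    ((Finset.univ.erase (0 : K2)).filter fun c : K2 => dot c v = 1).card = 3 := by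
  decide

theorem dot_zero' : ∀ c : K2, dot c 0 ≠ 1 := by decide

theorem orth : ∀ w v : K2, w ≠ 0 → v ≠ 0 → dot (w.2, -w.1) v = 0 → v = w ∨ v = -w := by
  decide

theorem ne_neg : ∀ w : K2, w ≠ 0 → w ≠ -w := by decide

/-- a line is the image of an injective map of `Fin 3` -/
theorem line_img (c : K2) (hc : c ≠ 0) : ∃ e : Fin 3 → K2, Function.Injective e ∧
    (Finset.univ.filter fun v : K2 => dot c v = 1) = Finset.univ.image e := by
  obtain ⟨x, y, z, hxy, hxz, hyz, h⟩ := Finset.card_eq_three.1 (card_line c hc)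
  refine ⟨![x, y, z], ?_, ?_⟩
  · intro i j hij
    fin_cases i <;> fin_cases j <;> simp_all
  · rw [h]
    ext v
    simp only [Finset.mem_insert, Finset.mem_singleton, Finset.mem_image, Finset.mem_univ, true_and]
    constructor
    · rintro (rfl | rfl | rfl)
      · exact ⟨0, rfl⟩
      · exact ⟨1, rfl⟩
      · exact ⟨2, rfl⟩
    · rintro ⟨i, rfl⟩
      fin_cases i <;> simp

theorem double (F : K2 → ℕ) : ∑ c ∈ Finset.univ.erase (0 : K2),
    ∑ v ∈ Finset.univ.filter (fun v : K2 => dot c v = 1), F v =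
    3 * ∑ v ∈ Finset.univ.erase (0 : K2), F v := by
  have h1 : ∀ c : K2, ∑ v ∈ Finset.univ.filter (fun v : K2 => dot c v = 1), F v =
      ∑ v ∈ Finset.univ.erase (0 : K2), if dot c v = 1 then F v else 0 := by
    intro c
    rw [← Finset.sum_filter]
    refine Finset.sum_congr ?_ fun _ _ => rfl
    ext v
    simp only [Finset.mem_filter, Finset.mem_univ, true_and, Finset.mem_erase, and_true]
    constructor
    · intro h
      refine ⟨?_, h⟩
      rintro rfl
      exact dot_zero' c h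
    · exact fun h => h.2
  rw [Finset.sum_congr rfl fun c _ => h1 c, Finset.sum_comm, Finset.mul_sum]
  refine Finset.sum_congr rfl fun v hv => ?_
  rw [← Finset.sum_filter, Finset.sum_const, card_line' v (Finset.ne_of_mem_erase hv), smul_eq_mul]

/-- a set which meets all lines through `0` -/
theorem half (X : Finset K2) (h0 : (0 : K2) ∉ X) (hm : ∀ c : K2, ∃ v ∈ X, dot c v = 0) :
    (∀ w : K2, w ≠ 0 → w ∈ X ∨ -w ∈ X) ∧ 4 ≤ X.card ∧
    (X.card ≤ 4 → ∀ w : K2, w ≠ 0 → (w ∈ X ↔ -w ∉ X)) := by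
  have h1 : ∀ w : K2, w ≠ 0 → w ∈ X ∨ -w ∈ X := by
    intro w hw
    obtain ⟨v, hv, hd⟩ := hm (w.2, -w.1)
    rcases orth w v hw (fun h => h0 (h ▸ hv)) hd with rfl | rfl
    · exact Or.inl hv
    · exact Or.inr hv
  have h2 : Finset.univ.erase (0 : K2) ⊆ X ∪ X.image (fun v => -v) := by
    intro w hw
    rw [Finset.mem_union, Finset.mem_image]
    rcases h1 w (Finset.ne_of_mem_erase hw) with h | h
    · exact Or.inl h
    · exact Or.inr ⟨-w, h, neg_neg w⟩
  have h8 : (Finset.univ.erase (0 : K2)).card = 8 := by decide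
  have h3 := Finset.card_le_card h2
  have h4 := Finset.card_union_add_card_inter X (X.image fun v => -v)
  have h5 : (X.image fun v => -v).card = X.card := Finset.card_image_of_injective _ neg_injective
  refine ⟨h1, by omega, fun h6 w hw => ⟨fun h7 h8' => ?_, fun h7 => (h1 w hw).resolve_right h7⟩⟩
  have h9 : 2 ≤ (X ∩ X.image fun v => -v).card := by
    have hne : w ≠ -w := ne_neg w hw
    rw [← Finset.card_pair hne]
    refine Finset.card_le_card fun v hv => ?_
    rw [Finset.mem_insert, Finset.mem_singleton] at hv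
    rw [Finset.mem_inter, Finset.mem_image]
    rcases hv with rfl | rfl
    · exact ⟨h7, -v, h8', neg_neg v⟩
    · exact ⟨h8', w, h7, rfl⟩
  omega

theorem core (hPC : SpecPC) (hPE : SpecPE) (hPF : SpecPF) (D : K2 → Set K2) (p₁ p₂ : K2)
    (hp : p₁ ≠ p₂) (h0 : ∀ p, p ∈ D 0 ↔ p ≠ p₁ ∧ p ≠ p₂)
    (hr : ∀ c : K2, c ≠ 0 → ∀ e : Fin 3 → K2, Function.Injective e → (∀ i, dot c (e i) = 1) →
      RuleD (fun i => D (e i)))
    (hm₁ : ∀ c : K2, ∃ v, dot c v = 0 ∧ p₁ ∈ D v) (hm₂ : ∀ c : K2, ∃ v, dot c v = 0 ∧ p₂ ∈ D v) :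
    18 ≤ ∑ v, (D v).ncard := by
  classical
  by_contra hcon
  push Not at hcon
  set X : Finset K2 := Finset.univ.filter fun v => p₁ ∈ D v with hX
  set Y : Finset K2 := Finset.univ.filter fun v => p₂ ∈ D v with hY
  have hX0 : (0 : K2) ∉ X := by
    rw [hX, Finset.mem_filter]
    exact fun h => ((h0 p₁).1 h.2).1 rfl
  have hY0 : (0 : K2) ∉ Y := by
    rw [hY, Finset.mem_filter]
    exact fun h => ((h0 p₂).1 h.2).2 rfl
  obtain ⟨-, hX4, hX5⟩ := half X hX0 fun c => by
    obtain ⟨v, h1, h2⟩ := hm₁ c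
    exact ⟨v, by rw [hX, Finset.mem_filter]; exact ⟨Finset.mem_univ _, h2⟩, h1⟩
  obtain ⟨-, hY4, hY5⟩ := half Y hY0 fun c => by
    obtain ⟨v, h1, h2⟩ := hm₂ c
    exact ⟨v, by rw [hY, Finset.mem_filter]; exact ⟨Finset.mem_univ _, h2⟩, h1⟩
  -- the elements which are not one of the points
  have hD0 : (D 0).ncard = 7 := by
    have : D 0 = ((Finset.univ \ {p₁, p₂} : Finset K2) : Set K2) := by
      ext p
      rw [h0 p]
      simp only [Finset.coe_sdiff, Finset.coe_univ, Finset.coe_insert, Finset.coe_singleton,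
        Set.mem_sdiff, Set.mem_univ, true_and, Set.mem_insert_iff, Set.mem_singleton_iff, not_or, ne_eq]
    rw [this, Set.ncard_coe_finset, Finset.card_sdiff_of_subset (Finset.subset_univ _),
      Finset.card_pair hp]
    decide
  have hS : ∑ v ∈ Finset.univ.erase (0 : K2), (D v).ncard ≤ 10 := by
    have := Finset.add_sum_erase Finset.univ (fun v => (D v).ncard) (Finset.mem_univ (0 : K2))
    simp only [hD0] at this
    omega
  -- the numbers of the elements at the two positions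
  have hsplit : ∀ v : K2, (D v).ncard = (D v \ {p₁, p₂}).ncard + ((if p₁ ∈ D v then 1 else 0) +
      (if p₂ ∈ D v then 1 else 0)) := by
    intro v
    have h1 := Set.ncard_inter_add_ncard_sdiff_eq_ncard (D v) {p₁, p₂} (Set.toFinite _)
    have h2 : (D v ∩ {p₁, p₂}).ncard = (if p₁ ∈ D v then 1 else 0) +
        (if p₂ ∈ D v then 1 else 0) := by
      by_cases ha : p₁ ∈ D v <;> by_cases hb : p₂ ∈ D v
      · rw [if_pos ha, if_pos hb, show D v ∩ {p₁, p₂} = {p₁, p₂} by
          ext q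
          simp only [Set.mem_inter_iff, Set.mem_insert_iff, Set.mem_singleton_iff,
            and_iff_right_iff_imp]
          rintro (rfl | rfl) <;> assumption]
        exact Set.ncard_pair hp
      · rw [if_pos ha, if_neg hb, show D v ∩ {p₁, p₂} = {p₁} by
          ext q
          simp only [Set.mem_inter_iff, Set.mem_insert_iff, Set.mem_singleton_iff]
          constructor
          · rintro ⟨h, rfl | rfl⟩
            · rfl
            · exact absurd h hb
          · rintro rfl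
            exact ⟨ha, Or.inl rfl⟩]
        exact Set.ncard_singleton _
      · rw [if_neg ha, if_pos hb, show D v ∩ {p₁, p₂} = {p₂} by
          ext q
          simp only [Set.mem_inter_iff, Set.mem_insert_iff, Set.mem_singleton_iff]
          constructor
          · rintro ⟨h, rfl | rfl⟩
            · exact absurd h ha
            · rfl
          · rintro rfl
            exact ⟨hb, Or.inr rfl⟩]
        exact Set.ncard_singleton _
      · rw [if_neg ha, if_neg hb, show D v ∩ {p₁, p₂} = ∅ by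
          ext q
          simp only [Set.mem_inter_iff, Set.mem_insert_iff, Set.mem_singleton_iff,
            Set.mem_empty_iff_false, iff_false, not_and, not_or]
          intro h
          exact ⟨fun h' => ha (h' ▸ h), fun h' => hb (h' ▸ h)⟩]
        exact Set.ncard_empty _
    omega
  have hXs : ∑ v ∈ Finset.univ.erase (0 : K2), (if p₁ ∈ D v then 1 else 0) = X.card := by
    rw [← Finset.card_filter]
    congr 1
    ext v
    rw [hX, Finset.mem_filter, Finset.mem_filter, Finset.mem_erase]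
    constructor
    · rintro ⟨⟨-, h⟩, h'⟩
      exact ⟨h, h'⟩
    · rintro ⟨h, h'⟩
      refine ⟨⟨?_, h⟩, h'⟩
      rintro rfl
      exact ((h0 p₁).1 h').1 rfl
  have hYs : ∑ v ∈ Finset.univ.erase (0 : K2), (if p₂ ∈ D v then 1 else 0) = Y.card := by
    rw [← Finset.card_filter]
    congr 1
    ext v
    rw [hY, Finset.mem_filter, Finset.mem_filter, Finset.mem_erase]
    constructor
    · rintro ⟨⟨-, h⟩, h'⟩
      exact ⟨h, h'⟩
    · rintro ⟨h, h'⟩
      refine ⟨⟨?_, h⟩, h'⟩
      rintro rfl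
      exact ((h0 p₂).1 h').2 rfl
  have hS2 : ∑ v ∈ Finset.univ.erase (0 : K2), (D v \ {p₁, p₂}).ncard + (X.card + Y.card) ≤ 10 := by
    rw [Finset.sum_congr rfl fun v _ => hsplit v, Finset.sum_add_distrib, Finset.sum_add_distrib,
      hXs, hYs] at hS
    exact hS
  -- at most four elements at a position
  have hfour : ∀ q : K2, q ∉ D 0 → (Finset.univ.filter fun v => q ∈ D v).card ≤ 4 := by
    intro q hq
    by_contra h5
    push Not at h5
    have hg : ∀ c ∈ Finset.univ.erase (0 : K2),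
        2 + ∑ v ∈ Finset.univ.filter (fun v : K2 => dot c v = 1), (if q ∈ D v then 1 else 0) ≤
        ∑ v ∈ Finset.univ.filter (fun v : K2 => dot c v = 1), (D v).ncard := by
      intro c hc
      obtain ⟨e, hei, he⟩ := line_img c (Finset.ne_of_mem_erase hc)
      have hed : ∀ i, dot c (e i) = 1 := by
        intro i
        have : e i ∈ Finset.univ.filter fun v : K2 => dot c v = 1 := by
          rw [he]
          exact Finset.mem_image_of_mem _ (Finset.mem_univ _)
        exact (Finset.mem_filter.1 this).2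
      obtain ⟨h3, hq3, -⟩ := hPC (Fin 3) (fun i => D (e i)) (by simp)
        (hr c (Finset.ne_of_mem_erase hc) e hei hed)
      rw [he, Finset.sum_image fun a _ b _ h => hei h, Finset.sum_image fun a _ b _ h => hei h]
      by_cases hex : ∃ i, q ∈ D (e i)
      · have h4 := hq3 q hex
        have h6 : {w | q ∈ D (e w)}.ncard = ∑ i, (if q ∈ D (e i) then 1 else 0) := by
          rw [← Finset.card_filter, ← Set.ncard_coe_finset]
          congr 1
          ext i
          simp
        omega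
      · push Not at hex
        rw [Finset.sum_eq_zero fun i _ => if_neg (hex i)]
        omega
    have h7 := Finset.sum_le_sum hg
    rw [Finset.sum_add_distrib, double, double, Finset.sum_const] at h7
    have h8 : ∑ v ∈ Finset.univ.erase (0 : K2), (if q ∈ D v then 1 else 0) =
        (Finset.univ.filter fun v => q ∈ D v).card := by
      rw [← Finset.card_filter]
      congr 1
      ext v
      rw [Finset.mem_filter, Finset.mem_filter, Finset.mem_erase]
      constructor
      · rintro ⟨⟨-, h⟩, h'⟩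
        exact ⟨h, h'⟩
      · rintro ⟨h, h'⟩
        refine ⟨⟨?_, h⟩, h'⟩
        rintro rfl
        exact hq h'
    have h9 : (Finset.univ.erase (0 : K2)).card = 8 := by decide
    rw [h8, h9, smul_eq_mul] at h7
    omega
  have hXc : X.card ≤ 4 := hfour p₁ fun h => ((h0 p₁).1 h).1 rfl
  have hYc : Y.card ≤ 4 := hfour p₂ fun h => ((h0 p₂).1 h).2 rfl
  have h7 := hPF X Y (fun c => ∑ v ∈ Finset.univ.filter (fun v : K2 => dot c v = 1),
    (D v \ {p₁, p₂}).ncard) (fun w hw => ⟨hX5 hXc w hw, hY5 hYc w hw⟩) hX0 hY0 (by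
      intro c hc
      obtain ⟨e, hei, he⟩ := line_img c hc
      have hed : ∀ i, dot c (e i) = 1 := by
        intro i
        have : e i ∈ Finset.univ.filter fun v : K2 => dot c v = 1 := by
          rw [he]
          exact Finset.mem_image_of_mem _ (Finset.mem_univ _)
        exact (Finset.mem_filter.1 this).2
      have hsur : ∀ w : K2, dot c w = 1 → ∃ i, e i = w := by
        intro w hw
        have : w ∈ Finset.univ.filter fun v : K2 => dot c v = 1 :=
          Finset.mem_filter.2 ⟨Finset.mem_univ _, hw⟩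
        rw [he] at this
        obtain ⟨i, -, hi⟩ := Finset.mem_image.1 this
        exact ⟨i, hi⟩
      obtain ⟨hi, hii, hiii⟩ := hPE (fun i => D (e i)) (hr c hc e hei hed) p₁ p₂ hp
      have hsum : (∑ v ∈ Finset.univ.filter (fun v : K2 => dot c v = 1),
          (D v \ {p₁, p₂}).ncard) = ∑ i, (D (e i) \ {p₁, p₂}).ncard := by
        rw [he, Finset.sum_image fun a _ b _ h => hei h]
      have hcard : ∀ q : K2, {w | q ∈ D (e w)}.ncard =
          ((Finset.univ.filter fun v => q ∈ D v).filter fun w => c.1 * w.1 + c.2 * w.2 = 1).card := by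
        intro q
        have hset : ((Finset.univ.filter fun v => q ∈ D v).filter
            fun w => c.1 * w.1 + c.2 * w.2 = 1) =
            (Finset.univ.filter fun i => q ∈ D (e i)).image e := by
          ext w
          rw [Finset.mem_filter, Finset.mem_filter, Finset.mem_image]
          constructor
          · rintro ⟨⟨-, h1⟩, h2⟩
            obtain ⟨i, rfl⟩ := hsur w h2
            exact ⟨i, Finset.mem_filter.2 ⟨Finset.mem_univ _, h1⟩, rfl⟩
          · rintro ⟨i, h1, rfl⟩
            exact ⟨⟨Finset.mem_univ _, (Finset.mem_filter.1 h1).2⟩, hed i⟩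
        rw [hset, Finset.card_image_of_injective _ hei, ← Set.ncard_coe_finset]
        congr 1
        ext i
        simp
      refine ⟨fun h => ?_, fun h => ?_, fun h => ?_⟩
      · show 3 ≤ ∑ v ∈ _, _
        rw [hsum]
        refine hi fun i => ⟨fun h' => ?_, fun h' => ?_⟩
        · exact (h (e i) (hed i)).1 (Finset.mem_filter.2 ⟨Finset.mem_univ _, h'⟩)
        · exact (h (e i) (hed i)).2 (Finset.mem_filter.2 ⟨Finset.mem_univ _, h'⟩)
      · show 2 ≤ ∑ v ∈ _, _
        rw [hsum]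
        refine hii ?_
        rcases h with h | h
        · exact Or.inl fun i h' => h (e i) (hed i) (Finset.mem_filter.2 ⟨Finset.mem_univ _, h'⟩)
        · exact Or.inr fun i h' => h (e i) (hed i) (Finset.mem_filter.2 ⟨Finset.mem_univ _, h'⟩)
      · have h' : ∑ v ∈ Finset.univ.filter (fun v : K2 => dot c v = 1),
          (D v \ {p₁, p₂}).ncard = 0 := h
        rw [hsum] at h'
        obtain ⟨g1, g2, g3⟩ := hiii h'
        refine ⟨fun w hw => ?_, ?_, ?_⟩
        · obtain ⟨i, rfl⟩ := hsur w hw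
          rcases g1 i with g | g
          · exact Or.inl (Finset.mem_filter.2 ⟨Finset.mem_univ _, g⟩)
          · exact Or.inr (Finset.mem_filter.2 ⟨Finset.mem_univ _, g⟩)
        · rw [← hcard p₁]
          exact g2
        · rw [← hcard p₂]
          exact g3)
  rw [double] at h7
  omega

theorem ruleD_comp {L L' : Type} (D : L → Set (ZMod 3 × ZMod 3)) (g : L' → L)
    (hg : Function.Bijective g) (h : RuleD D) : RuleD fun w => D (g w) := by
  intro p hp w
  have h1 : ∀ w, p ∉ D w := by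
    intro w
    obtain ⟨w', rfl⟩ := hg.2 w
    exact hp w'
  rcases h p h1 (g w) with ⟨w', h2, h3⟩ | h2
  · obtain ⟨w'', rfl⟩ := hg.2 w'
    exact Or.inl ⟨w'', fun h4 => h2 (by rw [h4]), h3⟩
  · exact Or.inr h2

end P4DM

open P4DM in
theorem specP4D (hPC : SpecPC) (hPD : SpecPD) (hPE : SpecPE) (hPF : SpecPF) (hEX2 : SpecEX2)
    (hYSM : SpecYSM) (hCBA : SpecCBA) : SpecP4D := by
  intro V _ _ _ A hA hQ W s t hc hW y hy a₁ b₁ a₂ b₂ hne hpts hg
  classical
  obtain ⟨hind, -, -, -⟩ := hCBA V A hA W s t hc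
  obtain ⟨φ, ψ, hφs, hφt, hφy, hψs, hψt, hψy, -, -, hlin⟩ :=
    hEX2 V A hA W s t hc y hy 0 W.zero_mem (Or.inl ⟨hW.ge, rfl⟩)
  -- coordinates on `W`
  let θ : W →ₗ[ZMod 3] K2 := (φ.domRestrict W).prod (ψ.domRestrict W)
  have hθ : ∀ w : W, θ w = (φ w, ψ w) := fun w => rfl
  have hsur : Function.Surjective θ := by
    rw [← LinearMap.range_eq_top]
    by_contra hlt
    obtain ⟨f, hf0, hf⟩ := Submodule.exists_le_ker_of_lt_top _ (lt_top_iff_ne_top.2 hlt)
    have hfv : ∀ v : K2, f v = f (1, 0) * v.1 + f (0, 1) * v.2 := by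
      intro v
      have : v = v.1 • ((1, 0) : K2) + v.2 • ((0, 1) : K2) := by
        ext <;> simp
      conv_lhs => rw [this]
      rw [map_add, map_smul, map_smul, smul_eq_mul, smul_eq_mul, mul_comm, mul_comm v.2]
    obtain ⟨h1, h2⟩ := hlin (f (1, 0)) (f (0, 1)) fun w hw => by
      have := hf (LinearMap.mem_range_self θ ⟨w, hw⟩)
      rw [LinearMap.mem_ker, hfv, hθ] at this
      simpa [smul_eq_mul] using this
    apply hf0
    ext
    · simpa using h1
    · simpa using h2
  have hbij : Function.Bijective θ := by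
    have := Fintype.ofFinite W
    rw [Fintype.bijective_iff_surjective_and_card]
    refine ⟨hsur, ?_⟩
    rw [← Nat.card_eq_fintype_card, hW]
    decide
  let E : W ≃ K2 := Equiv.ofBijective θ hbij
  let u : K2 → V := fun v => (E.symm v : V)
  have huW : ∀ v, u v ∈ W := fun v => (E.symm v).2
  have hu : ∀ v, (φ (u v), ψ (u v)) = v := by
    intro v
    have : θ (E.symm v) = v := E.apply_symm_apply v
    rw [← hθ]
    exact this
  have hu1 : ∀ v, φ (u v) = v.1 := fun v => congrArg Prod.fst (hu v)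
  have hu2 : ∀ v, ψ (u v) = v.2 := fun v => congrArg Prod.snd (hu v)
  have hu' : ∀ w ∈ W, u (φ w, ψ w) = w := by
    intro w hw
    have : E.symm (θ ⟨w, hw⟩) = ⟨w, hw⟩ := E.symm_apply_apply _
    show ((E.symm (φ w, ψ w) : W) : V) = w
    rw [show ((φ w, ψ w) : K2) = θ ⟨w, hw⟩ from rfl, this]
  have hu0 : u 0 = 0 := by
    have := hu' 0 W.zero_mem
    rwa [map_zero, map_zero] at this
  have huinj : Function.Injective u := by
    intro v v' h
    rw [← hu v, ← hu v', h]
  let D : K2 → Set K2 := fun v => {p | y + p.1 • s + p.2 • t + u v ∈ A}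
  have hdot : ∀ (c : K2) (w : V), (c.1 • φ + c.2 • ψ) w = dot c (φ w, ψ w) := by
    intro c w
    simp [dot, smul_eq_mul]
  have hmain := core hPC hPE hPF D (a₁, b₁) (a₂, b₂)
    (fun h => hne ⟨congrArg Prod.fst h, congrArg Prod.snd h⟩)
    (by
      intro p
      show y + p.1 • s + p.2 • t + u 0 ∈ A ↔ _
      rw [hu0, add_zero, hpts p.1 p.2]
      constructor
      · rintro ⟨h1, h2⟩
        refine ⟨fun h => h1 ⟨congrArg Prod.fst h, congrArg Prod.snd h⟩,
          fun h => h2 ⟨congrArg Prod.fst h, congrArg Prod.snd h⟩⟩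
      · rintro ⟨h1, h2⟩
        exact ⟨fun h => h1 (Prod.ext h.1 h.2), fun h => h2 (Prod.ext h.1 h.2)⟩)
    (by
      intro c hc0 e hei hed
      have hPD' := (hPD V A hA hQ W s t hc y (c.1 • φ + c.2 • ψ) 1
        (by simp [hφs, hψs]) (by simp [hφt, hψt]) (by simp [hφy, hψy])
        ⟨u (e 0), huW _, by rw [hdot, hu, hed]; decide⟩).1
      have hgmem : ∀ i, u (e i) ∈ W ∧ (c.1 • φ + c.2 • ψ) (u (e i)) = 1 := fun i =>
        ⟨huW _, by rw [hdot, hu, hed]⟩
      have himg : (Finset.univ.filter fun v : K2 => dot c v = 1) = Finset.univ.image e := by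
        symm
        apply Finset.eq_of_subset_of_card_le
        · intro v hv
          obtain ⟨i, -, rfl⟩ := Finset.mem_image.1 hv
          exact Finset.mem_filter.2 ⟨Finset.mem_univ _, hed i⟩
        · rw [card_line c hc0, Finset.card_image_of_injective _ hei]
          simp
      refine ruleD_comp _ (fun i : Fin 3 =>
        (⟨u (e i), hgmem i⟩ : {w : V // w ∈ W ∧ (c.1 • φ + c.2 • ψ) w = 1})) ⟨?_, ?_⟩ hPD'
      · intro i j hij
        have h5 := Subtype.ext_iff.1 hij
        exact hei (huinj h5)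
      · rintro ⟨w, hw, hw1⟩
        have : (φ w, ψ w) ∈ Finset.univ.filter fun v : K2 => dot c v = 1 :=
          Finset.mem_filter.2 ⟨Finset.mem_univ _, by rw [← hdot]; exact hw1⟩
        rw [himg] at this
        obtain ⟨i, -, hi⟩ := Finset.mem_image.1 this
        refine ⟨i, Subtype.ext ?_⟩
        show u (e i) = w
        rw [hi, hu' w hw])
    (by
      intro c
      obtain ⟨w, hw, hw0, hwA⟩ := hg (c.1 • φ + c.2 • ψ) (by simp [hφs, hψs])
        (by simp [hφt, hψt]) (by simp [hφy, hψy]) a₁ b₁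
      refine ⟨(φ w, ψ w), by rw [← hdot]; exact hw0, ?_⟩
      show y + a₁ • s + b₁ • t + u (φ w, ψ w) ∈ A
      rw [hu' w hw]
      exact hwA)
    (by
      intro c
      obtain ⟨w, hw, hw0, hwA⟩ := hg (c.1 • φ + c.2 • ψ) (by simp [hφs, hψs])
        (by simp [hφt, hψt]) (by simp [hφy, hψy]) a₂ b₂
      refine ⟨(φ w, ψ w), by rw [← hdot]; exact hw0, ?_⟩
      show y + a₂ • s + b₂ • t + u (φ w, ψ w) ∈ A
      rw [hu' w hw]
      exact hwA)
  -- counting
  have hcount : ∀ a b : ZMod 3, (cs A W (y + a • s + b • t)).ncard =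
      ∑ v : K2, (if ((a, b) : K2) ∈ D v then 1 else 0) := by
    intro a b
    rw [← Finset.card_filter, ← Set.ncard_coe_finset]
    have : cs A W (y + a • s + b • t) = (fun v => y + a • s + b • t + u v) ''
        ((Finset.univ.filter fun v : K2 => ((a, b) : K2) ∈ D v : Finset K2) : Set K2) := by
      ext x
      simp only [Set.mem_image, Finset.coe_filter, Finset.mem_univ, true_and, Set.mem_ofPred_eq]
      constructor
      · rintro ⟨hxA, hxW⟩
        refine ⟨(φ (x - (y + a • s + b • t)), ψ (x - (y + a • s + b • t))), ?_, ?_⟩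
        · show y + a • s + b • t + u _ ∈ A
          rw [hu' _ hxW, add_sub_cancel]
          exact hxA
        · rw [hu' _ hxW, add_sub_cancel]
      · rintro ⟨v, hv, rfl⟩
        refine ⟨hv, ?_⟩
        rw [add_sub_cancel_left]
        exact huW v
    rw [this, Set.ncard_image_of_injective _ fun v v' h => huinj (add_left_cancel h)]
  rw [(hYSM V A W s t).2 hind y, Finset.sum_congr rfl fun a _ => Finset.sum_congr rfl fun b _ =>
    hcount a b]
  have hswap : ∑ a : ZMod 3, ∑ b : ZMod 3, ∑ v : K2, (if ((a, b) : K2) ∈ D v then 1 else 0) =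
      ∑ v : K2, (D v).ncard := by
    rw [← Fintype.sum_prod_type' (f := fun a b : ZMod 3 => ∑ v : K2,
      (if ((a, b) : K2) ∈ D v then 1 else 0)), Finset.sum_comm]
    refine Finset.sum_congr rfl fun v _ => ?_
    rw [← Finset.card_filter, ← Set.ncard_coe_finset]
    congr 1
    ext p
    simp
  rw [hswap]
  exact hmain

end Pool.Agent.Lib.MP_b63a06_co.TR
end

section
set_option autoImplicit false

/-!
# MP_b63a06_co, module P5 (helper35): there is no exceptional hyperplane
-/

namespace Pool.Agent.Lib.MP_b63a06_co.TR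

namespace P5M

variable {V : Type} [AddCommGroup V] [Module (ZMod 3) V]

/-- number of elements of `Y` with prescribed values of two functionals. -/
noncomputable def NV (Y : Set V) (φ ψ : V →ₗ[ZMod 3] ZMod 3) (u v : ZMod 3) : ℕ :=
  {x | x ∈ Y ∧ φ x = u ∧ ψ x = v}.ncard

theorem count [Finite V] (Y : Set V) (φ ψ : V →ₗ[ZMod 3] ZMod 3) (P : ZMod 3 → ZMod 3 → Prop)
    [∀ u v, Decidable (P u v)] :
    {x | x ∈ Y ∧ P (φ x) (ψ x)}.ncard =
      ∑ u : ZMod 3, ∑ v : ZMod 3, if P u v then NV Y φ ψ u v else 0 := by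
  classical
  have := Fintype.ofFinite V
  have h0 : ∀ Q : V → Prop, {x | Q x}.ncard = (Finset.univ.filter Q).card := by
    intro Q
    rw [Set.ncard_eq_toFinset_card' {x | Q x}]
    congr 1
    ext x
    simp
  rw [h0, Finset.card_eq_sum_card_fiberwise (f := fun x => (φ x, ψ x))
    (t := (Finset.univ : Finset (ZMod 3 × ZMod 3))) (fun _ _ => Finset.mem_univ _),
    Fintype.sum_prod_type]
  refine Finset.sum_congr rfl fun u _ => Finset.sum_congr rfl fun v _ => ?_
  split_ifs with h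
  · unfold NV
    rw [h0]
    congr 1
    ext x
    simp only [Finset.mem_filter, Finset.mem_univ, true_and, Prod.mk.injEq]
    constructor
    · rintro ⟨⟨h1, _⟩, h3, h4⟩
      exact ⟨h1, h3, h4⟩
    · rintro ⟨h1, h3, h4⟩
      subst h3
      subst h4
      exact ⟨⟨h1, h⟩, rfl, rfl⟩
  · rw [Finset.card_eq_zero]
    ext x
    simp only [Finset.mem_filter, Finset.mem_univ, true_and, Prod.mk.injEq, Finset.notMem_empty,
      iff_false]
    rintro ⟨⟨_, h2⟩, h3, h4⟩
    subst h3
    subst h4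
    exact h h2

theorem sum3 (f : ZMod 3 → ℕ) : ∑ u : ZMod 3, f u = f 0 + f 1 + f 2 := by
  exact Fin.sum_univ_three f

theorem ex10 (N : ZMod 3 → ZMod 3 → ℕ) :
    (∑ u : ZMod 3, ∑ v : ZMod 3, if (1 : ZMod 3) * u + 0 * v = 1 then N u v else 0) =
      N 1 0 + N 1 1 + N 1 2 := by
  rw [sum3, sum3, sum3, sum3, if_neg (by decide), if_neg (by decide), if_neg (by decide),
    if_pos (by decide), if_pos (by decide), if_pos (by decide),
    if_neg (by decide), if_neg (by decide), if_neg (by decide)]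
  omega

theorem ex01 (N : ZMod 3 → ZMod 3 → ℕ) :
    (∑ u : ZMod 3, ∑ v : ZMod 3, if (0 : ZMod 3) * u + 1 * v = 1 then N u v else 0) =
      N 0 1 + N 1 1 + N 2 1 := by
  rw [sum3, sum3, sum3, sum3, if_neg (by decide), if_pos (by decide), if_neg (by decide),
    if_neg (by decide), if_pos (by decide), if_neg (by decide),
    if_neg (by decide), if_pos (by decide), if_neg (by decide)]
  omega

theorem ex02 (N : ZMod 3 → ZMod 3 → ℕ) :
    (∑ u : ZMod 3, ∑ v : ZMod 3, if (0 : ZMod 3) * u + 2 * v = 1 then N u v else 0) =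
      N 0 2 + N 1 2 + N 2 2 := by
  rw [sum3, sum3, sum3, sum3, if_neg (by decide), if_neg (by decide), if_pos (by decide),
    if_neg (by decide), if_neg (by decide), if_pos (by decide),
    if_neg (by decide), if_neg (by decide), if_pos (by decide)]
  omega

theorem ex11 (N : ZMod 3 → ZMod 3 → ℕ) :
    (∑ u : ZMod 3, ∑ v : ZMod 3, if (1 : ZMod 3) * u + 1 * v = 1 then N u v else 0) =
      N 0 1 + N 1 0 + N 2 2 := by
  rw [sum3, sum3, sum3, sum3, if_neg (by decide), if_pos (by decide), if_neg (by decide),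
    if_pos (by decide), if_neg (by decide), if_neg (by decide),
    if_neg (by decide), if_neg (by decide), if_pos (by decide)]
  omega

theorem ex21 (N : ZMod 3 → ZMod 3 → ℕ) :
    (∑ u : ZMod 3, ∑ v : ZMod 3, if (2 : ZMod 3) * u + 1 * v = 1 then N u v else 0) =
      N 0 1 + N 1 2 + N 2 0 := by
  rw [sum3, sum3, sum3, sum3, if_neg (by decide), if_pos (by decide), if_neg (by decide),
    if_neg (by decide), if_neg (by decide), if_pos (by decide),
    if_pos (by decide), if_neg (by decide), if_neg (by decide)]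
  omega

theorem ex12 (N : ZMod 3 → ZMod 3 → ℕ) :
    (∑ u : ZMod 3, ∑ v : ZMod 3, if (1 : ZMod 3) * u + 2 * v = 1 then N u v else 0) =
      N 0 2 + N 1 0 + N 2 1 := by
  rw [sum3, sum3, sum3, sum3, if_neg (by decide), if_neg (by decide), if_pos (by decide),
    if_pos (by decide), if_neg (by decide), if_neg (by decide),
    if_neg (by decide), if_pos (by decide), if_neg (by decide)]
  omega

theorem ex22 (N : ZMod 3 → ZMod 3 → ℕ) :
    (∑ u : ZMod 3, ∑ v : ZMod 3, if (2 : ZMod 3) * u + 2 * v = 1 then N u v else 0) =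
      N 0 2 + N 1 1 + N 2 0 := by
  rw [sum3, sum3, sum3, sum3, if_neg (by decide), if_neg (by decide), if_pos (by decide),
    if_neg (by decide), if_pos (by decide), if_neg (by decide),
    if_pos (by decide), if_neg (by decide), if_neg (by decide)]
  omega

/-- one of two independent functionals is independent of a given one. -/
theorem indep (W : Submodule (ZMod 3) V) (φ φ₁ ψ₁ : V →ₗ[ZMod 3] ZMod 3)
    (hφ : ∃ w ∈ W, φ w ≠ 0)
    (h : ∀ a b : ZMod 3, (∀ w ∈ W, (a • φ₁ + b • ψ₁) w = 0) → a = 0 ∧ b = 0) :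
    ∃ ψ : V →ₗ[ZMod 3] ZMod 3, (ψ = φ₁ ∨ ψ = ψ₁) ∧
      ∀ a b : ZMod 3, (∀ w ∈ W, (a • φ + b • ψ) w = 0) → a = 0 ∧ b = 0 := by
  by_contra hc
  push Not at hc
  obtain ⟨a, b, h1, h2⟩ := hc φ₁ (Or.inl rfl)
  obtain ⟨c, d, h3, h4⟩ := hc ψ₁ (Or.inr rfl)
  obtain ⟨w₀, hw₀, hφw⟩ := hφ
  have hb : b ≠ 0 := by
    intro hb
    subst hb
    have ha : a ≠ 0 := fun ha => h2 ha rfl
    have := h1 w₀ hw₀
    simp only [zero_smul, add_zero, LinearMap.smul_apply, smul_eq_mul, mul_eq_zero] at this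
    rcases this with h5 | h5
    · exact ha h5
    · exact hφw h5
  have hd : d ≠ 0 := by
    intro hb
    subst hb
    have ha : c ≠ 0 := fun ha => h4 ha rfl
    have := h3 w₀ hw₀
    simp only [zero_smul, add_zero, LinearMap.smul_apply, smul_eq_mul, mul_eq_zero] at this
    rcases this with h5 | h5
    · exact ha h5
    · exact hφw h5
  have h5 := h (c * b) (-(a * d)) (fun w hw => by
    have e1 := h1 w hw
    have e2 := h3 w hw
    simp only [LinearMap.add_apply, LinearMap.smul_apply, smul_eq_mul] at e1 e2 ⊢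
    linear_combination c * e1 - a * e2)
  have hc0 : c = 0 := by
    rcases mul_eq_zero.mp h5.1 with h6 | h6
    · exact h6
    · exact absurd h6 hb
  have ha0 : a = 0 := by
    have h6 := h5.2
    rw [neg_eq_zero] at h6
    rcases mul_eq_zero.mp h6 with h7 | h7
    · exact h7
    · exact absurd h7 hd
  have h6 := h b 0 (fun w hw => by
    have e1 := h1 w hw
    simp only [LinearMap.add_apply, LinearMap.smul_apply, smul_eq_mul, ha0, zero_mul, zero_add,
      add_zero] at e1 ⊢
    exact e1)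
  exact hb h6.1

end P5M

open P5M in
theorem specP5 (hP5A : SpecP5A) (hP2 : SpecP2) (hEX2 : SpecEX2) (hCBA : SpecCBA)
    (hMEE : SpecMEE) : SpecP5 := by
  intro V _ _ _ A hA hQR W s t hC hW y hy hSy hT φ hφs hφt hφy
  by_cases hφW : ∃ w ∈ W, φ w ≠ 0
  swap
  · push Not at hφW
    intro a b
    obtain ⟨x, hx, hxW⟩ := hMEE V A hA W hC.mx (y + a • s + b • t)
    exact ⟨_, hxW, hφW _ hxW, by simpa using hx⟩
  by_contra hcon
  obtain ⟨h17, h8, hpt, hEC⟩ := hP5A V A hA hQR W s t hC hW y hy hSy hT φ hφs hφt hφy hφW hcon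
  obtain ⟨φ₁, ψ₁, h1s, h1t, h1y, h2s, h2t, h2y, -, -, hind⟩ :=
    hEX2 V A hA W s t hC y hy 0 W.zero_mem (Or.inl ⟨hW, rfl⟩)
  obtain ⟨ψ, hψ, hindψ⟩ := indep W φ φ₁ ψ₁ hφW hind
  have hψs : ψ s = 0 := by rcases hψ with h | h <;> rw [h] <;> assumption
  have hψt : ψ t = 0 := by rcases hψ with h | h <;> rw [h] <;> assumption
  have hψy : ψ y = 0 := by rcases hψ with h | h <;> rw [h] <;> assumption
  obtain ⟨hst, -, -, -⟩ := hCBA V A hA W s t hC
  set Y : Set V := cs A (FF W s t) y with hY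
  have hmemFF : ∀ a b : ZMod 3, a • s + b • t ∈ FF W s t := by
    intro a b
    refine Submodule.mem_sup_right ?_
    exact Submodule.add_mem _ (Submodule.smul_mem _ _ (Submodule.subset_span (by simp)))
      (Submodule.smul_mem _ _ (Submodule.subset_span (by simp)))
  -- the counts
  have htot : ∑ u : ZMod 3, ∑ v : ZMod 3, NV Y φ ψ u v = 17 := by
    have := count Y φ ψ (fun _ _ => True)
    simp only [and_true, if_true] at this
    rw [← this]
    simpa using h17
  have hEq : ∀ p q : ZMod 3, EC A W s t y (p • φ + q • ψ) 1 =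
      ∑ u : ZMod 3, ∑ v : ZMod 3, if p * u + q * v = 1 then NV Y φ ψ u v else 0 := by
    intro p q
    rw [← count Y φ ψ (fun u v => p * u + q * v = 1)]
    unfold EC
    congr 1
    ext x
    simp only [Set.mem_ofPred_eq, hY, cs, LinearMap.add_apply, LinearMap.smul_apply, smul_eq_mul,
      and_assoc]
  have hge : ∀ p q : ZMod 3, (p ≠ 0 ∨ q ≠ 0) → 3 ≤ EC A W s t y (p • φ + q • ψ) 1 := by
    intro p q hpq
    refine (hP2 V A hA hQR W s t hC hW y (p • φ + q • ψ) 1 ?_ ?_ ?_ ?_).1
    · simp [hφs, hψs]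
    · simp [hφt, hψt]
    · simp [hφy, hψy]
    · by_contra hno
      push Not at hno
      obtain ⟨h1, h2⟩ := hindψ p q hno
      rcases hpq with h | h
      · exact h h1
      · exact h h2
  have hEφ : EC A W s t y φ 1 = NV Y φ ψ 1 0 + NV Y φ ψ 1 1 + NV Y φ ψ 1 2 := by
    have h := hEq 1 0
    have e : ((1 : ZMod 3) • φ + (0 : ZMod 3) • ψ) = φ := by simp
    rw [e, ex10] at h
    exact h
  -- the elements with `φ x = 0`
  have hz : ∀ x, x ∈ Y ∧ φ x = 0 ↔ ∃ p : ZMod 3 × ZMod 3, y + p.1 • s + p.2 • t ∈ A ∧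
      y + p.1 • s + p.2 • t = x := by
    intro x
    constructor
    · rintro ⟨⟨hx, hxF⟩, h0⟩
      obtain ⟨a, b, hab⟩ := hpt x hx hxF h0
      exact ⟨(a, b), by rw [hab] at hx; exact hx, hab.symm⟩
    · rintro ⟨p, hp, rfl⟩
      refine ⟨⟨hp, ?_⟩, ?_⟩
      · have : y + p.1 • s + p.2 • t - y = p.1 • s + p.2 • t := by abel
        rw [this]
        exact hmemFF _ _
      · simp [hφs, hφt, hφy]
  have hinj : Function.Injective (fun p : ZMod 3 × ZMod 3 => y + p.1 • s + p.2 • t) := by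
    intro p q hpq
    have h0 : (p.1 - q.1) • s + (p.2 - q.2) • t = 0 := by
      have : y + p.1 • s + p.2 • t = y + q.1 • s + q.2 • t := hpq
      rw [sub_smul, sub_smul]
      have h1 : p.1 • s + p.2 • t = q.1 • s + q.2 • t := by
        rw [add_assoc, add_assoc] at this
        exact add_left_cancel this
      calc p.1 • s - q.1 • s + (p.2 • t - q.2 • t) = (p.1 • s + p.2 • t) - (q.1 • s + q.2 • t) := by
            abel
        _ = 0 := by rw [h1]; abel
    obtain ⟨h1, h2⟩ := hst _ _ (by rw [h0]; exact W.zero_mem)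
    exact Prod.ext (sub_eq_zero.mp h1) (sub_eq_zero.mp h2)
  have h80 : {x | x ∈ Y ∧ φ x = 0}.ncard = 8 := by
    rw [← h8, ← Set.ncard_image_of_injective _ hinj]
    congr 1
    ext x
    rw [Set.mem_ofPred_eq, hz x]
    rfl
  have hψ0 : ∀ x, x ∈ Y → φ x = 0 → ψ x = 0 := by
    intro x hx h0
    obtain ⟨p, -, rfl⟩ := (hz x).mp ⟨hx, h0⟩
    simp [hψs, hψt, hψy]
  have hN0 : ∀ v : ZMod 3, v ≠ 0 → NV Y φ ψ 0 v = 0 := by
    intro v hv
    unfold NV
    rw [Set.ncard_eq_zero]
    ext x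
    simp only [Set.mem_ofPred_eq, Set.mem_empty_iff_false, iff_false]
    rintro ⟨h1, h2, h3⟩
    exact hv (by rw [← h3]; exact hψ0 x h1 h2)
  have hN00 : NV Y φ ψ 0 0 = 8 := by
    rw [← h80]
    unfold NV
    congr 1
    ext x
    simp only [Set.mem_ofPred_eq]
    constructor
    · rintro ⟨h1, h2, _⟩
      exact ⟨h1, h2⟩
    · rintro ⟨h1, h2⟩
      exact ⟨h1, h2, hψ0 x h1 h2⟩
  have hN01 := hN0 1 (by decide)
  have hN02 := hN0 2 (by decide)
  have k01 := hge 0 1 (Or.inr (by decide))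
  have k02 := hge 0 2 (Or.inr (by decide))
  have k11 := hge 1 1 (Or.inr (by decide))
  have k21 := hge 2 1 (Or.inr (by decide))
  have k12 := hge 1 2 (Or.inr (by decide))
  have k22 := hge 2 2 (Or.inr (by decide))
  rw [hEq] at k01 k02 k11 k21 k12 k22
  rw [hEφ] at hEC
  rw [ex01] at k01
  rw [ex02] at k02
  rw [ex11] at k11
  rw [ex21] at k21
  rw [ex12] at k12
  rw [ex22] at k22
  rw [sum3, sum3, sum3, sum3] at htot
  omega

end Pool.Agent.Lib.MP_b63a06_co.TR
end

section
set_option autoImplicit false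

/-!
# MP_b63a06_co, module P5A: an exceptional hyperplane has eight points (helper17)
-/

namespace Pool.Agent.Lib.MP_b63a06_co.TR

namespace P5AM

theorem neg_of_ne : ∀ a b : ZMod 3, a ≠ 0 → b ≠ 0 → a ≠ b → a = -b := by decide

theorem sz_le (P : Pat) (a b : ZMod 3) : sz P a b ≤ 3 := by
  have h := Set.ncard_le_ncard (Set.subset_univ {i | P a b i}) Set.finite_univ
  have h2 : (Set.univ : Set (ZMod 3)).ncard = 3 := by
    rw [Set.ncard_univ, Nat.card_zmod]
  rw [h2] at h
  exact h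

theorem compl_card (α β : ZMod 3) :
    {p : ZMod 3 × ZMod 3 | ¬ (p.1 = α ∧ p.2 = β)}.ncard = 8 := by
  rw [Set.ncard_eq_toFinset_card']
  revert α β
  decide

end P5AM

open P5AM

theorem specP5A (hPL1 : SpecPL1) (hSPN : SpecSPN) (hEXF : SpecEXF) (hCBA : SpecCBA)
    (hYSM : SpecYSM) : SpecP5A := by
  intro V _ _ _ A hA hQ W s t hC hW y hy hyS hle φ hs ht hφy hφW hex
  obtain ⟨hT, hE, hsz, hinj⟩ := (hPL1 V A hA hQ W s t hC hW y hy hyS hle φ hs ht hφy hφW).resolve_left
    hex
  obtain ⟨hTT, α, β, hα, hβ, hn, hP, hsα, hsβ, ⟨b₁, hb₁⟩, ⟨a₁, ha₁⟩, hcard⟩ := hE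
  have hind := (hCBA V A hA W s t hC).1
  have hFF := (hYSM V A W s t).1
  have hind3 : ∀ a b c : ZMod 3, a • s + b • t + c • y ∈ W → a = 0 ∧ b = 0 ∧ c = 0 := by
    intro a b c h
    have hc : c = 0 := by
      by_contra hc
      apply hy
      rw [hFF]
      refine ⟨-(c⁻¹ * a), -(c⁻¹ * b), ?_⟩
      have h1 := W.smul_mem c⁻¹ h
      have h2 : y - (-(c⁻¹ * a)) • s - (-(c⁻¹ * b)) • t = c⁻¹ • (a • s + b • t + c • y) := by
        rw [smul_add, smul_add, smul_smul, smul_smul, smul_smul, inv_mul_cancel₀ hc, one_smul,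
          neg_smul, neg_smul]
        abel
      rw [h2]
      exact h1
    subst hc
    rw [zero_smul, add_zero] at h
    exact ⟨(hind a b h).1, (hind a b h).2, rfl⟩
  -- the points
  have hpt : ∀ a b : ZMod 3, ¬ (a = α ∧ b = β) → y + a • s + b • t ∈ A := by
    intro a b hab
    by_contra hnot
    obtain ⟨w₀, hw₀, hw₀', hw₀A⟩ := hP a b hab
    obtain ⟨Y, hYd⟩ : ∃ Y : Set ↥W, Y = {w | y + a • s + b • t + w.1 ∈ A} := ⟨_, rfl⟩
    have h4 : 4 ≤ Y.ncard := by
      apply hSPN ↥W Y
      · rw [hYd]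
        intro h
        apply hnot
        have h' : y + a • s + b • t + ((0 : ↥W) : V) ∈ A := h
        simpa using h'
      · intro f
        obtain ⟨φ', hf, hs', ht', hy'⟩ := hEXF V W s t y hind3 f
        by_cases hW' : ∃ w ∈ W, φ' w ≠ 0
        · rcases hPL1 V A hA hQ W s t hC hW y hy hyS hle φ' hs' ht' hy' hW' with hg | hg
          · obtain ⟨w, hw, hw', hwA⟩ := hg a b
            refine ⟨⟨w, hw⟩, ?_, ?_⟩
            · rw [hYd]; exact hwA
            · rw [← hf]; exact hw'
          · obtain ⟨-, ⟨-, α', β', hα', hβ', -, hP', hsα', hsβ', -, -, -⟩, hsz', -⟩ := hg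
            have hsame : ∀ a b, sz (PW A W s t y φ') a b = sz (PW A W s t y φ) a b := by
              intro a b
              rw [← hsz', ← hsz]
            have e1 : α' = α := by
              by_contra hne
              have h1 := neg_of_ne α' α hα' hα hne
              apply hb₁
              rw [← h1, ← hsame]
              exact hsα' b₁
            have e2 : β' = β := by
              by_contra hne
              have h1 := neg_of_ne β' β hβ' hβ hne
              apply ha₁
              rw [← h1, ← hsame]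
              exact hsβ' a₁
            subst e1 e2
            obtain ⟨w, hw, hw', hwA⟩ := hP' a b hab
            refine ⟨⟨w, hw⟩, ?_, ?_⟩
            · rw [hYd]; exact hwA
            · rw [← hf]; exact hw'
        · refine ⟨⟨w₀, hw₀⟩, ?_, ?_⟩
          · rw [hYd]; exact hw₀A
          · rw [← hf]
            by_contra hne
            exact hW' ⟨w₀, hw₀, hne⟩
    have h5 : Y.ncard ≤ (cs A W (y + a • s + b • t)).ncard := by
      rw [← Set.ncard_image_of_injective Y
        (f := fun w : ↥W => y + a • s + b • t + w.1) (by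
          intro u v huv
          apply Subtype.ext
          exact add_left_cancel huv)]
      apply Set.ncard_le_ncard _ (Set.toFinite _)
      rintro _ ⟨w, hw, rfl⟩
      rw [hYd] at hw
      refine ⟨hw, ?_⟩
      show y + a • s + b • t + w.1 - (y + a • s + b • t) ∈ W
      rw [add_sub_cancel_left]
      exact w.2
    rw [hsz] at h5
    have h6 := sz_le (PW A W s t y φ) a b
    omega
  have hnp : y + α • s + β • t ∉ A := by
    intro h
    apply hn
    exact ⟨0, W.zero_mem, map_zero φ, by rw [add_zero]; exact h⟩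
  refine ⟨hT, ?_, ?_, ?_⟩
  · have h1 : {p : ZMod 3 × ZMod 3 | y + p.1 • s + p.2 • t ∈ A} =
        {p : ZMod 3 × ZMod 3 | ¬ (p.1 = α ∧ p.2 = β)} := by
      ext ⟨a, b⟩
      constructor
      · rintro h ⟨h1, h2⟩
        have h1' : a = α := h1
        have h2' : b = β := h2
        subst h1' h2'
        exact hnp h
      · intro h
        exact hpt a b h
    rw [h1]
    exact compl_card α β
  · intro x hx hxF hφx
    obtain ⟨a, b, hw⟩ := (hFF (x - y)).1 hxF
    have hφw : φ (x - y - a • s - b • t) = 0 := by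
      rw [map_sub, map_sub, map_sub, map_smul, map_smul, hs, ht, hφy, hφx]
      simp
    have hx' : x = y + a • s + b • t + (x - y - a • s - b • t) := by abel
    by_cases hab : a = α ∧ b = β
    · exfalso
      obtain ⟨rfl, rfl⟩ := hab
      exact hn ⟨_, hw, hφw, by rw [← hx']; exact hx⟩
    · refine ⟨a, b, ?_⟩
      apply hinj x hx _ (hpt a b hab) hxF
      · have h2 : x - (y + a • s + b • t) = x - y - a • s - b • t := by abel
        rw [h2]; exact hw
      · rw [map_add, map_add, map_smul, map_smul, hs, ht, hφy, hφx]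
        simp
  · have hEC : EC A W s t y φ 1 = {p : ZMod 3 × ZMod 3 | PW A W s t y φ p.1 p.2 1}.ncard := by
      unfold EC
      symm
      have hch : ∀ p : ZMod 3 × ZMod 3, PW A W s t y φ p.1 p.2 1 →
          ∃ x, x ∈ A ∧ x - y ∈ FF W s t ∧ φ x = 1 ∧ x - y - p.1 • s - p.2 • t ∈ W := by
        rintro ⟨a, b⟩ ⟨w, hw, hw1, hwA⟩
        have h0 : y + a • s + b • t + w - y - a • s - b • t = w := by abel
        refine ⟨y + a • s + b • t + w, hwA, ?_, ?_, ?_⟩
        · rw [hFF]
          exact ⟨a, b, by rw [h0]; exact hw⟩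
        · rw [map_add, map_add, map_add, map_smul, map_smul, hs, ht, hφy, hw1]
          simp
        · show y + a • s + b • t + w - y - a • s - b • t ∈ W
          rw [h0]; exact hw
      choose! g hg using hch
      apply Set.ncard_congr (fun p _ => g p)
      · intro p hp
        exact ⟨(hg p hp).1, (hg p hp).2.1, (hg p hp).2.2.1⟩
      · intro p q hp hq hpq
        have h1 := (hg p hp).2.2.2
        have h2 := (hg q hq).2.2.2
        have hpq' : g p = g q := hpq
        rw [hpq'] at h1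
        have h3 := W.sub_mem h2 h1
        have h4 : g q - y - q.1 • s - q.2 • t - (g q - y - p.1 • s - p.2 • t) =
            (p.1 - q.1) • s + (p.2 - q.2) • t := by
          rw [sub_smul, sub_smul]; abel
        rw [h4] at h3
        obtain ⟨h5, h6⟩ := hind _ _ h3
        exact Prod.ext (sub_eq_zero.1 h5) (sub_eq_zero.1 h6)
      · rintro x ⟨hx, hxF, hφx⟩
        obtain ⟨a, b, hw⟩ := (hFF (x - y)).1 hxF
        have hp : PW A W s t y φ a b 1 := by
          refine ⟨x - y - a • s - b • t, hw, ?_, ?_⟩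
          · rw [map_sub, map_sub, map_sub, map_smul, map_smul, hs, ht, hφy, hφx]
            simp
          · have hx' : y + a • s + b • t + (x - y - a • s - b • t) = x := by abel
            rw [hx']; exact hx
        refine ⟨(a, b), hp, ?_⟩
        obtain ⟨h1, h2, h3, h4⟩ := hg (a, b) hp
        apply hinj _ h1 _ hx h2
        · have h5 := W.sub_mem h4 hw
          have h6 : g (a, b) - y - (a, b).1 • s - (a, b).2 • t - (x - y - a • s - b • t) =
              g (a, b) - x := by
            show g (a, b) - y - a • s - b • t - (x - y - a • s - b • t) = g (a, b) - x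
            abel
          rw [h6] at h5
          exact h5
        · rw [h3, hφx]
    rw [hEC]
    exact hcard

end Pool.Agent.Lib.MP_b63a06_co.TR
end

section
set_option autoImplicit false

/-!
# MP_b63a06_co, module P8 (helper30): the eight hyperplanes of two functionals
-/

namespace Pool.Agent.Lib.MP_b63a06_co.TR

namespace P8M

theorem cnt_aux : ∀ u v : ZMod 3,
    (∑ p : ZMod 3 × ZMod 3, if p.1 * u + p.2 * v = 1 then 1 else 0) =
      3 * (if ¬ (u = 0 ∧ v = 0) then 1 else 0) := by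
  decide

theorem ncard_sum {X : Type} [Fintype X] (Q : X → Prop) [DecidablePred Q] :
    {x | Q x}.ncard = ∑ x, if Q x then 1 else 0 := by
  rw [Set.ncard_eq_toFinset_card', ← Finset.card_filter]
  congr 1
  ext x
  simp

end P8M

theorem specP8 : SpecP8 := by
  classical
  intro V _ _ _ Y φ ψ
  have : Fintype V := Fintype.ofFinite V
  simp_rw [P8M.ncard_sum]
  rw [Finset.sum_comm, Finset.mul_sum]
  refine Finset.sum_congr rfl fun x _ => ?_
  by_cases hx : x ∈ Y
  · have h := P8M.cnt_aux (φ x) (ψ x)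
    simpa [hx] using h
  · simp [hx]

end Pool.Agent.Lib.MP_b63a06_co.TR
end

section
set_option autoImplicit false

/-!
# Module PD: the elements of a hyperplane satisfy the rule
-/

namespace Pool.Agent.Lib.MP_b63a06_co.TR

theorem specPD (hP1 : SpecP1) (hCBA : SpecCBA) (hYSM : SpecYSM) : SpecPD := by
  intro V _ _ _ A hA hQR W s t hC y φ c hs ht hy hW
  refine ⟨?_, ?_⟩
  · intro p hp w
    by_contra hcon
    rw [not_or, not_or] at hcon
    obtain ⟨h1, h2, h3⟩ := hcon
    have key := hP1 V A hA hQR W s t hC φ c hW (y + p.1 • s + p.2 • t) w.1 w.2.1 w.2.2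
      (fun w' hw' hc' => hp ⟨w', hw', hc'⟩)
      (by
        intro w' hw' hc' hne
        have hne' : (⟨w', hw', hc'⟩ : {w : V // w ∈ W ∧ φ w = c}) ≠ w := fun h =>
          hne (congrArg Subtype.val h)
        refine ⟨fun h => h1 ⟨_, hne', Or.inl ?_⟩, fun h => h1 ⟨_, hne', Or.inr (Or.inl ?_)⟩,
          fun h => h1 ⟨_, hne', Or.inr (Or.inr (Or.inl ?_))⟩,
          fun h => h1 ⟨_, hne', Or.inr (Or.inr (Or.inr ?_))⟩⟩
        · have e : y + (p + (1, 0)).1 • s + (p + (1, 0)).2 • t + w' =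
              y + p.1 • s + p.2 • t + s + w' := by
            simp only [Prod.fst_add, Prod.snd_add, add_zero, add_smul, one_smul]
            abel
          show y + (p + (1, 0)).1 • s + (p + (1, 0)).2 • t + w' ∈ A
          rw [e]; exact h
        · have e : y + (p - (1, 0)).1 • s + (p - (1, 0)).2 • t + w' =
              y + p.1 • s + p.2 • t - s + w' := by
            simp only [Prod.fst_sub, Prod.snd_sub, sub_zero, sub_smul, one_smul]
            abel
          show y + (p - (1, 0)).1 • s + (p - (1, 0)).2 • t + w' ∈ A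
          rw [e]; exact h
        · have e : y + (p + (0, 1)).1 • s + (p + (0, 1)).2 • t + w' =
              y + p.1 • s + p.2 • t + t + w' := by
            simp only [Prod.fst_add, Prod.snd_add, add_zero, add_smul, one_smul]
            abel
          show y + (p + (0, 1)).1 • s + (p + (0, 1)).2 • t + w' ∈ A
          rw [e]; exact h
        · have e : y + (p - (0, 1)).1 • s + (p - (0, 1)).2 • t + w' =
              y + p.1 • s + p.2 • t - t + w' := by
            simp only [Prod.fst_sub, Prod.snd_sub, sub_zero, sub_smul, one_smul]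
            abel
          show y + (p - (0, 1)).1 • s + (p - (0, 1)).2 • t + w' ∈ A
          rw [e]; exact h)
    rcases key with h | h
    · apply h2
      have e : y + (p + (1, -1)).1 • s + (p + (1, -1)).2 • t + w.1 =
          y + p.1 • s + p.2 • t + s - t + w.1 := by
        simp only [Prod.fst_add, Prod.snd_add, add_smul, one_smul, neg_smul]
        abel
      show y + (p + (1, -1)).1 • s + (p + (1, -1)).2 • t + w.1 ∈ A
      rw [e]; exact h
    · apply h3
      have e : y + (p - (1, -1)).1 • s + (p - (1, -1)).2 • t + w.1 =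
          y + p.1 • s + p.2 • t - s + t + w.1 := by
        simp only [Prod.fst_sub, Prod.snd_sub, sub_smul, one_smul, neg_smul]
        abel
      show y + (p - (1, -1)).1 • s + (p - (1, -1)).2 • t + w.1 ∈ A
      rw [e]; exact h
  · intro _
    obtain ⟨hind, -, -, -⟩ := hCBA V A hA W s t hC
    obtain ⟨hFF, -⟩ := hYSM V A W s t
    have hrhs : ∑ w : {w : V // w ∈ W ∧ φ w = c},
        {p : ZMod 3 × ZMod 3 | y + p.1 • s + p.2 • t + w.1 ∈ A}.ncard =
        Nat.card (Σ w : {w : V // w ∈ W ∧ φ w = c},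
          {p : ZMod 3 × ZMod 3 | y + p.1 • s + p.2 • t + w.1 ∈ A}) := by
      rw [Nat.card_sigma]
      rfl
    rw [hrhs]
    unfold EC
    rw [← Nat.card_coe_set_eq]
    symm
    refine Nat.card_congr (Equiv.ofBijective
      (fun q => ⟨y + q.2.1.1 • s + q.2.1.2 • t + q.1.1, q.2.2, ?_, ?_⟩) ⟨?_, ?_⟩)
    · rw [hFF]
      refine ⟨q.2.1.1, q.2.1.2, ?_⟩
      have e : y + q.2.1.1 • s + q.2.1.2 • t + q.1.1 - y - q.2.1.1 • s - q.2.1.2 • t = q.1.1 := by
        abel
      rw [e]
      exact q.1.2.1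
    · rw [map_add, map_add, map_add, map_smul, map_smul, hy, hs, ht, q.1.2.2]
      simp
    · rintro ⟨⟨w, hw, hc⟩, ⟨⟨a, b⟩, hab⟩⟩ ⟨⟨w', hw', hc'⟩, ⟨⟨a', b'⟩, hab'⟩⟩ h
      have h1 : y + a • s + b • t + w = y + a' • s + b' • t + w' := congrArg Subtype.val h
      have h2 : (a - a') • s + (b - b') • t = w' - w := by
        rw [sub_smul, sub_smul]
        have : a • s + b • t + w = a' • s + b' • t + w' := by
          have h3 := h1
          simp only [add_assoc] at h3 ⊢
          exact add_left_cancel h3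
        have h4 : a • s + b • t - (a' • s + b' • t) = w' - w := by
          rw [sub_eq_sub_iff_add_eq_add, this]
          abel
        rw [← h4]
        abel
      have h3 : (a - a') • s + (b - b') • t ∈ W := by
        rw [h2]; exact W.sub_mem hw' hw
      obtain ⟨h4, h5⟩ := hind _ _ h3
      have ha : a = a' := sub_eq_zero.mp h4
      have hb : b = b' := sub_eq_zero.mp h5
      subst ha hb
      have hww : w = w' := add_left_cancel h1
      subst hww
      rfl
    · rintro ⟨x, hxA, hxF, hxc⟩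
      obtain ⟨a, b, hw⟩ := (hFF _).mp hxF
      have hphi : φ (x - y - a • s - b • t) = c := by
        rw [map_sub, map_sub, map_sub, map_smul, map_smul, hy, hs, ht, hxc]
        simp
      have hx : y + a • s + b • t + (x - y - a • s - b • t) = x := by abel
      refine ⟨⟨⟨x - y - a • s - b • t, hw, hphi⟩, ⟨(a, b), ?_⟩⟩, ?_⟩
      · show y + a • s + b • t + (x - y - a • s - b • t) ∈ A
        rw [hx]; exact hxA
      · exact Subtype.ext hx

end Pool.Agent.Lib.MP_b63a06_co.TR
end

section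
/-!
# MP_b63a06_co, module PE (helper70): two positions
-/
set_option autoImplicit false

namespace Pool.Agent.Lib.MP_b63a06_co.TR

namespace PEM

/-- membership in the set of an element with positions `0` and `d` only. -/
def M (d : ZMod 3 × ZMod 3) (X Y : Fin 3 → Bool) (w : Fin 3) (r : ZMod 3 × ZMod 3) : Prop :=
  (r = 0 ∧ X w = true) ∨ (r = d ∧ Y w = true)

instance (d : ZMod 3 × ZMod 3) (X Y : Fin 3 → Bool) (w : Fin 3) (r : ZMod 3 × ZMod 3) :
    Decidable (M d X Y w r) := by unfold M; infer_instance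

/-- the rule. -/
def RB (d : ZMod 3 × ZMod 3) (X Y : Fin 3 → Bool) : Prop :=
  ∀ p : ZMod 3 × ZMod 3, (∀ w, ¬ M d X Y w p) → ∀ w,
    (∃ w', w' ≠ w ∧ (M d X Y w' (p + (1, 0)) ∨ M d X Y w' (p - (1, 0)) ∨
      M d X Y w' (p + (0, 1)) ∨ M d X Y w' (p - (0, 1)))) ∨
      M d X Y w (p + (1, -1)) ∨ M d X Y w (p - (1, -1))

instance (d : ZMod 3 × ZMod 3) (X Y : Fin 3 → Bool) : Decidable (RB d X Y) := by
  unfold RB; infer_instance

/-- the conclusion. -/
def CB (x0 x1 x2 y0 y1 y2 : Bool) : Bool :=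
  (x0 || y0) && (x1 || y1) && (x2 || y2) && ((x0 && x1) || (x0 && x2) || (x1 && x2)) &&
      ((y0 && y1) || (y0 && y2) || (y1 && y2))

theorem fin1 : ∀ u v : ZMod 3, (u, v) ≠ (0 : ZMod 3 × ZMod 3) →
    ∀ x0 x1 x2 y0 y1 y2 : Bool, RB (u, v) ![x0, x1, x2] ![y0, y1, y2] →
    CB x0 x1 x2 y0 y1 y2 = true := by
  decide +kernel

theorem fin2 : ∀ x0 x1 x2 y0 y1 y2 : Bool, CB x0 x1 x2 y0 y1 y2 = true →
    (∀ w : Fin 3, ![x0, x1, x2] w = true ∨ ![y0, y1, y2] w = true) ∧
    2 ≤ (Finset.univ.filter fun w : Fin 3 => ![x0, x1, x2] w = true).card ∧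
    2 ≤ (Finset.univ.filter fun w : Fin 3 => ![y0, y1, y2] w = true).card := by
  decide +kernel

end PEM

open PEM in
theorem specPE (hPC : SpecPC) : SpecPE := by
  classical
  intro D hD p₁ p₂ hne
  obtain ⟨h3, ha, -⟩ := hPC (Fin 3) D (by simp) hD
  have hfin : ∀ w, (D w).Finite := fun w => Set.toFinite _
  have hcard : ∀ p : ZMod 3 × ZMod 3, {w | p ∈ D w}.ncard = ∑ w, (D w ∩ {p}).ncard := by
    intro p
    have h1 : ∀ w, (D w ∩ {p}).ncard = if p ∈ D w then 1 else 0 := by
      intro w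
      by_cases hp : p ∈ D w
      · have : D w ∩ {p} = {p} := by
          ext q
          simp only [Set.mem_inter_iff, Set.mem_singleton_iff]
          constructor
          · exact fun h => h.2
          · rintro rfl
            exact ⟨hp, rfl⟩
        rw [this, if_pos hp, Set.ncard_singleton]
      · have : D w ∩ {p} = ∅ := by
          ext q
          simp only [Set.mem_inter_iff, Set.mem_singleton_iff, Set.mem_empty_iff_false, iff_false]
          rintro ⟨h, rfl⟩
          exact hp h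
        rw [this, if_neg hp, Set.ncard_empty]
    have h2 : ({w | p ∈ D w} : Set (Fin 3)) = ((Finset.univ.filter fun w => p ∈ D w : Finset _) :
        Set (Fin 3)) := by
      ext w
      simp
    rw [h2, Set.ncard_coe_finset, Finset.card_filter]
    exact Finset.sum_congr rfl fun w _ => (h1 w).symm
  -- one position is empty
  have key : ∀ p q : ZMod 3 × ZMod 3, (∀ w, q ∉ D w) → 2 ≤ ∑ w, (D w \ {p, q}).ncard := by
    intro p q hq
    have e1 : ∀ w, (D w \ {p, q}).ncard + (D w ∩ {p}).ncard = (D w).ncard := by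
      intro w
      have h1 : D w \ {p, q} = D w \ {p} := by
        ext r
        simp only [Set.mem_sdiff, Set.mem_insert_iff, Set.mem_singleton_iff]
        constructor
        · rintro ⟨h, h'⟩
          exact ⟨h, fun e => h' (Or.inl e)⟩
        · rintro ⟨h, h'⟩
          refine ⟨h, ?_⟩
          rintro (e | e)
          · exact h' e
          · exact hq w (e ▸ h)
      rw [h1]
      have := Set.ncard_inter_add_ncard_sdiff_eq_ncard (D w) {p} (hfin w)
      omega
    have e2 : ∑ w, (D w \ {p, q}).ncard + {w | p ∈ D w}.ncard = ∑ w, (D w).ncard := by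
      rw [hcard p, ← Finset.sum_add_distrib]
      exact Finset.sum_congr rfl fun w _ => e1 w
    by_cases hp : ∃ w, p ∈ D w
    · have := ha p hp
      omega
    · have h0 : {w | p ∈ D w}.ncard = 0 := by
        have : ({w | p ∈ D w} : Set (Fin 3)) = ∅ := by
          ext w
          simp only [Set.mem_ofPred_eq, Set.mem_empty_iff_false, iff_false]
          exact fun h => hp ⟨w, h⟩
        rw [this, Set.ncard_empty]
      omega
  refine ⟨?_, ?_, ?_⟩
  · intro h
    have e : ∀ w, D w \ {p₁, p₂} = D w := by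
      intro w
      ext r
      simp only [Set.mem_sdiff, Set.mem_insert_iff, Set.mem_singleton_iff, and_iff_left_iff_imp]
      intro hr
      rintro (e | e)
      · exact (h w).1 (e ▸ hr)
      · exact (h w).2 (e ▸ hr)
    simpa only [e] using h3
  · rintro (h | h)
    · have := key p₂ p₁ h
      simpa only [Set.pair_comm] using this
    · exact key p₁ p₂ h
  · intro h0
    have hsub : ∀ w q, q ∈ D w → q = p₁ ∨ q = p₂ := by
      intro w q hq
      have h1 : (D w \ {p₁, p₂}).ncard = 0 := by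
        have := (Finset.sum_eq_zero_iff.1 h0) w (Finset.mem_univ w)
        exact this
      rw [Set.ncard_eq_zero ((hfin w).subset Set.sdiff_subset)] at h1
      by_contra hc
      have : q ∈ D w \ {p₁, p₂} := ⟨hq, by simpa using hc⟩
      rw [h1] at this
      exact this
    obtain ⟨⟨u, v⟩, hd⟩ : ∃ d : ZMod 3 × ZMod 3, d = p₂ - p₁ := ⟨_, rfl⟩
    have hd0 : (u, v) ≠ (0 : ZMod 3 × ZMod 3) := by
      rw [hd]
      exact sub_ne_zero.2 hne.symm
    have hM : ∀ w (r : ZMod 3 × ZMod 3),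
        M (u, v) ![decide (p₁ ∈ D 0), decide (p₁ ∈ D 1), decide (p₁ ∈ D 2)]
          ![decide (p₂ ∈ D 0), decide (p₂ ∈ D 1), decide (p₂ ∈ D 2)] w r ↔ p₁ + r ∈ D w := by
      intro w r
      have hX : ![decide (p₁ ∈ D 0), decide (p₁ ∈ D 1), decide (p₁ ∈ D 2)] w =
          decide (p₁ ∈ D w) := by
        fin_cases w <;> rfl
      have hY : ![decide (p₂ ∈ D 0), decide (p₂ ∈ D 1), decide (p₂ ∈ D 2)] w =
          decide (p₂ ∈ D w) := by
        fin_cases w <;> rfl
      unfold M
      rw [hX, hY, decide_eq_true_iff, decide_eq_true_iff, hd]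
      constructor
      · rintro (⟨h, h'⟩ | ⟨h, h'⟩)
        · rw [h, add_zero]
          exact h'
        · rw [h, add_sub_cancel]
          exact h'
      · intro h
        rcases hsub w _ h with e | e
        · left
          exact ⟨by simpa using e, e ▸ h⟩
        · right
          exact ⟨by rw [← e]; abel, e ▸ h⟩
    have hRB : RB (u, v) ![decide (p₁ ∈ D 0), decide (p₁ ∈ D 1), decide (p₁ ∈ D 2)]
          ![decide (p₂ ∈ D 0), decide (p₂ ∈ D 1), decide (p₂ ∈ D 2)] := by
      intro r hr w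
      simp only [hM] at hr ⊢
      have := hD (p₁ + r) hr w
      simpa only [add_assoc, add_sub_assoc] using this
    have h5 := fin2 _ _ _ _ _ _ (fin1 u v hd0 _ _ _ _ _ _ hRB)
    have hX : ∀ w, (![decide (p₁ ∈ D 0), decide (p₁ ∈ D 1), decide (p₁ ∈ D 2)] w = true) =
        (p₁ ∈ D w) := by
      intro w
      fin_cases w <;> simp
    have hY : ∀ w, (![decide (p₂ ∈ D 0), decide (p₂ ∈ D 1), decide (p₂ ∈ D 2)] w = true) =
        (p₂ ∈ D w) := by
      intro w
      fin_cases w <;> simp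
    obtain ⟨g1, g2, g3⟩ := h5
    have c1 : {w | p₁ ∈ D w}.ncard = (Finset.univ.filter fun w : Fin 3 =>
        ![decide (p₁ ∈ D 0), decide (p₁ ∈ D 1), decide (p₁ ∈ D 2)] w = true).card := by
      rw [← Set.ncard_coe_finset]
      congr 1
      ext w
      simp only [Set.mem_ofPred_eq, Finset.coe_filter, Finset.mem_univ, true_and]
      rw [hX w]
    have c2 : {w | p₂ ∈ D w}.ncard = (Finset.univ.filter fun w : Fin 3 =>
        ![decide (p₂ ∈ D 0), decide (p₂ ∈ D 1), decide (p₂ ∈ D 2)] w = true).card := by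
      rw [← Set.ncard_coe_finset]
      congr 1
      ext w
      simp only [Set.mem_ofPred_eq, Finset.coe_filter, Finset.mem_univ, true_and]
      rw [hY w]
    refine ⟨fun w => ?_, ?_, ?_⟩
    · have := g1 w
      rwa [hX w, hY w] at this
    · rw [c1]
      exact g2
    · rw [c2]
      exact g3

end Pool.Agent.Lib.MP_b63a06_co.TR
end

section
/-!
MP_b63a06_co, TR, module PL1: one hyperplane is good or exceptional.
-/
set_option autoImplicit false

namespace Pool.Agent.Lib.MP_b63a06_co.TR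

namespace PL1M

variable {V : Type} [AddCommGroup V] [Module (ZMod 3) V]

theorem sq_one : ∀ c : ZMod 3, c ≠ 0 → c * c = 1 := by decide

theorem card_ker [Finite V] (W : Submodule (ZMod 3) V) (φ : V →ₗ[ZMod 3] ZMod 3)
    (h : ∃ w ∈ W, φ w ≠ 0) :
    Nat.card W = 3 * Nat.card ↥(W ⊓ LinearMap.ker φ) := by
  obtain ⟨w, hw, hφ⟩ := h
  set ψ : W →ₗ[ZMod 3] ZMod 3 := φ.domRestrict W with hψ
  have hs : Function.Surjective ψ := by
    intro c
    refine ⟨(c * φ w) • ⟨w, hw⟩, ?_⟩
    rw [map_smul, hψ, LinearMap.domRestrict_apply, smul_eq_mul, mul_assoc, sq_one _ hφ, mul_one]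
  have h1 := Submodule.card_eq_card_quotient_mul_card (LinearMap.ker ψ)
  have h2 : Nat.card (W ⧸ LinearMap.ker ψ) = 3 := by
    rw [Nat.card_congr (ψ.quotKerEquivOfSurjective hs).toEquiv, Nat.card_zmod]
  have h3 : Nat.card (LinearMap.ker ψ) = Nat.card ↥(W ⊓ LinearMap.ker φ) := by
    refine Nat.card_congr ⟨fun x => ⟨x.1.1, x.1.2, ?_⟩, fun x => ⟨⟨x.1, x.2.1⟩, ?_⟩, ?_, ?_⟩
    · exact LinearMap.mem_ker.1 x.2
    · exact x.2.2
    · intro x
      rfl
    · intro x
      rfl
  rw [h1, h2, h3]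
  ring

/-- `H` of the module HQR -/
theorem sgl_HS (A : Set V) (W : Submodule (ZMod 3) V) (φ : V →ₗ[ZMod 3] ZMod 3) (z v : V)
    (hz : z ∈ W) (hφ : φ z = 1) (hv : Sgl A W v) :
    HS (fun x => ∃ a ∈ A, a - x ∈ W ⊓ LinearMap.ker φ) z v := by
  refine ⟨⟨v, hv.1, by simp⟩, ?_, ?_⟩
  · rintro ⟨a, ha, hw, hk⟩
    have h1 : a = v := hv.2 a ha (by
      have := W.add_mem hw hz
      rwa [show a - (v + z) + z = a - v by abel] at this)
    rw [h1] at hk
    have h2 : φ (v - (v + z)) = 0 := hk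
    rw [show v - (v + z) = -z by abel, map_neg, hφ] at h2
    exact absurd h2 (by decide)
  · rintro ⟨a, ha, hw, hk⟩
    have h1 : a = v := hv.2 a ha (by
      have := W.sub_mem hw hz
      rwa [show a - (v - z) - z = a - v by abel] at this)
    rw [h1] at hk
    have h2 : φ (v - (v - z)) = 0 := hk
    rw [show v - (v - z) = z by abel, hφ] at h2
    exact absurd h2 (by decide)

theorem PP_eq (A : Set V) (W : Submodule (ZMod 3) V) (φ : V →ₗ[ZMod 3] ZMod 3) (z s t y : V)
    (hz : z ∈ W) (hφ : φ z = 1) :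
    PP (fun x => ∃ a ∈ A, a - x ∈ W ⊓ LinearMap.ker φ) s t z y = PW A W s t y φ := by
  funext a b i
  apply propext
  constructor
  · rintro ⟨x, hx, hw, hk⟩
    refine ⟨x - (y + a • s + b • t), ?_, ?_, ?_⟩
    · have := W.add_mem hw (W.smul_mem i hz)
      rwa [show x - (y + a • s + b • t + i • z) + i • z = x - (y + a • s + b • t) by abel] at this
    · have h2 : φ (x - (y + a • s + b • t + i • z)) = 0 := hk
      rw [show x - (y + a • s + b • t + i • z) = x - (y + a • s + b • t) - i • z by abel, map_sub,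
        map_smul, hφ, smul_eq_mul, mul_one, sub_eq_zero] at h2
      exact h2
    · rwa [show y + a • s + b • t + (x - (y + a • s + b • t)) = x by abel]
  · rintro ⟨w, hw, hi, hx⟩
    refine ⟨_, hx, ?_, ?_⟩
    · rw [show y + a • s + b • t + w - (y + a • s + b • t + i • z) = w - i • z by abel]
      exact W.sub_mem hw (W.smul_mem i hz)
    · have h : φ (y + a • s + b • t + w - (y + a • s + b • t + i • z)) = 0 := by
        rw [show y + a • s + b • t + w - (y + a • s + b • t + i • z) = w - i • z by abel, map_sub,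
          map_smul, hφ, hi, smul_eq_mul, mul_one, sub_self]
      exact h

end PL1M

open PL1M in
/-- PL1 -/
theorem specPL1 (hHQR : SpecHQR) (hL1R : SpecL1R) (hL1F : SpecL1F) (hYSM : SpecYSM)
    (hCBA : SpecCBA) : SpecPL1 := by
  classical
  intro V _ _ _ A hA hQ W s t hC h9 y hy hys h17 φ hs ht hyφ hφ
  have hcard := card_ker W φ hφ
  set K := W ⊓ LinearMap.ker φ with hK
  have hKb : K ≠ ⊥ := by
    intro h0
    rw [h0] at hcard
    have : Nat.card (⊥ : Submodule (ZMod 3) V) = 1 := by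
      rw [Nat.card_eq_one_iff_unique]
      exact ⟨inferInstance, inferInstance⟩
    omega
  have hHR := hHQR V A hA hQ W K hC.mx inf_le_left hKb hcard
  obtain ⟨w, hw, hwφ⟩ := hφ
  set z : V := φ w • w with hz
  have hzW : z ∈ W := W.smul_mem _ hw
  have hzφ : φ z = 1 := by rw [hz, map_smul, smul_eq_mul, sq_one _ hwφ]
  have hHz : ¬ (∃ a ∈ A, a - z ∈ K) := by
    rintro ⟨a, ha, haW, hak⟩
    have h1 : a ∈ W := by
      have := W.add_mem haW hzW
      rwa [sub_add_cancel] at this
    have h2 := hC.mx.av a ha h1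
    rw [h2, zero_sub] at hak
    have h3 : φ (-z) = 0 := hak
    rw [map_neg, hzφ] at h3
    exact absurd h3 (by decide)
  have hRL := hL1R V _ hHR z s t y hHz (sgl_HS A W φ z s hzW hzφ hC.s1)
    (sgl_HS A W φ z t hzW hzφ hC.t1) (sgl_HS A W φ z y hzW hzφ hys)
  rw [hK, PP_eq A W φ z s t y hzW hzφ] at hRL
  obtain ⟨hind, -, -, -⟩ := hCBA V A hA W s t hC
  obtain ⟨hFF, -⟩ := hYSM V A W s t
  -- the coordinates
  have hco : ∀ x : V, ∃ p : ZMod 3 × ZMod 3, x ∈ cs A (FF W s t) y →
      x - y - p.1 • s - p.2 • t ∈ W := by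
    intro x
    by_cases hx : x ∈ cs A (FF W s t) y
    · obtain ⟨a, b, h⟩ := (hFF (x - y)).1 hx.2
      exact ⟨(a, b), fun _ => h⟩
    · exact ⟨0, fun h => absurd h hx⟩
  choose co hco using hco
  have huniq : ∀ (x : V) (a b a' b' : ZMod 3), x - y - a • s - b • t ∈ W →
      x - y - a' • s - b' • t ∈ W → a = a' ∧ b = b' := by
    intro x a b a' b' h h'
    have h1 := W.sub_mem h' h
    rw [show x - y - a' • s - b' • t - (x - y - a • s - b • t) = (a - a') • s + (b - b') • t by
      rw [sub_smul, sub_smul]; abel] at h1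
    obtain ⟨h2, h3⟩ := hind _ _ h1
    exact ⟨sub_eq_zero.1 h2, sub_eq_zero.1 h3⟩
  set C := cs A (FF W s t) y with hCdef
  set P := PW A W s t y φ with hP
  set f : V → ZMod 3 × ZMod 3 × ZMod 3 := fun x => ((co x).1, (co x).2, φ x) with hf
  have hφv : ∀ (a b : ZMod 3) (v : V), φ (y + a • s + b • t + v) = φ v := by
    intro a b v
    rw [map_add, map_add, map_add, map_smul, map_smul, hs, ht, hyφ]
    simp
  have himg : f '' C = {p : ZMod 3 × ZMod 3 × ZMod 3 | P p.1 p.2.1 p.2.2} := by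
    ext ⟨a, b, i⟩
    constructor
    · rintro ⟨x, hx, hxf⟩
      rw [hf, Prod.mk.injEq, Prod.mk.injEq] at hxf
      obtain ⟨ha, hb, hi⟩ := hxf
      have h1 := hco x hx
      rw [ha, hb] at h1
      refine ⟨x - y - a • s - b • t, h1, ?_, ?_⟩
      · rw [← hi, ← hφv a b (x - y - a • s - b • t)]
        congr 1
        abel
      · rw [show y + a • s + b • t + (x - y - a • s - b • t) = x by abel]
        exact hx.1
    · rintro ⟨v, hv, hvi, hx⟩
      refine ⟨y + a • s + b • t + v, ?_, ?_⟩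
      · refine ⟨hx, ?_⟩
        apply (hFF _).2
        exact ⟨a, b, by
          rw [show y + a • s + b • t + v - y - a • s - b • t = v by abel]; exact hv⟩
      · have hxC : y + a • s + b • t + v ∈ C := by
          refine ⟨hx, ?_⟩
          apply (hFF _).2
          exact ⟨a, b, by
            rw [show y + a • s + b • t + v - y - a • s - b • t = v by abel]; exact hv⟩
        have h2 := huniq _ _ _ a b (hco _ hxC) (by
          rw [show y + a • s + b • t + v - y - a • s - b • t = v by abel]; exact hv)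
        have hvi' : φ v = i := hvi
        rw [hf]
        show ((co (y + a • s + b • t + v)).1, (co (y + a • s + b • t + v)).2,
          φ (y + a • s + b • t + v)) = (a, b, i)
        rw [h2.1, h2.2, hφv, hvi']
  have hTT : TT P = (f '' C).ncard := by
    rw [himg]
    rfl
  have hle : TT P ≤ C.ncard := by
    rw [hTT]
    exact Set.ncard_image_le (Set.toFinite _)
  rcases hL1F P hRL (hle.trans h17) with hgood | hexc
  · left
    intro a b
    exact hgood a b
  · right
    have h17' : TT P = 17 := hexc.1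
    have hCc : C.ncard = 17 := by omega
    have hinj : Set.InjOn f C := by
      apply Set.injOn_of_ncard_image_eq _ (Set.toFinite _)
      rw [← hTT, h17', hCc]
    have hinj2 : ∀ x ∈ A, ∀ x' ∈ A, x - y ∈ FF W s t → x - x' ∈ W → φ x = φ x' → x = x' := by
      intro x hx x' hx' hxF hxx hφx
      have hxC : x ∈ C := ⟨hx, hxF⟩
      have h1 := hco x hxC
      have h2 : x' - y - (co x).1 • s - (co x).2 • t ∈ W := by
        have := W.sub_mem h1 hxx
        rwa [show x - y - (co x).1 • s - (co x).2 • t - (x - x') =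
          x' - y - (co x).1 • s - (co x).2 • t by abel] at this
      have hxC' : x' ∈ C := ⟨hx', (hFF _).2 ⟨_, _, h2⟩⟩
      have h3 := huniq x' _ _ _ _ (hco x' hxC') h2
      apply hinj hxC hxC'
      rw [hf]
      show ((co x).1, (co x).2, φ x) = ((co x').1, (co x').2, φ x')
      rw [h3.1, h3.2, hφx]
    refine ⟨hCc, hexc, ?_, hinj2⟩
    intro a b
    have h1 : φ '' cs A W (y + a • s + b • t) = {i | P a b i} := by
      ext i
      constructor
      · rintro ⟨x, ⟨hx, hxW⟩, rfl⟩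
        refine ⟨x - (y + a • s + b • t), hxW, ?_, ?_⟩
        · rw [← hφv a b (x - (y + a • s + b • t))]
          congr 1
          abel
        · rwa [show y + a • s + b • t + (x - (y + a • s + b • t)) = x by abel]
      · rintro ⟨v, hv, hvi, hx⟩
        refine ⟨y + a • s + b • t + v, ⟨hx, ?_⟩, ?_⟩
        · rw [add_sub_cancel_left]
          exact hv
        · rw [hφv]
          exact hvi
    rw [sz, ← h1]
    refine (Set.InjOn.ncard_image ?_).symm
    intro x hx x' hx' hxx
    refine hinj2 x hx.1 x' hx'.1 ?_ ?_ hxx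
    · apply (hFF _).2
      exact ⟨a, b, by
        rw [show x - y - a • s - b • t = x - (y + a • s + b • t) by abel]; exact hx.2⟩
    · have := W.sub_mem hx.2 hx'.2
      rwa [show x - (y + a • s + b • t) - (x' - (y + a • s + b • t)) = x - x' by abel] at this

end Pool.Agent.Lib.MP_b63a06_co.TR
end

section
set_option autoImplicit false

/-!
# MP_b63a06_co: quotients (QUO)
-/

namespace Pool.Agent.Lib.MP_b63a06_co.TR

namespace QUOM

variable {V : Type} [AddCommGroup V] [Module (ZMod 3) V]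

theorem card_eq (W : Submodule (ZMod 3) V) : Nat.card V = Nat.card W * Nat.card (V ⧸ W) :=
  Submodule.card_eq_card_quotient_mul_card W

theorem fin_quot [Finite V] (W : Submodule (ZMod 3) V) : Finite (V ⧸ W) :=
  Finite.of_surjective _ (Submodule.mkQ_surjective W)

/-- Membership in the image of a subspace which contains the kernel. -/
theorem mem_map_iff {W Z : Submodule (ZMod 3) V} (hZ : Z ≤ W) (x : V) :
    Z.mkQ x ∈ W.map Z.mkQ ↔ x ∈ W := by
  constructor
  · rintro ⟨w, hw, he⟩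
    have h1 : w - x ∈ Z := by
      rw [← Submodule.Quotient.eq]
      exact he
    have h2 : x = w - (w - x) := by abel
    rw [h2]
    exact W.sub_mem hw (hZ h1)
  · exact fun h => ⟨x, h, rfl⟩

theorem avo_map {A : Set V} {W Z : Submodule (ZMod 3) V} (hW : Avo A W) (hZ : Z ≤ W) :
    Avo (Z.mkQ '' A) (W.map Z.mkQ) := by
  rintro _ ⟨a, ha, rfl⟩ h
  rw [hW a ha ((mem_map_iff hZ a).mp h), map_zero]

theorem avo_comap {A : Set V} {W Z : Submodule (ZMod 3) V} (hW : Avo A W) (hZ : Z ≤ W)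
    {W' : Submodule (ZMod 3) (V ⧸ Z)} (hW' : Avo (Z.mkQ '' A) W') : Avo A (W'.comap Z.mkQ) := by
  intro a ha h
  have h1 : Z.mkQ a = 0 := hW' _ ⟨a, ha, rfl⟩ h
  have h2 : a ∈ Z := by
    rwa [Submodule.mkQ_apply, Submodule.Quotient.mk_eq_zero] at h1
  exact hW a ha (hZ h2)

/-- The order of the preimage. -/
theorem card_comap [Finite V] (Z : Submodule (ZMod 3) V) (W' : Submodule (ZMod 3) (V ⧸ Z)) :
    Nat.card (W'.comap Z.mkQ) = Nat.card Z * Nat.card W' := by
  have h1 := card_eq (W'.comap Z.mkQ)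
  have h2 := card_eq Z
  have h3 := card_eq W'
  have h4 : Nat.card ((V ⧸ Z) ⧸ W') = Nat.card (V ⧸ W'.comap Z.mkQ) := by
    have hle : Z ≤ W'.comap Z.mkQ := by
      intro x hx
      rw [Submodule.mem_comap, Submodule.mkQ_apply, (Submodule.Quotient.mk_eq_zero Z).mpr hx]
      exact W'.zero_mem
    have e := (Submodule.quotientQuotientEquivQuotient Z (W'.comap Z.mkQ) hle)
    have h5 : (W'.comap Z.mkQ).map Z.mkQ = W' :=
      Submodule.map_comap_eq_of_surjective (Submodule.mkQ_surjective Z) W'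
    rw [h5] at e
    exact Nat.card_congr e.toEquiv
  have hf := fin_quot (W'.comap Z.mkQ)
  have h5 : 0 < Nat.card (V ⧸ W'.comap Z.mkQ) := Nat.card_pos
  have h6 : Nat.card (W'.comap Z.mkQ) * Nat.card (V ⧸ W'.comap Z.mkQ) =
      (Nat.card Z * Nat.card W') * Nat.card (V ⧸ W'.comap Z.mkQ) := by
    rw [← h1, h2, h3, h4, mul_assoc]
  exact Nat.eq_of_mul_eq_mul_right h5 h6

theorem card_map [Finite V] {W Z : Submodule (ZMod 3) V} (hZ : Z ≤ W) :
    Nat.card W = Nat.card Z * Nat.card (W.map Z.mkQ) := by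
  rw [← card_comap]
  have : (W.map Z.mkQ).comap Z.mkQ = W := by
    ext x
    rw [Submodule.mem_comap]
    exact mem_map_iff hZ x
  rw [this]

theorem maxAv_map [Finite V] {A : Set V} {W Z : Submodule (ZMod 3) V} (hW : MaxAv A W)
    (hZ : Z ≤ W) : MaxAv (Z.mkQ '' A) (W.map Z.mkQ) := by
  refine ⟨avo_map hW.av hZ, fun W' hW' => ?_⟩
  have h1 := hW.mx _ (avo_comap hW.av hZ hW')
  rw [card_comap, card_map hZ] at h1
  exact Nat.le_of_mul_le_mul_left h1 Nat.card_pos

end QUOM

open QUOM in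
theorem specQUO : SpecQUO := by
  intro V _ _ _ A hA Z hZ ⟨W₀, hW₀, hle⟩
  refine ⟨⟨⟨0, hA.1, map_zero _⟩, ?_⟩, ?_, ?_, ?_, ?_, ?_⟩
  · rintro _ ⟨a, ha, rfl⟩
    exact ⟨-a, hA.2 a ha, map_neg _ _⟩
  · have h1 := card_eq Z
    have h2 : 1 < Nat.card Z := by
      have : Nontrivial Z := (Submodule.nontrivial_iff_ne_bot).mpr hZ
      exact Finite.one_lt_card
    have hf := fin_quot Z
    have h3 : 0 < Nat.card (V ⧸ Z) := Nat.card_pos
    rw [h1]
    nlinarith
  · exact Set.ncard_image_le (Set.toFinite A)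
  · intro W W' hW hW'
    have hm := maxAv_map hW₀ hle
    have e1 : Nat.card W' = Nat.card (W₀.map Z.mkQ) :=
      le_antisymm (hm.mx _ hW'.av) (hW'.mx _ hm.av)
    have e2 : Nat.card W = Nat.card W₀ := le_antisymm (hW₀.mx _ hW.av) (hW.mx _ hW₀.av)
    have e3 := card_map hle
    have e4 := card_eq W
    have e5 := card_eq W'
    have e6 := card_eq Z
    have h0 : 0 < Nat.card W := Nat.card_pos
    have h7 : Nat.card W * Nat.card (V ⧸ W) = Nat.card W * Nat.card ((V ⧸ Z) ⧸ W') := by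
      rw [← e4, e6, e5, e1, e2, e3, mul_assoc]
    exact (Nat.eq_of_mul_eq_mul_left h0 h7).symm
  · rintro k ⟨c, hc, hcol⟩
    refine ⟨fun x => c (Z.mkQ x), fun x => hc _, fun x y hxy ha => ?_⟩
    refine hcol _ _ (fun h => ?_) ⟨x - y, ha, map_sub _ _ _⟩
    have h1 : x - y ∈ Z := by
      rw [← Submodule.Quotient.eq]
      exact h
    exact hxy (sub_eq_zero.mp (hW₀.av _ ha (hle h1)))
  · intro W a b h
    have key : ∀ c, c ∈ A → (∀ x ∈ A, x - c ∈ W → x - c ∈ Z) →
        Sgl (Z.mkQ '' A) (W.map Z.mkQ) (Z.mkQ c) := by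
      intro c hc h1
      refine ⟨⟨c, hc, rfl⟩, ?_⟩
      rintro _ ⟨x, hx, rfl⟩ h2
      rw [← map_sub, mem_map_iff h.le] at h2
      have h3 := h1 x hx h2
      rw [← Submodule.Quotient.eq] at h3
      exact h3
    refine ⟨maxAv_map h.mx h.le, key a h.a1 h.a2, key b h.b1 h.b2, ?_⟩
    rintro ⟨x, hx, he⟩
    refine h.ns x hx ?_
    rw [← Submodule.Quotient.eq]
    rw [← map_sub] at he
    exact he

end Pool.Agent.Lib.MP_b63a06_co.TR
end

section
set_option autoImplicit false

/-! # MP_b63a06_co, module SPN (helper86): a set of nonzero vectors which meets all kernels has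
four elements. -/

namespace Pool.Agent.Lib.MP_b63a06_co.TR

namespace SPNM

variable {V : Type} [AddCommGroup V] [Module (ZMod 3) V]

/-- evaluation at `y`. -/
noncomputable def ev (y : V) : (V →ₗ[ZMod 3] ZMod 3) →ₗ[ZMod 3] ZMod 3 :=
  (LinearMap.applyₗ y : (V →ₗ[ZMod 3] ZMod 3) →ₗ[ZMod 3] ZMod 3)

theorem ev_apply (y : V) (φ : V →ₗ[ZMod 3] ZMod 3) : ev y φ = φ y := rfl

theorem ev_surj (y : V) (hy : y ≠ 0) : Function.Surjective (ev y) := by
  have : Fact (Nat.Prime 3) := ⟨by norm_num⟩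
  obtain ⟨f, hf⟩ := Module.Projective.exists_dual_eq_one (ZMod 3) hy
  intro c
  refine ⟨c • f, ?_⟩
  rw [ev_apply, LinearMap.smul_apply]
  erw [hf]
  simp

theorem card_ker [Finite V] (y : V) (hy : y ≠ 0) :
    Nat.card (V →ₗ[ZMod 3] ZMod 3) = 3 * Nat.card (LinearMap.ker (ev y)) := by
  have h := AddSubgroup.card_eq_card_quotient_mul_card_addSubgroup
    (LinearMap.ker (ev y)).toAddSubgroup
  have e : ((V →ₗ[ZMod 3] ZMod 3) ⧸ (LinearMap.ker (ev y)).toAddSubgroup) ≃ ZMod 3 :=
    ((ev y).quotKerEquivOfSurjective (ev_surj y hy)).toEquiv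
  rw [h, Nat.card_congr e]
  simp

end SPNM

open SPNM in
theorem specSPN : SpecSPN := by
  classical
  intro V _ _ _ Y h0 hY
  have hfD : Finite (V →ₗ[ZMod 3] ZMod 3) := Finite.of_injective
    (fun φ : V →ₗ[ZMod 3] ZMod 3 => (φ : V → ZMod 3)) (fun a b h => LinearMap.ext (fun x => congrFun h x))
  have : Fintype (V →ₗ[ZMod 3] ZMod 3) := Fintype.ofFinite _
  by_contra hlt
  push Not at hlt
  have hfin : Y.Finite := Set.toFinite Y
  rw [Set.ncard_eq_toFinset_card Y hfin] at hlt
  set F : Finset V := hfin.toFinset with hF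
  have hFc : F.card ≤ 3 := by omega
  set N := Fintype.card (V →ₗ[ZMod 3] ZMod 3) with hN
  have hK : ∀ y ∈ F, 3 * (Finset.univ.filter (fun φ : V →ₗ[ZMod 3] ZMod 3 => φ y = 0)).card = N := by
    intro y hy
    have hyY : y ∈ Y := by simpa [hF] using hy
    have hy0 : y ≠ 0 := fun h => h0 (h ▸ hyY)
    have h1 := card_ker y hy0
    have h2 : Nat.card (LinearMap.ker (ev y)) =
        (Finset.univ.filter (fun φ : V →ₗ[ZMod 3] ZMod 3 => φ y = 0)).card := by
      rw [Nat.card_eq_fintype_card]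
      refine Fintype.card_of_subtype _ ?_
      intro φ
      simp [LinearMap.mem_ker, ev_apply]
    rw [← h2, hN, ← Nat.card_eq_fintype_card, h1]
  have hcov : (Finset.univ : Finset (V →ₗ[ZMod 3] ZMod 3)) ⊆
      insert 0 (F.biUnion (fun y =>
        (Finset.univ.filter (fun φ : V →ₗ[ZMod 3] ZMod 3 => φ y = 0)).erase 0)) := by
    intro φ _
    by_cases hφ : φ = 0
    · simp [hφ]
    · obtain ⟨y, hy, hy0⟩ := hY φ
      refine Finset.mem_insert_of_mem (Finset.mem_biUnion.2 ⟨y, by simpa [hF] using hy, ?_⟩)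
      simp [hφ, hy0]
  have hc := Finset.card_le_card hcov
  have hc2 := Finset.card_insert_le (0 : V →ₗ[ZMod 3] ZMod 3) (F.biUnion (fun y =>
        (Finset.univ.filter (fun φ : V →ₗ[ZMod 3] ZMod 3 => φ y = 0)).erase 0))
  have hc3 : (F.biUnion (fun y => (Finset.univ.filter
      (fun φ : V →ₗ[ZMod 3] ZMod 3 => φ y = 0)).erase 0)).card ≤ F.card * (N / 3 - 1) := by
    refine Finset.card_biUnion_le_card_mul _ _ _ ?_
    intro y hy
    rw [Finset.card_erase_of_mem (by simp)]
    have := hK y hy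
    omega
  have hNpos : 0 < N := Fintype.card_pos
  rw [Finset.card_univ] at hc
  have h4 : F.card * (N / 3 - 1) ≤ 3 * (N / 3 - 1) := Nat.mul_le_mul_right _ hFc
  by_cases hN3 : N < 3
  · -- then `F` is empty, or `3 * card = N < 3`
    have h5 : N / 3 - 1 = 0 := by omega
    obtain ⟨y, hy, -⟩ := hY 0
    have hyF : y ∈ F := by simpa [hF] using hy
    have h6 := hK y hyF
    omega
  · omega

end Pool.Agent.Lib.MP_b63a06_co.TR
end

section
/-!
# T8: a table with 8 colours
-/
namespace Pool.Agent.Lib.MP_b63a06_co.TR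

namespace T8M

/-- The table; the index of the point `(a, b, c)` is `a + 3 b + 9 c`. -/
def tab : List ℕ := [5, 3, 4, 4, 4, 1, 3, 0, 7, 6, 6, 1, 1, 1, 6, 7, 3, 0, 2, 5, 6, 5, 2, 4, 0, 7, 2]

def colr (a b c : ZMod 3) : ℕ := tab.getD (a.val + 3 * b.val + 9 * c.val) 0

theorem lt8 : ∀ a b c : ZMod 3, colr a b c < 8 := by decide +kernel

theorem ne8 : ∀ a b c a' b' c' : ZMod 3, ¬ (a = a' ∧ b = b' ∧ c = c') →
    EP (a - a') (b - b') (c - c') → colr a b c ≠ colr a' b' c' := by decide +kernel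

end T8M

theorem specT8 : SpecT8 := by
  refine ⟨fun c => T8M.colr (c 0) (c 1) (c 2), fun c => T8M.lt8 _ _ _, fun c d hcd h => ?_⟩
  refine T8M.ne8 _ _ _ _ _ _ (fun hh => hcd ?_) h
  ext i
  fin_cases i
  · exact hh.1
  · exact hh.2.1
  · exact hh.2.2

end Pool.Agent.Lib.MP_b63a06_co.TR
end

section
set_option autoImplicit false

/-! # MP_b63a06_co, module YSM (helper32): the cosets of `W` in a coset of `FF W s t`. -/

namespace Pool.Agent.Lib.MP_b63a06_co.TR

namespace YSMM

variable {V : Type} [AddCommGroup V] [Module (ZMod 3) V]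

theorem mem_FF (W : Submodule (ZMod 3) V) (s t x : V) :
    x ∈ FF W s t ↔ ∃ a b : ZMod 3, x - a • s - b • t ∈ W := by
  unfold FF
  rw [Submodule.mem_sup]
  constructor
  · rintro ⟨w, hw, z, hz, rfl⟩
    obtain ⟨a, b, rfl⟩ := Submodule.mem_span_pair.1 hz
    refine ⟨a, b, ?_⟩
    have : w + (a • s + b • t) - a • s - b • t = w := by abel
    rw [this]; exact hw
  · rintro ⟨a, b, h⟩
    refine ⟨_, h, a • s + b • t, Submodule.mem_span_pair.2 ⟨a, b, rfl⟩, ?_⟩
    abel

theorem count [Finite V] (A : Set V) (W : Submodule (ZMod 3) V) (s t : V)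
    (ind : ∀ a b : ZMod 3, a • s + b • t ∈ W → a = 0 ∧ b = 0) (y : V) :
    (cs A (FF W s t) y).ncard =
      ∑ a : ZMod 3, ∑ b : ZMod 3, (cs A W (y + a • s + b • t)).ncard := by
  classical
  have hch : ∀ x : V, ∃ p : ZMod 3 × ZMod 3, x - y ∈ FF W s t →
      x - y - p.1 • s - p.2 • t ∈ W := by
    intro x
    by_cases h : x - y ∈ FF W s t
    · obtain ⟨a, b, hab⟩ := (mem_FF W s t _).1 h
      exact ⟨(a, b), fun _ => hab⟩
    · exact ⟨(0, 0), fun h' => absurd h' h⟩
  choose f hf using hch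
  have fin : ∀ S : Set V, S.Finite := fun S => Set.toFinite S
  rw [Set.ncard_eq_toFinset_card _ (fin _)]
  rw [Finset.card_eq_sum_card_fiberwise (f := f) (t := Finset.univ)
    (fun _ _ => Finset.mem_coe.2 (Finset.mem_univ _)), Fintype.sum_prod_type]
  refine Finset.sum_congr rfl fun a _ => Finset.sum_congr rfl fun b _ => ?_
  rw [Set.ncard_eq_toFinset_card _ (fin _)]
  congr 1
  ext x
  simp only [Finset.mem_filter, Set.Finite.mem_toFinset]
  constructor
  · rintro ⟨⟨hxA, hx⟩, he⟩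
    refine ⟨hxA, ?_⟩
    have h1 := hf x hx
    rw [he] at h1
    have h2 : x - (y + a • s + b • t) = x - y - (a, b).1 • s - (a, b).2 • t := by
      simp only; abel
    rw [h2]; exact h1
  · rintro ⟨hxA, hx⟩
    have h3 : x - y - a • s - b • t ∈ W := by
      have h2 : x - y - a • s - b • t = x - (y + a • s + b • t) := by abel
      rw [h2]; exact hx
    have h4 : x - y ∈ FF W s t := (mem_FF W s t _).2 ⟨a, b, h3⟩
    refine ⟨⟨hxA, h4⟩, ?_⟩
    have h5 := hf x h4
    have h6 : (a - (f x).1) • s + (b - (f x).2) • t ∈ W := by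
      have h7 := W.sub_mem h5 h3
      have h8 : x - y - (f x).1 • s - (f x).2 • t - (x - y - a • s - b • t) =
          (a - (f x).1) • s + (b - (f x).2) • t := by
        rw [sub_smul, sub_smul]; abel
      rwa [h8] at h7
    obtain ⟨h9, h10⟩ := ind _ _ h6
    exact Prod.ext (sub_eq_zero.1 h9).symm (sub_eq_zero.1 h10).symm

end YSMM

theorem specYSM : SpecYSM := by
  intro V _ _ _ A W s t
  exact ⟨fun x => YSMM.mem_FF W s t x, fun ind y => YSMM.count A W s t ind y⟩

end Pool.Agent.Lib.MP_b63a06_co.TR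
end
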