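import Pool.Agent.Lib.MP_b63a06_co.TR.SpecB
import Pool.Agent.Lib.MP_b63a06_co.TR.P1
import Pool.Agent.Lib.MP_b63a06_co.TR.YSM
import Pool.Agent.Lib.MP_b63a06_co.TR.PC
import Pool.Agent.Lib.MP_b63a06_co.TR.P3
import Pool.Agent.Lib.MP_b63a06_co.TR.PF
import Pool.Agent.Lib.MP_b63a06_co.TR.N4F
import Pool.Agent.Lib.MP_b63a06_co.TR.T63

section
set_option autoImplicit false

/-!
# MP_b63a06_co, N4X: the structure of a conflict of size 4
-/

namespace Pool.Agent.Lib.MP_b63a06_co.TR

namespace N4XM


section Abs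

variable {U : Type} [AddCommGroup U] [Module (ZMod 3) U]

theorem exists_fun {P : Submodule (ZMod 3) U} {x : U} (hx : x ∉ P) :
    ∃ f : U →ₗ[ZMod 3] ZMod 3, f x = 1 ∧ ∀ p ∈ P, f p = 0 := by
  obtain ⟨f, hf, hP⟩ := Submodule.exists_le_ker_of_notMem (K := ZMod 3) hx
  refine ⟨f x • f, ?_, fun p hp => ?_⟩
  · have h : ∀ a : ZMod 3, a ≠ 0 → a * a = 1 := by decide
    simpa using h _ hf
  · have h1 : f p = 0 := hP hp
    simp [h1]

theorem smul3 (x : U) : (3 : ZMod 3) • x = 0 := by
  have : (3 : ZMod 3) = 0 := by decide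
  rw [this, zero_smul]

theorem mem_span_iff (x u : U) :
    u ∈ Submodule.span (ZMod 3) {x} ↔ u = 0 ∨ u = x ∨ u = -x := by
  rw [Submodule.mem_span_singleton]
  constructor
  · rintro ⟨a, rfl⟩
    have h : ∀ a : ZMod 3, a = 0 ∨ a = 1 ∨ a = -1 := by decide
    rcases h a with rfl | rfl | rfl
    · simp
    · simp
    · simp
  · rintro (rfl | rfl | rfl)
    · exact ⟨0, by simp⟩
    · exact ⟨1, by simp⟩
    · exact ⟨-1, by simp⟩

theorem ne_neg {x : U} (hx : x ≠ 0) : x ≠ -x := by
  intro h
  apply hx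
  have h1 : x = (3 : ZMod 3) • x - (x + x) := by (match_scalars <;> first | ring1 | decide | (ring_nf; decide))
  rw [h1, smul3, zero_sub]
  nth_rewrite 1 [h]
  simp

/-- if `u` is not a multiple of `x` there is a functional with `f u = 0`, `f x = 1`. -/
theorem exists_fun_two {x u : U} (hx : x ≠ 0) (hu : u ∉ Submodule.span (ZMod 3) {x}) :
    ∃ f : U →ₗ[ZMod 3] ZMod 3, f x = 1 ∧ f u = 0 := by
  have h : x ∉ Submodule.span (ZMod 3) {u} := by
    rw [mem_span_iff]
    rw [mem_span_iff] at hu
    rintro (h | h | h)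
    · exact hx h
    · exact hu (Or.inr (Or.inl h.symm))
    · exact hu (Or.inr (Or.inr (by rw [h, neg_neg])))
  obtain ⟨f, hf, hf0⟩ := exists_fun h
  exact ⟨f, hf, hf0 u (Submodule.mem_span_singleton_self u)⟩

theorem one_ne_negone : (1 : ZMod 3) ≠ -1 := by decide

/-- The abstract statement. -/
theorem abs_n4x [Finite U] (hSPN : SpecSPN) (X Y : Set U) (h0 : (0 : U) ∉ X) (hX : X.Nonempty)
    (hY : Y.Nonempty) (hXY : X.ncard + Y.ncard = 4)
    (H1 : ∀ f : U →ₗ[ZMod 3] ZMod 3, f ≠ 0 →
      (∃ w ∈ X, f w = 0) ∨ ∀ c : ZMod 3, c ≠ 0 → ∃ w ∈ Y, f w = c)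
    (H2 : ∀ f : U →ₗ[ZMod 3] ZMod 3, f ≠ 0 →
      (∃ w ∈ Y, f w = 0) ∨ ∀ c : ZMod 3, c ≠ 0 → ∃ w ∈ X, f w = c) :
    ∃ x, x ≠ 0 ∧ ((X = {x} ∧ Y = {0, x, -x}) ∨ (X = {x, -x} ∧ Y = {x, -x})) := by
  have hXc : 0 < X.ncard := (Set.ncard_pos (Set.toFinite X)).mpr hX
  have hYc : 0 < Y.ncard := (Set.ncard_pos (Set.toFinite Y)).mpr hY
  have hX3 : X.ncard = 1 ∨ X.ncard = 2 ∨ X.ncard = 3 := by omega
  rcases hX3 with h1 | h2 | h3
  · -- |X| = 1
    obtain ⟨x, rfl⟩ := Set.ncard_eq_one.mp h1
    have hx0 : x ≠ 0 := fun h => h0 (by rw [h]; exact Set.mem_singleton _)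
    have hY3 : Y.ncard = 3 := by omega
    have hsurj : ∀ f : U →ₗ[ZMod 3] ZMod 3, f x ≠ 0 → ∀ c : ZMod 3, ∃ w ∈ Y, f w = c := by
      intro f hf c
      have hf0 : f ≠ 0 := fun h => hf (by rw [h]; rfl)
      by_cases hc : c = 0
      · rcases H2 f hf0 with h | h
        · obtain ⟨w, hw, hw0⟩ := h
          exact ⟨w, hw, by rw [hw0, hc]⟩
        · exfalso
          obtain ⟨w, hw, hw1⟩ := h 1 (by decide)
          obtain ⟨w', hw', hw1'⟩ := h (-1) (by decide)
          rw [Set.mem_singleton_iff] at hw hw'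
          rw [hw] at hw1
          rw [hw', hw1] at hw1'
          exact one_ne_negone hw1'
      · rcases H1 f hf0 with h | h
        · obtain ⟨w, hw, hw0⟩ := h
          rw [Set.mem_singleton_iff] at hw
          rw [hw] at hw0
          exact absurd hw0 hf
        · exact h c hc
    have hinj : ∀ f : U →ₗ[ZMod 3] ZMod 3, f x ≠ 0 → Set.InjOn f Y := by
      intro f hf
      have himg : f '' Y = Set.univ := by
        rw [Set.eq_univ_iff_forall]
        intro c
        obtain ⟨w, hw, hwc⟩ := hsurj f hf c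
        exact ⟨w, hw, hwc⟩
      refine Set.injOn_of_ncard_image_eq ?_ (Set.toFinite Y)
      rw [himg, Set.ncard_univ, hY3, Nat.card_zmod]
    have hdiff : ∀ p ∈ Y, ∀ q ∈ Y, p - q ∈ Submodule.span (ZMod 3) {x} := by
      intro p hp q hq
      by_contra hcon
      obtain ⟨f, hf1, hf0⟩ := exists_fun_two hx0 hcon
      have : p = q := hinj f (by rw [hf1]; decide) hp hq (by
        rw [map_sub] at hf0
        exact sub_eq_zero.mp hf0)
      rw [this, sub_self] at hcon
      exact hcon (Submodule.zero_mem _)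
    have hYsub : ∀ p ∈ Y, p ∈ Submodule.span (ZMod 3) {x} := by
      intro p hp
      by_contra hcon
      obtain ⟨f, hf1, hf0⟩ := exists_fun hcon
      have hfx : f x = 0 := hf0 x (Submodule.mem_span_singleton_self x)
      have hfY : ∀ w ∈ Y, f w = 1 := by
        intro w hw
        have h5 := hf0 _ (hdiff w hw p hp)
        rw [map_sub, hf1] at h5
        exact sub_eq_zero.mp h5
      have hfne : f ≠ 0 := fun h => by
        rw [h] at hf1
        exact absurd hf1 (by simp)
      rcases H2 f hfne with h | h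
      · obtain ⟨w, hw, hw0⟩ := h
        rw [hfY w hw] at hw0
        exact absurd hw0 (by decide)
      · obtain ⟨w, hw, hw1⟩ := h 1 (by decide)
        rw [Set.mem_singleton_iff] at hw
        rw [hw, hfx] at hw1
        exact absurd hw1 (by decide)
    refine ⟨x, hx0, Or.inl ⟨rfl, ?_⟩⟩
    have hsub : Y ⊆ {0, x, -x} := by
      intro p hp
      rcases (mem_span_iff x p).mp (hYsub p hp) with h | h | h
      · simp [h]
      · simp [h]
      · simp [h]
    refine Set.eq_of_subset_of_ncard_le hsub ?_ (Set.toFinite _)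
    rw [hY3]
    calc ({0, x, -x} : Set U).ncard ≤ ({x, -x} : Set U).ncard + 1 := Set.ncard_insert_le _ _
      _ ≤ 2 + 1 := by
        have := Set.ncard_insert_le x {-x}
        rw [Set.ncard_singleton] at this
        omega
  · -- |X| = 2
    obtain ⟨m, m', hmm, rfl⟩ := Set.ncard_eq_two.mp h2
    have hY2 : Y.ncard = 2 := by omega
    have hm0 : m ≠ 0 := fun h => h0 (by rw [h]; simp)
    have hm0' : m' ≠ 0 := fun h => h0 (by rw [h]; simp)
    have hneg : m' = -m := by
      by_contra hcon
      have hmem : m ∉ Submodule.span (ZMod 3) {m - m'} := by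
        rw [mem_span_iff]
        rintro (h | h | h)
        · exact hm0 h
        · exact hm0' (by
            have h6 : m' = m - (m - m') := by abel
            rw [h6, ← h, sub_self])
        · apply hcon
          have h5 : -(m - m') = m' - m := by abel
          rw [h5] at h
          have h6 : m' = m + m := sub_eq_iff_eq_add.mp h.symm
          have h7 : m + m = ((1 : ZMod 3) + 1) • m := by rw [add_smul, one_smul]
          have h8 : (1 : ZMod 3) + 1 = -1 := by decide
          rw [h6, h7, h8, neg_smul, one_smul]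
      obtain ⟨f, hf1, hf0⟩ := exists_fun hmem
      have hf1' : f m' = 1 := by
        have h6 := hf0 _ (Submodule.mem_span_singleton_self _)
        rw [map_sub, hf1] at h6
        exact (sub_eq_zero.mp h6).symm
      have hfne : f ≠ 0 := fun h => by
        rw [h] at hf1
        exact absurd hf1 (by simp)
      have hfX : ∀ w ∈ ({m, m'} : Set U), f w = 1 := by
        intro w hw
        rcases hw with h | h
        · rw [h, hf1]
        · rw [Set.mem_singleton_iff.mp h, hf1']
      have hall : ∀ c : ZMod 3, ∃ w ∈ Y, f w = c := by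
        intro c
        by_cases hc : c = 0
        · rcases H2 f hfne with h | h
          · obtain ⟨w, hw, hw0⟩ := h
            exact ⟨w, hw, by rw [hw0, hc]⟩
          · exfalso
            obtain ⟨w, hw, hw1⟩ := h (-1) (by decide)
            rw [hfX w hw] at hw1
            exact one_ne_negone hw1
        · rcases H1 f hfne with h | h
          · obtain ⟨w, hw, hw0⟩ := h
            rw [hfX w hw] at hw0
            exact absurd hw0 (by decide)
          · exact h c hc
      have himg : f '' Y = Set.univ := by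
        rw [Set.eq_univ_iff_forall]
        intro c
        obtain ⟨w, hw, hwc⟩ := hall c
        exact ⟨w, hw, hwc⟩
      have h7 := Set.ncard_image_le (f := f) (Set.toFinite Y)
      rw [himg, Set.ncard_univ, Nat.card_zmod, hY2] at h7
      omega
    subst hneg
    have hfX : ∀ f : U →ₗ[ZMod 3] ZMod 3, f m ≠ 0 → ∀ c : ZMod 3, c ≠ 0 → ∃ w ∈ Y, f w = c := by
      intro f hf
      have hfne : f ≠ 0 := fun h => hf (by rw [h]; rfl)
      rcases H1 f hfne with h | h
      · exfalso
        obtain ⟨w, hw, hw0⟩ := h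
        rcases hw with h | h
        · rw [h] at hw0; exact hf hw0
        · rw [Set.mem_singleton_iff.mp h, map_neg, neg_eq_zero] at hw0
          exact hf hw0
      · exact h
    have hfY : ∀ f : U →ₗ[ZMod 3] ZMod 3, f m ≠ 0 → ∀ y ∈ Y, f y ≠ 0 := by
      intro f hf y hy hy0
      have himg : f '' Y = Set.univ := by
        rw [Set.eq_univ_iff_forall]
        intro c
        by_cases hc : c = 0
        · exact ⟨y, hy, by rw [hy0, hc]⟩
        · obtain ⟨w, hw, hwc⟩ := hfX f hf c hc
          exact ⟨w, hw, hwc⟩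
      have h7 := Set.ncard_image_le (f := f) (Set.toFinite Y)
      rw [himg, Set.ncard_univ, Nat.card_zmod, hY2] at h7
      omega
    refine ⟨m, hm0, Or.inr ⟨rfl, ?_⟩⟩
    have hsub : Y ⊆ {m, -m} := by
      intro y hy
      have hy1 : y ∈ Submodule.span (ZMod 3) {m} := by
        by_contra hcon
        obtain ⟨f, hf1, hf0⟩ := exists_fun_two hm0 hcon
        exact hfY f (by rw [hf1]; decide) y hy hf0
      rcases (mem_span_iff m y).mp hy1 with h | h | h
      · exfalso
        have hm1 : m ∉ (⊥ : Submodule (ZMod 3) U) := by simpa using hm0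
        obtain ⟨f, hf1, -⟩ := exists_fun hm1
        exact hfY f (by rw [hf1]; decide) y hy (by rw [h, map_zero])
      · simp [h]
      · simp [h]
    refine Set.eq_of_subset_of_ncard_le hsub ?_ (Set.toFinite _)
    rw [hY2]
    have := Set.ncard_insert_le m {-m}
    rw [Set.ncard_singleton] at this
    omega
  · -- |X| = 3
    exfalso
    have hY1 : Y.ncard = 1 := by omega
    have hex : ¬ ∀ φ : U →ₗ[ZMod 3] ZMod 3, ∃ y ∈ X, φ y = 0 := by
      intro h
      have := hSPN U X h0 h
      omega
    push Not at hex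
    obtain ⟨f, hf⟩ := hex
    obtain ⟨x₀, hx₀⟩ := hX
    have hfne : f ≠ 0 := fun h => hf x₀ hx₀ (by rw [h]; rfl)
    rcases H1 f hfne with h | h
    · obtain ⟨w, hw, hw0⟩ := h
      exact hf w hw hw0
    · obtain ⟨y, rfl⟩ := Set.ncard_eq_one.mp hY1
      obtain ⟨w, hw, hw1⟩ := h 1 (by decide)
      obtain ⟨w', hw', hw1'⟩ := h (-1) (by decide)
      rw [Set.mem_singleton_iff] at hw hw'
      rw [hw] at hw1
      rw [hw', hw1] at hw1'
      exact one_ne_negone hw1'

end Abs

end N4XM

open N4XM

theorem specN4X (hHCO : SpecHCO) (hEXS : SpecEXS) (hCBA : SpecCBA) (hSPN : SpecSPN)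
    (hMEE : SpecMEE) : SpecN4X := by
  intro V _ _ _ A hA W s t hC hNN
  obtain ⟨hind, -, -, -⟩ := hCBA V A hA W s t hC
  obtain ⟨X, hXdef⟩ : ∃ X : Set W, X = {w : W | t - s + (w : V) ∈ A} := ⟨_, rfl⟩
  obtain ⟨Y, hYdef⟩ : ∃ Y : Set W, Y = {w : W | s + t + (w : V) ∈ A} := ⟨_, rfl⟩
  have hXm : ∀ w : W, w ∈ X ↔ t - s + (w : V) ∈ A := fun w => by rw [hXdef]; rfl
  have hYm : ∀ w : W, w ∈ Y ↔ s + t + (w : V) ∈ A := fun w => by rw [hYdef]; rfl
  have hneg : ∀ a, a ∈ A ↔ -a ∈ A := fun a =>
    ⟨hA.2 a, fun h => by have := hA.2 _ h; rwa [neg_neg] at this⟩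
  have hXc : X.ncard = (cs A W (s - t)).ncard := by
    have himg : cs A W (s - t) = (fun w : W => -(t - s + (w : V))) '' X := by
      ext a
      constructor
      · rintro ⟨ha, hw⟩
        refine ⟨-⟨a - (s - t), hw⟩, ?_, ?_⟩
        · rw [hXm, hneg]
          have : -(t - s + ((-⟨a - (s - t), hw⟩ : W) : V)) = a := by
            rw [Submodule.coe_neg]
            show -(t - s + -(a - (s - t))) = a
            abel
          rw [this]
          exact ha
        · show -(t - s + ((-⟨a - (s - t), hw⟩ : W) : V)) = a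
          rw [Submodule.coe_neg]
          show -(t - s + -(a - (s - t))) = a
          abel
      · rintro ⟨w, hw, rfl⟩
        refine ⟨(hneg _).mp ((hXm w).mp hw), ?_⟩
        show -(t - s + (w : V)) - (s - t) ∈ W
        have : -(t - s + (w : V)) - (s - t) = -(w : V) := by abel
        rw [this]
        exact W.neg_mem w.2
    rw [himg, Set.ncard_image_of_injective]
    intro w w' h
    have h1 : -(t - s + (w : V)) = -(t - s + (w' : V)) := h
    exact Subtype.ext (add_left_cancel (neg_injective h1))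
  have hYc : Y.ncard = (cs A W (s + t)).ncard := by
    have himg : cs A W (s + t) = (fun w : W => s + t + (w : V)) '' Y := by
      ext a
      constructor
      · rintro ⟨ha, hw⟩
        refine ⟨⟨a - (s + t), hw⟩, ?_, ?_⟩
        · rw [hYm]
          have : s + t + (a - (s + t)) = a := by abel
          rw [this]
          exact ha
        · show s + t + (a - (s + t)) = a
          abel
      · rintro ⟨w, hw, rfl⟩
        refine ⟨(hYm w).mp hw, ?_⟩
        show s + t + (w : V) - (s + t) ∈ W
        rw [add_sub_cancel_left]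
        exact w.2
    rw [himg, Set.ncard_image_of_injective]
    intro w w' h
    have h1 : s + t + (w : V) = s + t + (w' : V) := h
    exact Subtype.ext (add_left_cancel h1)
  have h0 : (0 : W) ∉ X := by
    rw [hXm, hneg]
    intro h
    apply hC.ns
    have : -(t - s + ((0 : W) : V)) = s - t := by
      rw [Submodule.coe_zero]
      abel
    rwa [this] at h
  have hXne : X.Nonempty := by
    obtain ⟨a, ha, hw⟩ := hMEE V A hA W hC.mx (t - s)
    refine ⟨⟨a - (t - s), hw⟩, ?_⟩
    rw [hXm]
    show t - s + (a - (t - s)) ∈ A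
    rwa [add_sub_cancel]
  have hYne : Y.Nonempty := by
    obtain ⟨a, ha, hw⟩ := hMEE V A hA W hC.mx (s + t)
    refine ⟨⟨a - (s + t), hw⟩, ?_⟩
    rw [hYm]
    show s + t + (a - (s + t)) ∈ A
    rwa [add_sub_cancel]
  have hsum : X.ncard + Y.ncard = 4 := by rw [hXc, hYc]; exact hNN
  have hH : ∀ f : W →ₗ[ZMod 3] ZMod 3, f ≠ 0 →
      ((∃ w ∈ X, f w = 0) ∨ ∀ c : ZMod 3, c ≠ 0 → ∃ w ∈ Y, f w = c) ∧
      ((∃ w ∈ Y, f w = 0) ∨ ∀ c : ZMod 3, c ≠ 0 → ∃ w ∈ X, f w = c) := by
    intro f hf
    obtain ⟨φ, hφ, hφs, hφt⟩ := hEXS V W s t hind f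
    have hne : ∃ w ∈ W, φ w ≠ 0 := by
      by_contra hcon
      push Not at hcon
      apply hf
      ext w
      rw [← hφ w]
      exact hcon w w.2
    obtain ⟨g1, g2⟩ := hHCO V A hA W s t hC φ hφs hφt hne
    refine ⟨?_, ?_⟩
    · rcases g1 with ⟨w, hw, h1, h2⟩ | g
      · exact Or.inl ⟨⟨w, hw⟩, (hXm _).mpr h2, by rw [← hφ]; exact h1⟩
      · refine Or.inr fun c hc => ?_
        obtain ⟨w, hw, h1, h2⟩ := g c hc
        exact ⟨⟨w, hw⟩, (hYm _).mpr h2, by rw [← hφ]; exact h1⟩
    · rcases g2 with ⟨w, hw, h1, h2⟩ | g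
      · exact Or.inl ⟨⟨w, hw⟩, (hYm _).mpr h2, by rw [← hφ]; exact h1⟩
      · refine Or.inr fun c hc => ?_
        obtain ⟨w, hw, h1, h2⟩ := g c hc
        exact ⟨⟨w, hw⟩, (hXm _).mpr h2, by rw [← hφ]; exact h1⟩
  obtain ⟨x, hx0, hx⟩ := abs_n4x hSPN X Y h0 hXne hYne hsum (fun f hf => (hH f hf).1)
    (fun f hf => (hH f hf).2)
  refine ⟨x, x.2, fun h => hx0 (Subtype.ext h), ?_⟩
  rcases hx with ⟨e1, e2⟩ | ⟨e1, e2⟩
  · left
    constructor
    · intro w hw
      have := hXm ⟨w, hw⟩
      rw [← this, e1, Set.mem_singleton_iff, Subtype.ext_iff]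
    · intro w hw
      have := hYm ⟨w, hw⟩
      rw [← this, e2, Set.mem_insert_iff, Set.mem_insert_iff, Set.mem_singleton_iff,
        Subtype.ext_iff, Subtype.ext_iff, Subtype.ext_iff]
      rfl
  · right
    constructor
    · intro w hw
      have := hXm ⟨w, hw⟩
      rw [← this, e1, Set.mem_insert_iff, Set.mem_singleton_iff, Subtype.ext_iff,
        Subtype.ext_iff]
      rfl
    · intro w hw
      have := hYm ⟨w, hw⟩
      rw [← this, e2, Set.mem_insert_iff, Set.mem_singleton_iff, Subtype.ext_iff,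
        Subtype.ext_iff]
      rfl

end Pool.Agent.Lib.MP_b63a06_co.TR
end

section
set_option autoImplicit false

/-!
# MP_b63a06_co, TR: module NF4
-/

namespace Pool.Agent.Lib.MP_b63a06_co.TR

namespace NF4M

variable {V : Type} [AddCommGroup V] [Module (ZMod 3) V]

theorem card_Xm [Finite V] (A : Set V) (hA : Sy A) (W : Submodule (ZMod 3) V) (s t : V) :
    {w : V | w ∈ W ∧ t - s + w ∈ A}.ncard = (cs A W (s - t)).ncard := by
  have hinj : Function.Injective (fun w : V => -(t - s + w)) := by
    intro a b h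
    have h1 : t - s + a = t - s + b := neg_injective h
    exact add_left_cancel h1
  rw [← Set.ncard_image_of_injective {w : V | w ∈ W ∧ t - s + w ∈ A} hinj]
  congr 1
  ext a
  constructor
  · rintro ⟨w, ⟨hw, ha⟩, rfl⟩
    refine ⟨hA.2 _ ha, ?_⟩
    have : -(t - s + w) - (s - t) = -w := by abel
    show -(t - s + w) - (s - t) ∈ W
    rw [this]
    exact W.neg_mem hw
  · rintro ⟨ha, hw⟩
    refine ⟨-(a - (s - t)), ⟨W.neg_mem hw, ?_⟩, ?_⟩
    · have : t - s + -(a - (s - t)) = -a := by abel
      rw [this]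
      exact hA.2 _ ha
    · show -(t - s + -(a - (s - t))) = a
      abel

theorem card_Xp [Finite V] (A : Set V) (W : Submodule (ZMod 3) V) (s t : V) :
    {w : V | w ∈ W ∧ s + t + w ∈ A}.ncard = (cs A W (s + t)).ncard := by
  have hinj : Function.Injective (fun w : V => s + t + w) := add_right_injective (s + t)
  rw [← Set.ncard_image_of_injective {w : V | w ∈ W ∧ s + t + w ∈ A} hinj]
  congr 1
  ext a
  constructor
  · rintro ⟨w, ⟨hw, ha⟩, rfl⟩
    refine ⟨ha, ?_⟩
    show s + t + w - (s + t) ∈ W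
    rw [add_sub_cancel_left]
    exact hw
  · rintro ⟨ha, hw⟩
    refine ⟨a - (s + t), ⟨hw, ?_⟩, ?_⟩
    · rw [add_sub_cancel]
      exact ha
    · show s + t + (a - (s + t)) = a
      abel

theorem two_le [Finite V] (X : Set V) (φ : V →ₗ[ZMod 3] ZMod 3)
    (h : ∀ c : ZMod 3, c ≠ 0 → ∃ w ∈ X, φ w = c) : 2 ≤ X.ncard := by
  have h1 : ({1, 2} : Set (ZMod 3)) ⊆ φ '' X := by
    rintro c (rfl | hc)
    · obtain ⟨w, hw, hc⟩ := h 1 (by decide)
      exact ⟨w, hw, hc⟩
    · rw [Set.mem_singleton_iff] at hc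
      subst hc
      obtain ⟨w, hw, hc⟩ := h 2 (by decide)
      exact ⟨w, hw, hc⟩
  have h2 : ({1, 2} : Set (ZMod 3)).ncard = 2 := Set.ncard_pair (by decide)
  calc 2 = ({1, 2} : Set (ZMod 3)).ncard := h2.symm
    _ ≤ (φ '' X).ncard := Set.ncard_le_ncard h1 (Set.toFinite _)
    _ ≤ X.ncard := Set.ncard_image_le (Set.toFinite _)

theorem three_le [Finite V] (X : Set V) (φ : V →ₗ[ZMod 3] ZMod 3)
    (h : ∀ c : ZMod 3, ∃ w ∈ X, φ w = c) : 3 ≤ X.ncard := by
  have h1 : φ '' X = Set.univ := by
    rw [Set.eq_univ_iff_forall]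
    intro c
    obtain ⟨w, hw, hc⟩ := h c
    exact ⟨w, hw, hc⟩
  calc 3 = (Set.univ : Set (ZMod 3)).ncard := by rw [Set.ncard_univ, Nat.card_zmod]
    _ = (φ '' X).ncard := by rw [h1]
    _ ≤ X.ncard := Set.ncard_image_le (Set.toFinite _)

end NF4M

theorem specNF4 (hHCO : SpecHCO) (hEXS : SpecEXS) (hCBA : SpecCBA) (hSPN : SpecSPN)
    (hMEE : SpecMEE) : SpecNF4 := by
  intro V _ _ _ A hA W s t hC
  show 4 ≤ (cs A W (s - t)).ncard + (cs A W (s + t)).ncard
  rw [← NF4M.card_Xm A hA W s t, ← NF4M.card_Xp A W s t]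
  set Xm : Set V := {w : V | w ∈ W ∧ t - s + w ∈ A} with hXm
  set Xp : Set V := {w : V | w ∈ W ∧ s + t + w ∈ A} with hXp
  obtain ⟨wm, hwm⟩ : ∃ w, w ∈ Xm := by
    obtain ⟨a, ha, haw⟩ := hMEE V A hA W hC.mx (t - s)
    refine ⟨a - (t - s), haw, ?_⟩
    rw [add_sub_cancel]
    exact ha
  obtain ⟨wp, hwp⟩ : ∃ w, w ∈ Xp := by
    obtain ⟨a, ha, haw⟩ := hMEE V A hA W hC.mx (s + t)
    refine ⟨a - (s + t), haw, ?_⟩
    rw [add_sub_cancel]
    exact ha
  have h1m : 1 ≤ Xm.ncard := (Set.ncard_pos (Set.toFinite _)).2 ⟨wm, hwm⟩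
  have h1p : 1 ≤ Xp.ncard := (Set.ncard_pos (Set.toFinite _)).2 ⟨wp, hwp⟩
  have hts : t - s ∉ A := by
    intro h
    apply hC.ns
    have := hA.2 _ h
    rwa [neg_sub] at this
  by_cases hall : ∀ f : W →ₗ[ZMod 3] ZMod 3, ∃ y : W, (y : V) ∈ Xm ∧ f y = 0
  · have h4 := hSPN W {y : W | (y : V) ∈ Xm} (by
      intro h0
      apply hts
      have h5 : t - s + ((0 : W) : V) ∈ A := h0.2
      simpa using h5) (fun f => by
        obtain ⟨y, hy, hf⟩ := hall f
        exact ⟨y, hy, hf⟩)
    have h5 : {y : W | (y : V) ∈ Xm}.ncard ≤ Xm.ncard := by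
      rw [← Set.ncard_image_of_injective {y : W | (y : V) ∈ Xm} Subtype.val_injective]
      apply Set.ncard_le_ncard _ (Set.toFinite _)
      rintro _ ⟨y, hy, rfl⟩
      exact hy
    omega
  · push Not at hall
    obtain ⟨f, hf⟩ := hall
    obtain ⟨φ, hφ, hφs, hφt⟩ := hEXS V W s t (hCBA V A hA W s t hC).1 f
    have hno : ∀ w ∈ W, t - s + w ∈ A → φ w ≠ 0 := by
      intro w hw ha
      have := hf ⟨w, hw⟩ ⟨hw, ha⟩
      rwa [← hφ] at this
    obtain ⟨hc1, hc2⟩ := hHCO V A hA W s t hC φ hφs hφt ⟨wm, hwm.1, hno wm hwm.1 hwm.2⟩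
    have hp : ∀ c : ZMod 3, c ≠ 0 → ∃ w ∈ Xp, φ w = c := by
      rcases hc1 with ⟨w, hw, h0, ha⟩ | h
      · exact absurd h0 (hno w hw ha)
      · intro c hc
        obtain ⟨w, hw, h1, h2⟩ := h c hc
        exact ⟨w, ⟨hw, h2⟩, h1⟩
    rcases hc2 with ⟨w, hw, h0, ha⟩ | h
    · have h3 := NF4M.three_le Xp φ (fun c => by
        by_cases hc : c = 0
        · exact ⟨w, ⟨hw, ha⟩, by rw [h0, hc]⟩
        · exact hp c hc)
      omega
    · have h3 := NF4M.two_le Xp φ hp
      have h4 := NF4M.two_le Xm φ (fun c hc => by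
        obtain ⟨w, hw, h1, h2⟩ := h c hc
        exact ⟨w, ⟨hw, h2⟩, h1⟩)
      omega

end Pool.Agent.Lib.MP_b63a06_co.TR
end

section
set_option autoImplicit false

/-!
# MP_b63a06_co, RER: the rules `RE` hold
-/

namespace Pool.Agent.Lib.MP_b63a06_co.TR

namespace RERM

variable {V : Type} [AddCommGroup V] [Module (ZMod 3) V]


theorem cg {H : V → Prop} {x x' : V} (h : H x) (e : x = x') : H x' := e ▸ h

theorem ncg {H : V → Prop} {x x' : V} (h : ¬ H x) (e : x = x') : ¬ H x' := e ▸ h

theorem one_or (e : ZMod 3) (he : e ≠ 0) : e = 1 ∨ e = -1 := by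
  revert he; revert e; decide

theorem nneg {H : V → Prop} (hH : HE H) {x : V} (h : ¬ H x) : ¬ H (-x) := fun h' =>
  h (cg (hH.neg _ h') (neg_neg x))

theorem hs_smul {H : V → Prop} (hH : HE H) {κ u : V} (h : HS H κ u) (e : ZMod 3) (he : e ≠ 0) :
    HS H κ (e • u) := by
  obtain ⟨h1, h2, h3⟩ := h
  rcases one_or e he with rfl | rfl
  · rw [one_smul]; exact ⟨h1, h2, h3⟩
  · refine ⟨cg (hH.neg _ h1) (by (match_scalars <;> first | ring1 | decide | (ring_nf; decide))), ncg (nneg hH h3) (by (match_scalars <;> first | ring1 | decide | (ring_nf; decide))), ncg (nneg hH h2) (by (match_scalars <;> first | ring1 | decide | (ring_nf; decide)))⟩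

end RERM

open RERM

theorem specRER : SpecRER := by
  intro V _ _ H hH z s t y hz hs ht hst hy
  obtain ⟨E1, E2, E3, E4, E5⟩ := hH.ce z s t hz hs ht hst
  have hsj : ∀ j : ZMod 3, j ≠ 0 → ¬ H (s + j • z) := by
    intro j hj
    rcases one_or j hj with rfl | rfl
    · exact ncg hs.2.1 (by (match_scalars <;> first | ring1 | decide | (ring_nf; decide)))
    · exact ncg hs.2.2 (by (match_scalars <;> first | ring1 | decide | (ring_nf; decide)))
  have htj : ∀ j : ZMod 3, j ≠ 0 → ¬ H (t + j • z) := by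
    intro j hj
    rcases one_or j hj with rfl | rfl
    · exact ncg ht.2.1 (by (match_scalars <;> first | ring1 | decide | (ring_nf; decide)))
    · exact ncg ht.2.2 (by (match_scalars <;> first | ring1 | decide | (ring_nf; decide)))
  have hu : ∀ j : ZMod 3, j ≠ 0 → H (s + t - j • z) := by
    intro j hj
    rcases one_or j hj with rfl | rfl
    · exact cg E5 (by (match_scalars <;> first | ring1 | decide | (ring_nf; decide)))
    · exact cg E4 (by (match_scalars <;> first | ring1 | decide | (ring_nf; decide)))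
  have hk1 : ∀ j : ZMod 3, j ≠ 0 → HS H (s + j • z) (s + t - j • z) := by
    intro j hj
    refine ⟨hu j hj, ncg (nneg hH hst) ?_, ncg (htj j hj) ?_⟩
    · (match_scalars <;> first | ring1 | decide | (ring_nf; decide))
    · rcases one_or j hj with rfl | rfl <;> (match_scalars <;> first | ring1 | decide | (ring_nf; decide))
  have hk2 : ∀ j : ZMod 3, j ≠ 0 → HS H (t + j • z) (s + t - j • z) := by
    intro j hj
    refine ⟨hu j hj, ncg hst ?_, ncg (hsj j hj) ?_⟩
    · (match_scalars <;> first | ring1 | decide | (ring_nf; decide))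
    · rcases one_or j hj with rfl | rfl <;> (match_scalars <;> first | ring1 | decide | (ring_nf; decide))
  constructor
  · simp only [PP]
    exact cg hy.1 (by (match_scalars <;> first | ring1 | decide | (ring_nf; decide)))
  · simp only [PP]
    exact ncg hy.2.1 (by (match_scalars <;> first | ring1 | decide | (ring_nf; decide)))
  · simp only [PP]
    exact ncg hy.2.2 (by (match_scalars <;> first | ring1 | decide | (ring_nf; decide)))
  · intro a b
    simp only [PP]
    rcases hH.mx z hz (y + a • s + b • t) with h | h | h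
    · exact ⟨0, cg h (by (match_scalars <;> first | ring1 | decide | (ring_nf; decide)))⟩
    · exact ⟨1, cg h (by (match_scalars <;> first | ring1 | decide | (ring_nf; decide)))⟩
    · exact ⟨-1, cg h (by (match_scalars <;> first | ring1 | decide | (ring_nf; decide)))⟩
  · intro a b i h0 h1 h2 h3 h4
    simp only [PP] at *
    have hκs : HS H (y + a • s + b • t + i • z) s :=
      ⟨hs.1, ncg h1 (by (match_scalars <;> first | ring1 | decide | (ring_nf; decide))), ncg (nneg hH h2) (by (match_scalars <;> first | ring1 | decide | (ring_nf; decide)))⟩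
    have hκt : HS H (y + a • s + b • t + i • z) t :=
      ⟨ht.1, ncg h3 (by (match_scalars <;> first | ring1 | decide | (ring_nf; decide))), ncg (nneg hH h4) (by (match_scalars <;> first | ring1 | decide | (ring_nf; decide)))⟩
    obtain ⟨D1, D2, D3, D4, D5⟩ := hH.ce _ s t h0 hκs hκt hst
    exact ⟨cg D4 (by (match_scalars <;> first | ring1 | decide | (ring_nf; decide))), cg (hH.neg _ D5) (by (match_scalars <;> first | ring1 | decide | (ring_nf; decide))), cg D1 (by (match_scalars <;> first | ring1 | decide | (ring_nf; decide))), cg (hH.neg _ D2) (by (match_scalars <;> first | ring1 | decide | (ring_nf; decide)))⟩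
  · intro a b i e he h0 h1 h2 h3
    simp only [PP] at *
    have hx : HS H z (y + a • s + b • t + i • z) := ⟨h0, ncg h1 (by (match_scalars <;> first | ring1 | decide | (ring_nf; decide))), ncg h2 (by (match_scalars <;> first | ring1 | decide | (ring_nf; decide)))⟩
    obtain ⟨D1, D2, D3, D4, D5⟩ := hH.ce z _ (e • s) hz hx (hs_smul hH hs e he)
      (ncg h3 (by (match_scalars <;> first | ring1 | decide | (ring_nf; decide))))
    refine ⟨cg D1 (by (match_scalars <;> first | ring1 | decide | (ring_nf; decide))), cg D2 (by (match_scalars <;> first | ring1 | decide | (ring_nf; decide))), fun k => ?_⟩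
    rcases (show ∀ i k : ZMod 3, k = i ∨ k = i + 1 ∨ k = i - 1 by decide) i k with h | h | h
    · exact cg D3 (by rw [h]; (match_scalars <;> first | ring1 | decide | (ring_nf; decide)))
    · exact cg D4 (by rw [h]; (match_scalars <;> first | ring1 | decide | (ring_nf; decide)))
    · exact cg D5 (by rw [h]; (match_scalars <;> first | ring1 | decide | (ring_nf; decide)))
  · intro a b i e he h0 h1 h2 h3
    simp only [PP] at *
    have hx : HS H z (y + a • s + b • t + i • z) := ⟨h0, ncg h1 (by (match_scalars <;> first | ring1 | decide | (ring_nf; decide))), ncg h2 (by (match_scalars <;> first | ring1 | decide | (ring_nf; decide)))⟩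
    obtain ⟨D1, D2, D3, D4, D5⟩ := hH.ce z _ (e • t) hz hx (hs_smul hH ht e he)
      (ncg h3 (by (match_scalars <;> first | ring1 | decide | (ring_nf; decide))))
    refine ⟨cg D1 (by (match_scalars <;> first | ring1 | decide | (ring_nf; decide))), cg D2 (by (match_scalars <;> first | ring1 | decide | (ring_nf; decide))), fun k => ?_⟩
    rcases (show ∀ i k : ZMod 3, k = i ∨ k = i + 1 ∨ k = i - 1 by decide) i k with h | h | h
    · exact cg D3 (by rw [h]; (match_scalars <;> first | ring1 | decide | (ring_nf; decide)))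
    · exact cg D4 (by rw [h]; (match_scalars <;> first | ring1 | decide | (ring_nf; decide)))
    · exact cg D5 (by rw [h]; (match_scalars <;> first | ring1 | decide | (ring_nf; decide)))
  · intro a b i e j he hj h0 h1 h2 h3
    simp only [PP] at *
    have hx : HS H (s + j • z) (y + a • s + b • t + i • z) :=
      ⟨h0, ncg h1 (by (match_scalars <;> first | ring1 | decide | (ring_nf; decide))), ncg h2 (by (match_scalars <;> first | ring1 | decide | (ring_nf; decide)))⟩
    obtain ⟨D1, D2, D3, D4, D5⟩ := hH.ce _ _ (e • (s + t - j • z)) (hsj j hj) hx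
      (hs_smul hH (hk1 j hj) e he) (ncg h3 (by (match_scalars <;> first | ring1 | decide | (ring_nf; decide))))
    exact ⟨cg D1 (by (match_scalars <;> first | ring1 | decide | (ring_nf; decide))), cg D2 (by (match_scalars <;> first | ring1 | decide | (ring_nf; decide))), cg D3 (by (match_scalars <;> first | ring1 | decide | (ring_nf; decide))), cg D4 (by (match_scalars <;> first | ring1 | decide | (ring_nf; decide))), cg D5 (by (match_scalars <;> first | ring1 | decide | (ring_nf; decide)))⟩
  · intro a b i e j he hj h0 h1 h2 h3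
    simp only [PP] at *
    have hx : HS H (t + j • z) (y + a • s + b • t + i • z) :=
      ⟨h0, ncg h1 (by (match_scalars <;> first | ring1 | decide | (ring_nf; decide))), ncg h2 (by (match_scalars <;> first | ring1 | decide | (ring_nf; decide)))⟩
    obtain ⟨D1, D2, D3, D4, D5⟩ := hH.ce _ _ (e • (s + t - j • z)) (htj j hj) hx
      (hs_smul hH (hk2 j hj) e he) (ncg h3 (by (match_scalars <;> first | ring1 | decide | (ring_nf; decide))))
    exact ⟨cg D1 (by (match_scalars <;> first | ring1 | decide | (ring_nf; decide))), cg D2 (by (match_scalars <;> first | ring1 | decide | (ring_nf; decide))), cg D3 (by (match_scalars <;> first | ring1 | decide | (ring_nf; decide))), cg D4 (by (match_scalars <;> first | ring1 | decide | (ring_nf; decide))), cg D5 (by (match_scalars <;> first | ring1 | decide | (ring_nf; decide)))⟩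

end Pool.Agent.Lib.MP_b63a06_co.TR
end

section
set_option autoImplicit false

/-!
# MP_b63a06_co, TR: module T21 (four tables with 21 colours)

The colour of the vector with the digits `c₀, c₁, c₂, c₃` is the digit number `c₀ + 3 c₁ + 9 c₂ + 27 c₃` of a
number written in base 32.
-/

namespace Pool.Agent.Lib.MP_b63a06_co.TR

namespace T21M

/-- The tables, as numbers in base 32. -/
def M : ℕ → ℕ
  | 0 => 16010774075357532904228175473598292127706888306837445390628744345054129070119992475073831639862660263513224775622634846376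
  | 1 => 39269414228046355036216564325402860205741858002700477730663258206824627160417468363223998766805143836709739089176711136812
  | 2 => 19074867001472276307579758725753052631587076694699043823713439229754708221278095757177153919392137753151352084207400169005
  | _ => 34646222264954445711979126183132855541200800381298642478949988477504828547726381568542385059392581642175189672387298264071

/-- The colour number `i`. -/
def T (k i : ℕ) : ℕ := (M k >>> (5 * i)) % 32

/-- `EP` for digits. -/
def epb (z s t : ℕ) : Bool :=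
  (z == 0 && (s == 0 || t == 0)) || (z != 0 && (s + t) % 3 == 0 && s != 0) || (s == t && s != 0)

/-- The patterns as numbers in base 8. -/
def P : ℕ → ℕ
  | 0 => 31760329
  | 1 => 105802585
  | 2 => 110454505
  | _ => 20943481

/-- `Ty2` for digits. -/
def tyb (k a b i : ℕ) : Bool := (P k >>> (3 * (a + 3 * b) + i)) % 2 == 1

/-- `K21` for digits. -/
def kb (k x0 x1 x2 x3 : ℕ) : Bool :=
  (x3 == 0 && epb x0 x1 x2) || (x3 == 1 && tyb k x1 x2 x0) ||
    (x3 == 2 && tyb k ((3 - x1) % 3) ((3 - x2) % 3) ((3 - x0) % 3))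

/-- The difference of two digits. -/
def dd (a b : ℕ) : ℕ := (a + 3 - b) % 3

/-- The check. -/
def chk (k : ℕ) : Bool :=
  (List.range 81).all fun i => (T k i < 21) && (List.range 81).all fun j =>
    T k i != T k j || i == j ||
      !(kb k (dd (i % 3) (j % 3)) (dd (i / 3 % 3) (j / 3 % 3)) (dd (i / 9 % 3) (j / 9 % 3))
        (dd (i / 27) (j / 27)))

theorem chk0 : chk 0 = true := by decide +kernel
theorem chk1 : chk 1 = true := by decide +kernel
theorem chk2 : chk 2 = true := by decide +kernel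
theorem chk3 : chk 3 = true := by decide +kernel

theorem chk_all (k : Fin 4) : chk k.val = true := by
  fin_cases k
  · exact chk0
  · exact chk1
  · exact chk2
  · exact chk3

theorem ep_iff : ∀ z s t : ZMod 3, EP z s t → epb z.val s.val t.val = true := by decide

theorem ty_iff : ∀ (k : Fin 4) (a b i : ZMod 3), Ty2 k a b i →
    tyb k.val a.val b.val i.val = true := by decide +kernel

theorem neg_val : ∀ a : ZMod 3, (-a).val = (3 - a.val) % 3 := by decide

theorem sub_val : ∀ a b : ZMod 3, (a - b).val = dd a.val b.val := by decide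

theorem three : ∀ x : ZMod 3, (x = 0 ∧ x.val = 0) ∨ (x = 1 ∧ x.val = 1) ∨ (x = -1 ∧ x.val = 2) := by
  decide

theorem kb_of (k : Fin 4) (e : Fin 4 → ZMod 3) (h : K21 k e) :
    kb k.val (e 0).val (e 1).val (e 2).val (e 3).val = true := by
  obtain ⟨h0, h1, h2⟩ := h
  rcases three (e 3) with ⟨he, hv⟩ | ⟨he, hv⟩ | ⟨he, hv⟩
  · simp [kb, hv, ep_iff _ _ _ (h0 he)]
  · simp [kb, hv, ty_iff _ _ _ _ (h1 he)]
  · have h3 := ty_iff _ _ _ _ (h2 he)
    rw [neg_val, neg_val, neg_val] at h3
    simp [kb, hv, h3]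

/-- The number of a vector. -/
def idx4 (c : Fin 4 → ZMod 3) : ℕ := (c 0).val + 3 * (c 1).val + 9 * (c 2).val + 27 * (c 3).val

theorem val_lt (x : ZMod 3) : x.val < 3 := ZMod.val_lt x

end T21M

open T21M in
theorem specT21 : SpecT21 := by
  intro k
  have hk := chk_all k
  rw [chk, List.all_eq_true] at hk
  have hlt : ∀ c : Fin 4 → ZMod 3, idx4 c < 81 := by
    intro c
    have h0 := val_lt (c 0)
    have h1 := val_lt (c 1)
    have h2 := val_lt (c 2)
    have h3 := val_lt (c 3)
    simp only [idx4]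
    omega
  refine ⟨fun c => T k.val (idx4 c), fun c => ?_, fun c d hcd hK heq => ?_⟩
  · have h := hk (idx4 c) (List.mem_range.2 (hlt c))
    rw [Bool.and_eq_true, decide_eq_true_eq] at h
    exact h.1
  · have h := hk (idx4 c) (List.mem_range.2 (hlt c))
    rw [Bool.and_eq_true, List.all_eq_true] at h
    have h' := h.2 (idx4 d) (List.mem_range.2 (hlt d))
    have c0 := val_lt (c 0)
    have c1 := val_lt (c 1)
    have c2 := val_lt (c 2)
    have c3 := val_lt (c 3)
    have d0 := val_lt (d 0)
    have d1 := val_lt (d 1)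
    have d2 := val_lt (d 2)
    have d3 := val_lt (d 3)
    have e0 : ∀ c : Fin 4 → ZMod 3, idx4 c % 3 = (c 0).val ∧ idx4 c / 3 % 3 = (c 1).val ∧
        idx4 c / 9 % 3 = (c 2).val ∧ idx4 c / 27 = (c 3).val := by
      intro c
      have h0 := val_lt (c 0)
      have h1 := val_lt (c 1)
      have h2 := val_lt (c 2)
      have h3 := val_lt (c 3)
      simp only [idx4]
      omega
    have hne : idx4 c ≠ idx4 d := by
      intro hx
      apply hcd
      obtain ⟨a0, a1, a2, a3⟩ := e0 c
      obtain ⟨b0, b1, b2, b3⟩ := e0 d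
      rw [hx] at a0 a1 a2 a3
      funext i
      fin_cases i
      · exact ZMod.val_injective 3 (a0.symm.trans b0)
      · exact ZMod.val_injective 3 (a1.symm.trans b1)
      · exact ZMod.val_injective 3 (a2.symm.trans b2)
      · exact ZMod.val_injective 3 (a3.symm.trans b3)
    have hkb := kb_of k (c - d) hK
    simp only [Pi.sub_apply, sub_val] at hkb
    rw [(e0 c).1, (e0 c).2.1, (e0 c).2.2.1, (e0 c).2.2.2, (e0 d).1, (e0 d).2.1, (e0 d).2.2.1,
      (e0 d).2.2.2, hkb] at h'
    simp only [Bool.not_true, Bool.or_false, Bool.or_eq_true, bne_iff_ne, ne_eq, beq_iff_eq] at h'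
    rcases h' with h' | h'
    · exact h' heq
    · exact hne h'

end Pool.Agent.Lib.MP_b63a06_co.TR
end

section
/-!
# T7: a table with 7 colours
-/
namespace Pool.Agent.Lib.MP_b63a06_co.TR

namespace T7M

/-- The table; the index of the point `(a, b, c)` is `a + 3 b + 9 c`. -/
def tab : List ℕ := [0, 5, 4, 1, 2, 3, 6, 4, 0, 4, 1, 6, 0, 5, 2, 1, 6, 3, 5, 2, 3, 6, 4, 1, 2, 0, 5]

def colr (a b c : ZMod 3) : ℕ := tab.getD (a.val + 3 * b.val + 9 * c.val) 0

theorem lt7 : ∀ a b c : ZMod 3, colr a b c < 7 := by decide +kernel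

theorem ne7 : ∀ a b c a' b' c' : ZMod 3, ¬ (a = a' ∧ b = b' ∧ c = c') →
    ((a - a' = 0 ∧ b - b' = 0) ∨ (a - a' = 0 ∧ c - c' = 0) ∨ (b - b' = 0 ∧ c - c' = 0) ∨
    (a - a' + (b - b') + (c - c') = 0 ∧ (a - a' = 0 ∨ b - b' = 0 ∨ c - c' = 0))) →
    colr a b c ≠ colr a' b' c' := by decide +kernel

end T7M

theorem specT7 : SpecT7 := by
  refine ⟨fun c => T7M.colr (c 0) (c 1) (c 2), fun c => T7M.lt7 _ _ _, fun c d hcd h => ?_⟩
  refine T7M.ne7 _ _ _ _ _ _ (fun hh => hcd ?_) h
  ext i
  fin_cases i
  · exact hh.1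
  · exact hh.2.1
  · exact hh.2.2

end Pool.Agent.Lib.MP_b63a06_co.TR
end

section
set_option autoImplicit false

/-!
# Module TWO (MP_b63a06_co, folder TR): two independent centres
-/

namespace Pool.Agent.Lib.MP_b63a06_co.TR

theorem specTWO : SpecTWO := by
  intro V _ _ _ A F h4
  haveI : Finite (V ⧸ F) := Finite.of_surjective _ (Submodule.mkQ_surjective F)
  obtain ⟨c, hc, hc0⟩ : ∃ c ∈ CE A F, c ∉ ({0} : Set (V ⧸ F)) := by
    by_contra h
    push Not at h
    have h1 := Set.ncard_le_ncard (s := CE A F) (t := {0}) h (Set.toFinite _)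
    rw [Set.ncard_singleton] at h1
    omega
  obtain ⟨d, hd, hd0⟩ : ∃ d ∈ CE A F, d ∉ ({0, c, -c} : Set (V ⧸ F)) := by
    by_contra h
    push Not at h
    have h1 := Set.ncard_le_ncard (s := CE A F) (t := {0, c, -c}) h (Set.toFinite _)
    have h2 := Set.ncard_insert_le (0 : V ⧸ F) {c, -c}
    have h3 := Set.ncard_insert_le c ({-c} : Set (V ⧸ F))
    rw [Set.ncard_singleton] at h3
    omega
  obtain ⟨α, hα, rfl⟩ := hc
  obtain ⟨β, hβ, rfl⟩ := hd
  refine ⟨α, β, hα, hβ, ?_⟩
  intro a b hab
  have h0 : a • F.mkQ α + b • F.mkQ β = 0 := by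
    rw [← map_smul, ← map_smul, ← map_add, Submodule.mkQ_apply,
      Submodule.Quotient.mk_eq_zero]
    exact hab
  rw [Set.mem_singleton_iff] at hc0
  simp only [Set.mem_insert_iff, Set.mem_singleton_iff, not_or] at hd0
  have key : ∀ z : ZMod 3, z = 0 ∨ z = 1 ∨ z = -1 := by decide
  obtain ⟨hd1, hd2, hd3⟩ := hd0
  rcases key a with rfl | rfl | rfl
  · rcases key b with rfl | rfl | rfl
    · exact ⟨rfl, rfl⟩
    · rw [zero_smul, one_smul, zero_add] at h0
      exact absurd h0 hd1
    · rw [zero_smul, neg_smul, one_smul, zero_add, neg_eq_zero] at h0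
      exact absurd h0 hd1
  · rcases key b with rfl | rfl | rfl
    · rw [zero_smul, one_smul, add_zero] at h0
      exact absurd h0 hc0
    · rw [one_smul, one_smul] at h0
      exact absurd (eq_neg_of_add_eq_zero_right h0) hd3
    · rw [one_smul, neg_smul, one_smul, add_neg_eq_zero] at h0
      exact absurd h0.symm hd2
  · rcases key b with rfl | rfl | rfl
    · rw [zero_smul, neg_smul, one_smul, add_zero, neg_eq_zero] at h0
      exact absurd h0 hc0
    · rw [neg_smul, one_smul, one_smul, neg_add_eq_zero] at h0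
      exact absurd h0.symm hd2
    · rw [neg_smul, neg_smul, one_smul, one_smul, ← neg_add, neg_eq_zero] at h0
      exact absurd (eq_neg_of_add_eq_zero_right h0) hd3

end Pool.Agent.Lib.MP_b63a06_co.TR
end

section
set_option autoImplicit false

/-!
# MP_b63a06_co, ternary Reed: assembly (helper65)
-/

namespace Pool.Agent.Lib.MP_b63a06_co.TR

theorem allEXM : SpecEXM := specEXM
theorem allMEE : SpecMEE := specMEE
theorem allCRD : SpecCRD := specCRD
theorem allNOC : SpecNOC := specNOC allMEE
theorem allQUO : SpecQUO := specQUO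
theorem allYSM : SpecYSM := specYSM
theorem allCBA : SpecCBA := specCBA allYSM
theorem allPC : SpecPC := specPC
theorem allFLI : SpecFLI := specFLI
theorem allP1 : SpecP1 := specP1 allFLI
theorem allPD : SpecPD := specPD allP1 allCBA allYSM
theorem allP2 : SpecP2 := specP2 allPC allPD
theorem allP8 : SpecP8 := specP8
theorem allEXF : SpecEXF := specEXF
theorem allEX2 : SpecEX2 := specEX2 allEXF allCBA
theorem allP3 : SpecP3 := specP3 allCBA allYSM allP2 allP8 allEX2 allPC allPD
theorem allP4B : SpecP4B := specP4B allCBA allP2 allP8 allEX2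
theorem allP4C : SpecP4C := specP4C allP2 allP8 allEX2 allCBA
theorem allPE : SpecPE := specPE allPC
theorem allPF : SpecPF := specPF
theorem allP4D : SpecP4D := specP4D allPC allPD allPE allPF allEX2 allYSM allCBA
theorem allSPN : SpecSPN := specSPN
theorem allP4 : SpecP4 := specP4 allP3 allP4B allP4C allP4D allSPN allEXF allYSM allCBA
theorem allHQR : SpecHQR := specHQR allFLI allMEE
theorem allL1R : SpecL1R := specL1R
theorem allL1F : SpecL1F := specL1F
theorem allPL1 : SpecPL1 := specPL1 allHQR allL1R allL1F allYSM allCBA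
theorem allP5A : SpecP5A := specP5A allPL1 allSPN allEXF allCBA allYSM
theorem allP5 : SpecP5 := specP5 allP5A allP2 allEX2 allCBA allMEE
theorem allCOR : SpecCOR := specCOR allP4 allP5 allYSM allMEE allCBA
theorem allT8 : SpecT8 := specT8
theorem allC8 : SpecC8 := specC8 allT8 allCRD allCBA
theorem allEXS : SpecEXS := specEXS
theorem allN5G : SpecN5G := specN5G allEXS allCBA allSPN allMEE
theorem allAVG : SpecAVG := specAVG
theorem allAFN : SpecAFN := specAFN allQUO allCOR allC8 allN5G allCBA allAVG allEXM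
theorem allHCO : SpecHCO := specHCO allFLI allMEE
theorem allNF4 : SpecNF4 := specNF4 allHCO allEXS allCBA allSPN allMEE
theorem allN4X : SpecN4X := specN4X allHCO allEXS allCBA allSPN allMEE
theorem allN4F : SpecN4F := specN4F allCBA allEXM
theorem allT7 : SpecT7 := specT7
theorem allCPE : SpecCPE := specCPE
theorem allC7 : SpecC7 := specC7 allT7 allCPE allCRD
theorem allHEQ : SpecHEQ := specHEQ allMEE
theorem allRER : SpecRER := specRER
theorem allB1F : SpecB1F := specB1F
theorem allEPX : SpecEPX := specEPX allHEQ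
theorem allB1V : SpecB1V := specB1V allHEQ allRER allB1F allEPX allYSM allCBA allMEE
theorem allT21 : SpecT21 := specT21
theorem allC21 : SpecC21 := specC21 allT21 allCRD allCBA
theorem allT63 : SpecT63 := specT63
theorem allC63 : SpecC63 := specC63 allT63 allCRD allCBA allEPX
theorem allCNG : SpecCNG := specCNG
theorem allTWO : SpecTWO := specTWO
theorem allBST : SpecBST := specBST allB1V allC21 allC63 allCNG allTWO allCBA
theorem allBFN : SpecBFN := specBFN allQUO allCOR allNF4 allN5G allN4X allN4F allC7 allBST allCBA allAVG allEXM allMEE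
theorem allLTS : SpecLTS := specLTS
theorem allLTB : SpecLTB := specLTB
theorem allLPS : SpecLPS := specLPS allFLI allCBA allYSM
theorem allHAV : SpecHAV := specHAV
theorem allLT8 : SpecLT8 := specLT8 allLPS allHAV allEXF allCBA
theorem allLTC : SpecLTC := specLTC
theorem allLTA : SpecLTA := specLTA allNF4 allCBA allAVG allYSM allMEE allLTS allLTB allLT8 allLTC
theorem allFLV : SpecFLV := specFLV allCPE
theorem allSIF : SpecSIF := specSIF
theorem allSIX : SpecSIX := specSIX allCPE allFLV allSIF allMEE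
theorem allT61 : SpecT61 := specT61
theorem allCIN : SpecCIN := specCIN allCPE
theorem allC61 : SpecC61 := specC61 allT61 allCIN allCPE allCRD
theorem allCLQ : SpecCLQ := specCLQ
theorem allCPL : SpecCPL := specCPL
theorem allEXJ : SpecEXJ := specEXJ
theorem allLMU : SpecLMU := specLMU allEXM allYSM allAVG allSIX allEXJ
theorem allLFF : SpecLFF := specLFF
theorem allLFR : SpecLFR := specLFR allLFF allSIF allSIX allFLV allMEE allCPL allCPE
theorem allFLP : SpecFLP := specFLP
theorem allFLQ : SpecFLQ := specFLQ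
theorem allFLN : SpecFLN := specFLN
theorem allLMA : SpecLMA := specLMA
theorem allLMK : SpecLMK := specLMK allSIX allLFR allFLP allFLQ allFLN allLMA
theorem allLMB : SpecLMB := specLMB allCPL allLMU allLMK
theorem allT54 : SpecT54 := specT54
theorem allC54 : SpecC54 := specC54 allT54 allCIN allCPE allCRD
theorem allFIN : SpecFIN := specFIN allEXM allMEE allCRD allNOC allAFN allBFN allLTA allN4X allN4F allSIX allCNG allTWO allC61 allCLQ allLMB allC54 allCPE

end Pool.Agent.Lib.MP_b63a06_co.TR
end
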