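import Pool.Agent.Lib.MP_b63a06_co.TR.Defs

set_option autoImplicit false

/-!
# MP_b63a06_co: Reed's bound for all Cayley graphs of elementary abelian 3-groups (helper65)

TARGET: `V` a finite vector space over `ZMod 3`, `G` a Cayley graph of `V`. Then
`χ(G) ≤ ⌊(ω + Δ + 1) / 2⌋`.

PLAN. `A = S ∪ {0}`, `|A| = Δ + 1`, `W` a subspace of maximal order avoiding `A \ {0}`, `M = ix W` its
index. The cosets of `W` are `M` colour classes. No conflict: `2 M ≤ ω + |A|` (NOC). If there is a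
conflict (`Conf`):
(AFN) `|A| + 4 ≤ 2 M` implies that `8 M / 9` colours suffice;
(BFN) `9 (|A| + 4) ≤ 16 M` implies that `7 M / 9` colours suffice;
(LTA, FRM) `9 (|A| + 4) ≤ 14 M` implies that there is a frame; then (TWO, C61) `61 M / 81` colours
suffice; if `|A| + ω < 122 M / 81` then there is a conflict of centres (CLQ), by LMB a conflict of
centres with a complement `R` avoiding its pattern, and then (C54) `54 M / 81` colours suffice, while
`117 M ≤ 81 |A|`.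

THE FLIP (FLI): `K ≤ W`, `|W| = 3 |K|`, `κ + K` without elements of `A`: then `K + ⟨κ⟩` is again a
maximal avoiding subspace; so (MEE) all its cosets contain elements of `A`.

Module `XXX` = file `TR/XXX.lean`, `import Pool.Agent.Lib.MP_b63a06_co.TR.SpecC` (or `SpecA`, `SpecB`),
namespace `Pool.Agent.Lib.MP_b63a06_co.TR`, own lemmas in the namespace `...TR.XXXM`, theorem
`specXXX (hYYY : SpecYYY) .. : SpecXXX`; any Spec may be a hypothesis. In `ZMod 3`: `2 = -1`,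
`3 • x = 0`, `x + x = -x`; every `c ≠ 0` is `1` or `-1`.
-/

namespace Pool.Agent.Lib.MP_b63a06_co.TR

/-! ## Part 1: basic facts -/

/-- EXM [80 lines]. Maximal avoiding subspaces.

Proof. `⊥` avoids `A`; there are finitely many submodules, take one of maximal order. Two maximal ones have
the same order, and `|V| = |W| * ix W`. -/
def SpecEXM : Prop := ∀ (V : Type) [AddCommGroup V] [Module (ZMod 3) V] [Finite V] (A : Set V),
  (∃ W, MaxAv A W) ∧ ∀ W W', MaxAv A W → MaxAv A W' → Nat.card W = Nat.card W' ∧ ix W = ix W'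

/-- MEE [80 lines]. Every coset of a maximal avoiding subspace contains an element of `A`.

Proof. Otherwise `v ∉ W` (`0 ∈ A`) and `W ⊔ span {v}` has the order `3 |W|`; let `a ∈ A` be in it,
`a = w + c v`. `c = 0`: `a = 0`. `c = 1`: `a - v ∈ W`, excluded. `c = -1`: `-a ∈ A`, `-a - v ∈ W`, excluded. So it
avoids `A`, a contradiction to the maximality. -/
def SpecMEE : Prop := ∀ (V : Type) [AddCommGroup V] [Module (ZMod 3) V] [Finite V] (A : Set V), Sy A →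
  ∀ W, MaxAv A W → ∀ v, ∃ a ∈ A, a - v ∈ W

/-- FLI [80 lines]. The flip.

Proof. `κ ∉ K` because `0 ∈ A`. `a ∈ A`, `a = k + c κ`: `c = 0`: `a ∈ W`, `a = 0`; `c = ± 1`: `± a - κ ∈ K`, excluded. The
order is `3 |K| = |W|`. -/
def SpecFLI : Prop := ∀ (V : Type) [AddCommGroup V] [Module (ZMod 3) V] [Finite V] (A : Set V), Sy A →
  ∀ (W K : Submodule (ZMod 3) V) (κ : V), MaxAv A W → K ≤ W → Nat.card W = 3 * Nat.card K →
  (∀ a ∈ A, a - κ ∉ K) → MaxAv A (K ⊔ Submodule.span (ZMod 3) {κ}) ∧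
  ∀ x, x ∈ K ⊔ Submodule.span (ZMod 3) {κ} ↔ ∃ c : ZMod 3, x - c • κ ∈ K

/-- CBA [150 lines]. The plane of a conflict.

Proof. `s ∈ W` would give `s = 0` (`MaxAv.av`) and `s - t = -t ∈ A`; the same for `t`. `s - t ∈ W`: `t1` gives
`s = t`, `s - t = 0 ∈ A`. `s + t ∈ W`: `s - (-t) ∈ W`, `-t ∈ A`, so `-t = s`, `s - t = s + s = -s ∈ A`. The nine
pairs `(a, b)` up to sign are `s, t, s + t, s - t`. The last formula: the cosets `0, ± s, ± t` of `W` have one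
element of `A` each, `± (s - t)` have `|cs (s - t)|`, `± (s + t)` have `|cs (s + t)|` elements. -/
def SpecCBA : Prop := ∀ (V : Type) [AddCommGroup V] [Module (ZMod 3) V] [Finite V] (A : Set V), Sy A →
  ∀ (W : Submodule (ZMod 3) V) (s t : V), Conf A W s t →
  (∀ a b : ZMod 3, a • s + b • t ∈ W → a = 0 ∧ b = 0) ∧
  Nat.card (FF W s t) = 9 * Nat.card W ∧ ix W = 9 * ix (FF W s t) ∧
  (cs A (FF W s t) 0).ncard = 5 + 2 * NN A W s t

/-- YSM [100 lines]. The cosets of `W` in a coset of `FF W s t`.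

Proof. `x ∈ FF W s t` iff `x - a s - b t ∈ W` for some `a, b` (unique). -/
def SpecYSM : Prop := ∀ (V : Type) [AddCommGroup V] [Module (ZMod 3) V] [Finite V] (A : Set V)
  (W : Submodule (ZMod 3) V) (s t : V),
  (∀ x, x ∈ FF W s t ↔ ∃ a b : ZMod 3, x - a • s - b • t ∈ W) ∧
  ((∀ a b : ZMod 3, a • s + b • t ∈ W → a = 0 ∧ b = 0) → ∀ y,
  (cs A (FF W s t) y).ncard = ∑ a : ZMod 3, ∑ b : ZMod 3, (cs A W (y + a • s + b • t)).ncard)

/-- AVG [80 lines]. A coset with few elements.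

Proof. `A` is the disjoint union of the `cs A F v`, one `v` for each of the `ix F` cosets; if all cosets but
`F` have at least `k` elements then `|A| ≥ |cs A F 0| + k (ix F - 1)`. -/
def SpecAVG : Prop := ∀ (V : Type) [AddCommGroup V] [Module (ZMod 3) V] [Finite V] (A : Set V)
  (F : Submodule (ZMod 3) V) (k : ℕ), A.ncard + k < (cs A F 0).ncard + k * ix F →
  ∃ y, y ∉ F ∧ (cs A F y).ncard < k

/-- SPN [80 lines]. A set of nonzero vectors which meets all kernels has four elements.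

Proof. For `y ≠ 0` exactly one third of the functionals vanish on `y`. If `|Y| ≤ 3` then the functionals
which vanish on some `y ∈ Y` are at most `3 (N / 3 - 1) + 1 < N` (`N` = number of functionals; all three
subspaces contain `0`). -/
def SpecSPN : Prop := ∀ (V : Type) [AddCommGroup V] [Module (ZMod 3) V] [Finite V] (Y : Set V),
  (0 : V) ∉ Y → (∀ φ : V →ₗ[ZMod 3] ZMod 3, ∃ y ∈ Y, φ y = 0) → 4 ≤ Y.ncard

/-- EXF [60 lines]. Extension of functionals.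

Proof. `LinearMap.exists_extend` for the subspace `W ⊔ span {s, t, y}`, or: let `p : V → V ⧸ W`; the images
of `s, t, y` are linearly independent; extend `f` to `g` on `V` (`exists_extend`) and subtract `h ∘ p`, where
`h` is a functional on `V ⧸ W` with prescribed values on the three images. -/
def SpecEXF : Prop := ∀ (V : Type) [AddCommGroup V] [Module (ZMod 3) V] [Finite V]
  (W : Submodule (ZMod 3) V) (s t y : V),
  (∀ a b c : ZMod 3, a • s + b • t + c • y ∈ W → a = 0 ∧ b = 0 ∧ c = 0) →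
  ∀ f : W →ₗ[ZMod 3] ZMod 3, ∃ φ : V →ₗ[ZMod 3] ZMod 3, (∀ w : W, φ w = f w) ∧ φ s = 0 ∧
  φ t = 0 ∧ φ y = 0

/-- EXS [60 lines]. The same for two vectors.

Proof. As EXF. -/
def SpecEXS : Prop := ∀ (V : Type) [AddCommGroup V] [Module (ZMod 3) V] [Finite V]
  (W : Submodule (ZMod 3) V) (s t : V),
  (∀ a b : ZMod 3, a • s + b • t ∈ W → a = 0 ∧ b = 0) →
  ∀ f : W →ₗ[ZMod 3] ZMod 3, ∃ φ : V →ₗ[ZMod 3] ZMod 3, (∀ w : W, φ w = f w) ∧ φ s = 0 ∧ φ t = 0

/-- CRD [150 lines]. Colourings by coordinates.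

Proof. `U = R ⊔ span (range g)`. Choose a representative in every coset of `U`; every `x : V` is
`rep + r + lc g c` with `r ∈ R` and a unique `c`; colour `x` by (coset, `col c`), i.e. by
`k * (number of the coset) + col c`. Let `x - y ∈ A`, `x ≠ y` in the same coset: `x - y - lc g (c - d) ∈ R`, so
`c ≠ d` and `C (c - d)`, and `col c ≠ col d`. Also `|U| = 3 ^ n |R|`. -/
def SpecCRD : Prop := ∀ (V : Type) [AddCommGroup V] [Module (ZMod 3) V] [Finite V] (A : Set V)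
  (R : Submodule (ZMod 3) V) (n k : ℕ) (g : Fin n → V) (C : (Fin n → ZMod 3) → Prop)
  (col : (Fin n → ZMod 3) → ℕ), (∀ c, lc g c ∈ R → c = 0) → (∀ c, col c < k) →
  (∀ c d, c ≠ d → C (c - d) → col c ≠ col d) →
  (∀ a ∈ A, a ≠ 0 → ∀ c, a - lc g c ∈ R → c ≠ 0 ∧ C c) →
  ∃ m, ix R = 3 ^ n * m ∧ ColA A (k * m)

/-- QUO [250 lines]. Quotients.

Proof. `V' = V ⧸ Z`, `A'` the image. If `W'` avoids `A'` then its preimage avoids `A`: `a ∈ A` in the preimage
gives `π a = 0`, `a ∈ Z`, so `a = 0` (`Z` is contained in an avoiding subspace). If `W ≥ Z` is maximal then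
`π W` is maximal (its preimage is `W`; orders are divided by `|Z|`), and `ix (π W) = ix W`; all maximal
avoiding subspaces of `A'` have the same index. Colourings are pulled back: `x ≠ y`, `x - y ∈ A` implies
`π x ≠ π y`. A weak conflict is by definition a conflict of the quotient. -/
def SpecQUO : Prop := ∀ (V : Type) [AddCommGroup V] [Module (ZMod 3) V] [Finite V] (A : Set V), Sy A →
  ∀ Z : Submodule (ZMod 3) V, Z ≠ ⊥ → (∃ W, MaxAv A W ∧ Z ≤ W) →
  Sy (Z.mkQ '' A) ∧ Nat.card (V ⧸ Z) < Nat.card V ∧ (Z.mkQ '' A).ncard ≤ A.ncard ∧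
  (∀ W W', MaxAv A W → MaxAv (Z.mkQ '' A) W' → ix W' = ix W) ∧
  (∀ k, ColA (Z.mkQ '' A) k → ColA A k) ∧
  (∀ W a b, WConf A W Z a b → Conf (Z.mkQ '' A) (W.map Z.mkQ) (Z.mkQ a) (Z.mkQ b))

/-! ## Part 2: one quotient: patterns of a coset of `⟨W, s, t⟩` modulo a hyperplane of `W` -/

/-- L1F [300 lines]. The finite classification without conflicts (checked by an independent program:
39203 patterns with `P a b 0` for all `a, b`, and 32 exceptional ones).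

Proof. Computation. Let `B (a, b)` be the mask of the indices, `B (0, 0) = 1`. By `sn` all positions `(a, 0)`,
`(0, b)` have index 0. Suppose that `P α β 0` fails, so `α, β ≠ 0`. Replacing `P a b i` by `P (± a) (± b) i` (the
rules `RL` and `Exc` are invariant) let `(α, β) = (-1, -1)`. Search the masks of the positions in the order
`(0,0), (-1,-1), (-1,0), (0,-1), (1,0), (0,1), (1,1), (-1,1), (1,-1)`, using in every step the instances of
the rules for which all positions are known, and `TT P ≤ 17`: the search tree has only 6647 nodes, and 8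
leaves (all of them `Exc`). The 32 exceptional patterns: `/team-store/MP_b63a06_TR_tables.txt`. -/
def SpecL1F : Prop := ∀ P : Pat, RL P → TT P ≤ 17 → (∀ a b, P a b 0) ∨ Exc P

/-- L1R [250 lines]. The rules hold.

Proof. Write `[a, b, i] = y + a s + b t + i z`; `-[a, b, i] - [a', b', i'] = [-a - a', -b - b', -i - i']` (because
`-y - y = y`). `p0, p1, p2`: `HS H z y`. `vert`: `mx` for `κ = z`. `ln1`: `κ = s + j z` with `j ≠ 0` is not in `H` (`HS H z s`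
and `neg`); `mx`; `ln2` the same with `t`. `sn`: `x = [a, b, i]` is `z`-single; `cf z x (± s)`, `cf z x (± t)` (`HS` is
stable under `neg`). `th`: `cf z x (-x')` and `neg`. `hs`: `cf` for `κ = s + j z`, `x`, `-x'`. `ht` the same for `t + j z`.
`k1`: `κ = [a, b, j]`, `x = [a - α, b, i]`: `x - κ = -α s + (i - j) z` is not in `H` (`HS H z s`),
`-(x + κ) = [a + α, b, -i - j]` is not in `H`; so `x` is `κ`-single; in the same way `x' = [a, b - β, i]`. `cf κ x (-x')`: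
`x + x' ∈ H`, and `-(x + x') = [a + α, b + β, i]`. -/
def SpecL1R : Prop := ∀ (V : Type) [AddCommGroup V] [Module (ZMod 3) V] (H : V → Prop), HR H →
  ∀ z s t y : V, ¬ H z → HS H z s → HS H z t → HS H z y → RL (PP H s t z y)

/-- HQR [100 lines] (FLI, MEE). The rules for the quotient by a hyperplane of `W`.

Proof. `H x` iff some `a ∈ A` is in `x + K`. `¬ H κ`: `W' = K ⊔ span {κ}` is `MaxAv` (FLI). `mx`: MEE gives `a ∈ A` and `c`
with `a - v - c κ ∈ K`, so `H (v + c κ)`. `cf`: let `a' ∈ A ∩ (a + K)`, `b' ∈ A ∩ (b + K)`; if `x ∈ A`, `x - a' ∈ W'` then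
`x ∈ a + c κ + K` and `c = 0` because `a ± κ ∉ H`; so `WConf A W' K a' b'` unless `H (a - b)`; `QR`. -/
def SpecHQR : Prop := ∀ (V : Type) [AddCommGroup V] [Module (ZMod 3) V] [Finite V] (A : Set V), Sy A →
  QR A → ∀ W K : Submodule (ZMod 3) V, MaxAv A W → K ≤ W → K ≠ ⊥ → Nat.card W = 3 * Nat.card K →
  HR (fun x => ∃ a ∈ A, a - x ∈ K)

/-- PL1 [250 lines] (HQR, L1R, L1F, YSM, CBA). One hyperplane: good or exceptional.

Proof. `K = W ⊓ ker φ`, `|W| = 3 |K|`, `K ≠ ⊥`; `z ∈ W` with `φ z = 1`; `H` as in HQR. `¬ H z`: `a - z ∈ K` gives `a ∈ W`, `a = 0`,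
`z ∈ K`. `HS H z s`: `a - s ∓ z ∈ K` gives `a - s ∈ W`, `a = s`. The same for `t, y` (`Sgl`). `PP H s t z y = PW A W s t y φ`
(`w = x - y - a s - b t`). The map `x ↦ (a, b, φ x)` from `cs A (FF W s t) y` onto the elements of the pattern
shows `TT ≤ |cs|`. L1R, L1F. In the exceptional case `17 = TT ≤ |cs| ≤ 17`, so the map is injective. -/
def SpecPL1 : Prop := ∀ (V : Type) [AddCommGroup V] [Module (ZMod 3) V] [Finite V] (A : Set V), Sy A →
  QR A → ∀ (W : Submodule (ZMod 3) V) (s t : V), Conf A W s t → 9 ≤ Nat.card W →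
  ∀ y, y ∉ FF W s t → Sgl A W y → (cs A (FF W s t) y).ncard ≤ 17 →
  ∀ φ : V →ₗ[ZMod 3] ZMod 3, φ s = 0 → φ t = 0 → φ y = 0 → (∃ w ∈ W, φ w ≠ 0) →
  (∀ a b : ZMod 3, ∃ w ∈ W, φ w = 0 ∧ y + a • s + b • t + w ∈ A) ∨
  ((cs A (FF W s t) y).ncard = 17 ∧ Exc (PW A W s t y φ) ∧
    (∀ a b, (cs A W (y + a • s + b • t)).ncard = sz (PW A W s t y φ) a b) ∧
    ∀ x ∈ A, ∀ x' ∈ A, x - y ∈ FF W s t → x - x' ∈ W → φ x = φ x' → x = x')

/-! ## Part 3: the core: all quotients by one element -/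

/-- P1 [120 lines] (FLI). The quotient by `κ = y + w₀`.

Proof. `K = W ⊓ ker φ`; `κ + K` contains no element of `A` (hypothesis, `φ (w₀ + k) = c`), so
`W' = K ⊔ span {κ}` is `MaxAv`; `Z = span {κ} ≠ ⊥`. Let `x ∈ A`, `x - s = k + e κ ∈ W'`: `e = 0`: `x - s ∈ W`, `x = s`. `e = 1`:
`x = y + s + (w₀ + k)`, by hypothesis `k = 0` and `x - s = κ ∈ Z`. `e = -1`: `-x = y - s + (w₀ - k) ∈ A`, so `k = 0`. The
same for `t`. `QR`: there is an `x ∈ A` with `x = s - t + e κ`; `e ≠ 0` because `s - t ∉ A`; `e = 1`: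
`x = y + s - t + w₀`; `e = -1`: `-x = y - s + t + w₀`. -/
def SpecP1 : Prop := ∀ (V : Type) [AddCommGroup V] [Module (ZMod 3) V] [Finite V] (A : Set V), Sy A →
  QR A → ∀ (W : Submodule (ZMod 3) V) (s t : V), Conf A W s t →
  ∀ (φ : V →ₗ[ZMod 3] ZMod 3) (c : ZMod 3), (∃ w ∈ W, φ w ≠ 0) → ∀ y w₀, w₀ ∈ W → φ w₀ = c →
  (∀ w ∈ W, φ w = c → y + w ∉ A) →
  (∀ w ∈ W, φ w = c → w ≠ w₀ → y + s + w ∉ A ∧ y - s + w ∉ A ∧ y + t + w ∉ A ∧ y - t + w ∉ A) →
  y + s - t + w₀ ∈ A ∨ y - s + t + w₀ ∈ A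

/-- PC [200 lines]. Combinatorics of the positions.

Proof. `N(p)` = the four neighbours in the row and column of `p`, `A(p) = {p + (1,-1), p - (1,-1)}`,
`d₊, d₋ = p ± (1,1)`. (0) If `D w = ∅` for some `w` then every `p` outside of `D = ⋃ D w` has a neighbour in `D`; a
dominating set has at least three elements (if a row and a column are not met by `D` then their
common position is not dominated; `decide`), so `∑ |D w| ≥ 3`, with three different positions. If all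
`D w ≠ ∅` then `∑ |D w| ≥ |L| ≥ 3`. (1) Let `a ≥ 1` elements be at `q` and at most one other element
`(w', q')`, `q' ≠ q`: then `D` has at most two positions, by (0) all `D w ≠ ∅`. Let `p` be one of `q ± (1,1)`, `p ≠ q'`.
`q ∉ N(p) ∪ A(p)`. The rule for `w'`: `q' ∈ A(p)`; the rule for a `w ≠ w'`: `q' ∈ N(p)`; a contradiction (without
other element: the rule fails at once). (2) `|L| = 3`, `D w = {d w}`: check of all `9 ^ 3` triples of positions by
`decide`. -/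
def SpecPC : Prop := ∀ (L : Type) [Fintype L] (D : L → Set (ZMod 3 × ZMod 3)), 3 ≤ Fintype.card L →
  RuleD D → 3 ≤ ∑ w, (D w).ncard ∧
  (∀ q, (∃ w, q ∈ D w) → {w | q ∈ D w}.ncard + 2 ≤ ∑ w, (D w).ncard) ∧
  (Fintype.card L = 3 → (∀ w, (D w).ncard = 1) → ∀ w w', w ≠ w' → ∀ p ∈ D w, ∀ p' ∈ D w',
    p.1 ≠ p'.1 ∧ p.2 ≠ p'.2)

/-- PD [150 lines] (P1, CBA, YSM). The elements of a hyperplane satisfy the rule.

Proof. The rule is P1 for the points `y + a s + b t`. Every `x ∈ A` with `x - y ∈ FF` is uniquely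
`y + a s + b t + w`, `w ∈ W`, and `φ x = φ w`; so `EC = ∑ |D w|`. -/
def SpecPD : Prop := ∀ (V : Type) [AddCommGroup V] [Module (ZMod 3) V] [Finite V] (A : Set V), Sy A →
  QR A → ∀ (W : Submodule (ZMod 3) V) (s t : V), Conf A W s t →
  ∀ (y : V) (φ : V →ₗ[ZMod 3] ZMod 3) (c : ZMod 3), φ s = 0 → φ t = 0 → φ y = 0 →
  (∃ w ∈ W, φ w ≠ 0) →
  RuleD (fun (w : {w : V // w ∈ W ∧ φ w = c}) =>
    {p : ZMod 3 × ZMod 3 | y + p.1 • s + p.2 • t + w.1 ∈ A}) ∧
  ∀ _ : Fintype {w : V // w ∈ W ∧ φ w = c}, EC A W s t y φ c =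
    ∑ w : {w : V // w ∈ W ∧ φ w = c}, {p : ZMod 3 × ZMod 3 | y + p.1 • s + p.2 • t + w.1 ∈ A}.ncard

/-- P2 [100 lines] (PC, PD). The bounds for a hyperplane.

Proof. `L = {w ∈ W | φ w = c}` has `|W| / 3 ≥ 3` elements. -/
def SpecP2 : Prop := ∀ (V : Type) [AddCommGroup V] [Module (ZMod 3) V] [Finite V] (A : Set V), Sy A →
  QR A → ∀ (W : Submodule (ZMod 3) V) (s t : V), Conf A W s t → 9 ≤ Nat.card W →
  ∀ (y : V) (φ : V →ₗ[ZMod 3] ZMod 3) (c : ZMod 3), φ s = 0 → φ t = 0 → φ y = 0 →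
  (∃ w ∈ W, φ w ≠ 0) → 3 ≤ EC A W s t y φ c ∧
  (∀ a b : ZMod 3, (∃ w ∈ W, φ w = c ∧ y + a • s + b • t + w ∈ A) →
    {w | w ∈ W ∧ φ w = c ∧ y + a • s + b • t + w ∈ A}.ncard + 2 ≤ EC A W s t y φ c)

/-- P8 [100 lines]. The eight hyperplanes of two functionals.

Proof. `(λ, μ)` runs over the pairs `≠ (0, 0)`. For `x` with `(φ x, ψ x) = (u, v)` the number of `(λ, μ)` with
`λ u + μ v = 1` is `3` if `(u, v) ≠ (0, 0)` (`decide`), else `0`. Double counting. -/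
def SpecP8 : Prop := ∀ (V : Type) [AddCommGroup V] [Module (ZMod 3) V] [Finite V] (Y : Set V)
  (φ ψ : V →ₗ[ZMod 3] ZMod 3),
  (∑ p : ZMod 3 × ZMod 3, {x | x ∈ Y ∧ (p.1 • φ + p.2 • ψ) x = 1}.ncard) =
    3 * {x | x ∈ Y ∧ ¬ (φ x = 0 ∧ ψ x = 0)}.ncard

/-- EX2 [100 lines] (EXF, CBA). Two independent functionals on `W`, vanishing on a given element.

Proof. Choose independent functionals on `W` (or on `W ⧸ ⟨w₁⟩` if `|W| ≥ 27`) and extend them (EXF; `s, t, y` are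
independent modulo `W` by CBA and `y ∉ FF W s t`). -/
def SpecEX2 : Prop := ∀ (V : Type) [AddCommGroup V] [Module (ZMod 3) V] [Finite V] (A : Set V), Sy A →
  ∀ (W : Submodule (ZMod 3) V) (s t : V), Conf A W s t → ∀ y, y ∉ FF W s t → ∀ w₁ ∈ W,
  (9 ≤ Nat.card W ∧ w₁ = 0) ∨ 27 ≤ Nat.card W →
  ∃ φ ψ : V →ₗ[ZMod 3] ZMod 3, φ s = 0 ∧ φ t = 0 ∧ φ y = 0 ∧ ψ s = 0 ∧ ψ t = 0 ∧ ψ y = 0 ∧
    φ w₁ = 0 ∧ ψ w₁ = 0 ∧ ∀ a b : ZMod 3, (∀ w ∈ W, (a • φ + b • ψ) w = 0) → a = 0 ∧ b = 0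

/-- P3 [250 lines] (P2, P8, EX2, PC, PD). `9 + e₀ ≤ T`.

Proof. `Y = cs A (FF W s t) y`, `T = |Y|`. (a) `|W| ≥ 27`: there is an element `y + a s + b t + w₁ ∈ A`, `w₁ ∈ W`, `w₁ ≠ 0`
(otherwise `EC φ 1 = 0` for every `φ`, against P2). `φ, ψ` from EX2. P8 and P2 for the eight functionals
`λ φ + μ ψ`: `24 ≤ 3 * |{x ∈ Y | not φ x = ψ x = 0}|`, and the `x ∈ Y` with `φ x = ψ x = 0` are at least `e₀ + 1`. So
`T ≥ 8 + e₀ + 1`. (b) `|W| = 9` (the order is a power of three): `φ x = ψ x = 0` only for the `y + a s + b t`. So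
`T - e₀ ≥ 8`. Suppose `T - e₀ = 8`. Then all eight `EC` are `3`. Let `f (w)` (`w ∈ W`, `w ≠ 0`) be the number of `(a, b)` with
`y + a s + b t + w ∈ A`. For `g ≠ 0` let `g, h` be a basis of `W`: the three lines `{g, h, -g - h}`, `{g, g + h, g - h}`,
`{g, -h, h - g}` through `g` (each is `{φ' = 1}` for a functional `φ'` of the eight) give `3 f(g) + (8 - f(g) - f(-g)) = 9`,
so `2 f(g) - f(-g) = 1`, and with `-g`: `f(g) = f(-g) = 1`. So `f = 1`. Let `d w` be the position of `w`. `g, h, g + h, g - h` are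
pairwise independent; two independent elements are on a common line not through `0`; by the last part
of PC their positions are in different rows. But there are only three rows. -/
def SpecP3 : Prop := ∀ (V : Type) [AddCommGroup V] [Module (ZMod 3) V] [Finite V] (A : Set V), Sy A →
  QR A → ∀ (W : Submodule (ZMod 3) V) (s t : V), Conf A W s t → 9 ≤ Nat.card W →
  ∀ y, y ∉ FF W s t →
  9 + {p : ZMod 3 × ZMod 3 | y + p.1 • s + p.2 • t ∈ A}.ncard ≤ (cs A (FF W s t) y).ncard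

/-- P4B [200 lines] (P2, P8, EX2). Exactly one position without index 0.

Proof. `e₀ = 8`. Suppose `T ≤ 17`. `φ, ψ` from EX2 (`w₁ = 0`). `m = |B|`, `B` = the elements `w` at the position `p₁`, `l₁` = the
number of `w ∈ B` with `φ w = ψ w = 0`; the `x ∈ Y` with `φ x = ψ x = 0` are at least `8 + l₁`; so by P8
`∑ EC ≤ 3 (9 - l₁) = 27 - 3 l₁` (sum over the eight functionals). Let `a_χ = |{w ∈ B | χ w = 1}|`, `∑ a_χ = 3 (m - l₁)`.
P2: `EC ≥ 3` and `EC ≥ a_χ + 2` if `a_χ ≥ 1`; so `∑ EC ≥ 24 + ∑ (a_χ - 1) ≥ 24 + 3 (m - l₁) - 8 ≥ 28 - 3 l₁` (`m ≥ 4`), a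
contradiction. (The bound `24 + ∑ (a_χ - 1)⁺ ≥ 24 + ∑ (a_χ - 1)` holds always.) -/
def SpecP4B : Prop := ∀ (V : Type) [AddCommGroup V] [Module (ZMod 3) V] [Finite V] (A : Set V), Sy A →
  QR A → ∀ (W : Submodule (ZMod 3) V) (s t : V), Conf A W s t → 9 ≤ Nat.card W →
  ∀ y, y ∉ FF W s t → ∀ a₁ b₁ : ZMod 3, 4 ≤ (cs A W (y + a₁ • s + b₁ • t)).ncard →
  (∀ a b : ZMod 3, y + a • s + b • t ∈ A ↔ ¬ (a = a₁ ∧ b = b₁)) → 18 ≤ (cs A (FF W s t) y).ncard

/-- P4C [200 lines] (P2, P8, EX2). Two positions without index 0, `|W| ≥ 27`.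

Proof. As P4B. `e₀ = 7`, `T ≤ 17`. `w₁` of EX2 = an element `≠ 0` at the position `p₂`. `l` = the number of `x ∈ Y`,
`φ x = ψ x = 0`, which are not one of the points `y + a s + b t`; `l ≥ l₁ + 1`, where `l₁` counts those at the
position `p₁`. `∑ EC ≤ 3 (10 - l) = 30 - 3 l ≤ 27 - 3 l₁`, and `∑ EC ≥ 28 - 3 l₁` as in P4B. -/
def SpecP4C : Prop := ∀ (V : Type) [AddCommGroup V] [Module (ZMod 3) V] [Finite V] (A : Set V), Sy A →
  QR A → ∀ (W : Submodule (ZMod 3) V) (s t : V), Conf A W s t → 27 ≤ Nat.card W →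
  ∀ y, y ∉ FF W s t → ∀ a₁ b₁ a₂ b₂ : ZMod 3, ¬ (a₁ = a₂ ∧ b₁ = b₂) →
  4 ≤ (cs A W (y + a₁ • s + b₁ • t)).ncard → 4 ≤ (cs A W (y + a₂ • s + b₂ • t)).ncard →
  (∀ a b : ZMod 3, y + a • s + b • t ∈ A ↔ ¬ (a = a₁ ∧ b = b₁) ∧ ¬ (a = a₂ ∧ b = b₂)) →
  18 ≤ (cs A (FF W s t) y).ncard

/-- PE [250 lines]. Two positions: lower bounds for the number `e'` of the other elements of a line of
`L` (three elements); `X, Y` are the elements at the positions `p₁`, `p₂`.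

Proof. Put `D = ⋃ D w`. (i) `X = Y = ∅`: `e' ≥ 3` by PC. (ii) exactly one is empty, say `Y`: `e' ≥ 2` by PC (second part).
(iii) Let `X, Y ≠ ∅` and `e' = 0`. Then `D ⊆ {p₁, p₂}` is not dominating, so `X ∪ Y = L` ((0) in PC). Let
`δ = p₂ - p₁`. For every `p ≠ p₁, p₂` and every `w` the rule holds with `p₁, p₂` only (`decide` over `δ`, `X`, `Y`): if
`δ = ± (1,1)` it fails; if `δ` is `(± 1, 0)` or `(0, ± 1)` it implies `X = Y = L`; if `δ = ± (1,-1)` it implies `|X|, |Y| ≥ 2`.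
So the statement can be proved for `L = Fin 3` by `decide` over the `8 * 8 * 8` cases. -/
def SpecPE : Prop := ∀ (D : Fin 3 → Set (ZMod 3 × ZMod 3)), RuleD D → ∀ p₁ p₂ : ZMod 3 × ZMod 3,
  p₁ ≠ p₂ →
  ((∀ w, p₁ ∉ D w ∧ p₂ ∉ D w) → 3 ≤ ∑ w, (D w \ {p₁, p₂}).ncard) ∧
  ((∀ w, p₁ ∉ D w) ∨ (∀ w, p₂ ∉ D w) → 2 ≤ ∑ w, (D w \ {p₁, p₂}).ncard) ∧
  ((∑ w, (D w \ {p₁, p₂}).ncard) = 0 → (∀ w, p₁ ∈ D w ∨ p₂ ∈ D w) ∧
    2 ≤ {w | p₁ ∈ D w}.ncard ∧ 2 ≤ {w | p₂ ∈ D w}.ncard)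

/-- PF [150 lines]. Two half systems in the plane.

Proof. Computation (`16 * 16` pairs; `decide`), or: `X = {φ₁ = 1} ∪ {x}`, `φ₁ x = 0`; the `χ` with `|X ∩ {χ = 1}| ≥ 2` are `φ₁`
and the three `χ` with `χ x = 1`. `f = 0` for at most three `χ` (if for four, then `x` and `φ₁` are the same for
`X` and `Y`, `X = Y`, and then the three `χ` with `χ x = 1` do not have `X ∪ Y ⊇ {χ = 1}`). `χ = -φ₁` has `X ∩ {χ = 1} = ∅`. If
`φ₁` is the same for `Y`: `∑ f ≥ 3 + 4`; otherwise `∑ f ≥ 2 + 2 + 3`. Here the planes are given by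
`ZMod 3 × ZMod 3`, and `χ = (χ₁, χ₂)` runs over the eight nonzero pairs. -/
def SpecPF : Prop := ∀ (X Y : Finset (ZMod 3 × ZMod 3)) (f : ZMod 3 × ZMod 3 → ℕ),
  (∀ w : ZMod 3 × ZMod 3, w ≠ 0 → (w ∈ X ↔ -w ∉ X) ∧ (w ∈ Y ↔ -w ∉ Y)) → 0 ∉ X → 0 ∉ Y →
  (∀ c : ZMod 3 × ZMod 3, c ≠ 0 →
    ((∀ w, c.1 * w.1 + c.2 * w.2 = 1 → w ∉ X ∧ w ∉ Y) → 3 ≤ f c) ∧
    ((∀ w, c.1 * w.1 + c.2 * w.2 = 1 → w ∉ X) ∨ (∀ w, c.1 * w.1 + c.2 * w.2 = 1 → w ∉ Y) →
      2 ≤ f c) ∧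
    (f c = 0 → (∀ w, c.1 * w.1 + c.2 * w.2 = 1 → w ∈ X ∨ w ∈ Y) ∧
      2 ≤ (X.filter fun w => c.1 * w.1 + c.2 * w.2 = 1).card ∧
      2 ≤ (Y.filter fun w => c.1 * w.1 + c.2 * w.2 = 1).card)) →
  7 ≤ ∑ c ∈ Finset.univ.erase (0 : ZMod 3 × ZMod 3), f c

/-- P4D [300 lines] (PD, PE, PF, P8, EX2, SPN, YSM). Two positions without index 0, `|W| = 9`.

Proof. Suppose `T ≤ 17`. The elements `B₁, B₂` at the two positions have at least four elements, and meet all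
kernels. `7 + |B₁| + |B₂| ≤ T` and P2: if `|B₁| ≥ 5` then as in P4B (`l = 0`) `∑ EC ≥ 24 + 3 * 5 - 8 = 31 > 3 * 10`; so
`|B₁| = |B₂| = 4`, and there are at most `17 - 7 - 8 = 2` other elements which are not one of the points. `φ, ψ` from
EX2: `w ↦ (φ w, ψ w)` is a bijection `W ≅ ZMod 3 × ZMod 3`; `B₁, B₂` become half systems `X, Y` (four elements which
meet the kernels of the four functionals up to sign). For `χ = c₁ φ + c₂ ψ` let `f c` be the number of elements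
of `{χ = 1}` at the other seven positions; PE (with `{w ∈ W | χ w = 1} ≅ Fin 3`) gives the hypotheses of PF, so
`∑ f ≥ 7`; but every `w ≠ 0` is in three of the eight lines, so `∑ f ≤ 3 * 2 = 6`. -/
def SpecP4D : Prop := ∀ (V : Type) [AddCommGroup V] [Module (ZMod 3) V] [Finite V] (A : Set V), Sy A →
  QR A → ∀ (W : Submodule (ZMod 3) V) (s t : V), Conf A W s t → Nat.card W = 9 →
  ∀ y, y ∉ FF W s t → ∀ a₁ b₁ a₂ b₂ : ZMod 3, ¬ (a₁ = a₂ ∧ b₁ = b₂) →
  (∀ a b : ZMod 3, y + a • s + b • t ∈ A ↔ ¬ (a = a₁ ∧ b = b₁) ∧ ¬ (a = a₂ ∧ b = b₂)) →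
  (∀ φ : V →ₗ[ZMod 3] ZMod 3, φ s = 0 → φ t = 0 → φ y = 0 →
    ∀ a b : ZMod 3, ∃ w ∈ W, φ w = 0 ∧ y + a • s + b • t + w ∈ A) →
  18 ≤ (cs A (FF W s t) y).ncard

/-- P4 [150 lines] (P3, P4B, P4C, P4D, SPN, EXF, YSM). All hyperplanes are good.

Proof. Let `c` be the number of positions with `y + a s + b t ∉ A`. At such a position the set `B` of the `w` does
not contain `0` and meets the kernels of all functionals (EXF), so `|B| ≥ 4` (SPN). If `T ≤ 17` then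
`(9 - c) + 4 c ≤ 17` (all nine cosets of `W` contain an element), `c ≤ 2`. `c = 0`: P3, `T ≥ 18`. `c = 1`: P4B. `c = 2`: P4C
or P4D (`|W| ≥ 9` is a power of three). -/
def SpecP4 : Prop := ∀ (V : Type) [AddCommGroup V] [Module (ZMod 3) V] [Finite V] (A : Set V), Sy A →
  QR A → ∀ (W : Submodule (ZMod 3) V) (s t : V), Conf A W s t → 9 ≤ Nat.card W →
  ∀ y, y ∉ FF W s t →
  (∀ φ : V →ₗ[ZMod 3] ZMod 3, φ s = 0 → φ t = 0 → φ y = 0 →
    ∀ a b : ZMod 3, ∃ w ∈ W, φ w = 0 ∧ y + a • s + b • t + w ∈ A) →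
  18 ≤ (cs A (FF W s t) y).ncard

/-- P5A [200 lines] (PL1, SPN, EXF). An exceptional hyperplane: eight points.

Proof. Let `φ` be exceptional, `(α, β)` as in `Exc (PW .. φ)`. Every other `φ'` (zero on `s, t, y`, not zero on `W`) is
good or exceptional (PL1), and if it is exceptional then its position `(α', β')` is `(α, β)`: the sizes `sz` are the
same for `φ` and `φ'` (PL1); if `α' ≠ α` then `α' = -α`, and `sz (-α) b = 2` for all `b` contradicts `∃ b, sz (-α) b ≠ 2`; the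
same for `β`. So for `(a, b) ≠ (α, β)` and every functional there is a `w ∈ W`, `φ' w = 0`, `y + a s + b t + w ∈ A`. The sizes
of an exceptional pattern are at most 3, so by SPN (with EXF) `0` is one of these `w`, i.e.
`y + a s + b t ∈ A`. For `(α, β)`: `y + α s + β t ∈ A` would give `PW .. α β 0`. The elements `x` of `A` with `φ x = 0`: by the
injectivity in PL1 they are the eight points. -/
def SpecP5A : Prop := ∀ (V : Type) [AddCommGroup V] [Module (ZMod 3) V] [Finite V] (A : Set V), Sy A →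
  QR A → ∀ (W : Submodule (ZMod 3) V) (s t : V), Conf A W s t → 9 ≤ Nat.card W →
  ∀ y, y ∉ FF W s t → Sgl A W y → (cs A (FF W s t) y).ncard ≤ 17 →
  ∀ φ : V →ₗ[ZMod 3] ZMod 3, φ s = 0 → φ t = 0 → φ y = 0 → (∃ w ∈ W, φ w ≠ 0) →
  (¬ ∀ a b : ZMod 3, ∃ w ∈ W, φ w = 0 ∧ y + a • s + b • t + w ∈ A) →
  (cs A (FF W s t) y).ncard = 17 ∧
  {p : ZMod 3 × ZMod 3 | y + p.1 • s + p.2 • t ∈ A}.ncard = 8 ∧
  (∀ x ∈ A, x - y ∈ FF W s t → φ x = 0 → ∃ a b : ZMod 3, x = y + a • s + b • t) ∧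
  (EC A W s t y φ 1 = 4 ∨ EC A W s t y φ 1 = 5)

/-- P5 [200 lines] (P5A, P2, P8, EX2). There is no exceptional hyperplane.

Proof. `Y = cs A (FF W s t) y`, `|Y| = 17`, eight elements of `Y` have `φ x = 0`, they are points, so `ψ x = 0` for them;
the other nine have `φ x = ± 1`. Let `ψ` be such that `φ, ψ` are independent on `W`, `ψ s = ψ t = ψ y = 0` (EXF). P8:
`∑ EC = 27` over the eight functionals; `EC φ 1 + EC (-φ) 1 = 9`, so by P2 the other six `EC` are exactly `3`. Let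
`g(c) = |{x ∈ Y | φ x = 1, ψ x = c}|`, `h(c) = |{x ∈ Y | φ x = -1, ψ x = c}|`. `EC (ψ + λ φ) 1 = g(1 - λ) + h(1 + λ) = 3` and
`EC (-ψ + λ φ) 1 = g(λ - 1) + h(-λ - 1) = 3`; so `g(c) + h(c') = 3` whenever `c + c' ≠ 0`. Hence `g(0) = g(1) = g(2)`, and
`EC φ 1 = g(0) + g(1) + g(2)` is divisible by 3, but it is 4 or 5. -/
def SpecP5 : Prop := ∀ (V : Type) [AddCommGroup V] [Module (ZMod 3) V] [Finite V] (A : Set V), Sy A →
  QR A → ∀ (W : Submodule (ZMod 3) V) (s t : V), Conf A W s t → 9 ≤ Nat.card W →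
  ∀ y, y ∉ FF W s t → Sgl A W y → (cs A (FF W s t) y).ncard ≤ 17 →
  ∀ φ : V →ₗ[ZMod 3] ZMod 3, φ s = 0 → φ t = 0 → φ y = 0 →
    ∀ a b : ZMod 3, ∃ w ∈ W, φ w = 0 ∧ y + a • s + b • t + w ∈ A

/-- COR [100 lines] (P4, P5, YSM, MEE). THE CORE.

Proof. Suppose `T ≤ 17`. By YSM and MEE one of the nine cosets of `W` has exactly one element `y'`; `Sgl A W y'`, and
`y'` can replace `y` (`cs A F y' = cs A F y`). P5, then P4 (for `φ = 0` on `W` use any element, MEE). -/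
def SpecCOR : Prop := ∀ (V : Type) [AddCommGroup V] [Module (ZMod 3) V] [Finite V] (A : Set V), Sy A →
  QR A → ∀ (W : Submodule (ZMod 3) V) (s t : V), Conf A W s t → 9 ≤ Nat.card W →
  ∀ y, y ∉ FF W s t → 18 ≤ (cs A (FF W s t) y).ncard

/-! ## Part 4: `8 M / 9` colours -/

/-- N5G [80 lines] (EXS, CBA, SPN, MEE). `NN ≥ 5` if `|W| ≥ 9`.

Proof. Let `φ` be a functional which is not zero on `W`, `φ s = φ t = 0`, `K = W ⊓ ker φ ≠ ⊥`. `QR` for `WConf A W K s t`: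
there is an `x ∈ A`, `x - (s - t) ∈ K`. So `Y = {w ∈ W | s - t + w ∈ A}` meets all kernels, `0 ∉ Y`, `|Y| ≥ 4` (SPN); and
`cs A W (s + t)` is not empty (MEE). -/
def SpecN5G : Prop := ∀ (V : Type) [AddCommGroup V] [Module (ZMod 3) V] [Finite V] (A : Set V), Sy A →
  QR A → ∀ (W : Submodule (ZMod 3) V) (s t : V), Conf A W s t → 9 ≤ Nat.card W →
  5 ≤ NN A W s t

/-- T8 [60 lines]. A table with 8 colours (`/team-store/MP_b63a06_TR_tables.txt`, T8, coordinates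
`z, s, t`). -/
def SpecT8 : Prop := ∃ col : (Fin 3 → ZMod 3) → ℕ, (∀ c, col c < 8) ∧
  ∀ c d, c ≠ d → EP ((c - d) 0) ((c - d) 1) ((c - d) 2) → col c ≠ col d

/-- C8 [100 lines] (T8, CRD, CBA). `8 M / 9` colours if `|W| = 3`.

Proof. `W = {0, z, -z}`. CRD with `R = ⊥`, `g = (z, s, t)`, `C = EP`: let `a ∈ A`, `a = c₀ z + c₁ s + c₂ t`. If `c₁ = 0` or `c₂ = 0`
then `a` is in one of the cosets `0, ± s, ± t` of `W`, so `c₀ = 0`. If `c₁ = -c₂ ≠ 0` then `c₀ ≠ 0` because `± (s - t) ∉ A`.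
`ix ⊥ = |V| = 3 * ix W = 27 m`. -/
def SpecC8 : Prop := ∀ (V : Type) [AddCommGroup V] [Module (ZMod 3) V] [Finite V] (A : Set V), Sy A →
  ∀ (W : Submodule (ZMod 3) V) (s t : V), Conf A W s t → Nat.card W = 3 →
  ∃ m, ix W = 9 * m ∧ ColA A (8 * m)

/-- AFN [150 lines] (QUO, COR, C8, N5G, CBA, AVG, EXM). `8 M / 9` colours.

Proof. Strong induction over `|V|`. If `QR` fails: `WConf A W Z a b`, `Z ≠ ⊥`; QUO gives a conflict in `V ⧸ Z`, where
the induction hypothesis applies; pull the colouring back. Let `QR A` hold and let `(W, s, t)` be a conflict. `W ≠ ⊥`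
(`s - t ∉ A`: MEE for `W = ⊥` would give `s - t ∈ A`). `|W| = 3`: C8. `|W| ≥ 9`: `NN ≥ 5`, `|cs A F 0| ≥ 15`,
`|A| + 18 ≤ 2 M + 14 < 15 + 18 * ix F` (`M = 9 * ix F`), so AVG gives `y ∉ F` with at most 17 elements, against COR. -/
def SpecAFN : Prop := ∀ (V : Type) [AddCommGroup V] [Module (ZMod 3) V] [Finite V] (A : Set V), Sy A →
  (∀ W, MaxAv A W → A.ncard + 4 ≤ 2 * ix W) → (∃ W s t, Conf A W s t) →
  ∀ W, MaxAv A W → ∃ m, ix W = 9 * m ∧ ColA A (8 * m)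

end Pool.Agent.Lib.MP_b63a06_co.TR
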